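import Pool.Agent.M3.S3.Bud

/-!
# M3.S3B.RareB: step (5) (RARITY) of note 3448 (helper4)

Static.  `v` = a class (cell of the virtual partition of the second family), `C` = cell of the second known point,
`kg x c G` = kernel of the second label, `good c` = the pair is admitted, `p0F c`, `p0 c` = law of the second label on the
class of the start given the first letter, resp. without it.

`RR x = avg over c in C of 1[good c] * ∑ G, kg x c G * 1[law v G ≤ B * p0 c G] * (log (p0F c G / p0 c G) - d)^+`.

* `rareB` : if `v` is saturated with constant `sig` on `C` and `avg C (1[good c] * klf (p0F c) (p0 c)) ≤ e0` then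
  `#{x ∈ v : RR x > sig * (L + 1) + B * (4 / d) * e0} ≤ exp (-L) * |v|`;
* `rareB_part` : union over the letters and over the cells of a partition of the class `W`;
* `cl` = law of the second label on a class given the first letter (`cl_nn`, `cl_sum`, `cl_ac`, `cl_ratio` = density `io`);
* `card_supp_le` : number of letters;
* `dv_klf`, `exp_psi_le`, `sub_one_mul_log_le` : the inequalities used.
-/

set_option autoImplicit false
set_option linter.unusedSectionVars false

namespace Pool.Agent.M3.S3

open Finset Pool.Agent.PWZ Pool.Agent.M3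

noncomputable section

namespace RB

theorem phi_nonneg {r : ℝ} (hr : 0 ≤ r) : 0 ≤ r * Real.log r - r + 1 := by
  rcases hr.eq_or_lt with h | h
  · rw [← h]; simp
  · have h1 := Real.one_sub_inv_le_log_of_pos h
    have h2 := mul_le_mul_of_nonneg_left h1 h.le
    have h3 : r * (1 - r⁻¹) = r - 1 := by field_simp
    linarith

theorem sub_one_mul_log_le {r : ℝ} (hr : 1 ≤ r) :
    (r - 1) * Real.log r ≤ 4 * (r * Real.log r - r + 1) := by
  set s := Real.sqrt r with hs
  have hs1 : 1 ≤ s := by
    rw [hs]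
    exact Real.le_sqrt_of_sq_le (by simpa using hr)
  have hs0 : 0 < s := by linarith
  have hsq : s ^ 2 = r := Real.sq_sqrt (by linarith)
  have h1 : 1 - s⁻¹ ≤ Real.log s := Real.one_sub_inv_le_log_of_pos hs0
  have h2 : Real.log r = 2 * Real.log s := by
    rw [← hsq, Real.log_pow]; norm_num
  have h3 : 4 * (r - 1) ≤ (3 * r + 1) * Real.log r := by
    rw [h2, ← hsq]
    have h4 : (3 * s ^ 2 + 1) * (2 * (1 - s⁻¹)) ≤ (3 * s ^ 2 + 1) * (2 * Real.log s) :=
      mul_le_mul_of_nonneg_left (by linarith) (by positivity)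
    have h5 : 4 * (s ^ 2 - 1) ≤ (3 * s ^ 2 + 1) * (2 * (1 - s⁻¹)) := by
      have e : (3 * s ^ 2 + 1) * (2 * (1 - s⁻¹)) = ((3 * s ^ 2 + 1) * (2 * (s - 1))) / s := by
        field_simp
      rw [e, le_div_iff₀ hs0]
      nlinarith [mul_nonneg (sub_nonneg.2 hs1) (sq_nonneg (s - 1))]
    linarith
  linarith

/-- exponential of the clipped density -/
theorem exp_psi_le {r d : ℝ} (hr : 0 ≤ r) (hd : 0 < d) :
    Real.exp (max (Real.log r - d) 0) - 1 ≤ 4 / d * (r * Real.log r - r + 1) := by
  by_cases h : Real.log r ≤ d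
  · rw [max_eq_right (by linarith), Real.exp_zero, sub_self]
    exact mul_nonneg (by positivity) (phi_nonneg hr)
  · push Not at h
    have hr0 : 0 < r := by
      rcases hr.eq_or_lt with h0 | h0
      · rw [← h0, Real.log_zero] at h; linarith
      · exact h0
    have hr1 : 1 ≤ r := by
      by_contra hc
      push Not at hc
      have := Real.log_neg hr0 hc
      linarith
    rw [max_eq_left (by linarith)]
    have h1 : Real.exp (Real.log r - d) ≤ r := by
      calc Real.exp (Real.log r - d) ≤ Real.exp (Real.log r) := Real.exp_le_exp.2 (by linarith)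
        _ = r := Real.exp_log hr0
    have h2 := sub_one_mul_log_le hr1
    have h3 : (r - 1) * d ≤ (r - 1) * Real.log r := mul_le_mul_of_nonneg_left h.le (by linarith)
    rw [div_mul_eq_mul_div, le_div_iff₀ hd]
    have h4 : (Real.exp (Real.log r - d) - 1) * d ≤ (r - 1) * d := mul_le_mul_of_nonneg_right (by linarith) hd.le
    linarith

section dv

variable {φ : Type*} [Fintype φ]

/-- duality for the relative entropy, in the form `log Z ≤ Z - 1` -/
theorem dv_klf {p q h : φ → ℝ} (hp : ∀ F, 0 ≤ p F) (hq : ∀ F, 0 ≤ q F) (hpq : ∀ F, p F ≠ 0 → 0 < q F)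
    (hp1 : ∑ F, p F = 1) (hq1 : ∑ F, q F = 1) :
    ∑ F, p F * h F ≤ klf p q + ∑ F, q F * (Real.exp (h F) - 1) := by
  have h1 : ∀ F, p F * h F ≤ p F * Real.log (p F / q F) + q F * Real.exp (h F) - p F := by
    intro F
    by_cases h0 : p F = 0
    · rw [h0]
      have := mul_nonneg (hq F) (Real.exp_pos (h F)).le
      simp only [zero_mul]
      linarith
    · have hp' : 0 < p F := lt_of_le_of_ne (hp F) (Ne.symm h0)
      have hq' := hpq F h0
      have h2 := Real.log_le_sub_one_of_pos (x := q F * Real.exp (h F) / p F)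
        (div_pos (mul_pos hq' (Real.exp_pos _)) hp')
      have h3 : Real.log (q F * Real.exp (h F) / p F) = h F - Real.log (p F / q F) := by
        rw [Real.log_div (mul_pos hq' (Real.exp_pos _)).ne' hp'.ne', Real.log_mul hq'.ne' (Real.exp_pos _).ne',
          Real.log_exp, Real.log_div hp'.ne' hq'.ne']
        ring
      rw [h3] at h2
      have h4 := mul_le_mul_of_nonneg_left h2 hp'.le
      have h5 : p F * (q F * Real.exp (h F) / p F - 1) = q F * Real.exp (h F) - p F := by field_simp
      rw [h5] at h4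
      linarith
  have h2 := Finset.sum_le_sum (s := (Finset.univ : Finset φ)) (fun F _ => h1 F)
  rw [Finset.sum_sub_distrib, Finset.sum_add_distrib, hp1] at h2
  have h3 : ∑ F, q F * (Real.exp (h F) - 1) = ∑ F, q F * Real.exp (h F) - 1 := by
    simp only [mul_sub, mul_one, Finset.sum_sub_distrib, hq1]
  rw [h3]
  unfold klf
  linarith

/-- the relative entropy as a mean of `phi` of the density -/
theorem sum_phi_eq {p q : φ → ℝ} (hpq : ∀ F, q F = 0 → p F = 0)
    (hp1 : ∑ F, p F = 1) (hq1 : ∑ F, q F = 1) :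
    ∑ F, q F * (p F / q F * Real.log (p F / q F) - p F / q F + 1) = klf p q := by
  have h1 : ∀ F, q F * (p F / q F * Real.log (p F / q F) - p F / q F + 1) =
      p F * Real.log (p F / q F) - p F + q F := by
    intro F
    by_cases h : q F = 0
    · rw [h, hpq F h]; simp
    · field_simp
  rw [Finset.sum_congr rfl fun F _ => h1 F, Finset.sum_add_distrib, Finset.sum_sub_distrib, hp1, hq1]
  unfold klf
  ring

/-- number of letters -/
theorem card_supp_le {p : φ → ℝ} {al : ℝ} (h0 : ∀ F, 0 ≤ p F) (h1 : ∑ F, p F = 1)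
    (hal : ∀ F, p F ≠ 0 → al ≤ p F) (s : Finset φ) (hs : ∀ F ∈ s, p F ≠ 0) : (s.card : ℝ) * al ≤ 1 := by
  rw [← h1]
  calc (s.card : ℝ) * al = ∑ F ∈ s, al := by rw [Finset.sum_const, nsmul_eq_mul]
    _ ≤ ∑ F ∈ s, p F := Finset.sum_le_sum fun F hF => hal F (hs F hF)
    _ ≤ ∑ F, p F := Finset.sum_le_univ_sum_of_nonneg h0

end dv

section rare

variable {X γ φ : Type*} [Fintype φ]

/-- mean of the clipped density over the second known point and the admissible letters -/
def RR (kg : X → γ → φ → ℝ) (v : Finset X) (C : Finset γ) (good : γ → Prop) (p0F p0 : γ → φ → ℝ) (B d : ℝ)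
    (x : X) : ℝ :=
  avg C fun c => ind (good c) * ∑ G, kg x c G *
    (ind (law v (fun y => kg y c) G ≤ B * p0 c G) * max (Real.log (p0F c G / p0 c G) - d) 0)

theorem RR_nonneg {kg : X → γ → φ → ℝ} {v : Finset X} {C : Finset γ} {good : γ → Prop} {p0F p0 : γ → φ → ℝ}
    {B d : ℝ} {x : X} (hk : ∀ c ∈ C, ∀ G, 0 ≤ kg x c G) : 0 ≤ RR kg v C good p0F p0 B d x := by
  unfold RR avg
  refine div_nonneg (Finset.sum_nonneg fun c hc => mul_nonneg (ind_nonneg _) (Finset.sum_nonneg fun G _ => ?_))
    (Nat.cast_nonneg _)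
  exact mul_nonneg (hk c hc G) (mul_nonneg (ind_nonneg _) (le_max_right _ _))

/-- the mean of a linear expression of the kernel over a class is the expression of the law -/
theorem avg_lin (kg : X → γ → φ → ℝ) (S : Finset X) (C : Finset γ) (h : γ → φ → ℝ) :
    avg S (fun x => avg C fun c => ∑ G, kg x c G * h c G) =
      avg C fun c => ∑ G, law S (fun x => kg x c) G * h c G := by
  unfold law avg
  simp only [← Finset.sum_div]
  rw [div_div, mul_comm (C.card : ℝ) (S.card : ℝ), ← div_div]
  congr 1
  rw [Finset.sum_comm, Finset.sum_div]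
  refine Finset.sum_congr rfl fun c _ => ?_
  rw [Finset.sum_comm, Finset.sum_div]
  refine Finset.sum_congr rfl fun G _ => ?_
  rw [← Finset.sum_mul]
  ring

/-- RARITY: step (5) of note 3448 -/
theorem rareB {kg : X → γ → φ → ℝ} {v : Finset X} {C : Finset γ} {good : γ → Prop} {p0F p0 : γ → φ → ℝ}
    {B d sig e0 L : ℝ} (hk0 : ∀ x ∈ v, ∀ c ∈ C, ∀ G, 0 ≤ kg x c G) (hk1 : ∀ x ∈ v, ∀ c ∈ C, ∑ G, kg x c G = 1)
    (hF0 : ∀ c ∈ C, good c → ∀ G, 0 ≤ p0F c G) (h00 : ∀ c ∈ C, good c → ∀ G, 0 ≤ p0 c G)
    (hF1 : ∀ c ∈ C, good c → ∑ G, p0F c G = 1) (h01 : ∀ c ∈ C, good c → ∑ G, p0 c G = 1)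
    (hac : ∀ c ∈ C, good c → ∀ G, p0 c G = 0 → p0F c G = 0)
    (hB : 0 ≤ B) (hd : 0 < d) (hsig : 0 ≤ sig)
    (hsat : ∀ S ⊆ v, S.Nonempty → avg C (fun c => klf (law S fun x => kg x c) (law v fun x => kg x c)) ≤
      sig * (Real.log ((v.card : ℝ) / S.card) + 1))
    (he0 : avg C (fun c => ind (good c) * klf (p0F c) (p0 c)) ≤ e0) (s : Finset X) (hs : s ⊆ v)
    (hR : ∀ x ∈ s, sig * (L + 1) + B * (4 / d) * e0 < RR kg v C good p0F p0 B d x) :
    (s.card : ℝ) ≤ Real.exp (-L) * v.card := by
  by_contra hcon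
  push Not at hcon
  have hsc : (0 : ℝ) < s.card := lt_of_le_of_lt (by positivity) hcon
  have hsne : s.Nonempty := Finset.card_pos.1 (by exact_mod_cast hsc)
  have hvc : (0 : ℝ) < v.card := by exact_mod_cast (hsne.mono hs).card_pos
  have hlog : Real.log ((v.card : ℝ) / s.card) ≤ L := by
    rw [Real.log_le_iff_le_exp (by positivity), div_le_iff₀ hsc]
    have h1 : Real.exp L * (Real.exp (-L) * v.card) = v.card := by
      rw [← mul_assoc, ← Real.exp_add]; simp
    calc (v.card : ℝ) = Real.exp L * (Real.exp (-L) * v.card) := h1.symm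
      _ ≤ Real.exp L * s.card := mul_le_mul_of_nonneg_left hcon.le (Real.exp_pos _).le
  -- the mean of `RR` over `s`
  set h : γ → φ → ℝ := fun c G => ind (good c) *
    (ind (law v (fun y => kg y c) G ≤ B * p0 c G) * max (Real.log (p0F c G / p0 c G) - d) 0) with hh
  have e1 : ∀ x, RR kg v C good p0F p0 B d x = avg C fun c => ∑ G, kg x c G * h c G := by
    intro x
    unfold RR
    congr 1
    funext c
    rw [Finset.mul_sum]
    refine Finset.sum_congr rfl fun G _ => ?_
    simp only [hh]
    ring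
  have h1 : sig * (L + 1) + B * (4 / d) * e0 < avg s (RR kg v C good p0F p0 B d) := by
    unfold avg
    rw [lt_div_iff₀ hsc]
    calc (sig * (L + 1) + B * (4 / d) * e0) * s.card = ∑ x ∈ s, (sig * (L + 1) + B * (4 / d) * e0) := by
          rw [Finset.sum_const, nsmul_eq_mul, mul_comm]
      _ < _ := Finset.sum_lt_sum_of_nonempty hsne hR
  have e2 : avg s (RR kg v C good p0F p0 B d) = avg C fun c => ∑ G, law s (fun x => kg x c) G * h c G := by
    rw [← avg_lin]
    congr 1
    funext x
    exact e1 x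
  have h2 : ∀ c ∈ C, ∑ G, law s (fun x => kg x c) G * h c G ≤
      klf (law s fun x => kg x c) (law v fun x => kg x c) + B * (4 / d) * (ind (good c) * klf (p0F c) (p0 c)) := by
    intro c hc
    have ls0 : ∀ G, 0 ≤ law s (fun x => kg x c) G := fun G =>
      div_nonneg (Finset.sum_nonneg fun x hx => hk0 x (hs hx) c hc G) (Nat.cast_nonneg _)
    have lv0 : ∀ G, 0 ≤ law v (fun x => kg x c) G := fun G =>
      div_nonneg (Finset.sum_nonneg fun x hx => hk0 x hx c hc G) (Nat.cast_nonneg _)
    have lsv : ∀ G, law s (fun x => kg x c) G ≠ 0 → 0 < law v (fun x => kg x c) G := by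
      intro G hG
      refine lt_of_le_of_ne (lv0 G) (fun h0 => hG ?_)
      have h3 : ∑ x ∈ v, kg x c G = 0 := by
        unfold law avg at h0
        rcases div_eq_zero_iff.1 h0.symm with h | h
        · exact h
        · exact absurd h hvc.ne'
      have h4 := (Finset.sum_eq_zero_iff_of_nonneg (fun x hx => hk0 x hx c hc G)).1 h3
      unfold law avg
      rw [Finset.sum_eq_zero (fun x hx => h4 x (hs hx)), zero_div]
    have ls1 : ∑ G, law s (fun x => kg x c) G = 1 := law_sum hsne fun x hx => hk1 x (hs hx) c hc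
    have lv1 : ∑ G, law v (fun x => kg x c) G = 1 := law_sum (hsne.mono hs) fun x hx => hk1 x hx c hc
    have h3 := dv_klf (h := h c) ls0 lv0 lsv ls1 lv1
    refine h3.trans (add_le_add le_rfl ?_)
    by_cases hg : good c
    · rw [ind_of hg, one_mul, ← sum_phi_eq (hac c hc hg) (hF1 c hc hg) (h01 c hc hg), Finset.mul_sum]
      refine Finset.sum_le_sum fun G _ => ?_
      have hr : 0 ≤ p0F c G / p0 c G := div_nonneg (hF0 c hc hg G) (h00 c hc hg G)
      have h5 := exp_psi_le hr hd
      have h6 := phi_nonneg hr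
      by_cases ha : law v (fun y => kg y c) G ≤ B * p0 c G
      · have e3 : h c G = max (Real.log (p0F c G / p0 c G) - d) 0 := by
          simp only [hh]
          rw [ind_of hg, ind_of ha, one_mul, one_mul]
        rw [e3]
        have h7 : 0 ≤ Real.exp (max (Real.log (p0F c G / p0 c G) - d) 0) - 1 := by
          have := Real.one_le_exp (le_max_right (Real.log (p0F c G / p0 c G) - d) 0)
          linarith
        calc law v (fun x => kg x c) G * (Real.exp (max (Real.log (p0F c G / p0 c G) - d) 0) - 1)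
            ≤ (B * p0 c G) * (Real.exp (max (Real.log (p0F c G / p0 c G) - d) 0) - 1) :=
              mul_le_mul_of_nonneg_right ha h7
          _ ≤ (B * p0 c G) * (4 / d * (p0F c G / p0 c G * Real.log (p0F c G / p0 c G) - p0F c G / p0 c G + 1)) :=
              mul_le_mul_of_nonneg_left h5 (mul_nonneg hB (h00 c hc hg G))
          _ = _ := by ring
      · have e3 : h c G = 0 := by
          simp only [hh]
          rw [ind_not ha]; ring
        rw [e3, Real.exp_zero, sub_self, mul_zero]
        exact mul_nonneg (mul_nonneg hB (by positivity)) (mul_nonneg (h00 c hc hg G) h6)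
    · have e3 : ∀ G, h c G = 0 := by
        intro G
        simp only [hh]
        rw [ind_not hg]; ring
      rw [ind_not hg]
      simp only [e3, Real.exp_zero, sub_self, mul_zero, Finset.sum_const_zero, zero_mul, le_refl]
  have h3 : avg C (fun c => ∑ G, law s (fun x => kg x c) G * h c G) ≤
      avg C (fun c => klf (law s fun x => kg x c) (law v fun x => kg x c)) +
        B * (4 / d) * avg C (fun c => ind (good c) * klf (p0F c) (p0 c)) := by
    unfold avg
    rw [← mul_div_assoc, ← add_div]
    refine div_le_div_of_nonneg_right ?_ (Nat.cast_nonneg _)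
    rw [Finset.mul_sum, ← Finset.sum_add_distrib]
    exact Finset.sum_le_sum h2
  have h4 := hsat s hs hsne
  have h5 : sig * (Real.log ((v.card : ℝ) / s.card) + 1) ≤ sig * (L + 1) :=
    mul_le_mul_of_nonneg_left (by linarith) hsig
  have h6 : B * (4 / d) * avg C (fun c => ind (good c) * klf (p0F c) (p0 c)) ≤ B * (4 / d) * e0 :=
    mul_le_mul_of_nonneg_left he0 (mul_nonneg hB (by positivity))
  rw [e2] at h1
  linarith

/-- law of the second label on the class `V` given the first letter `F` -/
def cl (V : Finset X) (kf kg : X → φ → ℝ) (F G : φ) : ℝ := avg V (fun x => kf x F * kg x G) / law V kf F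

theorem cl_nn {V : Finset X} {kf kg : X → φ → ℝ} (hf : ∀ x ∈ V, ∀ F, 0 ≤ kf x F) (hg : ∀ x ∈ V, ∀ F, 0 ≤ kg x F)
    (F G : φ) : 0 ≤ cl V kf kg F G :=
  div_nonneg (div_nonneg (Finset.sum_nonneg fun x hx => mul_nonneg (hf x hx F) (hg x hx G)) (Nat.cast_nonneg _))
    (div_nonneg (Finset.sum_nonneg fun x hx => hf x hx F) (Nat.cast_nonneg _))

theorem cl_sum {V : Finset X} {kf kg : X → φ → ℝ} (hg : ∀ x ∈ V, ∑ G, kg x G = 1) {F : φ} (hF : law V kf F ≠ 0) :
    ∑ G, cl V kf kg F G = 1 := by
  unfold cl
  rw [← Finset.sum_div]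
  have h1 : ∑ G, avg V (fun x => kf x F * kg x G) = law V kf F := by
    unfold law avg
    rw [← Finset.sum_div, Finset.sum_comm]
    congr 1
    refine Finset.sum_congr rfl fun x hx => ?_
    rw [← Finset.mul_sum, hg x hx, mul_one]
  rw [h1, div_self hF]

theorem cl_ac {V : Finset X} {kf kg : X → φ → ℝ} (hg : ∀ x ∈ V, ∀ F, 0 ≤ kg x F) {F G : φ} (hG : law V kg G = 0) :
    cl V kf kg F G = 0 := by
  rcases V.eq_empty_or_nonempty with h | h
  · rw [h]; simp [cl, avg]
  · have hc : (V.card : ℝ) ≠ 0 := by exact_mod_cast h.card_pos.ne'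
    have h1 : ∑ x ∈ V, kg x G = 0 := by
      unfold law avg at hG
      rcases div_eq_zero_iff.1 hG with h | h
      · exact h
      · exact absurd h hc
    have h2 := (Finset.sum_eq_zero_iff_of_nonneg (fun x hx => hg x hx G)).1 h1
    unfold cl avg
    rw [Finset.sum_eq_zero (fun x hx => by rw [h2 x hx, mul_zero]), zero_div, zero_div]

/-- the density of the pair on the class `V` -/
theorem cl_ratio (V : Finset X) (kf kg : X → φ → ℝ) (F G : φ) :
    cl V kf kg F G / law V kg G = avg V (fun x => kf x F * kg x G) / (law V kf F * law V kg G) := by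
  unfold cl
  rw [div_div]

/-- union over the letters of the first label and over the cells of a partition of the class `W` -/
theorem rareB_part {ι : Type*} {W : Finset X} {cell : X → Finset X} (hself : ∀ x ∈ W, x ∈ cell x)
    (hsub : ∀ x ∈ W, cell x ⊆ W) (hinv : ∀ x ∈ W, ∀ y ∈ cell x, cell y = cell x) (Fs : Finset ι)
    (P : ι → Finset X → X → Prop) {e : ℝ}
    (h : ∀ F ∈ Fs, ∀ x ∈ W, ∀ s ⊆ cell x, (∀ y ∈ s, P F (cell x) y) → (s.card : ℝ) ≤ e * (cell x).card)
    (s : Finset X) (hs : s ⊆ W) (hP : ∀ x ∈ s, ∃ F ∈ Fs, P F (cell x) x) :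
    (s.card : ℝ) ≤ Fs.card * e * W.card := by
  classical
  -- weights
  have hcp : ∀ x ∈ W, (0 : ℝ) < (cell x).card := fun x hx => by
    exact_mod_cast Finset.card_pos.2 ⟨x, hself x hx⟩
  -- one letter
  have h1 : ∀ F ∈ Fs, ((s.filter fun x => P F (cell x) x).card : ℝ) ≤ e * W.card := by
    intro F hF
    set t := s.filter fun x => P F (cell x) x with ht
    have htW : t ⊆ W := (Finset.filter_subset _ _).trans hs
    -- card t = sum over W of |t ∩ cell x| / |cell x|
    have e1 : (t.card : ℝ) = ∑ x ∈ W, ((t ∩ cell x).card : ℝ) / (cell x).card := by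
      have e2 : ∀ x ∈ W, ((t ∩ cell x).card : ℝ) / (cell x).card =
          ∑ y ∈ t, if y ∈ cell x then (1 : ℝ) / (cell x).card else 0 := by
        intro x _
        rw [← Finset.sum_filter, Finset.sum_const, nsmul_eq_mul, mul_one_div]
        congr 3
      rw [Finset.sum_congr rfl e2, Finset.sum_comm]
      have e3 : ∀ y ∈ t, (∑ x ∈ W, if y ∈ cell x then (1 : ℝ) / (cell x).card else 0) = 1 := by
        intro y hy
        have e4 : ∀ x ∈ W, (if y ∈ cell x then (1 : ℝ) / (cell x).card else 0) =
            if x ∈ cell y then (1 : ℝ) / (cell y).card else 0 := by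
          intro x hx
          by_cases hyx : y ∈ cell x
          · have e5 := hinv x hx y hyx
            have hxy : x ∈ cell y := e5 ▸ hself x hx
            rw [if_pos hyx, if_pos hxy, e5]
          · have hxy : ¬ x ∈ cell y := fun hxy => hyx ((hinv y (htW hy) x hxy).symm ▸ hself y (htW hy))
            rw [if_neg hyx, if_neg hxy]
        rw [Finset.sum_congr rfl e4, ← Finset.sum_filter]
        have e6 : W.filter (fun x => x ∈ cell y) = cell y := by
          ext x
          rw [Finset.mem_filter]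
          exact ⟨fun h => h.2, fun h => ⟨hsub y (htW hy) h, h⟩⟩
        rw [e6, Finset.sum_const, nsmul_eq_mul, mul_one_div, div_self (hcp y (htW hy)).ne']
      rw [Finset.sum_congr rfl e3, Finset.sum_const, nsmul_eq_mul, mul_one]
    rw [e1]
    have e7 : ∀ x ∈ W, ((t ∩ cell x).card : ℝ) / (cell x).card ≤ e := by
      intro x hx
      rw [div_le_iff₀ (hcp x hx)]
      refine h F hF x hx (t ∩ cell x) Finset.inter_subset_right (fun y hy => ?_)
      rw [Finset.mem_inter, ht, Finset.mem_filter] at hy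
      rw [← hinv x hx y hy.2]
      exact hy.1.2
    calc ∑ x ∈ W, ((t ∩ cell x).card : ℝ) / (cell x).card ≤ ∑ x ∈ W, e := Finset.sum_le_sum e7
      _ = e * W.card := by rw [Finset.sum_const, nsmul_eq_mul, mul_comm]
  have h2 : s ⊆ Fs.biUnion fun F => s.filter fun x => P F (cell x) x := by
    intro x hx
    obtain ⟨F, hF, hPx⟩ := hP x hx
    exact Finset.mem_biUnion.2 ⟨F, hF, Finset.mem_filter.2 ⟨hx, hPx⟩⟩
  calc (s.card : ℝ) ≤ ((Fs.biUnion fun F => s.filter fun x => P F (cell x) x).card : ℝ) := by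
        exact_mod_cast Finset.card_le_card h2
    _ ≤ ∑ F ∈ Fs, ((s.filter fun x => P F (cell x) x).card : ℝ) := by
        exact_mod_cast Finset.card_biUnion_le
    _ ≤ ∑ F ∈ Fs, e * W.card := Finset.sum_le_sum h1
    _ = _ := by rw [Finset.sum_const, nsmul_eq_mul]; ring

end rare

end RB

end

end Pool.Agent.M3.S3
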