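import Pool.Agent.M3.S3B.RareB

/-!
# M3.S3B.JumpL: saturation for densities and saturation of a half of a class (note 3448 (4), (7), static part; helper6)

* `logsum2` : `(a0+a1) log ((a0+a1)/(b0+b1)) ≤ a0 log (a0/b0) + a1 log (a1/b1)`;
* `cube_le` : a convex function on the cube which is `≤ 0` at the vertices is `≤ 0`;
* `wl V s k` = law of the label on `V` with the density `s` (`wl_eq_cl` : for `s = kf · F` it is `cl`);
* `sat_dens` : SATURATION FOR DENSITIES: if `avg_c klf (law S) (law V) ≤ sg (log (|V|/|S|) + 1)` for all nonempty `S ⊆ V`,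
  then `avg_c klf (wl V s) (law V) ≤ sg (log (1 / avg V s) + 1)` for all `s : V → [0,1]`, `s ≠ 0`;
* `sat_letter` : the case `s = kf · F`: `avg_c klf (cl V kf kg F) (law V kg) ≤ sg (log (1/al) + 1)`;
* `phi_hel` : `t log t - t + 1 ≤ (log M + 3) (√t - 1)^2` for `0 ≤ t ≤ M`, `1 ≤ M`;
* `klf_tri` : `klf p q ≤ 2 (log M + 3) (klf p r + klf q r)` if `p ≤ M q`;
* `sat_child` : if `O` is saturated with the constant `sg` on `C0`, `V ⊆ O`, `|O| ≤ exp L |V|`, `C1 ⊆ C0`, `|C0| ≤ 2 |C1|`, the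
  labels are thick on `V`, then `V` is saturated on `C1` with the constant `8 sg (log (1/al) + 3) (L + 1)`.
-/

set_option autoImplicit false
set_option linter.unusedSectionVars false
set_option linter.unusedVariables false

namespace Pool.Agent.M3.S3

open Finset Pool.Agent.PWZ Pool.Agent.M3

noncomputable section

namespace JL

/-! ## convexity -/

theorem xlog_ge {x y c : ℝ} (hx : 0 ≤ x) (hy : 0 ≤ y) (hc : 0 < c) (h : y = 0 → x = 0) :
    x * Real.log c + (x - c * y) ≤ x * Real.log (x / y) := by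
  rcases hx.eq_or_lt with h0 | h0
  · rw [← h0]
    have : 0 ≤ c * y := mul_nonneg hc.le hy
    simp only [zero_mul, zero_sub, zero_add]
    linarith
  · have hy0 : 0 < y := lt_of_le_of_ne hy fun e => by rw [h e.symm] at h0; exact lt_irrefl _ h0
    have h1 := Real.log_le_sub_one_of_pos (show 0 < c * y / x by positivity)
    have h2 : Real.log (c * y / x) = Real.log c - Real.log (x / y) := by
      rw [Real.log_div (by positivity) h0.ne', Real.log_mul hc.ne' hy0.ne', Real.log_div h0.ne' hy0.ne']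
      ring
    rw [h2] at h1
    have h3 := mul_le_mul_of_nonneg_left h1 hx
    have h4 : x * (c * y / x - 1) = c * y - x := by field_simp
    rw [h4] at h3
    linarith

/-- the log-sum inequality for two terms -/
theorem logsum2 {a0 a1 b0 b1 : ℝ} (ha0 : 0 ≤ a0) (ha1 : 0 ≤ a1) (hb0 : 0 ≤ b0) (hb1 : 0 ≤ b1)
    (h0 : b0 = 0 → a0 = 0) (h1 : b1 = 0 → a1 = 0) :
    (a0 + a1) * Real.log ((a0 + a1) / (b0 + b1)) ≤ a0 * Real.log (a0 / b0) + a1 * Real.log (a1 / b1) := by
  rcases (add_nonneg ha0 ha1).eq_or_lt with hA | hA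
  · have e0 : a0 = 0 := by linarith
    have e1 : a1 = 0 := by linarith
    rw [e0, e1]; simp
  · have hB : 0 < b0 + b1 := by
      rcases (add_nonneg hb0 hb1).eq_or_lt with hB | hB
      · have e0 : b0 = 0 := by linarith
        have e1 : b1 = 0 := by linarith
        rw [h0 e0, h1 e1] at hA
        simp at hA
      · exact hB
    have hc : 0 < (a0 + a1) / (b0 + b1) := div_pos hA hB
    have k0 := xlog_ge ha0 hb0 hc h0
    have k1 := xlog_ge ha1 hb1 hc h1
    have k2 : (a0 + a1) / (b0 + b1) * b0 + (a0 + a1) / (b0 + b1) * b1 = a0 + a1 := by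
      rw [← mul_add, div_mul_cancel₀ _ hB.ne']
    rw [add_mul]
    linarith

/-- convex combination -/
theorem logsum_comb {a0 a1 b0 b1 t : ℝ} (ha0 : 0 ≤ a0) (ha1 : 0 ≤ a1) (hb0 : 0 ≤ b0) (hb1 : 0 ≤ b1)
    (h0 : b0 = 0 → a0 = 0) (h1 : b1 = 0 → a1 = 0) (ht0 : 0 ≤ t) (ht1 : t ≤ 1) :
    ((1 - t) * a0 + t * a1) * Real.log (((1 - t) * a0 + t * a1) / ((1 - t) * b0 + t * b1)) ≤
      (1 - t) * (a0 * Real.log (a0 / b0)) + t * (a1 * Real.log (a1 / b1)) := by
  have hs : 0 ≤ 1 - t := by linarith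
  have key := logsum2 (mul_nonneg hs ha0) (mul_nonneg ht0 ha1) (mul_nonneg hs hb0) (mul_nonneg ht0 hb1)
    (fun h => by
      rcases mul_eq_zero.1 h with h | h
      · rw [h, zero_mul]
      · rw [h0 h, mul_zero])
    (fun h => by
      rcases mul_eq_zero.1 h with h | h
      · rw [h, zero_mul]
      · rw [h1 h, mul_zero])
  have hscale : ∀ u a b : ℝ, 0 ≤ u → u * a * Real.log (u * a / (u * b)) = u * (a * Real.log (a / b)) := by
    intro u a b hu
    rcases hu.eq_or_lt with h | h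
    · rw [← h]; ring
    · rw [mul_div_mul_left _ _ h.ne']; ring
  rw [hscale _ _ _ hs, hscale _ _ _ ht0] at key
  exact key

variable {X : Type*}

open Classical in
/-- a function which is convex on the segments of the cube and `≤ 0` at the vertices is `≤ 0` on the cube -/
theorem cube_le {Φ : (X → ℝ) → ℝ}
    (hconv : ∀ (s0 s1 : X → ℝ) (t : ℝ), (∀ x, 0 ≤ s0 x) → (∀ x, 0 ≤ s1 x) → 0 ≤ t → t ≤ 1 →
      Φ (fun x => (1 - t) * s0 x + t * s1 x) ≤ (1 - t) * Φ s0 + t * Φ s1)
    (hv : ∀ s : X → ℝ, (∀ x, s x = 0 ∨ s x = 1) → Φ s ≤ 0) (A : Finset X) :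
    ∀ s : X → ℝ, (∀ x, 0 ≤ s x ∧ s x ≤ 1) → (∀ x, x ∉ A → s x = 0 ∨ s x = 1) → Φ s ≤ 0 := by
  induction A using Finset.induction_on with
  | empty => exact fun s _ h2 => hv s fun x => h2 x (Finset.notMem_empty x)
  | insert a A ha ih =>
    intro s h1 h2
    have hs : s = fun x => (1 - s a) * Function.update s a 0 x + s a * Function.update s a 1 x := by
      funext x
      by_cases hx : x = a
      · subst hx
        rw [Function.update_self, Function.update_self]; ring
      · rw [Function.update_of_ne hx, Function.update_of_ne hx]; ring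
    have hu : ∀ v : ℝ, (v = 0 ∨ v = 1) → Φ (Function.update s a v) ≤ 0 := by
      intro v hv'
      refine ih _ (fun x => ?_) (fun x hx => ?_)
      · by_cases hxa : x = a
        · subst hxa
          rw [Function.update_self]
          rcases hv' with h | h <;> rw [h] <;> norm_num
        · rw [Function.update_of_ne hxa]; exact h1 x
      · by_cases hxa : x = a
        · subst hxa
          rw [Function.update_self]; exact hv'
        · rw [Function.update_of_ne hxa]
          exact h2 x fun h => by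
            rcases Finset.mem_insert.1 h with h | h
            · exact hxa h
            · exact hx h
    have h3 := hconv (Function.update s a 0) (Function.update s a 1) (s a)
      (fun x => by
        by_cases hxa : x = a
        · subst hxa; rw [Function.update_self]
        · rw [Function.update_of_ne hxa]; exact (h1 x).1)
      (fun x => by
        by_cases hxa : x = a
        · subst hxa; rw [Function.update_self]; norm_num
        · rw [Function.update_of_ne hxa]; exact (h1 x).1) (h1 a).1 (h1 a).2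
    rw [← hs] at h3
    have h4 := mul_nonpos_of_nonneg_of_nonpos (show 0 ≤ 1 - s a by linarith [(h1 a).2]) (hu 0 (Or.inl rfl))
    have h5 := mul_nonpos_of_nonneg_of_nonpos (h1 a).1 (hu 1 (Or.inr rfl))
    linarith

variable {γ φ : Type*} [Fintype φ]

/-- law of the label on the class `V` with the density `s` -/
def wl (V : Finset X) (s : X → ℝ) (k : X → φ → ℝ) (G : φ) : ℝ := (∑ x ∈ V, s x * k x G) / ∑ x ∈ V, s x

theorem wl_eq_cl {V : Finset X} (hV : V.Nonempty) (kf : X → φ → ℝ) (F : φ) (k : X → φ → ℝ) :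
    wl V (fun x => kf x F) k = RB.cl V kf k F := by
  have hc : (V.card : ℝ) ≠ 0 := by exact_mod_cast hV.card_pos.ne'
  funext G
  unfold wl RB.cl law avg
  rw [div_div_div_cancel_right₀ hc]

theorem wl_nn {V : Finset X} {s : X → ℝ} {k : X → φ → ℝ} (hs : ∀ x ∈ V, 0 ≤ s x) (hk : ∀ x ∈ V, ∀ G, 0 ≤ k x G) (G : φ) :
    0 ≤ wl V s k G :=
  div_nonneg (Finset.sum_nonneg fun x hx => mul_nonneg (hs x hx) (hk x hx G)) (Finset.sum_nonneg hs)

/-- the functional: (total weight) * (mean relative entropy - bound) -/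
def Phi (V : Finset X) (Cs : Finset γ) (kg : X → γ → φ → ℝ) (sg : ℝ) (s : X → ℝ) : ℝ :=
  avg Cs (fun c => ∑ G, (∑ x ∈ V, s x * kg x c G) *
    Real.log ((∑ x ∈ V, s x * kg x c G) / ((∑ x ∈ V, s x) * law V (fun x => kg x c) G))) +
  sg * ((∑ x ∈ V, s x) * Real.log ((∑ x ∈ V, s x) / V.card) - ∑ x ∈ V, s x)

theorem Phi_eq {V : Finset X} (hV : V.Nonempty) {Cs : Finset γ} {kg : X → γ → φ → ℝ} {sg : ℝ} {s : X → ℝ}
    (hs : 0 < ∑ x ∈ V, s x) :
    Phi V Cs kg sg s = (∑ x ∈ V, s x) * (avg Cs (fun c => klf (wl V s fun x => kg x c) (law V fun x => kg x c)) -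
      sg * (Real.log (1 / avg V s) + 1)) := by
  have hc : (0 : ℝ) < V.card := by exact_mod_cast hV.card_pos
  set N := ∑ x ∈ V, s x with hN
  have e1 : avg Cs (fun c => ∑ G, (∑ x ∈ V, s x * kg x c G) *
      Real.log ((∑ x ∈ V, s x * kg x c G) / (N * law V (fun x => kg x c) G))) =
      N * avg Cs (fun c => klf (wl V s fun x => kg x c) (law V fun x => kg x c)) := by
    rw [← avg_smul]
    congr 1
    funext c
    unfold klf wl
    rw [Finset.mul_sum]
    refine Finset.sum_congr rfl fun G _ => ?_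
    rw [← hN, ← mul_assoc, mul_div_cancel₀ _ hs.ne', div_div]
  have e2 : Real.log (1 / avg V s) = - Real.log (N / V.card) := by
    unfold avg
    rw [← Real.log_inv, one_div]
  unfold Phi
  rw [← hN, e1, e2]
  ring

theorem Phi_conv {V : Finset X} {Cs : Finset γ} {kg : X → γ → φ → ℝ} (hk : ∀ x ∈ V, ∀ c ∈ Cs, ∀ G, 0 ≤ kg x c G) {sg : ℝ}
    (hsg : 0 ≤ sg) (s0 s1 : X → ℝ) (t : ℝ) (h0 : ∀ x, 0 ≤ s0 x) (h1 : ∀ x, 0 ≤ s1 x) (ht0 : 0 ≤ t) (ht1 : t ≤ 1) :
    Phi V Cs kg sg (fun x => (1 - t) * s0 x + t * s1 x) ≤ (1 - t) * Phi V Cs kg sg s0 + t * Phi V Cs kg sg s1 := by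
  have hN : ∑ x ∈ V, ((1 - t) * s0 x + t * s1 x) = (1 - t) * ∑ x ∈ V, s0 x + t * ∑ x ∈ V, s1 x := by
    rw [Finset.sum_add_distrib, ← Finset.mul_sum, ← Finset.mul_sum]
  have hNG : ∀ c G, ∑ x ∈ V, ((1 - t) * s0 x + t * s1 x) * kg x c G =
      (1 - t) * ∑ x ∈ V, s0 x * kg x c G + t * ∑ x ∈ V, s1 x * kg x c G := by
    intro c G
    rw [Finset.mul_sum, Finset.mul_sum, ← Finset.sum_add_distrib]
    exact Finset.sum_congr rfl fun x _ => by ring
  have n0 : 0 ≤ ∑ x ∈ V, s0 x := Finset.sum_nonneg fun x _ => h0 x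
  have n1 : 0 ≤ ∑ x ∈ V, s1 x := Finset.sum_nonneg fun x _ => h1 x
  have hq : ∀ c ∈ Cs, ∀ G, 0 ≤ law V (fun x => kg x c) G := fun c hc G =>
    div_nonneg (Finset.sum_nonneg fun x hx => hk x hx c hc G) (Nat.cast_nonneg _)
  have hz : ∀ (s : X → ℝ), (∀ x, 0 ≤ s x) → ∀ c ∈ Cs, ∀ G, (∑ x ∈ V, s x) * law V (fun x => kg x c) G = 0 →
      ∑ x ∈ V, s x * kg x c G = 0 := by
    intro s hs c hc G h
    rcases mul_eq_zero.1 h with h | h
    · have h2 := (Finset.sum_eq_zero_iff_of_nonneg fun x _ => hs x).1 h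
      exact Finset.sum_eq_zero fun x hx => by rw [h2 x hx, zero_mul]
    · unfold law avg at h
      rcases div_eq_zero_iff.1 h with h | h
      · have h2 := (Finset.sum_eq_zero_iff_of_nonneg fun x hx => hk x hx c hc G).1 h
        exact Finset.sum_eq_zero fun x hx => by rw [h2 x hx, mul_zero]
      · have h3 : V = ∅ := Finset.card_eq_zero.1 (by exact_mod_cast h)
        rw [h3]; simp
  unfold Phi
  rw [hN]
  have a1 : avg Cs (fun c => ∑ G, (∑ x ∈ V, ((1 - t) * s0 x + t * s1 x) * kg x c G) *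
      Real.log ((∑ x ∈ V, ((1 - t) * s0 x + t * s1 x) * kg x c G) /
        (((1 - t) * ∑ x ∈ V, s0 x + t * ∑ x ∈ V, s1 x) * law V (fun x => kg x c) G))) ≤
      (1 - t) * avg Cs (fun c => ∑ G, (∑ x ∈ V, s0 x * kg x c G) *
        Real.log ((∑ x ∈ V, s0 x * kg x c G) / ((∑ x ∈ V, s0 x) * law V (fun x => kg x c) G))) +
      t * avg Cs (fun c => ∑ G, (∑ x ∈ V, s1 x * kg x c G) *
        Real.log ((∑ x ∈ V, s1 x * kg x c G) / ((∑ x ∈ V, s1 x) * law V (fun x => kg x c) G))) := by
    rw [← avg_smul, ← avg_smul, ← avg_add]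
    refine avg_mono fun c hc => ?_
    have hsplit : ∀ A B : φ → ℝ, (1 - t) * ∑ G, A G + t * ∑ G, B G = ∑ G, ((1 - t) * A G + t * B G) := by
      intro A B
      rw [Finset.mul_sum, Finset.mul_sum, ← Finset.sum_add_distrib]
    rw [hsplit]
    refine Finset.sum_le_sum fun G _ => ?_
    rw [hNG c G]
    have b0 : 0 ≤ ∑ x ∈ V, s0 x * kg x c G := Finset.sum_nonneg fun x hx => mul_nonneg (h0 x) (hk x hx c hc G)
    have b1 : 0 ≤ ∑ x ∈ V, s1 x * kg x c G := Finset.sum_nonneg fun x hx => mul_nonneg (h1 x) (hk x hx c hc G)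
    have := logsum_comb (t := t) b0 b1
      (mul_nonneg n0 (hq c hc G)) (mul_nonneg n1 (hq c hc G)) (hz s0 h0 c hc G) (hz s1 h1 c hc G) ht0 ht1
    have e : (1 - t) * ((∑ x ∈ V, s0 x) * law V (fun x => kg x c) G) +
        t * ((∑ x ∈ V, s1 x) * law V (fun x => kg x c) G) =
        ((1 - t) * ∑ x ∈ V, s0 x + t * ∑ x ∈ V, s1 x) * law V (fun x => kg x c) G := by ring
    rw [e] at this
    exact this
  have a2 : ((1 - t) * ∑ x ∈ V, s0 x + t * ∑ x ∈ V, s1 x) *
      Real.log (((1 - t) * ∑ x ∈ V, s0 x + t * ∑ x ∈ V, s1 x) / V.card) ≤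
      (1 - t) * ((∑ x ∈ V, s0 x) * Real.log ((∑ x ∈ V, s0 x) / V.card)) +
        t * ((∑ x ∈ V, s1 x) * Real.log ((∑ x ∈ V, s1 x) / V.card)) := by
    have hcz : ∀ s : X → ℝ, (V.card : ℝ) = 0 → ∑ x ∈ V, s x = 0 := by
      intro s h
      have h3 : V = ∅ := Finset.card_eq_zero.1 (by exact_mod_cast h)
      rw [h3]; simp
    have := logsum_comb (t := t) n0 n1 (Nat.cast_nonneg V.card) (Nat.cast_nonneg V.card) (hcz s0) (hcz s1) ht0 ht1
    have e : (1 - t) * (V.card : ℝ) + t * V.card = V.card := by ring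
    rw [e] at this
    exact this
  have a3 := mul_le_mul_of_nonneg_left a2 hsg
  nlinarith [a1, a3]

open Classical in
/-- SATURATION FOR DENSITIES -/
theorem sat_dens {V : Finset X} (hV : V.Nonempty) {Cs : Finset γ} {kg : X → γ → φ → ℝ}
    (hk : ∀ x ∈ V, ∀ c ∈ Cs, ∀ G, 0 ≤ kg x c G) {sg : ℝ} (hsg : 0 ≤ sg)
    (hsat : ∀ S ⊆ V, S.Nonempty → avg Cs (fun c => klf (law S fun x => kg x c) (law V fun x => kg x c)) ≤
      sg * (Real.log ((V.card : ℝ) / S.card) + 1))
    (s : X → ℝ) (hs : ∀ x ∈ V, 0 ≤ s x ∧ s x ≤ 1) (hpos : 0 < avg V s) :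
    avg Cs (fun c => klf (wl V s fun x => kg x c) (law V fun x => kg x c)) ≤ sg * (Real.log (1 / avg V s) + 1) := by
  have hc : (0 : ℝ) < V.card := by exact_mod_cast hV.card_pos
  set s' : X → ℝ := fun x => if x ∈ V then s x else 0 with hs'
  have hsum : ∑ x ∈ V, s' x = ∑ x ∈ V, s x := Finset.sum_congr rfl fun x hx => by rw [hs']; simp only [if_pos hx]
  have hsumk : ∀ c G, ∑ x ∈ V, s' x * kg x c G = ∑ x ∈ V, s x * kg x c G := fun c G =>
    Finset.sum_congr rfl fun x hx => by rw [hs']; simp only [if_pos hx]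
  have hPhi : Phi V Cs kg sg s' = Phi V Cs kg sg s := by
    unfold Phi
    simp only [hsum, hsumk]
  have hN : 0 < ∑ x ∈ V, s x := by
    unfold avg at hpos
    rcases (div_pos_iff.1 hpos) with h | h
    · exact h.1
    · exact absurd h.2 (not_lt.2 hc.le)
  have hv : ∀ s : X → ℝ, (∀ x, s x = 0 ∨ s x = 1) → Phi V Cs kg sg s ≤ 0 := by
    intro s hs01
    set S := V.filter fun x => s x = 1 with hS
    have hSV : S ⊆ V := Finset.filter_subset _ _
    have e0 : ∀ f : X → ℝ, ∑ x ∈ V, s x * f x = ∑ x ∈ S, f x := by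
      intro f
      rw [hS, Finset.sum_filter]
      refine Finset.sum_congr rfl fun x _ => ?_
      rcases hs01 x with h | h
      · rw [h, if_neg (by norm_num), zero_mul]
      · rw [h, if_pos rfl, one_mul]
    have e1 : ∑ x ∈ V, s x = (S.card : ℝ) := by
      have := e0 fun _ => 1
      simp only [mul_one, Finset.sum_const, nsmul_eq_mul] at this
      exact this
    rcases S.eq_empty_or_nonempty with hE | hne
    · unfold Phi
      have z1 : ∑ x ∈ V, s x = 0 := by rw [e1, hE]; simp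
      have z2 : ∀ c G, ∑ x ∈ V, s x * kg x c G = 0 := fun c G => by rw [e0, hE]; simp
      simp only [z1, z2, zero_mul, Finset.sum_const_zero, sub_zero, mul_zero, add_zero]
      unfold avg
      simp
    · have cS : (0 : ℝ) < S.card := by exact_mod_cast hne.card_pos
      rw [Phi_eq hV (by rw [e1]; exact cS)]
      have e2 : ∀ c, (wl V s fun x => kg x c) = law S fun x => kg x c := by
        intro c
        funext G
        unfold wl law avg
        rw [e1, e0]
      have e3 : 1 / avg V s = (V.card : ℝ) / S.card := by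
        unfold avg
        rw [e1, one_div_div]
      simp only [e2]
      rw [e3, e1]
      have := hsat S hSV hne
      exact mul_nonpos_of_nonneg_of_nonpos cS.le (by linarith)
  have h1 := cube_le (Φ := Phi V Cs kg sg) (fun s0 s1 t h0 h1 ht0 ht1 => Phi_conv hk hsg s0 s1 t h0 h1 ht0 ht1) hv V s'
    (fun x => by
      rw [hs']
      by_cases hx : x ∈ V
      · simp only [if_pos hx]; exact hs x hx
      · simp only [if_neg hx]; norm_num)
    (fun x hx => by
      left
      rw [hs']; simp only [if_neg hx])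
  rw [hPhi, Phi_eq hV hN] at h1
  have h2 : avg Cs (fun c => klf (wl V s fun x => kg x c) (law V fun x => kg x c)) -
      sg * (Real.log (1 / avg V s) + 1) ≤ 0 := by
    by_contra hcon
    push Not at hcon
    have := mul_pos hN hcon
    linarith
  linarith

/-- closeness of the law given a letter of the other family -/
theorem sat_letter {V : Finset X} (hV : V.Nonempty) {Cs : Finset γ} {kf : X → φ → ℝ} {kg : X → γ → φ → ℝ}
    (hf : ∀ x ∈ V, ∀ F, 0 ≤ kf x F) (hf1 : ∀ x ∈ V, ∀ F, kf x F ≤ 1)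
    (hk : ∀ x ∈ V, ∀ c ∈ Cs, ∀ G, 0 ≤ kg x c G) {sg : ℝ} (hsg : 0 ≤ sg)
    (hsat : ∀ S ⊆ V, S.Nonempty → avg Cs (fun c => klf (law S fun x => kg x c) (law V fun x => kg x c)) ≤
      sg * (Real.log ((V.card : ℝ) / S.card) + 1))
    {F : φ} {a : ℝ} (ha : 0 < a) (hF : a ≤ law V kf F) :
    avg Cs (fun c => klf (RB.cl V kf (fun x => kg x c) F) (law V fun x => kg x c)) ≤
      sg * (Real.log (1 / a) + 1) := by
  have h0 : 0 < avg V (fun x => kf x F) := lt_of_lt_of_le ha hF
  have h1 := sat_dens hV hk hsg hsat (fun x => kf x F) (fun x hx => ⟨hf x hx F, hf1 x hx F⟩) h0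
  simp only [wl_eq_cl hV] at h1
  refine h1.trans (mul_le_mul_of_nonneg_left ?_ hsg)
  have h2 : Real.log (1 / avg V fun x => kf x F) ≤ Real.log (1 / a) :=
    Real.log_le_log (by positivity) (one_div_le_one_div_of_le ha hF)
  linarith

/-! ## Hellinger distance -/

theorem phi_hel {t M : ℝ} (ht : 0 ≤ t) (hM : 1 ≤ M) (htM : t ≤ M) :
    t * Real.log t - t + 1 ≤ (Real.log M + 3) * (Real.sqrt t - 1) ^ 2 := by
  have hlM : 0 ≤ Real.log M := Real.log_nonneg hM
  set u := Real.sqrt t with hu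
  have hu0 : 0 ≤ u := Real.sqrt_nonneg t
  have hut : u ^ 2 = t := Real.sq_sqrt ht
  rcases ht.eq_or_lt with h0 | h0
  · have hu' : u = 0 := by rw [hu, ← h0, Real.sqrt_zero]
    rw [← h0, hu']
    simp only [zero_mul, zero_sub, zero_add, sub_zero]
    nlinarith
  · have hup : 0 < u := by
      rcases hu0.eq_or_lt with h | h
      · rw [← h] at hut; norm_num at hut; linarith
      · exact h
    have hl : Real.log t = 2 * Real.log u := by
      rw [← hut, Real.log_pow]; norm_num
    have hl1 : Real.log u ≤ u - 1 := Real.log_le_sub_one_of_pos hup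
    rw [hl, ← hut]
    by_cases h1 : 1 ≤ u
    · have hlu : 0 ≤ Real.log u := Real.log_nonneg h1
      have hMu : 2 * Real.log u ≤ Real.log M := by
        rw [← hl]; exact Real.log_le_log h0 htM
      have h2 : (2 * Real.log u + 3) * (u - 1) ^ 2 ≤ (Real.log M + 3) * (u - 1) ^ 2 :=
        mul_le_mul_of_nonneg_right (by linarith) (sq_nonneg _)
      have h3 : 2 * Real.log u * (2 * u - 1) ≤ 2 * (u - 1) * (2 * u - 1) :=
        mul_le_mul_of_nonneg_right (by linarith) (by linarith)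
      nlinarith
    · push Not at h1
      have h2 : 3 * (u - 1) ^ 2 ≤ (Real.log M + 3) * (u - 1) ^ 2 :=
        mul_le_mul_of_nonneg_right (by linarith) (sq_nonneg _)
      have h3 : u ^ 2 * (2 * Real.log u) ≤ u ^ 2 * (2 * (u - 1)) :=
        mul_le_mul_of_nonneg_left (by linarith) (sq_nonneg u)
      have h4 : (1 - u) ^ 2 * (1 + 2 * u) ≤ 3 * (u - 1) ^ 2 := by nlinarith [sq_nonneg (u - 1)]
      nlinarith

/-- relative entropy and the square distance of the roots, upper bound -/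
theorem klf_le_hel {p q : φ → ℝ} (hp : ∀ F, 0 ≤ p F) (hq : ∀ F, 0 ≤ q F) (hp1 : ∑ F, p F = 1) (hq1 : ∑ F, q F = 1)
    {M : ℝ} (hM : 1 ≤ M) (hpq : ∀ F, p F ≤ M * q F) :
    klf p q ≤ (Real.log M + 3) * ∑ F, (Real.sqrt (p F) - Real.sqrt (q F)) ^ 2 := by
  have e1 : klf p q = ∑ F, (p F * Real.log (p F / q F) - p F + q F) := by
    rw [Finset.sum_add_distrib, Finset.sum_sub_distrib, hp1, hq1]
    unfold klf
    ring
  rw [e1, Finset.mul_sum]
  refine Finset.sum_le_sum fun F _ => ?_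
  rcases (hq F).eq_or_lt with h0 | h0
  · have hpF : p F = 0 := le_antisymm (by have := hpq F; rw [← h0, mul_zero] at this; exact this) (hp F)
    rw [hpF, ← h0]
    simp
  · have h1 := phi_hel (t := p F / q F) (div_nonneg (hp F) h0.le) hM (by rw [div_le_iff₀ h0]; exact hpq F)
    have h2 := mul_le_mul_of_nonneg_left h1 h0.le
    have h3 : q F * (p F / q F * Real.log (p F / q F) - p F / q F + 1) =
        p F * Real.log (p F / q F) - p F + q F := by
      field_simp
    have h4 : q F * (Real.sqrt (p F / q F) - 1) ^ 2 = (Real.sqrt (p F) - Real.sqrt (q F)) ^ 2 := by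
      rw [Real.sqrt_div (hp F)]
      have h5 : 0 < Real.sqrt (q F) := Real.sqrt_pos.2 h0
      have h6 : q F = Real.sqrt (q F) ^ 2 := (Real.sq_sqrt h0.le).symm
      calc q F * (Real.sqrt (p F) / Real.sqrt (q F) - 1) ^ 2
          = Real.sqrt (q F) ^ 2 * (Real.sqrt (p F) / Real.sqrt (q F) - 1) ^ 2 := by rw [← h6]
        _ = (Real.sqrt (q F) * (Real.sqrt (p F) / Real.sqrt (q F) - 1)) ^ 2 := by ring
        _ = _ := by rw [mul_sub, mul_div_cancel₀ _ h5.ne', mul_one]
    rw [h3] at h2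
    calc p F * Real.log (p F / q F) - p F + q F ≤ q F * ((Real.log M + 3) * (Real.sqrt (p F / q F) - 1) ^ 2) := h2
      _ = (Real.log M + 3) * (q F * (Real.sqrt (p F / q F) - 1) ^ 2) := by ring
      _ = _ := by rw [h4]

/-- lower bound -/
theorem hel_le_klf {p q : φ → ℝ} (hp : ∀ F, 0 ≤ p F) (hq : ∀ F, 0 ≤ q F) (hp1 : ∑ F, p F = 1) (hq1 : ∑ F, q F = 1)
    (hpq : ∀ F, q F = 0 → p F = 0) :
    ∑ F, (Real.sqrt (p F) - Real.sqrt (q F)) ^ 2 ≤ klf p q := by
  have e1 : klf p q = ∑ F, (p F * Real.log (p F / q F) - p F + q F) := by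
    rw [Finset.sum_add_distrib, Finset.sum_sub_distrib, hp1, hq1]
    unfold klf
    ring
  rw [e1]
  refine Finset.sum_le_sum fun F _ => ?_
  rcases (hq F).eq_or_lt with h0 | h0
  · rw [hpq F h0.symm, ← h0]
    simp
  · rcases (hp F).eq_or_lt with h1 | h1
    · rw [← h1]
      simp only [Real.sqrt_zero, zero_sub, even_two, Even.neg_pow, zero_mul, sub_zero, zero_div]
      rw [Real.sq_sqrt h0.le]
      simp
    · have h2 := Real.log_le_sub_one_of_pos (show 0 < Real.sqrt (q F) / Real.sqrt (p F) from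
        div_pos (Real.sqrt_pos.2 h0) (Real.sqrt_pos.2 h1))
      have h3 : Real.log (Real.sqrt (q F) / Real.sqrt (p F)) = - (Real.log (p F / q F) / 2) := by
        rw [Real.log_div (Real.sqrt_pos.2 h0).ne' (Real.sqrt_pos.2 h1).ne', Real.log_sqrt h0.le,
          Real.log_sqrt h1.le, Real.log_div h1.ne' h0.ne']
        ring
      rw [h3] at h2
      have h4 := mul_le_mul_of_nonneg_left h2 h1.le
      have hsp : 0 < Real.sqrt (p F) := Real.sqrt_pos.2 h1
      have h5 : p F * (Real.sqrt (q F) / Real.sqrt (p F) - 1) = Real.sqrt (p F) * Real.sqrt (q F) - p F := by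
        have h6 : p F = Real.sqrt (p F) ^ 2 := (Real.sq_sqrt h1.le).symm
        calc p F * (Real.sqrt (q F) / Real.sqrt (p F) - 1)
            = Real.sqrt (p F) ^ 2 * (Real.sqrt (q F) / Real.sqrt (p F)) - p F := by rw [← h6]; ring
          _ = _ := by rw [sq, mul_assoc, mul_div_cancel₀ _ hsp.ne']
      rw [h5] at h4
      have h7 : (Real.sqrt (p F) - Real.sqrt (q F)) ^ 2 = p F + q F - 2 * (Real.sqrt (p F) * Real.sqrt (q F)) := by
        rw [sub_sq, Real.sq_sqrt h1.le, Real.sq_sqrt h0.le]; ring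
      rw [h7]
      linarith

theorem klf_tri {p q r : φ → ℝ} (hp : ∀ F, 0 ≤ p F) (hq : ∀ F, 0 ≤ q F) (hr : ∀ F, 0 ≤ r F)
    (hp1 : ∑ F, p F = 1) (hq1 : ∑ F, q F = 1) (hr1 : ∑ F, r F = 1) {M : ℝ} (hM : 1 ≤ M) (hpq : ∀ F, p F ≤ M * q F)
    (hpr : ∀ F, r F = 0 → p F = 0) (hqr : ∀ F, r F = 0 → q F = 0) :
    klf p q ≤ 2 * (Real.log M + 3) * (klf p r + klf q r) := by
  have h1 := klf_le_hel hp hq hp1 hq1 hM hpq
  have h2 := hel_le_klf hp hr hp1 hr1 hpr
  have h3 := hel_le_klf hq hr hq1 hr1 hqr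
  have h4 : ∑ F, (Real.sqrt (p F) - Real.sqrt (q F)) ^ 2 ≤
      2 * (∑ F, (Real.sqrt (p F) - Real.sqrt (r F)) ^ 2 + ∑ F, (Real.sqrt (q F) - Real.sqrt (r F)) ^ 2) := by
    rw [← Finset.sum_add_distrib, Finset.mul_sum]
    refine Finset.sum_le_sum fun F _ => ?_
    nlinarith [sq_nonneg ((Real.sqrt (p F) - Real.sqrt (r F)) + (Real.sqrt (q F) - Real.sqrt (r F)))]
  have hl : 0 ≤ Real.log M + 3 := by have := Real.log_nonneg hM; linarith
  calc klf p q ≤ (Real.log M + 3) * ∑ F, (Real.sqrt (p F) - Real.sqrt (q F)) ^ 2 := h1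
    _ ≤ (Real.log M + 3) * (2 * (klf p r + klf q r)) := by
        refine mul_le_mul_of_nonneg_left (h4.trans ?_) hl
        linarith
    _ = _ := by ring

/-- an average over at least one half of the set -/
theorem avg_half_le {C0 C1 : Finset γ} (h : C1 ⊆ C0) (hc : (C0.card : ℝ) ≤ 2 * C1.card) {f : γ → ℝ}
    (hf : ∀ c ∈ C0, 0 ≤ f c) : avg C1 f ≤ 2 * avg C0 f := by
  unfold avg
  rcases C1.eq_empty_or_nonempty with h0 | h0
  · rw [h0]
    simp only [Finset.sum_empty, Finset.card_empty, Nat.cast_zero, div_zero]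
    exact mul_nonneg (by norm_num) (div_nonneg (Finset.sum_nonneg hf) (Nat.cast_nonneg _))
  · have c1 : (0 : ℝ) < C1.card := by exact_mod_cast h0.card_pos
    have c0 : (0 : ℝ) < C0.card := by exact_mod_cast (h0.mono h).card_pos
    have h1 : ∑ c ∈ C1, f c ≤ ∑ c ∈ C0, f c := Finset.sum_le_sum_of_subset_of_nonneg h fun c hc _ => hf c hc
    have h2 : 0 ≤ ∑ c ∈ C0, f c := Finset.sum_nonneg hf
    rw [← mul_div_assoc, div_le_div_iff₀ c1 c0]
    nlinarith

/-- SATURATION OF A PART (half step): constants for the digit -/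
theorem sat_child {O V : Finset X} (hVO : V ⊆ O) (hV : V.Nonempty) {C0 C1 : Finset γ} (hC : C1 ⊆ C0)
    (hC2 : (C0.card : ℝ) ≤ 2 * C1.card) {kg : X → γ → φ → ℝ}
    (hk : ∀ x ∈ O, ∀ c ∈ C0, ∀ G, 0 ≤ kg x c G) (hk1 : ∀ x ∈ O, ∀ c ∈ C0, ∑ G, kg x c G = 1)
    {al : ℝ} (hal : 0 < al) (hal' : al ≤ 1) (hth : ∀ x ∈ V, ∀ x' ∈ V, ∀ c ∈ C0, ∀ G, kg x c G ≠ 0 → al ≤ kg x' c G)
    {sg : ℝ} (hsg : 0 ≤ sg)
    (hsat : ∀ S ⊆ O, S.Nonempty → avg C0 (fun c => klf (law S fun x => kg x c) (law O fun x => kg x c)) ≤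
      sg * (Real.log ((O.card : ℝ) / S.card) + 1))
    {L : ℝ} (hL : 0 ≤ L) (hmu : (O.card : ℝ) ≤ Real.exp L * V.card) :
    ∀ S ⊆ V, S.Nonempty → avg C1 (fun c => klf (law S fun x => kg x c) (law V fun x => kg x c)) ≤
      8 * sg * (Real.log (1 / al) + 3) * (L + 1) * (Real.log ((V.card : ℝ) / S.card) + 1) := by
  intro S hSV hS
  have hSO : S ⊆ O := hSV.trans hVO
  have hO : O.Nonempty := hV.mono hVO
  have cS : (0 : ℝ) < S.card := by exact_mod_cast hS.card_pos
  have cV : (0 : ℝ) < V.card := by exact_mod_cast hV.card_pos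
  have cO : (0 : ℝ) < O.card := by exact_mod_cast hO.card_pos
  -- the laws
  have nn : ∀ T ⊆ O, ∀ c ∈ C0, ∀ G, 0 ≤ law T (fun x => kg x c) G := fun T hT c hc G =>
    div_nonneg (Finset.sum_nonneg fun x hx => hk x (hT hx) c hc G) (Nat.cast_nonneg _)
  have s1 : ∀ T ⊆ O, T.Nonempty → ∀ c ∈ C0, ∑ G, law T (fun x => kg x c) G = 1 := fun T hT hne c hc =>
    law_sum hne fun x hx => hk1 x (hT hx) c hc
  have zz : ∀ T ⊆ O, ∀ c ∈ C0, ∀ G, law O (fun x => kg x c) G = 0 → law T (fun x => kg x c) G = 0 := by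
    intro T hT c hc G h
    have h2 : ∑ x ∈ O, kg x c G = 0 := by
      unfold law avg at h
      rcases div_eq_zero_iff.1 h with h | h
      · exact h
      · exact absurd h cO.ne'
    have h3 := (Finset.sum_eq_zero_iff_of_nonneg fun x hx => hk x hx c hc G).1 h2
    unfold law avg
    rw [Finset.sum_eq_zero fun x hx => h3 x (hT hx), zero_div]
  have hk_le : ∀ x ∈ O, ∀ c ∈ C0, ∀ G, kg x c G ≤ 1 := fun x hx c hc G => by
    rw [← hk1 x hx c hc]
    exact Finset.single_le_sum (f := fun G => kg x c G) (fun G _ => hk x hx c hc G) (Finset.mem_univ G)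
  have hlogVS : 0 ≤ Real.log ((V.card : ℝ) / S.card) :=
    Real.log_nonneg ((one_le_div cS).2 (by exact_mod_cast Finset.card_le_card hSV))
  have hla : 0 ≤ Real.log (1 / al) := Real.log_nonneg ((one_le_div hal).2 hal')
  have hM : 1 ≤ 1 / al := (one_le_div hal).2 hal'
  -- pointwise
  have hpt : ∀ c ∈ C0, klf (law S fun x => kg x c) (law V fun x => kg x c) ≤
      2 * (Real.log (1 / al) + 3) * (klf (law S fun x => kg x c) (law O fun x => kg x c) +
        klf (law V fun x => kg x c) (law O fun x => kg x c)) := by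
    intro c hc
    refine klf_tri (nn S hSO c hc) (nn V hVO c hc) (nn O subset_rfl c hc) (s1 S hSO hS c hc) (s1 V hVO hV c hc)
      (s1 O subset_rfl hO c hc) hM (fun G => ?_) (zz S hSO c hc) (zz V hVO c hc)
    rcases (nn S hSO c hc G).eq_or_lt with h0 | h0
    · rw [← h0]; exact mul_nonneg (by positivity) (nn V hVO c hc G)
    · -- the letter has positive mass on `S`: thick on `V`
      have hex : ∃ x ∈ S, kg x c G ≠ 0 := by
        by_contra hcon
        push Not at hcon
        unfold law avg at h0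
        rw [Finset.sum_eq_zero fun x hx => hcon x hx, zero_div] at h0
        exact lt_irrefl _ h0
      obtain ⟨x, hx, hxG⟩ := hex
      have h3 : al ≤ law V (fun x => kg x c) G := le_law hV fun x' hx' => hth x (hSV hx) x' hx' c hc G hxG
      have h4 : law S (fun x => kg x c) G ≤ 1 := law_le hS fun x hx => hk_le x (hSO hx) c hc G
      rw [div_mul_eq_mul_div, one_mul, le_div_iff₀ hal]
      nlinarith
  have hklnn : ∀ T ⊆ O, T.Nonempty → ∀ c ∈ C0, 0 ≤ klf (law T fun x => kg x c) (law O fun x => kg x c) := by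
    intro T hT hne c hc
    refine le_trans (Finset.sum_nonneg fun F _ => sq_nonneg _)
      (hel_le_klf (nn T hT c hc) (nn O subset_rfl c hc) (s1 T hT hne c hc) (s1 O subset_rfl hO c hc) (zz T hT c hc))
  have h1 : avg C1 (fun c => klf (law S fun x => kg x c) (law V fun x => kg x c)) ≤
      2 * (Real.log (1 / al) + 3) * (avg C1 (fun c => klf (law S fun x => kg x c) (law O fun x => kg x c)) +
        avg C1 (fun c => klf (law V fun x => kg x c) (law O fun x => kg x c))) := by
    rw [← avg_add, ← avg_smul]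
    exact avg_mono fun c hc => hpt c (hC hc)
  have h2 := avg_half_le hC hC2 (hklnn S hSO hS)
  have h3 := avg_half_le hC hC2 (hklnn V hVO hV)
  have h4 := hsat S hSO hS
  have h5 := hsat V hVO hV
  have h6 : Real.log ((O.card : ℝ) / V.card) ≤ L := by
    rw [Real.log_le_iff_le_exp (by positivity), div_le_iff₀ cV]
    exact hmu
  have h7 : Real.log ((O.card : ℝ) / S.card) = Real.log ((O.card : ℝ) / V.card) + Real.log ((V.card : ℝ) / S.card) := by
    rw [← Real.log_mul (by positivity) (by positivity)]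
    congr 1
    field_simp
  have h8 : avg C1 (fun c => klf (law S fun x => kg x c) (law O fun x => kg x c)) +
      avg C1 (fun c => klf (law V fun x => kg x c) (law O fun x => kg x c)) ≤
      2 * (sg * ((2 * L + 2) * (Real.log ((V.card : ℝ) / S.card) + 1))) := by
    have h9 : sg * (Real.log ((O.card : ℝ) / S.card) + 1) + sg * (Real.log ((O.card : ℝ) / V.card) + 1) ≤
        sg * ((2 * L + 2) * (Real.log ((V.card : ℝ) / S.card) + 1)) := by
      rw [← mul_add]
      refine mul_le_mul_of_nonneg_left ?_ hsg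
      rw [h7]
      nlinarith [mul_nonneg hL hlogVS]
    linarith
  refine h1.trans ?_
  calc 2 * (Real.log (1 / al) + 3) * (avg C1 (fun c => klf (law S fun x => kg x c) (law O fun x => kg x c)) +
        avg C1 (fun c => klf (law V fun x => kg x c) (law O fun x => kg x c)))
      ≤ 2 * (Real.log (1 / al) + 3) * (2 * (sg * ((2 * L + 2) * (Real.log ((V.card : ℝ) / S.card) + 1)))) :=
        mul_le_mul_of_nonneg_left h8 (by linarith)
    _ = _ := by ring

end JL

end

end Pool.Agent.M3.S3
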