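import Pool.Agent.M3.S3B.Main
import Pool.Agent.M3.S3.Bal

/-!
# M3.S3B.Bits: the bits of the classes are paid by the gains (note 3448 (2); helper17)

MODULES `StGain` (`stGain`: `Lam`) and `StBits` (`stBits`: `4 n Lam`) of `Main`.
`BT.bits_tot`: `btB = E3 log (|cA 0| / |U 0|) + ∑_(s<K) E3 log (|hf s| / |U (s+1)|) ≤ 4 n Lam`; `BT.gainF_sum`, `BT.gainG_sum`.
Proof step by step along the process with two potentials
(no stopping times): the epoch of the time `s` is `e = ep s`, `kap s` = kernel of the labels of the time `e.t0`,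
`bVc s` = `VF e s`, `bVh s = VF e s ∩ cA (s+1)`, `bVn s = VF e (s+1)`.
* `submod` : `∑ w log (|H| / |V ∩ H|) ≤ ∑ w log (|U| / |V|)` for partitions `V`, `H` finer than `U`, `w ≥ 0` constant on `U`;
* `Phi1 s = E3 log (|U s| / |bVc s|)` : `E3 1[test] log (|hf s| / |bVn s|) ≤ Phi1 s - Phi1 (s+1) + n gv s` (`phi1_step`);
* `Phi2 s = HH (kap s) (U s) - HH (kap s) (bVc s)` : `gv s ≤ Phi2 (s+1) - Phi2 s + (gain of the actual step)` (`phi2_step`);
* `kap_gain` : the gain of the actual step with the frozen labels is at most the gain with the labels of the time `s`;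
* `bits_f` : `∑ E3 1[test] log (|hf| / |VF|) ≤ n Lam`, `bits_g` mirror; `bits_split` : complete split at the tests.
-/

set_option autoImplicit false
set_option linter.unusedSectionVars false
set_option linter.unusedVariables false

namespace Pool.Agent.M3.S3B.BT

open Finset Pool.Agent.PWZ Pool.Agent.M3 Pool.Agent.M3.S3

noncomputable section

/-! ## partitions -/

section part

variable {X : Type*} [Fintype X] {U V H P : X → Finset X}

theorem submod (hU : Prt U) (hV : Prt V) (hH : Prt H) (hUV : Rfn U V) (hUH : Rfn U H)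
    (hP : ∀ x y, y ∈ P x ↔ y ∈ V x ∧ y ∈ H x) (w : X → ℝ) (hw : ∀ x, 0 ≤ w x)
    (hwc : ∀ x, ∀ y ∈ U x, w y = w x) :
    ∑ x, w x * Real.log ((H x).card / (P x).card) ≤ ∑ x, w x * Real.log ((U x).card / (V x).card) := by
  classical
  have cU : ∀ x, (0 : ℝ) < (U x).card := fun x => by exact_mod_cast Finset.card_pos.2 ⟨x, hU.self x⟩
  have cV : ∀ x, (0 : ℝ) < (V x).card := fun x => by exact_mod_cast Finset.card_pos.2 ⟨x, hV.self x⟩
  have cH : ∀ x, (0 : ℝ) < (H x).card := fun x => by exact_mod_cast Finset.card_pos.2 ⟨x, hH.self x⟩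
  have cP : ∀ x, (0 : ℝ) < (P x).card := fun x => by
    exact_mod_cast Finset.card_pos.2 ⟨x, (hP x x).2 ⟨hV.self x, hH.self x⟩⟩
  -- the sum of the ratios
  have key : ∑ x, w x * ((V x).card * (H x).card / ((U x).card * (P x).card)) ≤ ∑ x, w x := by
    have e1 : ∀ x, w x * ((V x).card * (H x).card / ((U x).card * (P x).card) : ℝ) =
        ∑ y, ∑ z, (if y ∈ H x ∧ z ∈ V x then w y / (U y).card * (1 / (P x).card) else 0) := by
      intro x
      have h1 : ∀ y, ∑ z, (if y ∈ H x ∧ z ∈ V x then w y / (U y).card * (1 / (P x).card) else 0 : ℝ) =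
          if y ∈ H x then w x / (U x).card * ((V x).card / (P x).card) else 0 := by
        intro y
        by_cases hy : y ∈ H x
        · have hyU := hUH x hy
          rw [if_pos hy]
          have h2 : ∀ z, (if y ∈ H x ∧ z ∈ V x then w y / (U y).card * (1 / (P x).card) else 0 : ℝ) =
              if z ∈ V x then w x / (U x).card * (1 / (P x).card) else 0 := by
            intro z
            rw [hwc x y hyU, hU.pub x y hyU]
            simp [hy]
          rw [Finset.sum_congr rfl fun z _ => h2 z, ← Finset.sum_filter,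
            show (univ.filter fun z => z ∈ V x) = V x by ext z; simp, Finset.sum_const, nsmul_eq_mul]
          ring
        · rw [if_neg hy]
          refine Finset.sum_eq_zero fun z _ => ?_
          rw [if_neg (fun h => hy h.1)]
      rw [Finset.sum_congr rfl fun y _ => h1 y, ← Finset.sum_filter,
        show (univ.filter fun z => z ∈ H x) = H x by ext z; simp, Finset.sum_const, nsmul_eq_mul]
      have := cU x
      have := cP x
      field_simp
    rw [Finset.sum_congr rfl fun x _ => e1 x, Finset.sum_comm]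
    refine Finset.sum_le_sum fun y _ => ?_
    rw [Finset.sum_comm]
    -- for fixed `y`, `z` the points `x` with `y ∈ H x`, `z ∈ V x` are the points of one cell of `P`
    have e2 : ∀ z, ∑ x, (if y ∈ H x ∧ z ∈ V x then w y / (U y).card * (1 / (P x).card) else 0 : ℝ) ≤
        if z ∈ U y then w y / (U y).card else 0 := by
      intro z
      by_cases hne : ∃ x0, y ∈ H x0 ∧ z ∈ V x0
      · obtain ⟨x0, h1, h2⟩ := hne
        have hz : z ∈ U y := by
          rw [hU.pub x0 y (hUH x0 h1)]
          exact hUV x0 h2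
        rw [if_pos hz]
        have e3 : ∀ x, (y ∈ H x ∧ z ∈ V x) ↔ x ∈ P x0 := by
          intro x
          rw [hP]
          constructor
          · rintro ⟨h3, h4⟩
            refine ⟨?_, ?_⟩
            · rw [← hV.pub x0 z h2, hV.pub x z h4]
              exact hV.self x
            · rw [← hH.pub x0 y h1, hH.pub x y h3]
              exact hH.self x
          · rintro ⟨h3, h4⟩
            rw [hH.pub x0 x h4, hV.pub x0 x h3]
            exact ⟨h1, h2⟩
        have e4 : ∀ x, (if y ∈ H x ∧ z ∈ V x then w y / (U y).card * (1 / (P x).card) else 0 : ℝ) =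
            if x ∈ P x0 then w y / (U y).card * (1 / (P x0).card) else 0 := by
          intro x
          by_cases hx : x ∈ P x0
          · rw [if_pos hx, if_pos ((e3 x).2 hx)]
            have h5 := (hP x0 x).1 hx
            have : P x = P x0 := by
              ext t
              rw [hP, hP, hV.pub x0 x h5.1, hH.pub x0 x h5.2]
            rw [this]
          · rw [if_neg hx, if_neg (fun h => hx ((e3 x).1 h))]
        rw [Finset.sum_congr rfl fun x _ => e4 x, ← Finset.sum_filter,
          show (univ.filter fun z => z ∈ P x0) = P x0 by ext z; simp, Finset.sum_const, nsmul_eq_mul]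
        have := cP x0
        refine le_of_eq ?_
        field_simp
      · rw [Finset.sum_eq_zero fun x _ => if_neg (fun h => hne ⟨x, h⟩)]
        split_ifs
        · exact div_nonneg (hw y) (cU y).le
        · exact le_rfl
    refine (Finset.sum_le_sum fun z _ => e2 z).trans ?_
    rw [← Finset.sum_filter, show (univ.filter fun z => z ∈ U y) = U y by ext z; simp, Finset.sum_const,
      nsmul_eq_mul]
    have := cU y
    refine le_of_eq ?_
    field_simp
  have e5 : ∀ x, w x * Real.log ((H x).card / (P x).card) ≤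
      w x * Real.log ((U x).card / (V x).card) + (w x * ((V x).card * (H x).card / ((U x).card * (P x).card)) - w x) := by
    intro x
    have h1 := cU x
    have h2 := cV x
    have h3 := cH x
    have h4 := cP x
    have e6 : Real.log ((H x).card / (P x).card : ℝ) = Real.log ((U x).card / (V x).card : ℝ) +
        Real.log ((V x).card * (H x).card / ((U x).card * (P x).card) : ℝ) := by
      rw [← Real.log_mul (by positivity) (by positivity)]
      congr 1
      field_simp
    have e7 := Real.log_le_sub_one_of_pos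
      (show (0 : ℝ) < (V x).card * (H x).card / ((U x).card * (P x).card) by positivity)
    have e8 := mul_le_mul_of_nonneg_left e7 (hw x)
    rw [e6, mul_add]
    linarith
  refine (Finset.sum_le_sum fun x _ => e5 x).trans ?_
  rw [Finset.sum_add_distrib, Finset.sum_sub_distrib]
  linarith

end part

section mean

variable {X β γ : Type*} [Fintype X] [Fintype β] [Fintype γ]

/-- comparison of means from the comparison for every pair `(b,c)` -/
theorem E3_le_of_sum {f g : X → β → γ → ℝ} (h : ∀ b c, ∑ x, f x b c ≤ ∑ x, g x b c) : E3 f ≤ E3 g := by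
  rw [E3_eq, E3_eq]
  refine div_le_div_of_nonneg_right ?_ (by positivity)
  exact Finset.sum_le_sum fun b _ => Finset.sum_le_sum fun c _ => h b c

theorem avg_comm {α α' : Type*} (S : Finset α) (T : Finset α') (f : α → α' → ℝ) :
    avg S (fun a => avg T fun b => f a b) = avg T fun b => avg S fun a => f a b := by
  unfold avg
  rw [← Finset.sum_div, ← Finset.sum_div, Finset.sum_comm, div_div, div_div, mul_comm (S.card : ℝ)]

end mean

variable {X β γ ι φ : Type*} [Fintype X] {D : Dat X β γ ι φ}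

section classes

variable (R : Rt D) (s : ℕ)

/-- virtual cell at the time `s` -/
def bVc (x : X) (b : β) (c : γ) : Finset X := VF R.toRm (R.ep s x b c) s x b c

open Classical in
/-- virtual cell after the digit -/
def bVh (x : X) (b : β) (c : γ) : Finset X := VF R.toRm (R.ep s x b c) s x b c ∩ D.cA (s + 1) x

/-- virtual cell after the virtual split -/
def bVn (x : X) (b : β) (c : γ) : Finset X := VF R.toRm (R.ep s x b c) (s + 1) x b c

/-- the same for `g` -/
def bVg (x : X) (b : β) (c : γ) : Finset X := VG R.toRm (R.ep s x b c) (s + 1) x b c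

/-- the test at the time `s+1` -/
def bT (x : X) (b : β) (c : γ) : Prop := R.tt (R.ep s x b c) (s + 1) x b c

open Classical in
/-- the coarse cell of the step -/
def bJ (x : X) (b : β) (c : γ) : Finset X :=
  if bT R s x b c then R.jn (R.ep s x b c) (s + 1) x b c else R.hf s x b c

open Classical in
/-- the virtual cell at a test, the half step class otherwise -/
def bVt (x : X) (b : β) (c : γ) : Finset X := if bT R s x b c then bVn R s x b c else R.hf s x b c

variable {R s}

theorem ep_pub {x x' : X} {b b' : β} {c c' : γ} (hS : D.Same s x b c x' b' c') (hx : x' ∈ R.U s x b c) :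
    R.ep s x' b' c' = R.ep s x b c := (R.pub s hS hx).1

theorem bVc_sub (x : X) (b : β) (c : γ) : bVc R s x b c ⊆ R.U s x b c :=
  VF_W R.toRm (R.self_om0 s x b c) (R.om0_sub s x b c) s (R.t0_le s x b c) b c

theorem bVh_sub (x : X) (b : β) (c : γ) : bVh R s x b c ⊆ bVc R s x b c := by
  classical
  exact Finset.inter_subset_left

theorem mem_bVh {x y : X} {b : β} {c : γ} : y ∈ bVh R s x b c ↔ y ∈ bVc R s x b c ∧ D.qa (s + 1) y = D.qa (s + 1) x := by
  classical
  unfold bVh bVc
  rw [Finset.mem_inter, D.mem_cA]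

theorem mem_hf {x y : X} {b : β} {c : γ} : y ∈ R.hf s x b c ↔ y ∈ R.U s x b c ∧ D.qa (s + 1) y = D.qa (s + 1) x := by
  constructor
  · intro h
    exact ⟨R.hf_sub_U s x b c h, (mem_W.1 h).2⟩
  · rintro ⟨h1, h2⟩
    exact mem_W.2 ⟨(mem_W.1 h1).1, h2⟩

theorem bVh_hf (x : X) (b : β) (c : γ) : bVh R s x b c ⊆ R.hf s x b c := fun y hy => by
  rw [mem_bVh] at hy
  exact mem_hf.2 ⟨bVc_sub x b c hy.1, hy.2⟩

theorem bVn_bVh (x : X) (b : β) (c : γ) : bVn R s x b c ⊆ bVh R s x b c := fun y hy => by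
  classical
  rw [mem_bVh]
  exact ((mem_VF_succ R.toRm (R.t0_le s x b c)).1 hy).1

theorem bVn_hf (x : X) (b : β) (c : γ) : bVn R s x b c ⊆ R.hf s x b c := (bVn_bVh x b c).trans (bVh_hf x b c)

theorem bVg_hf (x : X) (b : β) (c : γ) : bVg R s x b c ⊆ R.hf s x b c :=
  VG_W R.toRm (R.self_om0 s x b c) (R.om0_sub s x b c) (s + 1) ((R.t0_le s x b c).trans (Nat.le_succ s)) b c

theorem hf_U (x : X) (b : β) (c : γ) {y : X} (hy : y ∈ R.hf s x b c) : y ∈ R.U s x b c := R.hf_sub_U s x b c hy

/-- the half step class is public -/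
theorem hf_pub {x x' : X} {b b' : β} {c c' : γ} (hS : D.Same (s + 1) x b c x' b' c') (hx : x' ∈ R.U s x b c) :
    R.hf s x' b' c' = R.hf s x b c := by
  ext y
  rw [mem_hf, mem_hf, (R.pub s (hS.le (Nat.le_succ s)) hx).2, hS.1]

theorem bT_pub {x x' : X} {b b' : β} {c c' : γ} (hS : D.Same (s + 1) x b c x' b' c') (hx : x' ∈ R.U s x b c) :
    bT R s x' b' c' ↔ bT R s x b c := by
  unfold bT
  rw [ep_pub (hS.le (Nat.le_succ s)) hx]
  exact (R.tt_q _ (s + 1) _ _ _ _ _ _ ((R.t0_le s x b c).trans (Nat.le_succ s)) hS).symm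

theorem same1 {x y : X} {b : β} {c : γ} (h : y ∈ R.hf s x b c) : D.Same (s + 1) x b c y b c :=
  ⟨((mem_W.1 h).2).symm, rfl, rfl⟩

theorem same0 {x y : X} {b : β} {c : γ} (h : y ∈ R.U s x b c) : D.Same s x b c y b c :=
  ⟨(D.mem_cA.1 (R.U_sub s x b c h)).symm, rfl, rfl⟩

theorem pvU : PV (R.U s) := fun b c => ⟨fun x => R.self_U s x b c, fun x y hy => (R.pub s (same0 hy) hy).2⟩

theorem pvH : PV (R.hf s) := fun b c =>
  ⟨fun x => R.self_hf s x b c, fun x y hy => hf_pub (same1 hy) (hf_U x b c hy)⟩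

theorem bVc_pub {x y : X} {b b' : β} {c c' : γ} (hS : D.Same s x b c y b' c') (hy : y ∈ bVc R s x b c) :
    bVc R s y b' c' = bVc R s x b c := by
  unfold bVc
  rw [ep_pub hS (bVc_sub x b c hy)]
  exact VF_congr R.toRm (R.t0_le s x b c) hy hS.2.1 (D.qc_le (R.t0_le s x b c) hS.2.2)

theorem pvc : PV (bVc R s) := fun b c =>
  ⟨fun x => VF_self R.toRm (R.self_om0 s x b c) s b c, fun x y hy => bVc_pub (same0 (bVc_sub x b c hy)) hy⟩

theorem bVh_pub {x y : X} {b b' : β} {c c' : γ} (hS : D.Same (s + 1) x b c y b' c') (hy : y ∈ bVh R s x b c) :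
    bVh R s y b' c' = bVh R s x b c := by
  ext z
  rw [mem_bVh, mem_bVh, bVc_pub (hS.le (Nat.le_succ s)) (bVh_sub x b c hy), hS.1]

theorem pvh : PV (bVh R s) := fun b c =>
  ⟨fun x => mem_bVh.2 ⟨(pvc b c).self x, rfl⟩, fun x y hy => bVh_pub (same1 (bVh_hf x b c hy)) hy⟩

theorem bVn_pub {x y : X} {b b' : β} {c c' : γ} (hS : D.Same (s + 1) x b c y b' c') (hy : y ∈ bVn R s x b c) :
    bVn R s y b' c' = bVn R s x b c := by
  have h1 := (R.t0_le s x b c).trans (Nat.le_succ s)
  unfold bVn
  rw [ep_pub (hS.le (Nat.le_succ s)) (hf_U x b c (bVn_hf x b c hy))]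
  exact VF_congr R.toRm h1 hy hS.2.1 (D.qc_le h1 hS.2.2)

theorem pvn : PV (bVn R s) := fun b c =>
  ⟨fun x => VF_self R.toRm (R.self_om0 s x b c) (s + 1) b c, fun x y hy => bVn_pub (same1 (bVn_hf x b c hy)) hy⟩

theorem bVg_pub {x y : X} {b b' : β} {c c' : γ} (hS : D.Same (s + 1) x b c y b' c') (hy : y ∈ bVg R s x b c) :
    bVg R s y b' c' = bVg R s x b c := by
  have h1 := (R.t0_le s x b c).trans (Nat.le_succ s)
  unfold bVg
  rw [ep_pub (hS.le (Nat.le_succ s)) (hf_U x b c (bVg_hf x b c hy))]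
  exact VG_congr R.toRm h1 hy (D.qb_le h1 hS.2.1) hS.2.2

theorem pvg : PV (bVg R s) := fun b c =>
  ⟨fun x => VG_self R.toRm (R.self_om0 s x b c) (s + 1) b c, fun x y hy => bVg_pub (same1 (bVg_hf x b c hy)) hy⟩

theorem bVt_hf (x : X) (b : β) (c : γ) : bVt R s x b c ⊆ R.hf s x b c := by
  classical
  unfold bVt
  split_ifs
  · exact bVn_hf x b c
  · exact Finset.Subset.refl _

theorem pvt : PV (bVt R s) := fun b c => by
  classical
  refine ⟨fun x => ?_, fun x y hy => ?_⟩
  · show x ∈ bVt R s x b c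
    unfold bVt
    split_ifs
    · exact (pvn b c).self x
    · exact R.self_hf s x b c
  · have hy' : y ∈ bVt R s x b c := hy
    show bVt R s y b c = bVt R s x b c
    have h1 := bVt_hf x b c hy'
    have h2 := bT_pub (same1 h1) (hf_U x b c h1)
    unfold bVt at hy' ⊢
    by_cases h : bT R s x b c
    · rw [if_pos h] at hy' ⊢
      rw [if_pos (h2.2 h)]
      exact (pvn b c).pub x y hy'
    · rw [if_neg h] at hy' ⊢
      rw [if_neg (fun h' => h (h2.1 h'))]
      exact (pvH b c).pub x y hy'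

theorem bJ_hf (x : X) (b : β) (c : γ) : bJ R s x b c ⊆ R.hf s x b c := by
  classical
  unfold bJ
  split_ifs
  · exact R.jn_sub_hf s x b c
  · exact Finset.Subset.refl _

theorem bJ_pub {x y : X} {b b' : β} {c c' : γ} (hS : D.Same (s + 1) x b c y b' c') (hy : y ∈ bJ R s x b c) :
    bJ R s y b' c' = bJ R s x b c := by
  classical
  have h1 := bJ_hf x b c hy
  have h2 := bT_pub hS (hf_U x b c h1)
  unfold bJ at hy ⊢
  by_cases h : bT R s x b c
  · rw [if_pos h] at hy ⊢
    rw [if_pos (h2.2 h), ep_pub (hS.le (Nat.le_succ s)) (hf_U x b c h1)]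
    exact R.jn_congr ((R.t0_le s x b c).trans (Nat.le_succ s)) hS hy
  · rw [if_neg h] at hy ⊢
    rw [if_neg (fun h' => h (h2.1 h'))]
    exact hf_pub hS (hf_U x b c hy)

theorem self_bJ (x : X) (b : β) (c : γ) : x ∈ bJ R s x b c := by
  classical
  unfold bJ
  split_ifs
  · exact R.self_jn (R.self_om0 s x b c)
  · exact R.self_hf s x b c

theorem pvJ : PV (bJ R s) := fun b c => ⟨fun x => self_bJ x b c, fun x y hy => bJ_pub (same1 (bJ_hf x b c hy)) hy⟩

theorem U_bJ (x : X) (b : β) (c : γ) : R.U (s + 1) x b c ⊆ bJ R s x b c := by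
  classical
  unfold bJ
  by_cases h : bT R s x b c
  · rw [if_pos h, R.U_new h]
    exact R.fin_sub
  · rw [if_neg h, R.U_keep h]

theorem U_bVt (x : X) (b : β) (c : γ) : R.U (s + 1) x b c ⊆ bVt R s x b c := by
  classical
  unfold bVt
  by_cases h : bT R s x b c
  · rw [if_pos h, R.U_new h]
    exact fun y hy => (R.mem_jn.1 (R.fin_sub hy)).1
  · rw [if_neg h, R.U_keep h]

end classes

/-! ## logarithms of sizes -/

section LLs

variable [Fintype β] [Fintype γ]

/-- mean of `log (|V| / |W|)` -/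
def LL (V W : X → β → γ → Finset X) : ℝ := E3 fun x b c => Real.log ((V x b c).card / (W x b c).card)

theorem LL_add {U V W : X → β → γ → Finset X} (hU : PV U) (hV : PV V) (hW : PV W) : LL U W = LL U V + LL V W := by
  unfold LL
  rw [← E3_add]
  refine E3_congr fun x b c => ?_
  have c1 : (0 : ℝ) < (U x b c).card := by exact_mod_cast Finset.card_pos.2 ⟨x, (hU b c).self x⟩
  have c2 : (0 : ℝ) < (V x b c).card := by exact_mod_cast Finset.card_pos.2 ⟨x, (hV b c).self x⟩
  have c3 : (0 : ℝ) < (W x b c).card := by exact_mod_cast Finset.card_pos.2 ⟨x, (hW b c).self x⟩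
  rw [Real.log_div c1.ne' c3.ne', Real.log_div c1.ne' c2.ne', Real.log_div c2.ne' c3.ne']
  ring

theorem LL_nonneg {U V : X → β → γ → Finset X} (hV : PV V) (h : ∀ x b c, V x b c ⊆ U x b c) : 0 ≤ LL U V := by
  refine E3_nonneg fun x b c => Real.log_nonneg ?_
  have c2 : (0 : ℝ) < (V x b c).card := by exact_mod_cast Finset.card_pos.2 ⟨x, (hV b c).self x⟩
  rw [le_div_iff₀ c2, one_mul]
  exact_mod_cast Finset.card_le_card (h x b c)

variable (R : Rt D) (s : ℕ)

/-- first potential -/
def Phi1 : ℝ := LL (R.U s) (bVc R s)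

/-- bits of the virtual partition which are paid at the test -/
def bF : ℝ := E3 fun x b c => ind (bT R s x b c) * Real.log ((R.hf s x b c).card / (bVn R s x b c).card)

/-- the same for `g` -/
def bG : ℝ := E3 fun x b c => ind (bT R s x b c) * Real.log ((R.hf s x b c).card / (bVg R s x b c).card)

variable {R s}

/-- digit: the entropy of the virtual partition given the class does not increase -/
theorem LL_digit : LL (R.hf s) (bVh R s) ≤ Phi1 R s := by
  refine E3_le_of_sum fun b c => ?_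
  have h := submod (U := fun x => R.U s x b c) (V := fun x => bVc R s x b c) (H := fun x => R.hf s x b c)
    (P := fun x => bVh R s x b c) (pvU b c) (pvc b c) (pvH b c) (fun x => bVc_sub x b c)
    (fun x => R.hf_sub_U s x b c) (fun x y => by
      show y ∈ bVh R s x b c ↔ y ∈ bVc R s x b c ∧ y ∈ R.hf s x b c
      rw [mem_bVh, mem_hf]
      constructor
      · rintro ⟨h1, h2⟩
        exact ⟨h1, bVc_sub x b c h1, h2⟩
      · rintro ⟨h1, -, h2⟩
        exact ⟨h1, h2⟩) (fun _ => 1) (fun _ => zero_le_one) (fun _ _ _ => rfl)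
  simp only [one_mul] at h
  exact h

/-- the virtual cells of the next time -/
theorem bVc_succ (x : X) (b : β) (c : γ) : Real.log ((R.hf s x b c).card / (bVn R s x b c).card) =
    ind (bT R s x b c) * Real.log ((R.hf s x b c).card / (bVn R s x b c).card) +
      Real.log ((R.U (s + 1) x b c).card / (bVc R (s + 1) x b c).card) := by
  by_cases h : bT R s x b c
  · have h1 : (R.ep (s + 1) x b c).t0 = s + 1 := by rw [R.ep_new h]
    have e1 : bVc R (s + 1) x b c = R.U (s + 1) x b c := by
      rw [R.U_start h1]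
      exact VF_old R.toRm (le_of_eq h1.symm) x b c
    have c1 : ((R.U (s + 1) x b c).card : ℝ) ≠ 0 := by
      exact_mod_cast (Finset.card_pos.2 ⟨x, R.self_U (s + 1) x b c⟩).ne'
    rw [e1, div_self c1, Real.log_one, ind_of h, one_mul, add_zero]
  · have e1 : bVc R (s + 1) x b c = bVn R s x b c := by
      unfold bVc bVn
      rw [R.ep_old h]
    rw [e1, R.U_keep h, ind_not h, zero_mul, zero_add]

theorem LL_test : LL (R.hf s) (bVn R s) = bF R s + Phi1 R (s + 1) := by
  unfold LL bF Phi1 LL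
  rw [← E3_add]
  exact E3_congr fun x b c => bVc_succ x b c

theorem phi1_step {cst : ℝ} (hc : LL (bVh R s) (bVn R s) ≤ cst) : bF R s ≤ Phi1 R s - Phi1 R (s + 1) + cst := by
  have h1 := LL_digit (R := R) (s := s)
  have h2 := LL_test (R := R) (s := s)
  have h3 := LL_add (U := R.hf s) (V := bVh R s) (W := bVn R s) pvH pvh pvn
  linarith

/-- the join costs at most the sum of the two virtual partitions -/
theorem LL_join : LL (R.hf s) (bJ R s) ≤ bF R s + bG R s := by
  classical
  unfold LL bF bG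
  rw [← E3_add]
  refine E3_le_of_sum fun b c => ?_
  have h := submod (U := fun x => R.hf s x b c) (V := fun x => bVg R s x b c) (H := fun x => bVn R s x b c)
    (P := fun x => R.jn (R.ep s x b c) (s + 1) x b c) (pvH b c) (pvg b c) (pvn b c) (fun x => bVg_hf x b c)
    (fun x => bVn_hf x b c) (fun x y => by
      show y ∈ R.jn (R.ep s x b c) (s + 1) x b c ↔ y ∈ bVg R s x b c ∧ y ∈ bVn R s x b c
      rw [R.mem_jn]
      exact and_comm) (fun x => ind (bT R s x b c)) (fun _ => ind_nonneg _) (fun x y hy => by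
      show ind (bT R s y b c) = ind (bT R s x b c)
      exact congrArg ind (propext (bT_pub (same1 hy) (hf_U x b c hy))))
  have e1 : ∀ x, Real.log ((R.hf s x b c).card / (bJ R s x b c).card : ℝ) =
      ind (bT R s x b c) * Real.log ((R.hf s x b c).card / (bVn R s x b c).card) +
      ind (bT R s x b c) * Real.log ((bVn R s x b c).card / (R.jn (R.ep s x b c) (s + 1) x b c).card) := by
    intro x
    have c1 : (0 : ℝ) < (R.hf s x b c).card := by exact_mod_cast Finset.card_pos.2 ⟨x, R.self_hf s x b c⟩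
    have c2 : (0 : ℝ) < (bVn R s x b c).card := by exact_mod_cast Finset.card_pos.2 ⟨x, (pvn b c).self x⟩
    have c3 : (0 : ℝ) < (R.jn (R.ep s x b c) (s + 1) x b c).card := by
      exact_mod_cast Finset.card_pos.2 ⟨x, R.self_jn (R.self_om0 s x b c)⟩
    unfold bJ
    by_cases h1 : bT R s x b c
    · rw [if_pos h1, ind_of h1, Real.log_div c1.ne' c3.ne', Real.log_div c1.ne' c2.ne', Real.log_div c2.ne' c3.ne']
      ring
    · rw [if_neg h1, ind_not h1, div_self c1.ne', Real.log_one]
      ring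
  rw [Finset.sum_congr rfl fun x _ => e1 x, Finset.sum_add_distrib, Finset.sum_add_distrib]
  have h2 : ∑ x, ind (bT R s x b c) * Real.log ((bVn R s x b c).card / (R.jn (R.ep s x b c) (s + 1) x b c).card) ≤
    ∑ x, ind (bT R s x b c) * Real.log ((R.hf s x b c).card / (bVg R s x b c).card) := h
  linarith

end LLs

/-! ## the frozen kernel of the current epoch -/

section kaps

variable [Fintype β] [Fintype γ] [Fintype φ] {al : ℝ}

/-- the kernel of the frozen labels of the current epoch -/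
def kap (R : Rt D) (s : ℕ) (x : X) (b : β) (c : γ) (F : φ) : ℝ := D.kf (R.ep s x b c).t0 x b c F

variable {R : Rt D} {s : ℕ}

theorem law_kap {x : X} {b : β} {c : γ} {S : Finset X} (hS : S ⊆ R.U s x b c) :
    law S (fun y => kap R s y b c) = law S (fun y => D.kf (R.ep s x b c).t0 y b c) := by
  funext F
  unfold law avg
  congr 1
  refine Finset.sum_congr rfl fun y hy => ?_
  show D.kf (R.ep s y b c).t0 y b c F = D.kf (R.ep s x b c).t0 y b c F
  rw [ep_pub (same0 (hS hy)) (hS hy)]

theorem kap_nn (T : D.Thick al) (x : X) (b : β) (c : γ) (F : φ) : 0 ≤ kap R s x b c F := T.f_nn _ _ _ _ _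

theorem kap_one (T : D.Thick al) (x : X) (b : β) (c : γ) : ∑ F, kap R s x b c F = 1 := T.f_one _ _ _ _

theorem klf_self (p : φ → ℝ) : klf p p = 0 := by
  unfold klf
  refine Finset.sum_eq_zero fun F _ => ?_
  by_cases hF : p F = 0
  · rw [hF, zero_mul]
  · rw [div_self hF, Real.log_one, mul_zero]

variable (R s)

/-- gain of the virtual split -/
def gv : ℝ := HH (kap R s) (bVh R s) - HH (kap R s) (bVn R s)

/-- second potential -/
def Phi2 : ℝ := HH (kap R s) (R.U s) - HH (kap R s) (bVc R s)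

variable {R s}

/-- gain of the actual step, frozen labels -/
theorem phi2_step (T : D.Thick al) :
    gv R s ≤ Phi2 R (s + 1) - Phi2 R s + (HH (kap R s) (R.U s) - HH (kap R s) (R.U (s + 1))) := by
  classical
  have n0 := kap_nn (R := R) (s := s) T
  have n1 := kap_one (R := R) (s := s) T
  have h1 : HH (kap R s) (bVh R s) ≤ HH (kap R s) (bVc R s) := HH_mono n0 n1 pvc pvh bVh_sub
  have h2 := HH_sub (k := kap R s) n0 (pvH (R := R) (s := s)) (pvn (R := R) (s := s)) bVn_hf
  have h3 := HH_sub (k := kap R s) n0 (pvH (R := R) (s := s)) (pvt (R := R) (s := s)) bVt_hf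
  have h4 := HH_sub (k := kap R (s + 1)) (kap_nn (R := R) (s := s + 1) T) (pvU (R := R) (s := s + 1))
    (pvc (R := R) (s := s + 1)) bVc_sub
  have h5 : HH (kap R s) (R.U (s + 1)) ≤ HH (kap R s) (bVt R s) := HH_mono n0 n1 pvt pvU U_bVt
  have h6 : (E3 fun x b c => klf (law (bVn R s x b c) fun y => kap R s y b c) (law (R.hf s x b c) fun y => kap R s y b c)) =
      (E3 fun x b c => klf (law (bVt R s x b c) fun y => kap R s y b c) (law (R.hf s x b c) fun y => kap R s y b c)) +
      E3 fun x b c => klf (law (bVc R (s + 1) x b c) fun y => kap R (s + 1) y b c)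
        (law (R.U (s + 1) x b c) fun y => kap R (s + 1) y b c) := by
    rw [← E3_add]
    refine E3_congr fun x b c => ?_
    by_cases h : bT R s x b c
    · have e0 : (R.ep (s + 1) x b c).t0 = s + 1 := by rw [R.ep_new h]
      have e1 : bVc R (s + 1) x b c = R.U (s + 1) x b c := by
        rw [R.U_start e0]
        exact VF_old R.toRm (le_of_eq e0.symm) x b c
      have e2 : bVt R s x b c = bVn R s x b c := by
        unfold bVt
        rw [if_pos h]
      rw [e1, e2, klf_self, add_zero]
    · have e1 : bVc R (s + 1) x b c = bVn R s x b c := by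
        unfold bVc bVn
        rw [R.ep_old h]
      have e2 : bVt R s x b c = R.hf s x b c := by
        unfold bVt
        rw [if_neg h]
      have e3 := R.U_keep h
      rw [law_kap (bVc_sub (R := R) (s := s + 1) x b c), law_kap (Finset.Subset.refl (R.U (s + 1) x b c)), e1, e2, e3,
        klf_self, zero_add, law_kap ((bVn_hf x b c).trans (R.hf_sub_U s x b c)), law_kap (R.hf_sub_U s x b c), R.ep_old h]
  have h7 : HH (kap R s) (R.hf s) ≤ HH (kap R s) (R.U s) := HH_mono n0 n1 pvU pvH (fun x b c => R.hf_sub_U s x b c)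
  unfold gv Phi2
  linarith

/-- composition of the projections of the labels -/
theorem proj_le {K : ℕ} {prf : ℕ → φ → φ}
    (hp : ∀ t < K, ∀ x b c F, D.kf t x b c F = ∑ F', ind (prf t F' = F) * D.kf (t + 1) x b c F') {t s : ℕ} (hts : t ≤ s)
    (hs : s ≤ K) : ∃ π : φ → φ, ∀ x b c G, D.kf t x b c G = ∑ F, ind (π F = G) * D.kf s x b c F := by
  classical
  induction s, hts using Nat.le_induction with
  | base =>
    refine ⟨id, fun x b c G => ?_⟩
    rw [Finset.sum_eq_single G]
    · rw [ind_of (show id G = G from rfl), one_mul]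
    · intro F _ hF
      rw [ind_not (show ¬ id F = G from hF), zero_mul]
    · intro h
      exact absurd (Finset.mem_univ _) h
  | succ n hn ih =>
    obtain ⟨π, hπ⟩ := ih (by omega)
    refine ⟨fun F => π (prf n F), fun x b c G => ?_⟩
    rw [hπ]
    have h1 : ∀ F, ind (π F = G) * D.kf n x b c F =
        ∑ F', ind (π F = G) * (ind (prf n F' = F) * D.kf (n + 1) x b c F') := by
      intro F
      rw [hp n (by omega) x b c F, Finset.mul_sum]
    rw [Finset.sum_congr rfl fun F _ => h1 F, Finset.sum_comm]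
    refine Finset.sum_congr rfl fun F' _ => ?_
    rw [Finset.sum_eq_single (prf n F')]
    · rw [ind_of (show prf n F' = prf n F' from rfl), one_mul]
    · intro F _ hF
      rw [ind_not (show ¬ prf n F' = F from fun h => hF h.symm), zero_mul, mul_zero]
    · intro h
      exact absurd (Finset.mem_univ _) h

/-- the gain with the frozen labels is at most the gain with the labels of the time `s` -/
theorem kap_gain (T : D.Thick al) {K : ℕ} {prf : ℕ → φ → φ}
    (hp : ∀ t < K, ∀ x b c F, D.kf t x b c F = ∑ F', ind (prf t F' = F) * D.kf (t + 1) x b c F') (hs : s ≤ K)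
    {V W : X → β → γ → Finset X} (hV : PV V) (hW : PV W) (h : ∀ x b c, W x b c ⊆ V x b c)
    (hU : ∀ x b c, V x b c ⊆ R.U s x b c) :
    HH (kap R s) V - HH (kap R s) W ≤ HH (D.kf s) V - HH (D.kf s) W := by
  classical
  have hpi : ∀ (x : X) (b : β) (c : γ), ∃ π : φ → φ, ∀ y ∈ V x b c, ∀ G, kap R s y b c G =
      ∑ F, if π F = G then D.kf s y b c F else 0 := by
    intro x b c
    obtain ⟨π, hπ⟩ := proj_le hp (R.t0_le s x b c) hs
    refine ⟨π, fun y hy G => ?_⟩
    unfold kap
    rw [ep_pub (same0 (hU x b c hy)) (hU x b c hy), hπ]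
    refine Finset.sum_congr rfl fun F _ => ?_
    by_cases h1 : π F = G
    · rw [ind_of h1, if_pos h1, one_mul]
    · rw [ind_not h1, if_neg h1, zero_mul]
  choose π hπ using hpi
  have h1 := HH_upd_anti (k := D.kf s) (k0 := kap R s) (fun x b c F => T.f_nn s x b c F)
    (fun x b c F => kap_nn T x b c F) hV hW h π hπ
  linarith

end kaps

/-! ## the costs -/

section costs

variable [Fintype β] [Fintype γ] [Fintype φ] {al : ℝ}

open Classical in
/-- the virtual `f`-split costs at most `n` times its gain, at every node -/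
def CostF (R : Rm D) (n : ℝ) : Prop := ∀ (e : Epo X) (s : ℕ) (x : X) (b : β) (c : γ), e.t0 ≤ s →
  avg (VF R e s x b c ∩ D.cA (s + 1) x) (fun y => Real.log (((VF R e s x b c ∩ D.cA (s + 1) x).card : ℝ) /
      (VF R e (s + 1) y b c).card)) ≤
    n * avg (D.cB (s + 1) b) (fun b' => avg (VF R e s x b c ∩ D.cA (s + 1) x) fun y =>
      klf (law (VF R e (s + 1) y b c) fun z => D.kf e.t0 z b' c)
        (law (VF R e s x b c ∩ D.cA (s + 1) x) fun z => D.kf e.t0 z b' c))

theorem avg_congr {α : Type*} {S : Finset α} {f g : α → ℝ} (h : ∀ a ∈ S, f a = g a) : avg S f = avg S g := by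
  unfold avg
  rw [Finset.sum_congr rfl h]

theorem costF_rmB (T : D.Thick al) (n : ℝ) : CostF (rmB D n) n := by
  classical
  intro e s x b c h
  have h1 : ∀ y ∈ VF (rmB D n) e s x b c ∩ D.cA (s + 1) x, VF (rmB D n) e (s + 1) y b c =
      fblk (VFh D n e s x b c) (sp1N n (kfc D e.t0 c) (D.cB (s + 1) b) (VFh D n e s x b c)) y := by
    intro y hy
    rw [Finset.mem_inter, D.mem_cA] at hy
    have e1 : VFh D n e s y b c = VFh D n e s x b c := by
      unfold VFh
      rw [VF_congr (rmB D n) h hy.1 rfl rfl, D.cA_congr hy.2]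
    rw [VF_fblk h, e1]
  have h2 := VF_cost (n := n) T e s x b c
  have e2 : avg (VF (rmB D n) e s x b c ∩ D.cA (s + 1) x)
      (fun y => Real.log (((VF (rmB D n) e s x b c ∩ D.cA (s + 1) x).card : ℝ) / (VF (rmB D n) e (s + 1) y b c).card)) =
      avg (VFh D n e s x b c) (fun y => Real.log (((VFh D n e s x b c).card : ℝ) /
        (fblk (VFh D n e s x b c) (sp1N n (kfc D e.t0 c) (D.cB (s + 1) b) (VFh D n e s x b c)) y).card)) :=
    avg_congr fun y hy => by rw [h1 y hy]; rfl
  have e3 : (avg (D.cB (s + 1) b) fun b' => avg (VF (rmB D n) e s x b c ∩ D.cA (s + 1) x) fun y =>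
      klf (law (VF (rmB D n) e (s + 1) y b c) fun z => D.kf e.t0 z b' c)
        (law (VF (rmB D n) e s x b c ∩ D.cA (s + 1) x) fun z => D.kf e.t0 z b' c)) =
      avg (D.cB (s + 1) b) (fun b' => avg (VFh D n e s x b c) fun y =>
        klf (law (fblk (VFh D n e s x b c) (sp1N n (kfc D e.t0 c) (D.cB (s + 1) b) (VFh D n e s x b c)) y)
            fun z => D.kf e.t0 z b' c)
          (law (VFh D n e s x b c) fun z => D.kf e.t0 z b' c)) :=
    avg_congr fun b' _ => avg_congr fun y hy => by rw [h1 y hy]; rfl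
  rw [e2, e3]
  exact h2

theorem costF_swap (T : D.Thick al) (n : ℝ) : CostF (swapRm (rmB D n)) n := by
  classical
  intro e s x c b h
  have h1 : ∀ y ∈ VG (rmB D n) e s x b c ∩ D.cA (s + 1) x, VG (rmB D n) e (s + 1) y b c =
      fblk (VGh D n e s x b c) (sp1N n (kgb D e.t0 b) (D.cC (s + 1) c) (VGh D n e s x b c)) y := by
    intro y hy
    rw [Finset.mem_inter, D.mem_cA] at hy
    have e1 : VGh D n e s y b c = VGh D n e s x b c := by
      unfold VGh
      rw [VG_congr (rmB D n) h hy.1 rfl rfl, D.cA_congr hy.2]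
    rw [VG_fblk h, e1]
  have h2 := VG_cost (n := n) T e s x b c
  have e2 : avg (VG (rmB D n) e s x b c ∩ D.cA (s + 1) x)
      (fun y => Real.log (((VG (rmB D n) e s x b c ∩ D.cA (s + 1) x).card : ℝ) / (VG (rmB D n) e (s + 1) y b c).card)) =
      avg (VGh D n e s x b c) (fun y => Real.log (((VGh D n e s x b c).card : ℝ) /
        (fblk (VGh D n e s x b c) (sp1N n (kgb D e.t0 b) (D.cC (s + 1) c) (VGh D n e s x b c)) y).card)) :=
    avg_congr fun y hy => by rw [h1 y hy]; rfl
  have e3 : (avg (D.cC (s + 1) c) fun c' => avg (VG (rmB D n) e s x b c ∩ D.cA (s + 1) x) fun y =>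
      klf (law (VG (rmB D n) e (s + 1) y b c) fun z => D.kg e.t0 z b c')
        (law (VG (rmB D n) e s x b c ∩ D.cA (s + 1) x) fun z => D.kg e.t0 z b c')) =
      avg (D.cC (s + 1) c) (fun c' => avg (VGh D n e s x b c) fun y =>
        klf (law (fblk (VGh D n e s x b c) (sp1N n (kgb D e.t0 b) (D.cC (s + 1) c) (VGh D n e s x b c)) y)
            fun z => D.kg e.t0 z b c')
          (law (VGh D n e s x b c) fun z => D.kg e.t0 z b c')) :=
    avg_congr fun c' _ => avg_congr fun y hy => by rw [h1 y hy]; rfl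
  have e4 : ∀ y, VF (swapRm (rmB D n)) e (s + 1) y c b = VG (rmB D n) e (s + 1) y b c := fun y => VF_swap _ _ _ _ _ _
  have e5 : VF (swapRm (rmB D n)) e s x c b = VG (rmB D n) e s x b c := VF_swap _ _ _ _ _ _
  simp only [e4, e5]
  rw [← e2, ← e3] at h2
  exact h2

variable {R : Rt D} {s : ℕ} {n : ℝ}

theorem cost_E3 (T : D.Thick al) (hc : CostF R.toRm n) : LL (bVh R s) (bVn R s) ≤ n * gv R s := by
  classical
  unfold gv
  rw [HH_sub (k := kap R s) (kap_nn T) (pvh (R := R) (s := s)) (pvn (R := R) (s := s)) bVn_bVh]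
  unfold LL
  rw [← E3_smul, E3_pub D (s + 1) (s + 1) (pvh (R := R) (s := s)),
    E3_pub D (s + 1) (s + 1) (pvh (R := R) (s := s)) (fun x b c => n * _)]
  refine E3_mono fun x b c => ?_
  have ht0 := R.t0_le s x b c
  have ht1 : (R.ep s x b c).t0 ≤ s + 1 := ht0.trans (Nat.le_succ s)
  -- facts at the node
  have hS : ∀ x' ∈ bVh R s x b c, ∀ b' ∈ D.cB (s + 1) b, ∀ c' ∈ D.cC (s + 1) c, D.Same (s + 1) x b c x' b' c' :=
    fun x' hx' b' hb' c' hc' => ⟨((mem_bVh.1 hx').2).symm, (D.mem_cB.1 hb').symm, (D.mem_cC.1 hc').symm⟩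
  have hU : ∀ x' ∈ bVh R s x b c, x' ∈ R.U s x b c := fun x' hx' => bVc_sub x b c (mem_bVh.1 hx').1
  have hep : ∀ x' ∈ bVh R s x b c, ∀ b' ∈ D.cB (s + 1) b, ∀ c' ∈ D.cC (s + 1) c, R.ep s x' b' c' = R.ep s x b c :=
    fun x' hx' b' hb' c' hc' => ep_pub ((hS x' hx' b' hb' c' hc').le (Nat.le_succ s)) (hU x' hx')
  have hvh : ∀ x' ∈ bVh R s x b c, ∀ b' ∈ D.cB (s + 1) b, ∀ c' ∈ D.cC (s + 1) c, bVh R s x' b' c' = bVh R s x b c :=
    fun x' hx' b' hb' c' hc' => bVh_pub (hS x' hx' b' hb' c' hc') hx'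
  have hvn : ∀ x' ∈ bVh R s x b c, ∀ b' ∈ D.cB (s + 1) b, ∀ c' ∈ D.cC (s + 1) c, bVn R s x' b' c' =
      VF R.toRm (R.ep s x b c) (s + 1) x' b c := by
    intro x' hx' b' hb' c' hc'
    unfold bVn
    rw [hep x' hx' b' hb' c' hc']
    have hx0 : x' ∈ (R.ep s x b c).om0 := (mem_W.1 (hU x' hx')).1
    exact VF_congr R.toRm ht1 (VF_self R.toRm hx0 (s + 1) b c) (D.mem_cB.1 hb').symm
      (D.qc_le ht1 (D.mem_cC.1 hc').symm)
  have hb0 : (D.cB (s + 1) b).Nonempty := ⟨b, D.self_cB _ _⟩
  have hc0 : (D.cC (s + 1) c).Nonempty := ⟨c, D.self_cC _ _⟩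
  have eL : (avg (bVh R s x b c) fun x' => avg (D.cB (s + 1) b) fun b' => avg (D.cC (s + 1) c) fun c' =>
      Real.log ((bVh R s x' b' c').card / (bVn R s x' b' c').card)) =
      avg (bVh R s x b c) fun x' => Real.log ((bVh R s x b c).card / (VF R.toRm (R.ep s x b c) (s + 1) x' b c).card) := by
    refine avg_congr fun x' hx' => ?_
    rw [avg_congr (g := fun _ => Real.log ((bVh R s x b c).card / (VF R.toRm (R.ep s x b c) (s + 1) x' b c).card))
      fun b' hb' => ?_, avg_const hb0]
    rw [avg_congr (g := fun _ => Real.log ((bVh R s x b c).card / (VF R.toRm (R.ep s x b c) (s + 1) x' b c).card))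
      fun c' hc' => ?_, avg_const hc0]
    rw [hvh x' hx' b' hb' c' hc', hvn x' hx' b' hb' c' hc']
  have eR : (avg (bVh R s x b c) fun x' => avg (D.cB (s + 1) b) fun b' => avg (D.cC (s + 1) c) fun c' =>
      n * klf (law (bVn R s x' b' c') fun y => kap R s y b' c') (law (bVh R s x' b' c') fun y => kap R s y b' c')) =
      n * avg (D.cB (s + 1) b) fun b' => avg (bVh R s x b c) fun x' =>
        klf (law (VF R.toRm (R.ep s x b c) (s + 1) x' b c) fun z => D.kf (R.ep s x b c).t0 z b' c)
          (law (bVh R s x b c) fun z => D.kf (R.ep s x b c).t0 z b' c) := by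
    rw [avg_comm, ← avg_smul]
    refine avg_congr fun b' hb' => ?_
    rw [← avg_smul]
    refine avg_congr fun x' hx' => ?_
    rw [avg_congr (g := fun _ => n * klf (law (VF R.toRm (R.ep s x b c) (s + 1) x' b c) fun z =>
        D.kf (R.ep s x b c).t0 z b' c) (law (bVh R s x b c) fun z => D.kf (R.ep s x b c).t0 z b' c))
      fun c' hc' => ?_, avg_const hc0]
    have k1 : (fun z => D.kf (R.ep s x b c).t0 z b' c') = fun z => D.kf (R.ep s x b c).t0 z b' c := by
      funext z
      exact D.kf_c _ z b' c' c (D.qc_le ht1 (D.mem_cC.1 hc'))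
    have k2 : bVn R s x' b' c' ⊆ R.U s x' b' c' := (bVn_hf x' b' c').trans (R.hf_sub_U s x' b' c')
    have k3 : bVh R s x' b' c' ⊆ R.U s x' b' c' := (bVh_hf x' b' c').trans (R.hf_sub_U s x' b' c')
    rw [law_kap k2, law_kap k3, hep x' hx' b' hb' c' hc', k1, hvh x' hx' b' hb' c' hc', hvn x' hx' b' hb' c' hc']
  rw [eL, eR]
  exact hc (R.ep s x b c) s x b c ht0

end costs

/-! ## budgets -/

section budgets

variable [Fintype β] [Fintype γ] [Fintype φ] {al Lam : ℝ} {K : ℕ}

/-- BUDGET of all gains with the old labels along a refining family -/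
theorem bud_fam_f (T : D.Thick al) (hB : Birth D K Lam) {V : ℕ → X → β → γ → Finset X} (hV : RefCl D V) :
    ∑ t ∈ range K, (Hf D t (V t) - Hf D t (V (t + 1))) ≤ Lam := by
  have h1 := hB.f V hV
  have h2 : 0 ≤ Hf D K (V K) := HH_nonneg (fun x b c F => T.f_nn K x b c F) (fun x b c => T.f_one K x b c) (hV.pv K)
  have h3 : ∀ m, ∑ t ∈ range m, (Hf D t (V t) - Hf D t (V (t + 1))) =
      Hf D 0 (V 0) + ∑ t ∈ range m, (Hf D (t + 1) (V (t + 1)) - Hf D t (V (t + 1))) - Hf D m (V m) := by
    intro m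
    induction m with
    | zero => simp
    | succ m ih => rw [Finset.sum_range_succ, Finset.sum_range_succ, ih]; ring
  rw [h3]
  linarith

/-- the half step classes as a refining family -/
def hfB (R : Rt D) : ℕ → X → β → γ → Finset X
  | 0 => fun x _ _ => D.cA 0 x
  | t + 1 => R.hf t

theorem hfB_refCl (R : Rt D) : RefCl D (hfB R) where
  self t x b c := by
    cases t with
    | zero => exact D.self_cA 0 x
    | succ t => exact R.self_hf t x b c
  cell t x b c := by
    cases t with
    | zero => exact Finset.Subset.refl _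
    | succ t => exact R.hf_sub t x b c
  pub t x b c x' b' c' hS hx := by
    cases t with
    | zero => exact (D.cA_congr hS.1).symm
    | succ t => exact hf_pub hS (hf_U x b c hx)
  ref t x b c := by
    cases t with
    | zero => exact (R.hf_sub_U 0 x b c).trans (R.U_sub 0 x b c)
    | succ t => exact (R.hf_sub_U (t + 1) x b c).trans (R.U_sub_hf t x b c)

/-- BUDGET of the gains of the partition step with the NEW labels, with the split at the start -/
theorem bud_newB (T : D.Thick al) (hB : Birth D K Lam) (R : Rt D) :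
    (Hf D 0 (fun x _ _ => D.cA 0 x) - Hf D 0 (R.U 0)) +
      ∑ t ∈ range K, (Hf D (t + 1) (R.hf t) - Hf D (t + 1) (R.U (t + 1))) ≤ Lam := by
  have h1 := hB.f (hfB R) (hfB_refCl R)
  have h2 : 0 ≤ Hf D K (R.U K) := HH_nonneg (fun x b c F => T.f_nn K x b c F) (fun x b c => T.f_one K x b c) pvU
  have h4 : ∀ t, Hf D t (R.hf t) ≤ Hf D t (R.U t) := fun t =>
    HH_mono (fun x b c F => T.f_nn t x b c F) (fun x b c => T.f_one t x b c) pvU pvH
      (fun x b c => R.hf_sub_U t x b c)
  have h3 : ∀ m, (Hf D 0 (fun x _ _ => D.cA 0 x) - Hf D 0 (R.U 0)) +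
      ∑ t ∈ range m, (Hf D (t + 1) (R.hf t) - Hf D (t + 1) (R.U (t + 1))) ≤
      Hf D 0 (fun x _ _ => D.cA 0 x) + ∑ t ∈ range m, (Hf D (t + 1) (R.hf t) - Hf D t (R.hf t)) - Hf D m (R.U m) := by
    intro m
    induction m with
    | zero => simp
    | succ m ih =>
      rw [Finset.sum_range_succ, Finset.sum_range_succ]
      have := h4 m
      linarith
  have h5 := h3 K
  have h6 : Hf D 0 (hfB R 0) + ∑ t ∈ range K, (Hf D (t + 1) (hfB R (t + 1)) - Hf D t (hfB R (t + 1))) =
      Hf D 0 (fun x _ _ => D.cA 0 x) + ∑ t ∈ range K, (Hf D (t + 1) (R.hf t) - Hf D t (R.hf t)) := rfl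
  linarith

theorem Hf_swap (t : ℕ) (V : X → β → γ → Finset X) : Hf D.swap t (fun x c b => V x b c) = Hg D t V :=
  E3_swap (fun x b c => ent fun F => law (V x b c) (fun y => D.kg t y b c) F)

theorem Hg_swap (t : ℕ) (V : X → β → γ → Finset X) : Hg D.swap t (fun x c b => V x b c) = Hf D t V :=
  E3_swap (fun x b c => ent fun F => law (V x b c) (fun y => D.kf t y b c) F)

theorem birth_swap (hB : Birth D K Lam) : Birth D.swap K Lam where
  f V hV := by
    have h1 : RefCl D (fun t x b c => V t x c b) := ⟨fun t x b c => hV.self t x c b, fun t x b c => hV.cell t x c b,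
      fun t x b c x' b' c' hS hx => hV.pub t x c b x' c' b' ⟨hS.1, hS.2.2, hS.2.1⟩ hx, fun t x b c => hV.ref t x c b⟩
    have h2 := hB.g _ h1
    have h3 : ∀ t r, Hg D t (fun x b c => V r x c b) = Hf D.swap t (V r) := fun t r =>
      (Hf_swap t (fun x b c => V r x c b)).symm
    simp only [h3] at h2
    exact h2
  g V hV := by
    have h1 : RefCl D (fun t x b c => V t x c b) := ⟨fun t x b c => hV.self t x c b, fun t x b c => hV.cell t x c b,
      fun t x b c x' b' c' hS hx => hV.pub t x c b x' c' b' ⟨hS.1, hS.2.2, hS.2.1⟩ hx, fun t x b c => hV.ref t x c b⟩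
    have h2 := hB.f _ h1
    have h3 : ∀ t r, Hf D t (fun x b c => V r x c b) = Hg D.swap t (V r) := fun t r =>
      (Hg_swap t (fun x b c => V r x c b)).symm
    simp only [h3] at h2
    exact h2

end budgets

/-! ## totals -/

section totals

variable [Fintype β] [Fintype γ] [Fintype φ] {al Lam n : ℝ} {K : ℕ} {R : Rt D}

theorem bVc_start {s : ℕ} {x : X} {b : β} {c : γ} (h : (R.ep s x b c).t0 = s) : bVc R s x b c = R.U s x b c := by
  rw [R.U_start h]
  exact VF_old R.toRm (le_of_eq h.symm) x b c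

theorem Phi1_start {s : ℕ} (h : ∀ x b c, (R.ep s x b c).t0 = s) : Phi1 R s = 0 := by
  have h1 : ∀ x b c, Real.log ((R.U s x b c).card / (bVc R s x b c).card : ℝ) = 0 := by
    intro x b c
    have c1 : ((R.U s x b c).card : ℝ) ≠ 0 := by exact_mod_cast (Finset.card_pos.2 ⟨x, R.self_U s x b c⟩).ne'
    rw [bVc_start (h x b c), div_self c1, Real.log_one]
  unfold Phi1 LL
  simp only [h1]
  rw [E3_eq]
  simp

theorem Phi2_start {s : ℕ} (h : ∀ x b c, (R.ep s x b c).t0 = s) : Phi2 R s = 0 := by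
  have h1 : bVc R s = R.U s := by
    funext x b c
    exact bVc_start (h x b c)
  unfold Phi2
  rw [h1, sub_self]

/-- THE VIRTUAL GAINS are at most the actual gains -/
theorem gv_sum (T : D.Thick al) (hB : Birth D K Lam) {prf : ℕ → φ → φ}
    (hp : ∀ t < K, ∀ x b c F, D.kf t x b c F = ∑ F', ind (prf t F' = F) * D.kf (t + 1) x b c F')
    (hK : ∀ x b c, (R.ep K x b c).t0 = K) : ∑ s ∈ range K, gv R s ≤ Lam := by
  have h0 : Phi2 R 0 = 0 := Phi2_start fun x b c => Nat.le_zero.1 (R.t0_le 0 x b c)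
  have h1 : ∀ m, ∑ s ∈ range m, gv R s ≤ Phi2 R m - Phi2 R 0 +
      ∑ s ∈ range m, (HH (kap R s) (R.U s) - HH (kap R s) (R.U (s + 1))) := by
    intro m
    induction m with
    | zero => simp
    | succ m ih =>
      rw [Finset.sum_range_succ, Finset.sum_range_succ]
      have := phi2_step (R := R) (s := m) T
      linarith
  have h2 : ∑ s ∈ range K, (HH (kap R s) (R.U s) - HH (kap R s) (R.U (s + 1))) ≤
      ∑ s ∈ range K, (Hf D s (R.U s) - Hf D s (R.U (s + 1))) :=
    Finset.sum_le_sum fun s hs => kap_gain T hp (mem_range.1 hs).le pvU pvU (fun x b c => R.U_succ_sub s x b c)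
      (fun x b c => Finset.Subset.refl _)
  have h3 := bud_fam_f T hB R.refCl
  have h4 := h1 K
  rw [Phi2_start hK, h0] at h4
  linarith

/-- BITS OF THE VIRTUAL `f`-PARTITIONS at the tests -/
theorem bits_f (T : D.Thick al) (hB : Birth D K Lam) {prf : ℕ → φ → φ}
    (hp : ∀ t < K, ∀ x b c F, D.kf t x b c F = ∑ F', ind (prf t F' = F) * D.kf (t + 1) x b c F')
    (hK : ∀ x b c, (R.ep K x b c).t0 = K) (hn : 0 ≤ n) (hc : CostF R.toRm n) : ∑ s ∈ range K, bF R s ≤ n * Lam := by
  have h0 : Phi1 R 0 = 0 := Phi1_start fun x b c => Nat.le_zero.1 (R.t0_le 0 x b c)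
  have h1 : ∀ m, ∑ s ∈ range m, bF R s ≤ Phi1 R 0 - Phi1 R m + ∑ s ∈ range m, n * gv R s := by
    intro m
    induction m with
    | zero => simp
    | succ m ih =>
      rw [Finset.sum_range_succ, Finset.sum_range_succ]
      have := phi1_step (R := R) (s := m) (cost_E3 T hc)
      linarith
  have h2 := h1 K
  rw [Phi1_start hK, h0, ← Finset.mul_sum] at h2
  have h3 := mul_le_mul_of_nonneg_left (gv_sum (R := R) T hB hp hK) hn
  linarith

theorem bF_swap (s : ℕ) : bF R.swap s = bG R s := by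
  have h1 : ∀ (x : X) (b : β) (c : γ), ind (bT R.swap s x c b) * Real.log ((R.swap.hf s x c b).card / (bVn R.swap s x c b).card) =
      ind (bT R s x b c) * Real.log ((R.hf s x b c).card / (bVg R s x b c).card) := by
    intro x b c
    have e1 : bT R.swap s x c b = bT R s x b c := by
      unfold bT
      rw [R.ep_swap]
      rfl
    have e2 : bVn R.swap s x c b = bVg R s x b c := by
      unfold bVn bVg
      rw [R.ep_swap]
      exact VF_swap _ _ _ _ _ _
    rw [e1, e2, R.hf_swap]
  unfold bF bG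
  rw [← E3_swap (fun x b c => ind (bT R s x b c) * Real.log ((R.hf s x b c).card / (bVg R s x b c).card))]
  exact E3_congr fun x c b => h1 x b c

/-- BITS OF THE VIRTUAL `g`-PARTITIONS at the tests -/
theorem bits_g (T : D.Thick al) (hB : Birth D K Lam) {prg : ℕ → φ → φ}
    (hp : ∀ t < K, ∀ x b c F, D.kg t x b c F = ∑ F', ind (prg t F' = F) * D.kg (t + 1) x b c F')
    (hK : ∀ x b c, (R.ep K x b c).t0 = K) (hn : 0 ≤ n) (hc : CostF (swapRm R.toRm) n) :
    ∑ s ∈ range K, bG R s ≤ n * Lam := by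
  have h := bits_f (R := R.swap) (n := n) (thick_swap T) (birth_swap hB) (prf := prg)
    (fun t ht x c b F => hp t ht x b c F) (fun x c b => by rw [R.ep_swap]; exact hK x b c) hn hc
  simp only [bF_swap] at h
  exact h

theorem mel_eq_ent (k : X → β → φ → ℝ) (Bs : Finset β) (S : Finset X) :
    mel k Bs S = avg Bs fun b => ent (law S fun y => k y b) := rfl

/-- COMPLETE SPLIT of the classes `J` at the time `r` (with new labels), `W` = cells of the split or `W = J` -/
theorem split_gen (r : ℕ) {J W : X → β → γ → Finset X} (hpv : PV J)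
    (hJ : ∀ x b c x' b' c', D.Same r x b c x' b' c' → x' ∈ J x b c → J x' b' c' = J x b c)
    (hq : ∀ x b c x', x' ∈ J x b c → D.qa r x' = D.qa r x)
    (hW : ∀ x b c b' c', D.Same r x b c x b' c' → W x b' c' = W x b c)
    (hcase : ∀ x b c, (∀ x' ∈ J x b c, W x' b c = fblk (J x b c)
        (csp n (kfc D r c) (D.cB r b) (kgb D r b) (D.cC r c) (J x b c)) x') ∨ ∀ x' ∈ J x b c, W x' b c = J x b c) :
    LL J W ≤ n * ((Hf D r J - Hf D r W) + (Hg D r J - Hg D r W)) := by
  classical
  have hb0 : ∀ b, (D.cB r b).Nonempty := fun b => ⟨b, D.self_cB _ _⟩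
  have hc0 : ∀ c, (D.cC r c).Nonempty := fun c => ⟨c, D.self_cC _ _⟩
  have eU : ∀ x b c, ∀ x' ∈ J x b c, ∀ b' ∈ D.cB r b, ∀ c' ∈ D.cC r c,
      W x' b' c' = W x' b c ∧ J x' b' c' = J x b c := by
    intro x b c x' hx' b' hb' c' hc'
    exact ⟨hW x' b c b' c' ⟨rfl, (D.mem_cB.1 hb').symm, (D.mem_cC.1 hc').symm⟩,
      hJ x b c x' b' c' ⟨(hq x b c x' hx').symm, (D.mem_cB.1 hb').symm, (D.mem_cC.1 hc').symm⟩ hx'⟩
  have eF : Hf D r J - Hf D r W = E3 fun x b c => avg (J x b c) fun x' =>
      mel (kfc D r c) (D.cB r b) (J x b c) - mel (kfc D r c) (D.cB r b) (W x' b c) := by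
    unfold Hf
    rw [← E3_sub, E3_pub D r r hpv]
    refine E3_congr fun x b c => avg_congr fun x' hx' => ?_
    rw [mel_eq_ent, mel_eq_ent, sub_eq_add_neg, ← neg_one_mul, ← avg_smul, ← avg_add]
    refine avg_congr fun b' hb' => ?_
    rw [← avg_const (hc0 c) (ent (law (J x b c) fun y => kfc D r c y b') +
      -1 * ent (law (W x' b c) fun y => kfc D r c y b'))]
    refine avg_congr fun c' hc' => ?_
    obtain ⟨h1, h2⟩ := eU x b c x' hx' b' hb' c' hc'
    rw [h1, h2]
    have k1 : (fun y => D.kf r y b' c') = fun y => kfc D r c y b' := by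
      funext y
      exact D.kf_c _ y b' c' c (D.mem_cC.1 hc')
    rw [k1]
    show ent (law (J x b c) fun y => kfc D r c y b') - ent (law (W x' b c) fun y => kfc D r c y b') = _
    ring
  have eG : Hg D r J - Hg D r W = E3 fun x b c => avg (J x b c) fun x' =>
      mel (kgb D r b) (D.cC r c) (J x b c) - mel (kgb D r b) (D.cC r c) (W x' b c) := by
    unfold Hg
    rw [← E3_sub, E3_pub D r r hpv]
    refine E3_congr fun x b c => avg_congr fun x' hx' => ?_
    rw [avg_comm, mel_eq_ent, mel_eq_ent, sub_eq_add_neg, ← neg_one_mul, ← avg_smul, ← avg_add]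
    refine avg_congr fun c' hc' => ?_
    rw [← avg_const (hb0 b) (ent (law (J x b c) fun y => kgb D r b y c') +
      -1 * ent (law (W x' b c) fun y => kgb D r b y c'))]
    refine avg_congr fun b' hb' => ?_
    obtain ⟨h1, h2⟩ := eU x b c x' hx' b' hb' c' hc'
    rw [h1, h2]
    have k1 : (fun y => D.kg r y b' c') = fun y => kgb D r b y c' := by
      funext y
      exact D.kg_b _ y b' b c' (D.mem_cB.1 hb')
    rw [k1]
    show ent (law (J x b c) fun y => kgb D r b y c') - ent (law (W x' b c) fun y => kgb D r b y c') = _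
    ring
  have eL : LL J W = E3 fun x b c => avg (J x b c) fun x' => Real.log ((J x b c).card / (W x' b c).card) := by
    unfold LL
    rw [E3_pub D r r hpv]
    refine E3_congr fun x b c => avg_congr fun x' hx' => ?_
    rw [← avg_const (hb0 b) (Real.log ((J x b c).card / (W x' b c).card))]
    refine avg_congr fun b' hb' => ?_
    rw [← avg_const (hc0 c) (Real.log ((J x b c).card / (W x' b c).card))]
    refine avg_congr fun c' hc' => ?_
    obtain ⟨h1, h2⟩ := eU x b c x' hx' b' hb' c' hc'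
    rw [h1, h2]
  rw [eF, eG, eL, ← E3_add, ← E3_smul]
  refine E3_mono fun x b c => ?_
  rcases hcase x b c with eS | ev
  · have hcost := csp_cost n (kfc D r c) (D.cB r b) (kgb D r b) (D.cC r c) (J x b c)
    unfold Hp Ip at hcost
    have r1 : (avg (J x b c) fun x' => Real.log ((J x b c).card / (W x' b c).card)) =
        avg (J x b c) fun x' => Real.log (((J x b c).card : ℝ) / (fblk (J x b c)
          (csp n (kfc D r c) (D.cB r b) (kgb D r b) (D.cC r c) (J x b c)) x').card) :=
      avg_congr fun x' hx' => by rw [eS x' hx']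
    have r2 : (avg (J x b c) fun x' => mel (kfc D r c) (D.cB r b) (J x b c) -
          mel (kfc D r c) (D.cB r b) (W x' b c)) =
        avg (J x b c) fun x' => mel (kfc D r c) (D.cB r b) (J x b c) -
          mel (kfc D r c) (D.cB r b) (fblk (J x b c)
          (csp n (kfc D r c) (D.cB r b) (kgb D r b) (D.cC r c) (J x b c)) x') :=
      avg_congr fun x' hx' => by rw [eS x' hx']
    have r3 : (avg (J x b c) fun x' => mel (kgb D r b) (D.cC r c) (J x b c) -
          mel (kgb D r b) (D.cC r c) (W x' b c)) =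
        avg (J x b c) fun x' => mel (kgb D r b) (D.cC r c) (J x b c) -
          mel (kgb D r b) (D.cC r c) (fblk (J x b c)
          (csp n (kfc D r c) (D.cB r b) (kgb D r b) (D.cC r c) (J x b c)) x') :=
      avg_congr fun x' hx' => by rw [eS x' hx']
    rw [r1, r2, r3]
    exact hcost
  · have hc1 : ((J x b c).card : ℝ) ≠ 0 := by exact_mod_cast (Finset.card_pos.2 ⟨x, (hpv b c).self x⟩).ne'
    have z : ∀ (f : X → ℝ), (∀ x' ∈ J x b c, f x' = 0) → avg (J x b c) f = 0 := by
      intro f hf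
      unfold avg
      rw [Finset.sum_eq_zero hf, zero_div]
    rw [z _ fun x' hx' => by rw [ev x' hx', div_self hc1, Real.log_one],
      z _ fun x' hx' => by rw [ev x' hx', sub_self], z _ fun x' hx' => by rw [ev x' hx', sub_self]]
    simp

/-- COMPLETE SPLIT at the tests -/
theorem bits_split (hR : R.toRm = rmB D n) (s : ℕ) : LL (bJ R s) (R.U (s + 1)) ≤
    n * ((Hf D (s + 1) (bJ R s) - Hf D (s + 1) (R.U (s + 1))) + (Hg D (s + 1) (bJ R s) - Hg D (s + 1) (R.U (s + 1)))) := by
  classical
  refine split_gen (s + 1) pvJ (fun x b c x' b' c' hS hx => bJ_pub hS hx)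
    (fun x b c x' hx => ((same1 (bJ_hf x b c hx)).1).symm)
    (fun x b c b' c' hS => (R.pub (s + 1) hS (R.self_U (s + 1) x b c)).2) (fun x b c => ?_)
  by_cases h : bT R s x b c
  · left
    intro x' hx'
    have h1 := bJ_hf x b c hx'
    have h2 : bT R s x' b c := (bT_pub (same1 h1) (hf_U x b c h1)).2 h
    have ev' : bJ R s x' b c = R.jn (R.ep s x' b c) (s + 1) x' b c := by
      unfold bJ
      rw [if_pos h2]
    rw [R.U_new h2, ← ev', fin_fblk hR, fblk_cspN, (pvJ b c).pub x x' hx']
  · right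
    intro x' hx'
    have h1 := bJ_hf x b c hx'
    have h2 : ¬ bT R s x' b c := fun h' => h ((bT_pub (same1 h1) (hf_U x b c h1)).1 h')
    have ev' : bJ R s x' b c = R.hf s x' b c := by
      unfold bJ
      rw [if_neg h2]
    rw [R.U_keep h2, ← ev', (pvJ b c).pub x x' hx']

/-- COMPLETE SPLIT at the start -/
theorem bits_start (hR : R.toRm = rmB D n) : LL (fun x _ _ => D.cA 0 x) (R.U 0) ≤
    n * ((Hf D 0 (fun x _ _ => D.cA 0 x) - Hf D 0 (R.U 0)) + (Hg D 0 (fun x _ _ => D.cA 0 x) - Hg D 0 (R.U 0))) := by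
  classical
  refine split_gen 0 (cA_pv 0) (fun x b c x' b' c' hS hx => (D.cA_congr hS.1).symm)
    (fun x b c x' hx => D.mem_cA.1 hx) (fun x b c b' c' hS => (R.pub 0 hS (R.self_U 0 x b c)).2) (fun x b c => ?_)
  left
  intro x' hx'
  have h1 : R.U 0 x' b c = R.fin 0 x' b c (D.cA 0 x') := by
    rw [R.U_start (show (R.ep 0 x' b c).t0 = 0 from rfl)]
    rfl
  rw [h1, fin_fblk hR, fblk_cspN, D.cA_congr (D.mem_cA.1 hx')]

/-- BITS OF THE PUBLIC CLASSES with the start, total at most `4 n Lam` -/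
theorem bits_tot (hR : R.toRm = rmB D n) (T : D.Thick al) (hn : 0 ≤ n) (hB : Birth D K Lam) {prf prg : ℕ → φ → φ}
    (hpf : ∀ t < K, ∀ x b c F, D.kf t x b c F = ∑ F', ind (prf t F' = F) * D.kf (t + 1) x b c F')
    (hpg : ∀ t < K, ∀ x b c F, D.kg t x b c F = ∑ F', ind (prg t F' = F) * D.kg (t + 1) x b c F')
    (hK : ∀ x b c, (R.ep K x b c).t0 = K) :
    E3 (fun x b c => Real.log (((D.cA 0 x).card : ℝ) / (R.U 0 x b c).card)) +
      ∑ s ∈ range K, E3 (fun x b c => Real.log (((R.hf s x b c).card : ℝ) / (R.U (s + 1) x b c).card)) ≤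
      4 * n * Lam := by
  have h0 := bits_start hR
  have h1 : ∀ s, E3 (fun x b c => Real.log (((R.hf s x b c).card : ℝ) / (R.U (s + 1) x b c).card)) ≤
      bF R s + bG R s + n * ((Hf D (s + 1) (R.hf s) - Hf D (s + 1) (R.U (s + 1))) +
        (Hg D (s + 1) (R.hf s) - Hg D (s + 1) (R.U (s + 1)))) := by
    intro s
    have e1 : LL (R.hf s) (R.U (s + 1)) = LL (R.hf s) (bJ R s) + LL (bJ R s) (R.U (s + 1)) := LL_add pvH pvJ pvU
    have e2 := LL_join (R := R) (s := s)
    have e3 := bits_split hR s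
    have e4 : Hf D (s + 1) (bJ R s) ≤ Hf D (s + 1) (R.hf s) :=
      HH_mono (fun x b c F => T.f_nn (s + 1) x b c F) (fun x b c => T.f_one (s + 1) x b c) pvH pvJ bJ_hf
    have e5 : Hg D (s + 1) (bJ R s) ≤ Hg D (s + 1) (R.hf s) :=
      HH_mono (fun x b c F => T.g_nn (s + 1) x b c F) (fun x b c => T.g_one (s + 1) x b c) pvH pvJ bJ_hf
    have e6 : n * ((Hf D (s + 1) (bJ R s) - Hf D (s + 1) (R.U (s + 1))) +
          (Hg D (s + 1) (bJ R s) - Hg D (s + 1) (R.U (s + 1)))) ≤
        n * ((Hf D (s + 1) (R.hf s) - Hf D (s + 1) (R.U (s + 1))) +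
          (Hg D (s + 1) (R.hf s) - Hg D (s + 1) (R.U (s + 1)))) :=
      mul_le_mul_of_nonneg_left (by linarith) hn
    have e7 : E3 (fun x b c => Real.log (((R.hf s x b c).card : ℝ) / (R.U (s + 1) x b c).card)) =
        LL (R.hf s) (R.U (s + 1)) := rfl
    rw [e7, e1]
    linarith
  have h2 := bits_f (R := R) T hB hpf hK hn (by rw [hR]; exact costF_rmB T n)
  have h3 := bits_g (R := R) T hB hpg hK hn (by rw [hR]; exact costF_swap T n)
  have h4 := bud_newB T hB R
  have h5 := bud_newB (thick_swap T) (birth_swap hB) R.swap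
  have e8 : ∀ t, Hf D.swap (t + 1) (R.swap.hf t) = Hg D (t + 1) (R.hf t) := fun t => by
    rw [← Hf_swap]
    congr 1
    funext x c b
    exact R.hf_swap t x b c
  have e9 : ∀ t, Hf D.swap t (R.swap.U t) = Hg D t (R.U t) := fun t => by
    rw [← Hf_swap]
    congr 1
    funext x c b
    exact R.U_swap t x b c
  have e10 : Hf D.swap 0 (fun x _ _ => D.swap.cA 0 x) = Hg D 0 (fun x _ _ => D.cA 0 x) := Hf_swap 0 (fun x _ _ => D.cA 0 x)
  simp only [e8, e9, e10] at h5
  have h6 := mul_le_mul_of_nonneg_left (add_le_add h4 h5) hn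
  have e11 : E3 (fun x b c => Real.log (((D.cA 0 x).card : ℝ) / (R.U 0 x b c).card)) =
      LL (fun x _ _ => D.cA 0 x) (R.U 0) := rfl
  rw [e11]
  refine (add_le_add h0 (Finset.sum_le_sum fun s _ => h1 s)).trans ?_
  rw [Finset.sum_add_distrib, Finset.sum_add_distrib, ← Finset.mul_sum, Finset.sum_add_distrib]
  linarith

end totals

/-! ## gains of the epochs -/

section gains

variable [Fintype β] [Fintype γ] [Fintype φ] {al Lam n : ℝ} {K : ℕ} {R : Rt D}

/-- own point form of the gain of a refinement, fixed `b`, `c` -/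
theorem own_pt {k : X → φ → ℝ} {V W : X → Finset X} (hV : Prt V) (hW : Prt W) (h : Rfn V W) :
    ∑ x, klf (law (W x) k) (law (V x) k) = ∑ x, ∑ F, k x F * Real.log (law (W x) k F / law (V x) k F) := by
  unfold klf
  rw [Finset.sum_comm, Finset.sum_comm (s := (Finset.univ : Finset X))]
  refine Finset.sum_congr rfl (fun F _ => ?_)
  exact (hW.sum_mean_mul (fun x => k x F) (fun x => Real.log (law (W x) k F / law (V x) k F))
    (fun x x' hx => by rw [hW.pub x x' hx, hV.pub x x' (h x hx)])).symm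

/-- the gain of the step `s → s+1` at the point, labels of the epoch `e` -/
def psiS (R : Rt D) (e : Epo X) (s : ℕ) (x : X) (b : β) (c : γ) : ℝ := ∑ F, D.kf e.t0 x b c F *
  Real.log (law (R.U (s + 1) x b c) (fun y => D.kf e.t0 y b c) F / law (R.U s x b c) (fun y => D.kf e.t0 y b c) F)

theorem psiS_E3 (T : D.Thick al) (s : ℕ) : E3 (fun x b c => psiS R (R.ep s x b c) s x b c) =
    HH (kap R s) (R.U s) - HH (kap R s) (R.U (s + 1)) := by
  rw [HH_sub (k := kap R s) (kap_nn T) (pvU (R := R) (s := s)) (pvU (R := R) (s := s + 1))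
    (fun x b c => R.U_succ_sub s x b c)]
  rw [E3_eq, E3_eq]
  congr 1
  refine Finset.sum_congr rfl fun b _ => Finset.sum_congr rfl fun c _ => ?_
  have h1 := own_pt (k := fun x F => kap R s x b c F) (pvU (R := R) (s := s) b c) (pvU (R := R) (s := s + 1) b c)
    (fun x => R.U_succ_sub s x b c)
  have h2 : ∀ x, psiS R (R.ep s x b c) s x b c = ∑ F, kap R s x b c F *
      Real.log (law (R.U (s + 1) x b c) (fun y => kap R s y b c) F / law (R.U s x b c) (fun y => kap R s y b c) F) := by
    intro x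
    rw [law_kap (R.U_succ_sub s x b c), law_kap (Finset.Subset.refl (R.U s x b c))]
    rfl
  rw [Finset.sum_congr rfl fun x _ => h2 x]
  exact h1.symm

open Classical in
/-- the virtual cell at the end of the epoch which starts at `σ`, the class of the time `σ` if no epoch starts -/
def gP (R : Rt D) (K σ : ℕ) (x : X) (b : β) (c : γ) : Finset X :=
  if R.start σ x b c then VF R.toRm (R.ep σ x b c) (R.Tend (R.ep σ x b c) K x b c) x b c else R.U σ x b c

open Classical in
/-- the class at the end of the epoch -/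
def gQ (R : Rt D) (K σ : ℕ) (x : X) (b : β) (c : γ) : Finset X :=
  if R.start σ x b c then R.U (R.Tend (R.ep σ x b c) K x b c) x b c else R.U σ x b c

theorem om_U {σ : ℕ} {x : X} {b : β} {c : γ} (h : R.start σ x b c) : (R.ep σ x b c).om0 = R.U σ x b c :=
  (R.U_start h).symm

theorem U_anti {s t : ℕ} (h : s ≤ t) (x : X) (b : β) (c : γ) : R.U t x b c ⊆ R.U s x b c := by
  induction t, h using Nat.le_induction with
  | base => exact Finset.Subset.refl _
  | succ n hn ih => exact (R.U_succ_sub n x b c).trans ih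

theorem Tge {σ : ℕ} {x : X} {b : β} {c : γ} (h : R.start σ x b c) (K : ℕ) : σ ≤ R.Tend (R.ep σ x b c) K x b c := by
  have h1 := R.Tend_ge (R.ep σ x b c) K x b c
  rwa [show (R.ep σ x b c).t0 = σ from h] at h1

theorem Tle {σ : ℕ} {x : X} {b : β} {c : γ} (h : R.start σ x b c) (hσ : σ ≤ K) :
    R.Tend (R.ep σ x b c) K x b c ≤ K := by
  have h1 := R.Tend_le (R.ep σ x b c) K x b c
  rwa [show (R.ep σ x b c).t0 = σ from h, max_eq_right hσ] at h1

/-- the epoch is stopped at or before `K` -/
theorem stK (hK : ∀ x b c, (R.ep K x b c).t0 = K) {σ : ℕ} (hσ : σ < K) {x : X} {b : β} {c : γ}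
    (h : R.start σ x b c) : R.ST (R.ep σ x b c) K x b c := by
  by_contra h1
  have h2 := R.ep_const hσ.le h1
  have h3 := hK x b c
  rw [h2] at h3
  have h4 : (R.ep σ x b c).t0 = σ := h
  omega

theorem gP_sub {σ : ℕ} (x : X) (b : β) (c : γ) : gP R K σ x b c ⊆ R.U σ x b c := by
  classical
  unfold gP
  split_ifs with h
  · rw [← om_U h]
    exact VF_om0 R.toRm _ x b c
  · exact Finset.Subset.refl _

/-- the class at the end is contained in the virtual cell -/
theorem gQ_sub (hK : ∀ x b c, (R.ep K x b c).t0 = K) {σ : ℕ} (hσ : σ < K) (x : X) (b : β) (c : γ) :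
    gQ R K σ x b c ⊆ gP R K σ x b c := by
  classical
  unfold gQ gP
  split_ifs with h
  · obtain ⟨h1, h2, h3⟩ := R.Tend_tt (stK hK hσ h)
    obtain ⟨T, hT⟩ : ∃ T, R.Tend (R.ep σ x b c) K x b c = T + 1 := ⟨_, (Nat.succ_pred_eq_of_pos (by omega)).symm⟩
    have h4 : σ ≤ T := by
      have : (R.ep σ x b c).t0 = σ := h
      omega
    have h5 : ¬ R.ST (R.ep σ x b c) T x b c := by
      rw [← R.lt_Tend (K := K) (show T < K by omega) x b c]
      omega
    have h6 := R.ep_const h4 h5
    rw [hT] at h1 ⊢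
    have h7 : R.tt (R.ep T x b c) (T + 1) x b c := by rw [h6]; exact h1
    rw [R.U_new h7, h6]
    exact fun y hy => (R.mem_jn.1 (R.fin_sub hy)).1
  · exact Finset.Subset.refl _

theorem start_same {σ : ℕ} {x y : X} {b : β} {c : γ} (hy : y ∈ R.U σ x b c) :
    (R.start σ y b c ↔ R.start σ x b c) ∧ R.ep σ y b c = R.ep σ x b c ∧ R.U σ y b c = R.U σ x b c :=
  ⟨R.start_pub (same0 hy) hy, (R.pub σ (same0 hy) hy).1, (R.pub σ (same0 hy) hy).2⟩

theorem pvP {σ : ℕ} : PV (gP R K σ) := fun b c => by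
  classical
  refine ⟨fun x => ?_, fun x y hy => ?_⟩
  · show x ∈ gP R K σ x b c
    unfold gP
    split_ifs with h
    · exact VF_self R.toRm (R.self_om0 σ x b c) _ b c
    · exact R.self_U σ x b c
  · have hy' : y ∈ gP R K σ x b c := hy
    obtain ⟨h1, h2, h3⟩ := start_same (gP_sub x b c hy')
    show gP R K σ y b c = gP R K σ x b c
    unfold gP at hy' ⊢
    by_cases h : R.start σ x b c
    · rw [if_pos h] at hy' ⊢
      rw [if_pos (h1.2 h), h2]
      have ht := R.Tend_ge (R.ep σ x b c) K x b c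
      have hq : D.qa (R.Tend (R.ep σ x b c) K x b c) y = D.qa (R.Tend (R.ep σ x b c) K x b c) x :=
        (mem_W.1 (VF_W R.toRm (R.self_om0 σ x b c) (R.om0_sub σ x b c) _ ht b c hy')).2
      rw [R.Tend_inv ht ⟨hq.symm, rfl, rfl⟩ le_rfl]
      exact VF_congr R.toRm ht hy' rfl rfl
    · rw [if_neg h] at hy' ⊢
      rw [if_neg (fun h' => h (h1.1 h')), h3]

theorem pvQ (hK : ∀ x b c, (R.ep K x b c).t0 = K) {σ : ℕ} (hσ : σ < K) : PV (gQ R K σ) := fun b c => by
  classical
  refine ⟨fun x => ?_, fun x y hy => ?_⟩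
  · show x ∈ gQ R K σ x b c
    unfold gQ
    split_ifs with h
    · exact R.self_U _ x b c
    · exact R.self_U σ x b c
  · have hy' : y ∈ gQ R K σ x b c := hy
    obtain ⟨h1, h2, h3⟩ := start_same (gP_sub x b c (gQ_sub hK hσ x b c hy'))
    show gQ R K σ y b c = gQ R K σ x b c
    unfold gQ at hy' ⊢
    by_cases h : R.start σ x b c
    · rw [if_pos h] at hy' ⊢
      rw [if_pos (h1.2 h), h2]
      have ht := R.Tend_ge (R.ep σ x b c) K x b c
      have hS := same0 hy'
      rw [R.Tend_inv ht hS le_rfl]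
      exact (R.pub _ hS hy').2
    · rw [if_neg h] at hy' ⊢
      rw [if_neg (fun h' => h (h1.1 h')), h3]

/-- telescoping along the path -/
theorem tele (T : D.Thick al) {σ T1 : ℕ} (h : σ ≤ T1) (t0 : ℕ) (x : X) (b : β) (c : γ) :
    ∑ s ∈ Ico σ T1, (∑ F, D.kf t0 x b c F * Real.log (law (R.U (s + 1) x b c) (fun y => D.kf t0 y b c) F /
        law (R.U s x b c) (fun y => D.kf t0 y b c) F)) =
      ∑ F, D.kf t0 x b c F * Real.log (law (R.U T1 x b c) (fun y => D.kf t0 y b c) F /
        law (R.U σ x b c) (fun y => D.kf t0 y b c) F) := by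
  rw [Finset.sum_comm]
  refine Finset.sum_congr rfl fun F _ => ?_
  rw [← Finset.mul_sum]
  by_cases hF : D.kf t0 x b c F = 0
  · rw [hF, zero_mul, zero_mul]
  · congr 1
    have hpos : ∀ s, 0 < law (R.U s x b c) (fun y => D.kf t0 y b c) F := fun s =>
      bd_law_pos (fun y G => T.f_nn t0 y b c G) (R.self_U s x b c) hF
    induction T1, h using Nat.le_induction with
    | base => rw [Finset.Ico_self, Finset.sum_empty, div_self (hpos σ).ne', Real.log_one]
    | succ m hm ih =>
      rw [Finset.sum_Ico_succ_top hm, ih, Real.log_div (hpos m).ne' (hpos σ).ne',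
        Real.log_div (hpos (m + 1)).ne' (hpos m).ne', Real.log_div (hpos (m + 1)).ne' (hpos σ).ne']
      ring

/-- gain of the epochs which start at `σ` -/
theorem gain_one (T : D.Thick al) (hK : ∀ x b c, (R.ep K x b c).t0 = K) {σ : ℕ} (hσ : σ < K) :
    gainF R K σ ≤ E3 fun x b c => ind (R.start σ x b c) *
      ∑ s ∈ Ico σ K, ind (¬ R.ST (R.ep σ x b c) s x b c) * psiS R (R.ep σ x b c) s x b c := by
  classical
  have n0 := kap_nn (R := R) (s := σ) T
  have n1 := kap_one (R := R) (s := σ) T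
  have h1 : gainF R K σ = E3 fun x b c => klf (law (gP R K σ x b c) fun y => kap R σ y b c)
      (law (R.U σ x b c) fun y => kap R σ y b c) := by
    unfold gainF
    refine E3_congr fun x b c => ?_
    rw [law_kap (gP_sub x b c), law_kap (Finset.Subset.refl (R.U σ x b c))]
    unfold gP
    by_cases h : R.start σ x b c
    · rw [if_pos h, ind_of h, one_mul, om_U h]
    · rw [if_neg h, ind_not h, zero_mul, klf_self]
  have h2 := HH_sub (k := kap R σ) n0 (pvU (R := R) (s := σ)) (pvP (R := R) (K := K) (σ := σ)) gP_sub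
  have h3 : HH (kap R σ) (gQ R K σ) ≤ HH (kap R σ) (gP R K σ) := HH_mono n0 n1 pvP (pvQ hK hσ) (gQ_sub hK hσ)
  have hQU : ∀ x b c, gQ R K σ x b c ⊆ R.U σ x b c := fun x b c => (gQ_sub hK hσ x b c).trans (gP_sub x b c)
  have h4 := HH_sub (k := kap R σ) n0 (pvU (R := R) (s := σ)) (pvQ hK hσ) hQU
  have h5 : (E3 fun x b c => klf (law (gQ R K σ x b c) fun y => kap R σ y b c)
      (law (R.U σ x b c) fun y => kap R σ y b c)) = E3 fun x b c => ind (R.start σ x b c) *
      ∑ s ∈ Ico σ K, ind (¬ R.ST (R.ep σ x b c) s x b c) * psiS R (R.ep σ x b c) s x b c := by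
    rw [E3_eq, E3_eq]
    congr 1
    refine Finset.sum_congr rfl fun b _ => Finset.sum_congr rfl fun c _ => ?_
    have e1 := own_pt (k := fun x F => kap R σ x b c F) (pvU (R := R) (s := σ) b c) (pvQ hK hσ b c)
      (fun x => hQU x b c)
    have e2 : ∀ x, (∑ F, kap R σ x b c F * Real.log (law (gQ R K σ x b c) (fun y => kap R σ y b c) F /
        law (R.U σ x b c) (fun y => kap R σ y b c) F)) = ind (R.start σ x b c) *
      ∑ s ∈ Ico σ K, ind (¬ R.ST (R.ep σ x b c) s x b c) * psiS R (R.ep σ x b c) s x b c := by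
      intro x
      rw [law_kap (hQU x b c), law_kap (Finset.Subset.refl (R.U σ x b c))]
      unfold gQ
      by_cases h : R.start σ x b c
      · rw [if_pos h, ind_of h, one_mul]
        have hT := Tge h K
        have hT2 := Tle h hσ.le
        have e3 := tele (R := R) T hT (R.ep σ x b c).t0 x b c
        show (∑ F, D.kf (R.ep σ x b c).t0 x b c F * Real.log (law (R.U (R.Tend (R.ep σ x b c) K x b c) x b c)
          (fun y => D.kf (R.ep σ x b c).t0 y b c) F / law (R.U σ x b c) (fun y => D.kf (R.ep σ x b c).t0 y b c) F)) = _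
        rw [← e3]
        have e4 : ∀ s ∈ Ico σ K, ind (¬ R.ST (R.ep σ x b c) s x b c) * psiS R (R.ep σ x b c) s x b c =
            if s < R.Tend (R.ep σ x b c) K x b c then psiS R (R.ep σ x b c) s x b c else 0 := by
          intro s hs
          have hs2 := (Finset.mem_Ico.1 hs).2
          by_cases h6 : s < R.Tend (R.ep σ x b c) K x b c
          · rw [if_pos h6, ind_of ((R.lt_Tend hs2 x b c).1 h6), one_mul]
          · rw [if_neg h6, ind_not (fun h7 => h6 ((R.lt_Tend hs2 x b c).2 h7)), zero_mul]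
        rw [Finset.sum_congr rfl e4, ← Finset.sum_filter]
        refine Finset.sum_congr ?_ fun _ _ => rfl
        ext s
        simp only [Finset.mem_Ico, Finset.mem_filter]
        constructor
        · rintro ⟨h6, h7⟩
          exact ⟨⟨h6, h7.trans_le hT2⟩, h7⟩
        · rintro ⟨⟨h6, _⟩, h7⟩
          exact ⟨h6, h7⟩
      · rw [if_neg h, ind_not h, zero_mul]
        refine Finset.sum_eq_zero fun F _ => ?_
        by_cases hF : kap R σ x b c F = 0
        · rw [hF, zero_mul]
        · have hp : 0 < law (R.U σ x b c) (fun y => D.kf (R.ep σ x b c).t0 y b c) F :=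
            bd_law_pos (fun y G => T.f_nn _ y b c G) (R.self_U σ x b c) hF
          rw [div_self hp.ne', Real.log_one, mul_zero]
    rw [← Finset.sum_congr rfl fun x _ => e2 x]
    exact e1
  rw [h1, ← h2, ← h5, ← h4]
  linarith

/-- GAINS of the virtual `f`-partitions -/
theorem gainF_sum (T : D.Thick al) (hB : Birth D K Lam) {prf : ℕ → φ → φ}
    (hp : ∀ t < K, ∀ x b c F, D.kf t x b c F = ∑ F', ind (prf t F' = F) * D.kf (t + 1) x b c F')
    (hK : ∀ x b c, (R.ep K x b c).t0 = K) : ∑ σ ∈ range K, gainF R K σ ≤ Lam := by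
  have h1 : ∑ σ ∈ range K, gainF R K σ ≤ ∑ σ ∈ range K, E3 fun x b c => ind (R.start σ x b c) *
      ∑ s ∈ Ico σ K, ind (¬ R.ST (R.ep σ x b c) s x b c) * psiS R (R.ep σ x b c) s x b c :=
    Finset.sum_le_sum fun σ hσ => gain_one T hK (mem_range.1 hσ)
  have h2 : (∑ σ ∈ range K, E3 fun x b c => ind (R.start σ x b c) *
      ∑ s ∈ Ico σ K, ind (¬ R.ST (R.ep σ x b c) s x b c) * psiS R (R.ep σ x b c) s x b c) =
      ∑ s ∈ range K, E3 fun x b c => psiS R (R.ep s x b c) s x b c := by
    rw [← E3_finsum, ← E3_finsum]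
    exact E3_congr fun x b c => (R.sum_regroup K x b c (fun e s => psiS R e s x b c)).symm
  have h3 : ∑ s ∈ range K, E3 (fun x b c => psiS R (R.ep s x b c) s x b c) ≤
      ∑ s ∈ range K, (Hf D s (R.U s) - Hf D s (R.U (s + 1))) := by
    refine Finset.sum_le_sum fun s hs => ?_
    rw [psiS_E3 T]
    exact kap_gain T hp (mem_range.1 hs).le pvU pvU (fun x b c => R.U_succ_sub s x b c)
      (fun x b c => Finset.Subset.refl _)
  have h4 := bud_fam_f T hB R.refCl
  linarith

/-- GAINS of the virtual `g`-partitions -/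
theorem gainG_sum (T : D.Thick al) (hB : Birth D K Lam) {prg : ℕ → φ → φ}
    (hp : ∀ t < K, ∀ x b c F, D.kg t x b c F = ∑ F', ind (prg t F' = F) * D.kg (t + 1) x b c F')
    (hK : ∀ x b c, (R.ep K x b c).t0 = K) : ∑ σ ∈ range K, gainG R K σ ≤ Lam := by
  have h := gainF_sum (R := R.swap) (thick_swap T) (birth_swap hB) (prf := prg)
    (fun t ht x c b F => hp t ht x b c F) (fun x c b => by rw [R.ep_swap]; exact hK x b c)
  simp only [gainF_swap] at h
  exact h

end gains

end

end Pool.Agent.M3.S3B.BT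

namespace Pool.Agent.M3.S3B

open Finset Pool.Agent.PWZ Pool.Agent.M3 Pool.Agent.M3.S3

section final

variable {X β γ ι φ : Type} [Fintype X] [Fintype β] [Fintype γ] [Fintype φ] {D : Dat X β γ ι φ}
  {dg : ℕ → X → ℝ} {prf prg : ℕ → φ → φ} {al Lam n : ℝ} {K : ℕ}

/-- MODULE `StGain` of `Main` -/
theorem stGain (T : D.Thick al) (H : Hyp3 D dg prf prg al K Lam) : StGain (rB D dg al n K) K Lam := by
  have hB := birth_of_hyp3 T H
  exact ⟨BT.gainF_sum T hB H.kf_pr (fun x b c => ep_K K x b c), BT.gainG_sum T hB H.kg_pr (fun x b c => ep_K K x b c)⟩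

/-- MODULE `StBits` of `Main` -/
theorem stBits (T : D.Thick al) (H : Hyp3 D dg prf prg al K Lam) (hn : 0 ≤ n) :
    StBits (rB D dg al n K) K (4 * n * Lam) :=
  BT.bits_tot rfl T hn (birth_of_hyp3 T H) H.kf_pr H.kg_pr (fun x b c => ep_K K x b c)

end final

end Pool.Agent.M3.S3B
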