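import Pool.Agent.M3.S3B.Run2

/-!
# M3.S3B.Tests: the tests of route B (note 3448 (1); helper34)

Numbers `Nb` : `kap1`, `kap2`, `kap3`, `eps3`.  Epoch `e`, class `W D e t x`, frozen labels = labels of the time `e.t0`.
* `Chg e t x b c b' c'` : the pair `(b',c')` is CHANGED at the time `t`: one of its labels has been updated since `e.t0`, or
  the law of its frozen labels on `W r` differs by more than `kap1` from the law on `om0`, for some `r ≤ t`;
* `T1` = test (i): a proportion `≥ kap2` of the pairs of `cB t × cC t` is changed;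
* `T2` = test (ii): every virtual cell (of the `f`- or of the `g`-partition) has a proportion `≤ 1 - eps3` in `W t`;
* `mB V dg t` = mean of the digit on the class `V`; `VB` = one step variance of the laws of the pairs (CURRENT labels);
  `Crit` = critical class: `1/2 < |mB|` or `kap3 ≤ VB`; `T4` = test (iv): `W t` critical; `T5` = test (v): `t = t0 + 1` and
  `om0` critical (JUMP EPOCH);
* `TT` = `T1 ∨ T2 ∨ T4 ∨ T5`; the time axis ends at `K` : test (vi) is `t = K`;
* `mkRt R Up N dg K` = the process of route B from the removals, its test is `TT ∨ t = K`; `run_i`, `run_ii`, `run_iv`,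
  `run_v`, `run_K` = what holds at a running time; `tt_K` : a test at `K`.
-/

set_option autoImplicit false
set_option linter.unusedSectionVars false

namespace Pool.Agent.M3.S3B

open Finset Pool.Agent.PWZ Pool.Agent.M3 Pool.Agent.M3.S3

noncomputable section

/-- numbers of the tests -/
structure Nb where
  kap1 : ℝ
  kap2 : ℝ
  kap3 : ℝ
  eps3 : ℝ

variable {X β γ ι φ : Type*} [Fintype X] [Fintype β] [Fintype γ] [Fintype φ] {D : Dat X β γ ι φ}

section defs

variable (R : Rm D) (Up : Upd D) (N : Nb) (dg : ℕ → X → ℝ) (e : Epo X)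

/-- the pair `(b',c')` is changed at the time `t` -/
def Chg (t : ℕ) (x : X) (b : β) (c : γ) (b' : β) (c' : γ) : Prop :=
  upd Up e t x b c b' c' ∨ ∃ r, e.t0 ≤ r ∧ r ≤ t ∧ ∃ F G,
    N.kap1 < |pl D e.t0 b c (W D e r x) b' c' F G - pl D e.t0 b c e.om0 b' c' F G|

/-- test (i) -/
def T1 (t : ℕ) (x : X) (b : β) (c : γ) : Prop :=
  N.kap2 ≤ av2 D t b c fun b' c' => ind (Chg Up N e t x b c b' c')

/-- test (ii) -/
def T2 (t : ℕ) (x : X) (b : β) (c : γ) : Prop :=
  (∀ y ∈ W D e t x, ((VF R e t y b c).card : ℝ) ≤ (1 - N.eps3) * (W D e t x).card) ∨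
    (∀ y ∈ W D e t x, ((VG R e t y b c).card : ℝ) ≤ (1 - N.eps3) * (W D e t x).card)

/-- mean of the digit of the step `t → t+1` on the class `V` -/
def mB (dg : ℕ → X → ℝ) (t : ℕ) (V : Finset X) : ℝ := avg V (dg t)

open Classical in
/-- one step variance of the laws of the pairs of labels of the time `t` on the class `V` -/
def VB (D : Dat X β γ ι φ) (t : ℕ) (b : β) (c : γ) (V : Finset X) : ℝ :=
  av2 D t b c fun b' c' => avg V fun y => dst D t b c (V ∩ D.cA (t + 1) y) V b' c'

/-- critical class -/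
def Crit (t : ℕ) (b : β) (c : γ) (V : Finset X) : Prop := 1 / 2 < |mB dg t V| ∨ N.kap3 ≤ VB D t b c V

/-- test (iv) -/
def T4 (t : ℕ) (x : X) (b : β) (c : γ) : Prop := Crit (D := D) N dg t b c (W D e t x)

/-- test (v) -/
def T5 (t : ℕ) (_x : X) (b : β) (c : γ) : Prop := t = e.t0 + 1 ∧ Crit (D := D) N dg e.t0 b c e.om0

/-- the test which ends the epoch -/
def TT (t : ℕ) (x : X) (b : β) (c : γ) : Prop :=
  T1 Up N e t x b c ∨ T2 R N e t x b c ∨ T4 (D := D) N dg e t x b c ∨ T5 (D := D) N dg e t x b c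

variable {R Up N dg e}

section inv

variable {t : ℕ} {x x' : X} {b b' : β} {c c' : γ}

theorem Chg_inv (h : e.t0 ≤ t) (hS : D.Same t x b c x' b' c') : Chg Up N e t x b c = Chg Up N e t x' b' c' := by
  funext b1 c1
  unfold Chg
  have h1 : ∀ r, r ≤ t → W D e r x = W D e r x' := fun r hr => W_congr (hS.le hr).1
  rw [upd_inv h hS]
  congr 1
  refine propext (exists_congr fun r => and_congr_right fun h2 => and_congr_right fun h3 => ?_)
  rw [h1 r h3, pl_inv (D.qb_le h hS.2.1) (D.qc_le h hS.2.2), pl_inv (D.qb_le h hS.2.1) (D.qc_le h hS.2.2)]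

theorem T1_inv (h : e.t0 ≤ t) (hS : D.Same t x b c x' b' c') : T1 Up N e t x b c ↔ T1 Up N e t x' b' c' := by
  unfold T1
  rw [Chg_inv h hS, av2_inv hS]

theorem T2_inv (h : e.t0 ≤ t) (hS : D.Same t x b c x' b' c') : T2 R N e t x b c ↔ T2 R N e t x' b' c' := by
  unfold T2
  rw [W_congr (e := e) hS.1]
  have hF : ∀ y ∈ W D e t x', VF R e t y b c = VF R e t y b' c' := fun y hy =>
    (VF_congr R h (VF_self R (mem_W.1 hy).1 t b' c') hS.2.1.symm (D.qc_le h hS.2.2).symm)
  have hG : ∀ y ∈ W D e t x', VG R e t y b c = VG R e t y b' c' := fun y hy =>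
    (VG_congr R h (VG_self R (mem_W.1 hy).1 t b' c') (D.qb_le h hS.2.1).symm hS.2.2.symm)
  refine or_congr ?_ ?_
  · exact forall_congr' fun y => imp_congr_right fun hy => by rw [hF y hy]
  · exact forall_congr' fun y => imp_congr_right fun hy => by rw [hG y hy]

theorem VB_inv (hb : D.qb t b = D.qb t b') (hc : D.qc t c = D.qc t c') (V : Finset X) :
    VB D t b c V = VB D t b' c' V := by
  unfold VB av2
  rw [D.cB_congr hb, D.cC_congr hc]
  simp only [dst_inv hb hc]

theorem Crit_inv (hb : D.qb t b = D.qb t b') (hc : D.qc t c = D.qc t c') (V : Finset X) :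
    Crit (D := D) N dg t b c V ↔ Crit (D := D) N dg t b' c' V := by
  unfold Crit
  rw [VB_inv hb hc]

theorem T4_inv (hS : D.Same t x b c x' b' c') : T4 (D := D) N dg e t x b c ↔ T4 (D := D) N dg e t x' b' c' := by
  unfold T4
  rw [W_congr (e := e) hS.1, Crit_inv hS.2.1 hS.2.2]

theorem T5_inv (h : e.t0 ≤ t) (hS : D.Same t x b c x' b' c') :
    T5 (D := D) N dg e t x b c ↔ T5 (D := D) N dg e t x' b' c' := by
  unfold T5
  rw [Crit_inv (D.qb_le h hS.2.1) (D.qc_le h hS.2.2)]

end inv

variable (R Up N dg)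

/-- THE PROCESS OF ROUTE B : the tests (i), (ii), (iv), (v) and the end `K` of the time axis (test (vi)) -/
def mkRt (K : ℕ) : Rt D where
  toRm := R
  tt := fun e t x b c => TT R Up N dg e t x b c ∨ t = K
  tt_q := by
    intro e s x b c x' b' c' h hS
    unfold TT
    rw [T1_inv h hS, T2_inv h hS, T4_inv hS, T5_inv h hS]

variable {R Up N dg} {K t : ℕ} {x : X} {b : β} {c : γ}

theorem tt_iff : (mkRt R Up N dg K).tt e t x b c ↔ TT R Up N dg e t x b c ∨ t = K := Iff.rfl

theorem not_tt_iff : ¬ (mkRt R Up N dg K).tt e t x b c ↔ ¬ TT R Up N dg e t x b c ∧ t ≠ K := not_or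

theorem tt_K (e : Epo X) (x : X) (b : β) (c : γ) : (mkRt R Up N dg K).tt e K x b c := Or.inr rfl

theorem run_K (h : ¬ (mkRt R Up N dg K).tt e t x b c) : t ≠ K := fun h1 => h (Or.inr h1)

theorem run_TT (h : ¬ (mkRt R Up N dg K).tt e t x b c) : ¬ TT R Up N dg e t x b c := fun h1 => h (Or.inl h1)

/-- an epoch which started before `K` is stopped at `K` -/
theorem ST_K {e : Epo X} (h : e.t0 < K) {s : ℕ} (hs : K ≤ s) (x : X) (b : β) (c : γ) :
    (mkRt R Up N dg K).ST e s x b c := ⟨K, h, hs, tt_K e x b c⟩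

/-- the epoch of the time `K` starts at `K` (or is the first one) -/
theorem ep_K (K : ℕ) (x : X) (b : β) (c : γ) : ((mkRt R Up N dg K).ep K x b c).t0 = K := by
  cases K with
  | zero => rfl
  | succ s => rw [(mkRt R Up N dg (s + 1)).ep_new (tt_K _ x b c)]

/-- at a running time at most a proportion `kap2` of the pairs is changed -/
theorem run_i (h : ¬ TT R Up N dg e t x b c) : (av2 D t b c fun b' c' => ind (Chg Up N e t x b c b' c')) < N.kap2 := by
  by_contra h1
  exact h (Or.inl (not_lt.1 h1))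

/-- at a running time there are large virtual cells -/
theorem run_ii (h : ¬ TT R Up N dg e t x b c) :
    (∃ y ∈ W D e t x, (1 - N.eps3) * (W D e t x).card < ((VF R e t y b c).card : ℝ)) ∧
      (∃ y ∈ W D e t x, (1 - N.eps3) * (W D e t x).card < ((VG R e t y b c).card : ℝ)) := by
  have h1 : ¬ T2 R N e t x b c := fun h1 => h (Or.inr (Or.inl h1))
  unfold T2 at h1
  push Not at h1
  exact h1

/-- at a running time the class is not critical -/
theorem run_iv (h : ¬ TT R Up N dg e t x b c) : |mB dg t (W D e t x)| ≤ 1 / 2 ∧ VB D t b c (W D e t x) < N.kap3 := by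
  have h1 : ¬ T4 (D := D) N dg e t x b c := fun h1 => h (Or.inr (Or.inr (Or.inl h1)))
  unfold T4 Crit at h1
  push Not at h1
  exact h1

/-- at a running time `t = t0 + 1` the start class was not critical -/
theorem run_v (h : ¬ TT R Up N dg e (e.t0 + 1) x b c) : |mB dg e.t0 e.om0| ≤ 1 / 2 ∧ VB D e.t0 b c e.om0 < N.kap3 := by
  have h1 : ¬ T5 (D := D) N dg e (e.t0 + 1) x b c := fun h1 => h (Or.inr (Or.inr (Or.inr h1)))
  unfold T5 Crit at h1
  push Not at h1
  exact h1 rfl

end defs

end

end Pool.Agent.M3.S3B
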