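import Pool.Agent.M3.S3B.LossAB
import Pool.Agent.M3.S3B.Tests

/-!
# M3.S3B.BitsT: from the times of the tests to the starts of the epochs (helper39)

* `Forced R K` : every epoch which starts before `K` is stopped at `K` at the latest (`mkRt_forced`);
* `sum_Tend` : pathwise, `∑_(σ<K) 1[start σ] G (ep σ) (Tend (ep σ)) = ∑_(s<K) 1[test at s+1] G (ep s) (s+1)`;
* `gainF_sum`, `gainG_sum` : `∑_(σ<K) gainF R K σ = ∑_(s<K) E3 1[test at s+1] klf (law (VF (ep s) (s+1))) (law om0)`
  (labels of `(ep s).t0`), and the mirror;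
* `starts_tests` : the number of the starts is the number of the tests.
-/

set_option autoImplicit false
set_option linter.unusedSectionVars false

namespace Pool.Agent.M3.S3B

open Finset Pool.Agent.PWZ Pool.Agent.M3 Pool.Agent.M3.S3

noncomputable section

variable {X β γ ι φ : Type*} [Fintype X] {D : Dat X β γ ι φ}

/-- every epoch which starts before `K` is stopped at `K` at the latest -/
def Forced (R : Rt D) (K : ℕ) : Prop := ∀ (e : Epo X) x b c, e.t0 < K → R.ST e K x b c

theorem mkRt_forced [Fintype β] [Fintype γ] [Fintype φ] (R : Rm D) (Up : Upd D) (N : Nb) (dg : ℕ → X → ℝ) (K : ℕ) :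
    Forced (mkRt R Up N dg K) K := fun _ _ _ _ h => ⟨K, h, le_rfl, Or.inr rfl⟩

/-- REGROUPING at the ends of the epochs, pathwise -/
theorem sum_Tend {R : Rt D} {K : ℕ} (hK : Forced R K) (x : X) (b : β) (c : γ) (G : Epo X → ℕ → ℝ) :
    ∑ σ ∈ range K, ind (R.start σ x b c) * G (R.ep σ x b c) (R.Tend (R.ep σ x b c) K x b c) =
      ∑ s ∈ range K, ind (R.tt (R.ep s x b c) (s + 1) x b c) * G (R.ep s x b c) (s + 1) := by
  classical
  rw [R.sum_regroup K x b c (fun e s => ind (R.tt e (s + 1) x b c) * G e (s + 1))]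
  refine sum_congr rfl fun σ hσ => ?_
  by_cases hs : R.start σ x b c
  swap
  · rw [ind_not hs, zero_mul, zero_mul]
  rw [ind_of hs, one_mul, one_mul]
  set e : Epo X := R.ep σ x b c with he
  have ht0 : e.t0 = σ := hs
  have hσK : σ < K := mem_range.1 hσ
  obtain ⟨a1, a2, a3⟩ := R.Tend_tt (hK e x b c (by omega))
  set r : ℕ := R.Tend e K x b c with hr
  have hr1 : r - 1 + 1 = r := by omega
  rw [Finset.sum_eq_single (r - 1)]
  · have h1 : ¬ R.ST e (r - 1) x b c := (R.lt_Tend (show r - 1 < K by omega) x b c).1 (by omega)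
    rw [ind_of h1, hr1, ind_of a1, one_mul, one_mul]
  · intro s hs1 hs2
    rw [mem_Ico] at hs1
    rcases Nat.lt_or_ge s r with h | h
    · have h1 : ¬ R.ST e (s + 1) x b c := (R.lt_Tend (show s + 1 < K by omega) x b c).1 (by omega)
      have h2 : ¬ R.tt e (s + 1) x b c := fun h3 => h1 ⟨s + 1, by omega, le_rfl, h3⟩
      rw [ind_not h2, zero_mul, mul_zero]
    · have h1 : ¬ ¬ R.ST e s x b c := fun h2 => by
        have := (R.lt_Tend hs1.2 x b c).2 h2
        omega
      rw [ind_not h1, zero_mul]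
  · intro h
    exact absurd (mem_Ico.2 ⟨by omega, by omega⟩) h

section means

variable [Fintype β] [Fintype γ]

theorem E3_Tend {R : Rt D} {K : ℕ} (hK : Forced R K) (G : Epo X → ℕ → X → β → γ → ℝ) :
    ∑ σ ∈ range K, E3 (fun x b c => ind (R.start σ x b c) *
        G (R.ep σ x b c) (R.Tend (R.ep σ x b c) K x b c) x b c) =
      ∑ s ∈ range K, E3 (fun x b c => ind (R.tt (R.ep s x b c) (s + 1) x b c) * G (R.ep s x b c) (s + 1) x b c) := by
  rw [← E3_finsum, ← E3_finsum]
  exact E3_congr fun x b c => sum_Tend hK x b c (fun e t => G e t x b c)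

variable [Fintype φ]

/-- the gains of the virtual `f`-partitions at the ends of the epochs -/
theorem gainF_sum {R : Rt D} {K : ℕ} (hK : Forced R K) :
    ∑ σ ∈ range K, gainF R K σ = ∑ s ∈ range K, E3 (fun x b c => ind (R.tt (R.ep s x b c) (s + 1) x b c) *
      klf (law (VF R.toRm (R.ep s x b c) (s + 1) x b c) (fun y => D.kf (R.ep s x b c).t0 y b c))
        (law (R.ep s x b c).om0 (fun y => D.kf (R.ep s x b c).t0 y b c))) :=
  E3_Tend hK fun e t x b c => klf (law (VF R.toRm e t x b c) (fun y => D.kf e.t0 y b c))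
    (law e.om0 (fun y => D.kf e.t0 y b c))

/-- the gains of the virtual `g`-partitions at the ends of the epochs -/
theorem gainG_sum {R : Rt D} {K : ℕ} (hK : Forced R K) :
    ∑ σ ∈ range K, gainG R K σ = ∑ s ∈ range K, E3 (fun x b c => ind (R.tt (R.ep s x b c) (s + 1) x b c) *
      klf (law (VG R.toRm (R.ep s x b c) (s + 1) x b c) (fun y => D.kg (R.ep s x b c).t0 y b c))
        (law (R.ep s x b c).om0 (fun y => D.kg (R.ep s x b c).t0 y b c))) :=
  E3_Tend hK fun e t x b c => klf (law (VG R.toRm e t x b c) (fun y => D.kg e.t0 y b c))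
    (law e.om0 (fun y => D.kg e.t0 y b c))

/-- the number of the starts before `K` is the number of the tests up to `K` -/
theorem starts_tests {R : Rt D} {K : ℕ} (hK : Forced R K) :
    ∑ σ ∈ range K, E3 (fun x b c => ind (R.start σ x b c)) =
      ∑ s ∈ range K, E3 (fun x b c => ind (R.tt (R.ep s x b c) (s + 1) x b c)) := by
  have h := E3_Tend hK (fun _ _ (_ : X) (_ : β) (_ : γ) => (1 : ℝ))
  simp only [mul_one] at h
  exact h

end means

end

end Pool.Agent.M3.S3B
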