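import Pool.Agent.M3.S3B.RareB
import Pool.Agent.M3.HIota

/-!
# M3.S3B.Close: letter closeness (step (4) of note 3448), static (helper84)

`W` = a class (public, not saturated), `K ⊆ W` a cell which is saturated for the second label on the cell `C` of the
second known point (constant `sig`), `|W| - |K| ≤ e |K|`; `kg' x c G` = frozen kernel, `kg x c G` = current kernel, equal
to the frozen one for all `c` outside a set of at most `kap |C|` elements.  Laws with weights:
`wl V w k G = (∑ x ∈ V, w x * k x G) / ∑ x ∈ V, w x`; `law V k = wl V 1 k`, `RB.cl V kf kg F = wl V (kf · F) kg`.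

* `dens` : `avg C klf (wl K w kg) (law K kg) ≤ sig (log A + 1)` if `w ≤ A *` (mean of `w`) on `K`;
* `klf_stab` : stability of the relative entropy under factors `1 + ρ`;
* `wl_up`, `wl_dn` : `wl W` and `wl K` differ by a factor `1 + e/(al m)`;
* `close_w` : `avg C klf (wl W w kg) (law W kg) ≤ sig (log A + 1) + 2 ρ (log (1/al) + 1) + kap log (1/al)`;
* `close_cl` : the same for `RB.cl W kf kg F` (closeness in a running class);
* `close_half` : Hellinger distance in a part `V` of `W` with `mu |W| ≤ |V|`, averaged over `C''` with `|C| ≤ 2 |C''|`;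
* `row_ent` : entropy of a row of the tables of the start from the tables of a running class, unchanged points only.
-/

set_option autoImplicit false
set_option linter.unusedSectionVars false

namespace Pool.Agent.M3.S3

open Finset Pool.Agent.PWZ Pool.Agent.M3 MeasureTheory

noncomputable section

namespace CL

variable {X γ φ : Type*}

/-- law of a label on the class `V` with weights `w` -/
def wl (V : Finset X) (w : X → ℝ) (k : X → φ → ℝ) (G : φ) : ℝ := (∑ x ∈ V, w x * k x G) / ∑ x ∈ V, w x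

theorem wl_one (V : Finset X) (k : X → φ → ℝ) : wl V (fun _ => 1) k = law V k := by
  funext G
  unfold wl law avg
  simp only [one_mul, Finset.sum_const, nsmul_eq_mul, mul_one]

theorem wl_cl (V : Finset X) (kf kg : X → φ → ℝ) (F : φ) : wl V (fun x => kf x F) kg = RB.cl V kf kg F := by
  funext G
  unfold wl RB.cl law avg
  rcases V.eq_empty_or_nonempty with h | h
  · rw [h]; simp
  · have hc : (V.card : ℝ) ≠ 0 := by exact_mod_cast h.card_pos.ne'
    rw [div_div_div_cancel_right₀ hc]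

/-- integration of level sets -/
theorem lay (K : Finset X) {ψ c : X → ℝ} {M D : ℝ} (h0 : ∀ x ∈ K, 0 ≤ ψ x) (h1 : ∀ x ∈ K, ψ x ≤ M) (hM : 0 ≤ M)
    (h : ∀ t, 0 ≤ t → ∑ x ∈ K, ind (t < ψ x) * c x ≤ D) : ∑ x ∈ K, ψ x * c x ≤ D * M := by
  have e1 : ∑ x ∈ K, ψ x * c x = ∫ t in (0 : ℝ)..M, ∑ x ∈ K, ind (t < ψ x) * c x := by
    rw [intervalIntegral.integral_finsetSum]
    · refine Finset.sum_congr rfl (fun x hx => ?_)
      rw [intervalIntegral.integral_mul_const, int_ind (h0 x hx) (h1 x hx)]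
    · intro x _
      exact (ind_intervalIntegrable (ψ x) 0 M).mul_const _
  rw [e1]
  have hint : IntervalIntegrable (fun t => ∑ x ∈ K, ind (t < ψ x) * c x) volume 0 M := by
    have e2 : (fun t : ℝ => ∑ x ∈ K, ind (t < ψ x) * c x) =
        ∑ x ∈ K, (fun t : ℝ => ind (t < ψ x) * c x) := by
      funext t
      rw [Finset.sum_apply]
    rw [e2]
    exact IntervalIntegrable.sum K
      (fun x _ => (ind_intervalIntegrable (ψ x) 0 M).mul_const (c x))
  calc ∫ t in (0 : ℝ)..M, ∑ x ∈ K, ind (t < ψ x) * c x ≤ ∫ _t in (0 : ℝ)..M, D := by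
        refine intervalIntegral.integral_mono_on hM hint intervalIntegrable_const (fun t ht => ?_)
        exact h t ht.1
    _ = D * M := by
        rw [intervalIntegral.integral_const, sub_zero, smul_eq_mul, mul_comm]

section basic

variable [Fintype φ]

theorem wl_nn {V : Finset X} {w : X → ℝ} {k : X → φ → ℝ} (hw : ∀ x ∈ V, 0 ≤ w x) (hk : ∀ x ∈ V, ∀ G, 0 ≤ k x G)
    (G : φ) : 0 ≤ wl V w k G :=
  div_nonneg (Finset.sum_nonneg fun x hx => mul_nonneg (hw x hx) (hk x hx G)) (Finset.sum_nonneg fun x hx => hw x hx)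

theorem wl_sum {V : Finset X} {w : X → ℝ} {k : X → φ → ℝ} (hk : ∀ x ∈ V, ∑ G, k x G = 1)
    (hw : 0 < ∑ x ∈ V, w x) : ∑ G, wl V w k G = 1 := by
  unfold wl
  rw [← Finset.sum_div, Finset.sum_comm]
  have : ∀ x ∈ V, ∑ G, w x * k x G = w x := fun x hx => by rw [← Finset.mul_sum, hk x hx, mul_one]
  rw [Finset.sum_congr rfl this, div_self hw.ne']

/-- thick kernels on the class `W` -/
structure Th (W : Finset X) (k : X → φ → ℝ) (al : ℝ) : Prop where
  pos : 0 < al
  nn : ∀ x ∈ W, ∀ G, 0 ≤ k x G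
  one : ∀ x ∈ W, ∑ G, k x G = 1
  thick : ∀ x ∈ W, ∀ x' ∈ W, ∀ G, k x G ≠ 0 → al ≤ k x' G

theorem Th.mono {W V : Finset X} {k : X → φ → ℝ} {al : ℝ} (h : Th W k al) (hV : V ⊆ W) : Th V k al where
  pos := h.pos
  nn x hx := h.nn x (hV hx)
  one x hx := h.one x (hV hx)
  thick x hx x' hx' := h.thick x (hV hx) x' (hV hx')

theorem Th.le_one {W : Finset X} {k : X → φ → ℝ} {al : ℝ} (h : Th W k al) {x : X} (hx : x ∈ W) (G : φ) :
    k x G ≤ 1 := by
  rw [← h.one x hx]
  exact Finset.single_le_sum (f := fun G => k x G) (fun G _ => h.nn x hx G) (Finset.mem_univ G)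

theorem Th.al_le_one {W : Finset X} {k : X → φ → ℝ} {al : ℝ} (h : Th W k al) (hne : W.Nonempty) : al ≤ 1 := by
  obtain ⟨x, hx⟩ := hne
  have h1 : ∃ G, k x G ≠ 0 := by
    by_contra hc
    push Not at hc
    have := h.one x hx
    rw [Finset.sum_eq_zero (fun G _ => hc G)] at this
    norm_num at this
  obtain ⟨G, hG⟩ := h1
  exact (h.thick x hx x hx G hG).trans (h.le_one hx G)

/-- a law with weights is thick: a letter is impossible for all points or has probability at least `al` -/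
theorem Th.wl_alt {W V : Finset X} {k : X → φ → ℝ} {al : ℝ} (h : Th W k al) (hV : V ⊆ W) {w : X → ℝ}
    (hw : ∀ x ∈ V, 0 ≤ w x) (hwp : 0 < ∑ x ∈ V, w x) (G : φ) :
    ((∀ x ∈ W, k x G = 0) ∧ wl V w k G = 0) ∨ ((∀ x ∈ W, al ≤ k x G) ∧ al ≤ wl V w k G) := by
  by_cases hz : ∀ x ∈ W, k x G = 0
  · left
    refine ⟨hz, ?_⟩
    unfold wl
    rw [Finset.sum_eq_zero (fun x hx => by rw [hz x (hV hx), mul_zero]), zero_div]
  · right
    push Not at hz
    obtain ⟨x0, hx0, h0⟩ := hz
    have h1 : ∀ x ∈ W, al ≤ k x G := fun x hx => h.thick x0 hx0 x hx G h0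
    refine ⟨h1, ?_⟩
    unfold wl
    rw [le_div_iff₀ hwp, Finset.mul_sum]
    refine Finset.sum_le_sum fun x hx => ?_
    rw [mul_comm]
    exact mul_le_mul_of_nonneg_left (h1 x (hV hx)) (hw x hx)

theorem Th.wl_le_one {W V : Finset X} {k : X → φ → ℝ} {al : ℝ} (h : Th W k al) (hV : V ⊆ W) {w : X → ℝ}
    (hw : ∀ x ∈ V, 0 ≤ w x) (hwp : 0 < ∑ x ∈ V, w x) (G : φ) : wl V w k G ≤ 1 := by
  rw [← wl_sum (fun x hx => h.one x (hV hx)) hwp]
  exact Finset.single_le_sum (f := fun G => wl V w k G) (fun G _ => wl_nn hw (fun x hx => h.nn x (hV hx)) G)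
    (Finset.mem_univ G)

end basic

section dens

variable [Fintype φ]

/-- closeness for densities on a saturated class -/
theorem dens {K : Finset X} {C : Finset γ} {kg : X → γ → φ → ℝ} {sig A al : ℝ} {w : X → ℝ}
    (hth : ∀ c ∈ C, Th K (fun x => kg x c) al) (hsig : 0 ≤ sig)
    (hsat : ∀ S ⊆ K, S.Nonempty → avg C (fun c => klf (law S fun x => kg x c) (law K fun x => kg x c)) ≤
      sig * (Real.log ((K.card : ℝ) / S.card) + 1))
    (hw0 : ∀ x ∈ K, 0 ≤ w x) (hwp : 0 < ∑ x ∈ K, w x) (hA : 0 < A)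
    (hwA : ∀ x ∈ K, w x * K.card ≤ A * ∑ y ∈ K, w y) :
    avg C (fun c => klf (wl K w fun x => kg x c) (law K fun x => kg x c)) ≤ sig * (Real.log A + 1) := by
  classical
  have hKne : K.Nonempty := by
    rcases K.eq_empty_or_nonempty with h | h
    · rw [h] at hwp; simp at hwp
    · exact h
  have hKc : (0 : ℝ) < K.card := by exact_mod_cast hKne.card_pos
  set s : ℝ := ∑ x ∈ K, w x with hs
  set h : γ → φ → ℝ := fun c G => Real.log (wl K w (fun x => kg x c) G / law K (fun x => kg x c) G) with hh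
  set c0 : X → ℝ := fun x => avg C fun c => ∑ G, kg x c G * h c G with hc0
  set ψ : X → ℝ := fun x => w x * K.card / s with hψ
  -- the mean as a sum over the points
  have e1 : avg C (fun c => klf (wl K w fun x => kg x c) (law K fun x => kg x c)) =
      (∑ x ∈ K, ψ x * c0 x) / K.card := by
    have e2 : ∀ x ∈ K, ψ x * c0 x = K.card * (w x / s * c0 x) := fun x _ => by rw [hψ]; ring
    rw [Finset.sum_congr rfl e2, ← Finset.mul_sum, mul_div_cancel_left₀ _ hKc.ne']
    unfold avg klf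
    have e3 : ∀ c ∈ C, ∑ G, wl K w (fun x => kg x c) G *
        Real.log (wl K w (fun x => kg x c) G / law K (fun x => kg x c) G) =
        ∑ x ∈ K, w x / s * ∑ G, kg x c G * h c G := by
      intro c _
      simp only [Finset.mul_sum]
      rw [Finset.sum_comm]
      refine Finset.sum_congr rfl fun G _ => ?_
      show wl K w (fun x => kg x c) G * h c G = _
      unfold wl
      rw [div_mul_eq_mul_div, Finset.sum_mul, Finset.sum_div]
      refine Finset.sum_congr rfl fun x _ => ?_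
      rw [← hs]
      ring
    rw [Finset.sum_congr rfl e3, Finset.sum_comm, Finset.sum_div]
    refine Finset.sum_congr rfl fun x _ => ?_
    rw [hc0]
    show (∑ c ∈ C, w x / s * ∑ G, kg x c G * h c G) / C.card = w x / s * avg C fun c => ∑ G, kg x c G * h c G
    unfold avg
    rw [← Finset.mul_sum]
    ring
  -- the test
  have hlK : ∀ c ∈ C, ∀ G, law K (fun x => kg x c) G * (Real.exp (h c G) - 1) =
      wl K w (fun x => kg x c) G - law K (fun x => kg x c) G := by
    intro c hc G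
    rw [← wl_one K (fun x => kg x c)]
    have h1 : 0 < ∑ x ∈ K, (fun _ : X => (1 : ℝ)) x := by simpa using hKne.card_pos
    rcases (hth c hc).wl_alt (Finset.Subset.refl K) hw0 hwp G with ⟨a1, a2⟩ | ⟨a1, a2⟩
    · rcases (hth c hc).wl_alt (Finset.Subset.refl K) (w := fun _ => 1) (fun _ _ => zero_le_one) h1 G with
        ⟨b1, b2⟩ | ⟨b1, b2⟩
      · rw [a2, b2]; ring
      · obtain ⟨x, hx⟩ := hKne
        have := b1 x hx
        rw [a1 x hx] at this
        exact absurd this (not_le.2 (hth c hc).pos)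
    · rcases (hth c hc).wl_alt (Finset.Subset.refl K) (w := fun _ => 1) (fun _ _ => zero_le_one) h1 G with
        ⟨b1, b2⟩ | ⟨b1, b2⟩
      · obtain ⟨x, hx⟩ := hKne
        have := a1 x hx
        rw [b1 x hx] at this
        exact absurd this (not_le.2 (hth c hc).pos)
      · have p1 : 0 < wl K w (fun x => kg x c) G := (hth c hc).pos.trans_le a2
        have p2 : 0 < wl K (fun _ => 1) (fun x => kg x c) G := (hth c hc).pos.trans_le b2
        rw [hh]
        simp only
        rw [← wl_one K (fun x => kg x c), Real.exp_log (div_pos p1 p2)]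
        field_simp
  have htest : ∀ S ⊆ K, S.Nonempty → avg S c0 ≤ sig * (Real.log ((K.card : ℝ) / S.card) + 1) := by
    intro S hS hSne
    have h1 := RB.avg_lin kg S C h
    have h2 : avg S c0 = avg C fun c => ∑ G, law S (fun x => kg x c) G * h c G := h1
    rw [h2]
    have hSc : (0 : ℝ) < S.card := by exact_mod_cast hSne.card_pos
    have hS1 : 0 < ∑ x ∈ S, (fun _ : X => (1 : ℝ)) x := by simpa using hSne.card_pos
    have hK1 : 0 < ∑ x ∈ K, (fun _ : X => (1 : ℝ)) x := by simpa using hKne.card_pos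
    have h3 : ∀ c ∈ C, ∑ G, law S (fun x => kg x c) G * h c G ≤
        klf (law S fun x => kg x c) (law K fun x => kg x c) := by
      intro c hc
      have h4 := RB.dv_klf (p := law S fun x => kg x c) (q := law K fun x => kg x c) (h := h c)
        (fun G => by
          rw [← wl_one S (fun x => kg x c)]
          exact wl_nn (fun _ _ => zero_le_one) (fun x hx => (hth c hc).nn x (hS hx)) G)
        (fun G => by
          rw [← wl_one K (fun x => kg x c)]
          exact wl_nn (fun _ _ => zero_le_one) (fun x hx => (hth c hc).nn x hx) G)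
        (fun G hG => by
          rw [← wl_one S (fun x => kg x c)] at hG
          rw [← wl_one K (fun x => kg x c)]
          rcases (hth c hc).wl_alt (Finset.Subset.refl K) (w := fun _ => 1) (fun _ _ => zero_le_one) hK1 G with
            ⟨b1, b2⟩ | ⟨b1, b2⟩
          · exfalso
            apply hG
            unfold wl
            rw [Finset.sum_eq_zero (fun x hx => by
              show (1 : ℝ) * kg x c G = 0
              rw [show kg x c G = 0 from b1 x (hS hx), mul_zero]), zero_div]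
          · exact (hth c hc).pos.trans_le b2)
        (by rw [← wl_one S (fun x => kg x c)]; exact wl_sum (fun x hx => (hth c hc).one x (hS hx)) hS1)
        (by rw [← wl_one K (fun x => kg x c)]; exact wl_sum (fun x hx => (hth c hc).one x hx) hK1)
      rw [Finset.sum_congr rfl (fun G _ => hlK c hc G), Finset.sum_sub_distrib,
        wl_sum (fun x hx => (hth c hc).one x hx) hwp, ← wl_one K (fun x => kg x c),
        wl_sum (fun x hx => (hth c hc).one x hx) hK1, sub_self, add_zero, wl_one] at h4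
      exact h4
    refine le_trans ?_ (hsat S hS hSne)
    unfold avg
    exact div_le_div_of_nonneg_right (Finset.sum_le_sum h3) (Nat.cast_nonneg _)
  -- level sets
  have hψ0 : ∀ x ∈ K, 0 ≤ ψ x := fun x hx => div_nonneg (mul_nonneg (hw0 x hx) hKc.le) hwp.le
  have hψA : ∀ x ∈ K, ψ x ≤ A := fun x hx => by
    rw [hψ]
    show w x * K.card / s ≤ A
    rw [div_le_iff₀ hwp]
    exact hwA x hx
  have key : ∀ t, 0 ≤ t → ∑ x ∈ K, ind (t < ψ x) * (c0 x - sig * Real.log A) ≤ K.card * sig / A := by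
    intro t _
    have e2 : ∑ x ∈ K, ind (t < ψ x) * (c0 x - sig * Real.log A) =
        ∑ x ∈ K.filter (fun x => t < ψ x), (c0 x - sig * Real.log A) := by
      rw [Finset.sum_filter]
      refine Finset.sum_congr rfl fun x _ => ?_
      by_cases hx : t < ψ x
      · rw [ind_of hx, if_pos hx, one_mul]
      · rw [ind_not hx, if_neg hx, zero_mul]
    rw [e2]
    set S := K.filter (fun x => t < ψ x) with hSd
    rcases S.eq_empty_or_nonempty with hSe | hSne
    · rw [hSe, Finset.sum_empty]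
      positivity
    · have hSc : (0 : ℝ) < S.card := by exact_mod_cast hSne.card_pos
      have h1 := htest S (Finset.filter_subset _ _) hSne
      unfold avg at h1
      rw [div_le_iff₀ hSc] at h1
      rw [Finset.sum_sub_distrib, Finset.sum_const, nsmul_eq_mul]
      have h2 : Real.log ((K.card : ℝ) / S.card) ≤ Real.log A + ((K.card : ℝ) / S.card / A - 1) := by
        have h3 := Real.log_le_sub_one_of_pos (x := (K.card : ℝ) / S.card / A) (by positivity)
        rw [Real.log_div (by positivity) hA.ne'] at h3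
        linarith
      have h3 : sig * (Real.log ((K.card : ℝ) / S.card) + 1) ≤
          sig * (Real.log A + (K.card : ℝ) / S.card / A) := mul_le_mul_of_nonneg_left (by linarith) hsig
      have h4 : sig * (Real.log ((K.card : ℝ) / S.card) + 1) * S.card ≤
          sig * (Real.log A + (K.card : ℝ) / S.card / A) * S.card := mul_le_mul_of_nonneg_right h3 hSc.le
      have h5 : sig * (Real.log A + (K.card : ℝ) / S.card / A) * S.card =
          S.card * (sig * Real.log A) + K.card * sig / A := by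
        field_simp
      linarith
  have h6 := lay K hψ0 hψA hA.le key
  rw [e1, div_le_iff₀ hKc]
  have h7 : ∑ x ∈ K, ψ x * (c0 x - sig * Real.log A) = ∑ x ∈ K, ψ x * c0 x - sig * Real.log A * K.card := by
    simp only [mul_sub, Finset.sum_sub_distrib]
    rw [← Finset.sum_mul]
    have : ∑ x ∈ K, ψ x = K.card := by
      rw [hψ]
      simp only
      rw [← Finset.sum_div, ← Finset.sum_mul, ← hs, mul_comm, mul_div_cancel_right₀ _ hwp.ne']
    rw [this]
    ring
  rw [h7] at h6
  have h8 : K.card * sig / A * A = K.card * sig := by field_simp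
  rw [h8] at h6
  linarith

end dens

section stab

variable [Fintype φ]

/-- stability of the relative entropy under factors `1 + ρ` -/
theorem klf_stab {p q p' q' : φ → ℝ} {al ρ : ℝ} (hal : 0 < al) (hρ : 0 ≤ ρ)
    (hq1 : ∀ G, q G ≤ 1) (hp1 : ∀ G, p G ≤ 1)
    (hp : ∀ G, (p G = 0 ∧ q G = 0) ∨ (al ≤ p G ∧ al ≤ q G))
    (hps : ∑ G, p G = 1) (hps' : ∑ G, p' G = 1) (hp'0 : ∀ G, 0 ≤ p' G)
    (h1 : ∀ G, p' G ≤ (1 + ρ) * p G) (h2 : ∀ G, p G ≤ (1 + ρ) * p' G) (h3 : ∀ G, q G ≤ (1 + ρ) * q' G) :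
    klf p' q' ≤ klf p q + 2 * ρ * (Real.log (1 / al) + 1) := by
  have hterm : ∀ G, p' G * Real.log (p' G / q' G) ≤ p G * Real.log (p G / q G) +
      ρ * (p G + p' G) * Real.log (1 / al) + 2 * ρ * p' G := by
    intro G
    rcases hp G with ⟨a1, a2⟩ | ⟨a1, a2⟩
    · have h4 : p' G = 0 := le_antisymm (by have := h1 G; rw [a1, mul_zero] at this; exact this) (hp'0 G)
      rw [h4, a1]; simp
    · have hp0 : 0 < p G := hal.trans_le a1
      have hq0 : 0 < q G := hal.trans_le a2
      have hp'p : 0 < p' G := by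
        by_contra hc
        have : p' G = 0 := le_antisymm (not_lt.1 hc) (hp'0 G)
        have h4 := h2 G
        rw [this, mul_zero] at h4
        linarith
      have hq'p : 0 < q' G := by
        by_contra hc
        have h4 := h3 G
        have h5 : (1 + ρ) * q' G ≤ 0 := mul_nonpos_of_nonneg_of_nonpos (by linarith) (not_lt.1 hc)
        linarith
      have hl : 0 ≤ Real.log (1 / al) := by
        apply Real.log_nonneg
        rw [le_div_iff₀ hal, one_mul]
        exact a1.trans (hp1 G)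
      have habs : |Real.log (p G / q G)| ≤ Real.log (1 / al) := by
        rw [abs_le]
        constructor
        · rw [← Real.log_inv]
          refine Real.log_le_log (by positivity) ?_
          rw [one_div, inv_inv, le_div_iff₀ hq0]
          calc al * q G ≤ al * 1 := mul_le_mul_of_nonneg_left (hq1 G) hal.le
            _ ≤ p G := by rw [mul_one]; exact a1
        · refine Real.log_le_log (by positivity) ?_
          rw [div_le_div_iff₀ hq0 hal]
          calc p G * al ≤ 1 * q G := mul_le_mul (hp1 G) a2 hal.le zero_le_one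
            _ = 1 * q G := rfl
      -- the logarithm
      have hlog : Real.log (p' G / q' G) ≤ Real.log (p G / q G) + 2 * ρ := by
        have h4 : p' G / q' G ≤ (1 + ρ) ^ 2 * (p G / q G) := by
          rw [div_le_iff₀ hq'p]
          have h5 : (1 + ρ) ^ 2 * (p G / q G) * q' G = (1 + ρ) * p G * ((1 + ρ) * q' G / q G) := by
            field_simp
          rw [h5]
          have h6 : 1 ≤ (1 + ρ) * q' G / q G := by
            rw [le_div_iff₀ hq0, one_mul]; exact h3 G
          calc p' G ≤ (1 + ρ) * p G := h1 G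
            _ = (1 + ρ) * p G * 1 := (mul_one _).symm
            _ ≤ _ := mul_le_mul_of_nonneg_left h6 (by positivity)
        have h7 := Real.log_le_log (div_pos hp'p hq'p) h4
        have hr : 0 < 1 + ρ := by linarith
        rw [Real.log_mul (by positivity) (by positivity), Real.log_pow] at h7
        have h8 := Real.log_le_sub_one_of_pos hr
        push_cast at h7
        linarith
      have h9 : p' G * Real.log (p' G / q' G) ≤ p' G * (Real.log (p G / q G) + 2 * ρ) :=
        mul_le_mul_of_nonneg_left hlog hp'p.le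
      have h10 : |p' G - p G| ≤ ρ * (p G + p' G) := by
        rw [abs_le]
        have e1 := h1 G
        have e2 := h2 G
        have e3 : 0 ≤ ρ * p G := mul_nonneg hρ hp0.le
        have e4 : 0 ≤ ρ * p' G := mul_nonneg hρ hp'p.le
        constructor <;> nlinarith
      have h11 : (p' G - p G) * Real.log (p G / q G) ≤ ρ * (p G + p' G) * Real.log (1 / al) := by
        calc (p' G - p G) * Real.log (p G / q G) ≤ |(p' G - p G) * Real.log (p G / q G)| := le_abs_self _
          _ = |p' G - p G| * |Real.log (p G / q G)| := abs_mul _ _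
          _ ≤ ρ * (p G + p' G) * Real.log (1 / al) :=
            mul_le_mul h10 habs (abs_nonneg _) (mul_nonneg hρ (by linarith))
      linarith
  have hs := Finset.sum_le_sum (s := (Finset.univ : Finset φ)) fun G _ => hterm G
  rw [Finset.sum_add_distrib, Finset.sum_add_distrib, ← Finset.mul_sum, hps', ← Finset.sum_mul,
    ← Finset.mul_sum, Finset.sum_add_distrib, hps, hps'] at hs
  unfold klf
  linarith

/-- the relative entropy of thick laws is bounded -/
theorem klf_le_log {p q : φ → ℝ} {al : ℝ} (hal : 0 < al) (hp1 : ∀ G, p G ≤ 1) (hp0 : ∀ G, 0 ≤ p G)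
    (hp : ∀ G, (p G = 0 ∧ q G = 0) ∨ (al ≤ p G ∧ al ≤ q G)) (hps : ∑ G, p G = 1) :
    klf p q ≤ Real.log (1 / al) := by
  have h1 : ∀ G, p G * Real.log (p G / q G) ≤ p G * Real.log (1 / al) := by
    intro G
    rcases hp G with ⟨a1, a2⟩ | ⟨a1, a2⟩
    · rw [a1]; simp
    · refine mul_le_mul_of_nonneg_left ?_ (hp0 G)
      have hq0 : 0 < q G := hal.trans_le a2
      refine Real.log_le_log (div_pos (hal.trans_le a1) hq0) ?_
      rw [div_le_div_iff₀ hq0 hal]
      calc p G * al ≤ 1 * q G := mul_le_mul (hp1 G) a2 hal.le zero_le_one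
        _ = 1 * q G := rfl
  have hs := Finset.sum_le_sum (s := (Finset.univ : Finset φ)) fun G _ => h1 G
  rw [← Finset.sum_mul, hps, one_mul] at hs
  exact hs

theorem klf_nn {p q : φ → ℝ} {al : ℝ} (hal : 0 < al) (hq0 : ∀ G, 0 ≤ q G)
    (hp : ∀ G, (p G = 0 ∧ q G = 0) ∨ (al ≤ p G ∧ al ≤ q G)) (hps : ∑ G, p G = 1) (hqs : ∑ G, q G = 1) :
    0 ≤ klf p q := by
  rw [← RB.sum_phi_eq (fun G hG => by
    rcases hp G with ⟨a1, _⟩ | ⟨_, a2⟩
    · exact a1
    · rw [hG] at a2; exact absurd a2 (not_le.2 hal)) hps hqs]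
  refine Finset.sum_nonneg fun G _ => mul_nonneg (hq0 G) (RB.phi_nonneg ?_)
  rcases hp G with ⟨a1, a2⟩ | ⟨a1, a2⟩
  · rw [a1, zero_div]
  · exact div_nonneg (hal.le.trans a1) (hq0 G)

end stab

section ratio

variable [Fintype φ]

/-- hypothesis on the pair `K ⊆ W` -/
structure Sub (W K : Finset X) (e : ℝ) : Prop where
  sub : K ⊆ W
  ne : K.Nonempty
  card : (W.card : ℝ) - K.card ≤ e * K.card

theorem Sub.e_nn {W K : Finset X} {e : ℝ} (h : Sub W K e) : 0 ≤ e := by
  have h1 : (K.card : ℝ) ≤ W.card := by exact_mod_cast Finset.card_le_card h.sub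
  have h2 : (0 : ℝ) < K.card := by exact_mod_cast h.ne.card_pos
  by_contra hc
  have := h.card
  nlinarith

/-- sums over `W` and over `K` -/
theorem Sub.sum_le {W K : Finset X} {e : ℝ} (h : Sub W K e) {f : X → ℝ} {m : ℝ} (hm : 0 < m)
    (h1 : ∀ x ∈ W, f x ≤ 1) (hf : m * K.card ≤ ∑ x ∈ K, f x) :
    ∑ x ∈ W, f x ≤ (1 + e / m) * ∑ x ∈ K, f x := by
  classical
  rw [← Finset.sum_sdiff h.sub]
  have h2 : ∑ x ∈ W \ K, f x ≤ e * K.card := by
    calc ∑ x ∈ W \ K, f x ≤ ∑ x ∈ W \ K, (1 : ℝ) :=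
          Finset.sum_le_sum fun x hx => h1 x (Finset.sdiff_subset hx)
      _ = (W.card : ℝ) - K.card := by
          rw [Finset.sum_const, nsmul_eq_mul, mul_one, Finset.card_sdiff_of_subset h.sub,
            Nat.cast_sub (Finset.card_le_card h.sub)]
      _ ≤ e * K.card := h.card
  have h3 : e * K.card ≤ e / m * ∑ x ∈ K, f x := by
    have := mul_le_mul_of_nonneg_left hf (div_nonneg h.e_nn hm.le)
    calc e * (K.card : ℝ) = e / m * (m * K.card) := by field_simp
      _ ≤ _ := this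
  linarith

variable {W K : Finset X} {e al m : ℝ} {k : X → φ → ℝ} {w : X → ℝ}

theorem sum_wk (hth : Th W k al) (hs : Sub W K e) (hw0 : ∀ x ∈ W, 0 ≤ w x) (hw : m * K.card ≤ ∑ x ∈ K, w x)
    {G : φ} (hG : ∀ x ∈ W, al ≤ k x G) : al * m * K.card ≤ ∑ x ∈ K, w x * k x G := by
  calc al * m * K.card = al * (m * K.card) := by ring
    _ ≤ al * ∑ x ∈ K, w x := mul_le_mul_of_nonneg_left hw hth.pos.le
    _ = ∑ x ∈ K, w x * al := by rw [Finset.mul_sum]; exact Finset.sum_congr rfl fun x _ => mul_comm _ _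
    _ ≤ _ := Finset.sum_le_sum fun x hx => mul_le_mul_of_nonneg_left (hG x (hs.sub hx)) (hw0 x (hs.sub hx))

theorem wl_up (hth : Th W k al) (hs : Sub W K e) (hm : 0 < m) (hw0 : ∀ x ∈ W, 0 ≤ w x) (hw1 : ∀ x ∈ W, w x ≤ 1)
    (hw : m * K.card ≤ ∑ x ∈ K, w x) (G : φ) : wl W w k G ≤ (1 + e / (al * m)) * wl K w k G := by
  have hK : (0 : ℝ) < K.card := by exact_mod_cast hs.ne.card_pos
  have hwK : 0 < ∑ x ∈ K, w x := lt_of_lt_of_le (by positivity) hw
  have hwW : ∑ x ∈ K, w x ≤ ∑ x ∈ W, w x :=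
    Finset.sum_le_sum_of_subset_of_nonneg hs.sub fun x hx _ => hw0 x hx
  rcases hth.wl_alt hs.sub (fun x hx => hw0 x (hs.sub hx)) hwK G with ⟨a1, a2⟩ | ⟨a1, a2⟩
  · rw [a2, mul_zero]
    unfold wl
    rw [Finset.sum_eq_zero (fun x hx => by rw [a1 x hx, mul_zero]), zero_div]
  · have h1 := sum_wk hth hs hw0 hw a1
    have h2 := hs.sum_le (f := fun x => w x * k x G) (m := al * m) (mul_pos hth.pos hm)
      (fun x hx => mul_le_one₀ (hw1 x hx) (hth.nn x hx G) (hth.le_one hx G)) h1
    have h0 : 0 ≤ ∑ x ∈ K, w x * k x G :=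
      Finset.sum_nonneg fun x hx => mul_nonneg (hw0 x (hs.sub hx)) (hth.nn x (hs.sub hx) G)
    have h3 : 0 ≤ (1 + e / (al * m)) * ∑ x ∈ K, w x * k x G :=
      mul_nonneg (by have := div_nonneg hs.e_nn (mul_pos hth.pos hm).le; linarith) h0
    unfold wl
    calc (∑ x ∈ W, w x * k x G) / ∑ x ∈ W, w x ≤ ((1 + e / (al * m)) * ∑ x ∈ K, w x * k x G) / ∑ x ∈ K, w x :=
          div_le_div₀ h3 h2 hwK hwW
      _ = _ := by rw [mul_div_assoc]

theorem wl_dn (hth : Th W k al) (hs : Sub W K e) (hm : 0 < m) (hw0 : ∀ x ∈ W, 0 ≤ w x) (hw1 : ∀ x ∈ W, w x ≤ 1)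
    (hw : m * K.card ≤ ∑ x ∈ K, w x) (hne : W.Nonempty) (G : φ) :
    wl K w k G ≤ (1 + e / (al * m)) * wl W w k G := by
  have hK : (0 : ℝ) < K.card := by exact_mod_cast hs.ne.card_pos
  have hwK : 0 < ∑ x ∈ K, w x := lt_of_lt_of_le (by positivity) hw
  have hal := hth.pos
  have hal1 := hth.al_le_one hne
  have hwW : ∑ x ∈ W, w x ≤ (1 + e / (al * m)) * ∑ x ∈ K, w x := by
    refine (hs.sum_le hm hw1 hw).trans (mul_le_mul_of_nonneg_right ?_ hwK.le)
    have : e / m ≤ e / (al * m) := by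
      refine div_le_div_of_nonneg_left hs.e_nn (by positivity) ?_
      calc al * m ≤ 1 * m := mul_le_mul_of_nonneg_right hal1 hm.le
        _ = m := one_mul m
    linarith
  have hWK : ∑ x ∈ K, w x ≤ ∑ x ∈ W, w x :=
    Finset.sum_le_sum_of_subset_of_nonneg hs.sub fun x hx _ => hw0 x hx
  have hwW0 : 0 < ∑ x ∈ W, w x := hwK.trans_le hWK
  have h2 : ∑ x ∈ K, w x * k x G ≤ ∑ x ∈ W, w x * k x G :=
    Finset.sum_le_sum_of_subset_of_nonneg hs.sub fun x hx _ => mul_nonneg (hw0 x hx) (hth.nn x hx G)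
  have h0 : 0 ≤ ∑ x ∈ K, w x * k x G :=
    Finset.sum_nonneg fun x hx => mul_nonneg (hw0 x (hs.sub hx)) (hth.nn x (hs.sub hx) G)
  unfold wl
  rw [div_le_iff₀ hwK]
  have h3 : (1 + e / (al * m)) * ((∑ x ∈ W, w x * k x G) / ∑ x ∈ W, w x) * ∑ x ∈ K, w x =
      (∑ x ∈ W, w x * k x G) * (((1 + e / (al * m)) * ∑ x ∈ K, w x) / ∑ x ∈ W, w x) := by ring
  rw [h3]
  have h4 : 1 ≤ ((1 + e / (al * m)) * ∑ x ∈ K, w x) / ∑ x ∈ W, w x := by
    rw [le_div_iff₀ hwW0, one_mul]; exact hwW
  calc ∑ x ∈ K, w x * k x G ≤ ∑ x ∈ W, w x * k x G := h2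
    _ = (∑ x ∈ W, w x * k x G) * 1 := (mul_one _).symm
    _ ≤ _ := mul_le_mul_of_nonneg_left h4 (h0.trans h2)

end ratio

section close

variable [Fintype φ]

theorem avg_mono_on {C : Finset γ} {f g : γ → ℝ} (h : ∀ c ∈ C, f c ≤ g c) : avg C f ≤ avg C g :=
  div_le_div_of_nonneg_right (Finset.sum_le_sum h) (Nat.cast_nonneg _)

/-- average over a half -/
theorem avg_half {C C' : Finset γ} {f : γ → ℝ} (hC : C' ⊆ C) (h2 : (C.card : ℝ) ≤ 2 * C'.card) (hf : ∀ c ∈ C, 0 ≤ f c) :
    avg C' f ≤ 2 * avg C f := by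
  rcases C'.eq_empty_or_nonempty with h | h
  · have h3 : 0 ≤ avg C f := div_nonneg (Finset.sum_nonneg hf) (Nat.cast_nonneg _)
    rw [h]
    unfold avg at h3 ⊢
    simp only [Finset.sum_empty, Finset.card_empty, Nat.cast_zero, div_zero]
    linarith
  · have h3 : (0 : ℝ) < C'.card := by exact_mod_cast h.card_pos
    have h4 : (0 : ℝ) < C.card := by exact_mod_cast (h.mono hC).card_pos
    have h5 : ∑ c ∈ C', f c ≤ ∑ c ∈ C, f c := Finset.sum_le_sum_of_subset_of_nonneg hC fun c hc _ => hf c hc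
    have h6 : 0 ≤ ∑ c ∈ C, f c := Finset.sum_nonneg hf
    unfold avg
    rw [div_le_iff₀ h3]
    have h7 : 2 * ((∑ c ∈ C, f c) / C.card) * C'.card = (∑ c ∈ C, f c) * ((2 * C'.card) / C.card) := by ring
    rw [h7]
    have h8 : 1 ≤ (2 * (C'.card : ℝ)) / C.card := by rw [le_div_iff₀ h4, one_mul]; exact h2
    calc ∑ c ∈ C', f c ≤ ∑ c ∈ C, f c := h5
      _ = (∑ c ∈ C, f c) * 1 := (mul_one _).symm
      _ ≤ _ := mul_le_mul_of_nonneg_left h8 h6

/-- closeness bound -/
def cb (sig e kap al m : ℝ) : ℝ :=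
  sig * (Real.log (1 / m) + 1) + 2 * (e / (al * m)) * (Real.log (1 / al) + 1) + kap * Real.log (1 / al)

/-- the hypotheses: `K` is saturated for the frozen kernels `kg'` on `C`, almost all of `W`; current kernels `kg` -/
structure Hy (W K : Finset X) (C : Finset γ) (kg kg' : X → γ → φ → ℝ) (sig e kap al : ℝ) : Prop where
  th : ∀ c ∈ C, Th W (fun x => kg x c) al
  th' : ∀ c ∈ C, Th W (fun x => kg' x c) al
  al0 : 0 < al
  al1 : al ≤ 1
  sub : Sub W K e
  sig0 : 0 ≤ sig
  kap0 : 0 ≤ kap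
  sat : ∀ S ⊆ K, S.Nonempty → avg C (fun c => klf (law S fun x => kg' x c) (law K fun x => kg' x c)) ≤
    sig * (Real.log ((K.card : ℝ) / S.card) + 1)
  bad : ∃ Q : Finset γ, (Q.card : ℝ) ≤ kap * C.card ∧ ∀ c ∈ C, c ∉ Q → ∀ x ∈ W, kg x c = kg' x c

variable {W K : Finset X} {C : Finset γ} {kg kg' : X → γ → φ → ℝ} {sig e kap al : ℝ}

theorem wl_congr {V : Finset X} {w : X → ℝ} {k k' : X → φ → ℝ} (h : ∀ x ∈ V, k x = k' x) : wl V w k = wl V w k' := by
  funext G
  unfold wl
  rw [Finset.sum_congr rfl fun x hx => by rw [h x hx]]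

theorem one_sum {V : Finset X} (h : V.Nonempty) : 0 < ∑ x ∈ V, (fun _ : X => (1 : ℝ)) x := by
  simpa using h.card_pos

/-- both laws possible or both impossible -/
theorem Th.alt2 {k : X → φ → ℝ} (hth : Th W k al) {V V' : Finset X} (hV : V ⊆ W) (hV' : V' ⊆ W) {w w' : X → ℝ}
    (hw : ∀ x ∈ V, 0 ≤ w x) (hwp : 0 < ∑ x ∈ V, w x) (hw' : ∀ x ∈ V', 0 ≤ w' x) (hwp' : 0 < ∑ x ∈ V', w' x) (G : φ) :
    (wl V w k G = 0 ∧ wl V' w' k G = 0) ∨ (al ≤ wl V w k G ∧ al ≤ wl V' w' k G) := by
  have hne : V.Nonempty := by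
    rcases V.eq_empty_or_nonempty with h | h
    · rw [h] at hwp; simp at hwp
    · exact h
  obtain ⟨x, hx⟩ := hne
  rcases hth.wl_alt hV hw hwp G with ⟨a1, a2⟩ | ⟨a1, a2⟩
  · rcases hth.wl_alt hV' hw' hwp' G with ⟨b1, b2⟩ | ⟨b1, b2⟩
    · exact Or.inl ⟨a2, b2⟩
    · have := b1 x (hV hx)
      rw [a1 x (hV hx)] at this
      exact absurd this (not_le.2 hth.pos)
  · rcases hth.wl_alt hV' hw' hwp' G with ⟨b1, b2⟩ | ⟨b1, b2⟩
    · have := a1 x (hV hx)
      rw [b1 x (hV hx)] at this
      exact absurd this (not_le.2 hth.pos)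
    · exact Or.inr ⟨a2, b2⟩

/-- closeness for weights on `W` -/
theorem close_w (H : Hy W K C kg kg' sig e kap al) {w : X → ℝ} {m : ℝ} (hw0 : ∀ x ∈ W, 0 ≤ w x)
    (hw1 : ∀ x ∈ W, w x ≤ 1) (hm : 0 < m) (hw : m * K.card ≤ ∑ x ∈ K, w x) :
    avg C (fun c => klf (wl W w fun x => kg x c) (law W fun x => kg x c)) ≤ cb sig e kap al m := by
  classical
  obtain ⟨Q, hQ1, hQ2⟩ := H.bad
  have hKc : (0 : ℝ) < K.card := by exact_mod_cast H.sub.ne.card_pos
  have hWne : W.Nonempty := H.sub.ne.mono H.sub.sub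
  have hwK : 0 < ∑ x ∈ K, w x := lt_of_lt_of_le (by positivity) hw
  have hwW : 0 < ∑ x ∈ W, w x :=
    hwK.trans_le (Finset.sum_le_sum_of_subset_of_nonneg H.sub.sub fun x hx _ => hw0 x hx)
  have hm1 : m ≤ 1 := by
    have h1 : ∑ x ∈ K, w x ≤ K.card := by
      calc ∑ x ∈ K, w x ≤ ∑ x ∈ K, (1 : ℝ) := Finset.sum_le_sum fun x hx => hw1 x (H.sub.sub hx)
        _ = K.card := by rw [Finset.sum_const, nsmul_eq_mul, mul_one]
    have h2 : m * K.card ≤ 1 * K.card := by linarith
    exact le_of_mul_le_mul_right h2 hKc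
  have hl : 0 ≤ Real.log (1 / al) := Real.log_nonneg (by rw [le_div_iff₀ H.al0, one_mul]; exact H.al1)
  set ρ : ℝ := e / (al * m) with hρ
  have he := H.sub.e_nn
  have hρ0 : 0 ≤ ρ := div_nonneg he (mul_pos H.al0 hm).le
  have hone : (1 : ℝ) * K.card ≤ ∑ x ∈ K, (fun _ : X => (1 : ℝ)) x := by simp
  have hρ1 : e / (al * 1) ≤ ρ := by
    refine div_le_div_of_nonneg_left he (mul_pos H.al0 hm) ?_
    exact mul_le_mul_of_nonneg_left hm1 H.al0.le
  -- pointwise
  have hpt : ∀ c ∈ C, klf (wl W w fun x => kg x c) (law W fun x => kg x c) ≤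
      klf (wl K w fun x => kg' x c) (law K fun x => kg' x c) + 2 * ρ * (Real.log (1 / al) + 1) +
        ind (c ∈ Q) * Real.log (1 / al) := by
    intro c hc
    have hT := H.th' c hc
    have hn : 0 ≤ klf (wl K w fun x => kg' x c) (law K fun x => kg' x c) := by
      rw [← wl_one K]
      exact klf_nn H.al0 (fun G => wl_nn (fun _ _ => zero_le_one) (fun x hx => hT.nn x (H.sub.sub hx)) G)
        (fun G => hT.alt2 H.sub.sub H.sub.sub (fun x hx => hw0 x (H.sub.sub hx)) hwK (fun _ _ => zero_le_one)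
          (one_sum H.sub.ne) G) (wl_sum (fun x hx => hT.one x (H.sub.sub hx)) hwK)
        (wl_sum (fun x hx => hT.one x (H.sub.sub hx)) (one_sum H.sub.ne))
    by_cases hq : c ∈ Q
    · rw [ind_of hq, one_mul]
      have hT2 := H.th c hc
      have h1 : klf (wl W w fun x => kg x c) (law W fun x => kg x c) ≤ Real.log (1 / al) := by
        rw [← wl_one W]
        exact klf_le_log H.al0 (fun G => hT2.wl_le_one (Finset.Subset.refl W) hw0 hwW G)
          (fun G => wl_nn hw0 (fun x hx => hT2.nn x hx) G)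
          (fun G => hT2.alt2 (Finset.Subset.refl W) (Finset.Subset.refl W) hw0 hwW (fun _ _ => zero_le_one)
            (one_sum hWne) G) (wl_sum (fun x hx => hT2.one x hx) hwW)
      have h2 : 0 ≤ 2 * ρ * (Real.log (1 / al) + 1) := by positivity
      linarith
    · rw [ind_not hq, zero_mul, add_zero]
      have e1 : wl W w (fun x => kg x c) = wl W w (fun x => kg' x c) := wl_congr fun x hx => hQ2 c hc hq x hx
      have e2 : law W (fun x => kg x c) = law W (fun x => kg' x c) := by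
        rw [← wl_one W, ← wl_one W]
        exact wl_congr fun x hx => hQ2 c hc hq x hx
      rw [e1, e2, ← wl_one W, ← wl_one K]
      refine klf_stab H.al0 hρ0 (fun G => hT.wl_le_one H.sub.sub (fun _ _ => zero_le_one) (one_sum H.sub.ne) G)
        (fun G => hT.wl_le_one H.sub.sub (fun x hx => hw0 x (H.sub.sub hx)) hwK G)
        (fun G => hT.alt2 H.sub.sub H.sub.sub (fun x hx => hw0 x (H.sub.sub hx)) hwK (fun _ _ => zero_le_one)
          (one_sum H.sub.ne) G) (wl_sum (fun x hx => hT.one x (H.sub.sub hx)) hwK)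
        (wl_sum (fun x hx => hT.one x hx) hwW) (fun G => wl_nn hw0 (fun x hx => hT.nn x hx) G)
        (fun G => wl_up hT H.sub hm hw0 hw1 hw G) (fun G => wl_dn hT H.sub hm hw0 hw1 hw hWne G) (fun G => ?_)
      refine (wl_dn hT H.sub one_pos (fun _ _ => zero_le_one) (fun _ _ => le_rfl) hone hWne G).trans ?_
      refine mul_le_mul_of_nonneg_right (by linarith) (wl_nn (fun _ _ => zero_le_one) (fun x hx => hT.nn x hx) G)
  refine (avg_mono_on hpt).trans ?_
  -- the three parts
  have hd := dens (w := w) (A := 1 / m) (al := al) (fun c hc => (H.th' c hc).mono H.sub.sub) H.sig0 H.sat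
    (fun x hx => hw0 x (H.sub.sub hx)) hwK (by positivity) (fun x hx => by
      have h1 : w x * K.card ≤ 1 * K.card := mul_le_mul_of_nonneg_right (hw1 x (H.sub.sub hx)) hKc.le
      have h2 : (K.card : ℝ) ≤ 1 / m * ∑ y ∈ K, w y := by
        rw [one_div, ← div_eq_inv_mul, le_div_iff₀ hm]
        linarith
      linarith)
  have e3 : avg C (fun c => klf (wl K w fun x => kg' x c) (law K fun x => kg' x c) +
      2 * ρ * (Real.log (1 / al) + 1) + ind (c ∈ Q) * Real.log (1 / al)) =
      avg C (fun c => klf (wl K w fun x => kg' x c) (law K fun x => kg' x c)) +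
      avg C (fun _ => 2 * ρ * (Real.log (1 / al) + 1)) + avg C (fun c => ind (c ∈ Q) * Real.log (1 / al)) := by
    unfold avg
    rw [Finset.sum_add_distrib, Finset.sum_add_distrib, add_div, add_div]
  rw [e3]
  have h4 : avg C (fun _ => 2 * ρ * (Real.log (1 / al) + 1)) ≤ 2 * ρ * (Real.log (1 / al) + 1) := by
    unfold avg
    rw [Finset.sum_const, nsmul_eq_mul]
    rcases C.eq_empty_or_nonempty with h | h
    · rw [h]; simp only [Finset.card_empty, Nat.cast_zero, zero_mul, div_zero]; positivity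
    · have : (C.card : ℝ) ≠ 0 := by exact_mod_cast h.card_pos.ne'
      rw [mul_div_cancel_left₀ _ this]
  have h5 : avg C (fun c => ind (c ∈ Q) * Real.log (1 / al)) ≤ kap * Real.log (1 / al) := by
    unfold avg
    rw [← Finset.sum_mul, mul_div_right_comm]
    refine mul_le_mul_of_nonneg_right ?_ hl
    rcases C.eq_empty_or_nonempty with h | h
    · rw [h]; simp only [Finset.sum_empty, zero_div]; exact H.kap0
    · have h6 : (0 : ℝ) < C.card := by exact_mod_cast h.card_pos
      rw [div_le_iff₀ h6]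
      have h7 : ∑ c ∈ C, ind (c ∈ Q) ≤ Q.card := by
        have h8 : ∑ c ∈ C, ind (c ∈ Q) = ((C.filter fun c => c ∈ Q).card : ℝ) := by
          rw [Finset.card_filter, Nat.cast_sum]
          refine Finset.sum_congr rfl fun c _ => ?_
          by_cases hq : c ∈ Q
          · rw [ind_of hq, if_pos hq]; norm_num
          · rw [ind_not hq, if_neg hq]; norm_num
        rw [h8]
        exact_mod_cast Finset.card_le_card fun c hc => (Finset.mem_filter.1 hc).2
      exact h7.trans hQ1
  unfold cb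
  rw [← hρ]
  linarith

/-- closeness of the letter `F`, running class -/
theorem close_cl (H : Hy W K C kg kg' sig e kap al) {kf : X → φ → ℝ} (hf : Th W kf al) {F : φ}
    (hF : law W kf F ≠ 0) :
    avg C (fun c => klf (RB.cl W kf (fun x => kg x c) F) (law W fun x => kg x c)) ≤ cb sig e kap al al := by
  have h1 : ∀ x ∈ W, al ≤ kf x F := by
    rcases hf.wl_alt (Finset.Subset.refl W) (w := fun _ => 1) (fun _ _ => zero_le_one)
      (one_sum (H.sub.ne.mono H.sub.sub)) F with ⟨_, a2⟩ | ⟨a1, _⟩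
    · rw [wl_one] at a2; exact absurd a2 hF
    · exact a1
  have h2 := close_w H (w := fun x => kf x F) (m := al) (fun x hx => hf.nn x hx F) (fun x hx => hf.le_one hx F)
    H.al0 (by
      calc al * K.card = ∑ x ∈ K, al := by rw [Finset.sum_const, nsmul_eq_mul, mul_comm]
        _ ≤ _ := Finset.sum_le_sum fun x hx => h1 x (H.sub.sub hx))
  simp only [wl_cl] at h2
  exact h2

end close

section hel

variable [Fintype φ]

/-- Hellinger distance -/
def hf (p q : φ → ℝ) : ℝ := ∑ G, q G * (Real.sqrt (p G / q G) - 1) ^ 2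

theorem sq_le_phi {x : ℝ} (hx : 0 ≤ x) : (Real.sqrt x - 1) ^ 2 ≤ x * Real.log x - x + 1 := by
  set t := Real.sqrt x with ht
  have ht0 : 0 ≤ t := Real.sqrt_nonneg x
  have hx2 : x = t ^ 2 := (Real.sq_sqrt hx).symm
  have h1 := mul_nonneg ht0 (RB.phi_nonneg ht0)
  have h2 : x * Real.log x = 2 * (t ^ 2 * Real.log t) := by
    rw [hx2, Real.log_pow]; push_cast; ring
  rw [h2, hx2]
  nlinarith

theorem hf_nn {p q : φ → ℝ} (hq : ∀ G, 0 ≤ q G) : 0 ≤ hf p q :=
  Finset.sum_nonneg fun G _ => mul_nonneg (hq G) (sq_nonneg _)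

theorem hf_le_klf {p q : φ → ℝ} {al : ℝ} (hal : 0 < al) (hq0 : ∀ G, 0 ≤ q G)
    (hp : ∀ G, (p G = 0 ∧ q G = 0) ∨ (al ≤ p G ∧ al ≤ q G)) (hps : ∑ G, p G = 1) (hqs : ∑ G, q G = 1) :
    hf p q ≤ klf p q := by
  rw [← RB.sum_phi_eq (fun G hG => by
    rcases hp G with ⟨a1, _⟩ | ⟨_, a2⟩
    · exact a1
    · rw [hG] at a2; exact absurd a2 (not_le.2 hal)) hps hqs]
  refine Finset.sum_le_sum fun G _ => mul_le_mul_of_nonneg_left (sq_le_phi ?_) (hq0 G)
  rcases hp G with ⟨a1, a2⟩ | ⟨a1, a2⟩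
  · rw [a1, zero_div]
  · exact div_nonneg (hal.le.trans a1) (hq0 G)

/-- triangle -/
theorem hf_tri {p1 p2 q : φ → ℝ} {al : ℝ} (hal : 0 < al)
    (h1 : ∀ G, (p1 G = 0 ∧ q G = 0) ∨ (al ≤ p1 G ∧ al ≤ q G))
    (h2 : ∀ G, (p2 G = 0 ∧ q G = 0) ∨ (al ≤ p2 G ∧ al ≤ q G)) :
    hf p1 p2 ≤ 2 * hf p1 q + 2 * hf p2 q := by
  unfold hf
  rw [Finset.mul_sum, Finset.mul_sum, ← Finset.sum_add_distrib]
  refine Finset.sum_le_sum fun G _ => ?_
  have key : ∀ a b : ℝ, 0 ≤ a → 0 < b → b * (Real.sqrt (a / b) - 1) ^ 2 = (Real.sqrt a - Real.sqrt b) ^ 2 := by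
    intro a b ha hb
    have hb' := Real.sqrt_pos.2 hb
    rw [Real.sqrt_div ha]
    have : b = Real.sqrt b ^ 2 := (Real.sq_sqrt hb.le).symm
    nth_rewrite 1 [this]
    field_simp
  rcases h1 G with ⟨a1, a2⟩ | ⟨a1, a2⟩
  · rcases h2 G with ⟨b1, b2⟩ | ⟨b1, b2⟩
    · rw [a2, b1]; simp
    · rw [a2] at b2; exact absurd b2 (not_le.2 hal)
  · rcases h2 G with ⟨b1, b2⟩ | ⟨b1, b2⟩
    · rw [b2] at a2; exact absurd a2 (not_le.2 hal)
    · rw [key _ _ (hal.le.trans a1) (hal.trans_le b1), key _ _ (hal.le.trans a1) (hal.trans_le a2),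
        key _ _ (hal.le.trans b1) (hal.trans_le a2)]
      nlinarith [sq_nonneg (Real.sqrt (p1 G) - Real.sqrt (q G) + (Real.sqrt (p2 G) - Real.sqrt (q G)))]

variable {W K : Finset X} {C : Finset γ} {kg kg' : X → γ → φ → ℝ} {sig e kap al : ℝ}

theorem wl_restrict [DecidableEq X] {V : Finset X} (hV : V ⊆ W) (w : X → ℝ) (k : X → φ → ℝ) :
    wl W (fun x => if x ∈ V then w x else 0) k = wl V w k := by
  funext G
  unfold wl
  have h1 : ∑ x ∈ W, (if x ∈ V then w x else 0) * k x G = ∑ x ∈ V, w x * k x G := by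
    rw [← Finset.sum_subset hV (fun x _ hx => by rw [if_neg hx, zero_mul])]
    exact Finset.sum_congr rfl fun x hx => by rw [if_pos hx]
  have h2 : ∑ x ∈ W, (if x ∈ V then w x else 0) = ∑ x ∈ V, w x := by
    rw [← Finset.sum_subset hV (fun x _ hx => by rw [if_neg hx])]
    exact Finset.sum_congr rfl fun x hx => by rw [if_pos hx]
  rw [h1, h2]

/-- a large part of `W` is a large part of `K` -/
theorem part_card {V : Finset X} (hs : Sub W K e) (hV : V ⊆ W) {mu : ℝ} (hmu : mu * W.card ≤ V.card)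
    (he : 2 * e ≤ mu) [DecidableEq X] : mu / 2 * K.card ≤ (V ∩ K).card := by
  have h1 : (V.card : ℝ) ≤ (V ∩ K).card + ((W.card : ℝ) - K.card) := by
    have h2 : V ⊆ (V ∩ K) ∪ (W \ K) := by
      intro x hx
      by_cases hk : x ∈ K
      · exact Finset.mem_union_left _ (Finset.mem_inter.2 ⟨hx, hk⟩)
      · exact Finset.mem_union_right _ (Finset.mem_sdiff.2 ⟨hV hx, hk⟩)
    have h3 := (Finset.card_le_card h2).trans (Finset.card_union_le _ _)
    have h4 : ((W \ K).card : ℝ) = (W.card : ℝ) - K.card := by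
      rw [Finset.card_sdiff_of_subset hs.sub, Nat.cast_sub (Finset.card_le_card hs.sub)]
    have h5 : (V.card : ℝ) ≤ ((V ∩ K).card : ℝ) + ((W \ K).card : ℝ) := by exact_mod_cast h3
    rw [h4] at h5
    exact h5
  have hK : (K.card : ℝ) ≤ W.card := by exact_mod_cast Finset.card_le_card hs.sub
  have hmu0 : 0 ≤ mu := by have := hs.e_nn; linarith
  have h6 := mul_le_mul_of_nonneg_left hK hmu0
  have h7 := hs.card
  have hK0 : (0 : ℝ) ≤ K.card := Nat.cast_nonneg _
  have h8 := mul_le_mul_of_nonneg_right he hK0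
  linarith

/-- closeness (Hellinger) of the letter `F` in a part `V` of the class `W`, averages over a half of `C` -/
theorem close_half (H : Hy W K C kg kg' sig e kap al) {V : Finset X} {C' : Finset γ} (hV : V ⊆ W) {mu : ℝ}
    (hmu0 : 0 < mu) (hmu : mu * W.card ≤ V.card) (he : 2 * e ≤ mu) (hC : C' ⊆ C) (hC2 : (C.card : ℝ) ≤ 2 * C'.card)
    {kf : X → φ → ℝ} (hkf : Th W kf al) {F : φ} (hF : law V kf F ≠ 0) :
    avg C' (fun c => hf (RB.cl V kf (fun x => kg x c) F) (law V fun x => kg x c)) ≤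
      8 * cb sig e kap al (al * mu / 2) := by
  classical
  have hWne : W.Nonempty := H.sub.ne.mono H.sub.sub
  have hKc : (0 : ℝ) < K.card := by exact_mod_cast H.sub.ne.card_pos
  have hVK := part_card H.sub hV hmu he
  have hVne : V.Nonempty := by
    have h1 : (0 : ℝ) < (V ∩ K).card := lt_of_lt_of_le (by positivity) hVK
    have h2 : (V ∩ K).Nonempty := Finset.card_pos.1 (by exact_mod_cast h1)
    exact h2.mono Finset.inter_subset_left
  have h1 : ∀ x ∈ W, al ≤ kf x F := by
    rcases hkf.wl_alt hV (w := fun _ => 1) (fun _ _ => zero_le_one) (one_sum hVne) F with ⟨_, a2⟩ | ⟨a1, _⟩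
    · rw [wl_one] at a2; exact absurd a2 hF
    · exact a1
  have hal := H.al0
  have hal1 := H.al1
  -- the two weights
  set w1 : X → ℝ := fun x => if x ∈ V then kf x F else 0 with hw1
  set w2 : X → ℝ := fun x => if x ∈ V then (1 : ℝ) else 0 with hw2
  have s2 : mu / 2 * K.card ≤ ∑ x ∈ K, w2 x := by
    rw [hw2]
    simp only
    rw [← Finset.sum_filter, Finset.sum_const, nsmul_eq_mul, mul_one]
    refine hVK.trans ?_
    exact_mod_cast Finset.card_le_card fun x hx => by
      rw [Finset.mem_inter] at hx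
      exact Finset.mem_filter.2 ⟨hx.2, hx.1⟩
  have s1 : al * mu / 2 * K.card ≤ ∑ x ∈ K, w1 x := by
    have h3 : al * ∑ x ∈ K, w2 x ≤ ∑ x ∈ K, w1 x := by
      rw [Finset.mul_sum]
      refine Finset.sum_le_sum fun x hx => ?_
      rw [hw1, hw2]
      simp only
      split_ifs
      · rw [mul_one]; exact h1 x (H.sub.sub hx)
      · rw [mul_zero]
    have h4 := mul_le_mul_of_nonneg_left s2 hal.le
    linarith
  have c1 := close_w H (w := w1) (m := al * mu / 2) (fun x hx => by
      rw [hw1]; simp only; split_ifs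
      · exact hkf.nn x hx F
      · exact le_rfl) (fun x hx => by
      rw [hw1]; simp only; split_ifs
      · exact hkf.le_one hx F
      · exact zero_le_one) (by positivity) s1
  have c2 := close_w H (w := w2) (m := mu / 2) (fun x hx => by
      rw [hw2]; simp only; split_ifs
      · exact zero_le_one
      · exact le_rfl) (fun x hx => by
      rw [hw2]; simp only; split_ifs
      · exact le_rfl
      · exact zero_le_one) (by positivity) s2
  have hcb : cb sig e kap al (mu / 2) ≤ cb sig e kap al (al * mu / 2) := by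
    have hl : 0 ≤ Real.log (1 / al) := Real.log_nonneg (by rw [le_div_iff₀ hal, one_mul]; exact hal1)
    have hmm : al * mu / 2 ≤ mu / 2 := by
      have := mul_le_mul_of_nonneg_right hal1 hmu0.le
      linarith
    have g1 : Real.log (1 / (mu / 2)) ≤ Real.log (1 / (al * mu / 2)) := by
      refine Real.log_le_log (by positivity) ?_
      exact one_div_le_one_div_of_le (by positivity) hmm
    have g2 : e / (al * (mu / 2)) ≤ e / (al * (al * mu / 2)) := by
      refine div_le_div_of_nonneg_left H.sub.e_nn (by positivity) ?_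
      exact mul_le_mul_of_nonneg_left hmm hal.le
    unfold cb
    have g3 := mul_le_mul_of_nonneg_left g1 H.sig0
    have g4 := mul_le_mul_of_nonneg_right g2 (by linarith : 0 ≤ Real.log (1 / al) + 1)
    linarith
  have hw1p : 0 < ∑ x ∈ W, w1 x := by
    refine lt_of_lt_of_le (lt_of_lt_of_le (by positivity) s1) ?_
    refine Finset.sum_le_sum_of_subset_of_nonneg H.sub.sub fun x hx _ => ?_
    rw [hw1]; simp only; split_ifs
    · exact hkf.nn x hx F
    · exact le_rfl
  have hw2p : 0 < ∑ x ∈ W, w2 x := by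
    refine lt_of_lt_of_le (lt_of_lt_of_le (by positivity) s2) ?_
    refine Finset.sum_le_sum_of_subset_of_nonneg H.sub.sub fun x hx _ => ?_
    rw [hw2]; simp only; split_ifs
    · exact zero_le_one
    · exact le_rfl
  have hw10 : ∀ x ∈ W, 0 ≤ w1 x := fun x hx => by
    rw [hw1]; simp only; split_ifs
    · exact hkf.nn x hx F
    · exact le_rfl
  have hw20 : ∀ x ∈ W, 0 ≤ w2 x := fun x hx => by
    rw [hw2]; simp only; split_ifs
    · exact zero_le_one
    · exact le_rfl
  have hpt : ∀ c ∈ C, hf (RB.cl V kf (fun x => kg x c) F) (law V fun x => kg x c) ≤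
      2 * klf (wl W w1 fun x => kg x c) (law W fun x => kg x c) +
        2 * klf (wl W w2 fun x => kg x c) (law W fun x => kg x c) := by
    intro c hc
    have hT := H.th c hc
    have e1 : RB.cl V kf (fun x => kg x c) F = wl W w1 fun x => kg x c := by
      rw [← wl_cl, hw1, wl_restrict hV]
    have e2 : law V (fun x => kg x c) = wl W w2 fun x => kg x c := by
      rw [← wl_one, hw2, wl_restrict hV]
    rw [e1, e2, ← wl_one W]
    have b1 := fun G => hT.alt2 (Finset.Subset.refl W) (Finset.Subset.refl W) hw10 hw1p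
      (fun _ _ => zero_le_one) (one_sum hWne) G
    have b2 := fun G => hT.alt2 (Finset.Subset.refl W) (Finset.Subset.refl W) hw20 hw2p
      (fun _ _ => zero_le_one) (one_sum hWne) G
    have q0 := fun G => wl_nn (w := fun _ : X => (1 : ℝ)) (fun _ _ => zero_le_one) (fun x hx => hT.nn x hx) G
    have q1 := wl_sum (w := fun _ : X => (1 : ℝ)) (fun x hx => hT.one x hx) (one_sum hWne)
    have t1 := hf_le_klf H.al0 q0 b1 (wl_sum (fun x hx => hT.one x hx) hw1p) q1
    have t2 := hf_le_klf H.al0 q0 b2 (wl_sum (fun x hx => hT.one x hx) hw2p) q1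
    have t3 := hf_tri H.al0 b1 b2
    linarith
  have hnn : ∀ c ∈ C, 0 ≤ hf (RB.cl V kf (fun x => kg x c) F) (law V fun x => kg x c) := by
    intro c hc
    have hT := H.th c hc
    refine hf_nn fun G => ?_
    rw [← wl_one V]
    exact wl_nn (fun _ _ => zero_le_one) (fun x hx => hT.nn x (hV hx)) G
  refine (avg_half hC hC2 hnn).trans ?_
  have h5 := avg_mono_on hpt
  have e3 : avg C (fun c => 2 * klf (wl W w1 fun x => kg x c) (law W fun x => kg x c) +
        2 * klf (wl W w2 fun x => kg x c) (law W fun x => kg x c)) =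
      2 * avg C (fun c => klf (wl W w1 fun x => kg x c) (law W fun x => kg x c)) +
      2 * avg C (fun c => klf (wl W w2 fun x => kg x c) (law W fun x => kg x c)) := by
    unfold avg
    rw [Finset.sum_add_distrib, ← Finset.mul_sum, ← Finset.mul_sum, add_div, mul_div_assoc, mul_div_assoc]
  rw [e3] at h5
  linarith

end hel

section row

variable [Fintype φ]
variable {W K V0 : Finset X} {C : Finset γ} {kg : X → γ → φ → ℝ} {sig e al : ℝ}

/-- table of a pair of labels on the class `V` -/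
def tb (V : Finset X) (kf kg : X → φ → ℝ) (F G : φ) : ℝ := avg V fun x => kf x F * kg x G

theorem tb_sum_r {V : Finset X} {kf kg : X → φ → ℝ} (hg : ∀ x ∈ V, ∑ G, kg x G = 1) (F : φ) :
    ∑ G, tb V kf kg F G = law V kf F := by
  unfold tb law avg
  rw [← Finset.sum_div, Finset.sum_comm]
  congr 1
  refine Finset.sum_congr rfl fun x hx => ?_
  rw [← Finset.mul_sum, hg x hx, mul_one]

theorem tb_sum_l {V : Finset X} {kf kg : X → φ → ℝ} (hf : ∀ x ∈ V, ∑ F, kf x F = 1) (G : φ) :
    ∑ F, tb V kf kg F G = law V kg G := by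
  unfold tb law avg
  rw [← Finset.sum_div, Finset.sum_comm]
  congr 1
  refine Finset.sum_congr rfl fun x hx => ?_
  rw [← Finset.sum_mul, hf x hx, one_mul]

/-- an entry of a table is zero or at least `al^2`, simultaneously for all classes -/
theorem tb_alt {kf kg : X → φ → ℝ} (hf : Th V0 kf al) (hg : Th V0 kg al) {V : Finset X} (hV : V ⊆ V0)
    (hne : V.Nonempty) (F G : φ) :
    ((∀ x ∈ V0, kf x F * kg x G = 0) ∧ tb V kf kg F G = 0) ∨
      ((∀ x ∈ V0, al ^ 2 ≤ kf x F * kg x G) ∧ al ^ 2 ≤ tb V kf kg F G) := by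
  have hVc : (0 : ℝ) < V.card := by exact_mod_cast hne.card_pos
  by_cases hz : ∀ x ∈ V0, kf x F * kg x G = 0
  · left
    refine ⟨hz, ?_⟩
    unfold tb avg
    rw [Finset.sum_eq_zero (fun x hx => hz x (hV hx)), zero_div]
  · right
    push Not at hz
    obtain ⟨x0, hx0, h0⟩ := hz
    have h1 : ∀ x ∈ V0, al ^ 2 ≤ kf x F * kg x G := by
      intro x hx
      have a1 := hf.thick x0 hx0 x hx F (left_ne_zero_of_mul h0)
      have a2 := hg.thick x0 hx0 x hx G (right_ne_zero_of_mul h0)
      rw [pow_two]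
      exact mul_le_mul a1 a2 hf.pos.le (hf.pos.le.trans a1)
    refine ⟨h1, ?_⟩
    unfold tb avg
    rw [le_div_iff₀ hVc]
    calc al ^ 2 * V.card = ∑ x ∈ V, al ^ 2 := by rw [Finset.sum_const, nsmul_eq_mul, mul_comm]
      _ ≤ _ := Finset.sum_le_sum fun x hx => h1 x (hV hx)

/-- factor between two tables with close entries -/
theorem tb_fac {kf kg : X → φ → ℝ} (hf : Th V0 kf al) (hg : Th V0 kg al) {V V' : Finset X} (hV : V ⊆ V0)
    (hne : V.Nonempty) (hV' : V' ⊆ V0) (hne' : V'.Nonempty) {k1 : ℝ}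
    (h : ∀ F G, |tb V kf kg F G - tb V' kf kg F G| ≤ k1) (F G : φ) :
    tb V kf kg F G ≤ (1 + k1 / al ^ 2) * tb V' kf kg F G := by
  have hk1 : 0 ≤ k1 := (abs_nonneg _).trans (h F G)
  have hal2 : 0 < al ^ 2 := pow_pos hf.pos 2
  rcases tb_alt hf hg hV hne F G with ⟨a1, a2⟩ | ⟨a1, a2⟩
  · rcases tb_alt hf hg hV' hne' F G with ⟨b1, b2⟩ | ⟨b1, b2⟩
    · rw [a2, b2, mul_zero]
    · rw [a2]
      exact mul_nonneg (by positivity) (hal2.le.trans b2)
  · rcases tb_alt hf hg hV' hne' F G with ⟨b1, b2⟩ | ⟨b1, b2⟩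
    · obtain ⟨x, hx⟩ := hne
      have := a1 x (hV hx)
      rw [b1 x (hV hx)] at this
      exact absurd this (not_le.2 hal2)
    · have h1 := (abs_le.1 (h F G)).2
      have h2 : k1 ≤ k1 / al ^ 2 * tb V' kf kg F G := by
        calc k1 = k1 / al ^ 2 * al ^ 2 := (div_mul_cancel₀ _ hal2.ne').symm
          _ ≤ _ := mul_le_mul_of_nonneg_left b2 (div_nonneg hk1 hal2.le)
      linarith

/-- entropy of a row: from the tables of the start to the tables of a class with close entries -/
theorem klf_row {kf kg : X → φ → ℝ} (hf : Th V0 kf al) (hg : Th V0 kg al) (hW : W ⊆ V0)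
    (hne : W.Nonempty) {k1 : ℝ} (h1 : k1 ≤ al ^ 2)
    (h : ∀ F G, |tb W kf kg F G - tb V0 kf kg F G| ≤ k1) {F : φ} (hF : law V0 kf F ≠ 0) :
    klf (RB.cl V0 kf kg F) (law V0 kg) ≤ klf (RB.cl W kf kg F) (law W kg) +
      6 * (k1 / al ^ 2) * (Real.log (1 / al) + 1) := by
  have hne0 : V0.Nonempty := hne.mono hW
  have hal2 : 0 < al ^ 2 := pow_pos hf.pos 2
  obtain ⟨x0, hx0⟩ := hne
  have hk1 : 0 ≤ k1 := (abs_nonneg _).trans (h F F)
  set r := k1 / al ^ 2 with hr
  have hr0 : 0 ≤ r := div_nonneg hk1 hal2.le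
  have hr1 : r ≤ 1 := by rw [hr, div_le_one hal2]; exact h1
  have hne : W.Nonempty := ⟨x0, hx0⟩
  have h' : ∀ F G, |tb V0 kf kg F G - tb W kf kg F G| ≤ k1 := fun F G => by rw [abs_sub_comm]; exact h F G
  have f1 := tb_fac hf hg hW hne (Finset.Subset.refl V0) hne0 h
  have f2 := tb_fac hf hg (Finset.Subset.refl V0) hne0 hW hne h'
  have hfs : ∀ V ⊆ V0, ∀ x ∈ V, ∑ F, kf x F = 1 := fun V hV x hx => hf.one x (hV hx)
  have hgs : ∀ V ⊆ V0, ∀ x ∈ V, ∑ G, kg x G = 1 := fun V hV x hx => hg.one x (hV hx)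
  -- marginals
  have m1 : ∀ F, law W kf F ≤ (1 + r) * law V0 kf F := fun F => by
    rw [← tb_sum_r (hgs W hW), ← tb_sum_r (hgs V0 (Finset.Subset.refl V0)), Finset.mul_sum]
    exact Finset.sum_le_sum fun G _ => f1 F G
  have m2 : ∀ F, law V0 kf F ≤ (1 + r) * law W kf F := fun F => by
    rw [← tb_sum_r (hgs W hW), ← tb_sum_r (hgs V0 (Finset.Subset.refl V0)), Finset.mul_sum]
    exact Finset.sum_le_sum fun G _ => f2 F G
  have m4 : ∀ G, law W kg G ≤ (1 + r) * law V0 kg G := fun G => by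
    rw [← tb_sum_l (hfs W hW), ← tb_sum_l (hfs V0 (Finset.Subset.refl V0)), Finset.mul_sum]
    exact Finset.sum_le_sum fun F _ => f1 F G
  have a0 := hf.wl_alt (Finset.Subset.refl V0) (w := fun _ => 1) (fun _ _ => zero_le_one) (one_sum hne0) F
  have a3 : ∀ x ∈ V0, al ≤ kf x F := by
    rcases a0 with ⟨_, a2⟩ | ⟨a1, _⟩
    · rw [wl_one] at a2; exact absurd a2 hF
    · exact a1
  have pos0 : 0 < law V0 kf F := by
    rcases a0 with ⟨_, a2⟩ | ⟨_, a2⟩
    · rw [wl_one] at a2; exact absurd a2 hF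
    · rw [wl_one] at a2; exact hf.pos.trans_le a2
  have posW : 0 < law W kf F := by
    by_contra hc
    have h5 := m2 F
    have h6 : (1 + r) * law W kf F ≤ 0 := mul_nonpos_of_nonneg_of_nonpos (by linarith) (not_lt.1 hc)
    linarith
  have hws : ∀ V ⊆ V0, V.Nonempty → 0 < ∑ x ∈ V, kf x F := fun V hV hVne => by
    have h5 : (0 : ℝ) < V.card := by exact_mod_cast hVne.card_pos
    calc (0 : ℝ) < al * V.card := mul_pos hf.pos h5
      _ = ∑ x ∈ V, al := by rw [Finset.sum_const, nsmul_eq_mul, mul_comm]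
      _ ≤ _ := Finset.sum_le_sum fun x hx => a3 x (hV hx)
  have hw0 : ∀ V ⊆ V0, ∀ x ∈ V, 0 ≤ kf x F := fun V hV x hx => hf.nn x (hV hx) F
  -- rows
  have hr3 : (1 + r) ^ 2 ≤ 1 + 3 * r := by nlinarith
  have r1 : ∀ G, RB.cl V0 kf kg F G ≤ (1 + 3 * r) * RB.cl W kf kg F G := by
    intro G
    have h5 : 0 ≤ tb W kf kg F G := by
      rcases tb_alt hf hg hW hne F G with ⟨_, a2⟩ | ⟨_, a2⟩
      · rw [a2]
      · exact hal2.le.trans a2
    unfold RB.cl
    change tb V0 kf kg F G / law V0 kf F ≤ (1 + 3 * r) * (tb W kf kg F G / law W kf F)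
    rw [div_le_iff₀ pos0]
    have h6 : (1 + 3 * r) * (tb W kf kg F G / law W kf F) * law V0 kf F =
        (1 + 3 * r) * tb W kf kg F G * (law V0 kf F / law W kf F) := by ring
    rw [h6]
    have h7 : 1 / (1 + r) ≤ law V0 kf F / law W kf F := by
      rw [div_le_div_iff₀ (by linarith) posW, one_mul, mul_comm]
      exact m1 F
    calc tb V0 kf kg F G ≤ (1 + r) * tb W kf kg F G := f2 F G
      _ = (1 + r) ^ 2 * tb W kf kg F G * (1 / (1 + r)) := by field_simp
      _ ≤ (1 + 3 * r) * tb W kf kg F G * (1 / (1 + r)) :=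
          mul_le_mul_of_nonneg_right (mul_le_mul_of_nonneg_right hr3 h5) (by positivity)
      _ ≤ _ := mul_le_mul_of_nonneg_left h7 (mul_nonneg (by linarith) h5)
  have r2 : ∀ G, RB.cl W kf kg F G ≤ (1 + 3 * r) * RB.cl V0 kf kg F G := by
    intro G
    have h5 : 0 ≤ tb V0 kf kg F G := by
      rcases tb_alt hf hg (Finset.Subset.refl V0) hne0 F G with ⟨_, a2⟩ | ⟨_, a2⟩
      · rw [a2]
      · exact hal2.le.trans a2
    unfold RB.cl
    change tb W kf kg F G / law W kf F ≤ (1 + 3 * r) * (tb V0 kf kg F G / law V0 kf F)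
    rw [div_le_iff₀ posW]
    have h6 : (1 + 3 * r) * (tb V0 kf kg F G / law V0 kf F) * law W kf F =
        (1 + 3 * r) * tb V0 kf kg F G * (law W kf F / law V0 kf F) := by ring
    rw [h6]
    have h7 : 1 / (1 + r) ≤ law W kf F / law V0 kf F := by
      rw [div_le_div_iff₀ (by linarith) pos0, one_mul, mul_comm]
      exact m2 F
    calc tb W kf kg F G ≤ (1 + r) * tb V0 kf kg F G := f1 F G
      _ = (1 + r) ^ 2 * tb V0 kf kg F G * (1 / (1 + r)) := by field_simp
      _ ≤ (1 + 3 * r) * tb V0 kf kg F G * (1 / (1 + r)) :=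
          mul_le_mul_of_nonneg_right (mul_le_mul_of_nonneg_right hr3 h5) (by positivity)
      _ ≤ _ := mul_le_mul_of_nonneg_left h7 (mul_nonneg (by linarith) h5)
  have key := klf_stab (p := RB.cl W kf kg F) (q := law W kg) (p' := RB.cl V0 kf kg F) (q' := law V0 kg)
    (al := al) (ρ := 3 * r) hf.pos (by linarith)
    (fun G => by rw [← wl_one W]; exact hg.wl_le_one hW (fun _ _ => zero_le_one) (one_sum hne) G)
    (fun G => by rw [← wl_cl]; exact hg.wl_le_one hW (hw0 W hW) (hws W hW hne) G)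
    (fun G => by
      rw [← wl_cl, ← wl_one W]
      exact hg.alt2 hW hW (hw0 W hW) (hws W hW hne) (fun _ _ => zero_le_one) (one_sum hne) G)
    (by rw [← wl_cl]; exact wl_sum (fun x hx => hg.one x (hW hx)) (hws W hW hne))
    (by rw [← wl_cl]; exact wl_sum (fun x hx => hg.one x hx) (hws V0 (Finset.Subset.refl V0) hne0))
    (fun G => by
      rw [← wl_cl]
      exact wl_nn (hw0 V0 (Finset.Subset.refl V0)) (fun x hx => hg.nn x hx) G)
    r1 r2 (fun G => (m4 G).trans (mul_le_mul_of_nonneg_right (by linarith) (by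
      rw [← wl_one V0]
      exact wl_nn (fun _ _ => zero_le_one) (fun x hx => hg.nn x hx) G)))
  linarith

/-- ROW ENTROPY: tables of the start `V0`, points unchanged in the class `W` -/
theorem row_ent {kf : X → φ → ℝ} (H : Hy W K C kg kg sig e 0 al) (hf : Th V0 kf al)
    (hg : ∀ c ∈ C, Th V0 (fun x => kg x c) al) (hW : W ⊆ V0) {k1 : ℝ} (h1 : k1 ≤ al ^ 2) (hk1 : 0 ≤ k1)
    {good : γ → Prop} (h : ∀ c ∈ C, good c → ∀ F G,
      |tb W kf (fun x => kg x c) F G - tb V0 kf (fun x => kg x c) F G| ≤ k1) {F : φ} (hF : law V0 kf F ≠ 0) :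
    avg C (fun c => ind (good c) * klf (RB.cl V0 kf (fun x => kg x c) F) (law V0 fun x => kg x c)) ≤
      cb sig e 0 al al + 6 * (k1 / al ^ 2) * (Real.log (1 / al) + 1) := by
  have hne : W.Nonempty := H.sub.ne.mono H.sub.sub
  have hne0 : V0.Nonempty := hne.mono hW
  have hal2 : 0 < al ^ 2 := pow_pos hf.pos 2
  have hl : 0 ≤ Real.log (1 / al) := Real.log_nonneg (by rw [le_div_iff₀ H.al0, one_mul]; exact H.al1)
  have hFW : law W kf F ≠ 0 := by
    have a3 : ∀ x ∈ V0, al ≤ kf x F := by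
      rcases hf.wl_alt (Finset.Subset.refl V0) (w := fun _ => 1) (fun _ _ => zero_le_one) (one_sum hne0) F with
        ⟨_, a2⟩ | ⟨a1, _⟩
      · rw [wl_one] at a2; exact absurd a2 hF
      · exact a1
    rcases hf.wl_alt hW (w := fun _ => 1) (fun _ _ => zero_le_one) (one_sum hne) F with ⟨a1, _⟩ | ⟨_, a2⟩
    · obtain ⟨x, hx⟩ := hne0
      have := a3 x hx
      rw [a1 x hx] at this
      exact absurd this (not_le.2 hf.pos)
    · rw [wl_one] at a2
      exact (hf.pos.trans_le a2).ne'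
  have hcl := close_cl H (hf.mono hW) hFW
  have hpt : ∀ c ∈ C, ind (good c) * klf (RB.cl V0 kf (fun x => kg x c) F) (law V0 fun x => kg x c) ≤
      klf (RB.cl W kf (fun x => kg x c) F) (law W fun x => kg x c) + 6 * (k1 / al ^ 2) * (Real.log (1 / al) + 1) := by
    intro c hc
    have hn : 0 ≤ klf (RB.cl W kf (fun x => kg x c) F) (law W fun x => kg x c) := by
      have hws : 0 < ∑ x ∈ W, kf x F := by
        have h5 : (0 : ℝ) < W.card := by exact_mod_cast hne.card_pos
        by_contra hc'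
        have h6 : law W kf F ≤ 0 := div_nonpos_of_nonpos_of_nonneg (not_lt.1 hc') (Nat.cast_nonneg _)
        have h7 : 0 ≤ law W kf F :=
          div_nonneg (Finset.sum_nonneg fun x hx => hf.nn x (hW hx) F) (Nat.cast_nonneg _)
        exact hFW (le_antisymm h6 h7)
      have hT := H.th c hc
      rw [← wl_cl, ← wl_one W]
      exact klf_nn H.al0 (fun G => wl_nn (fun _ _ => zero_le_one) (fun x hx => hT.nn x hx) G)
        (fun G => hT.alt2 (Finset.Subset.refl W) (Finset.Subset.refl W) (fun x hx => hf.nn x (hW hx) F) hws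
          (fun _ _ => zero_le_one) (one_sum hne) G) (wl_sum (fun x hx => hT.one x hx) hws)
        (wl_sum (fun x hx => hT.one x hx) (one_sum hne))
    by_cases hgd : good c
    · rw [ind_of hgd, one_mul]
      exact klf_row hf (hg c hc) hW hne h1 (h c hc hgd) hF
    · rw [ind_not hgd, zero_mul]
      have : 0 ≤ 6 * (k1 / al ^ 2) * (Real.log (1 / al) + 1) := by positivity
      linarith
  refine (avg_mono_on hpt).trans ?_
  have e3 : avg C (fun c => klf (RB.cl W kf (fun x => kg x c) F) (law W fun x => kg x c) +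
      6 * (k1 / al ^ 2) * (Real.log (1 / al) + 1)) ≤
      avg C (fun c => klf (RB.cl W kf (fun x => kg x c) F) (law W fun x => kg x c)) +
      6 * (k1 / al ^ 2) * (Real.log (1 / al) + 1) := by
    unfold avg
    rw [Finset.sum_add_distrib, add_div, Finset.sum_const, nsmul_eq_mul]
    rcases C.eq_empty_or_nonempty with h | h
    · rw [h]
      simp only [Finset.card_empty, Nat.cast_zero, zero_mul, div_zero]
      have : 0 ≤ 6 * (k1 / al ^ 2) * (Real.log (1 / al) + 1) := by positivity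
      linarith
    · have : (C.card : ℝ) ≠ 0 := by exact_mod_cast h.card_pos.ne'
      rw [mul_div_cancel_left₀ _ this]
  linarith

end row

end CL

end

end Pool.Agent.M3.S3
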