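import Pool.Agent.M3.S3B.Phi
import Pool.Agent.M3.S3B.Tests
import Pool.Agent.M3.S3.CntChg

/-!
# M3.S3B.Cnt: the number of epochs (note 3448 (3); helper48)

`R = mkRt Rm Up N dg K`, `e = R.ep s`; the epoch ends in the step from `s` to `s+1`.
* `U_PV`, `hf_PV`, `hf_pubx`, `pubx`, `pubc` : the classes and the half step classes are public;
* `upd_path` : the updates of the true pair in different epochs are different;
* `prc` : the process with the frozen kernels is a `Prc`; `E3_test` : a test by the mean over the cells of the known points;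
* `cnt1` : test (i), `kap2 ∑ E 1[T1] ≤ 2J + (1+2J)/kap1²`; `cnt2` : test (ii), `eps3 ∑ E 1[T2] ≤ bits`;
* `E3_varTest` : a test by the one step variance; `cnt4` : test (iv), `cnt5` : test (v), variance part;
* `cnt_TT` : THE NUMBER OF EPOCHS (ends by the tests (i), (ii), (iv), (v)); `cnt_start` : the number of starts;
* `cnt_TT'`, `cnt_nw`, `cnt_epochs` : the same with the digits of the times `< K` only.
-/

set_option autoImplicit false
set_option linter.unusedSectionVars false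
set_option linter.unusedVariables false

namespace Pool.Agent.M3.S3B

open Finset Pool.Agent.PWZ Pool.Agent.M3 Pool.Agent.M3.S3

noncomputable section

variable {X β γ ι φ : Type*} [Fintype X] [Fintype β] [Fintype γ] [Fintype φ] {D : Dat X β γ ι φ}

namespace Rt

variable (R : Rt D)

/-- expected number of bits of the classes -/
def bits (K : ℕ) : ℝ :=
  ∑ s ∈ range K, E3 fun x b c => Real.log (((R.hf s x b c).card : ℝ) / (R.U (s + 1) x b c).card)

/-- the epoch of the point ends in the step from `s` to `s+1` -/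
def nw (s : ℕ) (x : X) (b : β) (c : γ) : Prop := R.tt (R.ep s x b c) (s + 1) x b c

theorem pubx {s : ℕ} {x y : X} {b : β} {c : γ} (hy : y ∈ R.U s x b c) :
    R.ep s y b c = R.ep s x b c ∧ R.U s y b c = R.U s x b c :=
  R.pub s ⟨(D.mem_cA.1 (R.U_sub s x b c hy)).symm, rfl, rfl⟩ hy

theorem pubc {s : ℕ} {x : X} {b b' : β} {c c' : γ} (hb : D.qb s b' = D.qb s b) (hc : D.qc s c' = D.qc s c) :
    R.ep s x b' c' = R.ep s x b c ∧ R.U s x b' c' = R.U s x b c :=
  R.pub s ⟨rfl, hb.symm, hc.symm⟩ (R.self_U s x b c)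

theorem U_PV (s : ℕ) : PV (R.U s) := fun b c => ⟨fun x => R.self_U s x b c, fun _ _ hx => (R.pubx hx).2⟩

theorem hf_qa {s : ℕ} {x y : X} {b : β} {c : γ} (hy : y ∈ R.hf s x b c) : D.qa (s + 1) y = D.qa (s + 1) x :=
  D.mem_cA.1 (R.hf_sub s x b c hy)

theorem hf_pubx {s : ℕ} {x y : X} {b : β} {c : γ} (hy : y ∈ R.hf s x b c) :
    R.ep s y b c = R.ep s x b c ∧ R.hf s y b c = R.hf s x b c := by
  have h1 := R.pubx (R.hf_sub_U s x b c hy)
  refine ⟨h1.1, ?_⟩
  unfold hf
  rw [h1.1]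
  exact W_congr (R.hf_qa hy)

theorem hf_PV (s : ℕ) : PV (R.hf s) := fun b c => ⟨fun x => R.self_hf s x b c, fun _ _ hx => (R.hf_pubx hx).2⟩

theorem nw_pub {s : ℕ} {x y : X} {b : β} {c : γ} (hy : y ∈ R.hf s x b c) : R.nw s y b c ↔ R.nw s x b c := by
  unfold nw
  rw [(R.hf_pubx hy).1]
  exact (R.tt_q (R.ep s x b c) (s + 1) x b c y b c ((R.t0_le s x b c).trans (Nat.le_succ s))
    ⟨(R.hf_qa hy).symm, rfl, rfl⟩).symm

/-- the updates of the true pair in different epochs are different -/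
theorem upd_path {Up : Upd D} {K : ℕ} {J : ℝ} (hU : UpdOk D Up K J) (x : X) (b : β) (c : γ) (m : ℕ) :
    ∑ s ∈ range m, ind (R.nw s x b c ∧ upd Up (R.ep s x b c) (s + 1) x b c b c) +
      ind (upd Up (R.ep m x b c) m x b c b c) ≤ ∑ s ∈ range m, du Up s x b c := by
  induction m with
  | zero =>
    have h0 := R.t0_le 0 x b c
    rw [ind_not (upd_start (by omega) x b c)]
    simp
  | succ m ih =>
    rw [Finset.sum_range_succ, Finset.sum_range_succ]
    have h1 := upd_step hU (R.ep m x b c) m x b c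
    by_cases hn : R.nw m x b c
    · have h2 : (R.ep (m + 1) x b c).t0 = m + 1 := by rw [R.ep_new hn]
      rw [ind_not (upd_start h2 x b c)]
      have h3 : ind (R.nw m x b c ∧ upd Up (R.ep m x b c) (m + 1) x b c b c) ≤
          ind (upd Up (R.ep m x b c) m x b c b c ∨ upd Up (R.ep m x b c) (m + 1) x b c b c) :=
        ind_mono fun h => Or.inr h.2
      linarith
    · rw [ind_not (fun h => hn h.1), R.ep_old hn]
      have h3 : ind (upd Up (R.ep m x b c) (m + 1) x b c b c) ≤
          ind (upd Up (R.ep m x b c) m x b c b c ∨ upd Up (R.ep m x b c) (m + 1) x b c b c) := ind_mono Or.inr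
      linarith

/-- mean number of the epochs which end after an update of the true pair -/
theorem sum_upd {Up : Upd D} {K : ℕ} {J : ℝ} (hU : UpdOk D Up K J) (hJ : 0 ≤ J) :
    ∑ s ∈ range K, E3 (fun x b c => ind (R.nw s x b c ∧ upd Up (R.ep s x b c) (s + 1) x b c b c)) ≤ 2 * J := by
  rw [← E3_finsum]
  refine E3_le_const (by linarith) fun x b c => ?_
  have h1 := R.upd_path hU x b c K
  have h2 := sum_du hU x b c
  have h3 := ind_nonneg (upd Up (R.ep K x b c) K x b c b c)
  linarith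

/-- the kernel frozen in the epoch of the time `t` -/
def kq (t : ℕ) (x : X) (b : β) (c : γ) : X → φ × φ → ℝ := kk D (R.ep t x b c).t0 b c

/-- the law at the start of the epoch of the time `t` -/
def pq (t : ℕ) (x : X) (b : β) (c : γ) : φ × φ → ℝ := lw (kk D (R.ep t x b c).t0 b c) (R.ep t x b c).om0

/-- the law of the epoch of the time `t` was far from the start at a time `≤ t` -/
def far (eta : ℝ) (t : ℕ) (x : X) (b : β) (c : γ) : Prop :=
  ∃ r, (R.ep t x b c).t0 ≤ r ∧ r ≤ t ∧ ∃ F, eta < |lw (R.kq t x b c) (W D (R.ep t x b c) r x) F - R.pq t x b c F|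

theorem prc : Prc R.U R.hf R.nw R.kq R.pq where
  pv := R.U_PV
  ph := R.hf_PV
  hv := R.hf_sub_U
  vh := R.U_sub_hf
  h_q t x b c x' hx := by
    unfold kq
    rw [(R.pubx hx).1]
  p_q t x b c x' hx := by
    unfold pq
    rw [(R.pubx hx).1]
  keep t x b c hn := by
    have h1 := R.ep_old hn
    refine ⟨R.U_keep hn, ?_, ?_⟩
    · unfold kq
      rw [h1]
    · unfold pq
      rw [h1]
  start t x b c hn := by
    have h1 : (R.ep (t + 1) x b c).t0 = t + 1 := by rw [R.ep_new hn]
    have h2 := R.U_start h1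
    rw [h2]
    rfl

theorem lw_start {s : ℕ} {x : X} {b : β} {c : γ} (h : (R.ep s x b c).t0 = s) (F : φ × φ) :
    lw (R.kq s x b c) (W D (R.ep s x b c) s x) F - R.pq s x b c F = 0 := by
  have h1 : W D (R.ep s x b c) s x = (R.ep s x b c).om0 := R.U_start h
  rw [h1]
  unfold kq pq
  rw [sub_self]

theorem not_far_start {eta : ℝ} (he : 0 ≤ eta) {s : ℕ} {x : X} {b : β} {c : γ} (h : (R.ep s x b c).t0 = s) :
    ¬ R.far eta s x b c := by
  rintro ⟨r, h1, h2, F, h3⟩
  have h4 : r = s := by omega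
  subst h4
  rw [R.lw_start h F, abs_zero] at h3
  exact absurd h3 (not_lt.2 he)

theorem far_q {eta : ℝ} {t : ℕ} {x x' : X} {b : β} {c : γ} (hx : x' ∈ R.U t x b c) :
    R.far eta t x' b c ↔ R.far eta t x b c := by
  have h1 := (R.pubx hx).1
  have h2 := D.mem_cA.1 (R.U_sub t x b c hx)
  unfold far kq pq
  rw [h1]
  refine exists_congr fun r => and_congr_right fun h3 => and_congr_right fun h4 => ?_
  rw [W_congr (D.qa_le h4 h2)]

theorem far_keep {eta : ℝ} {t : ℕ} {x : X} {b : β} {c : γ} (hn : ¬ R.nw t x b c) :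
    R.far eta (t + 1) x b c ↔ R.far eta t x b c ∨
      ∃ F, eta < |lw (R.kq t x b c) (R.hf t x b c) F - R.pq t x b c F| := by
  have h1 := R.ep_old hn
  have h0 := R.t0_le t x b c
  unfold far kq pq
  rw [h1]
  constructor
  · rintro ⟨r, h2, h3, h4⟩
    rcases Nat.lt_or_ge t r with h5 | h5
    · have : r = t + 1 := by omega
      subst this
      exact Or.inr h4
    · exact Or.inl ⟨r, h2, h5, h4⟩
  · rintro (⟨r, h2, h3, h4⟩ | h4)
    · exact ⟨r, h2, by omega, h4⟩
    · exact ⟨t + 1, by omega, le_rfl, h4⟩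

theorem kk_nonneg {al : ℝ} (T : D.Thick al) (t : ℕ) (b : β) (c : γ) (y : X) (F : φ × φ) : 0 ≤ kk D t b c y F :=
  mul_nonneg (T.f_nn _ _ _ _ _) (T.g_nn _ _ _ _ _)

theorem kk_one {al : ℝ} (T : D.Thick al) (t : ℕ) (b : β) (c : γ) (y : X) : ∑ F, kk D t b c y F = 1 := by
  unfold kk
  rw [Fintype.sum_prod_type]
  simp only
  rw [Finset.sum_congr rfl fun F _ => (Finset.mul_sum _ _ _).symm]
  simp only [T.g_one, mul_one, T.f_one]

theorem sqn_kk {al : ℝ} (T : D.Thick al) (t : ℕ) (b : β) (c : γ) {V : Finset X} (hV : V.Nonempty) :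
    sqn (kk D t b c) V ≤ 1 :=
  sqn_le_one hV (fun y _ F => kk_nonneg T t b c y F) (fun y _ => kk_one T t b c y)

theorem kk_eq {Up : Upd D} {K : ℕ} {J : ℝ} (hU : UpdOk D Up K J) {s t : ℕ} (h : s ≤ t) {x : X} {b : β} {c : γ}
    (h1 : Up.cf t x b c = Up.cf s x b c) (h2 : Up.cg t x b c = Up.cg s x b c) {y : X} (hy : D.qa t y = D.qa t x) :
    kk D t b c y = kk D s b c y := by
  funext F
  unfold kk
  rw [hU.kf_eq h h1 hy, hU.kg_eq h h2 hy]

/-- the one step variances of the frozen laws -/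
theorem sum_var {al : ℝ} (T : D.Thick al) {Up : Upd D} {K : ℕ} {J : ℝ} (hU : UpdOk D Up K J) (hJ : 0 ≤ J) :
    ∑ t ∈ range K, E3 (fun x b c => dsn (R.kq t x b c) (R.hf t x b c) (lw (R.kq t x b c) (R.U t x b c))) ≤
      1 + 2 * J := by
  have h1 := var_sum R.prc (occ := fun t x b c => upd Up (R.ep t x b c) (t + 1) x b c b c)
    (fun t x b c x' hx => by
      have h2 := R.nw_pub hx
      have h3 : upd Up (R.ep t x' b c) (t + 1) x' b c b c ↔ upd Up (R.ep t x b c) (t + 1) x b c b c := by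
        rw [(R.hf_pubx hx).1]
        rw [← upd_inv (Up := Up) (e := R.ep t x b c) ((R.t0_le t x b c).trans (Nat.le_succ t))
          (⟨(R.hf_qa hx).symm, rfl, rfl⟩ : D.Same (t + 1) x b c x' b c)]
      rw [h2, h3])
    (fun t x b c hn ho y hy => by
      have h2 : (R.ep (t + 1) x b c).t0 = t + 1 := by rw [R.ep_new hn]
      have h3 : D.qa (t + 1) y = D.qa (t + 1) x := D.mem_cA.1 (R.U_sub (t + 1) x b c hy)
      unfold upd at ho
      push Not at ho
      unfold kq
      rw [h2]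
      exact kk_eq hU ((R.t0_le t x b c).trans (Nat.le_succ t)) ho.1 ho.2 h3)
    (fun t x b c => sqn_kk T _ b c ⟨x, R.self_hf t x b c⟩)
    (fun t x b c => sqn_kk T _ b c ⟨x, R.self_U t x b c⟩) K
  have h2 := R.sum_upd hU hJ
  linarith

/-- the epochs which end after a change of the law of the true pair -/
theorem sum_far {al : ℝ} (T : D.Thick al) {Up : Upd D} {K : ℕ} {J : ℝ} (hU : UpdOk D Up K J) (hJ : 0 ≤ J) {eta : ℝ}
    (he : 0 ≤ eta) :
    eta ^ 2 * ∑ t ∈ range K, E3 (fun x b c => ind (R.nw t x b c ∧ (R.far eta t x b c ∨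
      ∃ F, eta < |lw (R.kq t x b c) (R.hf t x b c) F - R.pq t x b c F|))) ≤ 1 + 2 * J := by
  refine le_trans (kol_sum R.prc he (chg := R.far eta) (fun t x b c x' hx => R.far_q hx) (fun x b c => ?_)
    (fun x b c => ?_) (fun t x b c hn => ?_) (fun t x b c hn => R.far_keep hn) K) (R.sum_var T hU hJ)
  · exact R.not_far_start he (Nat.le_zero.1 (R.t0_le 0 x b c))
  · have h1 : (R.ep 0 x b c).t0 = 0 := Nat.le_zero.1 (R.t0_le 0 x b c)
    rw [R.U_start h1]
    rfl
  · exact R.not_far_start he (by rw [R.ep_new hn])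

end Rt

/-- a test by the mean over the cells of the known points -/
theorem E3_test (D : Dat X β γ ι φ) (t : ℕ) {P : X → β → γ → Prop} {g : X → β → γ → β → γ → ℝ} {kap : ℝ}
    (hP : ∀ x b c b' c', D.qb t b' = D.qb t b → D.qc t c' = D.qc t c → (P x b' c' ↔ P x b c))
    (hg : ∀ x b c b' c', D.qb t b' = D.qb t b → D.qc t c' = D.qc t c → g x b' c' b' c' = g x b c b' c')
    (hk : ∀ x b c, P x b c → kap ≤ av2 D t b c (g x b c)) :
    kap * E3 (fun x b c => ind (P x b c)) ≤ E3 (fun x b c => ind (P x b c) * g x b c b c) := by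
  rw [E3_cells D t t (fun x b c => ind (P x b c) * g x b c b c), ← E3_smul]
  refine E3_mono fun x b c => ?_
  have h1 : (avg (D.cB t b) fun b' => avg (D.cC t c) fun c' => ind (P x b' c') * g x b' c' b' c') =
      ind (P x b c) * av2 D t b c (g x b c) := by
    unfold av2
    rw [← avg_smul]
    refine avg_congr' fun b' hb' => ?_
    rw [← avg_smul]
    refine avg_congr' fun c' hc' => ?_
    rw [hg x b c b' c' (D.mem_cB.1 hb') (D.mem_cC.1 hc')]
    have h2 := hP x b c b' c' (D.mem_cB.1 hb') (D.mem_cC.1 hc')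
    simp only [h2]
  rw [h1]
  by_cases h : P x b c
  · rw [ind_of h, mul_one, one_mul]
    exact hk x b c h
  · rw [ind_not h, mul_zero, zero_mul]

section counts

variable {Rr : Rm D} {Up : Upd D} {N : Nb} {dg : ℕ → X → ℝ} {K0 K : ℕ} {J al : ℝ}

/-- **test (i)** -/
theorem cnt1 (T : D.Thick al) (hU : UpdOk D Up K J) (hJ : 0 ≤ J) (h1 : 0 < N.kap1) :
    N.kap2 * ∑ s ∈ range K, E3 (fun x b c =>
      ind (T1 Up N ((mkRt Rr Up N dg K0).ep s x b c) (s + 1) x b c)) ≤ 2 * J + (1 + 2 * J) / N.kap1 ^ 2 := by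
  set R := mkRt Rr Up N dg K0 with hR
  have hT : ∀ s x b c, T1 Up N (R.ep s x b c) (s + 1) x b c → R.nw s x b c := fun s x b c h => Or.inl (Or.inl h)
  have step : ∀ s, N.kap2 * E3 (fun x b c => ind (T1 Up N (R.ep s x b c) (s + 1) x b c)) ≤
      E3 (fun x b c => ind (R.nw s x b c ∧ upd Up (R.ep s x b c) (s + 1) x b c b c)) +
      E3 (fun x b c => ind (R.nw s x b c ∧ (R.far N.kap1 s x b c ∨
        ∃ F, N.kap1 < |lw (R.kq s x b c) (R.hf s x b c) F - R.pq s x b c F|))) := by
    intro s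
    refine (E3_test D (s + 1) (P := fun x b c => T1 Up N (R.ep s x b c) (s + 1) x b c)
      (g := fun x b c b' c' => ind (Chg Up N (R.ep s x b c) (s + 1) x b c b' c')) ?_ ?_ ?_).trans ?_
    · intro x b c b' c' hb hc
      rw [(R.pubc (D.rb s _ _ hb) (D.rc s _ _ hc)).1]
      exact T1_inv ((R.t0_le s x b c).trans (Nat.le_succ s)) ⟨rfl, hb, hc⟩
    · intro x b c b' c' hb hc
      rw [(R.pubc (D.rb s _ _ hb) (D.rc s _ _ hc)).1]
      rw [Chg_inv (N := N) (Up := Up) ((R.t0_le s x b c).trans (Nat.le_succ s))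
        (⟨rfl, hb, hc⟩ : D.Same (s + 1) x b' c' x b c)]
    · intro x b c h
      exact h
    · rw [← E3_add]
      refine E3_mono fun x b c => ?_
      by_cases h : T1 Up N (R.ep s x b c) (s + 1) x b c
      · rw [ind_of h, one_mul]
        have hn := hT s x b c h
        refine (ind_mono (q := (R.nw s x b c ∧ upd Up (R.ep s x b c) (s + 1) x b c b c) ∨
          (R.nw s x b c ∧ (R.far N.kap1 s x b c ∨
          ∃ F, N.kap1 < |lw (R.kq s x b c) (R.hf s x b c) F - R.pq s x b c F|))) ?_).trans (ind_or_le _ _)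
        rintro (h2 | ⟨r, h2, h3, F, G, h4⟩)
        · exact Or.inl ⟨hn, h2⟩
        · refine Or.inr ⟨hn, ?_⟩
          rcases Nat.lt_or_ge s r with h5 | h5
          · have : r = s + 1 := by omega
            subst this
            exact Or.inr ⟨(F, G), h4⟩
          · exact Or.inl ⟨r, h2, h5, (F, G), h4⟩
      · rw [ind_not h, zero_mul]
        exact add_nonneg (ind_nonneg _) (ind_nonneg _)
  rw [Finset.mul_sum]
  refine (Finset.sum_le_sum fun s _ => step s).trans ?_
  rw [Finset.sum_add_distrib]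
  have h2 := R.sum_upd hU hJ
  have h3 := R.sum_far T hU hJ h1.le
  have h4 : 0 < N.kap1 ^ 2 := by positivity
  have h5 : ∑ t ∈ range K, E3 (fun x b c => ind (R.nw t x b c ∧ (R.far N.kap1 t x b c ∨
      ∃ F, N.kap1 < |lw (R.kq t x b c) (R.hf t x b c) F - R.pq t x b c F|))) ≤ (1 + 2 * J) / N.kap1 ^ 2 := by
    rw [le_div_iff₀ h4, mul_comm]
    exact h3
  linarith

/-- a test (ii) costs at least `eps3` bits -/
theorem cnt2 : N.eps3 * ∑ s ∈ range K, E3 (fun x b c =>
      ind (T2 Rr N ((mkRt Rr Up N dg K0).ep s x b c) (s + 1) x b c)) ≤ (mkRt Rr Up N dg K0).bits K := by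
  set R := mkRt Rr Up N dg K0 with hR
  unfold Rt.bits
  rw [Finset.mul_sum]
  refine Finset.sum_le_sum fun s _ => ?_
  rw [← E3_smul]
  refine E3_mono fun x b c => ?_
  have hu0 : (0 : ℝ) < (R.U (s + 1) x b c).card := by
    exact_mod_cast Finset.card_pos.2 ⟨x, R.self_U (s + 1) x b c⟩
  have hh0 : (0 : ℝ) < (R.hf s x b c).card := by
    exact_mod_cast Finset.card_pos.2 ⟨x, R.self_hf s x b c⟩
  have hle : ((R.U (s + 1) x b c).card : ℝ) ≤ (R.hf s x b c).card := by
    exact_mod_cast Finset.card_le_card (R.U_sub_hf s x b c)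
  have hlog : 1 - (R.U (s + 1) x b c).card / (R.hf s x b c).card ≤
      Real.log (((R.hf s x b c).card : ℝ) / (R.U (s + 1) x b c).card) := by
    have h1 := Real.log_le_sub_one_of_pos (div_pos hu0 hh0)
    rw [show ((R.hf s x b c).card : ℝ) / (R.U (s + 1) x b c).card =
      (((R.U (s + 1) x b c).card : ℝ) / (R.hf s x b c).card)⁻¹ from (inv_div _ _).symm, Real.log_inv]
    linarith
  by_cases h : T2 Rr N (R.ep s x b c) (s + 1) x b c
  · rw [ind_of h, mul_one]
    refine le_trans ?_ hlog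
    have hn : R.tt (R.ep s x b c) (s + 1) x b c := Or.inl (Or.inr (Or.inl h))
    have hU := R.U_new hn
    have hx := R.self_hf s x b c
    have key : ((R.U (s + 1) x b c).card : ℝ) ≤ (1 - N.eps3) * (R.hf s x b c).card := by
      rcases h with h | h
      · refine le_trans ?_ (h x hx)
        have h5 : R.U (s + 1) x b c ⊆ VF Rr (R.ep s x b c) (s + 1) x b c := fun y hy => by
          rw [hU] at hy
          exact (R.mem_jn.1 (R.fin_sub hy)).1
        exact_mod_cast Finset.card_le_card h5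
      · refine le_trans ?_ (h x hx)
        have h5 : R.U (s + 1) x b c ⊆ VG Rr (R.ep s x b c) (s + 1) x b c := fun y hy => by
          rw [hU] at hy
          exact (R.mem_jn.1 (R.fin_sub hy)).2
        exact_mod_cast Finset.card_le_card h5
    have h2 : ((R.U (s + 1) x b c).card : ℝ) / (R.hf s x b c).card ≤ 1 - N.eps3 := by
      rw [div_le_iff₀ hh0]
      exact key
    linarith
  · rw [ind_not h, mul_zero]
    refine le_trans ?_ hlog
    have h2 : ((R.U (s + 1) x b c).card : ℝ) / (R.hf s x b c).card ≤ 1 := (div_le_one hh0).2 hle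
    linarith

theorem dst_dsn (t : ℕ) (b : β) (c : γ) (V V' : Finset X) :
    dst D t b c V V' b c = dsn (kk D t b c) V (lw (kk D t b c) V') := by
  unfold dst dsn lw pl kk
  rw [Fintype.sum_prod_type]

/-- one step variance with a weight, the weight is dropped -/
theorem step_drop {V V1 V2 : X → β → γ → Finset X} {h : X → β → γ → X → φ × φ → ℝ} {w : X → β → γ → ℝ}
    (hV : PV V) (hV1 : PV V1) (hV2 : PV V2) (hs1 : ∀ x b c, V1 x b c ⊆ V x b c) (hs : ∀ x b c, V2 x b c ⊆ V1 x b c)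
    (hh : ∀ x b c x', x' ∈ V x b c → h x' b c = h x b c) (hw : ∀ x b c x', x' ∈ V x b c → w x' b c = w x b c)
    (hw0 : ∀ x b c, 0 ≤ w x b c) (hw1 : ∀ x b c, w x b c ≤ 1) :
    E3 (fun x b c => w x b c * dsn (h x b c) (V1 x b c) (lw (h x b c) (V x b c))) ≤
      E3 (fun x b c => sqn (h x b c) (V2 x b c) - sqn (h x b c) (V x b c)) := by
  refine (E3_sqn_step hV hV1 hV2 hs1 hs hh hw hw0).trans ?_
  have h1 := E3_sqn_mono (h := h) (w := fun x b c => 1 - w x b c) hV hV2 (fun x b c => (hs x b c).trans (hs1 x b c))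
    hh (fun x b c x' hx => by simp only [hw x b c x' hx]) (fun x b c => by linarith [hw1 x b c])
  have h2 : E3 (fun x b c => sqn (h x b c) (V2 x b c) - sqn (h x b c) (V x b c)) =
      E3 (fun x b c => w x b c * (sqn (h x b c) (V2 x b c) - sqn (h x b c) (V x b c))) +
      (E3 (fun x b c => (1 - w x b c) * sqn (h x b c) (V2 x b c)) -
        E3 (fun x b c => (1 - w x b c) * sqn (h x b c) (V x b c))) := by
    rw [← E3_sub, ← E3_add]
    refine congrArg _ (funext fun x => funext fun b => funext fun c => ?_)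
    ring
  rw [h2]
  linarith

open Classical in
/-- the count of a test by the one step variance on a public class `V`: `kap E 1[P] ≤ E (increment of the collision
probability)` -/
theorem E3_varTest {t : ℕ} {V V2 : X → β → γ → Finset X} (hV : PV V) (hV2 : PV V2)
    (hc : ∀ x b c b' c', D.qb t b' = D.qb t b → D.qc t c' = D.qc t c → V x b' c' = V x b c)
    (hs : ∀ x b c, V2 x b c ⊆ V x b c ∩ D.cA (t + 1) x) {P : X → β → γ → Prop} {kap : ℝ}
    (hP : ∀ x b c b' c', D.qb t b' = D.qb t b → D.qc t c' = D.qc t c → (P x b' c' ↔ P x b c))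
    (hP' : ∀ x b c x', x' ∈ V x b c → (P x' b c ↔ P x b c))
    (hk : ∀ x b c, P x b c → kap ≤ VB D t b c (V x b c)) :
    kap * E3 (fun x b c => ind (P x b c)) ≤
      E3 (fun x b c => sqn (kk D t b c) (V2 x b c) - sqn (kk D t b c) (V x b c)) := by
  have hV1 : PV (fun x b c => V x b c ∩ D.cA (t + 1) x) := by
    intro b c
    refine ⟨fun x => mem_inter.2 ⟨(hV b c).self x, D.self_cA (t + 1) x⟩, fun x x' hx => ?_⟩
    have h1 := mem_inter.1 hx
    show V x' b c ∩ D.cA (t + 1) x' = V x b c ∩ D.cA (t + 1) x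
    rw [(hV b c).pub x x' h1.1, D.cA_congr (D.mem_cA.1 h1.2)]
  refine (E3_test D t (P := P) (g := fun x b c b' c' => avg (V x b c) fun y =>
    dst D t b c (V x b c ∩ D.cA (t + 1) y) (V x b c) b' c') hP ?_ hk).trans ?_
  · intro x b c b' c' hb hcc
    rw [hc x b c b' c' hb hcc]
    simp only [dst_inv (D := D) hb hcc]
  · have e1 : E3 (fun x b c => ind (P x b c) * avg (V x b c) fun y =>
        dst D t b c (V x b c ∩ D.cA (t + 1) y) (V x b c) b c) =
        E3 (fun x b c => ind (P x b c) * dsn (kk D t b c) (V x b c ∩ D.cA (t + 1) x)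
          (lw (kk D t b c) (V x b c))) := by
      rw [E3_mean hV (fun x b c => ind (P x b c) * dsn (kk D t b c) (V x b c ∩ D.cA (t + 1) x)
          (lw (kk D t b c) (V x b c)))]
      refine congrArg _ (funext fun x => funext fun b => funext fun c => ?_)
      rw [← avg_smul]
      refine avg_congr' fun x' hx' => ?_
      have h1 : V x' b c = V x b c := (hV b c).pub x x' hx'
      have h2 := hP' x b c x' hx'
      rw [h1, dst_dsn]
      simp only [h2]
    rw [e1]
    exact step_drop hV hV1 hV2 (fun x b c => inter_subset_left) hs (fun _ _ _ _ _ => rfl)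
      (fun x b c x' hx => by simp only [hP' x b c x' hx]) (fun x b c => ind_nonneg _)
      (fun x b c => Pool.Agent.PWZ.ind_le_one _)

/-- updates of the true pair in one step -/
theorem ind_du (hU : UpdOk D Up K J) (s : ℕ) (x : X) (b : β) (c : γ) :
    ind (Up.cf (s + 1) x b c ≠ Up.cf s x b c ∨ Up.cg (s + 1) x b c ≠ Up.cg s x b c) ≤ du Up s x b c := by
  by_cases h : Up.cf (s + 1) x b c ≠ Up.cf s x b c ∨ Up.cg (s + 1) x b c ≠ Up.cg s x b c
  · rw [ind_of h]
    exact du_ge_one hU h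
  · rw [ind_not h]
    exact du_nonneg hU s x b c

/-- **test (iv)**, variance -/
theorem cnt4 (T : D.Thick al) (hU : UpdOk D Up K J) (hJ : 0 ≤ J) (R : Rt D) :
    N.kap3 * ∑ s ∈ range K, E3 (fun x b c => ind (N.kap3 ≤ VB D (s + 1) b c (R.hf s x b c))) ≤ 1 + 2 * J := by
  classical
  have hcc : ∀ s x b c b' c', D.qb (s + 1) b' = D.qb (s + 1) b → D.qc (s + 1) c' = D.qc (s + 1) c →
      R.hf s x b' c' = R.hf s x b c := by
    intro s x b c b' c' hb hc
    unfold Rt.hf
    rw [(R.pubc (D.rb s _ _ hb) (D.rc s _ _ hc)).1]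
  have step : ∀ s, N.kap3 * E3 (fun x b c => ind (N.kap3 ≤ VB D (s + 1) b c (R.hf s x b c))) ≤
      E3 (fun x b c => sqn (kk D (s + 1) b c) (R.hf (s + 1) x b c) - sqn (kk D (s + 1) b c) (R.hf s x b c)) := by
    intro s
    refine E3_varTest (t := s + 1) (R.hf_PV s) (R.hf_PV (s + 1)) (hcc s) ?_ ?_ ?_ (fun _ _ _ h => h)
    · intro x b c y hy
      exact mem_inter.2 ⟨R.U_sub_hf s x b c (R.hf_sub_U (s + 1) x b c hy), R.hf_sub (s + 1) x b c hy⟩
    · intro x b c b' c' hb hc
      rw [hcc s x b c b' c' hb hc, VB_inv hb hc]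
    · intro x b c x' hx
      rw [(R.hf_pubx hx).2]
  rw [Finset.mul_sum]
  refine (Finset.sum_le_sum fun s _ => step s).trans ?_
  refine (cur_sum (A := R.hf) (B := fun t => R.hf (t + 1)) R.hf_PV (fun t => R.hf_PV (t + 1))
    (fun t x b c => Subset.rfl) (k := fun t _ b c => kk D (t + 1) b c) (fun _ _ _ _ _ _ => rfl)
    (occ := fun t x b c => Up.cf (t + 2) x b c ≠ Up.cf (t + 1) x b c ∨ Up.cg (t + 2) x b c ≠ Up.cg (t + 1) x b c)
    ?_ ?_ K).trans ?_
  · intro t x b c ho y hy
    push Not at ho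
    exact Rt.kk_eq hU (Nat.le_succ (t + 1)) ho.1 ho.2 (R.hf_qa hy)
  · intro t x b c
    exact Rt.sqn_kk T _ b c ⟨x, R.self_hf (t + 1) x b c⟩
  · have h1 : ∑ t ∈ range (K - 1), E3 (fun x b c => ind (Up.cf (t + 2) x b c ≠ Up.cf (t + 1) x b c ∨
        Up.cg (t + 2) x b c ≠ Up.cg (t + 1) x b c)) ≤ 2 * J := by
      rw [← E3_finsum]
      refine E3_le_const (by linarith) fun x b c => ?_
      have h2 := sum_du hU x b c
      have h3 : ∑ t ∈ range (K - 1), ind (Up.cf (t + 2) x b c ≠ Up.cf (t + 1) x b c ∨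
          Up.cg (t + 2) x b c ≠ Up.cg (t + 1) x b c) ≤ ∑ t ∈ range K, du Up t x b c := by
        refine (Finset.sum_le_sum fun t _ => ind_du hU (t + 1) x b c).trans ?_
        cases K with
        | zero => simp
        | succ n =>
          rw [Nat.add_sub_cancel, Finset.sum_range_succ']
          linarith [du_nonneg hU 0 x b c]
      linarith
    linarith

/-- **test (v)**, variance -/
theorem cnt5 (T : D.Thick al) (hU : UpdOk D Up K J) (hJ : 0 ≤ J) (R : Rt D) :
    N.kap3 * ∑ s ∈ range K, E3 (fun x b c => ind (N.kap3 ≤ VB D s b c (R.U s x b c))) ≤ 1 + 2 * J := by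
  classical
  have hcc : ∀ s x b c b' c', D.qb s b' = D.qb s b → D.qc s c' = D.qc s c → R.U s x b' c' = R.U s x b c :=
    fun s x b c b' c' hb hc => (R.pubc hb hc).2
  have step : ∀ s, N.kap3 * E3 (fun x b c => ind (N.kap3 ≤ VB D s b c (R.U s x b c))) ≤
      E3 (fun x b c => sqn (kk D s b c) (R.hf s x b c) - sqn (kk D s b c) (R.U s x b c)) := by
    intro s
    refine E3_varTest (t := s) (R.U_PV s) (R.hf_PV s) (hcc s) ?_ ?_ ?_ (fun _ _ _ h => h)
    · intro x b c y hy
      exact mem_inter.2 ⟨R.hf_sub_U s x b c hy, R.hf_sub s x b c hy⟩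
    · intro x b c b' c' hb hc
      rw [hcc s x b c b' c' hb hc, VB_inv hb hc]
    · intro x b c x' hx
      rw [(R.pubx hx).2]
  rw [Finset.mul_sum]
  refine (Finset.sum_le_sum fun s _ => step s).trans ?_
  refine (cur_sum (A := R.U) (B := R.hf) R.U_PV R.hf_PV R.U_sub_hf (k := fun t _ b c => kk D t b c)
    (fun _ _ _ _ _ _ => rfl)
    (occ := fun t x b c => Up.cf (t + 1) x b c ≠ Up.cf t x b c ∨ Up.cg (t + 1) x b c ≠ Up.cg t x b c)
    ?_ ?_ K).trans ?_
  · intro t x b c ho y hy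
    push Not at ho
    exact Rt.kk_eq hU (Nat.le_succ t) ho.1 ho.2 (R.hf_qa hy)
  · intro t x b c
    exact Rt.sqn_kk T _ b c ⟨x, R.self_hf t x b c⟩
  · have h1 : ∑ t ∈ range (K - 1), E3 (fun x b c => ind (Up.cf (t + 1) x b c ≠ Up.cf t x b c ∨
        Up.cg (t + 1) x b c ≠ Up.cg t x b c)) ≤ 2 * J := by
      rw [← E3_finsum]
      refine E3_le_const (by linarith) fun x b c => ?_
      have h2 := sum_du hU x b c
      have h3 : ∑ t ∈ range (K - 1), ind (Up.cf (t + 1) x b c ≠ Up.cf t x b c ∨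
          Up.cg (t + 1) x b c ≠ Up.cg t x b c) ≤ ∑ t ∈ range K, du Up t x b c := by
        refine (Finset.sum_le_sum fun t _ => ind_du hU t x b c).trans ?_
        exact Finset.sum_le_sum_of_subset_of_nonneg (range_subset_range.2 (Nat.sub_le K 1))
          fun t _ _ => du_nonneg hU t x b c
      linarith
    linarith

theorem ind_half (a : ℝ) : ind (1 / 2 < |a|) ≤ 4 * a ^ 2 := by
  by_cases h : 1 / 2 < |a|
  · rw [ind_of h, ← sq_abs a]
    nlinarith
  · rw [ind_not h]
    positivity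

/-- **THE NUMBER OF EPOCHS** : ends of epochs by the tests (i), (ii), (iv), (v) -/
theorem cnt_TT (T : D.Thick al) (hU : UpdOk D Up K J) (hJ : 0 ≤ J) (h1 : 0 < N.kap1) (h2 : 0 < N.kap2)
    (h3 : 0 < N.kap3) (h4 : 0 < N.eps3) :
    ∑ s ∈ range K, E3 (fun x b c => ind (TT Rr Up N dg ((mkRt Rr Up N dg K0).ep s x b c) (s + 1) x b c)) ≤
      (2 * J + (1 + 2 * J) / N.kap1 ^ 2) / N.kap2 + (mkRt Rr Up N dg K0).bits K / N.eps3 +
      2 * ((1 + 2 * J) / N.kap3) +
      4 * ∑ s ∈ range K, E3 (fun x b c => mB dg (s + 1) ((mkRt Rr Up N dg K0).U (s + 1) x b c) ^ 2) +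
      4 * ∑ s ∈ range K, E3 (fun x b c => mB dg s ((mkRt Rr Up N dg K0).U s x b c) ^ 2) := by
  have c1 := cnt1 (Rr := Rr) (N := N) (dg := dg) (K0 := K0) T hU hJ h1
  have c2 := cnt2 (Rr := Rr) (Up := Up) (N := N) (dg := dg) (K0 := K0) (K := K)
  have c4 := cnt4 (N := N) T hU hJ (mkRt Rr Up N dg K0)
  have c5 := cnt5 (N := N) T hU hJ (mkRt Rr Up N dg K0)
  set R := mkRt Rr Up N dg K0 with hR
  have d1 : ∑ s ∈ range K, E3 (fun x b c => ind (T1 Up N (R.ep s x b c) (s + 1) x b c)) ≤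
      (2 * J + (1 + 2 * J) / N.kap1 ^ 2) / N.kap2 := by
    rw [le_div_iff₀ h2, mul_comm]
    exact c1
  have d2 : ∑ s ∈ range K, E3 (fun x b c => ind (T2 Rr N (R.ep s x b c) (s + 1) x b c)) ≤
      R.bits K / N.eps3 := by
    rw [le_div_iff₀ h4, mul_comm]
    exact c2
  have d4 : ∑ s ∈ range K, E3 (fun x b c => ind (N.kap3 ≤ VB D (s + 1) b c (R.hf s x b c))) ≤
      (1 + 2 * J) / N.kap3 := by
    rw [le_div_iff₀ h3, mul_comm]
    exact c4
  have d5 : ∑ s ∈ range K, E3 (fun x b c => ind (N.kap3 ≤ VB D s b c (R.U s x b c))) ≤ (1 + 2 * J) / N.kap3 := by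
    rw [le_div_iff₀ h3, mul_comm]
    exact c5
  have step : ∀ s, E3 (fun x b c => ind (TT Rr Up N dg (R.ep s x b c) (s + 1) x b c)) ≤
      E3 (fun x b c => ind (T1 Up N (R.ep s x b c) (s + 1) x b c)) +
      E3 (fun x b c => ind (T2 Rr N (R.ep s x b c) (s + 1) x b c)) +
      E3 (fun x b c => ind (N.kap3 ≤ VB D (s + 1) b c (R.hf s x b c))) +
      E3 (fun x b c => ind (N.kap3 ≤ VB D s b c (R.U s x b c))) +
      4 * E3 (fun x b c => mB dg (s + 1) (R.U (s + 1) x b c) ^ 2) +
      4 * E3 (fun x b c => mB dg s (R.U s x b c) ^ 2) := by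
    intro s
    have m1 : E3 (fun x b c => mB dg (s + 1) (R.hf s x b c) ^ 2) ≤
        E3 (fun x b c => mB dg (s + 1) (R.U (s + 1) x b c) ^ 2) := by
      have := E3_msq (R.hf_PV s) (R.U_PV (s + 1)) (R.U_sub_hf s) (fun y _ _ => dg (s + 1) y)
        (w := fun _ _ _ => (1 : ℝ)) (fun _ _ _ _ _ => rfl) (fun _ _ _ => zero_le_one)
      simpa only [one_mul, mB] using this
    have m2 : E3 (fun x b c => ind (TT Rr Up N dg (R.ep s x b c) (s + 1) x b c)) ≤
      E3 (fun x b c => ind (T1 Up N (R.ep s x b c) (s + 1) x b c) +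
        ind (T2 Rr N (R.ep s x b c) (s + 1) x b c) +
        ind (N.kap3 ≤ VB D (s + 1) b c (R.hf s x b c)) +
        ind (N.kap3 ≤ VB D s b c (R.U s x b c)) +
        4 * mB dg (s + 1) (R.hf s x b c) ^ 2 + 4 * mB dg s (R.U s x b c) ^ 2) := by
      refine E3_mono fun x b c => ?_
      have a1 := ind_or_le (T1 Up N (R.ep s x b c) (s + 1) x b c) (T2 Rr N (R.ep s x b c) (s + 1) x b c ∨
        T4 (D := D) N dg (R.ep s x b c) (s + 1) x b c ∨ T5 (D := D) N dg (R.ep s x b c) (s + 1) x b c)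
      have a2 := ind_or_le (T2 Rr N (R.ep s x b c) (s + 1) x b c)
        (T4 (D := D) N dg (R.ep s x b c) (s + 1) x b c ∨ T5 (D := D) N dg (R.ep s x b c) (s + 1) x b c)
      have a3 := ind_or_le (T4 (D := D) N dg (R.ep s x b c) (s + 1) x b c)
        (T5 (D := D) N dg (R.ep s x b c) (s + 1) x b c)
      have a4 : ind (T4 (D := D) N dg (R.ep s x b c) (s + 1) x b c) ≤ 4 * mB dg (s + 1) (R.hf s x b c) ^ 2 +
          ind (N.kap3 ≤ VB D (s + 1) b c (R.hf s x b c)) := by
        refine (ind_or_le _ _).trans (add_le_add ?_ le_rfl)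
        exact ind_half _
      have a5 : ind (T5 (D := D) N dg (R.ep s x b c) (s + 1) x b c) ≤ 4 * mB dg s (R.U s x b c) ^ 2 +
          ind (N.kap3 ≤ VB D s b c (R.U s x b c)) := by
        by_cases h : T5 (D := D) N dg (R.ep s x b c) (s + 1) x b c
        · have h5 : (R.ep s x b c).t0 = s := by have := h.1; omega
          have h6 : R.U s x b c = (R.ep s x b c).om0 := R.U_start h5
          refine (ind_mono (q := 1 / 2 < |mB dg s (R.U s x b c)| ∨ N.kap3 ≤ VB D s b c (R.U s x b c)) ?_).trans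
            ((ind_or_le _ _).trans (add_le_add (ind_half _) le_rfl))
          rintro ⟨-, h7⟩
          rw [h6]
          unfold Crit at h7
          rw [h5] at h7
          exact h7
        · rw [ind_not h]
          have := ind_nonneg (N.kap3 ≤ VB D s b c (R.U s x b c))
          positivity
      have a6 : ind (TT Rr Up N dg (R.ep s x b c) (s + 1) x b c) ≤ ind (T1 Up N (R.ep s x b c) (s + 1) x b c) +
        ind (T2 Rr N (R.ep s x b c) (s + 1) x b c ∨ T4 (D := D) N dg (R.ep s x b c) (s + 1) x b c ∨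
          T5 (D := D) N dg (R.ep s x b c) (s + 1) x b c) := a1
      linarith
    simp only [E3_add, E3_smul] at m2
    linarith
  have e := Finset.sum_le_sum (s := range K) fun s _ => step s
  simp only [Finset.sum_add_distrib, ← Finset.mul_sum] at e
  linarith

/-- the number of starts of epochs before `K0` -/
theorem cnt_start : ∑ s ∈ range K0, E3 (fun x b c => ind ((mkRt Rr Up N dg K0).start s x b c)) ≤
    1 + ∑ s ∈ range K0, E3 (fun x b c => ind (TT Rr Up N dg ((mkRt Rr Up N dg K0).ep s x b c) (s + 1) x b c)) := by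
  set R := mkRt Rr Up N dg K0 with hR
  have h1 : ∀ x b c, ∑ s ∈ range K0, ind (R.start s x b c) ≤
      1 + ∑ s ∈ range K0, ind (TT Rr Up N dg (R.ep s x b c) (s + 1) x b c) := by
    intro x b c
    cases K0 with
    | zero => simp
    | succ n =>
      rw [Finset.sum_range_succ', Finset.sum_range_succ]
      have h2 : ∀ s ∈ range n, ind (R.start (s + 1) x b c) ≤
          ind (TT Rr Up N dg (R.ep s x b c) (s + 1) x b c) := by
        intro s hs
        refine ind_mono fun h => ?_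
        by_contra h3
        have h4 : ¬ R.tt (R.ep s x b c) (s + 1) x b c := by
          rintro (h5 | h5)
          · exact h3 h5
          · have := mem_range.1 hs
            omega
        unfold Rt.start at h
        rw [R.ep_old h4] at h
        have := R.t0_le s x b c
        omega
      have h3 := Finset.sum_le_sum h2
      have h4 := Pool.Agent.PWZ.ind_le_one (R.start 0 x b c)
      have h5 := ind_nonneg (TT Rr Up N dg (R.ep n x b c) (n + 1) x b c)
      linarith
  rw [← E3_finsum, ← E3_finsum]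
  have h2 : E3 (fun x b c => ∑ s ∈ range K0, ind (R.start s x b c)) ≤
      E3 (fun x b c => 1 + ∑ s ∈ range K0, ind (TT Rr Up N dg (R.ep s x b c) (s + 1) x b c)) := E3_mono h1
  rw [E3_add] at h2
  have h3 := E3_one_le (X := X) (β := β) (γ := γ)
  linarith

theorem E3_nonneg_sum {f : ℕ → X → β → γ → ℝ} (h : ∀ s x b c, 0 ≤ f s x b c) {m n : ℕ} (hmn : m ≤ n) :
    ∑ s ∈ range m, E3 (f s) ≤ ∑ s ∈ range n, E3 (f s) :=
  Finset.sum_le_sum_of_subset_of_nonneg (range_subset_range.2 hmn) fun s _ _ => E3_nonneg (h s)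

theorem log_bits_nonneg (R : Rt D) (s : ℕ) (x : X) (b : β) (c : γ) :
    0 ≤ Real.log (((R.hf s x b c).card : ℝ) / (R.U (s + 1) x b c).card) := by
  have hu0 : (0 : ℝ) < (R.U (s + 1) x b c).card := by
    exact_mod_cast Finset.card_pos.2 ⟨x, R.self_U (s + 1) x b c⟩
  have hle : ((R.U (s + 1) x b c).card : ℝ) ≤ (R.hf s x b c).card := by
    exact_mod_cast Finset.card_le_card (R.U_sub_hf s x b c)
  exact Real.log_nonneg ((one_le_div hu0).2 hle)

theorem UpdOk_mono {K' : ℕ} (hU : UpdOk D Up K J) (h : K' ≤ K) : UpdOk D Up K' J where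
  f_mono := hU.f_mono
  g_mono := hU.g_mono
  f_le x b c := (Nat.cast_le.2 (hU.cf_le h x b c)).trans (hU.f_le x b c)
  g_le x b c := (Nat.cast_le.2 (hU.cg_le h x b c)).trans (hU.g_le x b c)
  f_eq := hU.f_eq
  g_eq := hU.g_eq

/-- the number of ends by a test before the end of the time axis, in terms of the digits of the times `< K` -/
theorem cnt_TT' (T : D.Thick al) (hU : UpdOk D Up K J) (hJ : 0 ≤ J) (h1 : 0 < N.kap1) (h2 : 0 < N.kap2)
    (h3 : 0 < N.kap3) (h4 : 0 < N.eps3) :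
    ∑ s ∈ range (K - 1), E3 (fun x b c => ind (TT Rr Up N dg ((mkRt Rr Up N dg K0).ep s x b c) (s + 1) x b c)) ≤
      (2 * J + (1 + 2 * J) / N.kap1 ^ 2) / N.kap2 + (mkRt Rr Up N dg K0).bits K / N.eps3 +
      2 * ((1 + 2 * J) / N.kap3) +
      8 * ∑ s ∈ range K, E3 (fun x b c => mB dg s ((mkRt Rr Up N dg K0).U s x b c) ^ 2) := by
  have e := cnt_TT (Rr := Rr) (N := N) (dg := dg) (K0 := K0) T (UpdOk_mono hU (Nat.sub_le K 1)) hJ h1 h2 h3 h4
  have e1 : (mkRt Rr Up N dg K0).bits (K - 1) ≤ (mkRt Rr Up N dg K0).bits K :=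
    E3_nonneg_sum (fun s x b c => log_bits_nonneg _ s x b c) (Nat.sub_le K 1)
  have e2 : ∑ s ∈ range (K - 1), E3 (fun x b c => mB dg s ((mkRt Rr Up N dg K0).U s x b c) ^ 2) ≤
      ∑ s ∈ range K, E3 (fun x b c => mB dg s ((mkRt Rr Up N dg K0).U s x b c) ^ 2) :=
    E3_nonneg_sum (fun s x b c => sq_nonneg _) (Nat.sub_le K 1)
  have e3 : ∑ s ∈ range (K - 1), E3 (fun x b c => mB dg (s + 1) ((mkRt Rr Up N dg K0).U (s + 1) x b c) ^ 2) ≤
      ∑ s ∈ range K, E3 (fun x b c => mB dg s ((mkRt Rr Up N dg K0).U s x b c) ^ 2) := by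
    cases K with
    | zero => simp
    | succ n =>
      rw [Nat.add_sub_cancel, Finset.sum_range_succ' _ n]
      have : 0 ≤ E3 (fun x b c => mB dg 0 ((mkRt Rr Up N dg K0).U 0 x b c) ^ 2) :=
        E3_nonneg fun _ _ _ => sq_nonneg _
      linarith
  have e4 := div_le_div_of_nonneg_right e1 h4.le
  linarith

/-- **the number of ends of epochs**, the end of the time axis included -/
theorem cnt_nw (T : D.Thick al) (hU : UpdOk D Up K J) (hJ : 0 ≤ J) (h1 : 0 < N.kap1) (h2 : 0 < N.kap2)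
    (h3 : 0 < N.kap3) (h4 : 0 < N.eps3) :
    ∑ s ∈ range K, E3 (fun x b c => ind ((mkRt Rr Up N dg K).nw s x b c)) ≤
      1 + ((2 * J + (1 + 2 * J) / N.kap1 ^ 2) / N.kap2 + (mkRt Rr Up N dg K).bits K / N.eps3 +
      2 * ((1 + 2 * J) / N.kap3) +
      8 * ∑ s ∈ range K, E3 (fun x b c => mB dg s ((mkRt Rr Up N dg K).U s x b c) ^ 2)) := by
  refine le_trans ?_ (add_le_add le_rfl (cnt_TT' (Rr := Rr) (N := N) (dg := dg) (K0 := K) T hU hJ h1 h2 h3 h4))
  cases K with
  | zero => simp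
  | succ n =>
    rw [Finset.sum_range_succ, Nat.add_sub_cancel]
    have a1 : E3 (fun x b c => ind ((mkRt Rr Up N dg (n + 1)).nw n x b c)) ≤ 1 :=
      E3_le_const zero_le_one fun x b c => Pool.Agent.PWZ.ind_le_one _
    have a2 : ∑ s ∈ range n, E3 (fun x b c => ind ((mkRt Rr Up N dg (n + 1)).nw s x b c)) ≤
        ∑ s ∈ range n, E3 (fun x b c =>
          ind (TT Rr Up N dg ((mkRt Rr Up N dg (n + 1)).ep s x b c) (s + 1) x b c)) := by
      refine Finset.sum_le_sum fun s hs => E3_mono fun x b c => ind_mono ?_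
      rintro (h5 | h5)
      · exact h5
      · have := mem_range.1 hs
        omega
    linarith

/-- **the number of epochs** (starts before `K`) -/
theorem cnt_epochs (T : D.Thick al) (hU : UpdOk D Up K J) (hJ : 0 ≤ J) (h1 : 0 < N.kap1) (h2 : 0 < N.kap2)
    (h3 : 0 < N.kap3) (h4 : 0 < N.eps3) :
    ∑ s ∈ range K, E3 (fun x b c => ind ((mkRt Rr Up N dg K).start s x b c)) ≤
      1 + ((2 * J + (1 + 2 * J) / N.kap1 ^ 2) / N.kap2 + (mkRt Rr Up N dg K).bits K / N.eps3 +
      2 * ((1 + 2 * J) / N.kap3) +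
      8 * ∑ s ∈ range K, E3 (fun x b c => mB dg s ((mkRt Rr Up N dg K).U s x b c) ^ 2)) := by
  refine le_trans ?_ (add_le_add le_rfl (cnt_TT' (Rr := Rr) (N := N) (dg := dg) (K0 := K) T hU hJ h1 h2 h3 h4))
  set R := mkRt Rr Up N dg K with hR
  have g1 : ∀ x b c, ∑ s ∈ range K, ind (R.start s x b c) ≤
      1 + ∑ s ∈ range (K - 1), ind (TT Rr Up N dg (R.ep s x b c) (s + 1) x b c) := by
    intro x b c
    cases K with
    | zero => simp
    | succ n =>
      rw [Finset.sum_range_succ', Nat.add_sub_cancel]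
      have g2 : ∀ s ∈ range n, ind (R.start (s + 1) x b c) ≤
          ind (TT Rr Up N dg (R.ep s x b c) (s + 1) x b c) := by
        intro s hs
        refine ind_mono fun h => ?_
        by_contra g3
        have g4 : ¬ R.tt (R.ep s x b c) (s + 1) x b c := by
          rintro (h5 | h5)
          · exact g3 h5
          · have := mem_range.1 hs
            omega
        unfold Rt.start at h
        rw [R.ep_old g4] at h
        have := R.t0_le s x b c
        omega
      have g3 := Finset.sum_le_sum g2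
      have g4 := Pool.Agent.PWZ.ind_le_one (R.start 0 x b c)
      linarith
  rw [← E3_finsum, ← E3_finsum]
  have g2 : E3 (fun x b c => ∑ s ∈ range K, ind (R.start s x b c)) ≤
      E3 (fun x b c => 1 + ∑ s ∈ range (K - 1), ind (TT Rr Up N dg (R.ep s x b c) (s + 1) x b c)) := E3_mono g1
  rw [E3_add] at g2
  have g3 := E3_one_le (X := X) (β := β) (γ := γ)
  linarith

end counts

end

end Pool.Agent.M3.S3B
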