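import Pool.Agent.M3.S3.CSplit

/-!
# M3.S3B.Split1: the one-family split of a class (section 3, route B, note 3448 (1)) (helper87)

`sphi n k Bs S = - log |S| + n (mean entropy over b in Bs of the label of b on S)`; `sp1 n k Bs K : X → X` = the partition of
`K` which minimises the sum over the cells (`spl` of `S3/CSplit`), `sp1N` = the same with codes in `ℕ`.  The family
`k : X → β → φ → ℝ` is arbitrary (`f` with the cells of `b`, or `g` with the cells of `c`).

* `sp1N_best` : `gainF n k K Bs r ≤ gainF n k K Bs (sp1N ..)` for every partition `r`;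
* `sp1N_cost` : `entN K (sp1N ..) ≤ n avg_b infoN`, that is `H_K(w) ≤ n gain`; `sp1N_cost'` the same with `klf`;
* `sp1N_two` : `n (|V| mkl V S + |S - V| mkl (S - V) S) ≤ |S| H_S(1_V)` for a part `V` of a cell `S`;
* `sp1N_sat` : `avg_b klf (law V) (law S) ≤ (log (|S| / |V|) + 1) / n` for every nonempty part `V` of a cell `S`;
* `sp1N_satF` : the same for a cell given as a filter (the form of `VF_succ`, `VG_succ` of `S3B/Run`);
* `sp1N_costA` : the cost in normalised form (averages).
-/

set_option autoImplicit false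

namespace Pool.Agent.M3.S3B

open Finset Pool.Agent.M3.S3

noncomputable section

variable {X β φ κ : Type*} [Fintype φ]

/-- the functional of the one-family split -/
def sphi (n : ℝ) (k : X → β → φ → ℝ) (Bs : Finset β) (S : Finset X) : ℝ := -Real.log S.card + n * mel k Bs S

theorem Jf_sphi (n : ℝ) {k : X → β → φ → ℝ} {Bs : Finset β} {K : Finset X} (hK : K.Nonempty)
    (hk : ∀ x ∈ K, ∀ b ∈ Bs, ∀ F, 0 ≤ k x b F) (r : X → κ) :
    Jf (sphi n k Bs) K r = K.card * sphi n k Bs K - gainF n k K Bs r := by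
  have hc : (0 : ℝ) < K.card := by exact_mod_cast hK.card_pos
  unfold gainF
  rw [avg_infoN hk, Finset.mul_sum]
  have h2 : (K.card : ℝ) * sphi n k Bs K = ∑ _x ∈ K, sphi n k Bs K := by
    rw [Finset.sum_const, nsmul_eq_mul]
  unfold Jf entN
  rw [h2, ← Finset.sum_sub_distrib, ← Finset.sum_sub_distrib]
  refine Finset.sum_congr rfl fun x hx => ?_
  have hcx : (0 : ℝ) < (fblk K r x).card := by exact_mod_cast (Finset.card_pos.2 ⟨x, self_fblk hx⟩)
  unfold sphi
  rw [Real.log_div hc.ne' hcx.ne']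
  ring

variable [Fintype X]

/-- the one-family split -/
def sp1 (n : ℝ) (k : X → β → φ → ℝ) (Bs : Finset β) (K : Finset X) : X → X := spl (sphi n k Bs) K

/-- the one-family split, codes in `ℕ` -/
def sp1N (n : ℝ) (k : X → β → φ → ℝ) (Bs : Finset β) (K : Finset X) : X → ℕ := fun x =>
  (Fintype.equivFin X (sp1 n k Bs K x)).val

variable {n : ℝ} {k : X → β → φ → ℝ} {Bs : Finset β} {K : Finset X}

theorem fblk_sp1N (L : Finset X) (x : X) : fblk L (sp1N n k Bs K) x = fblk L (sp1 n k Bs K) x := by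
  ext y
  rw [mem_fblk, mem_fblk]
  refine and_congr_right fun _ => ?_
  unfold sp1N
  rw [← Fin.ext_iff]
  exact (Fintype.equivFin X).injective.eq_iff

theorem gainF_sp1N : gainF n k K Bs (sp1N n k Bs K) = gainF n k K Bs (sp1 n k Bs K) := by
  unfold gainF infoN entN
  simp only [fblk_sp1N]

/-- the split has the largest surplus -/
theorem sp1N_best (hk : ∀ x ∈ K, ∀ b ∈ Bs, ∀ F, 0 ≤ k x b F) (r : X → κ) :
    gainF n k K Bs r ≤ gainF n k K Bs (sp1N n k Bs K) := by
  rw [gainF_sp1N]
  rcases K.eq_empty_or_nonempty with hK | hK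
  · subst hK
    simp [gainF, infoN, entN, avg]
  · have h := spl_le (sphi n k Bs) K r
    have h1 := Jf_sphi n hK hk r
    have h2 := Jf_sphi n hK hk (sp1 n k Bs K)
    have h3 : Jf (sphi n k Bs) K (sp1 n k Bs K) = Jf (sphi n k Bs) K (spl (sphi n k Bs) K) := rfl
    rw [h3] at h2
    linarith

/-- the surplus is nonnegative -/
theorem sp1N_nn (hk : ∀ x ∈ K, ∀ b ∈ Bs, ∀ F, 0 ≤ k x b F) : 0 ≤ gainF n k K Bs (sp1N n k Bs K) := by
  rcases K.eq_empty_or_nonempty with hK | hK
  · subst hK
    simp [gainF, infoN, entN, avg]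
  · refine le_trans (le_of_eq ?_) (sp1N_best hk (fun _ : X => ()))
    have h1 := Jf_sphi n hK hk (fun _ : X => ())
    have hcel : ∀ x ∈ K, fblk K (fun _ => ()) x = K := fun x _ => by
      ext y; rw [mem_fblk]; simp
    unfold Jf at h1
    rw [Finset.sum_congr rfl fun x hx => by rw [hcel x hx], Finset.sum_const, nsmul_eq_mul] at h1
    linarith

/-- the cost of the split is paid by the gain -/
theorem sp1N_cost (hk : ∀ x ∈ K, ∀ b ∈ Bs, ∀ F, 0 ≤ k x b F) :
    entN K (sp1N n k Bs K) ≤ n * avg Bs (fun b => infoN (fun x => k x b) K (sp1N n k Bs K)) := by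
  have h := sp1N_nn (n := n) hk
  unfold gainF at h
  linarith

/-- the same with the relative entropies of the cells -/
theorem sp1N_cost' (hk : ∀ x ∈ K, ∀ b ∈ Bs, ∀ F, 0 ≤ k x b F) :
    ∑ x ∈ K, Real.log ((K.card : ℝ) / (fblk K (sp1N n k Bs K) x).card) ≤
      n * ∑ x ∈ K, mkl k Bs (fblk K (sp1N n k Bs K) x) K := by
  refine (sp1N_cost hk).trans (le_of_eq ?_)
  congr 1
  have h1 : ∀ b, infoN (fun x => k x b) K (sp1N n k Bs K) =
      ∑ x ∈ K, klf (law (fblk K (sp1N n k Bs K) x) fun y => k y b) (law K fun y => k y b) := fun b =>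
    infoN_eq (fun x => k x b) K (sp1N n k Bs K)
  simp only [h1]
  unfold mkl avg
  rw [Finset.sum_comm, Finset.sum_div]

open Classical in
/-- cells: the information of a part is at most its entropy -/
theorem sp1N_two {x0 : X} {V : Finset X} (hk : ∀ x ∈ K, ∀ b ∈ Bs, ∀ F, 0 ≤ k x b F)
    (hV : V ⊆ fblk K (sp1N n k Bs K) x0) (hne : V.Nonempty) (hne' : (fblk K (sp1N n k Bs K) x0 \ V).Nonempty) :
    n * (V.card * mkl k Bs V (fblk K (sp1N n k Bs K) x0) +
        (fblk K (sp1N n k Bs K) x0 \ V).card *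
          mkl k Bs (fblk K (sp1N n k Bs K) x0 \ V) (fblk K (sp1N n k Bs K) x0)) ≤
      V.card * Real.log ((fblk K (sp1N n k Bs K) x0).card / V.card) +
        (fblk K (sp1N n k Bs K) x0 \ V).card *
          Real.log ((fblk K (sp1N n k Bs K) x0).card / (fblk K (sp1N n k Bs K) x0 \ V).card) := by
  rw [fblk_sp1N] at hV hne' ⊢
  have h := spl_two (sphi n k Bs) K hV
  set S := fblk K (sp1 n k Bs K) x0 with hS
  have hS' : fblk K (spl (sphi n k Bs) K) x0 = S := rfl
  rw [hS'] at h
  have hSK : S ⊆ K := fblk_subset _ _ _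
  have hSne : S.Nonempty := hne.mono hV
  have c1 : (0 : ℝ) < S.card := by exact_mod_cast hSne.card_pos
  have c2 : (0 : ℝ) < V.card := by exact_mod_cast hne.card_pos
  have c3 : (0 : ℝ) < (S \ V).card := by exact_mod_cast hne'.card_pos
  have c4 : (S.card : ℝ) = V.card + (S \ V).card := by
    rw [Finset.card_sdiff_of_subset hV, Nat.cast_sub (Finset.card_le_card hV)]; ring
  have h1 := mel_two (k := k) (Bs := Bs) hV hne hne' fun x hx => hk x (hSK hx)
  unfold sphi at h
  rw [Real.log_div c1.ne' c2.ne', Real.log_div c1.ne' c3.ne']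
  have h3 : n * ((S.card : ℝ) * mel k Bs S) ≤
      (S.card : ℝ) * Real.log S.card - V.card * Real.log V.card - (S \ V).card * Real.log (S \ V).card +
        n * (V.card * mel k Bs V + (S \ V).card * mel k Bs (S \ V)) := by
    linarith
  rw [h1] at h3
  have h4 : (S.card : ℝ) * Real.log S.card = V.card * Real.log S.card + (S \ V).card * Real.log S.card := by
    rw [← add_mul, ← c4]
  rw [h4] at h3
  linarith

/-- every cell is saturated -/
theorem sp1N_sat' {x0 : X} {V : Finset X} (hn : 0 ≤ n) (hk : ∀ x ∈ K, ∀ b ∈ Bs, ∀ F, 0 ≤ k x b F)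
    (hk1 : ∀ x ∈ K, ∀ b ∈ Bs, ∑ F, k x b F = 1)
    (hV : V ⊆ fblk K (sp1N n k Bs K) x0) (hne : V.Nonempty) :
    n * mkl k Bs V (fblk K (sp1N n k Bs K) x0) ≤
      Real.log ((fblk K (sp1N n k Bs K) x0).card / V.card) + 1 := by
  classical
  have key := sp1N_two (n := n) (x0 := x0) (V := V) hk hV hne
  set S := fblk K (sp1N n k Bs K) x0 with hS
  have hSK : S ⊆ K := fblk_subset _ _ _
  have hSne : S.Nonempty := hne.mono hV
  have c1 : (0 : ℝ) < S.card := by exact_mod_cast hSne.card_pos
  have c2 : (0 : ℝ) < V.card := by exact_mod_cast hne.card_pos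
  by_cases hne' : (S \ V).Nonempty
  · have c3 : (0 : ℝ) < (S \ V).card := by exact_mod_cast hne'.card_pos
    have h1 := key hne'
    have hC : S \ V ⊆ S := Finset.sdiff_subset
    have a1 := mul_nonneg c3.le (mkl_nn (k := k) (Bs := Bs) hC hne' (fun x hx => hk x (hSK hx))
      fun x hx => hk1 x (hSK hx))
    have h2 : ((S \ V).card : ℝ) * Real.log (S.card / (S \ V).card) ≤ V.card := by
      have h3 := Real.log_le_sub_one_of_pos (div_pos c1 c3)
      have h4 := mul_le_mul_of_nonneg_left h3 c3.le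
      have h5 : ((S \ V).card : ℝ) * (S.card / (S \ V).card - 1) = S.card - (S \ V).card := by field_simp
      rw [h5] at h4
      have c4 : (S.card : ℝ) = V.card + (S \ V).card := by
        rw [Finset.card_sdiff_of_subset hV, Nat.cast_sub (Finset.card_le_card hV)]; ring
      linarith
    have h6 : (V.card : ℝ) * (n * mkl k Bs V S) ≤ V.card * (Real.log (S.card / V.card) + 1) := by
      have a3 := mul_nonneg hn a1
      linarith
    exact le_of_mul_le_mul_left h6 c2
  · rw [Finset.not_nonempty_iff_eq_empty, Finset.sdiff_eq_empty_iff_subset] at hne'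
    have hVS : V = S := Finset.Subset.antisymm hV hne'
    rw [hVS, div_self c1.ne', Real.log_one, mkl_self, mul_zero]
    norm_num

/-- SATURATION of the cells of the one-family split -/
theorem sp1N_sat {x0 : X} {V : Finset X} (hn : 0 < n) (hk : ∀ x ∈ K, ∀ b ∈ Bs, ∀ F, 0 ≤ k x b F)
    (hk1 : ∀ x ∈ K, ∀ b ∈ Bs, ∑ F, k x b F = 1)
    (hV : V ⊆ fblk K (sp1N n k Bs K) x0) (hne : V.Nonempty) :
    avg Bs (fun b => klf (law V fun y => k y b) (law (fblk K (sp1N n k Bs K) x0) fun y => k y b)) ≤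
      (Real.log ((fblk K (sp1N n k Bs K) x0).card / V.card) + 1) / n := by
  rw [le_div_iff₀ hn, mul_comm]
  exact sp1N_sat' hn.le hk hk1 hV hne

open Classical in
/-- the same for a cell given as a filter (the form of `VF_succ`, `VG_succ` of `S3B/Run`) -/
theorem sp1N_satF {x0 : X} {V S : Finset X} (hn : 0 < n) (hk : ∀ x ∈ K, ∀ b ∈ Bs, ∀ F, 0 ≤ k x b F)
    (hk1 : ∀ x ∈ K, ∀ b ∈ Bs, ∑ F, k x b F = 1)
    (hS : S = K.filter fun y => sp1N n k Bs K y = sp1N n k Bs K x0) (hV : V ⊆ S) (hne : V.Nonempty) :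
    avg Bs (fun b => klf (law V fun y => k y b) (law S fun y => k y b)) ≤ (Real.log (S.card / V.card) + 1) / n := by
  have h : S = fblk K (sp1N n k Bs K) x0 := by
    rw [hS]
    ext y
    rw [mem_fblk, Finset.mem_filter]
  rw [h] at hV ⊢
  exact sp1N_sat hn hk hk1 hV hne

/-- the cost in normalised form: mean of `log (|K| / |cell|)` at most `n` times the mean gain -/
theorem sp1N_costA (hk : ∀ x ∈ K, ∀ b ∈ Bs, ∀ F, 0 ≤ k x b F) :
    avg K (fun x => Real.log ((K.card : ℝ) / (fblk K (sp1N n k Bs K) x).card)) ≤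
      n * avg Bs (fun b => avg K fun x => klf (law (fblk K (sp1N n k Bs K) x) fun y => k y b) (law K fun y => k y b)) := by
  have h := sp1N_cost (n := n) (K := K) hk
  have h1 : ∀ b, infoN (fun x => k x b) K (sp1N n k Bs K) =
      ∑ x ∈ K, klf (law (fblk K (sp1N n k Bs K) x) fun y => k y b) (law K fun y => k y b) := fun b =>
    infoN_eq (fun x => k x b) K (sp1N n k Bs K)
  simp only [h1] at h
  unfold entN at h
  have e : n * avg Bs (fun b => avg K fun x =>
      klf (law (fblk K (sp1N n k Bs K) x) fun y => k y b) (law K fun y => k y b)) =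
      (n * avg Bs (fun b => ∑ x ∈ K,
        klf (law (fblk K (sp1N n k Bs K) x) fun y => k y b) (law K fun y => k y b))) / K.card := by
    unfold avg
    rw [← Finset.sum_div]
    ring
  rw [e]
  unfold avg
  exact div_le_div_of_nonneg_right h (Nat.cast_nonneg _)

end

end Pool.Agent.M3.S3B
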