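import Pool.Agent.M3.S3B.Run
import Pool.Agent.M3.S3B.Split1
import Pool.Agent.M3.S3.V2

/-!
# M3.S3B.RmB: the concrete removals of route B (note 3448 (1)) and saturation of the virtual cells (helper87)

`rmB D n : Rm D`: `pf` = one-family split (`sp1N`) with the kernels of the labels at the start of the epoch, averages over
`cB s b`; `pg` mirror; `sp` = complete split (`cspN`), current labels.
* `VF_fblk`, `VG_fblk` : a virtual cell is a cell of the one-family split of `VF e s x b c ∩ cA (s+1) x`;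
* `VF_sat`, `VG_sat` : SATURATION of the virtual cells at every time `s > e.t0`, for every nonempty part `V`:
  `avg_(cB s b) klf (law V) (law VF) ≤ (log (|VF| / |V|) + 1) / n` (kernels `kfc D e.t0 c`);
* `VF_cost`, `VG_cost` : mean of `log (|K| / |cell|)` over `K = VF e s x b c ∩ cA (s+1) x` at most `n` times the mean gain;
* `fin_fblk`, `fin_sat_f`, `fin_sat_g` : the cells of the complete split are saturated for both families (current labels);
* `om0_sat_f`, `om0_sat_g` : the class at the start of an epoch of the process is saturated.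
-/

set_option autoImplicit false
set_option linter.unusedSectionVars false
set_option linter.unusedVariables false

namespace Pool.Agent.M3.S3B

open Finset Pool.Agent.PWZ Pool.Agent.M3 Pool.Agent.M3.S3

noncomputable section

variable {X β γ ι φ : Type*} [Fintype X] [Fintype β] [Fintype γ] [Fintype φ]

/-- the removals of route B -/
def rmB (D : Dat X β γ ι φ) (n : ℝ) : Rm D where
  pf e s _ b c K := sp1N n (kfc D e.t0 c) (D.cB s b) K
  pg e s _ b c K := sp1N n (kgb D e.t0 b) (D.cC s c) K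
  sp s _ b c v := cspN n (kfc D s c) (D.cB s b) (kgb D s b) (D.cC s c) v
  pf_c e s x x' b b' c c' K _ _ hb hc := by rw [kfc_inv hc, D.cB_congr hb]
  pg_b e s x x' b b' c c' K _ _ hb hc := by rw [kgb_inv hb, D.cC_congr hc]
  sp_q s x b c x' b' c' K hS := by
    rw [kfc_inv hS.2.2, kgb_inv hS.2.1, D.cB_congr hS.2.1, D.cC_congr hS.2.2]

variable {D : Dat X β γ ι φ} {n : ℝ}

theorem rmB_pf (e : Epo X) (s : ℕ) (x : X) (b : β) (c : γ) (K : Finset X) :
    (rmB D n).pf e s x b c K = sp1N n (kfc D e.t0 c) (D.cB s b) K := rfl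

theorem rmB_pg (e : Epo X) (s : ℕ) (x : X) (b : β) (c : γ) (K : Finset X) :
    (rmB D n).pg e s x b c K = sp1N n (kgb D e.t0 b) (D.cC s c) K := rfl

theorem rmB_sp (s : ℕ) (x : X) (b : β) (c : γ) (v : Finset X) :
    (rmB D n).sp s x b c v = cspN n (kfc D s c) (D.cB s b) (kgb D s b) (D.cC s c) v := rfl

open Classical in
/-- the class which is split in the virtual `f`-step -/
def VFh (D : Dat X β γ ι φ) (n : ℝ) (e : Epo X) (s : ℕ) (x : X) (b : β) (c : γ) : Finset X :=
  VF (rmB D n) e s x b c ∩ D.cA (s + 1) x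

open Classical in
/-- the class which is split in the virtual `g`-step -/
def VGh (D : Dat X β γ ι φ) (n : ℝ) (e : Epo X) (s : ℕ) (x : X) (b : β) (c : γ) : Finset X :=
  VG (rmB D n) e s x b c ∩ D.cA (s + 1) x

theorem VF_fblk {e : Epo X} {s : ℕ} (h : e.t0 ≤ s) (x : X) (b : β) (c : γ) :
    VF (rmB D n) e (s + 1) x b c =
      fblk (VFh D n e s x b c) (sp1N n (kfc D e.t0 c) (D.cB (s + 1) b) (VFh D n e s x b c)) x := by
  classical
  rw [VF_succ _ h]
  ext y
  rw [mem_fblk, mem_filter]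
  unfold VFh
  rfl

theorem VG_fblk {e : Epo X} {s : ℕ} (h : e.t0 ≤ s) (x : X) (b : β) (c : γ) :
    VG (rmB D n) e (s + 1) x b c =
      fblk (VGh D n e s x b c) (sp1N n (kgb D e.t0 b) (D.cC (s + 1) c) (VGh D n e s x b c)) x := by
  classical
  rw [VG_succ _ h]
  ext y
  rw [mem_fblk, mem_filter]
  unfold VGh
  rfl

variable {al : ℝ}

/-- SATURATION of the virtual `f`-cells -/
theorem VF_sat (hT : D.Thick al) (hn : 0 < n) {e : Epo X} {s : ℕ} (h : e.t0 < s) {x : X} {b : β} {c : γ}
    {V : Finset X} (hV : V ⊆ VF (rmB D n) e s x b c) (hne : V.Nonempty) :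
    avg (D.cB s b) (fun b' => klf (law V fun y => D.kf e.t0 y b' c)
      (law (VF (rmB D n) e s x b c) fun y => D.kf e.t0 y b' c)) ≤
      (Real.log ((VF (rmB D n) e s x b c).card / V.card) + 1) / n := by
  obtain ⟨s, rfl⟩ : ∃ r, s = r + 1 := ⟨s - 1, by omega⟩
  have h' : e.t0 ≤ s := by omega
  rw [VF_fblk h'] at hV ⊢
  exact sp1N_sat (k := kfc D e.t0 c) hn (fun y _ b' _ F => hT.f_nn _ _ _ _ _)
    (fun y _ b' _ => hT.f_one _ _ _ _) hV hne

/-- SATURATION of the virtual `g`-cells -/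
theorem VG_sat (hT : D.Thick al) (hn : 0 < n) {e : Epo X} {s : ℕ} (h : e.t0 < s) {x : X} {b : β} {c : γ}
    {V : Finset X} (hV : V ⊆ VG (rmB D n) e s x b c) (hne : V.Nonempty) :
    avg (D.cC s c) (fun c' => klf (law V fun y => D.kg e.t0 y b c')
      (law (VG (rmB D n) e s x b c) fun y => D.kg e.t0 y b c')) ≤
      (Real.log ((VG (rmB D n) e s x b c).card / V.card) + 1) / n := by
  obtain ⟨s, rfl⟩ : ∃ r, s = r + 1 := ⟨s - 1, by omega⟩
  have h' : e.t0 ≤ s := by omega
  rw [VG_fblk h'] at hV ⊢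
  exact sp1N_sat (k := kgb D e.t0 b) hn (fun y _ b' _ F => hT.g_nn _ _ _ _ _)
    (fun y _ b' _ => hT.g_one _ _ _ _) hV hne

/-- the cost of the virtual `f`-step -/
theorem VF_cost (hT : D.Thick al) (e : Epo X) (s : ℕ) (x : X) (b : β) (c : γ) :
    avg (VFh D n e s x b c) (fun y => Real.log (((VFh D n e s x b c).card : ℝ) /
        (fblk (VFh D n e s x b c) (sp1N n (kfc D e.t0 c) (D.cB (s + 1) b) (VFh D n e s x b c)) y).card)) ≤
      n * avg (D.cB (s + 1) b) (fun b' => avg (VFh D n e s x b c) fun y =>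
        klf (law (fblk (VFh D n e s x b c) (sp1N n (kfc D e.t0 c) (D.cB (s + 1) b) (VFh D n e s x b c)) y)
            fun z => D.kf e.t0 z b' c)
          (law (VFh D n e s x b c) fun z => D.kf e.t0 z b' c)) :=
  sp1N_costA (k := kfc D e.t0 c) (fun y _ b' _ F => hT.f_nn _ _ _ _ _)

/-- the cost of the virtual `g`-step -/
theorem VG_cost (hT : D.Thick al) (e : Epo X) (s : ℕ) (x : X) (b : β) (c : γ) :
    avg (VGh D n e s x b c) (fun y => Real.log (((VGh D n e s x b c).card : ℝ) /
        (fblk (VGh D n e s x b c) (sp1N n (kgb D e.t0 b) (D.cC (s + 1) c) (VGh D n e s x b c)) y).card)) ≤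
      n * avg (D.cC (s + 1) c) (fun c' => avg (VGh D n e s x b c) fun y =>
        klf (law (fblk (VGh D n e s x b c) (sp1N n (kgb D e.t0 b) (D.cC (s + 1) c) (VGh D n e s x b c)) y)
            fun z => D.kg e.t0 z b c')
          (law (VGh D n e s x b c) fun z => D.kg e.t0 z b c')) :=
  sp1N_costA (k := kgb D e.t0 b) (fun y _ b' _ F => hT.g_nn _ _ _ _ _)

/-! ## the complete split -/

variable {R : Rt D}

theorem fin_fblk (hR : R.toRm = rmB D n) (s : ℕ) (x : X) (b : β) (c : γ) (v : Finset X) :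
    R.fin s x b c v = fblk v (cspN n (kfc D s c) (D.cB s b) (kgb D s b) (D.cC s c) v) x := by
  classical
  ext y
  rw [R.mem_fin, mem_fblk, hR]
  rfl

/-- the cells of the complete split, both families together -/
theorem fin_sat (hR : R.toRm = rmB D n) (hT : D.Thick al) (hn : 0 ≤ n) {s : ℕ} {x : X} {b : β} {c : γ} {v V : Finset X}
    (hV : V ⊆ R.fin s x b c v) (hne : V.Nonempty) :
    n * (mkl (kfc D s c) (D.cB s b) V (R.fin s x b c v) + mkl (kgb D s b) (D.cC s c) V (R.fin s x b c v)) ≤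
      Real.log ((R.fin s x b c v).card / V.card) + 1 := by
  have h1 := fin_fblk hR s x b c v
  rw [fblk_cspN] at h1
  rw [h1] at hV ⊢
  exact csp_sat (n := n) (kf := kfc D s c) (Bs := D.cB s b) (kg := kgb D s b) (Cs := D.cC s c) (hn := hn) (fun y _ b' _ F => hT.f_nn _ _ _ _ _) (fun y _ c' _ F => hT.g_nn _ _ _ _ _)
    (fun y _ b' _ => hT.f_one _ _ _ _) (fun y _ c' _ => hT.g_one _ _ _ _) hV hne

theorem fin_sat_f (hR : R.toRm = rmB D n) (hT : D.Thick al) (hn : 0 < n) {s : ℕ} {x : X} {b : β} {c : γ}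
    {v V : Finset X} (hV : V ⊆ R.fin s x b c v) (hne : V.Nonempty) :
    avg (D.cB s b) (fun b' => klf (law V fun y => D.kf s y b' c) (law (R.fin s x b c v) fun y => D.kf s y b' c)) ≤
      (Real.log ((R.fin s x b c v).card / V.card) + 1) / n := by
  rw [le_div_iff₀ hn, mul_comm]
  have h1 := fin_sat hR hT hn.le hV hne
  have h2 : 0 ≤ mkl (kgb D s b) (D.cC s c) V (R.fin s x b c v) :=
    mkl_nn hV hne (fun y _ c' _ F => hT.g_nn _ _ _ _ _) (fun y _ c' _ => hT.g_one _ _ _ _)
  have h3 := mul_nonneg hn.le h2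
  rw [mul_add] at h1
  have h4 : n * avg (D.cB s b) (fun b' => klf (law V fun y => D.kf s y b' c)
      (law (R.fin s x b c v) fun y => D.kf s y b' c)) = n * mkl (kfc D s c) (D.cB s b) V (R.fin s x b c v) := rfl
  rw [h4]
  linarith

theorem fin_sat_g (hR : R.toRm = rmB D n) (hT : D.Thick al) (hn : 0 < n) {s : ℕ} {x : X} {b : β} {c : γ}
    {v V : Finset X} (hV : V ⊆ R.fin s x b c v) (hne : V.Nonempty) :
    avg (D.cC s c) (fun c' => klf (law V fun y => D.kg s y b c') (law (R.fin s x b c v) fun y => D.kg s y b c')) ≤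
      (Real.log ((R.fin s x b c v).card / V.card) + 1) / n := by
  rw [le_div_iff₀ hn, mul_comm]
  have h1 := fin_sat hR hT hn.le hV hne
  have h2 : 0 ≤ mkl (kfc D s c) (D.cB s b) V (R.fin s x b c v) :=
    mkl_nn hV hne (fun y _ c' _ F => hT.f_nn _ _ _ _ _) (fun y _ c' _ => hT.f_one _ _ _ _)
  have h3 := mul_nonneg hn.le h2
  rw [mul_add] at h1
  have h4 : n * avg (D.cC s c) (fun c' => klf (law V fun y => D.kg s y b c')
      (law (R.fin s x b c v) fun y => D.kg s y b c')) = n * mkl (kgb D s b) (D.cC s c) V (R.fin s x b c v) := rfl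
  rw [h4]
  linarith

/-- the class at the start of an epoch is a cell of a complete split at a node of the same time -/
theorem om0_fin (s : ℕ) (x : X) (b : β) (c : γ) : ∃ v : Finset X,
    (R.ep s x b c).om0 = R.fin (R.ep s x b c).t0 x b c v := by
  induction s with
  | zero => exact ⟨D.cA 0 x, rfl⟩
  | succ s ih =>
    by_cases hn : R.tt (R.ep s x b c) (s + 1) x b c
    · rw [R.ep_new hn]
      exact ⟨R.jn (R.ep s x b c) (s + 1) x b c, rfl⟩
    · rw [R.ep_old hn]
      exact ih

/-- the class at the start of an epoch is `f`-saturated -/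
theorem om0_sat_f (hR : R.toRm = rmB D n) (hT : D.Thick al) (hn : 0 < n) {s : ℕ} {x : X} {b : β} {c : γ}
    {V : Finset X} (hV : V ⊆ (R.ep s x b c).om0) (hne : V.Nonempty) :
    avg (D.cB (R.ep s x b c).t0 b) (fun b' => klf (law V fun y => D.kf (R.ep s x b c).t0 y b' c)
      (law (R.ep s x b c).om0 fun y => D.kf (R.ep s x b c).t0 y b' c)) ≤
      (Real.log ((R.ep s x b c).om0.card / V.card) + 1) / n := by
  obtain ⟨v, hv⟩ := om0_fin (R := R) s x b c
  rw [hv] at hV ⊢
  exact fin_sat_f hR hT hn hV hne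

/-- the class at the start of an epoch is `g`-saturated -/
theorem om0_sat_g (hR : R.toRm = rmB D n) (hT : D.Thick al) (hn : 0 < n) {s : ℕ} {x : X} {b : β} {c : γ}
    {V : Finset X} (hV : V ⊆ (R.ep s x b c).om0) (hne : V.Nonempty) :
    avg (D.cC (R.ep s x b c).t0 c) (fun c' => klf (law V fun y => D.kg (R.ep s x b c).t0 y b c')
      (law (R.ep s x b c).om0 fun y => D.kg (R.ep s x b c).t0 y b c')) ≤
      (Real.log ((R.ep s x b c).om0.card / V.card) + 1) / n := by
  obtain ⟨v, hv⟩ := om0_fin (R := R) s x b c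
  rw [hv] at hV ⊢
  exact fin_sat_g hR hT hn hV hne

end

end Pool.Agent.M3.S3B
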