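import Pool.Agent.M3.S3B.LossC
import Pool.Agent.M3.S3B.RmB

/-!
# M3.S3B.LossC2: the loss (C) of note 3448 (6) along the process of route B (helper63)

Step `s → s+1`, epoch `e = ep s x b c`, frozen labels = labels of the time `e.t0`; `VF`, `VG` virtual cells at `s+1`, final cell
`U (s+1)`, class `hf s` at the test.
* `psd D d e b c F G` = `(log (P_0(F,G) / (P_0(F) P_0(G))) - d)^+` on the class of the start;
* `lsC R A B d gd s x b c` = sum over `F`, `G` of `kf kg 1[A P_v(F) < P_y(F)] 1[gd] 1[P_v'(G) ≤ B P_0(G)] psd`;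
* `lossC_step` : THE LOSS (C) of the step, for the removals `rmB D n`:
  `E3 (1[test] lsC) ≤ lam (2 / (n (log A - 1))) E3 (1[test] log (|VF| / |U (s+1)|)) + log (1/al) (exp (-L) / al) E3 1[test]`,
  `lam = (L + 1) / n + B (4 / d) e0`, `e0` = bound of the row entropies at the tests (hypothesis `he0`);
* `lossC_sum` : the sum over the steps.
-/

set_option autoImplicit false
set_option linter.unusedSectionVars false

namespace Pool.Agent.M3.S3B

open Finset Pool.Agent.PWZ Pool.Agent.M3 Pool.Agent.M3.S3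

noncomputable section

variable {X β γ ι φ : Type*} [Fintype X] {D : Dat X β γ ι φ}

section defs

variable (D)

/-- clipped density of the pair on the class of the start -/
def psd (d : ℝ) (e : Epo X) (b : β) (c : γ) (F G : φ) : ℝ :=
  max (Real.log (avg e.om0 (fun z => D.kf e.t0 z b c F * D.kg e.t0 z b c G) /
    (law e.om0 (fun z => D.kf e.t0 z b c) F * law e.om0 (fun z => D.kg e.t0 z b c) G)) - d) 0

theorem psd_psi [Fintype φ] {al : ℝ} (T : D.Thick al) (d : ℝ) (e : Epo X) (b : β) (c : γ) (F G : φ) :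
    psd D d e b c F G = psi d (D.kp T e.t0) e.om0 b c F G := rfl

variable {D} (R : Rt D) [Fintype φ]

/-- the loss (C) at the step `s → s+1` -/
def lsC (A B d : ℝ) (gd : ℕ → X → β → γ → Prop) (s : ℕ) (x : X) (b : β) (c : γ) : ℝ :=
  ∑ F, ∑ G, D.kf (R.ep s x b c).t0 x b c F * D.kg (R.ep s x b c).t0 x b c G *
    (ind (A * law (VF R.toRm (R.ep s x b c) (s + 1) x b c) (fun z => D.kf (R.ep s x b c).t0 z b c) F <
      law (R.U (s + 1) x b c) (fun z => D.kf (R.ep s x b c).t0 z b c) F) * (ind (gd s x b c) *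
      (ind (law (VG R.toRm (R.ep s x b c) (s + 1) x b c) (fun z => D.kg (R.ep s x b c).t0 z b c) G ≤
        B * law (R.ep s x b c).om0 (fun z => D.kg (R.ep s x b c).t0 z b c) G) * psd D d (R.ep s x b c) b c F G)))

end defs

namespace Rt

variable (R : Rt D)

/-- the half step class is public -/
theorem hf_nd (s : ℕ) {x x' : X} {b b' : β} {c c' : γ} (hS : D.Same s x b c x' b' c') (hx : x' ∈ R.hf s x b c) :
    R.ep s x' b' c' = R.ep s x b c ∧ R.hf s x' b' c' = R.hf s x b c := by
  have h1 := (R.pub s hS (R.hf_sub_U s x b c hx)).1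
  refine ⟨h1, ?_⟩
  unfold hf
  rw [h1]
  exact W_congr (D.mem_cA.1 (R.hf_sub s x b c hx))

/-- the boxes of the half step classes -/
def bxf [Fintype β] [Fintype γ] (s : ℕ) : Bx X β γ where
  V := R.hf s
  B := fun _ b _ => D.cB (s + 1) b
  C := fun _ _ c => D.cC (s + 1) c
  sV := R.self_hf s
  sB := fun _ b _ => D.self_cB (s + 1) b
  sC := fun _ _ c => D.self_cC (s + 1) c
  inv := by
    intro x b c x' b' c' hx hb hc
    have h1 := D.mem_cB.1 hb
    have h2 := D.mem_cC.1 hc
    have h3 := D.mem_cA.1 (R.hf_sub s x b c hx)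
    have hS : D.Same s x b c x' b' c' :=
      ⟨D.qa_le (Nat.le_succ s) h3.symm, D.qb_le (Nat.le_succ s) h1.symm, D.qc_le (Nat.le_succ s) h2.symm⟩
    exact ⟨(R.hf_nd s hS hx).2, D.cB_congr h1, D.cC_congr h2⟩

end Rt

theorem LC.avg_cg {α : Type*} {s : Finset α} {f g : α → ℝ} (h : ∀ a ∈ s, f a = g a) : avg s f = avg s g := by
  unfold avg
  rw [Finset.sum_congr rfl h]

section step

variable [Fintype β] [Fintype γ] [Fintype φ]

/-- bound of the clipped density by the thickness -/
theorem psd_le {al d : ℝ} (T : D.Thick al) (hd : 0 ≤ d) {e : Epo X} {x : X} {b : β} {c : γ} (hx : x ∈ e.om0)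
    (ho : e.om0 ⊆ D.cA e.t0 x) {F G : φ} (hF : D.kf e.t0 x b c F ≠ 0) (hG : D.kg e.t0 x b c G ≠ 0) :
    Real.log (RB.cl e.om0 (fun z => D.kf e.t0 z b c) (fun z => D.kg e.t0 z b c) F G /
      law e.om0 (fun z => D.kg e.t0 z b c) G) - d ≤ Real.log (1 / al) := by
  have hc : (0 : ℝ) < e.om0.card := by exact_mod_cast Finset.card_pos.2 ⟨x, hx⟩
  have hal := T.pos
  have hq : ∀ z ∈ e.om0, D.qa e.t0 x = D.qa e.t0 z := fun z hz => (D.mem_cA.1 (ho hz)).symm
  have hal1 : al ≤ 1 := by
    have h1 := T.g_thick e.t0 x x b c G rfl hG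
    have h2 : D.kg e.t0 x b c G ≤ 1 := by
      rw [← T.g_one e.t0 x b c]
      exact Finset.single_le_sum (f := fun G => D.kg e.t0 x b c G) (fun G _ => T.g_nn _ _ _ _ _) (mem_univ G)
    linarith
  have hlog : 0 ≤ Real.log (1 / al) := Real.log_nonneg (by rw [le_div_iff₀ hal]; linarith)
  have hlawF : 0 < law e.om0 (fun z => D.kf e.t0 z b c) F := by
    refine div_pos (lt_of_lt_of_le (lt_of_le_of_ne (T.f_nn e.t0 x b c F) (Ne.symm hF)) ?_) hc
    exact Finset.single_le_sum (f := fun z => D.kf e.t0 z b c F) (fun z _ => T.f_nn _ _ _ _ _) hx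
  have hlawG : al ≤ law e.om0 (fun z => D.kg e.t0 z b c) G := by
    unfold law avg
    rw [le_div_iff₀ hc]
    calc al * e.om0.card = ∑ _z ∈ e.om0, al := by rw [Finset.sum_const, nsmul_eq_mul, mul_comm]
      _ ≤ ∑ z ∈ e.om0, D.kg e.t0 z b c G := Finset.sum_le_sum fun z hz => T.g_thick e.t0 x z b c G (hq z hz) hG
  have hcl0 : ∀ G, 0 ≤ RB.cl e.om0 (fun z => D.kf e.t0 z b c) (fun z => D.kg e.t0 z b c) F G := fun G =>
    RB.cl_nn (fun z _ F => T.f_nn _ _ _ _ _) (fun z _ F => T.g_nn _ _ _ _ _) F G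
  have hcl1 : RB.cl e.om0 (fun z => D.kf e.t0 z b c) (fun z => D.kg e.t0 z b c) F G ≤ 1 := by
    rw [← RB.cl_sum (V := e.om0) (kf := fun z => D.kf e.t0 z b c) (kg := fun z => D.kg e.t0 z b c)
      (fun z _ => T.g_one _ _ _ _) hlawF.ne']
    exact Finset.single_le_sum (f := fun G => RB.cl e.om0 (fun z => D.kf e.t0 z b c) (fun z => D.kg e.t0 z b c) F G)
      (fun G _ => hcl0 G) (mem_univ G)
  have hpos : 0 < law e.om0 (fun z => D.kg e.t0 z b c) G := lt_of_lt_of_le hal hlawG
  rcases (hcl0 G).eq_or_lt with h | h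
  · rw [← h, zero_div, Real.log_zero]
    linarith
  · have h1 : RB.cl e.om0 (fun z => D.kf e.t0 z b c) (fun z => D.kg e.t0 z b c) F G /
        law e.om0 (fun z => D.kg e.t0 z b c) G ≤ 1 / al :=
      div_le_div₀ zero_le_one hcl1 hal hlawG
    have h2 := Real.log_le_log (div_pos h hpos) h1
    linarith

/-- THE LOSS (C) OF A STEP -/
theorem lossC_step {R : Rt D} {n al A B d e0 L : ℝ} (hR : R.toRm = rmB D n) (T : D.Thick al) (hn : 0 < n)
    (hA : 1 < Real.log A) (hA0 : 0 < A) (hB : 0 ≤ B) (hd : 0 < d) (hL : 0 ≤ L) (he : 0 ≤ e0) (s : ℕ)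
    {gd : ℕ → X → β → γ → Prop} (hgd : ∀ x b c x', x' ∈ R.hf s x b c → (gd s x' b c ↔ gd s x b c))
    (he0 : ∀ x b c F, R.tt (R.ep s x b c) (s + 1) x b c → D.kf (R.ep s x b c).t0 x b c F ≠ 0 →
      avg (D.cC (s + 1) c) (fun c' => ind (gd s x b c') *
        klf (RB.cl (R.ep s x b c).om0 (fun z => D.kf (R.ep s x b c).t0 z b c')
          (fun z => D.kg (R.ep s x b c).t0 z b c') F)
          (law (R.ep s x b c).om0 (fun z => D.kg (R.ep s x b c).t0 z b c'))) ≤ e0) :
    E3 (fun x b c => ind (R.tt (R.ep s x b c) (s + 1) x b c) * lsC R A B d gd s x b c) ≤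
      (1 / n * (L + 1) + B * (4 / d) * e0) * (2 * (1 / n) / (Real.log A - 1)) *
        E3 (fun x b c => ind (R.tt (R.ep s x b c) (s + 1) x b c) *
          Real.log (((VF R.toRm (R.ep s x b c) (s + 1) x b c).card : ℝ) / (R.U (s + 1) x b c).card)) +
      Real.log (1 / al) * (Real.exp (-L) / al) * E3 (fun x b c => ind (R.tt (R.ep s x b c) (s + 1) x b c)) := by
  classical
  have key : E3 (fun x b c => ind (R.tt (R.ep s x b c) (s + 1) x b c) * lsC R A B d gd s x b c) ≤
      E3 (fun x b c => (1 / n * (L + 1) + B * (4 / d) * e0) * (2 * (1 / n) / (Real.log A - 1)) *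
        (ind (R.tt (R.ep s x b c) (s + 1) x b c) *
          Real.log (((VF R.toRm (R.ep s x b c) (s + 1) x b c).card : ℝ) / (R.U (s + 1) x b c).card)) +
      Real.log (1 / al) * (Real.exp (-L) / al) * ind (R.tt (R.ep s x b c) (s + 1) x b c)) := by
    refine (E3_box (R.bxf s) _).le.trans (le_trans (E3_mono fun x b c => ?_) (E3_box (R.bxf s) _).ge)
    show (avg (R.hf s x b c) fun x' => avg (D.cB (s + 1) b) fun b' => avg (D.cC (s + 1) c) fun c' =>
        ind (R.tt (R.ep s x' b' c') (s + 1) x' b' c') * lsC R A B d gd s x' b' c') ≤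
      avg (R.hf s x b c) fun x' => avg (D.cB (s + 1) b) fun b' => avg (D.cC (s + 1) c) fun c' =>
        (1 / n * (L + 1) + B * (4 / d) * e0) * (2 * (1 / n) / (Real.log A - 1)) *
        (ind (R.tt (R.ep s x' b' c') (s + 1) x' b' c') *
          Real.log (((VF R.toRm (R.ep s x' b' c') (s + 1) x' b' c').card : ℝ) / (R.U (s + 1) x' b' c').card)) +
        Real.log (1 / al) * (Real.exp (-L) / al) * ind (R.tt (R.ep s x' b' c') (s + 1) x' b' c')
    have hSame : ∀ x' ∈ R.hf s x b c, ∀ b' ∈ D.cB (s + 1) b, ∀ c' ∈ D.cC (s + 1) c,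
        D.Same (s + 1) x b c x' b' c' := fun x' hx' b' hb' c' hc' =>
      ⟨(D.mem_cA.1 (R.hf_sub s x b c hx')).symm, (D.mem_cB.1 hb').symm, (D.mem_cC.1 hc').symm⟩
    have hep : ∀ x' ∈ R.hf s x b c, ∀ b' ∈ D.cB (s + 1) b, ∀ c' ∈ D.cC (s + 1) c,
        R.ep s x' b' c' = R.ep s x b c ∧ R.hf s x' b' c' = R.hf s x b c := fun x' hx' b' hb' c' hc' =>
      R.hf_nd s ((hSame x' hx' b' hb' c' hc').le (Nat.le_succ s)) hx'
    have ht0 : (R.ep s x b c).t0 ≤ s := R.t0_le s x b c
    have ht1 : (R.ep s x b c).t0 ≤ s + 1 := ht0.trans (Nat.le_succ s)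
    have htt : ∀ x' ∈ R.hf s x b c, ∀ b' ∈ D.cB (s + 1) b, ∀ c' ∈ D.cC (s + 1) c,
        (R.tt (R.ep s x' b' c') (s + 1) x' b' c' ↔ R.tt (R.ep s x b c) (s + 1) x b c) := by
      intro x' hx' b' hb' c' hc'
      rw [(hep x' hx' b' hb' c' hc').1]
      exact (R.tt_q (R.ep s x b c) (s + 1) x b c x' b' c' ht1 (hSame x' hx' b' hb' c' hc')).symm
    by_cases ht : R.tt (R.ep s x b c) (s + 1) x b c
    swap
    · refine le_of_eq ?_
      refine LC.avg_cg fun x' hx' => LC.avg_cg fun b' hb' => LC.avg_cg fun c' hc' => ?_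
      rw [ind_not (fun h => ht ((htt x' hx' b' hb' c' hc').1 h))]
      ring
    · set e := R.ep s x b c with he_def
      have hxo : x ∈ e.om0 := R.self_om0 s x b c
      have hoA : e.om0 ⊆ D.cA e.t0 x := R.om0_sub s x b c
      set W := R.hf s x b c with hWdef
      have hWo : ∀ z ∈ W, z ∈ e.om0 := fun z hz => (mem_W.1 hz).1
      have hWq : ∀ z ∈ W, D.qa (s + 1) z = D.qa (s + 1) x := fun z hz => (mem_W.1 hz).2
      have hWc : (0 : ℝ) < W.card := by exact_mod_cast Finset.card_pos.2 ⟨x, R.self_hf s x b c⟩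
      have hot : ∀ z ∈ W, e.om0 ⊆ D.cA e.t0 z := by
        intro z hz y hy
        rw [D.mem_cA]
        exact (D.mem_cA.1 (hoA hy)).trans (D.qa_le ht1 (hWq z hz)).symm
      -- the partitions
      have hv : LC.Part W (fun x' => VF R.toRm e (s + 1) x' b c) := by
        refine ⟨fun z hz => VF_self _ (hWo z hz) _ _ _, fun z hz y hy => ?_, fun z hz y hy => ?_⟩
        · have h1 := mem_W.1 (VF_W R.toRm (hWo z hz) (hot z hz) (s + 1) ht1 b c hy)
          exact mem_W.2 ⟨h1.1, h1.2.trans (hWq z hz)⟩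
        · exact VF_congr R.toRm ht1 hy rfl rfl
      have hv' : LC.Part W (fun x' => VG R.toRm e (s + 1) x' b c) := by
        refine ⟨fun z hz => VG_self _ (hWo z hz) _ _ _, fun z hz y hy => ?_, fun z hz y hy => ?_⟩
        · have h1 := mem_W.1 (VG_W R.toRm (hWo z hz) (hot z hz) (s + 1) ht1 b c hy)
          exact mem_W.2 ⟨h1.1, h1.2.trans (hWq z hz)⟩
        · exact VG_congr R.toRm ht1 hy rfl rfl
      have hself := R.self_hf s x b c
      have hbb := D.self_cB (s + 1) b
      have hcc := D.self_cC (s + 1) c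
      have hy : LC.Part W (fun x' => R.U (s + 1) x' b c) := by
        refine ⟨fun z _ => R.self_U _ _ _ _, fun z hz y hy => ?_, fun z hz y hy => ?_⟩
        · have h1 := R.U_sub_hf s z b c hy
          rw [(hep z hz b hbb c hcc).2] at h1
          exact h1
        · exact (R.pub (s + 1) ⟨(D.mem_cA.1 (R.U_sub (s + 1) z b c hy)).symm, rfl, rfl⟩ hy).2
      have hyv : ∀ x' ∈ W, R.U (s + 1) x' b c ⊆ VF R.toRm e (s + 1) x' b c := by
        intro z hz y hy
        have h1 : R.tt (R.ep s z b c) (s + 1) z b c := (htt z hz b hbb c hcc).2 ht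
        have h2 : y ∈ R.fin (s + 1) z b c (R.jn (R.ep s z b c) (s + 1) z b c) := by
          rw [← R.U_new h1]; exact hy
        have h3 := (R.mem_jn.1 (R.fin_sub h2)).1
        rw [(hep z hz b hbb c hcc).1] at h3
        exact h3
      -- the node
      have hkfc : ∀ c' ∈ D.cC (s + 1) c, ∀ z b', D.kf e.t0 z b' c' = D.kf e.t0 z b' c := fun c' hc' z b' =>
        D.kf_c e.t0 z b' c' c (D.qc_le ht1 (D.mem_cC.1 hc'))
      have hkgb : ∀ b' ∈ D.cB (s + 1) b, ∀ z c', D.kg e.t0 z b' c' = D.kg e.t0 z b c' := fun b' hb' z c' =>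
        D.kg_b e.t0 z b' b c' (D.qb_le ht1 (D.mem_cB.1 hb'))
      have hposs : ∀ b' F, (∃ z ∈ W, D.kf e.t0 z b' c F ≠ 0) → ∀ z ∈ W, D.kf e.t0 z b' c F ≠ 0 := by
        rintro b' F ⟨z, hz, hF⟩ z' hz'
        have h1 := T.f_thick e.t0 z z' b' c F ((D.qa_le ht1 (hWq z hz)).trans (D.qa_le ht1 (hWq z' hz')).symm) hF
        have := T.pos
        linarith
      have tF : ∀ b', ∀ c' ∈ D.cC (s + 1) c, (fun z => D.kf e.t0 z b' c') = fun z => D.kf e.t0 z b' c :=
        fun b' c' hc' => funext fun z => hkfc c' hc' z b'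
      have tG : ∀ b' ∈ D.cB (s + 1) b, ∀ c', (fun z => D.kg e.t0 z b' c') = fun z => D.kg e.t0 z b c' :=
        fun b' hb' c' => funext fun z => hkgb b' hb' z c'
      have hM : 0 ≤ Real.log (1 / al) := by
        have hal := T.pos
        refine Real.log_nonneg ?_
        rw [le_div_iff₀ hal, one_mul]
        obtain ⟨F, hF⟩ : ∃ F, D.kf e.t0 x b c F ≠ 0 := by
          by_contra hcon
          push Not at hcon
          have := T.f_one e.t0 x b c
          rw [Finset.sum_eq_zero (fun F _ => hcon F)] at this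
          norm_num at this
        have h1 := T.f_thick e.t0 x x b c F rfl hF
        have h2 : D.kf e.t0 x b c F ≤ 1 := by
          rw [← T.f_one e.t0 x b c]
          exact Finset.single_le_sum (f := fun G => D.kf e.t0 x b c G) (fun G _ => T.f_nn _ _ _ _ _) (mem_univ F)
        linarith
      have hlawF : ∀ b' F, (∃ z ∈ W, D.kf e.t0 z b' c F ≠ 0) → law e.om0 (fun z => D.kf e.t0 z b' c) F ≠ 0 := by
        intro b' F hF
        have h1 := hposs b' F hF x hself
        have hc : (0 : ℝ) < e.om0.card := by exact_mod_cast Finset.card_pos.2 ⟨x, hxo⟩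
        refine (div_pos (lt_of_lt_of_le (lt_of_le_of_ne (T.f_nn e.t0 x b' c F) (Ne.symm h1)) ?_) hc).ne'
        exact Finset.single_le_sum (f := fun z => D.kf e.t0 z b' c F) (fun z _ => T.f_nn _ _ _ _ _) hxo
      have node := LC.lossC_node (kf := fun z b' => D.kf e.t0 z b' c) (kg := fun z c' => D.kg e.t0 z b c')
        (W := W) (Bs := D.cB (s + 1) b) (Cs := D.cC (s + 1) c) (v := fun x' => VF R.toRm e (s + 1) x' b c)
        (v' := fun x' => VG R.toRm e (s + 1) x' b c) (y := fun x' => R.U (s + 1) x' b c)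
        (al := al) (good := fun b' c' => gd s x b' c')
        (p0F := fun b' F c' G => RB.cl e.om0 (fun z => D.kf e.t0 z b' c) (fun z => D.kg e.t0 z b c') F G)
        (p0 := fun c' G => law e.om0 (fun z => D.kg e.t0 z b c') G)
        (B := B) (d := d) (sg := 1 / n) (e0 := e0) (L := L) (A := A) (M := Real.log (1 / al))
        (fun z b' F => T.f_nn _ _ _ _ _) (fun z b' => T.f_one _ _ _ _) (fun z c' G => T.g_nn _ _ _ _ _)
        (fun z c' => T.g_one _ _ _ _) hv hv' hy hyv T.pos ?_ ?_ ?_ ?_ ?_ ?_ hB hd (by positivity) hL he hM hA hA0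
        ?_ ?_ ?_ ?_
      · have eL : ∀ x' ∈ W, ∀ b' ∈ D.cB (s + 1) b, ∀ c' ∈ D.cC (s + 1) c,
            ind (R.tt (R.ep s x' b' c') (s + 1) x' b' c') * lsC R A B d gd s x' b' c' =
            ∑ F, ∑ G, D.kf e.t0 x' b' c F * D.kg e.t0 x' b c' G *
              (ind (A * law (VF R.toRm e (s + 1) x' b c) (fun z => D.kf e.t0 z b' c) F <
                law (R.U (s + 1) x' b c) (fun z => D.kf e.t0 z b' c) F) * (ind (gd s x b' c') *
              (ind (law (VG R.toRm e (s + 1) x' b c) (fun z => D.kg e.t0 z b c') G ≤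
                B * law e.om0 (fun z => D.kg e.t0 z b c') G) *
                max (Real.log (RB.cl e.om0 (fun z => D.kf e.t0 z b' c) (fun z => D.kg e.t0 z b c') F G /
                  law e.om0 (fun z => D.kg e.t0 z b c') G) - d) 0))) := by
          intro x' hx' b' hb' c' hc'
          have e1 := (hep x' hx' b' hb' c' hc').1
          have e2 : VF R.toRm e (s + 1) x' b' c' = VF R.toRm e (s + 1) x' b c :=
            VF_congr R.toRm ht1 (VF_self _ (hWo x' hx') _ _ _) (D.mem_cB.1 hb').symm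
              (D.qc_le ht1 (D.mem_cC.1 hc')).symm
          have e3 : VG R.toRm e (s + 1) x' b' c' = VG R.toRm e (s + 1) x' b c :=
            VG_congr R.toRm ht1 (VG_self _ (hWo x' hx') _ _ _) (D.qb_le ht1 (D.mem_cB.1 hb')).symm
              (D.mem_cC.1 hc').symm
          have e4 : R.U (s + 1) x' b' c' = R.U (s + 1) x' b c :=
            (R.pub (s + 1) ⟨rfl, (D.mem_cB.1 hb').symm, (D.mem_cC.1 hc').symm⟩ (R.self_U _ _ _ _)).2
          have e5 : ind (gd s x' b' c') = ind (gd s x b' c') := by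
            have h1 := hgd x b' c' x' (by rw [(hep x hself b' hb' c' hc').2]; exact hx')
            rw [propext h1]
          rw [ind_of ((htt x' hx' b' hb' c' hc').2 ht), one_mul]
          unfold lsC psd
          rw [e1, e2, e3, e4, e5]
          simp only [hkfc c' hc', hkgb b' hb', RB.cl_ratio]
        have eR : ∀ x' ∈ W, ∀ b' ∈ D.cB (s + 1) b, ∀ c' ∈ D.cC (s + 1) c,
            (1 / n * (L + 1) + B * (4 / d) * e0) * (2 * (1 / n) / (Real.log A - 1)) *
            (ind (R.tt (R.ep s x' b' c') (s + 1) x' b' c') *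
              Real.log (((VF R.toRm (R.ep s x' b' c') (s + 1) x' b' c').card : ℝ) / (R.U (s + 1) x' b' c').card)) +
            Real.log (1 / al) * (Real.exp (-L) / al) * ind (R.tt (R.ep s x' b' c') (s + 1) x' b' c') =
            (1 / n * (L + 1) + B * (4 / d) * e0) * (2 * (1 / n) / (Real.log A - 1)) *
              Real.log (((VF R.toRm e (s + 1) x' b c).card : ℝ) / (R.U (s + 1) x' b c).card) +
            Real.log (1 / al) * (Real.exp (-L) / al) := by
          intro x' hx' b' hb' c' hc'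
          have e1 := (hep x' hx' b' hb' c' hc').1
          have e2 : VF R.toRm e (s + 1) x' b' c' = VF R.toRm e (s + 1) x' b c :=
            VF_congr R.toRm ht1 (VF_self _ (hWo x' hx') _ _ _) (D.mem_cB.1 hb').symm
              (D.qc_le ht1 (D.mem_cC.1 hc')).symm
          have e4 : R.U (s + 1) x' b' c' = R.U (s + 1) x' b c :=
            (R.pub (s + 1) ⟨rfl, (D.mem_cB.1 hb').symm, (D.mem_cC.1 hc').symm⟩ (R.self_U _ _ _ _)).2
          rw [ind_of ((htt x' hx' b' hb' c' hc').2 ht), one_mul, mul_one, e1, e2, e4]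
        have eL2 := LC.avg_cg (s := W) fun x' hx' => LC.avg_cg fun b' hb' => LC.avg_cg fun c' hc' =>
          eL x' hx' b' hb' c' hc'
        have eR2 := LC.avg_cg (s := W) fun x' hx' => LC.avg_cg fun b' hb' => LC.avg_cg fun c' hc' =>
          eR x' hx' b' hb' c' hc'
        refine (le_of_eq eL2).trans (le_trans ?_ (le_of_eq eR2.symm))
        have hBne : (D.cB (s + 1) b).Nonempty := ⟨b, hbb⟩
        have hCne : (D.cC (s + 1) c).Nonempty := ⟨c, hcc⟩
        simp only [avg_const hBne, avg_const hCne]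
        unfold avg at node ⊢
        rw [Finset.sum_add_distrib, ← Finset.mul_sum, Finset.sum_const, nsmul_eq_mul]
        refine div_le_div_of_nonneg_right ?_ hWc.le
        refine node.trans (le_of_eq ?_)
        ring
      · intro b' _ z hz z' hz' F hF
        exact T.f_thick e.t0 z z' b' c F ((D.qa_le ht1 (hWq z hz)).trans (D.qa_le ht1 (hWq z' hz')).symm) hF
      · intro b' _ F _ c' _ _ G
        exact RB.cl_nn (fun z _ F => T.f_nn _ _ _ _ _) (fun z _ F => T.g_nn _ _ _ _ _) F G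
      · intro c' _ G
        exact div_nonneg (Finset.sum_nonneg fun z _ => T.g_nn _ _ _ _ _) (Nat.cast_nonneg _)
      · intro b' _ F hF c' _ _
        exact RB.cl_sum (fun z _ => T.g_one _ _ _ _) (hlawF b' F hF)
      · intro c' _
        exact law_sum ⟨x, hxo⟩ (fun z _ => T.g_one _ _ _ _)
      · intro b' _ F _ c' _ _ G hG
        exact RB.cl_ac (fun z _ F => T.g_nn _ _ _ _ _) hG
      · intro z hz S hS hne
        have h1 := VF_sat (D := D) (n := n) T hn (e := e) (s := s + 1) (by omega) (x := z) (b := b) (c := c)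
          (V := S) (by rw [← hR]; exact hS) hne
        rw [← hR] at h1
        calc _ ≤ _ := h1
          _ = _ := by ring
      · intro z hz S hS hne
        have h1 := VG_sat (D := D) (n := n) T hn (e := e) (s := s + 1) (by omega) (x := z) (b := b) (c := c)
          (V := S) (by rw [← hR]; exact hS) hne
        rw [← hR] at h1
        calc _ ≤ _ := h1
          _ = _ := by ring
      · intro b' hb' F hF
        have e1 := (hep x hself b' hb' c hcc).1
        have h1 := he0 x b' c F ((htt x hself b' hb' c hcc).2 ht) (by rw [e1]; exact hposs b' F hF x hself)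
        rw [e1] at h1
        refine le_trans (le_of_eq (LC.avg_cg fun c' hc' => ?_)) h1
        rw [tF b' c' hc', tG b' hb' c']
      · intro b' hb' F hF c' hc' _ z hz G hG
        have h1 := psd_le (D := D) T hd.le (e := e) (x := z) (b := b') (c := c') (hWo z hz) (hot z hz) (F := F) (G := G)
          (by rw [hkfc c' hc']; exact hposs b' F hF z hz) (by rw [hkgb b' hb']; exact hG)
        rw [tF b' c' hc', tG b' hb' c'] at h1
        exact h1
  refine key.trans (le_of_eq ?_)
  rw [E3_add, E3_smul, E3_smul]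

/-- THE LOSS (C) OF ALL STEPS -/
theorem lossC_sum {R : Rt D} {n al A B d e0 L : ℝ} (hR : R.toRm = rmB D n) (T : D.Thick al) (hn : 0 < n)
    (hA : 1 < Real.log A) (hA0 : 0 < A) (hB : 0 ≤ B) (hd : 0 < d) (hL : 0 ≤ L) (he : 0 ≤ e0) (K : ℕ)
    {gd : ℕ → X → β → γ → Prop} (hgd : ∀ s < K, ∀ x b c x', x' ∈ R.hf s x b c → (gd s x' b c ↔ gd s x b c))
    (he0 : ∀ s < K, ∀ x b c F, R.tt (R.ep s x b c) (s + 1) x b c → D.kf (R.ep s x b c).t0 x b c F ≠ 0 →
      avg (D.cC (s + 1) c) (fun c' => ind (gd s x b c') *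
        klf (RB.cl (R.ep s x b c).om0 (fun z => D.kf (R.ep s x b c).t0 z b c')
          (fun z => D.kg (R.ep s x b c).t0 z b c') F)
          (law (R.ep s x b c).om0 (fun z => D.kg (R.ep s x b c).t0 z b c'))) ≤ e0) :
    ∑ s ∈ range K, E3 (fun x b c => ind (R.tt (R.ep s x b c) (s + 1) x b c) * lsC R A B d gd s x b c) ≤
      (1 / n * (L + 1) + B * (4 / d) * e0) * (2 * (1 / n) / (Real.log A - 1)) *
        ∑ s ∈ range K, E3 (fun x b c => ind (R.tt (R.ep s x b c) (s + 1) x b c) *
          Real.log (((VF R.toRm (R.ep s x b c) (s + 1) x b c).card : ℝ) / (R.U (s + 1) x b c).card)) +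
      Real.log (1 / al) * (Real.exp (-L) / al) *
        ∑ s ∈ range K, E3 (fun x b c => ind (R.tt (R.ep s x b c) (s + 1) x b c)) := by
  rw [Finset.mul_sum, Finset.mul_sum, ← Finset.sum_add_distrib]
  refine Finset.sum_le_sum fun s hs => ?_
  have hs' := mem_range.1 hs
  exact lossC_step hR T hn hA hA0 hB hd hL he s (hgd s hs') (he0 s hs')

end step

end

end Pool.Agent.M3.S3B
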