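import Pool.Agent.M3.S3B.Rows
import Pool.Agent.M3.S3B.LossC2

/-!
# M3.S3B.Cut: the loss of the good pairs at the ends of the epochs, cut in the parts (A), (B), (C) (note 3448 (6); helper63)

* `gdT R gd K σ` : the pair is good at the end of the epoch which starts at `σ`;
* `Tm_test` : at a test at `s+1` the epoch `ep s` ends at `Tm = s + 1`;
* `sum_tests` : sums over the tests are bounded by sums over the starts;
* `psG R d gd stF stG s` : the psi part of the loss of the good pairs at the step `s → s+1`, frozen labels;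
* `cut_sum` : `∑_s E3 (1[test] psG) ≤ ∑_σ (E3 lsA + E3 lsB) + ∑_s E3 (1[test] lsC)`.
-/

set_option autoImplicit false
set_option linter.unusedSectionVars false

namespace Pool.Agent.M3.S3B

open Finset Pool.Agent.PWZ Pool.Agent.M3 Pool.Agent.M3.S3

noncomputable section

variable {X β γ ι φ : Type*} [Fintype X] {D : Dat X β γ ι φ}

section times

variable (R : Rt D)

/-- the pair is good at the end of the epoch -/
def gdT (gd : ℕ → X → β → γ → Prop) (K σ : ℕ) (x : X) (b : β) (c : γ) : Prop := gd (Tm R K σ x b c - 1) x b c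

variable {R}

theorem Tm_test {K s : ℕ} (hs : s < K) {x : X} {b : β} {c : γ} (ht : R.tt (R.ep s x b c) (s + 1) x b c) :
    Sta R (R.ep s x b c).t0 x b c ∧ Tm R K (R.ep s x b c).t0 x b c = s + 1 := by
  have h0 := R.ep_t0 s x b c
  have h1 := R.t0_le s x b c
  have hS : Sta R (R.ep s x b c).t0 x b c := by
    unfold Sta
    rw [h0]
  refine ⟨hS, le_antisymm ?_ ?_⟩
  · rw [Tm_le_iff (by omega) (by omega)]
    intro _
    rw [h0]
    exact ⟨s + 1, by omega, le_rfl, ht⟩
  · by_contra hcon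
    have h2 : Tm R K (R.ep s x b c).t0 x b c ≤ s := by omega
    rw [Tm_le_iff h1 hs.le] at h2
    have h3 := h2 hS
    rw [h0] at h3
    exact R.not_ST s x b c h3

theorem sum_tests (K : ℕ) (x : X) (b : β) (c : γ) {h : ℕ → ℝ} (h0 : ∀ σ, 0 ≤ h σ) :
    ∑ s ∈ range K, ind (R.tt (R.ep s x b c) (s + 1) x b c) * h (R.ep s x b c).t0 ≤ ∑ σ ∈ range K, h σ := by
  classical
  set T : Finset ℕ := (range K).filter fun s => R.tt (R.ep s x b c) (s + 1) x b c with hT
  have e1 : ∑ s ∈ range K, ind (R.tt (R.ep s x b c) (s + 1) x b c) * h (R.ep s x b c).t0 =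
      ∑ s ∈ T, h (R.ep s x b c).t0 := by
    rw [hT, Finset.sum_filter]
    refine Finset.sum_congr rfl fun s _ => ?_
    by_cases h1 : R.tt (R.ep s x b c) (s + 1) x b c
    · rw [ind_of h1, if_pos h1, one_mul]
    · rw [ind_not h1, if_neg h1, zero_mul]
  have e2 : ∑ s ∈ T, h (R.ep s x b c).t0 = ∑ σ ∈ T.image (fun s => (R.ep s x b c).t0), h σ := by
    rw [Finset.sum_image]
    intro s hs s' hs' hss
    have a1 := mem_filter.1 hs
    have a2 := mem_filter.1 hs'
    have b1 := (Tm_test (mem_range.1 a1.1) a1.2).2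
    have b2 := (Tm_test (mem_range.1 a2.1) a2.2).2
    have hss' : (R.ep s x b c).t0 = (R.ep s' x b c).t0 := hss
    rw [hss', b2] at b1
    omega
  rw [e1, e2]
  refine Finset.sum_le_sum_of_subset_of_nonneg ?_ fun σ _ _ => h0 σ
  intro σ hσ
  obtain ⟨s, hs, rfl⟩ := mem_image.1 hσ
  have a1 := mem_range.1 (mem_filter.1 hs).1
  exact mem_range.2 ((R.t0_le s x b c).trans_lt a1)

end times

section cut

variable (R : Rt D) [Fintype φ]

/-- the psi part of the loss of the good pairs at the step `s → s+1` -/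
def psG (d : ℝ) (gd : ℕ → X → β → γ → Prop) (stF stG : ℕ → X → β → γ → φ → Prop) (s : ℕ) (x : X) (b : β) (c : γ) : ℝ :=
  ∑ F, ∑ G, D.kf (R.ep s x b c).t0 x b c F * D.kg (R.ep s x b c).t0 x b c G *
    (ind (gd s x b c ∧ stF s x b c F ∧ stG s x b c G) * psd D d (R.ep s x b c) b c F G)

variable {R}

/-- THE CUT, pathwise -/
theorem cut_pt {al A B d : ℝ} (T : D.Thick al) {gd : ℕ → X → β → γ → Prop} {stF stG : ℕ → X → β → γ → φ → Prop}
    {K s : ℕ} (hs : s < K) {x : X} {b : β} {c : γ} (ht : R.tt (R.ep s x b c) (s + 1) x b c)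
    (hst : ∀ F, gd s x b c → D.kf (R.ep s x b c).t0 x b c F ≠ 0 → stF s x b c F →
      law (VF R.toRm (R.ep s x b c) (s + 1) x b c) (fun z => D.kf (R.ep s x b c).t0 z b c) F ≤
        B * law (R.ep s x b c).om0 (fun z => D.kf (R.ep s x b c).t0 z b c) F →
      A * law (VF R.toRm (R.ep s x b c) (s + 1) x b c) (fun z => D.kf (R.ep s x b c).t0 z b c) F <
        law (R.U (s + 1) x b c) (fun z => D.kf (R.ep s x b c).t0 z b c) F) :
    psG R d gd stF stG s x b c ≤
      (lsA R (gdT R gd K (R.ep s x b c).t0) (ps0 R T d (R.ep s x b c).t0) B K (R.ep s x b c).t0 x b c +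
        lsB R (gdT R gd K (R.ep s x b c).t0) (ps0 R T d (R.ep s x b c).t0) B K (R.ep s x b c).t0 x b c) +
      lsC R A B d gd s x b c := by
  classical
  obtain ⟨hS, hTm⟩ := Tm_test hs ht
  have h0 := R.ep_t0 s x b c
  have h1 := R.t0_le s x b c
  unfold psG lsA lsB lsC
  rw [← Finset.sum_add_distrib, ← Finset.sum_add_distrib]
  refine Finset.sum_le_sum fun F _ => ?_
  rw [← Finset.sum_add_distrib, ← Finset.sum_add_distrib]
  refine Finset.sum_le_sum fun G _ => ?_
  set t0 := (R.ep s x b c).t0 with ht0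
  have hf := T.f_nn t0 x b c F
  have hg := T.g_nn t0 x b c G
  have hps : ps0 R T d t0 x b c F G = psd D d (R.ep s x b c) b c F G := by
    rw [ps0_sta R T hS, psd_psi D T, h0]
  have hp0 : 0 ≤ psd D d (R.ep s x b c) b c F G := le_max_right _ _
  have hnA : 0 ≤ (if Sta R t0 x b c ∧ Tm R K t0 x b c ≤ K ∧ gdT R gd K t0 x b c ∧
      sgF R B K t0 x b c F ≤ Tm R K t0 x b c ∧ sgF R B K t0 x b c F ≤ sgG R B K t0 x b c G then
      D.kf t0 x b c F * (D.kg t0 x b c G * ps0 R T d t0 x b c F G) else 0) := by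
    rw [hps]
    split_ifs
    · positivity
    · exact le_rfl
  have hnB : 0 ≤ (if Sta R t0 x b c ∧ Tm R K t0 x b c ≤ K ∧ gdT R gd K t0 x b c ∧
      sgG R B K t0 x b c G ≤ Tm R K t0 x b c ∧ sgG R B K t0 x b c G ≤ sgF R B K t0 x b c F then
      D.kf t0 x b c F * (D.kg t0 x b c G * ps0 R T d t0 x b c F G) else 0) := by
    rw [hps]
    split_ifs
    · positivity
    · exact le_rfl
  have hnC : 0 ≤ D.kf t0 x b c F * D.kg t0 x b c G *
      (ind (A * law (VF R.toRm (R.ep s x b c) (s + 1) x b c) (fun z => D.kf t0 z b c) F <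
        law (R.U (s + 1) x b c) (fun z => D.kf t0 z b c) F) * (ind (gd s x b c) *
        (ind (law (VG R.toRm (R.ep s x b c) (s + 1) x b c) (fun z => D.kg t0 z b c) G ≤
          B * law (R.ep s x b c).om0 (fun z => D.kg t0 z b c) G) * psd D d (R.ep s x b c) b c F G))) :=
    mul_nonneg (mul_nonneg hf hg) (mul_nonneg (ind_nonneg _) (mul_nonneg (ind_nonneg _)
      (mul_nonneg (ind_nonneg _) hp0)))
  by_cases hkf : D.kf t0 x b c F = 0
  · rw [hkf, zero_mul, zero_mul]
    rw [hkf] at hnA hnB hnC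
    linarith
  by_cases hall : gd s x b c ∧ stF s x b c F ∧ stG s x b c G
  swap
  · rw [ind_not hall, zero_mul, mul_zero]
    linarith
  rw [ind_of hall, one_mul]
  have hgd : gdT R gd K t0 x b c := by
    unfold gdT
    rw [hTm]
    exact hall.1
  by_cases hA : sgF R B K t0 x b c F ≤ Tm R K t0 x b c ∧ sgF R B K t0 x b c F ≤ sgG R B K t0 x b c G
  · rw [if_pos (show Sta R t0 x b c ∧ Tm R K t0 x b c ≤ K ∧ gdT R gd K t0 x b c ∧
      sgF R B K t0 x b c F ≤ Tm R K t0 x b c ∧ sgF R B K t0 x b c F ≤ sgG R B K t0 x b c G from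
      ⟨hS, by rw [hTm]; exact hs, hgd, hA⟩), hps]
    rw [mul_assoc]
    rw [hps] at hnB
    linarith
  by_cases hBB : sgG R B K t0 x b c G ≤ Tm R K t0 x b c ∧ sgG R B K t0 x b c G ≤ sgF R B K t0 x b c F
  · rw [if_pos (show Sta R t0 x b c ∧ Tm R K t0 x b c ≤ K ∧ gdT R gd K t0 x b c ∧
      sgG R B K t0 x b c G ≤ Tm R K t0 x b c ∧ sgG R B K t0 x b c G ≤ sgF R B K t0 x b c F from
      ⟨hS, by rw [hTm]; exact hs, hgd, hBB⟩), hps]
    rw [mul_assoc]
    rw [hps] at hnA
    linarith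
  have hF : s + 1 < sgF R B K t0 x b c F := by
    rw [← hTm]
    by_contra hcon
    have h2 := not_lt.1 hcon
    rcases le_total (sgF R B K t0 x b c F) (sgG R B K t0 x b c G) with h3 | h3
    · exact hA ⟨h2, h3⟩
    · exact hBB ⟨h3.trans h2, h3⟩
  have hG : s + 1 < sgG R B K t0 x b c G := by
    rw [← hTm]
    by_contra hcon
    have h2 := not_lt.1 hcon
    rcases le_total (sgG R B K t0 x b c G) (sgF R B K t0 x b c F) with h3 | h3
    · exact hBB ⟨h2, h3⟩
    · exact hA ⟨h3.trans h2, h3⟩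
  have hnF : ¬ strF R B t0 (s + 1) x b c F := by
    intro h2
    have := sgF_le_of (R := R) (B := B) (K := K) (show t0 < s + 1 by omega) hs h2
    omega
  have hnG : ¬ strG R B t0 (s + 1) x b c G := not_strG (by omega) hs hG
  unfold strF at hnF
  unfold strG at hnG
  rw [h0, not_lt] at hnF hnG
  have h4 := hst F hall.1 hkf hall.2.1 hnF
  rw [ind_of h4, ind_of hall.1, ind_of hnG]
  simp only [one_mul]
  linarith

variable [Fintype β] [Fintype γ]

/-- THE CUT -/
theorem cut_sum {al A B d : ℝ} (T : D.Thick al) {gd : ℕ → X → β → γ → Prop} {stF stG : ℕ → X → β → γ → φ → Prop}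
    {K : ℕ}
    (hst : ∀ s < K, ∀ x b c F, R.tt (R.ep s x b c) (s + 1) x b c → gd s x b c →
      D.kf (R.ep s x b c).t0 x b c F ≠ 0 → stF s x b c F →
      law (VF R.toRm (R.ep s x b c) (s + 1) x b c) (fun z => D.kf (R.ep s x b c).t0 z b c) F ≤
        B * law (R.ep s x b c).om0 (fun z => D.kf (R.ep s x b c).t0 z b c) F →
      A * law (VF R.toRm (R.ep s x b c) (s + 1) x b c) (fun z => D.kf (R.ep s x b c).t0 z b c) F <
        law (R.U (s + 1) x b c) (fun z => D.kf (R.ep s x b c).t0 z b c) F) :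
    ∑ s ∈ range K, E3 (fun x b c => ind (R.tt (R.ep s x b c) (s + 1) x b c) * psG R d gd stF stG s x b c) ≤
      ∑ σ ∈ range K, (E3 (lsA R (gdT R gd K σ) (ps0 R T d σ) B K σ) + E3 (lsB R (gdT R gd K σ) (ps0 R T d σ) B K σ)) +
      ∑ s ∈ range K, E3 (fun x b c => ind (R.tt (R.ep s x b c) (s + 1) x b c) * lsC R A B d gd s x b c) := by
  classical
  have e1 : ∑ σ ∈ range K, (E3 (lsA R (gdT R gd K σ) (ps0 R T d σ) B K σ) +
      E3 (lsB R (gdT R gd K σ) (ps0 R T d σ) B K σ)) = E3 fun x b c => ∑ σ ∈ range K,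
        (lsA R (gdT R gd K σ) (ps0 R T d σ) B K σ x b c + lsB R (gdT R gd K σ) (ps0 R T d σ) B K σ x b c) := by
    rw [E3_finsum]
    exact Finset.sum_congr rfl fun σ _ => (E3_add _ _).symm
  rw [e1, ← E3_finsum, ← E3_finsum, ← E3_add]
  refine E3_mono fun x b c => ?_
  have hn : ∀ σ, 0 ≤ lsA R (gdT R gd K σ) (ps0 R T d σ) B K σ x b c + lsB R (gdT R gd K σ) (ps0 R T d σ) B K σ x b c := by
    intro σ
    have hps : ∀ F G, 0 ≤ ps0 R T d σ x b c F G := by
      intro F G
      unfold ps0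
      split_ifs
      · exact le_max_right _ _
      · exact le_rfl
    refine add_nonneg ?_ ?_
    · unfold lsA
      refine Finset.sum_nonneg fun F _ => Finset.sum_nonneg fun G _ => ?_
      split_ifs
      · exact mul_nonneg (T.f_nn _ _ _ _ _) (mul_nonneg (T.g_nn _ _ _ _ _) (hps F G))
      · exact le_rfl
    · unfold lsB
      refine Finset.sum_nonneg fun F _ => Finset.sum_nonneg fun G _ => ?_
      split_ifs
      · exact mul_nonneg (T.f_nn _ _ _ _ _) (mul_nonneg (T.g_nn _ _ _ _ _) (hps F G))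
      · exact le_rfl
  have h1 := sum_tests (R := R) K x b c hn
  refine le_trans ?_ (add_le_add_left h1 _)
  rw [← Finset.sum_add_distrib]
  refine Finset.sum_le_sum fun s hs => ?_
  by_cases ht : R.tt (R.ep s x b c) (s + 1) x b c
  · rw [ind_of ht]
    simp only [one_mul]
    exact cut_pt T (mem_range.1 hs) ht fun F h2 h3 h4 h5 => hst s (mem_range.1 hs) x b c F ht h2 h3 h4 h5
  · rw [ind_not ht]
    simp only [zero_mul, add_zero, le_refl]

end cut

end

end Pool.Agent.M3.S3B
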