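import Pool.Agent.M3.S3B.LossAB
import Pool.Agent.M3.S3B.RareB

/-!
# M3.S3B.Rows: rarity of the bad rows at the running times (step (5) of note 3448 in the process) (helper65)

`ps0 R T d σ x b c F G = psi d (labels of σ) (om0 of the epoch at σ) b c F G`.
* `rowsF` : the hypothesis `hRareF` of `lossAB` with `lam = sig (L + 1) + B (4/d) e0`, `eL = exp (-L)` from the saturation of the cells
  of the virtual `g`-partition (`SatG`) and the row entropy (`RowG`) at the running times;
* `rowsG` : the mirror;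
* `ps0_le` : `0 ≤ ps0 ≤ log (1/al)`;
* `lossAB0` : `lossAB` with these.
-/

set_option autoImplicit false
set_option linter.unusedSectionVars false

namespace Pool.Agent.M3.S3B

open Finset Pool.Agent.PWZ Pool.Agent.M3 Pool.Agent.M3.S3

noncomputable section

variable {X β γ ι φ : Type*} [Fintype X] {D : Dat X β γ ι φ} [Fintype φ]

section defs

variable (R : Rt D) {al : ℝ} (T : D.Thick al)

open Classical in
/-- the clipped density of the start class (`0` if no epoch starts) -/
def ps0 (d : ℝ) (σ : ℕ) (x : X) (b : β) (c : γ) (F G : φ) : ℝ :=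
  if Sta R σ x b c then psi d (D.kp T σ) (R.ep σ x b c).om0 b c F G else 0

theorem ps0_sta {d : ℝ} {σ : ℕ} {x : X} {b : β} {c : γ} (h : Sta R σ x b c) (F G : φ) :
    ps0 R T d σ x b c F G = psi d (D.kp T σ) (R.ep σ x b c).om0 b c F G := if_pos h

variable [Fintype β] [Fintype γ]

/-- saturation of the cells of the virtual `g`-partition at the running times of the epochs which start at `σ` -/
def SatG (sig : ℝ) (K σ : ℕ) : Prop := ∀ t x b c, σ ≤ t → t ≤ K → t < Tm R K σ x b c →
  ∀ S ⊆ VG R.toRm (R.ep σ x b c) t x b c, S.Nonempty →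
    avg (D.cC t c) (fun c' => klf (law S fun y => D.kg σ y b c')
      (law (VG R.toRm (R.ep σ x b c) t x b c) fun y => D.kg σ y b c')) ≤
      sig * (Real.log (((VG R.toRm (R.ep σ x b c) t x b c).card : ℝ) / S.card) + 1)

/-- saturation of the cells of the virtual `f`-partition -/
def SatF (sig : ℝ) (K σ : ℕ) : Prop := ∀ t x b c, σ ≤ t → t ≤ K → t < Tm R K σ x b c →
  ∀ S ⊆ VF R.toRm (R.ep σ x b c) t x b c, S.Nonempty →
    avg (D.cB t b) (fun b' => klf (law S fun y => D.kf σ y b' c)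
      (law (VF R.toRm (R.ep σ x b c) t x b c) fun y => D.kf σ y b' c)) ≤
      sig * (Real.log (((VF R.toRm (R.ep σ x b c) t x b c).card : ℝ) / S.card) + 1)

/-- row entropy: the tables of the start class -/
def RowG (un : ℕ → X → β → γ → Prop) (e0 : ℝ) (K σ : ℕ) : Prop := ∀ t x b c F, σ ≤ t → t ≤ K → t < Tm R K σ x b c →
  law (R.ep σ x b c).om0 (fun y => D.kf σ y b c) F ≠ 0 →
    avg (D.cC t c) (fun c' => ind (un t x b c') *
      klf (RB.cl (R.ep σ x b c).om0 (fun y => D.kf σ y b c') (fun y => D.kg σ y b c') F)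
        (law (R.ep σ x b c).om0 fun y => D.kg σ y b c')) ≤ e0

/-- row entropy, mirror -/
def RowF (un : ℕ → X → β → γ → Prop) (e0 : ℝ) (K σ : ℕ) : Prop := ∀ t x b c G, σ ≤ t → t ≤ K → t < Tm R K σ x b c →
  law (R.ep σ x b c).om0 (fun y => D.kg σ y b c) G ≠ 0 →
    avg (D.cB t b) (fun b' => ind (un t x b' c) *
      klf (RB.cl (R.ep σ x b c).om0 (fun y => D.kg σ y b' c) (fun y => D.kf σ y b' c) G)
        (law (R.ep σ x b c).om0 fun y => D.kf σ y b' c)) ≤ e0

end defs

variable {R : Rt D} {al : ℝ} (T : D.Thick al) [Fintype β] [Fintype γ]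

include T in
open Classical in
theorem rowsF {sig L B d e0 : ℝ} (hB : 0 ≤ B) (hd : 0 < d) (hsig : 0 ≤ sig) (hL : 0 ≤ L) (he0 : 0 ≤ e0) {K σ : ℕ}
    {un : ℕ → X → β → γ → Prop}
    (hun : ∀ t x y b c, σ ≤ t → y ∈ (R.ep σ x b c).om0 → D.qa t y = D.qa t x → (un t y b c ↔ un t x b c))
    (hsat : SatG R sig K σ) (hrow : RowG R un e0 K σ) :
    ∀ t x b c F, σ ≤ t → t ≤ K → t < Tm R K σ x b c →
      (((VG R.toRm (R.ep σ x b c) t x b c).filter fun y =>
        sig * (L + 1) + B * (4 / d) * e0 < row R un (ps0 R T d σ) B σ t y b c F).card : ℝ) ≤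
        Real.exp (-L) * (VG R.toRm (R.ep σ x b c) t x b c).card := by
  intro t x b c F hσ hK hTm
  have hS : (R.ep σ x b c).t0 = σ := Sta_of_lt hσ hTm
  set e := R.ep σ x b c with he
  set v := VG R.toRm e t x b c with hv
  have hlam : 0 ≤ sig * (L + 1) + B * (4 / d) * e0 := by positivity
  have hnode : ∀ y ∈ v, ∀ c' ∈ D.cC t c, y ∈ e.om0 ∧ D.Same t x b c y b c' := by
    intro y hy c' hc'
    have h1 := VG_W R.toRm (R.self_om0 σ x b c) (R.om0_sub σ x b c) t (by rw [← he, hS]; exact hσ) b c hy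
    exact ⟨(mem_W.1 h1).1, (mem_W.1 h1).2.symm, rfl, (D.mem_cC.1 hc').symm⟩
  have hep : ∀ y ∈ v, ∀ c' ∈ D.cC t c, R.ep σ y b c' = e := fun y hy c' hc' =>
    ep_same hσ (hnode y hy c' hc').2 (hnode y hy c' hc').1
  have hVG : ∀ y ∈ v, ∀ c' ∈ D.cC t c, VG R.toRm e t y b c' = v := fun y hy c' hc' =>
    VG_congr R.toRm (by rw [hS]; exact hσ) hy rfl (D.mem_cC.1 hc').symm
  have hSt : ∀ y ∈ v, ∀ c' ∈ D.cC t c, Sta R σ y b c' := fun y hy c' hc' => by
    show (R.ep σ y b c').t0 = σ
    rw [hep y hy c' hc', hS]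
  by_cases hF : law e.om0 (fun y => D.kf σ y b c) F = 0
  · -- an impossible letter
    have h1 : (v.filter fun y => sig * (L + 1) + B * (4 / d) * e0 < row R un (ps0 R T d σ) B σ t y b c F) = ∅ := by
      refine filter_eq_empty_iff.2 fun y hy => ?_
      rw [not_lt]
      refine le_trans (le_of_eq ?_) hlam
      unfold row avg
      rw [sum_eq_zero, zero_div]
      intro c' hc'
      refine sum_eq_zero fun G _ => ?_
      have h2 : ps0 R T d σ y b c' F G = 0 := by
        have h3 : (fun y => D.kf σ y b c') = fun y => D.kf σ y b c := by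
          funext y
          exact D.kf_c σ y b c' c (D.qc_le hσ (D.mem_cC.1 hc'))
        rw [ps0_sta R T (hSt y hy c' hc')]
        unfold psi io
        rw [hep y hy c' hc']
        show max (Real.log (avg e.om0 (fun x => D.kf σ x b c' F * D.kg σ x b c' G) /
          (law e.om0 (fun x => D.kf σ x b c') F * law e.om0 (fun x => D.kg σ x b c') G)) - d) 0 = 0
        rw [h3, hF, zero_mul, div_zero, Real.log_zero]
        exact max_eq_right (by linarith)
      rw [h2, mul_zero]
      exact ite_self 0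
    rw [h1, card_empty, Nat.cast_zero]
    positivity
  · have hkfc : ∀ c' ∈ D.cC t c, (fun y => D.kf σ y b c') = fun y => D.kf σ y b c := by
      intro c' hc'
      funext y
      exact D.kf_c σ y b c' c (D.qc_le hσ (D.mem_cC.1 hc'))
    have hne : e.om0.Nonempty := ⟨x, R.self_om0 σ x b c⟩
    refine RB.rareB (kg := fun y c' => D.kg σ y b c') (C := D.cC t c) (good := fun c' => un t x b c')
      (p0F := fun c' => RB.cl e.om0 (fun y => D.kf σ y b c') (fun y => D.kg σ y b c') F)
      (p0 := fun c' => law e.om0 fun y => D.kg σ y b c') (B := B) (d := d) (sig := sig) (e0 := e0)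
      (fun _ _ _ _ _ => T.g_nn _ _ _ _ _) (fun _ _ _ _ => T.g_one _ _ _ _)
      (fun c' _ _ G => RB.cl_nn (fun _ _ _ => T.f_nn _ _ _ _ _) (fun _ _ _ => T.g_nn _ _ _ _ _) F G)
      (fun c' _ _ G => bd_law_nn (fun _ _ => T.g_nn _ _ _ _ _) _ _)
      (fun c' hc' _ => RB.cl_sum (fun _ _ => T.g_one _ _ _ _) (by rw [hkfc c' hc']; exact hF))
      (fun c' _ _ => law_sum hne fun _ _ => T.g_one _ _ _ _)
      (fun c' _ _ G h => RB.cl_ac (fun _ _ _ => T.g_nn _ _ _ _ _) h)
      hB hd hsig (hsat t x b c hσ hK hTm) (hrow t x b c F hσ hK hTm hF) _ (filter_subset _ _) ?_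
    intro y hy
    rw [mem_filter] at hy
    refine lt_of_lt_of_le hy.2 (le_of_eq ?_)
    unfold row RB.RR avg
    congr 1
    refine sum_congr rfl fun c' hc' => ?_
    beta_reduce
    rw [mul_sum]
    refine sum_congr rfl fun G _ => ?_
    have h1 : un t y b c' ↔ un t x b c' := by
      have hxv : x ∈ v := VG_self R.toRm (R.self_om0 σ x b c) t b c
      have h0 : R.ep σ x b c' = e := hep x hxv c' hc'
      exact hun t x y b c' hσ (by rw [h0]; exact (hnode y hy.1 c' hc').1) (hnode y hy.1 c' hc').2.1.symm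
    have h2 : ¬ strG R B σ t y b c' G ↔ law v (fun y => D.kg σ y b c') G ≤ B * law e.om0 (fun y => D.kg σ y b c') G := by
      unfold strG
      rw [hep y hy.1 c' hc', hVG y hy.1 c' hc', not_lt]
    have h3 : ps0 R T d σ y b c' F G =
        max (Real.log (RB.cl e.om0 (fun y => D.kf σ y b c') (fun y => D.kg σ y b c') F G /
          law e.om0 (fun y => D.kg σ y b c') G) - d) 0 := by
      rw [RB.cl_ratio, ps0_sta R T (hSt y hy.1 c' hc')]
      unfold psi io
      rw [hep y hy.1 c' hc']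
      rfl
    rw [h3]
    by_cases h4 : un t x b c'
    · by_cases h5 : law v (fun y => D.kg σ y b c') G ≤ B * law e.om0 (fun y => D.kg σ y b c') G
      · rw [if_pos ⟨h1.2 h4, h2.2 h5⟩, ind_of h4, ind_of h5, one_mul, one_mul]
      · rw [if_neg (fun h => h5 (h2.1 h.2)), ind_not h5, zero_mul, mul_zero, mul_zero]
    · rw [if_neg (fun h => h4 (h1.1 h.1)), ind_not h4, zero_mul]

/-! ## mirror -/

theorem psi_swap (d : ℝ) (σ : ℕ) (V : Finset X) (b : β) (c : γ) (F G : φ) :
    psi d (D.swap.kp (thick_swap T) σ) V c b G F = psi d (D.kp T σ) V b c F G := by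
  unfold psi io
  show max (Real.log (avg V (fun x => D.kg σ x b c G * D.kf σ x b c F) /
    (law V (fun x => D.kg σ x b c) G * law V (fun x => D.kf σ x b c) F)) - d) 0 =
    max (Real.log (avg V (fun x => D.kf σ x b c F * D.kg σ x b c G) /
    (law V (fun x => D.kf σ x b c) F * law V (fun x => D.kg σ x b c) G)) - d) 0
  rw [mul_comm (law V (fun x => D.kg σ x b c) G)]
  simp only [mul_comm (D.kg σ _ b c G)]

theorem ps0_swap (d : ℝ) (σ : ℕ) (x : X) (b : β) (c : γ) (F G : φ) :
    ps0 R.swap (thick_swap T) d σ x c b G F = ps0 R T d σ x b c F G := by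
  classical
  have hS : Sta R.swap σ x c b ↔ Sta R σ x b c := by
    unfold Sta
    rw [R.ep_swap]
  by_cases h : Sta R σ x b c
  · rw [ps0_sta R T h, ps0_sta R.swap (thick_swap T) (hS.2 h), R.ep_swap]
    exact psi_swap T d σ _ b c F G
  · unfold ps0
    rw [if_neg h, if_neg (fun h2 => h (hS.1 h2))]

theorem SatG_swap {sig : ℝ} {K σ : ℕ} (h : SatF R sig K σ) : SatG R.swap sig K σ := by
  intro t x c b h1 h2 h3 S hS hne
  rw [R.ep_swap, R.toRm_swap, VG_swap] at hS ⊢
  exact h t x b c h1 h2 (by rw [← Tm_swap]; exact h3) S hS hne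

theorem RowG_swap {un : ℕ → X → β → γ → Prop} {e0 : ℝ} {K σ : ℕ} (h : RowF R un e0 K σ) :
    RowG R.swap (fun t x c b => un t x b c) e0 K σ := by
  intro t x c b G h1 h2 h3 h4
  rw [R.ep_swap] at h4 ⊢
  exact h t x b c G h1 h2 (by rw [← Tm_swap]; exact h3) h4

include T in
open Classical in
theorem rowsG {sig L B d e0 : ℝ} (hB : 0 ≤ B) (hd : 0 < d) (hsig : 0 ≤ sig) (hL : 0 ≤ L) (he0 : 0 ≤ e0) {K σ : ℕ}
    {un : ℕ → X → β → γ → Prop}
    (hun : ∀ t x y b c, σ ≤ t → y ∈ (R.ep σ x b c).om0 → D.qa t y = D.qa t x → (un t y b c ↔ un t x b c))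
    (hsat : SatF R sig K σ) (hrow : RowF R un e0 K σ) :
    ∀ t x b c G, σ ≤ t → t ≤ K → t < Tm R K σ x b c →
      (((VF R.toRm (R.ep σ x b c) t x b c).filter fun y =>
        sig * (L + 1) + B * (4 / d) * e0 < rowG R un (ps0 R T d σ) B σ t y b c G).card : ℝ) ≤
        Real.exp (-L) * (VF R.toRm (R.ep σ x b c) t x b c).card := by
  intro t x b c G h1 h2 h3
  have h := rowsF (R := R.swap) (thick_swap T) hB hd hsig hL he0 (K := K) (σ := σ)
    (un := fun t x c b => un t x b c) (fun t x y c b ht hy hq => by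
      rw [R.ep_swap] at hy
      exact hun t x y b c ht hy hq) (SatG_swap hsat) (RowG_swap hrow) t x c b G h1 h2 (by rw [Tm_swap]; exact h3)
  rw [R.ep_swap, R.toRm_swap, VG_swap] at h
  have e1 : (fun x c b G F => ps0 R T d σ x b c F G) = ps0 R.swap (thick_swap T) d σ := by
    funext x c b G F
    exact (ps0_swap T d σ x b c F G).symm
  have e2 : ∀ y, row R.swap (fun t x c b => un t x b c) (ps0 R.swap (thick_swap T) d σ) B σ t y c b G =
      rowG R un (ps0 R T d σ) B σ t y b c G := by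
    intro y
    rw [← e1]
    exact row_swap un (ps0 R T d σ) B σ t y b c G
  simp only [e2] at h
  exact h

/-- the frozen density is bounded -/
theorem ps0_le {d : ℝ} (hal : al ≤ 1) (hd : 0 ≤ d) (σ : ℕ) (x : X) (b : β) (c : γ) (F G : φ) :
    0 ≤ ps0 R T d σ x b c F G ∧ ps0 R T d σ x b c F G ≤ Real.log (1 / al) := by
  classical
  have hal0 := T.pos
  have hlog : 0 ≤ Real.log (1 / al) := Real.log_nonneg (by rw [le_div_iff₀ hal0, one_mul]; exact hal)
  by_cases hS : Sta R σ x b c
  swap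
  · unfold ps0
    rw [if_neg hS]
    exact ⟨le_rfl, hlog⟩
  rw [ps0_sta R T hS]
  unfold psi
  refine ⟨le_max_right _ _, ?_⟩
  refine max_le ?_ hlog
  have h0 : io (D.kp T σ) (R.ep σ x b c).om0 b c F G ≤ Real.log (1 / al) := by
    unfold io
    show Real.log (avg (R.ep σ x b c).om0 (fun x => D.kf σ x b c F * D.kg σ x b c G) /
      (law (R.ep σ x b c).om0 (fun x => D.kf σ x b c) F * law (R.ep σ x b c).om0 (fun x => D.kg σ x b c) G)) ≤ _
    set V := (R.ep σ x b c).om0 with hV
    have hxV : x ∈ V := R.self_om0 σ x b c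
    have hVne : V.Nonempty := ⟨x, hxV⟩
    have hcard : (0 : ℝ) < V.card := by exact_mod_cast hVne.card_pos
    have hcell : ∀ y ∈ V, ∀ z ∈ V, D.qa σ y = D.qa σ z := by
      have h1 : ∀ y ∈ V, D.qa σ y = D.qa σ x := by
        intro y hy
        have h2 := D.mem_cA.1 (R.om0_sub σ x b c hy)
        rw [show (R.ep σ x b c).t0 = σ from hS] at h2
        exact h2
      exact fun y hy z hz => (h1 y hy).trans (h1 z hz).symm
    have hf0 : ∀ y, 0 ≤ D.kf σ y b c F := fun y => T.f_nn _ _ _ _ _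
    have hg0 : ∀ y, 0 ≤ D.kg σ y b c G := fun y => T.g_nn _ _ _ _ _
    have hg1 : ∀ y, D.kg σ y b c G ≤ 1 := by
      intro y
      rw [← T.g_one σ y b c]
      exact single_le_sum (f := fun F => D.kg σ y b c F) (fun F _ => T.g_nn _ _ _ _ _) (mem_univ G)
    by_cases hz : avg V (fun x => D.kf σ x b c F * D.kg σ x b c G) = 0
    · rw [hz, zero_div, Real.log_zero]
      exact hlog
    -- some point with both kernels positive
    have hex : ∃ y ∈ V, D.kf σ y b c F * D.kg σ y b c G ≠ 0 := by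
      by_contra h
      push Not at h
      apply hz
      unfold avg
      rw [sum_eq_zero h, zero_div]
    obtain ⟨y, hy, hyne⟩ := hex
    have hgal : al ≤ law V (fun x => D.kg σ x b c) G := by
      unfold law avg
      rw [le_div_iff₀ hcard, mul_comm, ← nsmul_eq_mul]
      exact card_nsmul_le_sum _ _ _ fun z hz =>
        T.g_thick σ y z b c G (hcell y hy z hz) (right_ne_zero_of_mul hyne)
    have hlf : 0 < law V (fun x => D.kf σ x b c) F := by
      unfold law avg
      refine div_pos (sum_pos' (fun z _ => hf0 z) ⟨y, hy, ?_⟩) hcard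
      exact lt_of_le_of_ne (hf0 y) (Ne.symm (left_ne_zero_of_mul hyne))
    have hle : avg V (fun x => D.kf σ x b c F * D.kg σ x b c G) ≤ law V (fun x => D.kf σ x b c) F := by
      unfold law avg
      refine div_le_div_of_nonneg_right (sum_le_sum fun z _ => ?_) hcard.le
      exact mul_le_of_le_one_right (hf0 z) (hg1 z)
    have hpos : 0 < avg V (fun x => D.kf σ x b c F * D.kg σ x b c G) := by
      refine lt_of_le_of_ne ?_ (Ne.symm hz)
      unfold avg
      exact div_nonneg (sum_nonneg fun z _ => mul_nonneg (hf0 z) (hg0 z)) hcard.le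
    refine Real.log_le_log (div_pos hpos (mul_pos hlf (hal0.trans_le hgal))) ?_
    rw [div_le_div_iff₀ (mul_pos hlf (hal0.trans_le hgal)) hal0, one_mul]
    exact mul_le_mul hle hgal hal0.le hlf.le
  linarith

/-- PARTS (A) AND (B) with the frozen tables -/
theorem lossAB0 {sig L B d e0 : ℝ} (hal : al ≤ 1) (hB : Real.exp 2 ≤ B) (hd : 0 < d) (hsig : 0 ≤ sig) (hL : 0 ≤ L)
    (he0 : 0 ≤ e0) {K σ : ℕ} (hK : σ ≤ K) (gd : X → β → γ → Prop) (un : ℕ → X → β → γ → Prop)
    (hgd : ∀ x b c, Sta R σ x b c → Tm R K σ x b c ≤ K → gd x b c → ∀ t, σ ≤ t → t < Tm R K σ x b c → un t x b c)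
    (hun : ∀ t x y b c, σ ≤ t → y ∈ (R.ep σ x b c).om0 → D.qa t y = D.qa t x → (un t y b c ↔ un t x b c))
    (hsG : SatG R sig K σ) (hrG : RowG R un e0 K σ) (hsF : SatF R sig K σ) (hrF : RowF R un e0 K σ) :
    E3 (lsA R gd (ps0 R T d σ) B K σ) + E3 (lsB R gd (ps0 R T d σ) B K σ) ≤
      2 * (sig * (L + 1) + B * (4 / d) * e0) * (gainF R K σ + gainG R K σ) +
        4 * Real.log (1 / al) * (Real.exp (-L) / al) * E3 (fun x b c => ind (R.start σ x b c)) := by
  have hB0 : 0 ≤ B := (Real.exp_pos 2).le.trans hB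
  have hlam : 0 ≤ sig * (L + 1) + B * (4 / d) * e0 := by positivity
  have hM : 0 ≤ Real.log (1 / al) := Real.log_nonneg (by rw [le_div_iff₀ T.pos, one_mul]; exact hal)
  exact lossAB T hB (Real.exp_pos _).le hlam hM hK gd un (ps0 R T d σ) hgd
    (fun x b c F G => ps0_le T hal hd.le σ x b c F G)
    (rowsF T hB0 hd hsig hL he0 hun hsG hrG) (rowsG T hB0 hd hsig hL he0 hun hsF hrF)

end

end Pool.Agent.M3.S3B
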