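import Pool.Agent.M3.S3B.Tests
import Pool.Agent.M3.S3B.RmB
import Pool.Agent.M3.S3B.Rows
import Pool.Agent.M3.S3B.LossC2
import Pool.Agent.M3.S3.SynF
import Pool.Agent.M3.S3.UpdOf

/-!
# M3.S3B.Main: route B (note 3448), the modules and their interface (helper46)

* `nbB al n` numbers of the tests, `rB D dg al n K` THE RULE, `LL Lam n = 20 (Lam + log n)`, `dB n = n^(-1/2)`;
* `un0` unchanged pair, `gdS` good pair for the step `s → s+1`;
* `crt` = the class of the time `s` is critical, `thB` = the half step class is not tiny;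
* THE MODULES (one `Prop` each): `StGain`, `StNum`, `StC1`, `StC2`, `StMK`, `StSat`, `StRow`, `StRowT`, `StBad`, `StNorm`,
  `StJump`, `StTiny`.
-/

set_option autoImplicit false
set_option linter.unusedSectionVars false

namespace Pool.Agent.M3.S3B

open Finset Pool.Agent.PWZ Pool.Agent.M3 Pool.Agent.M3.S3

noncomputable section

/-! ## parameters -/

/-- numbers of the tests -/
def nbB (al n : ℝ) : Nb where
  kap1 := al ^ 2 / (8 * n ^ 2)
  kap2 := 1 / n ^ 3
  kap3 := (al ^ 2 / (8 * n ^ 2)) ^ 2 / n ^ 3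
  eps3 := al ^ 2 / n ^ 4

/-- exponent of the rare events -/
def LL (Lam n : ℝ) : ℝ := 20 * (Lam + Real.log n)

/-- clipping level -/
def dB (n : ℝ) : ℝ := 1 / Real.sqrt n

section rule

variable {X β γ ι φ : Type*} [Fintype X] [Fintype β] [Fintype γ] [Fintype φ]

/-- THE RULE of route B -/
abbrev rB (D : Dat X β γ ι φ) (dg : ℕ → X → ℝ) (al n : ℝ) (K : ℕ) : Rt D :=
  mkRt (rmB D n) (updOf D) (nbB al n) dg K

variable {D : Dat X β γ ι φ} {al : ℝ}

/-! ## pairs -/

/-- the own pair is unchanged at the time `t` of the epoch which starts at `σ` (the predicate `un` of `Rows`) -/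
def un0 (R : Rt D) (Up : Upd D) (N : Nb) (σ t : ℕ) (x : X) (b : β) (c : γ) : Prop :=
  ¬ Chg Up N (R.ep σ x b c) t x b c b c

/-- the pair `(b',c')` is good for the step `s → s+1` of the epoch `e`: unchanged at `s`, and the law of its frozen labels
moves by at most `kap1` -/
def gdS (Up : Upd D) (N : Nb) (e : Epo X) (s : ℕ) (x : X) (b : β) (c : γ) (b' : β) (c' : γ) : Prop :=
  ¬ Chg Up N e s x b c b' c' ∧ ∀ F G, |pl D e.t0 b c (W D e (s + 1) x) b' c' F G - pl D e.t0 b c (W D e s x) b' c' F G| ≤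
    N.kap1

/-- the half step class is not tiny -/
def thB (R : Rt D) (L : ℝ) (s : ℕ) (x : X) (b : β) (c : γ) : ℝ :=
  ind (Real.exp (-L) * (R.U s x b c).card ≤ ((R.hf s x b c).card : ℝ))

/-- the class of the time `s` is critical (then an epoch starts at `s`) -/
def crt (R : Rt D) (N : Nb) (dg : ℕ → X → ℝ) (s : ℕ) (x : X) (b : β) (c : γ) : Prop :=
  Crit (D := D) N dg s b c (R.U s x b c)

/-! ## THE MODULES -/

/-- bits of the process, with the start -/
def btB (R : Rt D) (K : ℕ) : ℝ :=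
  E3 (fun x b c => Real.log (((D.cA 0 x).card : ℝ) / (R.U 0 x b c).card)) +
    ∑ s ∈ range K, E3 fun x b c => Real.log (((R.hf s x b c).card : ℝ) / (R.U (s + 1) x b c).card)

/-- expected number of starts of epochs before `K` -/
def nst (R : Rt D) (K : ℕ) : ℝ := ∑ σ ∈ range K, E3 fun x b c => ind (R.start σ x b c)

/-- GAINS of the virtual partitions -/
def StGain (R : Rt D) (K : ℕ) (Lam : ℝ) : Prop :=
  ∑ σ ∈ range K, gainF R K σ ≤ Lam ∧ ∑ σ ∈ range K, gainG R K σ ≤ Lam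

/-- BITS, `A = C n Lam` -/
def StBits (R : Rt D) (K : ℕ) (A : ℝ) : Prop := btB R K ≤ A

/-- NUMBER of epochs -/
def StNum (R : Rt D) (K : ℕ) (N : ℝ) : Prop := nst R K ≤ N

/-- SATURATION of the virtual cells at the running times, `sig = 1/n` -/
def StSat (R : Rt D) (K : ℕ) (sig : ℝ) : Prop := ∀ σ < K, SatG R sig K σ ∧ SatF R sig K σ

/-- ROW ENTROPY at the running times, `e0 = C (Lam+1)/n` -/
def StRow (R : Rt D) (Up : Upd D) (N : Nb) (K : ℕ) (e0 : ℝ) : Prop :=
  ∀ σ < K, RowG R (un0 R Up N σ) e0 K σ ∧ RowF R (un0 R Up N σ) e0 K σ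

/-- ROW ENTROPY for the good pairs at the steps of all running times `s`, cells of the time `s+1` (the hypothesis `he0` of
`lossC_sum`) -/
def StRowT (R : Rt D) (Up : Upd D) (N : Nb) (K : ℕ) (e0 : ℝ) : Prop :=
  ∀ s < K, ∀ x b c F, D.kf (R.ep s x b c).t0 x b c F ≠ 0 →
      avg (D.cC (s + 1) c) (fun c' => ind (gdS Up N (R.ep s x b c) s x b c b c') *
        klf (RB.cl (R.ep s x b c).om0 (fun z => D.kf (R.ep s x b c).t0 z b c')
          (fun z => D.kg (R.ep s x b c).t0 z b c') F)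
          (law (R.ep s x b c).om0 (fun z => D.kg (R.ep s x b c).t0 z b c'))) ≤ e0

/-- BAD PAIRS are rare at every time with a class which is not critical, `eta = n^(-2)` -/
def StBad (R : Rt D) (Up : Upd D) (N : Nb) (dg : ℕ → X → ℝ) (K : ℕ) (eta : ℝ) : Prop :=
  ∀ s < K, ∀ x b c, ¬ crt R N dg s x b c →
    (av2 D (s + 1) b c fun b' c' => ind (¬ gdS Up N (R.ep s x b c) s x b c b' c')) ≤ eta

/-- the half step classes are rarely tiny -/
def StTiny (R : Rt D) (K : ℕ) (L h : ℝ) : Prop :=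
  ∑ s ∈ range K, E3 (fun x b c => 1 - thB R L s x b c) ≤ h

end rule

section cl

variable {X β γ ι φ : Type} [Fintype X] [Fintype β] [Fintype γ] [Fintype φ] [Nonempty X] [Nonempty β] [Nonempty γ]
  {D : Dat X β γ ι φ} {al : ℝ}

/-- closeness of the states at all times, `d1 = C (Lam+1)/n` -/
def StC1 (T : D.Thick al) (R : Rt D) (K : ℕ) (d1 : ℝ) : Prop :=
  (∀ t < K, ∀ w, (D.kp T t).P.p w ≠ 0 → (D.kp T t).P.hel xF (bxU R.refCl t).map xG w ≤ d1) ∧
    (∀ t < K, ∀ w, (D.kp T t).P.p w ≠ 0 → (D.kp T t).P.hel xG (bxU R.refCl t).map xF w ≤ d1)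

/-- closeness of the half step states which are not tiny, `d2 = C (Lam+1) (L+1)/n` -/
def StC2 (T : D.Thick al) (R : Rt D) (K : ℕ) (L d2 : ℝ) : Prop :=
  (∀ t < K, ∀ w, (D.kp T t).P.p w ≠ 0 → thB R L t w.1 w.2.1 w.2.2.1 ≠ 0 →
      (D.kp T t).P.hel xF (bxH R.refCl t).map xG w ≤ d2) ∧
    (∀ t < K, ∀ w, (D.kp T t).P.p w ≠ 0 → thB R L t w.1 w.2.1 w.2.2.1 ≠ 0 →
      (D.kp T t).P.hel xG (bxH R.refCl t).map xF w ≤ d2)

/-- the mutual information at the time `K` -/
def StMK (T : D.Thick al) (R : Rt D) (K : ℕ) (mk : ℝ) : Prop :=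
  (D.kp T K).P.E ((D.kp T K).P.iota xF xG (bxU R.refCl K).map) ≤ mk

/-- LOSS of the splits in the normal epochs (from `LossD.loss_split`, `lossAB0`, `lossC_sum`, `StBad`) -/
def StNorm (T : D.Thick al) (R : Rt D) (N : Nb) (dg : ℕ → X → ℝ) (K : ℕ) (B h : ℝ) : Prop :=
  ∑ t ∈ range K, lossC T R.refCl (fun t w => ind (¬ crt R N dg t w.1 w.2.1 w.2.2.1)) B (fun _ _ => False) t ≤ h

/-- LOSS of the digits and of the splits of the jump epochs -/
def StJump (T : D.Thick al) (R : Rt D) (N : Nb) (dg : ℕ → X → ℝ) (K : ℕ) (L B h : ℝ) : Prop :=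
  ∑ t ∈ range K, (lossD T R.refCl dg B (fun _ _ => False) t +
    lossC T R.refCl (fun t w => ind (crt R N dg t w.1 w.2.1 w.2.2.1) * thB R L t w.1 w.2.1 w.2.2.1) B
      (fun _ _ => False) t) ≤ h

end cl

end

end Pool.Agent.M3.S3B
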