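import Pool.Agent.M3.S3.ParA
import Pool.Agent.M3.S3B.Main
import Pool.Agent.M3.S3B.Close
import Pool.Agent.M3.S3Key

/-!
# M3.S3B.ParB: the parameters of route B (helper78)

As in `S3/ParA` : `x n = n ^ (1/1000)`, `lg Lam n = Lam + log n`, `al Lam = exp (-Lam)`, hypothesis `h : PA.Big Lam n`.
Here the powers of `1/n` are powers `1000 k` of `1/x`: `h.n_eq : x n ^ 1000 = n`.
* from `Main` : `nbB (al Lam) n` numbers of the tests, `LL Lam n = 20 lg`, `dB n = n^(-1/2) = x^-500` (`dB_eq`);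
* `sg = 1/n` saturation;
* `Bk = 400` strong letters in KEY, `Bs = 20` in the strong times, `A = 18` in (C);
* `e = 2 eps3` (large virtual cell: `|W| ≤ (1 + e) |K|`), `kp = 4 kap2`;
* `e0 = 8 (Lam+1)/n` row entropy, `lam = sg (LL+1) + Bs (4/dB) e0`;
* `sgc = 8 sg (Lam+3)(LL+1)` saturation of a half of a saturated class of relative size `≥ mu = exp (-LL)`;
* `dS = sgc (Lam+1)` closeness `d` of `syn_le` (all states), `lamJ = sgc (LL+1) + Bs (4/dB) (sgc (Lam+1))`;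
* `eta = n^-2` proportion of the bad pairs at a test, `dl = dB + 1/n`;
* `Ne = exp (8 lg)` the number of epochs.
Facts (all from `h : Big Lam n`): see the theorems.
-/

set_option autoImplicit false

namespace Pool.Agent.M3.S3B

open Pool.Agent.M3 Pool.Agent.M3.S3 Pool.Agent.M3.S3.PA

noncomputable section

namespace PB

/-- saturation of the virtual cells and of the final cells -/
def sg (n : ℝ) : ℝ := 1 / n

/-- strong letters of KEY -/
def Bk : ℝ := 400

/-- strong letters of the strong times -/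
def Bs : ℝ := 20

/-- strong letters of (C) -/
def A : ℝ := 18

/-- the largest virtual cell `K` of a running class `W`: `|W| ≤ (1 + e) |K|` -/
def e (Lam n : ℝ) : ℝ := 2 * (nbB (PA.al Lam) n).eps3

/-- share of the points with an updated label (boxes halved twice) -/
def kp (Lam n : ℝ) : ℝ := 4 * (nbB (PA.al Lam) n).kap2

/-- row entropy -/
def e0 (Lam n : ℝ) : ℝ := 8 * (Lam + 1) / n

/-- bound of the rows -/
def lam (Lam n : ℝ) : ℝ := sg n * (LL Lam n + 1) + Bs * (4 / dB n) * e0 Lam n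

/-- tiny halves -/
def mu (Lam n : ℝ) : ℝ := Real.exp (-LL Lam n)

/-- saturation of a half of a saturated class which is not tiny -/
def sgc (Lam n : ℝ) : ℝ := 8 * sg n * (Lam + 3) * (LL Lam n + 1)

/-- closeness of the states -/
def dS (Lam n : ℝ) : ℝ := sgc Lam n * (Lam + 1)

/-- bound of the rows in the child of a critical class -/
def lamJ (Lam n : ℝ) : ℝ := sgc Lam n * (LL Lam n + 1) + Bs * (4 / dB n) * (sgc Lam n * (Lam + 1))

/-- share of the bad pairs -/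
def eta (n : ℝ) : ℝ := 1 / n ^ 2

/-- the part `d` of the density -/
def dl (n : ℝ) : ℝ := dB n + 1 / n

/-- number of epochs -/
def Ne (Lam n : ℝ) : ℝ := Real.exp (8 * lg Lam n)

variable {Lam n : ℝ}

/-! ## general facts -/

theorem al_le1 (h : Big Lam n) : PA.al Lam ≤ 1 := by
  unfold PA.al
  exact Real.exp_le_one_iff.2 (by linarith [h.Lam1])

theorem n_ge1 (h : Big Lam n) : 1 ≤ n := le_trans (one_le_pow₀ (by norm_num)) h.n_ge

theorem n_ge4 (h : Big Lam n) : 10 ^ 4 ≤ n := by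
  refine le_trans ?_ h.n_ge
  refine le_trans (?_ : (10 : ℝ) ^ 4 ≤ 2 ^ 14) (pow_le_pow_right₀ (by norm_num) (by norm_num))
  norm_num

theorem xi_pos (h : Big Lam n) : 0 < (x n)⁻¹ := inv_pos.2 h.x_pos

theorem xi_le1 (h : Big Lam n) : (x n)⁻¹ ≤ 1 := inv_le_one_of_one_le₀ h.x_ge1

/-- constants are smaller than `x` -/
theorem cst (h : Big Lam n) {C : ℝ} (hC : C ≤ 2 ^ 1000) : C ≤ x n := hC.trans h.x_ge

/-- a factor `C ≤ 2^1000` costs one power -/
theorem absorb (h : Big Lam n) {C : ℝ} (hC : C ≤ 2 ^ 1000) (k : ℕ) : C * (x n)⁻¹ ^ (k + 1) ≤ (x n)⁻¹ ^ k := by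
  have h1 := mul_le_mul_of_nonneg_right (cst h hC) (pow_nonneg (xi_pos h).le (k + 1))
  refine h1.trans (le_of_eq ?_)
  rw [pow_succ, mul_comm ((x n)⁻¹ ^ k), ← mul_assoc, mul_inv_cancel₀ h.x_pos.ne', one_mul]

/-- powers of `1/x` decrease -/
theorem xi_mono (h : Big Lam n) {j k : ℕ} (hjk : j ≤ k) : (x n)⁻¹ ^ k ≤ (x n)⁻¹ ^ j :=
  pow_le_pow_of_le_one (xi_pos h).le (xi_le1 h) hjk

/-- `x^j x^-(j+k) = x^-k` -/
theorem xx (h : Big Lam n) (j k : ℕ) : x n ^ j * (x n)⁻¹ ^ (j + k) = (x n)⁻¹ ^ k := by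
  rw [pow_add, ← mul_assoc, ← mul_pow, mul_inv_cancel₀ h.x_pos.ne', one_pow, one_mul]

theorem inv_n (h : Big Lam n) : 1 / n = (x n)⁻¹ ^ 1000 := by
  rw [inv_pow, h.n_eq, one_div]

theorem lg_nonneg (h : Big Lam n) : 0 ≤ lg Lam n := le_trans zero_le_one h.lg_ge

theorem LL_eq : LL Lam n = 20 * lg Lam n := rfl

theorem LL_ge (h : Big Lam n) : 20 ≤ LL Lam n := by
  rw [LL_eq]
  linarith [h.lg_ge]

theorem LL_nonneg (h : Big Lam n) : 0 ≤ LL Lam n := by linarith [LL_ge h]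

theorem dB_eq (h : Big Lam n) : dB n = (x n)⁻¹ ^ 500 := by
  have h1 : Real.sqrt n = x n ^ 500 := by
    rw [Real.sqrt_eq_iff_eq_sq h.n_pos.le (pow_nonneg h.x_pos.le _), ← pow_mul, h.n_eq]
  unfold dB
  rw [h1, inv_pow, one_div]

/-- `LL + 1 ≤ x^2` -/
theorem LL_le (h : Big Lam n) : LL Lam n + 1 ≤ x n ^ 2 := by
  have h1 := h.lg_le
  have h2 : (101 : ℝ) ≤ x n := cst h (le_trans (by norm_num : (101 : ℝ) ≤ 2 ^ 7) (pow_le_pow_right₀ (by norm_num) (by norm_num)))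
  rw [LL_eq]
  nlinarith [h.x_ge1]

/-- `Lam + 3 ≤ x^2`, `Lam + 1 ≤ x^2` -/
theorem Lam_le2 (h : Big Lam n) : Lam + 3 ≤ x n ^ 2 := by
  have h1 := h.Lam_le
  have h2 : (101 : ℝ) ≤ x n := cst h (le_trans (by norm_num : (101 : ℝ) ≤ 2 ^ 7) (pow_le_pow_right₀ (by norm_num) (by norm_num)))
  nlinarith [h.x_ge1]

theorem big_num {C : ℝ} (hC : C ≤ 2 ^ 20) : C ≤ 2 ^ 1000 :=
  hC.trans (pow_le_pow_right₀ (by norm_num) (by norm_num))

theorem exp2_le_Bs : Real.exp 2 ≤ Bs := by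
  have h1 : Real.exp 2 = Real.exp 1 * Real.exp 1 := by rw [← Real.exp_add]; norm_num
  have h2 := Real.exp_one_lt_d9
  have h3 : (0 : ℝ) < Real.exp 1 := Real.exp_pos 1
  rw [h1]
  unfold Bs
  nlinarith

theorem exp2_le_Bk : Real.exp 2 ≤ Bk := by
  refine exp2_le_Bs.trans ?_
  unfold Bs Bk
  norm_num

theorem exp2_le_A : Real.exp 2 ≤ A := by
  have h1 : Real.exp 2 = Real.exp 1 * Real.exp 1 := by rw [← Real.exp_add]; norm_num
  have h2 := Real.exp_one_lt_d9
  have h3 : (0 : ℝ) < Real.exp 1 := Real.exp_pos 1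
  rw [h1]
  unfold A
  nlinarith

theorem two_le_log {B : ℝ} (hB : Real.exp 2 ≤ B) : 2 ≤ Real.log B := by
  have := Real.log_le_log (Real.exp_pos 2) hB
  rwa [Real.log_exp] at this

theorem logA : 2 ≤ Real.log A := two_le_log exp2_le_A

theorem logBs : 2 ≤ Real.log Bs := two_le_log exp2_le_Bs

theorem logBk : 2 ≤ Real.log Bk := two_le_log exp2_le_Bk

/-! ## the numbers of the tests -/

theorem kap1_pos (h : Big Lam n) : 0 < (nbB (PA.al Lam) n).kap1 := by
  have := h.n_pos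
  have := al_pos (Lam := Lam)
  unfold nbB
  positivity

theorem kap2_pos (h : Big Lam n) : 0 < (nbB (PA.al Lam) n).kap2 := by
  have := h.n_pos
  unfold nbB
  positivity

theorem kap3_pos (h : Big Lam n) : 0 < (nbB (PA.al Lam) n).kap3 := by
  have := h.n_pos
  have := al_pos (Lam := Lam)
  unfold nbB
  positivity

theorem eps3_pos (h : Big Lam n) : 0 < (nbB (PA.al Lam) n).eps3 := by
  have := h.n_pos
  have := al_pos (Lam := Lam)
  unfold nbB
  positivity

theorem kap1_al (h : Big Lam n) : (nbB (PA.al Lam) n).kap1 / PA.al Lam ^ 2 = 1 / (8 * n ^ 2) := by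
  have h1 := h.n_pos
  have h2 := al_pos (Lam := Lam)
  unfold nbB
  field_simp

theorem kap1_le (h : Big Lam n) : (nbB (PA.al Lam) n).kap1 ≤ PA.al Lam ^ 2 := by
  have h1 := n_ge1 h
  have h2 := al_pos (Lam := Lam)
  unfold nbB
  simp only
  rw [div_le_iff₀ (by positivity)]
  have h3 : 1 ≤ n ^ 2 := one_le_pow₀ h1
  nlinarith [sq_nonneg (PA.al Lam), pow_pos h2 2]

/-- `kap3 / kap1^2 = n^-3` (Chebyshev) -/
theorem kap3_eq (h : Big Lam n) : (nbB (PA.al Lam) n).kap3 / (nbB (PA.al Lam) n).kap1 ^ 2 = 1 / n ^ 3 := by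
  have h1 := h.n_pos
  have h2 := al_pos (Lam := Lam)
  unfold nbB
  field_simp

/-- `2 kap1 / al^2 ≤ 1/2` (`io_comp` with `κ = 2 kap1`) -/
theorem two_kap1 (h : Big Lam n) : 2 * (nbB (PA.al Lam) n).kap1 / PA.al Lam ^ 2 ≤ 1 / 2 := by
  rw [mul_div_assoc, kap1_al h]
  have h1 := n_ge1 h
  have h3 : 1 ≤ n ^ 2 := one_le_pow₀ h1
  rw [mul_one_div, div_le_div_iff₀ (by positivity) (by norm_num)]
  nlinarith

/-- the change of the density on good pairs -/
theorem five_kap1 (h : Big Lam n) : 5 * (2 * (nbB (PA.al Lam) n).kap1 / PA.al Lam ^ 2) ≤ 1 / n := by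
  rw [mul_div_assoc, kap1_al h]
  have h1 := n_ge4 h
  have h3 : 0 < n := h.n_pos
  rw [mul_one_div, mul_div_assoc', div_le_div_iff₀ (by positivity) (by positivity)]
  nlinarith

theorem eps3_le (h : Big Lam n) : (nbB (PA.al Lam) n).eps3 ≤ 1 / n ^ 4 := by
  have h1 := h.n_pos
  have h2 := al_pos (Lam := Lam)
  have h3 := al_le1 h
  unfold nbB
  simp only
  exact div_le_div_of_nonneg_right (pow_le_one₀ h2.le h3) (by positivity)

theorem eps3_small (h : Big Lam n) : (nbB (PA.al Lam) n).eps3 ≤ 1 / 100 := by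
  refine (eps3_le h).trans ?_
  have h1 := n_ge4 h
  have h2 : (100 : ℝ) ≤ n ^ 4 := by
    calc (100 : ℝ) ≤ n := by linarith
      _ = n ^ 1 := (pow_one _).symm
      _ ≤ n ^ 4 := pow_le_pow_right₀ (n_ge1 h) (by norm_num)
  exact one_div_le_one_div_of_le (by norm_num) h2

theorem e_pos (h : Big Lam n) : 0 < e Lam n := mul_pos two_pos (eps3_pos h)

theorem e_le (h : Big Lam n) : e Lam n ≤ 1 / 50 := by
  unfold e
  linarith [eps3_small h]

/-- the largest virtual cell -/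
theorem sub_card (h : Big Lam n) {W K : ℝ} (hK : 0 ≤ K) (hWK : (1 - (nbB (PA.al Lam) n).eps3) * W ≤ K) : W ≤ (1 + e Lam n) * K := by
  have h1 := eps3_pos h
  have h2 := eps3_small h
  have h3 : (1 + e Lam n) * ((1 - (nbB (PA.al Lam) n).eps3) * W) ≤ (1 + e Lam n) * K :=
    mul_le_mul_of_nonneg_left hWK (by linarith [e_pos h])
  rcases le_or_gt W 0 with hW | hW
  · exact hW.trans (mul_nonneg (by linarith [e_pos h]) hK)
  · have h4 : W ≤ (1 + e Lam n) * ((1 - (nbB (PA.al Lam) n).eps3) * W) := by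
      unfold e
      nlinarith [mul_nonneg h1.le hW.le, mul_nonneg (mul_nonneg h1.le h1.le) hW.le]
    linarith

theorem kp_nonneg (h : Big Lam n) : 0 ≤ kp Lam n := mul_nonneg (by norm_num) (kap2_pos h).le

/-- the share of the changed pairs and of Chebyshev -/
theorem eta_ge (h : Big Lam n) :
    4 * (nbB (PA.al Lam) n).kap2 + 64 * ((nbB (PA.al Lam) n).kap3 / (nbB (PA.al Lam) n).kap1 ^ 2) ≤ eta n := by
  rw [kap3_eq h]
  unfold eta nbB
  simp only
  have h1 := n_ge4 h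
  have h2 := h.n_pos
  have h3 : 4 * (1 / n ^ 3) + 64 * (1 / n ^ 3) = 68 / n ^ 3 := by ring
  rw [h3, div_le_div_iff₀ (by positivity) (by positivity)]
  have h4 : n ^ 3 = n * n ^ 2 := by ring
  rw [h4]
  nlinarith [pow_pos h2 2]

theorem sg_pos (h : Big Lam n) : 0 < sg n := one_div_pos.2 h.n_pos

theorem dB_pos (h : Big Lam n) : 0 < dB n := by
  rw [dB_eq h]
  exact pow_pos (xi_pos h) _

theorem e0_pos (h : Big Lam n) : 0 < e0 Lam n :=
  div_pos (by linarith [h.Lam1]) h.n_pos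

/-! ## closeness -/

/-- closeness in a running class, letter of thickness `al` -/
theorem cb_le (h : Big Lam n) : CL.cb (sg n) (e Lam n) (kp Lam n) (PA.al Lam) (PA.al Lam) ≤ 2 * (Lam + 1) / n := by
  have h1 := n_ge4 h
  have h0 := h.n_pos
  have h2 := al_pos (Lam := Lam)
  have hL := h.Lam1
  unfold CL.cb sg e kp nbB
  simp only [log_al]
  have e1 : 2 * (2 * (PA.al Lam ^ 2 / n ^ 4) / (PA.al Lam * PA.al Lam)) = 4 * (1 / n ^ 4) := by
    field_simp
    norm_num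
  rw [e1]
  have h3 : 1 / n ^ 4 ≤ 1 / n * (1 / 100) := by
    rw [one_div_mul_one_div, div_le_div_iff₀ (by positivity) (by positivity)]
    have : n ^ 4 = n * n * n * n := by ring
    nlinarith [mul_pos h0 h0, mul_pos (mul_pos h0 h0) h0]
  have h4 : 1 / n ^ 3 ≤ 1 / n * (1 / 100) := by
    rw [one_div_mul_one_div, div_le_div_iff₀ (by positivity) (by positivity)]
    have : n ^ 3 = n * n * n := by ring
    nlinarith [mul_pos h0 h0]
  have h5 : 0 < 1 / n := by positivity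
  have h6 : 2 * (Lam + 1) / n = 1 / n * (Lam + 1) + 1 / n * (Lam + 1) := by ring
  rw [h6]
  have h7 := mul_le_mul_of_nonneg_right h3 (by linarith : 0 ≤ Lam + 1)
  have h8 := mul_le_mul_of_nonneg_right h4 (by linarith : 0 ≤ Lam)
  nlinarith [mul_pos h5 (by linarith : 0 < Lam + 1)]

/-- closeness in a running class, its half, boxes halved -/
theorem cb_half (h : Big Lam n) {m : ℝ} (hm : 1 / 8 ≤ m) :
    8 * CL.cb (sg n) (e Lam n) (kp Lam n) (PA.al Lam) (PA.al Lam * m) ≤ 64 * (Lam + 1) / n := by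
  have h1 := n_ge4 h
  have h0 := h.n_pos
  have h2 := al_pos (Lam := Lam)
  have hL := h.Lam1
  have hm0 : 0 < m := by linarith
  unfold CL.cb sg e kp nbB
  simp only [log_al]
  have e1 : 2 * (2 * (PA.al Lam ^ 2 / n ^ 4) / (PA.al Lam * (PA.al Lam * m))) = 4 * (1 / n ^ 4) * (1 / m) := by
    field_simp
    norm_num
  have e2 : Real.log (1 / (PA.al Lam * m)) = Lam + Real.log (1 / m) := by
    rw [← one_div_mul_one_div, Real.log_mul (by positivity) (by positivity), log_al]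
  have e3 : 1 / m ≤ 8 := by
    rw [div_le_iff₀ hm0]
    linarith
  have e4 : Real.log (1 / m) ≤ 3 := by
    have h8 : Real.log (1 / m) ≤ Real.log 8 := Real.log_le_log (by positivity) e3
    have h9 : Real.log 8 = 3 * Real.log 2 := by
      rw [show (8 : ℝ) = 2 ^ 3 by norm_num, Real.log_pow]
      norm_num
    have := Real.log_two_lt_d9
    linarith
  rw [e1, e2]
  have h3 : 1 / n ^ 4 ≤ 1 / n * (1 / 100) := by
    rw [one_div_mul_one_div, div_le_div_iff₀ (by positivity) (by positivity)]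
    have : n ^ 4 = n * n * n * n := by ring
    nlinarith [mul_pos h0 h0, mul_pos (mul_pos h0 h0) h0]
  have h4 : 1 / n ^ 3 ≤ 1 / n * (1 / 100) := by
    rw [one_div_mul_one_div, div_le_div_iff₀ (by positivity) (by positivity)]
    have : n ^ 3 = n * n * n := by ring
    nlinarith [mul_pos h0 h0]
  have h5 : 0 < 1 / n := by positivity
  have h6 : 64 * (Lam + 1) / n = 64 * (1 / n * (Lam + 1)) := by ring
  rw [h6]
  have h7 : 4 * (1 / n ^ 4) * (1 / m) ≤ 1 / n * (32 / 100) := by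
    have a1 : 4 * (1 / n ^ 4) * (1 / m) ≤ 4 * (1 / n ^ 4) * 8 :=
      mul_le_mul_of_nonneg_left e3 (by positivity)
    linarith
  have h8 := mul_le_mul_of_nonneg_right h7 (by linarith : 0 ≤ Lam + 1)
  have h9 := mul_le_mul_of_nonneg_right h4 (by linarith : 0 ≤ Lam)
  have h10 : 1 / n * (Lam + Real.log (1 / m) + 1) ≤ 1 / n * (Lam + 4) :=
    mul_le_mul_of_nonneg_left (by linarith) h5.le
  have h11 : 0 < 1 / n * Lam := mul_pos h5 (by linarith)
  have h12 : 1 / n ≤ 1 / n * Lam := by nlinarith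
  nlinarith

/-- `close_half`, `hel_close` with a half of relative size `≥ 1/4` -/
theorem cb_quarter (h : Big Lam n) : 8 * CL.cb (sg n) (e Lam n) (kp Lam n) (PA.al Lam) (PA.al Lam * (1 / 4) / 2) ≤ dS Lam n := by
  have h1 := cb_half h (m := 1 / 8) le_rfl
  have e1 : PA.al Lam * (1 / 4) / 2 = PA.al Lam * (1 / 8) := by ring
  rw [e1]
  refine h1.trans ?_
  unfold dS sgc sg
  have h0 := h.n_pos
  have hL := h.Lam1
  have h2 := LL_ge h
  have h3 : 64 * (Lam + 1) / n = 64 * (1 / n * (Lam + 1)) := by ring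
  have h4 : 8 * (1 / n) * (Lam + 3) * (LL Lam n + 1) * (Lam + 1) = (8 * ((Lam + 3) * (LL Lam n + 1))) * (1 / n * (Lam + 1)) := by
    ring
  rw [h3, h4]
  refine mul_le_mul_of_nonneg_right ?_ (by positivity)
  nlinarith

/-- `close_half`, `hel_close` with the whole class (`mu = 1`) -/
theorem cb_one (h : Big Lam n) : 8 * CL.cb (sg n) (e Lam n) (kp Lam n) (PA.al Lam) (PA.al Lam * 1 / 2) ≤ dS Lam n := by
  have h1 := cb_half h (m := 1 / 2) (by norm_num)
  have e1 : PA.al Lam * 1 / 2 = PA.al Lam * (1 / 2) := by ring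
  rw [e1]
  refine h1.trans ?_
  unfold dS sgc sg
  have h0 := h.n_pos
  have hL := h.Lam1
  have h2 := LL_ge h
  have h3 : 64 * (Lam + 1) / n = 64 * (1 / n * (Lam + 1)) := by ring
  have h4 : 8 * (1 / n) * (Lam + 3) * (LL Lam n + 1) * (Lam + 1) = (8 * ((Lam + 3) * (LL Lam n + 1))) * (1 / n * (Lam + 1)) := by
    ring
  rw [h3, h4]
  refine mul_le_mul_of_nonneg_right ?_ (by positivity)
  nlinarith

/-- closeness in a saturated class -/
theorem sg_le_dS (h : Big Lam n) : sg n * (Lam + 1) ≤ dS Lam n := by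
  unfold dS sgc
  have hL := h.Lam1
  have h2 := LL_ge h
  have h3 := sg_pos h
  have h4 : 8 * sg n * (Lam + 3) * (LL Lam n + 1) * (Lam + 1) = (8 * ((Lam + 3) * (LL Lam n + 1))) * (sg n * (Lam + 1)) := by
    ring
  rw [h4]
  have h5 : 0 < sg n * (Lam + 1) := mul_pos h3 (by linarith)
  have h6 : 1 ≤ 8 * ((Lam + 3) * (LL Lam n + 1)) := by nlinarith
  nlinarith

/-- row entropy at a running time, doubled for the halved box of the test -/
theorem row_le (h : Big Lam n) : 2 * (CL.cb (sg n) (e Lam n) 0 (PA.al Lam) (PA.al Lam) +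
    6 * ((nbB (PA.al Lam) n).kap1 / PA.al Lam ^ 2) * (Lam + 1)) ≤ e0 Lam n := by
  have h1 := n_ge4 h
  have h0 := h.n_pos
  have hL := h.Lam1
  have h2 : CL.cb (sg n) (e Lam n) 0 (PA.al Lam) (PA.al Lam) ≤ 2 * (Lam + 1) / n := by
    refine le_trans ?_ (cb_le h)
    unfold CL.cb
    have h3 : 0 ≤ kp Lam n * Real.log (1 / PA.al Lam) := by
      rw [log_al]
      exact mul_nonneg (kp_nonneg h) (by linarith)
    linarith
  rw [kap1_al h]
  have h3 : 1 / (8 * n ^ 2) ≤ 1 / n * (1 / 100) := by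
    rw [one_div_mul_one_div, div_le_div_iff₀ (by positivity) (by positivity)]
    nlinarith
  have h5 := mul_le_mul_of_nonneg_right h3 (by linarith : 0 ≤ Lam + 1)
  unfold e0
  have h6 : 8 * (Lam + 1) / n = 8 * (1 / n * (Lam + 1)) := by ring
  have h7 : 2 * (Lam + 1) / n = 2 * (1 / n * (Lam + 1)) := by ring
  rw [h6]
  rw [h7] at h2
  have h8 : 0 < 1 / n * (Lam + 1) := mul_pos (by positivity) (by linarith)
  nlinarith

/-! ## halves and tiny classes -/

theorem exp_LL (h : Big Lam n) : Real.exp (-LL Lam n) ≤ 1 / 4 := by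
  have h1 : Real.exp (-LL Lam n) ≤ Real.exp (-2) := Real.exp_le_exp.2 (by linarith [LL_ge h])
  have h2 : Real.exp (-2) = (Real.exp 2)⁻¹ := Real.exp_neg 2
  have h3 : (4 : ℝ) ≤ Real.exp 2 := by
    have e1 : Real.exp 2 = Real.exp 1 * Real.exp 1 := by rw [← Real.exp_add]; norm_num
    have e2 := Real.exp_one_gt_d9
    rw [e1]
    nlinarith
  rw [h2] at h1
  refine h1.trans ?_
  rw [one_div]
  exact inv_anti₀ (by norm_num) h3

/-- `exp (-LL) = (al/n)^20` -/
theorem exp_LL_eq (h : Big Lam n) : Real.exp (-LL Lam n) = (PA.al Lam / n) ^ 20 := by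
  rw [h.aln, ← Real.exp_nat_mul, LL_eq]
  congr 1
  push_cast
  ring

/-! ## sizes as powers of `1/x` -/

theorem sg_eq (h : Big Lam n) : sg n = (x n)⁻¹ ^ 1000 := inv_n h

theorem Lam1_le (h : Big Lam n) : Lam + 1 ≤ x n ^ 2 := by linarith [Lam_le2 h]

theorem e0_le (h : Big Lam n) : e0 Lam n ≤ (x n)⁻¹ ^ 997 := by
  have h1 : e0 Lam n = 8 * ((Lam + 1) * (1 / n)) := by
    unfold e0
    ring
  rw [h1, inv_n h]
  have h2 : (Lam + 1) * (x n)⁻¹ ^ 1000 ≤ x n ^ 2 * (x n)⁻¹ ^ (2 + 998) :=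
    mul_le_mul_of_nonneg_right (Lam1_le h) (pow_nonneg (xi_pos h).le _)
  rw [xx h 2 998] at h2
  refine (mul_le_mul_of_nonneg_left h2 (by norm_num : (0 : ℝ) ≤ 8)).trans ?_
  exact absorb h (big_num (by norm_num)) 997

theorem sgc_pos (h : Big Lam n) : 0 < sgc Lam n := by
  unfold sgc
  have h1 := sg_pos h
  have h2 := LL_ge h
  have h3 := h.Lam1
  have h4 : 0 < LL Lam n + 1 := by linarith
  have h5 : 0 < Lam + 3 := by linarith
  positivity

theorem sgc_le (h : Big Lam n) : sgc Lam n ≤ (x n)⁻¹ ^ 995 := by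
  have h1 : sgc Lam n = 8 * ((Lam + 3) * (LL Lam n + 1) * (x n)⁻¹ ^ 1000) := by
    unfold sgc
    rw [sg_eq h]
    ring
  rw [h1]
  have h2 : (Lam + 3) * (LL Lam n + 1) ≤ x n ^ 2 * x n ^ 2 :=
    mul_le_mul (Lam_le2 h) (LL_le h) (by linarith [LL_ge h]) (pow_nonneg h.x_pos.le _)
  rw [← pow_add] at h2
  have h3 : (Lam + 3) * (LL Lam n + 1) * (x n)⁻¹ ^ 1000 ≤ x n ^ 4 * (x n)⁻¹ ^ (4 + 996) :=
    mul_le_mul_of_nonneg_right h2 (pow_nonneg (xi_pos h).le _)
  rw [xx h 4 996] at h3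
  refine (mul_le_mul_of_nonneg_left h3 (by norm_num : (0 : ℝ) ≤ 8)).trans ?_
  exact absorb h (big_num (by norm_num)) 995

theorem dS_nonneg (h : Big Lam n) : 0 ≤ dS Lam n := mul_nonneg (sgc_pos h).le (by linarith [h.Lam1])

theorem dS_le (h : Big Lam n) : dS Lam n ≤ (x n)⁻¹ ^ 993 := by
  unfold dS
  have h1 : sgc Lam n * (Lam + 1) ≤ (x n)⁻¹ ^ (2 + 993) * x n ^ 2 :=
    mul_le_mul (sgc_le h) (Lam1_le h) (by linarith [h.Lam1]) (pow_nonneg (xi_pos h).le _)
  rw [mul_comm _ (x n ^ 2), xx h 2 993] at h1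
  exact h1

/-- the factor of KEY -/
theorem kd_le (h : Big Lam n) : kd (dS Lam n) ≤ (x n)⁻¹ ^ 495 := by
  have h0 := (xi_pos h).le
  have h1 : Real.sqrt (dS Lam n) ≤ (x n)⁻¹ ^ 496 := by
    refine Real.sqrt_le_iff.2 ⟨pow_nonneg h0 _, ?_⟩
    rw [← pow_mul]
    exact (dS_le h).trans (xi_mono h (by norm_num))
  have h2 : dS Lam n ≤ (x n)⁻¹ ^ 496 := (dS_le h).trans (xi_mono h (by norm_num))
  unfold kd
  have h3 := absorb h (C := 3) (big_num (by norm_num)) 495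
  linarith

theorem dB_le1 (h : Big Lam n) : dB n ≤ 1 := by
  rw [dB_eq h]
  exact pow_le_one₀ (xi_pos h).le (xi_le1 h)

theorem four_div_dB (h : Big Lam n) : 4 / dB n = 4 * x n ^ 500 := by
  rw [dB_eq h, inv_pow, div_inv_eq_mul]

theorem lam_nonneg (h : Big Lam n) : 0 ≤ lam Lam n := by
  unfold lam Bs
  have h1 := sg_pos h
  have h2 := LL_ge h
  have h3 := e0_pos h
  have h4 := dB_pos h
  have h5 : 0 < LL Lam n + 1 := by linarith
  positivity

/-- the bound of the rows -/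
theorem lam_le (h : Big Lam n) : lam Lam n ≤ (x n)⁻¹ ^ 495 := by
  have h0 := (xi_pos h).le
  unfold lam Bs
  rw [four_div_dB h, sg_eq h]
  have h1 : (x n)⁻¹ ^ 1000 * (LL Lam n + 1) ≤ (x n)⁻¹ ^ (2 + 998) * x n ^ 2 :=
    mul_le_mul_of_nonneg_left (LL_le h) (pow_nonneg h0 _)
  rw [mul_comm _ (x n ^ 2), xx h 2 998] at h1
  have h2 : 4 * x n ^ 500 * e0 Lam n ≤ 4 * x n ^ 500 * (x n)⁻¹ ^ (500 + 497) :=
    mul_le_mul_of_nonneg_left (e0_le h) (by have := h.x_pos; positivity)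
  rw [mul_assoc 4 (x n ^ 500) ((x n)⁻¹ ^ (500 + 497)), xx h 500 497] at h2
  have h3 : (x n)⁻¹ ^ 998 ≤ (x n)⁻¹ ^ 496 := xi_mono h (by norm_num)
  have h4 : (x n)⁻¹ ^ 497 ≤ (x n)⁻¹ ^ 496 := xi_mono h (by norm_num)
  have h5 := absorb h (C := 81) (big_num (by norm_num)) 495
  nlinarith

theorem lamJ_nonneg (h : Big Lam n) : 0 ≤ lamJ Lam n := by
  unfold lamJ Bs
  have h1 := sgc_pos h
  have h2 := LL_ge h
  have h4 := dB_pos h
  have h5 : 0 < LL Lam n + 1 := by linarith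
  have h6 : 0 < Lam + 1 := by linarith [h.Lam1]
  positivity

/-- the bound of the rows in the child of a critical class -/
theorem lamJ_le (h : Big Lam n) : lamJ Lam n ≤ (x n)⁻¹ ^ 490 := by
  have h0 := (xi_pos h).le
  unfold lamJ Bs
  rw [four_div_dB h]
  have h1 : sgc Lam n * (LL Lam n + 1) ≤ (x n)⁻¹ ^ (2 + 993) * x n ^ 2 :=
    mul_le_mul (sgc_le h) (LL_le h) (by linarith [LL_ge h]) (pow_nonneg h0 _)
  rw [mul_comm _ (x n ^ 2), xx h 2 993] at h1
  have h2 : 4 * x n ^ 500 * (sgc Lam n * (Lam + 1)) ≤ 4 * x n ^ 500 * (x n)⁻¹ ^ (500 + 493) :=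
    mul_le_mul_of_nonneg_left (dS_le h) (by have := h.x_pos; positivity)
  rw [mul_assoc 4 (x n ^ 500) ((x n)⁻¹ ^ (500 + 493)), xx h 500 493] at h2
  have h3 : (x n)⁻¹ ^ 993 ≤ (x n)⁻¹ ^ 491 := xi_mono h (by norm_num)
  have h4 : (x n)⁻¹ ^ 493 ≤ (x n)⁻¹ ^ 491 := xi_mono h (by norm_num)
  have h5 := absorb h (C := 81) (big_num (by norm_num)) 490
  nlinarith

theorem dl_le (h : Big Lam n) : dl n ≤ (x n)⁻¹ ^ 499 := by
  unfold dl
  rw [dB_eq h, inv_n h]
  have h1 := absorb h (C := 2) (big_num (by norm_num)) 499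
  have h2 : (x n)⁻¹ ^ 1000 ≤ (x n)⁻¹ ^ 500 := xi_mono h (by norm_num)
  have h3 : (499 + 1 : ℕ) = 500 := rfl
  rw [h3] at h1
  linarith

theorem eta_eq (h : Big Lam n) : eta n = (x n)⁻¹ ^ 2000 := by
  unfold eta
  have h1 : n ^ 2 = x n ^ 2000 := by
    rw [← h.n_eq, ← pow_mul]
    congr 2
    exact h.n_eq.symm ▸ rfl
  rw [h1, inv_pow, one_div]

/-! ## the number of epochs -/

/-- the bound of `cnt_epochs` with `J = exp Lam` -/
theorem Ne_le (h : Big Lam n) {bits M2 : ℝ} (hb : bits ≤ 100 * n * Lam) (hM : M2 ≤ 1000 * n * Lam) :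
    1 + ((2 * Real.exp Lam + (1 + 2 * Real.exp Lam) / (nbB (PA.al Lam) n).kap1 ^ 2) / (nbB (PA.al Lam) n).kap2 +
      bits / (nbB (PA.al Lam) n).eps3 + 2 * ((1 + 2 * Real.exp Lam) / (nbB (PA.al Lam) n).kap3) + 8 * M2) ≤
      Ne Lam n := by
  have h0 := h.n_pos
  have hn1 := n_ge1 h
  have hL := h.Lam1
  set E := Real.exp Lam with hE
  have hal : PA.al Lam = E⁻¹ := by
    unfold PA.al
    rw [Real.exp_neg]
  have hE0 : 0 < E := Real.exp_pos _
  have hE1 : 1 ≤ E := Real.one_le_exp (by linarith)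
  have hLE : Lam ≤ E := by linarith [Real.add_one_le_exp Lam]
  unfold nbB
  simp only
  rw [hal]
  have e1 : (2 * E + (1 + 2 * E) / (E⁻¹ ^ 2 / (8 * n ^ 2)) ^ 2) / (1 / n ^ 3) =
      2 * E * n ^ 3 + 64 * (1 + 2 * E) * E ^ 4 * n ^ 7 := by
    field_simp
    ring
  have e2 : bits / (E⁻¹ ^ 2 / n ^ 4) = bits * E ^ 2 * n ^ 4 := by
    field_simp
  have e3 : 2 * ((1 + 2 * E) / ((E⁻¹ ^ 2 / (8 * n ^ 2)) ^ 2 / n ^ 3)) = 128 * (1 + 2 * E) * E ^ 4 * n ^ 7 := by
    field_simp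
    ring
  rw [e1, e2, e3]
  have hp : ∀ k : ℕ, k ≤ 7 → n ^ k ≤ n ^ 7 := fun k hk => pow_le_pow_right₀ hn1 hk
  have hq : ∀ k : ℕ, k ≤ 5 → E ^ k ≤ E ^ 5 := fun k hk => pow_le_pow_right₀ hE1 hk
  have hEn : 0 < E ^ 5 * n ^ 7 := by positivity
  have hEn1 : 1 ≤ E ^ 5 * n ^ 7 := one_le_mul_of_one_le_of_one_le (one_le_pow₀ hE1) (one_le_pow₀ hn1)
  have a1 : E * n ^ 3 ≤ E ^ 5 * n ^ 7 := by
    have := mul_le_mul (hq 1 (by norm_num)) (hp 3 (by norm_num)) (by positivity) (by positivity)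
    rwa [pow_one] at this
  have a2 : (1 + 2 * E) * E ^ 4 * n ^ 7 ≤ 3 * (E ^ 5 * n ^ 7) := by
    have b1 : (1 + 2 * E) * E ^ 4 ≤ 3 * E ^ 5 := by
      have : E ^ 5 = E * E ^ 4 := by ring
      rw [this]
      have c1 : 0 < E ^ 4 := by positivity
      nlinarith
    have := mul_le_mul_of_nonneg_right b1 (by positivity : 0 ≤ n ^ 7)
    linarith
  have a3 : bits * E ^ 2 * n ^ 4 ≤ 100 * (E ^ 5 * n ^ 7) := by
    have b1 : bits * (E ^ 2 * n ^ 4) ≤ 100 * n * Lam * (E ^ 2 * n ^ 4) := mul_le_mul_of_nonneg_right hb (by positivity)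
    have b2 : n * Lam * (E ^ 2 * n ^ 4) ≤ n * E * (E ^ 2 * n ^ 4) :=
      mul_le_mul_of_nonneg_right (mul_le_mul_of_nonneg_left hLE h0.le) (by positivity)
    have b3 : n * E * (E ^ 2 * n ^ 4) = E ^ 3 * n ^ 5 := by ring
    have b4 := mul_le_mul (hq 3 (by norm_num)) (hp 5 (by norm_num)) (by positivity) (by positivity)
    nlinarith
  have a4 : 8 * M2 ≤ 8000 * (E ^ 5 * n ^ 7) := by
    have b1 : n * Lam ≤ n * E := mul_le_mul_of_nonneg_left hLE h0.le
    have b4 := mul_le_mul (hq 1 (by norm_num)) (hp 1 (by norm_num)) (by positivity) (by positivity)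
    rw [pow_one, pow_one] at b4
    nlinarith
  have hfin : 10000 * (E ^ 5 * n ^ 7) ≤ Ne Lam n := by
    unfold Ne lg
    have b1 : Real.exp (8 * (Lam + Real.log n)) = E ^ 8 * n ^ 8 := by
      have c1 : Real.log n * (8 : ℕ) = Real.log (n ^ 8) := by
        rw [Real.log_pow]
        ring
      have c2 : 8 * (Lam + Real.log n) = (8 : ℕ) * Lam + Real.log (n ^ 8) := by
        rw [← c1]
        push_cast
        ring
      rw [c2, Real.exp_add, Real.exp_log (by positivity), Real.exp_nat_mul]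
    rw [b1]
    have b2 : E ^ 5 ≤ E ^ 8 := pow_le_pow_right₀ hE1 (by norm_num)
    have b3 : 10000 * n ^ 7 ≤ n ^ 8 := by
      have := n_ge4 h
      have c1 : n ^ 8 = n * n ^ 7 := by ring
      rw [c1]
      exact mul_le_mul_of_nonneg_right (by linarith) (by positivity)
    have b4 := mul_le_mul b2 b3 (by positivity) (by positivity)
    linarith
  nlinarith

/-- rare events, all epochs together -/
theorem Ne_rare (h : Big Lam n) : Ne Lam n * (Real.exp (-LL Lam n) / PA.al Lam) ≤ Real.exp (-(11 * lg Lam n)) := by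
  unfold Ne
  have h1 : (PA.al Lam)⁻¹ = Real.exp Lam := by
    unfold PA.al
    rw [Real.exp_neg, inv_inv]
  rw [div_eq_mul_inv, h1, ← Real.exp_add, ← Real.exp_add]
  refine Real.exp_le_exp.2 ?_
  rw [LL_eq]
  have := h.log_nonneg
  unfold lg
  linarith

theorem exp_lg (h : Big Lam n) : Real.exp (-(11 * lg Lam n)) ≤ (x n)⁻¹ ^ 11000 := by
  have h1 : (x n)⁻¹ ^ 11000 = Real.exp (-(11 * Real.log n)) := by
    have e1 : 11 * Real.log n = Real.log (n ^ 11) := by
      rw [Real.log_pow]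
      norm_num
    rw [e1, Real.exp_neg, Real.exp_log (pow_pos h.n_pos _)]
    have e2 : n ^ 11 = x n ^ 11000 := by
      have e3 : x n ^ 11000 = (x n ^ 1000) ^ 11 := by rw [← pow_mul]
      rw [e3, h.n_eq]
    rw [e2, inv_pow]
  rw [h1]
  refine Real.exp_le_exp.2 ?_
  have := h.Lam1
  unfold lg
  linarith

end PB

end

end Pool.Agent.M3.S3B
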