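import Pool.Agent.M3.S3B.HelU
import Pool.Agent.M3.S3B.ParB

/-!
# M3.S3B.HelU2: `StC1`, `StC2`, `StMK` with the parameters of `ParB` (helper6)

`StC1.mono`, `StC2.mono`; `stC1_PB`, `stC2_PB` : the closeness `d = PB.dS Lam n` for all states; `stMK_PB` :
`mk = PB.sg n * (log (1 / al) + 1)`.
-/

set_option autoImplicit false

namespace Pool.Agent.M3.S3B

open Finset Pool.Agent.PWZ Pool.Agent.M3 Pool.Agent.M3.S3

noncomputable section

variable {X β γ ι φ : Type} [Fintype X] [Fintype β] [Fintype γ] [Fintype φ] [Nonempty X] [Nonempty β] [Nonempty γ]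
  {D : Dat X β γ ι φ} {al : ℝ}

theorem StC1.mono {T : D.Thick al} {R : Rt D} {K : ℕ} {d d' : ℝ} (h : StC1 T R K d) (hd : d ≤ d') : StC1 T R K d' :=
  ⟨fun t ht w hw => (h.1 t ht w hw).trans hd, fun t ht w hw => (h.2 t ht w hw).trans hd⟩

theorem StC2.mono {T : D.Thick al} {R : Rt D} {K : ℕ} {L d d' : ℝ} (h : StC2 T R K L d) (hd : d ≤ d') :
    StC2 T R K L d' :=
  ⟨fun t ht w hw hθ => (h.1 t ht w hw hθ).trans hd, fun t ht w hw hθ => (h.2 t ht w hw hθ).trans hd⟩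

theorem StMK.mono {T : D.Thick al} {R : Rt D} {K : ℕ} {d d' : ℝ} (h : StMK T R K d) (hd : d ≤ d') : StMK T R K d' :=
  le_trans h hd

/-- the closeness of all states is at most `dS` -/
theorem HU.d_le_dS {Lam n : ℝ} (h : PA.Big Lam n) :
    30 * (Lam + 1) / n ≤ PB.dS Lam n ∧ 30 * (Lam + LL Lam n + 1) / n ≤ PB.dS Lam n := by
  have hn : 0 < n := h.n_pos
  have hL := PB.LL_ge h
  have hLam := h.Lam1
  have e1 : PB.dS Lam n = 8 * (Lam + 3) * (LL Lam n + 1) * (Lam + 1) / n := by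
    unfold PB.dS PB.sgc PB.sg
    ring
  have e2 : 30 * (Lam + LL Lam n + 1) ≤ 8 * (Lam + 3) * (LL Lam n + 1) * (Lam + 1) := by
    have h1 : Lam + LL Lam n + 1 ≤ (LL Lam n + 1) * (Lam + 1) := by nlinarith
    have h2 : 0 ≤ (LL Lam n + 1) * (Lam + 1) := by nlinarith
    nlinarith
  rw [e1]
  refine ⟨div_le_div_of_nonneg_right (le_trans ?_ e2) hn.le, div_le_div_of_nonneg_right e2 hn.le⟩
  linarith

variable {dg : ℕ → X → ℝ} {prf prg : ℕ → φ → φ} {K : ℕ} {Lam n : ℝ}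

theorem stC1_PB (h : PA.Big Lam n) (T : D.Thick (PA.al Lam)) (H : Hyp3 D dg prf prg (PA.al Lam) K Lam) :
    StC1 T (rB D dg (PA.al Lam) n K) K (PB.dS Lam n) :=
  (stC1_hyp3 T H (by linarith [PB.n_ge4 h])).mono (HU.d_le_dS h).1

theorem stC2_PB (h : PA.Big Lam n) (T : D.Thick (PA.al Lam)) (H : Hyp3 D dg prf prg (PA.al Lam) K Lam) :
    StC2 T (rB D dg (PA.al Lam) n K) K (LL Lam n) (PB.dS Lam n) :=
  (stC2_hyp3 T H (by linarith [PB.n_ge4 h]) (by linarith [PB.LL_ge h])).mono (HU.d_le_dS h).2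

theorem stMK_PB (h : PA.Big Lam n) (T : D.Thick (PA.al Lam)) :
    StMK T (rB D dg (PA.al Lam) n K) K (PB.sg n * (Real.log (1 / PA.al Lam) + 1)) := by
  refine (stMK T (Lam := Real.log (1 / PA.al Lam)) le_rfl h.n_pos).mono (le_of_eq ?_)
  unfold PB.sg
  ring

end

end Pool.Agent.M3.S3B
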