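import Pool.Agent.M3.S3B.Main
import Pool.Agent.M3.S3B.Close

/-!
# M3.S3B.InstR: the row entropy at the running times (`StRow`, `StRowT`) (helper84)

* `hyG_node`, `hyF_node` : `CL.Hy` (almost saturated class) for the class `W` of an epoch of the process and the FROZEN
  kernels, at the start (`om0_sat_g`, `om0_sat_f`) and at the running times (test (ii), `VG_sat`, `VF_sat`);
* `rowG_node`, `rowF_node` : the row entropy, `rb al n N = CL.cb (1/n) (2 eps3) 0 al al + 6 (kap1 / al^2) (log (1/al) + 1)`;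
* `stRow` : `StRow (mkRt (rmB D n) Up N dg K) Up N K e0` if `rb al n N ≤ e0`;
* `stRowT` : `StRowT (mkRt (rmB D n) Up N dg K) Up N K e0` if `2 * rb al n N ≤ e0`.
-/

set_option autoImplicit false
set_option linter.unusedSectionVars false

namespace Pool.Agent.M3.S3B

open Finset Pool.Agent.PWZ Pool.Agent.M3 Pool.Agent.M3.S3

noncomputable section

/-- the bound of the row entropy -/
def rb (al n : ℝ) (N : Nb) : ℝ :=
  CL.cb (1 / n) (2 * N.eps3) 0 al al + 6 * (N.kap1 / al ^ 2) * (Real.log (1 / al) + 1)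

/-- from test (ii) to `CL.Sub` -/
theorem ri_sub {X : Type*} {W K : Finset X} {eps : ℝ} (hK : K ⊆ W) (h0 : 0 ≤ eps) (h1 : eps ≤ 1 / 2)
    (h : (1 - eps) * (W.card : ℝ) < K.card) : CL.Sub W K (2 * eps) where
  sub := hK
  ne := by
    rcases K.eq_empty_or_nonempty with h2 | h2
    · rw [h2, Finset.card_empty, Nat.cast_zero] at h
      have : (0 : ℝ) ≤ W.card := Nat.cast_nonneg _
      nlinarith
    · exact h2
  card := by
    have h2 : (0 : ℝ) ≤ W.card := Nat.cast_nonneg _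
    have h3 : (0 : ℝ) ≤ K.card := Nat.cast_nonneg _
    have h4 : (W.card : ℝ) ≤ 2 * K.card := by nlinarith
    nlinarith

theorem ri_sub_self {X : Type*} {W : Finset X} (hW : W.Nonempty) {e : ℝ} (h0 : 0 ≤ e) : CL.Sub W W e where
  sub := Finset.Subset.refl W
  ne := hW
  card := by
    have : (0 : ℝ) ≤ W.card := Nat.cast_nonneg _
    nlinarith [mul_nonneg h0 this]

section node

variable {X β γ ι φ : Type*} [Fintype X] [Fintype β] [Fintype γ] [Fintype φ] {D : Dat X β γ ι φ} {al n : ℝ}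

theorem ri_thG (T : D.Thick al) {t : ℕ} {x : X} {V : Finset X} (hV : V ⊆ D.cA t x) (b : β) (c : γ) :
    CL.Th V (fun y => D.kg t y b c) al where
  pos := T.pos
  nn y _ G := T.g_nn _ _ _ _ _
  one y _ := T.g_one _ _ _ _
  thick y hy y' hy' G hG :=
    T.g_thick t y y' b c G (by rw [D.mem_cA.1 (hV hy), D.mem_cA.1 (hV hy')]) hG

theorem ri_thF (T : D.Thick al) {t : ℕ} {x : X} {V : Finset X} (hV : V ⊆ D.cA t x) (b : β) (c : γ) :
    CL.Th V (fun y => D.kf t y b c) al where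
  pos := T.pos
  nn y _ G := T.f_nn _ _ _ _ _
  one y _ := T.f_one _ _ _ _
  thick y hy y' hy' G hG :=
    T.f_thick t y y' b c G (by rw [D.mem_cA.1 (hV hy), D.mem_cA.1 (hV hy')]) hG

theorem ri_W (D : Dat X β γ ι φ) (e : Epo X) (t : ℕ) (x : X) : W D e t x ⊆ e.om0 := fun _ hy => (mem_W.1 hy).1

/-- the class of the start -/
theorem W_t0 {e : Epo X} {x : X} (ho : e.om0 ⊆ D.cA e.t0 x) : W D e e.t0 x = e.om0 := by
  ext y
  rw [mem_W]
  exact ⟨fun h => h.1, fun h => ⟨h, D.mem_cA.1 (ho h)⟩⟩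

variable {R : Rt D}

/-- `CL.Hy` at the start, second family -/
theorem hyG_start (T : D.Thick al) (hn : 0 < n) (hal : al ≤ 1) (hR : R.toRm = rmB D n) (s : ℕ) (x : X) (b : β) (c : γ)
    {e : ℝ} (he : 0 ≤ e) :
    CL.Hy (R.ep s x b c).om0 (R.ep s x b c).om0 (D.cC (R.ep s x b c).t0 c)
      (fun y c' => D.kg (R.ep s x b c).t0 y b c') (fun y c' => D.kg (R.ep s x b c).t0 y b c') (1 / n) e 0 al where
  th c' _ := ri_thG T (R.om0_sub s x b c) b c'
  th' c' _ := ri_thG T (R.om0_sub s x b c) b c'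
  al0 := T.pos
  al1 := hal
  sub := ri_sub_self ⟨x, R.self_om0 s x b c⟩ he
  sig0 := by positivity
  kap0 := le_rfl
  sat S hS hne := (om0_sat_g hR T hn hS hne).trans (le_of_eq (by ring))
  bad := ⟨∅, by simp, fun _ _ _ _ _ => rfl⟩

/-- `CL.Hy` at the start, first family -/
theorem hyF_start (T : D.Thick al) (hn : 0 < n) (hal : al ≤ 1) (hR : R.toRm = rmB D n) (s : ℕ) (x : X) (b : β) (c : γ)
    {e : ℝ} (he : 0 ≤ e) :
    CL.Hy (R.ep s x b c).om0 (R.ep s x b c).om0 (D.cB (R.ep s x b c).t0 b)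
      (fun y b' => D.kf (R.ep s x b c).t0 y b' c) (fun y b' => D.kf (R.ep s x b c).t0 y b' c) (1 / n) e 0 al where
  th b' _ := ri_thF T (R.om0_sub s x b c) b' c
  th' b' _ := ri_thF T (R.om0_sub s x b c) b' c
  al0 := T.pos
  al1 := hal
  sub := ri_sub_self ⟨x, R.self_om0 s x b c⟩ he
  sig0 := by positivity
  kap0 := le_rfl
  sat S hS hne := (om0_sat_f hR T hn hS hne).trans (le_of_eq (by ring))
  bad := ⟨∅, by simp, fun _ _ _ _ _ => rfl⟩

variable {Up : Upd D} {N : Nb} {dg : ℕ → X → ℝ} {K : ℕ} {e : Epo X} {t : ℕ} {x : X} {b : β} {c : γ}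

theorem ri_W_eq {y : X} (hy : y ∈ W D e t x) : W D e t y = W D e t x := W_congr (mem_W.1 hy).2

theorem ri_om0 (ho : e.om0 ⊆ D.cA e.t0 x) {y : X} (hy : y ∈ e.om0) : e.om0 ⊆ D.cA e.t0 y := by
  rw [D.cA_congr (D.mem_cA.1 (ho hy))]
  exact ho

/-- `CL.Hy` at a running time, second family -/
theorem hyG_run (T : D.Thick al) (hn : 0 < n) (hal : al ≤ 1) (h0 : 0 ≤ N.eps3) (h1 : N.eps3 ≤ 1 / 2)
    (ho : e.om0 ⊆ D.cA e.t0 x) (ht : e.t0 < t) (hrun : ¬ TT (rmB D n) Up N dg e t x b c) :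
    ∃ y ∈ W D e t x, CL.Hy (W D e t x) (VG (rmB D n) e t y b c) (D.cC t c)
      (fun z c' => D.kg e.t0 z b c') (fun z c' => D.kg e.t0 z b c') (1 / n) (2 * N.eps3) 0 al := by
  obtain ⟨y, hy, h2⟩ := (run_ii hrun).2
  have hyo : y ∈ e.om0 := (mem_W.1 hy).1
  have hsub : VG (rmB D n) e t y b c ⊆ W D e t x := by
    rw [← ri_W_eq hy]
    exact VG_W _ hyo (ri_om0 ho hyo) t ht.le b c
  have hWo : W D e t x ⊆ D.cA e.t0 x := (ri_W D e t x).trans ho
  exact ⟨y, hy,
    { th := fun c' _ => ri_thG T hWo b c'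
      th' := fun c' _ => ri_thG T hWo b c'
      al0 := T.pos
      al1 := hal
      sub := ri_sub hsub h0 h1 h2
      sig0 := by positivity
      kap0 := le_rfl
      sat := fun S hS hne => (VG_sat T hn ht hS hne).trans (le_of_eq (by ring))
      bad := ⟨∅, by simp, fun _ _ _ _ _ => rfl⟩ }⟩

/-- `CL.Hy` at a running time, first family -/
theorem hyF_run (T : D.Thick al) (hn : 0 < n) (hal : al ≤ 1) (h0 : 0 ≤ N.eps3) (h1 : N.eps3 ≤ 1 / 2)
    (ho : e.om0 ⊆ D.cA e.t0 x) (ht : e.t0 < t) (hrun : ¬ TT (rmB D n) Up N dg e t x b c) :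
    ∃ y ∈ W D e t x, CL.Hy (W D e t x) (VF (rmB D n) e t y b c) (D.cB t b)
      (fun z b' => D.kf e.t0 z b' c) (fun z b' => D.kf e.t0 z b' c) (1 / n) (2 * N.eps3) 0 al := by
  obtain ⟨y, hy, h2⟩ := (run_ii hrun).1
  have hyo : y ∈ e.om0 := (mem_W.1 hy).1
  have hsub : VF (rmB D n) e t y b c ⊆ W D e t x := by
    rw [← ri_W_eq hy]
    exact VF_W _ hyo (ri_om0 ho hyo) t ht.le b c
  have hWo : W D e t x ⊆ D.cA e.t0 x := (ri_W D e t x).trans ho
  exact ⟨y, hy,
    { th := fun c' _ => ri_thF T hWo c' c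
      th' := fun c' _ => ri_thF T hWo c' c
      al0 := T.pos
      al1 := hal
      sub := ri_sub hsub h0 h1 h2
      sig0 := by positivity
      kap0 := le_rfl
      sat := fun S hS hne => (VF_sat T hn ht hS hne).trans (le_of_eq (by ring))
      bad := ⟨∅, by simp, fun _ _ _ _ _ => rfl⟩ }⟩

/-- both cases, second family -/
theorem hyG_node (T : D.Thick al) (hn : 0 < n) (hal : al ≤ 1) (hR : R.toRm = rmB D n) (h0 : 0 ≤ N.eps3)
    (h1 : N.eps3 ≤ 1 / 2) {s : ℕ} (ht : (R.ep s x b c).t0 = t ∨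
      (R.ep s x b c).t0 < t ∧ ¬ TT (rmB D n) Up N dg (R.ep s x b c) t x b c) :
    ∃ K' : Finset X, CL.Hy (W D (R.ep s x b c) t x) K' (D.cC t c) (fun z c' => D.kg (R.ep s x b c).t0 z b c')
      (fun z c' => D.kg (R.ep s x b c).t0 z b c') (1 / n) (2 * N.eps3) 0 al := by
  rcases ht with ht | ⟨ht, hrun⟩
  · refine ⟨(R.ep s x b c).om0, ?_⟩
    have h2 := hyG_start T hn hal hR s x b c (e := 2 * N.eps3) (by linarith)
    have h3 := W_t0 (R.om0_sub s x b c)
    rw [ht] at h2 h3 ⊢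
    rw [h3]
    exact h2
  · obtain ⟨y, -, h2⟩ := hyG_run T hn hal h0 h1 (R.om0_sub s x b c) ht hrun
    exact ⟨_, h2⟩

/-- both cases, first family -/
theorem hyF_node (T : D.Thick al) (hn : 0 < n) (hal : al ≤ 1) (hR : R.toRm = rmB D n) (h0 : 0 ≤ N.eps3)
    (h1 : N.eps3 ≤ 1 / 2) {s : ℕ} (ht : (R.ep s x b c).t0 = t ∨
      (R.ep s x b c).t0 < t ∧ ¬ TT (rmB D n) Up N dg (R.ep s x b c) t x b c) :
    ∃ K' : Finset X, CL.Hy (W D (R.ep s x b c) t x) K' (D.cB t b) (fun z b' => D.kf (R.ep s x b c).t0 z b' c)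
      (fun z b' => D.kf (R.ep s x b c).t0 z b' c) (1 / n) (2 * N.eps3) 0 al := by
  rcases ht with ht | ⟨ht, hrun⟩
  · refine ⟨(R.ep s x b c).om0, ?_⟩
    have h2 := hyF_start T hn hal hR s x b c (e := 2 * N.eps3) (by linarith)
    have h3 := W_t0 (R.om0_sub s x b c)
    rw [ht] at h2 h3 ⊢
    rw [h3]
    exact h2
  · obtain ⟨y, -, h2⟩ := hyF_run T hn hal h0 h1 (R.om0_sub s x b c) ht hrun
    exact ⟨_, h2⟩

/-- ROW ENTROPY at a node, second family -/
theorem rowG_node (T : D.Thick al) (ho : e.om0 ⊆ D.cA e.t0 x) (h1 : e.t0 ≤ t) (hk0 : 0 ≤ N.kap1) (hk1 : N.kap1 ≤ al ^ 2)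
    (H : ∃ K' : Finset X, CL.Hy (W D e t x) K' (D.cC t c) (fun z c' => D.kg e.t0 z b c')
      (fun z c' => D.kg e.t0 z b c') (1 / n) (2 * N.eps3) 0 al) {F : φ}
    (hF : law e.om0 (fun y => D.kf e.t0 y b c) F ≠ 0) :
    avg (D.cC t c) (fun c' => ind (¬ Chg Up N e t x b c b c') *
      klf (RB.cl e.om0 (fun y => D.kf e.t0 y b c) (fun y => D.kg e.t0 y b c') F)
        (law e.om0 fun y => D.kg e.t0 y b c')) ≤ rb al n N := by
  obtain ⟨K', H⟩ := H
  refine CL.row_ent (V0 := e.om0) (kf := fun y => D.kf e.t0 y b c) H (ri_thF T ho b c) (fun c' _ => ri_thG T ho b c')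
    (ri_W D e t x) hk1 hk0 (good := fun c' => ¬ Chg Up N e t x b c b c') ?_ hF
  intro c' _ hg F' G'
  unfold Chg at hg
  push Not at hg
  exact hg.2 t h1 le_rfl F' G'

/-- ROW ENTROPY at a node, first family -/
theorem rowF_node (T : D.Thick al) (ho : e.om0 ⊆ D.cA e.t0 x) (h1 : e.t0 ≤ t) (hk0 : 0 ≤ N.kap1) (hk1 : N.kap1 ≤ al ^ 2)
    (H : ∃ K' : Finset X, CL.Hy (W D e t x) K' (D.cB t b) (fun z b' => D.kf e.t0 z b' c)
      (fun z b' => D.kf e.t0 z b' c) (1 / n) (2 * N.eps3) 0 al) {G : φ}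
    (hG : law e.om0 (fun y => D.kg e.t0 y b c) G ≠ 0) :
    avg (D.cB t b) (fun b' => ind (¬ Chg Up N e t x b c b' c) *
      klf (RB.cl e.om0 (fun y => D.kg e.t0 y b c) (fun y => D.kf e.t0 y b' c) G)
        (law e.om0 fun y => D.kf e.t0 y b' c)) ≤ rb al n N := by
  obtain ⟨K', H⟩ := H
  refine CL.row_ent (V0 := e.om0) (kf := fun y => D.kg e.t0 y b c) H (ri_thG T ho b c) (fun b' _ => ri_thF T ho b' c)
    (ri_W D e t x) hk1 hk0 (good := fun b' => ¬ Chg Up N e t x b c b' c) ?_ hG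
  intro b' _ hg G' F'
  unfold Chg at hg
  push Not at hg
  have h2 := hg.2 t h1 le_rfl F' G'
  have h3 : ∀ V : Finset X, CL.tb V (fun y => D.kg e.t0 y b c) (fun y => D.kf e.t0 y b' c) G' F' =
      pl D e.t0 b c V b' c F' G' := by
    intro V
    unfold CL.tb pl avg
    simp only [mul_comm]
  rw [h3, h3]
  exact h2

end node

section st

variable {X β γ ι φ : Type*} [Fintype X] [Fintype β] [Fintype γ] [Fintype φ] {D : Dat X β γ ι φ} {al n : ℝ}
variable {Up : Upd D} {N : Nb} {dg : ℕ → X → ℝ} {K : ℕ}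

/-- the running times of an epoch -/
theorem ri_run {s t : ℕ} {x : X} {b : β} {c : γ} (h1 : ((mkRt (rmB D n) Up N dg K).ep s x b c).t0 ≤ t)
    (h2 : ¬ (mkRt (rmB D n) Up N dg K).ST ((mkRt (rmB D n) Up N dg K).ep s x b c) t x b c) :
    ((mkRt (rmB D n) Up N dg K).ep s x b c).t0 = t ∨ ((mkRt (rmB D n) Up N dg K).ep s x b c).t0 < t ∧
      ¬ TT (rmB D n) Up N dg ((mkRt (rmB D n) Up N dg K).ep s x b c) t x b c := by
  rcases h1.eq_or_lt with h3 | h3
  · exact Or.inl h3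
  · refine Or.inr ⟨h3, fun h4 => h2 ⟨t, h3, le_rfl, Or.inl h4⟩⟩

/-- MODULE `StRow` -/
theorem stRow (T : D.Thick al) (hn : 0 < n) (hal : al ≤ 1) (h0 : 0 ≤ N.eps3) (h1 : N.eps3 ≤ 1 / 2) (hk0 : 0 ≤ N.kap1)
    (hk1 : N.kap1 ≤ al ^ 2) {e0 : ℝ} (he : rb al n N ≤ e0) : StRow (mkRt (rmB D n) Up N dg K) Up N K e0 := by
  intro σ hσK
  set R := mkRt (rmB D n) Up N dg K with hRd
  have hR : R.toRm = rmB D n := rfl
  constructor
  · intro t x b c F hσ hK hTm hF
    have hS : (R.ep σ x b c).t0 = σ := Sta_of_lt hσ hTm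
    have hST : ¬ R.ST (R.ep σ x b c) t x b c := fun h => absurd ((Tm_le_iff hσ hK x b c).2 fun _ => h) (not_le.2 hTm)
    have hn1 := ri_run (D := D) (n := n) (Up := Up) (N := N) (dg := dg) (K := K) (s := σ) (t := t) (x := x) (b := b)
      (c := c) (by rw [← hRd, hS]; exact hσ) hST
    have H := hyG_node (R := R) (Up := Up) (dg := dg) T hn hal hR h0 h1 hn1
    have ho := R.om0_sub σ x b c
    have h3 := rowG_node (Up := Up) (n := n) (F := F) T ho (by rw [hS]; exact hσ) hk0 hk1 H (by rw [hS]; exact hF)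
    rw [hS] at h3
    refine le_trans (le_of_eq ?_) (h3.trans he)
    unfold avg
    congr 1
    refine Finset.sum_congr rfl fun c' hc' => ?_
    have hsame : D.Same t x b c x b c' := ⟨rfl, rfl, (D.mem_cC.1 hc').symm⟩
    have e1 : R.ep σ x b c' = R.ep σ x b c := ep_same hσ hsame (R.self_om0 σ x b c)
    have e2 : un0 R Up N σ t x b c' = (¬ Chg Up N (R.ep σ x b c) t x b c b c') := by
      unfold un0
      rw [e1, Chg_inv (Up := Up) (N := N) (by rw [hS]; exact hσ) hsame]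
    have e3 : (fun y => D.kf σ y b c') = fun y => D.kf σ y b c := by
      funext y
      exact D.kf_c σ y b c' c (D.qc_le hσ (D.mem_cC.1 hc'))
    beta_reduce
    rw [e2, e3]
  · intro t x b c G hσ hK hTm hG
    have hS : (R.ep σ x b c).t0 = σ := Sta_of_lt hσ hTm
    have hST : ¬ R.ST (R.ep σ x b c) t x b c := fun h => absurd ((Tm_le_iff hσ hK x b c).2 fun _ => h) (not_le.2 hTm)
    have hn1 := ri_run (D := D) (n := n) (Up := Up) (N := N) (dg := dg) (K := K) (s := σ) (t := t) (x := x) (b := b)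
      (c := c) (by rw [← hRd, hS]; exact hσ) hST
    have H := hyF_node (R := R) (Up := Up) (dg := dg) T hn hal hR h0 h1 hn1
    have ho := R.om0_sub σ x b c
    have h3 := rowF_node (Up := Up) (n := n) (G := G) T ho (by rw [hS]; exact hσ) hk0 hk1 H (by rw [hS]; exact hG)
    rw [hS] at h3
    refine le_trans (le_of_eq ?_) (h3.trans he)
    unfold avg
    congr 1
    refine Finset.sum_congr rfl fun b' hb' => ?_
    have hsame : D.Same t x b c x b' c := ⟨rfl, (D.mem_cB.1 hb').symm, rfl⟩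
    have e1 : R.ep σ x b' c = R.ep σ x b c := ep_same hσ hsame (R.self_om0 σ x b c)
    have e2 : un0 R Up N σ t x b' c = (¬ Chg Up N (R.ep σ x b c) t x b c b' c) := by
      unfold un0
      rw [e1, Chg_inv (Up := Up) (N := N) (by rw [hS]; exact hσ) hsame]
    have e3 : (fun y => D.kg σ y b' c) = fun y => D.kg σ y b c := by
      funext y
      exact D.kg_b σ y b' b c (D.qb_le hσ (D.mem_cB.1 hb'))
    beta_reduce
    rw [e2, e3]

/-- MODULE `StRowT` -/
theorem stRowT (T : D.Thick al) (hn : 0 < n) (hal : al ≤ 1) (h0 : 0 ≤ N.eps3) (h1 : N.eps3 ≤ 1 / 2) (hk0 : 0 ≤ N.kap1)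
    (hk1 : N.kap1 ≤ al ^ 2) (hC : ∀ t < K, ∀ c, ((D.cC t c).card : ℝ) ≤ 2 * (D.cC (t + 1) c).card) {e0 : ℝ}
    (he : 2 * rb al n N ≤ e0) : StRowT (mkRt (rmB D n) Up N dg K) Up N K e0 := by
  intro s hs x b c F hF
  set R := mkRt (rmB D n) Up N dg K with hRd
  have hR : R.toRm = rmB D n := rfl
  have h1' := R.t0_le s x b c
  have hn1 := ri_run (D := D) (n := n) (Up := Up) (N := N) (dg := dg) (K := K) (s := s) (t := s) (x := x) (b := b)
      (c := c) h1' (R.not_ST s x b c)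
  have H := hyG_node (R := R) (Up := Up) (dg := dg) T hn hal hR h0 h1 hn1
  have ho := R.om0_sub s x b c
  have hxo := R.self_om0 s x b c
  set e := R.ep s x b c with hed
  have hlaw : law e.om0 (fun y => D.kf e.t0 y b c) F ≠ 0 := by
    have h2 : 0 < D.kf e.t0 x b c F := lt_of_le_of_ne (T.f_nn _ _ _ _ _) (Ne.symm hF)
    unfold law avg
    refine (div_pos (lt_of_lt_of_le h2 ?_) (by exact_mod_cast Finset.card_pos.2 ⟨_, hxo⟩)).ne'
    exact Finset.single_le_sum (f := fun y => D.kf e.t0 y b c F) (fun y _ => T.f_nn _ _ _ _ _) hxo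
  have h3 := rowG_node (Up := Up) (n := n) (F := F) T ho h1' hk0 hk1 H hlaw
  set g : γ → ℝ := fun c' => klf (RB.cl e.om0 (fun z => D.kf e.t0 z b c) (fun z => D.kg e.t0 z b c') F)
    (law e.om0 fun z => D.kg e.t0 z b c') with hg
  have hgn : ∀ c', 0 ≤ g c' := by
    intro c'
    refine klf_nn (RB.cl_nn (fun _ _ _ => T.f_nn _ _ _ _ _) (fun _ _ _ => T.g_nn _ _ _ _ _) F)
      (bd_law_nn (fun _ _ => T.g_nn _ _ _ _ _) _) (fun G hG => RB.cl_ac (fun _ _ _ => T.g_nn _ _ _ _ _) hG) ?_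
    rw [RB.cl_sum (fun _ _ => T.g_one _ _ _ _) hlaw, law_sum ⟨x, hxo⟩ fun _ _ => T.g_one _ _ _ _]
  have h4 : avg (D.cC (s + 1) c) (fun c' => ind (¬ Chg Up N e s x b c b c') * g c') ≤
      2 * avg (D.cC s c) (fun c' => ind (¬ Chg Up N e s x b c b c') * g c') :=
    CL.avg_half (D.cC_mono (Nat.le_succ s) c) (hC s hs c) fun c' _ => mul_nonneg (ind_nonneg _) (hgn c')
  have h5 : avg (D.cC (s + 1) c) (fun c' => ind (gdS Up N e s x b c b c') *
        klf (RB.cl e.om0 (fun z => D.kf e.t0 z b c') (fun z => D.kg e.t0 z b c') F)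
          (law e.om0 (fun z => D.kg e.t0 z b c'))) ≤
      avg (D.cC (s + 1) c) (fun c' => ind (¬ Chg Up N e s x b c b c') * g c') := by
    refine CL.avg_mono_on fun c' hc' => ?_
    have e3 : (fun y => D.kf e.t0 y b c') = fun y => D.kf e.t0 y b c := by
      funext y
      exact D.kf_c e.t0 y b c' c (D.qc_le (h1'.trans (Nat.le_succ s)) (D.mem_cC.1 hc'))
    rw [e3]
    refine mul_le_mul_of_nonneg_right ?_ (hgn c')
    by_cases hgd : gdS Up N e s x b c b c'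
    · rw [ind_of hgd, ind_of hgd.1]
    · rw [ind_not hgd]; exact ind_nonneg _
  calc _ ≤ _ := h5
    _ ≤ _ := h4
    _ ≤ 2 * rb al n N := mul_le_mul_of_nonneg_left h3 (by norm_num)
    _ ≤ e0 := he

end st

section fin3

variable {X β γ ι φ : Type} [Fintype X] [Fintype β] [Fintype γ] [Fintype φ] {D : Dat X β γ ι φ}
  {dg : ℕ → X → ℝ} {prf prg : ℕ → φ → φ} {al : ℝ} {K : ℕ} {Lam : ℝ}

theorem hyp3_C2 (H : Hyp3 D dg prf prg al K Lam) {t : ℕ} (ht : t < K) (c : γ) :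
    ((D.cC t c).card : ℝ) ≤ 2 * (D.cC (t + 1) c).card := by
  rcases H.halfC t ht with h | h
  · rw [h c]
    have : (0 : ℝ) ≤ (D.cC t c).card := Nat.cast_nonneg _
    linarith
  · have h1 := h c
    have h2 : (2 : ℝ) * (D.cC (t + 1) c).card = (D.cC t c).card := by exact_mod_cast h1
    exact h2.ge

theorem hyp3_B2 (H : Hyp3 D dg prf prg al K Lam) {t : ℕ} (ht : t < K) (b : β) :
    ((D.cB t b).card : ℝ) ≤ 2 * (D.cB (t + 1) b).card := by
  rcases H.halfB t ht with h | h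
  · rw [h b]
    have : (0 : ℝ) ≤ (D.cB t b).card := Nat.cast_nonneg _
    linarith
  · have h1 := h b
    have h2 : (2 : ℝ) * (D.cB (t + 1) b).card = (D.cB t b).card := by exact_mod_cast h1
    exact h2.ge

end fin3

end

end Pool.Agent.M3.S3B
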