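import Pool.Agent.M3.S3.FComp

/-!
# M3.S3B.Strong: the first strong time and the gain (3448 (6), one owner)

`om` a class (finite set of positions), `v t x` the cell of `x` at the time `t ≥ T0` of a refining family of partitions
of `om` (`Nest`), `T` a stopping time of this family (`StopT`), `k x F` the probability of the label `F` at the position
`x`.  `PartOn om c`: `c x` is the cell of `x` in a partition of `om`.
* `PartOn.sum_avg`, `PartOn.sum_avg_ind`: averages over the own cell; `PartOn.jensen`: a finer partition has a larger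
  `∑ X log X`;
* `strong_two`: two nested partitions: `(log B - 1) ∑ k 1[B law(c1) < law(c2)] ≤ ∑ law(c2) log (law(c2)/law(c1))`;
* `strong_F`: `(log B - 1) ∑_x k x F 1[∃ t ∈ [T0, T x], B law(om) F < law(v t x) F]`
  `≤ ∑_x law(v (T x) x) F log (law(v (T x) x) F / law(om) F)`;
* `strong_gain`, `strong_gain_avg`: the sum over the values `F`.
No thickness is used.
-/

set_option autoImplicit false
set_option linter.unusedSectionVars false
set_option linter.unusedVariables false

namespace Pool.Agent.M3.S3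

open Finset Pool.Agent.PWZ

variable {X Φ : Type*}

/-- a partition of the finite set `om`; `c x` is the cell of `x` -/
structure PartOn (om : Finset X) (c : X → Finset X) : Prop where
  self : ∀ x ∈ om, x ∈ c x
  sub : ∀ x ∈ om, c x ⊆ om
  eq : ∀ x ∈ om, ∀ y ∈ c x, c y = c x

namespace PartOn

variable {om : Finset X} {c c1 c2 : X → Finset X}

theorem symm (h : PartOn om c) {x y : X} (hx : x ∈ om) (hy : y ∈ om) : y ∈ c x ↔ x ∈ c y :=
  ⟨fun h1 => by rw [h.eq x hx y h1]; exact h.self x hx, fun h1 => by rw [h.eq y hy x h1]; exact h.self y hy⟩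

/-- the one block partition -/
theorem top (om : Finset X) : PartOn om (fun _ => om) :=
  ⟨fun _ h => h, fun _ _ => Finset.Subset.refl _, fun _ _ _ _ => rfl⟩

/-- sum of the averages over the own cells -/
theorem sum_avg (h : PartOn om c) (g : X → ℝ) : ∑ x ∈ om, avg (c x) g = ∑ x ∈ om, g x := by
  classical
  unfold avg
  calc ∑ x ∈ om, (∑ y ∈ c x, g y) / ((c x).card : ℝ)
      = ∑ x ∈ om, ∑ y ∈ om, (if y ∈ c x then g y / ((c x).card : ℝ) else 0) := by
        refine Finset.sum_congr rfl (fun x hx => ?_)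
        rw [← Finset.sum_filter, Finset.filter_mem_eq_inter, Finset.inter_eq_right.2 (h.sub x hx), Finset.sum_div]
    _ = ∑ y ∈ om, ∑ x ∈ om, (if y ∈ c x then g y / ((c x).card : ℝ) else 0) := Finset.sum_comm
    _ = ∑ y ∈ om, g y := by
        refine Finset.sum_congr rfl (fun y hy => ?_)
        have e1 : ∀ x ∈ om, (if y ∈ c x then g y / ((c x).card : ℝ) else 0) =
            (if x ∈ c y then g y / ((c y).card : ℝ) else 0) := by
          intro x hx
          by_cases hxy : y ∈ c x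
          · rw [if_pos hxy, if_pos ((h.symm hx hy).1 hxy), h.eq x hx y hxy]
          · rw [if_neg hxy, if_neg (fun h' => hxy ((h.symm hx hy).2 h'))]
        rw [Finset.sum_congr rfl e1, ← Finset.sum_filter, Finset.filter_mem_eq_inter,
          Finset.inter_eq_right.2 (h.sub y hy), Finset.sum_const, nsmul_eq_mul]
        have : (0 : ℝ) < (c y).card := by exact_mod_cast Finset.card_pos.2 ⟨y, h.self y hy⟩
        field_simp

/-- the same with a weight which is constant on the cells -/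
theorem sum_avg_mul (h : PartOn om c) (g w : X → ℝ) (hw : ∀ x ∈ om, ∀ y ∈ c x, w y = w x) :
    ∑ x ∈ om, avg (c x) g * w x = ∑ x ∈ om, g x * w x := by
  rw [← h.sum_avg (fun x => g x * w x)]
  refine Finset.sum_congr rfl (fun x hx => ?_)
  unfold avg
  rw [div_mul_eq_mul_div, Finset.sum_mul]
  congr 1
  exact Finset.sum_congr rfl (fun y hy => by show g y * w x = g y * w y; rw [hw x hx y hy])

/-- restriction to a cell of a coarser partition -/
theorem restrict (h1 : PartOn om c1) (h2 : PartOn om c2) (h : ∀ x ∈ om, c2 x ⊆ c1 x) {x : X} (hx : x ∈ om) :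
    PartOn (c1 x) c2 :=
  ⟨fun y hy => h2.self y (h1.sub x hx hy),
    fun y hy => by rw [← h1.eq x hx y hy]; exact h y (h1.sub x hx hy),
    fun y hy z hz => h2.eq y (h1.sub x hx hy) z hz⟩

theorem avg_avg (h1 : PartOn om c1) (h2 : PartOn om c2) (h : ∀ x ∈ om, c2 x ⊆ c1 x) {x : X} (hx : x ∈ om)
    (g : X → ℝ) : avg (c1 x) (fun y => avg (c2 y) g) = avg (c1 x) g := by
  show (∑ y ∈ c1 x, avg (c2 y) g) / ((c1 x).card : ℝ) = (∑ y ∈ c1 x, g y) / ((c1 x).card : ℝ)
  rw [(h1.restrict h2 h hx).sum_avg g]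

/-- Jensen for `X log X` -/
theorem jensen (h1 : PartOn om c1) (h2 : PartOn om c2) (h : ∀ x ∈ om, c2 x ⊆ c1 x) {g : X → ℝ}
    (hg : ∀ x ∈ om, 0 ≤ g x) :
    ∑ x ∈ om, avg (c1 x) g * Real.log (avg (c1 x) g) ≤ ∑ x ∈ om, avg (c2 x) g * Real.log (avg (c2 x) g) := by
  classical
  rw [← h1.sum_avg (fun x => avg (c2 x) g * Real.log (avg (c2 x) g))]
  refine Finset.sum_le_sum (fun x hx => ?_)
  have hc : (0 : ℝ) < (c1 x).card := by exact_mod_cast Finset.card_pos.2 ⟨x, h1.self x hx⟩
  have key := Real.convexOn_mul_log.map_sum_le (t := c1 x) (w := fun _ => (1 : ℝ) / (c1 x).card)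
    (p := fun y => avg (c2 y) g) (fun _ _ => by positivity)
    (by rw [Finset.sum_const, nsmul_eq_mul]; field_simp)
    (fun y hy => Set.mem_Ici.2 (div_nonneg (Finset.sum_nonneg (fun z hz => hg z (h2.sub y (h1.sub x hx hy) hz)))
      (Nat.cast_nonneg _)))
  simp only [smul_eq_mul, ← Finset.mul_sum] at key
  have e1 : 1 / ((c1 x).card : ℝ) * ∑ y ∈ c1 x, avg (c2 y) g = avg (c1 x) g := by
    rw [← h1.avg_avg h2 h hx g]
    unfold avg
    ring
  rw [e1] at key
  have e2 : 1 / ((c1 x).card : ℝ) * ∑ y ∈ c1 x, avg (c2 y) g * Real.log (avg (c2 y) g) =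
      avg (c1 x) (fun x => avg (c2 x) g * Real.log (avg (c2 x) g)) := by
    show _ = (∑ y ∈ c1 x, avg (c2 y) g * Real.log (avg (c2 y) g)) / ((c1 x).card : ℝ)
    ring
  rw [e2] at key
  exact key

end PartOn

/-- `x log (x/p) ≥ x - p` with the case of a zero denominator -/
theorem mul_log_div_ge {x p : ℝ} (hx : 0 ≤ x) (hp : 0 ≤ p) (h : p = 0 → x = 0) : x - p ≤ x * Real.log (x / p) := by
  rcases hx.eq_or_lt with h0 | h0
  · rw [← h0, zero_mul]; linarith
  · have hp' : 0 < p := lt_of_le_of_ne hp (fun e => by rw [h e.symm] at h0; exact lt_irrefl _ h0)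
    have h1 := Real.log_le_sub_one_of_pos (div_pos hp' h0)
    have h2 := mul_le_mul_of_nonneg_left h1 hx
    have h3 : x * (p / x - 1) = p - x := by field_simp
    have h4 : Real.log (x / p) = - Real.log (p / x) := by rw [← Real.log_inv, inv_div]
    rw [h3] at h2
    rw [h4]
    linarith

/-- the pointwise inequality behind the gain lemmas -/
theorem strong_pt {B x p w : ℝ} (hB : 0 < B) (hx : 0 ≤ x) (hp : 0 ≤ p) (h : p = 0 → x = 0)
    (hw : w = 0 ∨ (w = 1 ∧ B * p < x)) : (Real.log B - 1) * (x * w) + (x - p) ≤ x * Real.log (x / p) := by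
  rcases hw with hw | ⟨hw, hs⟩
  · rw [hw, mul_zero, mul_zero, zero_add]; exact mul_log_div_ge hx hp h
  · have h0 : 0 < x := lt_of_le_of_lt (mul_nonneg hB.le hp) hs
    have hp' : 0 < p := lt_of_le_of_ne hp (fun e => by rw [h e.symm] at h0; exact lt_irrefl _ h0)
    have h1 : Real.log B ≤ Real.log (x / p) :=
      Real.log_le_log hB (by rw [le_div_iff₀ hp']; exact hs.le)
    have h2 := mul_le_mul_of_nonneg_left h1 h0.le
    rw [hw]
    linarith

theorem law_nnF {S : Finset X} {k : X → Φ → ℝ} {F : Φ} (h : ∀ x ∈ S, 0 ≤ k x F) : 0 ≤ law S k F :=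
  div_nonneg (Finset.sum_nonneg h) (Nat.cast_nonneg _)

theorem law_zero_subF {S S' : Finset X} {k : X → Φ → ℝ} {F : Φ} (h : ∀ x ∈ S, 0 ≤ k x F) (hS : S' ⊆ S)
    (hz : law S k F = 0) : law S' k F = 0 := by
  have hk : ∀ x ∈ S, k x F = 0 := by
    rcases S.eq_empty_or_nonempty with he | hne
    · intro x hx; rw [he] at hx; exact absurd hx (Finset.notMem_empty x)
    · have hc : ((S.card : ℕ) : ℝ) ≠ 0 := by
        have := Finset.card_pos.2 hne
        positivity
      have h1 : ∑ x ∈ S, k x F = 0 := by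
        have : (∑ x ∈ S, k x F) / (S.card : ℝ) = 0 := hz
        rcases div_eq_zero_iff.1 this with h2 | h2
        · exact h2
        · exact absurd h2 hc
      exact (Finset.sum_eq_zero_iff_of_nonneg h).1 h1
  unfold law avg
  rw [Finset.sum_eq_zero (fun x hx => hk x (hS hx)), zero_div]

section

variable {om : Finset X} {c1 c2 : X → Finset X} {k : X → Φ → ℝ} {F : Φ} {B : ℝ}

/-- two nested partitions: letters which are strong for the finer cell with respect to the coarser cell -/
theorem strong_two (hB : 0 < B) (h1 : PartOn om c1) (h2 : PartOn om c2) (h : ∀ x ∈ om, c2 x ⊆ c1 x)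
    (hk : ∀ x ∈ om, 0 ≤ k x F) :
    (Real.log B - 1) * ∑ x ∈ om, k x F * ind (B * law (c1 x) k F < law (c2 x) k F) ≤
      ∑ x ∈ om, law (c2 x) k F * Real.log (law (c2 x) k F / law (c1 x) k F) := by
  classical
  have e1 : ∑ x ∈ om, k x F * ind (B * law (c1 x) k F < law (c2 x) k F) =
      ∑ x ∈ om, law (c2 x) k F * ind (B * law (c1 x) k F < law (c2 x) k F) := by
    refine (h2.sum_avg_mul (fun x => k x F) _ (fun x hx y hy => ?_)).symm
    rw [h1.eq x hx y (h x hx hy), h2.eq x hx y hy]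
  have e2 : ∑ x ∈ om, (law (c2 x) k F - law (c1 x) k F) = 0 := by
    rw [Finset.sum_sub_distrib]
    unfold law
    rw [h1.sum_avg, h2.sum_avg, sub_self]
  have e3 : ∑ x ∈ om, ((Real.log B - 1) * (law (c2 x) k F * ind (B * law (c1 x) k F < law (c2 x) k F)) +
      (law (c2 x) k F - law (c1 x) k F)) ≤
      ∑ x ∈ om, law (c2 x) k F * Real.log (law (c2 x) k F / law (c1 x) k F) := by
    refine Finset.sum_le_sum (fun x hx => strong_pt hB (law_nnF (fun y hy => hk y (h2.sub x hx hy)))
      (law_nnF (fun y hy => hk y (h1.sub x hx hy)))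
      (fun hz => law_zero_subF (fun y hy => hk y (h1.sub x hx hy)) (h x hx) hz) ?_)
    by_cases hs : B * law (c1 x) k F < law (c2 x) k F
    · right; exact ⟨by unfold ind; rw [if_pos hs], hs⟩
    · left; unfold ind; rw [if_neg hs]
  rw [Finset.sum_add_distrib, e2, add_zero, ← Finset.mul_sum] at e3
  rw [e1]
  exact e3

end

/-- a refining family of partitions of `om`, from the time `T0` on -/
structure Nest (om : Finset X) (T0 : ℕ) (v : ℕ → X → Finset X) : Prop where
  self : ∀ t, T0 ≤ t → ∀ x ∈ om, x ∈ v t x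
  sub : ∀ t, T0 ≤ t → ∀ x ∈ om, v t x ⊆ om
  eq : ∀ t, T0 ≤ t → ∀ x ∈ om, ∀ y ∈ v t x, v t y = v t x
  nest : ∀ t, T0 ≤ t → ∀ x ∈ om, v (t + 1) x ⊆ v t x

/-- stopping times of the family -/
def StopT (om : Finset X) (T0 : ℕ) (v : ℕ → X → Finset X) (T : X → ℕ) : Prop :=
  (∀ x ∈ om, T0 ≤ T x) ∧ ∀ t, T0 ≤ t → ∀ x ∈ om, ∀ y ∈ v t x, T x ≤ t → T y = T x

namespace Nest

variable {om : Finset X} {T0 : ℕ} {v : ℕ → X → Finset X}

theorem le (h : Nest om T0 v) {s t : ℕ} (hs : T0 ≤ s) (hst : s ≤ t) {x : X} (hx : x ∈ om) : v t x ⊆ v s x := by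
  induction t, hst using Nat.le_induction with
  | base => exact Finset.Subset.refl _
  | succ n hn ih => exact (h.nest n (hs.trans hn) x hx).trans ih

theorem part (h : Nest om T0 v) {t : ℕ} (ht : T0 ≤ t) : PartOn om (v t) :=
  ⟨h.self t ht, h.sub t ht, h.eq t ht⟩

/-- the cells at a stopping time -/
theorem partT (h : Nest om T0 v) {T : X → ℕ} (hT : StopT om T0 v T) : PartOn om (fun x => v (T x) x) :=
  ⟨fun x hx => h.self _ (hT.1 x hx) x hx, fun x hx => h.sub _ (hT.1 x hx) x hx, fun x hx y hy => by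
    show v (T y) y = v (T x) x
    rw [hT.2 (T x) (hT.1 x hx) x hx y hy le_rfl, h.eq _ (hT.1 x hx) x hx y hy]⟩

end Nest

section

variable {om : Finset X} {T0 : ℕ} {v : ℕ → X → Finset X} {T : X → ℕ} {k : X → Φ → ℝ} {B : ℝ}

/-- the first time at which the property `Q t (v t x)` holds, bounded by `T` -/
theorem exists_firstT (h : Nest om T0 v) (hT : StopT om T0 v T) (Q : Finset X → Prop) :
    ∃ τ : X → ℕ, StopT om T0 v τ ∧ (∀ x ∈ om, τ x ≤ T x) ∧
      (∀ x ∈ om, (∃ t, T0 ≤ t ∧ t ≤ T x ∧ Q (v t x)) → Q (v (τ x) x)) ∧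
      (∀ x ∈ om, ∀ y ∈ v (τ x) x,
        ((∃ t, T0 ≤ t ∧ t ≤ T y ∧ Q (v t y)) ↔ ∃ t, T0 ≤ t ∧ t ≤ T x ∧ Q (v t x))) := by
  classical
  set E : X → Prop := fun x => ∃ t, T0 ≤ t ∧ t ≤ T x ∧ Q (v t x) with hE
  set τ : X → ℕ := fun x => if hx : E x then Nat.find hx else T x with hτ
  have tE : ∀ x, (hx : E x) → τ x = Nat.find hx := fun x hx => by simp only [hτ, dif_pos hx]
  have tN : ∀ x, ¬ E x → τ x = T x := fun x hx => by simp only [hτ, dif_neg hx]
  have hlo : ∀ x ∈ om, T0 ≤ τ x := fun x hx => by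
    by_cases h1 : E x
    · rw [tE x h1]; exact (Nat.find_spec h1).1
    · rw [tN x h1]; exact hT.1 x hx
  have hup : ∀ x ∈ om, τ x ≤ T x := fun x hx => by
    by_cases h1 : E x
    · rw [tE x h1]; exact (Nat.find_spec h1).2.1
    · rw [tN x h1]
  -- if `y` is in the cell of `x` at the time `s`, the past agrees
  have past : ∀ s, T0 ≤ s → ∀ x ∈ om, ∀ y ∈ v s x, ∀ t, T0 ≤ t → t ≤ s → v t y = v t x :=
    fun s hs x hx y hy t ht hts => h.eq t ht x hx y (h.le ht hts hx hy)
  -- `T` of a point in the cell at a time `s ≤ T x` is at least `s`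
  have Tge : ∀ s, T0 ≤ s → ∀ x ∈ om, ∀ y ∈ v s x, s ≤ T x → s ≤ T y := by
    intro s hs x hx y hy hsx
    by_contra hlt
    push Not at hlt
    have hyo : y ∈ om := h.sub s hs x hx hy
    have hTy := hT.1 y hyo
    have e1 : v (T y) y = v (T y) x := past s hs x hx y hy (T y) hTy hlt.le
    have e2 : x ∈ v (T y) y := by rw [e1]; exact h.self _ hTy x hx
    have e3 := hT.2 (T y) hTy y hyo x e2 le_rfl
    omega
  have key : ∀ s, T0 ≤ s → ∀ x ∈ om, ∀ y ∈ v s x, τ x ≤ s → τ y = τ x ∧ (E y ↔ E x) := by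
    intro s hs x hx y hy hxs
    have hyo : y ∈ om := h.sub s hs x hx hy
    have hyc : y ∈ v (τ x) x := h.le (hlo x hx) hxs hx hy
    by_cases h1 : E x
    · have sp := Nat.find_spec h1
      have e0 := tE x h1
      rw [← e0] at sp
      have hTy := Tge (τ x) (hlo x hx) x hx y hyc (hup x hx)
      have Ey : E y := ⟨τ x, hlo x hx, hTy, by
        rw [past (τ x) (hlo x hx) x hx y hyc (τ x) (hlo x hx) le_rfl]; exact sp.2.2⟩
      refine ⟨?_, ⟨fun _ => h1, fun _ => Ey⟩⟩
      rw [tE y Ey]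
      apply le_antisymm
      · exact Nat.find_min' Ey ⟨hlo x hx, hTy, by
          rw [past (τ x) (hlo x hx) x hx y hyc (τ x) (hlo x hx) le_rfl]; exact sp.2.2⟩
      · by_contra hlt
        push Not at hlt
        have sy := Nat.find_spec Ey
        have e1 := past (τ x) (hlo x hx) x hx y hyc _ sy.1 hlt.le
        rw [e1] at sy
        have := Nat.find_min' h1 ⟨sy.1, hlt.le.trans (hup x hx), sy.2.2⟩
        rw [← e0] at this
        omega
    · have e0 := tN x h1
      rw [e0] at hyc hxs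
      have e1 := hT.2 (T x) (hT.1 x hx) x hx y hyc le_rfl
      have nEy : ¬ E y := by
        rintro ⟨t, ht0, ht1, ht2⟩
        rw [e1] at ht1
        apply h1
        refine ⟨t, ht0, ht1, ?_⟩
        rw [← past (T x) (hT.1 x hx) x hx y hyc t ht0 ht1]
        exact ht2
      exact ⟨by rw [tN y nEy, e0, e1], ⟨fun h' => absurd h' nEy, fun h' => absurd h' h1⟩⟩
  refine ⟨τ, ⟨hlo, fun t ht x hx y hy hxt => (key t ht x hx y hy hxt).1⟩, hup, fun x hx h1 => ?_,
    fun x hx y hy => (key (τ x) (hlo x hx) x hx y hy le_rfl).2⟩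
  rw [tE x h1]
  exact (Nat.find_spec h1).2.2

/-- the first strong time and the gain, one value of the label -/
theorem strong_F (hB : 0 < B) (h : Nest om T0 v) (hT : StopT om T0 v T) {F : Φ} (hk : ∀ x ∈ om, 0 ≤ k x F) :
    (Real.log B - 1) *
        ∑ x ∈ om, k x F * ind (∃ t, T0 ≤ t ∧ t ≤ T x ∧ B * law om k F < law (v t x) k F) ≤
      ∑ x ∈ om, law (v (T x) x) k F * Real.log (law (v (T x) x) k F / law om k F) := by
  classical
  obtain ⟨τ, hτ, hup, hQ, hE⟩ := exists_firstT h hT (fun S => B * law om k F < law S k F)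
  have hPT := h.partT hT
  have hPτ := h.partT hτ
  have p0 : 0 ≤ law om k F := law_nnF hk
  set w : X → ℝ := fun x => ind (∃ t, T0 ≤ t ∧ t ≤ T x ∧ B * law om k F < law (v t x) k F) with hw
  -- the sum at the time `τ`
  have e1 : ∑ x ∈ om, k x F * w x = ∑ x ∈ om, law (v (τ x) x) k F * w x := by
    refine (hPτ.sum_avg_mul (fun x => k x F) w (fun x hx y hy => ?_)).symm
    simp only [hw]
    unfold ind
    have := hE x hx y hy
    by_cases h1 : ∃ t, T0 ≤ t ∧ t ≤ T x ∧ B * law om k F < law (v t x) k F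
    · rw [if_pos h1, if_pos (this.2 h1)]
    · rw [if_neg h1, if_neg (fun h' => h1 (this.1 h'))]
  have e2 : ∑ x ∈ om, (law (v (τ x) x) k F - law om k F) = 0 := by
    have a1 : ∑ x ∈ om, law (v (τ x) x) k F = ∑ x ∈ om, k x F := hPτ.sum_avg (fun x => k x F)
    have a2 : ∑ x ∈ om, law om k F = ∑ x ∈ om, k x F := (PartOn.top om).sum_avg (fun x => k x F)
    rw [Finset.sum_sub_distrib, a1, a2, sub_self]
  have e3 : (Real.log B - 1) * ∑ x ∈ om, law (v (τ x) x) k F * w x ≤
      ∑ x ∈ om, law (v (τ x) x) k F * Real.log (law (v (τ x) x) k F / law om k F) := by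
    have : ∑ x ∈ om, ((Real.log B - 1) * (law (v (τ x) x) k F * w x) + (law (v (τ x) x) k F - law om k F)) ≤
        ∑ x ∈ om, law (v (τ x) x) k F * Real.log (law (v (τ x) x) k F / law om k F) := by
      refine Finset.sum_le_sum (fun x hx => strong_pt hB (law_nnF (fun y hy => hk y (hPτ.sub x hx hy))) p0
        (fun hz => law_zero_subF hk (hPτ.sub x hx) hz) ?_)
      by_cases h1 : ∃ t, T0 ≤ t ∧ t ≤ T x ∧ B * law om k F < law (v t x) k F
      · right; exact ⟨by simp only [hw]; unfold ind; rw [if_pos h1], hQ x hx h1⟩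
      · left; simp only [hw]; unfold ind; rw [if_neg h1]
    rw [Finset.sum_add_distrib, e2, add_zero, ← Finset.mul_sum] at this
    exact this
  -- comparison of the times `τ` and `T`
  have e4 : ∑ x ∈ om, law (v (τ x) x) k F * Real.log (law (v (τ x) x) k F / law om k F) ≤
      ∑ x ∈ om, law (v (T x) x) k F * Real.log (law (v (T x) x) k F / law om k F) := by
    rcases p0.eq_or_lt with hz | hpos
    · have a1 : ∀ x ∈ om, law (v (τ x) x) k F = 0 := fun x hx => law_zero_subF hk (hPτ.sub x hx) hz.symm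
      have a2 : ∀ x ∈ om, law (v (T x) x) k F = 0 := fun x hx => law_zero_subF hk (hPT.sub x hx) hz.symm
      rw [Finset.sum_eq_zero (fun x hx => by rw [a1 x hx, zero_mul]),
        Finset.sum_eq_zero (fun x hx => by rw [a2 x hx, zero_mul])]
    · have sp : ∀ {σ : X → ℕ}, PartOn om (fun x => v (σ x) x) →
          ∑ x ∈ om, law (v (σ x) x) k F * Real.log (law (v (σ x) x) k F / law om k F) =
          ∑ x ∈ om, avg (v (σ x) x) (fun y => k y F) * Real.log (avg (v (σ x) x) (fun y => k y F)) -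
            (∑ x ∈ om, k x F) * Real.log (law om k F) := by
        intro σ hσ
        have b1 : ∑ x ∈ om, law (v (σ x) x) k F = ∑ x ∈ om, k x F := hσ.sum_avg (fun x => k x F)
        rw [← b1, Finset.sum_mul, ← Finset.sum_sub_distrib]
        refine Finset.sum_congr rfl (fun x hx => ?_)
        show law (v (σ x) x) k F * _ = law (v (σ x) x) k F * Real.log (law (v (σ x) x) k F) - _
        by_cases hx0 : law (v (σ x) x) k F = 0
        · rw [hx0]; ring
        · rw [Real.log_div hx0 hpos.ne']; ring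
      rw [sp hPτ, sp hPT]
      refine sub_le_sub_right (hPτ.jensen hPT (fun x hx => h.le (hτ.1 x hx) (hup x hx) hx) hk) _
  rw [e1]
  exact e3.trans e4

/-- the first strong time and the gain, all values -/
theorem strong_gain [Fintype Φ] (hB : 0 < B) (h : Nest om T0 v) (hT : StopT om T0 v T)
    (hk : ∀ x ∈ om, ∀ F, 0 ≤ k x F) :
    (Real.log B - 1) *
        ∑ x ∈ om, ∑ F, k x F * ind (∃ t, T0 ≤ t ∧ t ≤ T x ∧ B * law om k F < law (v t x) k F) ≤
      ∑ x ∈ om, klf (law (v (T x) x) k) (law om k) := by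
  unfold klf
  rw [Finset.sum_comm, Finset.sum_comm (s := om) (t := Finset.univ)
    (f := fun x F => law (v (T x) x) k F * Real.log (law (v (T x) x) k F / law om k F)), Finset.mul_sum]
  exact Finset.sum_le_sum (fun F _ => strong_F hB h hT (fun x hx => hk x hx F))

theorem strong_gain_avg [Fintype Φ] (hB : 0 < B) (h : Nest om T0 v) (hT : StopT om T0 v T)
    (hk : ∀ x ∈ om, ∀ F, 0 ≤ k x F) :
    (Real.log B - 1) *
        avg om (fun x => ∑ F, k x F * ind (∃ t, T0 ≤ t ∧ t ≤ T x ∧ B * law om k F < law (v t x) k F)) ≤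
      avg om (fun x => klf (law (v (T x) x) k) (law om k)) := by
  unfold avg
  rw [← mul_div_assoc]
  exact div_le_div_of_nonneg_right (strong_gain hB h hT hk) (Nat.cast_nonneg _)

/-- two nested partitions, all values -/
theorem strong_two_gain [Fintype Φ] {c1 c2 : X → Finset X} (hB : 0 < B) (h1 : PartOn om c1) (h2 : PartOn om c2)
    (h : ∀ x ∈ om, c2 x ⊆ c1 x) (hk : ∀ x ∈ om, ∀ F, 0 ≤ k x F) :
    (Real.log B - 1) * ∑ x ∈ om, ∑ F, k x F * ind (B * law (c1 x) k F < law (c2 x) k F) ≤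
      ∑ x ∈ om, klf (law (c2 x) k) (law (c1 x) k) := by
  unfold klf
  rw [Finset.sum_comm, Finset.sum_comm (s := om) (t := Finset.univ)
    (f := fun x F => law (c2 x) k F * Real.log (law (c2 x) k F / law (c1 x) k F)), Finset.mul_sum]
  exact Finset.sum_le_sum (fun F _ => strong_two hB h1 h2 h (fun x hx => hk x hx F))

end

end Pool.Agent.M3.S3
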