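import Pool.Agent.M3.S3B.LossC
import Pool.Agent.M3.S3B.JumpL
import Pool.Agent.M3.S3B.Strong
import Pool.Agent.M3.S3.Law

/-!
# M3.S3B.JumpS: loss of a refinement of a saturated class (note 3448 (7); helper24)

* `loss_sat` : static: `W` a class saturated for the second label with the constant `sg`, `y` a partition of `W`, a letter
  `F` of `b` is strong at `x` if `A * law W F < law (y x) F`.  The positive part of the density of the pair of labels, over
  the strong letters `F`, is at most `(d + lam) / (log A - 1)` times the gain of the first label plus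
  `log (1/al) * exp (-L) / al`, `lam = sg (L + 1) + (4/d) sg (log (1/al) + 1)`;
* `loss_box` : the same for a refinement `Z` of a public partition `N` into boxes, with a weight `th`, in the form of the
  term of KEY (both letters strong), for the law `k.P`.
-/

set_option autoImplicit false
set_option linter.unusedSectionVars false

namespace Pool.Agent.M3.S3B

open Finset Pool.Agent.PWZ Pool.Agent.M3 Pool.Agent.M3.S3

noncomputable section

namespace JS

/-- the constant of the rare rows -/
def lam (d sg al L : ℝ) : ℝ := sg * (L + 1) + 1 * (4 / d) * (sg * (Real.log (1 / al) + 1))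

theorem lam_nonneg {d sg al L : ℝ} (hd : 0 < d) (hsg : 0 ≤ sg) (hal : 0 < al) (hal1 : al ≤ 1) (hL : 0 ≤ L) :
    0 ≤ lam d sg al L := by
  have h1 : 0 ≤ Real.log (1 / al) := Real.log_nonneg ((one_le_div hal).2 hal1)
  unfold lam
  positivity

section static

variable {X β γ φ : Type*} [Fintype φ]

/-- the positive part of the density of the pair of labels -/
def iop (W : Finset X) (kf kg : X → φ → ℝ) (F G : φ) : ℝ :=
  max (Real.log (avg W (fun z => kf z F * kg z G) / (law W kf F * law W kg G))) 0

theorem lossS_sat {kf : X → β → φ → ℝ} (h0 : ∀ x b F, 0 ≤ kf x b F) (h1 : ∀ x b, ∑ F, kf x b F = 1)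
    {kg : X → γ → φ → ℝ} (g0 : ∀ x c G, 0 ≤ kg x c G) (g1 : ∀ x c, ∑ G, kg x c G = 1)
    {W : Finset X} {Bs : Finset β} {Cs : Finset γ} {y : X → Finset X} (hy : PartOn W y)
    {al : ℝ} (hal : 0 < al) (hal1 : al ≤ 1)
    (hth : ∀ b ∈ Bs, ∀ x ∈ W, ∀ x' ∈ W, ∀ F, kf x b F ≠ 0 → al ≤ kf x' b F)
    (gth : ∀ c ∈ Cs, ∀ x ∈ W, ∀ x' ∈ W, ∀ G, kg x c G ≠ 0 → al ≤ kg x' c G)
    {d sg L A : ℝ} (hd : 0 < d) (hsg : 0 ≤ sg) (hL : 0 ≤ L) (hA : 1 < Real.log A) (hA0 : 0 < A)
    (hsat : ∀ S ⊆ W, S.Nonempty → avg Cs (fun c => klf (law S fun x => kg x c) (law W fun x => kg x c)) ≤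
      sg * (Real.log ((W.card : ℝ) / S.card) + 1)) :
    ∑ x ∈ W, avg Bs (fun b => avg Cs fun c => ∑ F, ∑ G, kf x b F * kg x c G *
      (ind (A * law W (fun z => kf z b) F < law (y x) (fun z => kf z b) F) *
        iop W (fun z => kf z b) (fun z => kg z c) F G)) ≤
    (d + lam d sg al L) / (Real.log A - 1) *
      ∑ x ∈ W, avg Bs (fun b => klf (law (y x) fun z => kf z b) (law W fun z => kf z b)) +
    Real.log (1 / al) * (Real.exp (-L) / al * W.card) := by
  classical
  rcases W.eq_empty_or_nonempty with hW | hW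
  · subst hW; simp
  have hla : 0 ≤ Real.log (1 / al) := Real.log_nonneg ((one_le_div hal).2 hal1)
  have hA1 : 0 < Real.log A - 1 := by linarith
  have hlam := lam_nonneg hd hsg hal hal1 hL
  set lm := lam d sg al L with hlm
  set p0 : γ → φ → ℝ := fun c => law W fun z => kg z c with hp0
  set p0F : β → φ → γ → φ → ℝ := fun b F c => RB.cl W (fun z => kf z b) (fun z => kg z c) F with hp0F
  have hkf1 : ∀ x b F, kf x b F ≤ 1 := fun x b F => by
    rw [← h1 x b]
    exact Finset.single_le_sum (f := fun F => kf x b F) (fun F _ => h0 x b F) (Finset.mem_univ F)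
  have hkg1 : ∀ x c G, kg x c G ≤ 1 := fun x c G => by
    rw [← g1 x c]
    exact Finset.single_le_sum (f := fun G => kg x c G) (fun G _ => g0 x c G) (Finset.mem_univ G)
  have hlowF : ∀ b ∈ Bs, ∀ F, (∃ x ∈ W, kf x b F ≠ 0) → al ≤ law W (fun z => kf z b) F := by
    rintro b hb F ⟨x, hx, hxF⟩
    exact le_law hW fun x' hx' => hth b hb x hx x' hx' F hxF
  have hF0 : ∀ b F c G, 0 ≤ p0F b F c G := fun b F c G =>
    RB.cl_nn (fun x _ F => h0 x b F) (fun x _ G => g0 x c G) F G
  have h00 : ∀ c G, 0 ≤ p0 c G := fun c G =>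
    div_nonneg (Finset.sum_nonneg fun x _ => g0 x c G) (Nat.cast_nonneg _)
  have hF1 : ∀ b ∈ Bs, ∀ F, (∃ x ∈ W, kf x b F ≠ 0) → ∀ c, ∑ G, p0F b F c G = 1 := by
    intro b hb F hex c
    exact RB.cl_sum (fun x _ => g1 x c) (lt_of_lt_of_le hal (hlowF b hb F hex)).ne'
  have h01 : ∀ c, ∑ G, p0 c G = 1 := fun c => law_sum hW fun x _ => g1 x c
  have hac : ∀ b F c G, p0 c G = 0 → p0F b F c G = 0 := fun b F c G hG =>
    RB.cl_ac (fun x _ F => g0 x c F) hG
  have he0 : ∀ b ∈ Bs, ∀ F, (∃ x ∈ W, kf x b F ≠ 0) →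
      avg Cs (fun c => ind True * klf (p0F b F c) (p0 c)) ≤ sg * (Real.log (1 / al) + 1) := by
    intro b hb F hex
    have h := JL.sat_letter hW (Cs := Cs) (kf := fun z => kf z b) (kg := kg) (fun x _ F => h0 x b F)
      (fun x _ F => hkf1 x b F) (fun x _ c _ G => g0 x c G) hsg hsat hal (hlowF b hb F hex)
    simpa only [ind_of trivial, one_mul] using h
  -- the exceptional rows
  have hW' : LC.Part W (fun _ => W) := ⟨fun _ h => h, fun _ _ => subset_rfl, fun _ _ _ _ => rfl⟩
  have hexc := LC.row_exc (kf := kf) h0 h1 (kg := kg) g0 g1 (W := W) (Bs := Bs) (Cs := Cs) hW' hal hth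
    (good := fun _ _ => True) (p0F := p0F) (p0 := p0) (B := 1) (d := d) (sg := sg)
    (e0 := sg * (Real.log (1 / al) + 1)) (L := L)
    (fun b _ F _ c _ _ G => hF0 b F c G) (fun c _ G => h00 c G) (fun b hb F hex c _ _ => hF1 b hb F hex c)
    (fun c _ => h01 c) (fun b _ F _ c _ _ G hG => hac b F c G hG) zero_le_one hd hsg (fun _ _ => hsat) he0
  set R : X → β → φ → ℝ := LC.Rw kg (fun _ => W) Cs (fun _ _ => True) p0F p0 1 d with hR
  have hRdef : ∀ x b F, R x b F = avg Cs fun c => ∑ G, kg x c G * max (Real.log (p0F b F c G / p0 c G) - d) 0 := by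
    intro x b F
    show RB.RR kg W Cs (fun _ => True) (p0F b F) p0 1 d x = _
    unfold RB.RR
    congr 1
    funext c
    rw [ind_of trivial, one_mul]
    refine Finset.sum_congr rfl fun G _ => ?_
    rw [ind_of (show law W (fun y => kg y c) G ≤ 1 * p0 c G by rw [one_mul]), one_mul]
  have hRM : ∀ x ∈ W, ∀ b ∈ Bs, ∀ F, kf x b F ≠ 0 → R x b F ≤ Real.log (1 / al) := by
    intro x hx b hb F hF
    rw [hRdef]
    have hb' : ∀ c ∈ Cs, (∑ G, kg x c G * max (Real.log (p0F b F c G / p0 c G) - d) 0) ≤ Real.log (1 / al) := by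
      intro c hc
      calc (∑ G, kg x c G * max (Real.log (p0F b F c G / p0 c G) - d) 0)
          ≤ ∑ G, kg x c G * Real.log (1 / al) := by
            refine Finset.sum_le_sum fun G _ => ?_
            by_cases hG : kg x c G = 0
            · rw [hG, zero_mul, zero_mul]
            · refine mul_le_mul_of_nonneg_left (max_le ?_ hla) (g0 x c G)
              have hlow : al ≤ p0 c G := le_law hW fun x' hx' => gth c hc x hx x' hx' G hG
              have hcl : p0F b F c G ≤ 1 := by
                rw [← hF1 b hb F ⟨x, hx, hF⟩ c]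
                exact Finset.single_le_sum (f := fun G => p0F b F c G) (fun G _ => hF0 b F c G) (Finset.mem_univ G)
              have h5 : p0F b F c G / p0 c G ≤ 1 / al := div_le_div₀ zero_le_one hcl hal hlow
              rcases (div_nonneg (hF0 b F c G) (h00 c G)).eq_or_lt with h6 | h6
              · rw [← h6, Real.log_zero]; linarith
              · have := Real.log_le_log h6 h5
                linarith
        _ = Real.log (1 / al) := by rw [← Finset.sum_mul, g1, one_mul]
    rcases Cs.eq_empty_or_nonempty with hC | hC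
    · rw [hC]; unfold avg; simpa using hla
    · rw [← avg_const hC (Real.log (1 / al))]
      exact avg_mono hb'
  -- pointwise bound of the loss by rows
  have hpt : ∀ x ∈ W, ∀ b ∈ Bs, (avg Cs fun c => ∑ F, ∑ G, kf x b F * kg x c G *
      (ind (A * law W (fun z => kf z b) F < law (y x) (fun z => kf z b) F) *
        iop W (fun z => kf z b) (fun z => kg z c) F G)) ≤
      (d + lm) * (∑ F, kf x b F * ind (A * law W (fun z => kf z b) F < law (y x) (fun z => kf z b) F)) +
      Real.log (1 / al) * (∑ F, kf x b F * ind (lm < R x b F)) := by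
    intro x hx b hb
    have e1 : (avg Cs fun c => ∑ F, ∑ G, kf x b F * kg x c G *
      (ind (A * law W (fun z => kf z b) F < law (y x) (fun z => kf z b) F) *
        iop W (fun z => kf z b) (fun z => kg z c) F G)) =
        ∑ F, kf x b F * ind (A * law W (fun z => kf z b) F < law (y x) (fun z => kf z b) F) *
          avg Cs fun c => ∑ G, kg x c G * iop W (fun z => kf z b) (fun z => kg z c) F G := by
      unfold avg
      simp only [← mul_div_assoc]
      rw [← Finset.sum_div, Finset.sum_comm]
      congr 1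
      refine Finset.sum_congr rfl fun F _ => ?_
      rw [Finset.mul_sum]
      refine Finset.sum_congr rfl fun c _ => ?_
      rw [Finset.mul_sum]
      refine Finset.sum_congr rfl fun G _ => ?_
      ring
    rw [e1, Finset.mul_sum, Finset.mul_sum, ← Finset.sum_add_distrib]
    refine Finset.sum_le_sum fun F _ => ?_
    have hk := h0 x b F
    by_cases hF : kf x b F = 0
    · rw [hF]; simp
    have h3 : (avg Cs fun c => ∑ G, kg x c G * iop W (fun z => kf z b) (fun z => kg z c) F G) ≤ d + R x b F := by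
      rw [hRdef]
      rcases Cs.eq_empty_or_nonempty with hC | hC
      · rw [hC]; unfold avg; simpa using hd.le
      have ed : d + (avg Cs fun c => ∑ G, kg x c G * max (Real.log (p0F b F c G / p0 c G) - d) 0) =
          avg Cs fun c => d + ∑ G, kg x c G * max (Real.log (p0F b F c G / p0 c G) - d) 0 := by
        rw [avg_add, avg_const hC]
      rw [ed]
      refine avg_mono fun c _ => ?_
      calc ∑ G, kg x c G * iop W (fun z => kf z b) (fun z => kg z c) F G
          ≤ ∑ G, (kg x c G * d + kg x c G * max (Real.log (p0F b F c G / p0 c G) - d) 0) := by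
            refine Finset.sum_le_sum fun G _ => ?_
            rw [← mul_add]
            refine mul_le_mul_of_nonneg_left ?_ (g0 x c G)
            unfold iop
            rw [← RB.cl_ratio]
            show max (Real.log (p0F b F c G / p0 c G)) 0 ≤ _
            refine max_le ?_ ?_
            · have := le_max_left (Real.log (p0F b F c G / p0 c G) - d) 0
              linarith
            · have := le_max_right (Real.log (p0F b F c G / p0 c G) - d) 0
              linarith
        _ = d + ∑ G, kg x c G * max (Real.log (p0F b F c G / p0 c G) - d) 0 := by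
            rw [Finset.sum_add_distrib, ← Finset.sum_mul, g1, one_mul]
    have h4 := hRM x hx b hb F hF
    have hi : 0 ≤ ind (A * law W (fun z => kf z b) F < law (y x) (fun z => kf z b) F) := ind_nonneg _
    have hi1 : ind (A * law W (fun z => kf z b) F < law (y x) (fun z => kf z b) F) ≤ 1 := ind_le_one _
    have h5 := mul_le_mul_of_nonneg_left h3 (mul_nonneg hk hi)
    refine h5.trans ?_
    by_cases hl : lm < R x b F
    · rw [ind_of hl, mul_one]
      have a1 : kf x b F * ind (A * law W (fun z => kf z b) F < law (y x) (fun z => kf z b) F) * R x b F ≤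
          kf x b F * Real.log (1 / al) := by
        have a2 : ind (A * law W (fun z => kf z b) F < law (y x) (fun z => kf z b) F) * R x b F ≤
            Real.log (1 / al) := by
          have hR0 : 0 ≤ R x b F := hlam.trans hl.le
          calc _ ≤ 1 * R x b F := mul_le_mul_of_nonneg_right hi1 hR0
            _ ≤ _ := by rw [one_mul]; exact h4
        calc _ = kf x b F * (ind (A * law W (fun z => kf z b) F < law (y x) (fun z => kf z b) F) * R x b F) := by
              ring
          _ ≤ _ := mul_le_mul_of_nonneg_left a2 hk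
      have a3 : 0 ≤ kf x b F * ind (A * law W (fun z => kf z b) F < law (y x) (fun z => kf z b) F) * lm :=
        mul_nonneg (mul_nonneg hk hi) hlam
      nlinarith
    · rw [ind_not hl, mul_zero, mul_zero, add_zero]
      push Not at hl
      have := mul_le_mul_of_nonneg_left hl (mul_nonneg hk hi)
      nlinarith
  -- the strong letters and the gain
  have hgain : ∀ b, (Real.log A - 1) * ∑ x ∈ W, ∑ F, kf x b F *
      ind (A * law W (fun z => kf z b) F < law (y x) (fun z => kf z b) F) ≤
      ∑ x ∈ W, klf (law (y x) fun z => kf z b) (law W fun z => kf z b) := by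
    intro b
    exact strong_two_gain (k := fun z => kf z b) hA0 (PartOn.top W) hy (fun x hx => hy.sub x hx)
      (fun x _ F => h0 x b F)
  have hcomm : ∀ f : X → β → ℝ, ∑ x ∈ W, avg Bs (fun b => f x b) = avg Bs fun b => ∑ x ∈ W, f x b := by
    intro f
    unfold avg
    rw [← Finset.sum_div, Finset.sum_comm]
  calc ∑ x ∈ W, avg Bs (fun b => avg Cs fun c => ∑ F, ∑ G, kf x b F * kg x c G *
      (ind (A * law W (fun z => kf z b) F < law (y x) (fun z => kf z b) F) *
        iop W (fun z => kf z b) (fun z => kg z c) F G))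
      ≤ ∑ x ∈ W, ((d + lm) * avg Bs (fun b => ∑ F, kf x b F *
          ind (A * law W (fun z => kf z b) F < law (y x) (fun z => kf z b) F)) +
        Real.log (1 / al) * avg Bs (fun b => ∑ F, kf x b F * ind (lm < R x b F))) := by
        refine Finset.sum_le_sum fun x hx => ?_
        rw [← avg_smul, ← avg_smul, ← avg_add]
        exact avg_mono fun b hb => hpt x hx b hb
    _ = (d + lm) * ∑ x ∈ W, avg Bs (fun b => ∑ F, kf x b F *
          ind (A * law W (fun z => kf z b) F < law (y x) (fun z => kf z b) F)) +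
        Real.log (1 / al) * ∑ x ∈ W, avg Bs (fun b => ∑ F, kf x b F * ind (lm < R x b F)) := by
        rw [Finset.sum_add_distrib, Finset.mul_sum, Finset.mul_sum]
    _ ≤ _ := by
        refine add_le_add ?_ (mul_le_mul_of_nonneg_left hexc hla)
        rw [hcomm, hcomm, div_mul_eq_mul_div, le_div_iff₀ hA1]
        have h6 : (avg Bs fun b => ∑ x ∈ W, ∑ F, kf x b F *
            ind (A * law W (fun z => kf z b) F < law (y x) (fun z => kf z b) F)) * (Real.log A - 1) ≤
            avg Bs fun b => ∑ x ∈ W, klf (law (y x) fun z => kf z b) (law W fun z => kf z b) := by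
          rw [mul_comm, ← avg_smul]
          exact avg_mono fun b _ => hgain b
        have h7 := mul_le_mul_of_nonneg_left h6 (show 0 ≤ d + lm by linarith)
        nlinarith

end static

section box

variable {X β γ φ : Type*} [Fintype X] [Fintype β] [Fintype γ] [Fintype φ] [Nonempty X] [Nonempty β] [Nonempty γ]

/-- mean of the positive part of the density over the strong letters `F`, given the three points -/
def LS (k : KP X β γ φ) (A : ℝ) (V y : Finset X) (x : X) (b : β) (c : γ) : ℝ :=
  ∑ F, ∑ G, k.f x b c F * k.g x b c G *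
    (ind (A * law V (fun z => k.f z b c) F < law y (fun z => k.f z b c) F) *
      iop V (fun z => k.f z b c) (fun z => k.g z b c) F G)

theorem LS_nonneg (k : KP X β γ φ) (A : ℝ) (V y : Finset X) (x : X) (b : β) (c : γ) : 0 ≤ LS k A V y x b c :=
  Finset.sum_nonneg fun _ _ => Finset.sum_nonneg fun _ _ =>
    mul_nonneg (mul_nonneg (k.f_nn _ _ _ _) (k.g_nn _ _ _ _)) (mul_nonneg (ind_nonneg _) (le_max_right _ _))

/-- THE LOSS OF A REFINEMENT OF SATURATED CLASSES, with a weight `th` -/
theorem loss_E3 {k : KP X β γ φ} {N Z : Bx X β γ} (hZ : Z.Sub N) (hN : N.Ok k) {th : X → β → γ → ℝ}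
    (hth0 : ∀ x b c, 0 ≤ th x b c)
    (hth : ∀ x b c x' b' c', x' ∈ N.V x b c → b' ∈ N.B x b c → c' ∈ N.C x b c → th x' b' c' = th x b c)
    {al d sg L A : ℝ} (hal1 : al ≤ 1) (hd : 0 < d) (hsg : 0 ≤ sg) (hL : 0 ≤ L) (hA : 1 < Real.log A) (hA0 : 0 < A)
    (hal : 0 < al) (hk : ∀ x b c, th x b c ≠ 0 → Thk k (N.V x b c) al)
    (hsat : ∀ x b c, th x b c ≠ 0 → ∀ S ⊆ N.V x b c, S.Nonempty →
      avg (N.C x b c) (fun c' => klf (law S fun z => k.g z b c') (law (N.V x b c) fun z => k.g z b c')) ≤
        sg * (Real.log (((N.V x b c).card : ℝ) / S.card) + 1)) :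
    E3 (fun x b c => th x b c * LS k A (N.V x b c) (Z.V x b c) x b c) ≤
      (d + lam d sg al L) / (Real.log A - 1) *
        E3 (fun x b c => th x b c * klf (law (Z.V x b c) fun z => k.f z b c) (law (N.V x b c) fun z => k.f z b c)) +
      Real.log (1 / al) * (Real.exp (-L) / al) * E3 th := by
  rw [E3_box N (fun x b c => th x b c * LS k A (N.V x b c) (Z.V x b c) x b c),
    E3_box N (fun x b c => th x b c * klf (law (Z.V x b c) fun z => k.f z b c) (law (N.V x b c) fun z => k.f z b c)),
    ← E3_smul, ← E3_smul, ← E3_add]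
  refine E3_mono fun x b c => ?_
  set W := N.V x b c with hW
  have hxW : x ∈ W := N.sV x b c
  have hWn : W.Nonempty := ⟨x, hxW⟩
  have hWc : (0 : ℝ) < W.card := by exact_mod_cast hWn.card_pos
  have hBn : (N.B x b c).Nonempty := ⟨b, N.sB x b c⟩
  have hCn : (N.C x b c).Nonempty := ⟨c, N.sC x b c⟩
  -- constants in the box
  have eV : ∀ x' ∈ W, ∀ b' ∈ N.B x b c, ∀ c' ∈ N.C x b c, N.V x' b' c' = W := fun x' hx' b' hb' c' hc' =>
    (N.inv x b c x' b' c' hx' hb' hc').1
  have eZ : ∀ x' ∈ W, ∀ b' ∈ N.B x b c, ∀ c' ∈ N.C x b c, Z.V x' b' c' = Z.V x' b c := by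
    intro x' hx' b' hb' c' hc'
    have e1 := N.inv x b c x' b c hx' (N.sB x b c) (N.sC x b c)
    refine (Z.inv x' b c x' b' c' (Z.sV x' b c) ?_ ?_).1
    · rw [hZ.B, e1.2.1]; exact hb'
    · rw [hZ.C, e1.2.2]; exact hc'
  have ef : ∀ b' ∈ N.B x b c, ∀ c' ∈ N.C x b c, ∀ z, k.f z b' c' = k.f z b' c := by
    intro b' hb' c' hc' z
    refine hN.f x b' c c' z ?_
    rw [(N.inv x b c x b' c hxW hb' (N.sC x b c)).2.2]
    exact hc'
  have eg : ∀ b' ∈ N.B x b c, ∀ c' ∈ N.C x b c, ∀ z, k.g z b' c' = k.g z b c' := by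
    intro b' hb' c' hc' z
    refine hN.g x b b' c' z ?_
    rw [(N.inv x b c x b c' hxW (N.sB x b c) hc').2.1]
    exact hb'
  have et : ∀ x' ∈ W, ∀ b' ∈ N.B x b c, ∀ c' ∈ N.C x b c, th x' b' c' = th x b c := fun x' hx' b' hb' c' hc' =>
    hth x b c x' b' c' hx' hb' hc'
  set y : X → Finset X := fun x' => Z.V x' b c with hy
  have hyP : PartOn W y := by
    refine ⟨fun x' _ => Z.sV x' b c, fun x' hx' => ?_, fun x' hx' z hz => ?_⟩
    · have h1 := hZ.V x' b c
      rw [eV x' hx' b (N.sB x b c) c (N.sC x b c)] at h1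
      exact h1
    · exact (Z.inv x' b c z b c hz (Z.sB x' b c) (Z.sC x' b c)).1
  by_cases h0 : th x b c = 0
  · have z1 : (avg W fun x' => avg (N.B x b c) fun b' => avg (N.C x b c) fun c' =>
        th x' b' c' * LS k A (N.V x' b' c') (Z.V x' b' c') x' b' c') = 0 := by
      unfold avg
      rw [Finset.sum_eq_zero, zero_div]
      intro x' hx'
      rw [Finset.sum_eq_zero, zero_div]
      intro b' hb'
      rw [Finset.sum_eq_zero, zero_div]
      intro c' hc'
      show th x' b' c' * _ = 0
      rw [et x' hx' b' hb' c' hc', h0, zero_mul]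
    have z2 : (avg W fun x' => avg (N.B x b c) fun b' => avg (N.C x b c) fun c' =>
        th x' b' c' * klf (law (Z.V x' b' c') fun z => k.f z b' c') (law (N.V x' b' c') fun z => k.f z b' c')) = 0 := by
      unfold avg
      rw [Finset.sum_eq_zero, zero_div]
      intro x' hx'
      rw [Finset.sum_eq_zero, zero_div]
      intro b' hb'
      rw [Finset.sum_eq_zero, zero_div]
      intro c' hc'
      show th x' b' c' * _ = 0
      rw [et x' hx' b' hb' c' hc', h0, zero_mul]
    rw [z1, z2, h0, mul_zero, mul_zero, add_zero]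
  · have hT := hk x b c h0
    have key := lossS_sat (kf := fun z b' F => k.f z b' c F) (fun z b' F => k.f_nn _ _ _ _) (fun z b' => k.f_one _ _ _)
      (kg := fun z c' G => k.g z b c' G) (fun z c' G => k.g_nn _ _ _ _) (fun z c' => k.g_one _ _ _)
      (W := W) (Bs := N.B x b c) (Cs := N.C x b c) (y := y) hyP hal hal1
      (fun b' _ z hz z' hz' F hF => hT.f z hz z' hz' b' c F hF)
      (fun c' _ z hz z' hz' G hG => hT.g z hz z' hz' b c' G hG) (d := d) (sg := sg) (L := L) (A := A)
      hd hsg hL hA hA0 (hsat x b c h0)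
    have e1 : (avg W fun x' => avg (N.B x b c) fun b' => avg (N.C x b c) fun c' =>
        th x' b' c' * LS k A (N.V x' b' c') (Z.V x' b' c') x' b' c') =
        th x b c * ((∑ x' ∈ W, avg (N.B x b c) fun b' => avg (N.C x b c) fun c' => ∑ F, ∑ G,
          k.f x' b' c F * k.g x' b c' G *
          (ind (A * law W (fun z => k.f z b' c) F < law (y x') (fun z => k.f z b' c) F) *
            iop W (fun z => k.f z b' c) (fun z => k.g z b c') F G)) / W.card) := by
      unfold avg
      rw [mul_div_assoc', Finset.mul_sum]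
      refine congrArg (· / _) (Finset.sum_congr rfl fun x' hx' => ?_)
      rw [mul_div_assoc', Finset.mul_sum]
      refine congrArg (· / _) (Finset.sum_congr rfl fun b' hb' => ?_)
      rw [mul_div_assoc', Finset.mul_sum]
      refine congrArg (· / _) (Finset.sum_congr rfl fun c' hc' => ?_)
      show th x' b' c' * LS k A (N.V x' b' c') (Z.V x' b' c') x' b' c' = _
      rw [et x' hx' b' hb' c' hc', eV x' hx' b' hb' c' hc', eZ x' hx' b' hb' c' hc']
      unfold LS
      simp only [ef b' hb' c' hc', eg b' hb' c' hc']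
      rfl
    have e2 : (avg W fun x' => avg (N.B x b c) fun b' => avg (N.C x b c) fun c' =>
        th x' b' c' * klf (law (Z.V x' b' c') fun z => k.f z b' c') (law (N.V x' b' c') fun z => k.f z b' c')) =
        th x b c * ((∑ x' ∈ W, avg (N.B x b c) fun b' =>
          klf (law (y x') fun z => k.f z b' c) (law W fun z => k.f z b' c)) / W.card) := by
      have e3 : ∀ x' ∈ W, ∀ b' ∈ N.B x b c, (avg (N.C x b c) fun c' =>
          th x' b' c' * klf (law (Z.V x' b' c') fun z => k.f z b' c') (law (N.V x' b' c') fun z => k.f z b' c')) =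
          th x b c * klf (law (y x') fun z => k.f z b' c) (law W fun z => k.f z b' c) := by
        intro x' hx' b' hb'
        rw [← avg_const hCn (th x b c * klf (law (y x') fun z => k.f z b' c) (law W fun z => k.f z b' c))]
        unfold avg
        refine congrArg (· / _) (Finset.sum_congr rfl fun c' hc' => ?_)
        show th x' b' c' * klf (law (Z.V x' b' c') fun z => k.f z b' c') (law (N.V x' b' c') fun z => k.f z b' c') = _
        rw [et x' hx' b' hb' c' hc', eV x' hx' b' hb' c' hc', eZ x' hx' b' hb' c' hc']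
        simp only [ef b' hb' c' hc']
        rfl
      unfold avg at e3 ⊢
      rw [mul_div_assoc', Finset.mul_sum]
      refine congrArg (· / _) (Finset.sum_congr rfl fun x' hx' => ?_)
      rw [mul_div_assoc', Finset.mul_sum]
      exact congrArg (· / _) (Finset.sum_congr rfl fun b' hb' => e3 x' hx' b' hb')
    rw [e1, e2]
    have h3 := div_le_div_of_nonneg_right key hWc.le
    have h4 := mul_le_mul_of_nonneg_left h3 (hth0 x b c)
    refine h4.trans (le_of_eq ?_)
    field_simp

/-- the term of KEY (both letters strong) is at most `LS` -/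
theorem key_le_LS {k : KP X β γ φ} {N Z : Bx X β γ} (hZ : Z.Sub N) (hN : N.Ok k) {th : X → β → γ → ℝ}
    (hth0 : ∀ x b c, 0 ≤ th x b c) (A : ℝ) :
    k.P.E (fun w => th w.1 w.2.1 w.2.2.1 * (ind (A < k.P.rt xF N.map Z.map w (Z.map w) ∧
      A < k.P.rt xG N.map Z.map w (Z.map w)) * k.P.iota xF xG N.map w)) ≤
    E3 (fun x b c => th x b c * LS k A (N.V x b c) (Z.V x b c) x b c) := by
  rw [k.E_eq]
  refine E3_mono fun x b c => ?_
  unfold LS
  rw [Finset.mul_sum]
  refine Finset.sum_le_sum fun F _ => ?_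
  rw [Finset.mul_sum]
  refine Finset.sum_le_sum fun G _ => ?_
  rw [rt_F k hZ hN, rt_G k hZ hN, iota_FG k hN]
  show k.f x b c F * k.g x b c G * (th x b c * (ind (A < law (Z.V x b c) (fun z => k.f z b c) F /
      law (N.V x b c) (fun z => k.f z b c) F ∧ _) * io k (N.V x b c) b c F G)) ≤ _
  have hkk : 0 ≤ k.f x b c F * k.g x b c G := mul_nonneg (k.f_nn _ _ _ _) (k.g_nn _ _ _ _)
  rw [mul_left_comm (k.f x b c F * k.g x b c G) (th x b c)]
  refine mul_le_mul_of_nonneg_left ?_ (hth0 x b c)
  by_cases hF : k.f x b c F = 0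
  · rw [hF]; simp
  refine mul_le_mul_of_nonneg_left ?_ hkk
  have hpos : 0 < law (N.V x b c) (fun z => k.f z b c) F :=
    bd_law_pos (k := fun z => k.f z b c) (fun z F => k.f_nn _ _ _ _) (N.sV x b c) hF
  have hio : io k (N.V x b c) b c F G ≤ iop (N.V x b c) (fun z => k.f z b c) (fun z => k.g z b c) F G := le_max_left _ _
  have hip : 0 ≤ iop (N.V x b c) (fun z => k.f z b c) (fun z => k.g z b c) F G := le_max_right _ _
  by_cases hs : A < law (Z.V x b c) (fun z => k.f z b c) F / law (N.V x b c) (fun z => k.f z b c) F ∧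
      A < law (Z.V x b c) (fun z => k.g z b c) G / law (N.V x b c) (fun z => k.g z b c) G
  · rw [ind_of hs, one_mul, ind_of ((lt_div_iff₀ hpos).1 hs.1), one_mul]
    exact hio
  · rw [ind_not hs, zero_mul]
    exact mul_nonneg (ind_nonneg _) hip

/-- the two together -/
theorem loss_box {k : KP X β γ φ} {N Z : Bx X β γ} (hZ : Z.Sub N) (hN : N.Ok k) {th : X → β → γ → ℝ}
    (hth0 : ∀ x b c, 0 ≤ th x b c)
    (hth : ∀ x b c x' b' c', x' ∈ N.V x b c → b' ∈ N.B x b c → c' ∈ N.C x b c → th x' b' c' = th x b c)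
    {al d sg L A : ℝ} (hal1 : al ≤ 1) (hd : 0 < d) (hsg : 0 ≤ sg) (hL : 0 ≤ L) (hA : 1 < Real.log A) (hA0 : 0 < A)
    (hal : 0 < al) (hk : ∀ x b c, th x b c ≠ 0 → Thk k (N.V x b c) al)
    (hsat : ∀ x b c, th x b c ≠ 0 → ∀ S ⊆ N.V x b c, S.Nonempty →
      avg (N.C x b c) (fun c' => klf (law S fun z => k.g z b c') (law (N.V x b c) fun z => k.g z b c')) ≤
        sg * (Real.log (((N.V x b c).card : ℝ) / S.card) + 1)) :
    k.P.E (fun w => th w.1 w.2.1 w.2.2.1 * (ind (A < k.P.rt xF N.map Z.map w (Z.map w) ∧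
      A < k.P.rt xG N.map Z.map w (Z.map w)) * k.P.iota xF xG N.map w)) ≤
      (d + lam d sg al L) / (Real.log A - 1) *
        E3 (fun x b c => th x b c * klf (law (Z.V x b c) fun z => k.f z b c) (law (N.V x b c) fun z => k.f z b c)) +
      Real.log (1 / al) * (Real.exp (-L) / al) * E3 th :=
  (key_le_LS hZ hN hth0 A).trans (loss_E3 hZ hN hth0 hth hal1 hd hsg hL hA hA0 hal hk hsat)

/-- the gain of the first label without weight dominates the gain with a weight `≤ 1` -/
theorem gain_th_le {k : KP X β γ φ} {N Z : Bx X β γ} (hZ : Z.Sub N) {th : X → β → γ → ℝ} (hth1 : ∀ x b c, th x b c ≤ 1) :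
    E3 (fun x b c => th x b c * klf (law (Z.V x b c) fun z => k.f z b c) (law (N.V x b c) fun z => k.f z b c)) ≤
      E3 (fun x b c => klf (law (Z.V x b c) fun z => k.f z b c) (law (N.V x b c) fun z => k.f z b c)) := by
  refine E3_mono fun x b c => ?_
  have h := bd_klf_law_nonneg (k := fun z => k.f z b c) (fun z F => k.f_nn _ _ _ _) (fun z => k.f_one _ _ _)
    (S := Z.V x b c) (T := N.V x b c) ⟨x, Z.sV x b c⟩ (hZ.V x b c)
  calc _ ≤ 1 * klf (law (Z.V x b c) fun z => k.f z b c) (law (N.V x b c) fun z => k.f z b c) :=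
        mul_le_mul_of_nonneg_right (hth1 x b c) h
    _ = _ := one_mul _

end box

end JS

end

end Pool.Agent.M3.S3B
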