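import Pool.Agent.M3.S3.Bud

/-!
# M3.S3B.StrC: strong letters of a partition of a saturated class (note 3448, (6)(C), static part; helper82)

`v` a class, `r` a partition of `v` with the blocks `fblk v r x`, `k x b F` = probability of the label `F` of the owner
`b` at the position `x`.  A letter `F` of `b` is strong for the block `y` if `A * law v F < law y F`.
* `str_kl` : for two laws `p`, `q` the mass of the letters with `A q < p` is at most `klf p q / (log A - 1)`;
* `strC_sum` : if `v` is saturated with the constant `sg`, the mass of the strong letters of the blocks, summed over `v`,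
  is at most `2 sg / (log A - 1)` times `entN v r` (= `|v| H(r | v)`);
* `strC_row` : the same with a weight `R` of the rows, `0 ≤ R ≤ M`;
* `row_bad` : mass of the exceptional rows, union over the letters of the support (factor `1/al`).
-/

set_option autoImplicit false
set_option linter.unusedSectionVars false
set_option linter.unusedVariables false

namespace Pool.Agent.M3.S3

open Finset Pool.Agent.PWZ Pool.Agent.M3

variable {X β φ κ : Type*} [Fintype φ]

/-- letters which are `A` times more probable under `p` than under `q` -/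
theorem str_kl {p q : φ → ℝ} (hp : ∀ F, 0 ≤ p F) (hq : ∀ F, 0 ≤ q F) (hpq : ∀ F, p F ≠ 0 → 0 < q F)
    (hp1 : ∑ F, p F = 1) (hq1 : ∑ F, q F ≤ 1) {A : ℝ} (hA : 1 < Real.log A) (hA0 : 0 < A) :
    ∑ F, p F * ind (A * q F < p F) ≤ klf p q / (Real.log A - 1) := by
  have hA1 : 0 < Real.log A - 1 := by linarith
  rw [le_div_iff₀ hA1, Finset.sum_mul]
  have h1 : ∀ F, p F * ind (A * q F < p F) * (Real.log A - 1) ≤ p F * Real.log (p F / q F) - p F + q F := by
    intro F
    by_cases h0 : p F = 0
    · rw [h0]
      simp only [zero_mul, zero_sub, neg_zero, zero_add]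
      exact hq F
    · have hpF : 0 < p F := lt_of_le_of_ne (hp F) (Ne.symm h0)
      have hqF : 0 < q F := hpq F h0
      have h2 : 0 ≤ p F * Real.log (p F / q F) - p F + q F := by
        have h3 := Real.log_le_sub_one_of_pos (div_pos hqF hpF)
        have h4 : Real.log (p F / q F) = - Real.log (q F / p F) := by
          rw [← Real.log_inv, inv_div]
        have h5 : p F * Real.log (q F / p F) ≤ q F - p F := by
          calc p F * Real.log (q F / p F) ≤ p F * (q F / p F - 1) := mul_le_mul_of_nonneg_left h3 hpF.le
            _ = q F - p F := by field_simp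
        rw [h4]
        linarith
      by_cases hs : A * q F < p F
      · rw [ind_of hs, mul_one]
        have h3 : Real.log A ≤ Real.log (p F / q F) := by
          apply Real.log_le_log hA0
          rw [le_div_iff₀ hqF]
          exact hs.le
        nlinarith
      · rw [ind_not hs, mul_zero, zero_mul]
        exact h2
  calc ∑ F, p F * ind (A * q F < p F) * (Real.log A - 1)
      ≤ ∑ F, (p F * Real.log (p F / q F) - p F + q F) := Finset.sum_le_sum fun F _ => h1 F
    _ = klf p q - ∑ F, p F + ∑ F, q F := by
        rw [Finset.sum_add_distrib, Finset.sum_sub_distrib]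
        rfl
    _ ≤ klf p q := by rw [hp1]; linarith

/-- the law of a subclass is at most `|v|/|y|` times the law of the class -/
theorem law_sub_le {k : X → φ → ℝ} (h0 : ∀ x F, 0 ≤ k x F) {v y : Finset X} (hy : y ⊆ v) (hne : y.Nonempty) (F : φ) :
    (y.card : ℝ) * law y k F ≤ v.card * law v k F := by
  have hc : (y.card : ℝ) ≠ 0 := by exact_mod_cast (Finset.card_pos.2 hne).ne'
  have hc' : (v.card : ℝ) ≠ 0 := by exact_mod_cast (Finset.card_pos.2 (hne.mono hy)).ne'
  unfold law avg
  rw [mul_div_cancel₀ _ hc, mul_div_cancel₀ _ hc']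
  exact Finset.sum_le_sum_of_subset_of_nonneg hy fun x _ _ => h0 x F

/-- replacing the letter of a position by the law of its block -/
theorem sum_blk_law [DecidableEq κ] (K : Finset X) (r : X → κ) (k : X → φ → ℝ) (g : κ → φ → ℝ) :
    ∑ x ∈ K, ∑ F, k x F * g (r x) F = ∑ x ∈ K, ∑ F, law (fblk K r x) k F * g (r x) F := by
  rw [Finset.sum_comm, Finset.sum_comm (s := K)]
  refine Finset.sum_congr rfl fun F _ => ?_
  exact sum_blk_mean K r (fun x => k x F) (fun i => g i F)

/-- STRONG LETTERS OF A PARTITION OF A SATURATED CLASS -/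
theorem strC_sum {k : X → β → φ → ℝ} (h0 : ∀ x b F, 0 ≤ k x b F) (h1 : ∀ x b, ∑ F, k x b F = 1)
    {v : Finset X} {B : Finset β} {sg : ℝ} (hsg : 0 ≤ sg)
    (hsat : ∀ S ⊆ v, S.Nonempty → avg B (fun b => klf (law S (fun x => k x b)) (law v (fun x => k x b))) ≤
      sg * (Real.log ((v.card : ℝ) / S.card) + 1))
    (r : X → κ) {A : ℝ} (hA : 1 < Real.log A) (hA0 : 0 < A) :
    ∑ x ∈ v, avg B (fun b => ∑ F, k x b F *
      ind (A * law v (fun x => k x b) F < law (fblk v r x) (fun x => k x b) F)) ≤
    2 * sg / (Real.log A - 1) * entN v r := by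
  classical
  have hA1 : 0 < Real.log A - 1 := by linarith
  -- replace the letter by the law of the block
  have e1 : ∑ x ∈ v, avg B (fun b => ∑ F, k x b F *
      ind (A * law v (fun x => k x b) F < law (fblk v r x) (fun x => k x b) F)) =
      ∑ x ∈ v, avg B (fun b => ∑ F, law (fblk v r x) (fun x => k x b) F *
      ind (A * law v (fun x => k x b) F < law (fblk v r x) (fun x => k x b) F)) := by
    have e2 : ∀ f : X → β → ℝ, ∑ x ∈ v, avg B (fun b => f x b) = avg B (fun b => ∑ x ∈ v, f x b) := by
      intro f
      unfold avg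
      rw [← Finset.sum_div, Finset.sum_comm]
    rw [e2, e2]
    unfold avg
    congr 1
    refine Finset.sum_congr rfl fun b _ => ?_
    have e3 := sum_blk_law v r (fun x => k x b)
      (fun i F => ind (A * law v (fun x => k x b) F < law (v.filter (fun y => r y = i)) (fun x => k x b) F))
    have e4 : ∀ x, v.filter (fun y => r y = r x) = fblk v r x := by
      intro x; ext y; rw [mem_fblk, Finset.mem_filter]
    simp only [e4] at e3
    exact e3
  rw [e1, entN, Finset.mul_sum]
  refine Finset.sum_le_sum fun x hx => ?_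
  set y := fblk v r x with hy
  have hyv : y ⊆ v := fblk_subset v r x
  have hxy : x ∈ y := self_fblk hx
  have hyn : y.Nonempty := ⟨x, hxy⟩
  have hvn : v.Nonempty := ⟨x, hx⟩
  have hyc : (0 : ℝ) < y.card := by exact_mod_cast Finset.card_pos.2 hyn
  have hvc : (0 : ℝ) < v.card := by exact_mod_cast Finset.card_pos.2 hvn
  have hle : (y.card : ℝ) ≤ v.card := by exact_mod_cast Finset.card_le_card hyv
  have hlog0 : 0 ≤ Real.log ((v.card : ℝ) / y.card) := Real.log_nonneg ((one_le_div hyc).2 hle)
  by_cases hsm : A < (v.card : ℝ) / y.card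
  · have hs := hsat y hyv hyn
    have hl : 1 ≤ Real.log ((v.card : ℝ) / y.card) := by
      have := Real.log_le_log hA0 hsm.le
      linarith
    calc avg B (fun b => ∑ F, law y (fun x => k x b) F * ind (A * law v (fun x => k x b) F < law y (fun x => k x b) F))
        ≤ avg B (fun b => (1 / (Real.log A - 1)) * klf (law y (fun x => k x b)) (law v (fun x => k x b))) := by
          refine avg_mono fun b _ => ?_
          have h2 := str_kl (p := law y (fun x => k x b)) (q := law v (fun x => k x b))
            (fun F => bd_law_nn (fun x F => h0 x b F) y F) (fun F => bd_law_nn (fun x F => h0 x b F) v F)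
            (fun F hF => bd_law_sup (fun x F => h0 x b F) hyv hF)
            (law_sum hyn (fun x _ => h1 x b)) (law_sum hvn (fun x _ => h1 x b)).le hA hA0
          calc _ ≤ _ := h2
            _ = _ := by ring
      _ = (1 / (Real.log A - 1)) * avg B (fun b => klf (law y (fun x => k x b)) (law v (fun x => k x b))) :=
          avg_smul _ _ _
      _ ≤ (1 / (Real.log A - 1)) * (sg * (Real.log ((v.card : ℝ) / y.card) + 1)) :=
          mul_le_mul_of_nonneg_left hs (by positivity)
      _ ≤ (1 / (Real.log A - 1)) * (sg * (2 * Real.log ((v.card : ℝ) / y.card))) := by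
          refine mul_le_mul_of_nonneg_left (mul_le_mul_of_nonneg_left (by linarith) hsg) (by positivity)
      _ = 2 * sg / (Real.log A - 1) * Real.log ((v.card : ℝ) / y.card) := by ring
  · have hz : ∀ b F, ind (A * law v (fun x => k x b) F < law y (fun x => k x b) F) = 0 := by
      intro b F
      apply ind_not
      intro hlt
      have h2 := law_sub_le (k := fun x => k x b) (fun x F => h0 x b F) hyv hyn F
      have h3 : (v.card : ℝ) ≤ A * y.card := by
        push Not at hsm
        rwa [div_le_iff₀ hyc] at hsm
      have h4 : 0 ≤ law v (fun x => k x b) F := bd_law_nn (fun x F => h0 x b F) v F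
      have h5 : (y.card : ℝ) * law y (fun x => k x b) F ≤ y.card * (A * law v (fun x => k x b) F) := by
        calc (y.card : ℝ) * law y (fun x => k x b) F ≤ v.card * law v (fun x => k x b) F := h2
          _ ≤ (A * y.card) * law v (fun x => k x b) F := mul_le_mul_of_nonneg_right h3 h4
          _ = y.card * (A * law v (fun x => k x b) F) := by ring
      have h6 := le_of_mul_le_mul_left h5 hyc
      linarith
    have hz' : avg B (fun b => ∑ F, law y (fun x => k x b) F *
        ind (A * law v (fun x => k x b) F < law y (fun x => k x b) F)) = 0 := by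
      unfold avg
      simp only [hz, mul_zero, Finset.sum_const_zero, zero_div]
    rw [hz']
    positivity

/-- the same with a weight `R` of the rows -/
theorem strC_row {k : X → β → φ → ℝ} (h0 : ∀ x b F, 0 ≤ k x b F) (h1 : ∀ x b, ∑ F, k x b F = 1)
    {v : Finset X} {B : Finset β} {sg : ℝ} (hsg : 0 ≤ sg)
    (hsat : ∀ S ⊆ v, S.Nonempty → avg B (fun b => klf (law S (fun x => k x b)) (law v (fun x => k x b))) ≤
      sg * (Real.log ((v.card : ℝ) / S.card) + 1))
    (r : X → κ) {A : ℝ} (hA : 1 < Real.log A) (hA0 : 0 < A)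
    (R : X → β → φ → ℝ) {lam M : ℝ} (hlam : 0 ≤ lam) (hM : 0 ≤ M) (hR : ∀ x ∈ v, ∀ b ∈ B, ∀ F, R x b F ≤ M) :
    ∑ x ∈ v, avg B (fun b => ∑ F, k x b F *
      ind (A * law v (fun x => k x b) F < law (fblk v r x) (fun x => k x b) F) * R x b F) ≤
    lam * (2 * sg / (Real.log A - 1) * entN v r) +
      M * ∑ x ∈ v, avg B (fun b => ∑ F, k x b F * ind (lam < R x b F)) := by
  have h2 := strC_sum h0 h1 hsg hsat r hA hA0
  calc ∑ x ∈ v, avg B (fun b => ∑ F, k x b F *
      ind (A * law v (fun x => k x b) F < law (fblk v r x) (fun x => k x b) F) * R x b F)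
      ≤ ∑ x ∈ v, avg B (fun b => lam * (∑ F, k x b F *
      ind (A * law v (fun x => k x b) F < law (fblk v r x) (fun x => k x b) F)) +
        M * (∑ F, k x b F * ind (lam < R x b F))) := by
        refine Finset.sum_le_sum fun x hx => avg_mono fun b hb => ?_
        rw [Finset.mul_sum, Finset.mul_sum, ← Finset.sum_add_distrib]
        refine Finset.sum_le_sum fun F _ => ?_
        have hk := h0 x b F
        have hRM := hR x hx b hb F
        by_cases hl : lam < R x b F
        · rw [ind_of hl, mul_one]
          by_cases hs : A * law v (fun x => k x b) F < law (fblk v r x) (fun x => k x b) F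
          · rw [ind_of hs, mul_one]
            nlinarith [mul_le_mul_of_nonneg_left hRM hk, mul_nonneg hlam hk]
          · rw [ind_not hs, mul_zero, zero_mul]
            nlinarith [mul_nonneg hM hk]
        · rw [ind_not hl, mul_zero, mul_zero, add_zero]
          push Not at hl
          have hi : 0 ≤ ind (A * law v (fun x => k x b) F < law (fblk v r x) (fun x => k x b) F) := ind_nonneg _
          nlinarith [mul_le_mul_of_nonneg_left hl (mul_nonneg hk hi)]
    _ = lam * ∑ x ∈ v, avg B (fun b => ∑ F, k x b F *
      ind (A * law v (fun x => k x b) F < law (fblk v r x) (fun x => k x b) F)) +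
        M * ∑ x ∈ v, avg B (fun b => ∑ F, k x b F * ind (lam < R x b F)) := by
        simp only [avg_add, avg_smul]
        rw [Finset.sum_add_distrib, ← Finset.mul_sum, ← Finset.mul_sum]
    _ ≤ _ := by
        have := mul_le_mul_of_nonneg_left h2 hlam
        linarith

/-- exceptional rows: union over the letters of the support -/
theorem row_bad {k : X → φ → ℝ} (h0 : ∀ x F, 0 ≤ k x F) (h1 : ∀ x, ∑ F, k x F = 1)
    {W : Finset X} {al : ℝ} (hal : 0 < al) (hth : ∀ x ∈ W, ∀ x' ∈ W, ∀ F, k x F ≠ 0 → al ≤ k x' F)
    (E : X → φ → Prop) {e : ℝ} (he : 0 ≤ e) (hE : ∀ F, ∑ x ∈ W, ind (E x F) ≤ e * W.card) :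
    ∑ x ∈ W, ∑ F, k x F * ind (E x F) ≤ e / al * W.card := by
  classical
  rcases W.eq_empty_or_nonempty with hW | ⟨x0, hx0⟩
  · rw [hW]; simp
  have hle1 : ∀ x F, k x F ≤ 1 := by
    intro x F
    rw [← h1 x]
    exact Finset.single_le_sum (f := fun F => k x F) (fun F _ => h0 x F) (Finset.mem_univ F)
  -- the support has at most 1/al letters
  have hsupp : ((univ.filter fun F => k x0 F ≠ 0).card : ℝ) * al ≤ 1 := by
    rw [← h1 x0]
    calc ((univ.filter fun F => k x0 F ≠ 0).card : ℝ) * al
        = ∑ F ∈ univ.filter (fun F => k x0 F ≠ 0), al := by rw [Finset.sum_const, nsmul_eq_mul]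
      _ ≤ ∑ F ∈ univ.filter (fun F => k x0 F ≠ 0), k x0 F := by
          refine Finset.sum_le_sum fun F hF => ?_
          exact hth x0 hx0 x0 hx0 F (Finset.mem_filter.1 hF).2
      _ ≤ ∑ F, k x0 F := Finset.sum_le_sum_of_subset_of_nonneg (Finset.filter_subset _ _) fun F _ _ => h0 x0 F
  have hz : ∀ F, k x0 F = 0 → ∀ x ∈ W, k x F = 0 := by
    intro F hF x hx
    by_contra hne
    have := hth x hx x0 hx0 F hne
    rw [hF] at this
    linarith
  rw [Finset.sum_comm]
  calc ∑ F, ∑ x ∈ W, k x F * ind (E x F)
      = ∑ F ∈ univ.filter (fun F => k x0 F ≠ 0), ∑ x ∈ W, k x F * ind (E x F) := by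
        rw [Finset.sum_filter]
        refine Finset.sum_congr rfl fun F _ => ?_
        by_cases hF : k x0 F = 0
        · rw [if_neg (not_not.2 hF)]
          exact Finset.sum_eq_zero fun x hx => by rw [hz F hF x hx, zero_mul]
        · rw [if_pos hF]
    _ ≤ ∑ F ∈ univ.filter (fun F => k x0 F ≠ 0), e * W.card := by
        refine Finset.sum_le_sum fun F _ => ?_
        refine le_trans (Finset.sum_le_sum fun x _ => ?_) (hE F)
        calc k x F * ind (E x F) ≤ 1 * ind (E x F) := mul_le_mul_of_nonneg_right (hle1 x F) (ind_nonneg _)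
          _ = _ := one_mul _
    _ = ((univ.filter fun F => k x0 F ≠ 0).card : ℝ) * (e * W.card) := by rw [Finset.sum_const, nsmul_eq_mul]
    _ ≤ (1 / al) * (e * W.card) := by
        refine mul_le_mul_of_nonneg_right ?_ (by positivity)
        rw [le_div_iff₀ hal]
        exact hsupp
    _ = e / al * W.card := by ring

end Pool.Agent.M3.S3
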