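import Pool.Agent.M3.S3.SumG
import Pool.Agent.M3.S3B.StrC
import Pool.Agent.M3.S3B.Tests

/-!
# M3.S3B.LossD: the loss at the end of an epoch, bad pairs and the part `d` (note 3448, (6); helper68)

* `sF k N Z B x b c F` : the letter `F` is strong for the class `Z.V x b c` in `N.V x b c`; `sG`;
* `io_le_thick` : `io ≤ log (1/al)`; `io_comp` : tables which differ by at most `κ` give `io ≤ io_0 + 5 κ / al^2`;
* `loss_E3` : the loss of `key_w` as a mean over the points;
* `loss_split` : STATIC: loss `≤` (bad pairs) `+` (part `d`) `+` (psi part of the good pairs).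
-/

set_option autoImplicit false
set_option linter.unusedSectionVars false

namespace Pool.Agent.M3.S3B

open Finset Pool.Agent.PWZ Pool.Agent.M3 Pool.Agent.M3.S3

noncomputable section

section static

variable {X β γ φ : Type*} [Fintype X] [Fintype β] [Fintype γ] [Fintype φ]

/-- the letter `F` is strong -/
def sF (k : KP X β γ φ) (N Z : Bx X β γ) (B : ℝ) (x : X) (b : β) (c : γ) (F : φ) : Prop :=
  B < law (Z.V x b c) (fun y => k.f y b c) F / law (N.V x b c) (fun y => k.f y b c) F

/-- the letter `G` is strong -/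
def sG (k : KP X β γ φ) (N Z : Bx X β γ) (B : ℝ) (x : X) (b : β) (c : γ) (G : φ) : Prop :=
  B < law (Z.V x b c) (fun y => k.g y b c) G / law (N.V x b c) (fun y => k.g y b c) G

theorem law_nn {k : X → φ → ℝ} (h : ∀ x F, 0 ≤ k x F) (V : Finset X) (F : φ) : 0 ≤ law V k F :=
  div_nonneg (Finset.sum_nonneg fun _ _ => h _ _) (Nat.cast_nonneg _)

theorem law_tot {k : X → φ → ℝ} (h : ∀ x, ∑ F, k x F = 1) {V : Finset X} (hV : V.Nonempty) :
    ∑ F, law V k F = 1 := by
  have hc : (V.card : ℝ) ≠ 0 := by exact_mod_cast (Finset.card_pos.2 hV).ne'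
  unfold law avg
  rw [← Finset.sum_div, Finset.sum_comm, Finset.sum_congr rfl fun x _ => h x, Finset.sum_const, nsmul_eq_mul,
    mul_one, div_self hc]

/-- the law of a thick kernel: positive at one point of the class: at least `al` -/
theorem law_ge {k : X → φ → ℝ} {al : ℝ} {V : Finset X} (ht : ∀ x ∈ V, ∀ x' ∈ V, ∀ F, k x F ≠ 0 → al ≤ k x' F)
    {x : X} (hx : x ∈ V) {F : φ} (hF : k x F ≠ 0) : al ≤ law V k F := by
  have hc : (0 : ℝ) < V.card := by exact_mod_cast Finset.card_pos.2 ⟨x, hx⟩
  unfold law avg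
  rw [le_div_iff₀ hc]
  calc al * V.card = ∑ _y ∈ V, al := by rw [Finset.sum_const, nsmul_eq_mul, mul_comm]
    _ ≤ ∑ y ∈ V, k y F := Finset.sum_le_sum fun y hy => ht x hx y hy F hF

variable (k : KP X β γ φ)

theorem kf_le_one (x : X) (b : β) (c : γ) (F : φ) : k.f x b c F ≤ 1 := by
  rw [← k.f_one x b c]
  exact Finset.single_le_sum (f := fun F => k.f x b c F) (fun F _ => k.f_nn x b c F) (Finset.mem_univ F)

theorem kg_le_one (x : X) (b : β) (c : γ) (F : φ) : k.g x b c F ≤ 1 := by
  rw [← k.g_one x b c]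
  exact Finset.single_le_sum (f := fun F => k.g x b c F) (fun F _ => k.g_nn x b c F) (Finset.mem_univ F)

theorem law_le_one {h : X → φ → ℝ} (h1 : ∀ x F, h x F ≤ 1) (V : Finset X) (F : φ) : law V h F ≤ 1 := by
  unfold law avg
  rcases V.eq_empty_or_nonempty with h0 | h0
  · subst h0; simp
  · have hc : (0 : ℝ) < V.card := by exact_mod_cast Finset.card_pos.2 h0
    rw [div_le_one hc]
    calc ∑ y ∈ V, h y F ≤ ∑ _y ∈ V, (1 : ℝ) := Finset.sum_le_sum fun y _ => h1 y F
      _ = V.card := by rw [Finset.sum_const, nsmul_eq_mul, mul_one]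

/-- the density is at most `log (1/al)` on a thick class -/
theorem io_le_thick {V : Finset X} {al : ℝ} (hT : Thk k V al) {x : X} (hx : x ∈ V) {b : β} {c : γ} {F G : φ}
    (hF : k.f x b c F ≠ 0) (hG : k.g x b c G ≠ 0) : io k V b c F G ≤ Real.log (1 / al) := by
  have hc : (0 : ℝ) < V.card := by exact_mod_cast Finset.card_pos.2 ⟨x, hx⟩
  have hf := law_ge (k := fun y => k.f y b c) (V := V) (fun y hy y' hy' F h => hT.f y hy y' hy' b c F h) hx hF
  have hg := law_ge (k := fun y => k.g y b c) (V := V) (fun y hy y' hy' F h => hT.g y hy y' hy' b c F h) hx hG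
  have hf0 : 0 < law V (fun y => k.f y b c) F := hT.pos.trans_le hf
  have hg0 : 0 < law V (fun y => k.g y b c) G := hT.pos.trans_le hg
  have hJ : avg V (fun y => k.f y b c F * k.g y b c G) ≤ law V (fun y => k.f y b c) F := by
    unfold law avg
    refine div_le_div_of_nonneg_right (Finset.sum_le_sum fun y _ => ?_) hc.le
    exact mul_le_of_le_one_right (k.f_nn _ _ _ _) (kg_le_one k _ _ _ _)
  have hJ0 : 0 < avg V (fun y => k.f y b c F * k.g y b c G) := by
    unfold avg
    refine div_pos (lt_of_lt_of_le ?_ (Finset.single_le_sum (f := fun y => k.f y b c F * k.g y b c G)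
      (fun y _ => mul_nonneg (k.f_nn _ _ _ _) (k.g_nn _ _ _ _)) hx)) hc
    exact mul_pos (lt_of_le_of_ne (k.f_nn _ _ _ _) (Ne.symm hF)) (lt_of_le_of_ne (k.g_nn _ _ _ _) (Ne.symm hG))
  unfold io
  refine Real.log_le_log (div_pos hJ0 (mul_pos hf0 hg0)) ?_
  rw [div_le_div_iff₀ (mul_pos hf0 hg0) hT.pos, one_mul]
  exact mul_le_mul hJ hg hT.pos.le hf0.le

/-- COMPARISON of the densities on `V ⊆ V0` when the tables differ by at most `κ` -/
theorem io_comp {V V0 : Finset X} (hVV : V ⊆ V0) {al κ : ℝ} (hT : Thk k V0 al) (hal1 : al ≤ 1) {b : β} {c : γ}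
    (hκ0 : 0 ≤ κ) (hκ : ∀ F G, |avg V (fun y => k.f y b c F * k.g y b c G) -
      avg V0 (fun y => k.f y b c F * k.g y b c G)| ≤ κ) (hs : κ / al ^ 2 ≤ 1 / 2)
    {x : X} (hx : x ∈ V) {F G : φ} (hF : k.f x b c F ≠ 0) (hG : k.g x b c G ≠ 0) :
    io k V b c F G ≤ io k V0 b c F G + 5 * (κ / al ^ 2) := by
  classical
  have hal := hT.pos
  have hal2 : 0 < al ^ 2 := pow_pos hal 2
  have hc : (0 : ℝ) < V.card := by exact_mod_cast Finset.card_pos.2 ⟨x, hx⟩
  have hc0 : (0 : ℝ) < V0.card := by exact_mod_cast Finset.card_pos.2 ⟨x, hVV hx⟩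
  set r := κ / al ^ 2 with hr
  have hr0 : 0 ≤ r := div_nonneg hκ0 hal2.le
  have hκr : κ = r * al ^ 2 := by rw [hr]; field_simp
  -- supports
  have hf0 : ∀ F, k.f x b c F ≠ 0 → ∀ y ∈ V0, al ≤ k.f y b c F := fun F h y hy => hT.f x (hVV hx) y hy b c F h
  have hg0 : ∀ G, k.g x b c G ≠ 0 → ∀ y ∈ V0, al ≤ k.g y b c G := fun G h y hy => hT.g x (hVV hx) y hy b c G h
  have hfz : ∀ F, k.f x b c F = 0 → ∀ y ∈ V0, k.f y b c F = 0 := by
    intro F h y hy
    by_contra hne
    have := hT.f y hy x (hVV hx) b c F hne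
    rw [h] at this
    linarith
  have hgz : ∀ G, k.g x b c G = 0 → ∀ y ∈ V0, k.g y b c G = 0 := by
    intro G h y hy
    by_contra hne
    have := hT.g y hy x (hVV hx) b c G hne
    rw [h] at this
    linarith
  -- number of letters of the support
  have hcardf : ((univ.filter fun F => k.f x b c F ≠ 0).card : ℝ) * al ≤ 1 := by
    rw [← nsmul_eq_mul, ← Finset.sum_const]
    calc ∑ _F ∈ univ.filter (fun F => k.f x b c F ≠ 0), al
        ≤ ∑ F ∈ univ.filter (fun F => k.f x b c F ≠ 0), k.f x b c F :=
          Finset.sum_le_sum fun F hF => hf0 F (Finset.mem_filter.1 hF).2 x (hVV hx)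
      _ ≤ ∑ F, k.f x b c F := Finset.sum_le_sum_of_subset_of_nonneg (Finset.filter_subset _ _)
          fun F _ _ => k.f_nn _ _ _ _
      _ = 1 := k.f_one _ _ _
  have hcardg : ((univ.filter fun G => k.g x b c G ≠ 0).card : ℝ) * al ≤ 1 := by
    rw [← nsmul_eq_mul, ← Finset.sum_const]
    calc ∑ _F ∈ univ.filter (fun G => k.g x b c G ≠ 0), al
        ≤ ∑ G ∈ univ.filter (fun G => k.g x b c G ≠ 0), k.g x b c G :=
          Finset.sum_le_sum fun G hG => hg0 G (Finset.mem_filter.1 hG).2 x (hVV hx)
      _ ≤ ∑ G, k.g x b c G := Finset.sum_le_sum_of_subset_of_nonneg (Finset.filter_subset _ _)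
          fun F _ _ => k.g_nn _ _ _ _
      _ = 1 := k.g_one _ _ _
  -- marginals
  have margf : ∀ W : Finset X, law W (fun y => k.f y b c) F =
      ∑ G, avg W (fun y => k.f y b c F * k.g y b c G) := by
    intro W
    unfold law avg
    rw [← Finset.sum_div, Finset.sum_comm]
    congr 1
    refine Finset.sum_congr rfl fun y _ => ?_
    rw [← Finset.mul_sum, k.g_one, mul_one]
  have margg : ∀ W : Finset X, law W (fun y => k.g y b c) G =
      ∑ F, avg W (fun y => k.f y b c F * k.g y b c G) := by
    intro W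
    unfold law avg
    rw [← Finset.sum_div, Finset.sum_comm]
    congr 1
    refine Finset.sum_congr rfl fun y _ => ?_
    rw [← Finset.sum_mul, k.f_one, one_mul]
  have hdf : law V0 (fun y => k.f y b c) F - κ / al ≤ law V (fun y => k.f y b c) F := by
    have h1 : law V0 (fun y => k.f y b c) F - law V (fun y => k.f y b c) F ≤
        ∑ G ∈ univ.filter (fun G => k.g x b c G ≠ 0), κ := by
      rw [margf V0, margf V, ← Finset.sum_sub_distrib, Finset.sum_filter]
      refine Finset.sum_le_sum fun G' _ => ?_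
      by_cases h : k.g x b c G' = 0
      · rw [if_neg (fun h' => h' h)]
        have e1 : avg V0 (fun y => k.f y b c F * k.g y b c G') = 0 := by
          unfold avg
          rw [Finset.sum_eq_zero, zero_div]
          intro y hy
          rw [hgz G' h y hy, mul_zero]
        have e2 : avg V (fun y => k.f y b c F * k.g y b c G') = 0 := by
          unfold avg
          rw [Finset.sum_eq_zero, zero_div]
          intro y hy
          rw [hgz G' h y (hVV hy), mul_zero]
        rw [e1, e2, sub_zero]
      · rw [if_pos h]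
        have := (abs_le.1 (hκ F G')).1
        linarith
    rw [Finset.sum_const, nsmul_eq_mul] at h1
    have h2 : ((univ.filter fun G => k.g x b c G ≠ 0).card : ℝ) * κ ≤ κ / al := by
      rw [le_div_iff₀ hal]
      nlinarith
    linarith
  have hdg : law V0 (fun y => k.g y b c) G - κ / al ≤ law V (fun y => k.g y b c) G := by
    have h1 : law V0 (fun y => k.g y b c) G - law V (fun y => k.g y b c) G ≤
        ∑ F ∈ univ.filter (fun F => k.f x b c F ≠ 0), κ := by
      rw [margg V0, margg V, ← Finset.sum_sub_distrib, Finset.sum_filter]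
      refine Finset.sum_le_sum fun F' _ => ?_
      by_cases h : k.f x b c F' = 0
      · rw [if_neg (fun h' => h' h)]
        have e1 : avg V0 (fun y => k.f y b c F' * k.g y b c G) = 0 := by
          unfold avg
          rw [Finset.sum_eq_zero, zero_div]
          intro y hy
          rw [hfz F' h y hy, zero_mul]
        have e2 : avg V (fun y => k.f y b c F' * k.g y b c G) = 0 := by
          unfold avg
          rw [Finset.sum_eq_zero, zero_div]
          intro y hy
          rw [hfz F' h y (hVV hy), zero_mul]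
        rw [e1, e2, sub_zero]
      · rw [if_pos h]
        have := (abs_le.1 (hκ F' G)).1
        linarith
    rw [Finset.sum_const, nsmul_eq_mul] at h1
    have h2 : ((univ.filter fun F => k.f x b c F ≠ 0).card : ℝ) * κ ≤ κ / al := by
      rw [le_div_iff₀ hal]
      nlinarith
    linarith
  have hf : al ≤ law V0 (fun y => k.f y b c) F :=
    law_ge (fun y hy y' hy' F h => hT.f y hy y' hy' b c F h) (hVV hx) hF
  have hg : al ≤ law V0 (fun y => k.g y b c) G :=
    law_ge (fun y hy y' hy' F h => hT.g y hy y' hy' b c F h) (hVV hx) hG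
  have hκal : κ / al = r * al := by rw [hκr]; field_simp
  have hf1 : (1 - r) * law V0 (fun y => k.f y b c) F ≤ law V (fun y => k.f y b c) F := by
    rw [hκal] at hdf
    nlinarith
  have hg1 : (1 - r) * law V0 (fun y => k.g y b c) G ≤ law V (fun y => k.g y b c) G := by
    rw [hκal] at hdg
    nlinarith
  have hf00 : 0 < law V0 (fun y => k.f y b c) F := hal.trans_le hf
  have hg00 : 0 < law V0 (fun y => k.g y b c) G := hal.trans_le hg
  have hr1 : 0 < 1 - r := by linarith
  have hJ0 : al ^ 2 ≤ avg V0 (fun y => k.f y b c F * k.g y b c G) := by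
    unfold avg
    rw [le_div_iff₀ hc0, mul_comm, ← nsmul_eq_mul, ← Finset.sum_const]
    refine Finset.sum_le_sum fun y hy => ?_
    have h1 := hf0 F hF y hy
    have h2 := hg0 G hG y hy
    nlinarith
  have hJ : avg V (fun y => k.f y b c F * k.g y b c G) ≤
      (1 + r) * avg V0 (fun y => k.f y b c F * k.g y b c G) := by
    have := (abs_le.1 (hκ F G)).2
    rw [hκr] at this
    nlinarith
  have hJp : 0 < avg V (fun y => k.f y b c F * k.g y b c G) := by
    unfold avg
    refine div_pos (Finset.sum_pos (fun y hy => ?_) ⟨x, hx⟩) hc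
    exact mul_pos (hal.trans_le (hf0 F hF y (hVV hy))) (hal.trans_le (hg0 G hG y (hVV hy)))
  have hJ0p : 0 < avg V0 (fun y => k.f y b c F * k.g y b c G) := hal2.trans_le hJ0
  have hfp : 0 < law V (fun y => k.f y b c) F := lt_of_lt_of_le (mul_pos hr1 hf00) hf1
  have hgp : 0 < law V (fun y => k.g y b c) G := lt_of_lt_of_le (mul_pos hr1 hg00) hg1
  unfold io
  rw [Real.log_div hJp.ne' (mul_pos hfp hgp).ne', Real.log_div hJ0p.ne' (mul_pos hf00 hg00).ne',
    Real.log_mul hfp.ne' hgp.ne', Real.log_mul hf00.ne' hg00.ne']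
  have l1 := Real.log_le_log hJp hJ
  rw [Real.log_mul (by linarith) hJ0p.ne'] at l1
  have l2 := Real.log_le_log (mul_pos hr1 hf00) hf1
  rw [Real.log_mul hr1.ne' hf00.ne'] at l2
  have l3 := Real.log_le_log (mul_pos hr1 hg00) hg1
  rw [Real.log_mul hr1.ne' hg00.ne'] at l3
  have l4 : Real.log (1 + r) ≤ r := by
    have := Real.log_le_sub_one_of_pos (show 0 < 1 + r by linarith)
    linarith
  have l5 : - (2 * r) ≤ Real.log (1 - r) := by
    have h1 := Real.one_sub_inv_le_log_of_pos hr1
    have h2 : (1 - r)⁻¹ ≤ 1 + 2 * r := by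
      rw [inv_le_comm₀ hr1 (by linarith), inv_le_iff_one_le_mul₀ (by linarith)]
      nlinarith
    linarith
  linarith

theorem Bx.pv (Z : Bx X β γ) : PV Z.V := fun b c =>
  ⟨fun x => Z.sV x b c, fun x x' hx => (Z.inv x b c x' b c hx (Z.sB x b c) (Z.sC x b c)).1⟩

/-- mean over the class of a function of the first letter and the state -/
theorem E3_letF (Z : Bx X β γ) (h : X → β → γ → φ → ℝ)
    (hh : ∀ x b c x', x' ∈ Z.V x b c → ∀ F, h x' b c F = h x b c F) :
    E3 (fun x b c => ∑ F, k.f x b c F * h x b c F) =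
      E3 fun x b c => ∑ F, law (Z.V x b c) (fun y => k.f y b c) F * h x b c F := by
  rw [E3_mean (Bx.pv Z)]
  refine E3_congr fun x b c => ?_
  unfold law avg
  simp only [div_mul_eq_mul_div, Finset.sum_mul]
  rw [← Finset.sum_div, Finset.sum_comm]
  congr 1
  refine Finset.sum_congr rfl fun F _ => Finset.sum_congr rfl fun x' hx' => ?_
  rw [hh x b c x' hx' F]

/-- mean over the class of a function of the second letter and the state -/
theorem E3_letG (Z : Bx X β γ) (h : X → β → γ → φ → ℝ)
    (hh : ∀ x b c x', x' ∈ Z.V x b c → ∀ F, h x' b c F = h x b c F) :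
    E3 (fun x b c => ∑ F, k.g x b c F * h x b c F) =
      E3 fun x b c => ∑ F, law (Z.V x b c) (fun y => k.g y b c) F * h x b c F := by
  rw [E3_mean (Bx.pv Z)]
  refine E3_congr fun x b c => ?_
  unfold law avg
  simp only [div_mul_eq_mul_div, Finset.sum_mul]
  rw [← Finset.sum_div, Finset.sum_comm]
  congr 1
  refine Finset.sum_congr rfl fun F _ => Finset.sum_congr rfl fun x' hx' => ?_
  rw [hh x b c x' hx' F]

section sub

variable {N Z : Bx X β γ}

theorem stf (h : Z.Sub N) {x : X} {b : β} {c : γ} {x' : X} (hx : x' ∈ Z.V x b c) :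
    Z.V x' b c = Z.V x b c ∧ N.V x' b c = N.V x b c :=
  ⟨(Z.inv x b c x' b c hx (Z.sB x b c) (Z.sC x b c)).1,
    (N.inv x b c x' b c (h.V x b c hx) (N.sB x b c) (N.sC x b c)).1⟩

variable [Nonempty X] [Nonempty β] [Nonempty γ]

/-- the loss of `key_w` as a mean over the points -/
theorem loss_E3 (h : Z.Sub N) (hN : N.Ok k) (θ : X → β → γ → ℝ) (B : ℝ) :
    k.P.E (fun w => θ w.1 w.2.1 w.2.2.1 * (ind (B < k.P.rt xF N.map Z.map w (Z.map w) ∧
      B < k.P.rt xG N.map Z.map w (Z.map w)) * k.P.iota xF xG N.map w)) =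
    E3 fun x b c => θ x b c * ∑ F, ∑ G, k.f x b c F * k.g x b c G *
      (ind (sF k N Z B x b c F ∧ sG k N Z B x b c G) * io k (N.V x b c) b c F G) := by
  rw [k.E_eq]
  refine E3_congr fun x b c => ?_
  rw [Finset.mul_sum]
  refine Finset.sum_congr rfl fun F _ => ?_
  rw [Finset.mul_sum]
  refine Finset.sum_congr rfl fun G _ => ?_
  rw [rt_F k h hN, rt_G k h hN, iota_FG k hN]
  unfold sF sG
  ring

/-- the gain of the first letter as a mean over the points -/
theorem gainF_E3 (h : Z.Sub N) (hN : N.Ok k) : k.P.E (k.P.iota xF Z.map N.map) =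
    E3 fun x b c => klf (law (Z.V x b c) fun y => k.f y b c) (law (N.V x b c) fun y => k.f y b c) := by
  set H : X → β → γ → φ → ℝ := fun x b c F =>
    Real.log (law (Z.V x b c) (fun y => k.f y b c) F / law (N.V x b c) (fun y => k.f y b c) F) with hH
  have h1 : k.P.E (k.P.iota xF Z.map N.map) = k.P.E (fun w => H w.1 w.2.1 w.2.2.1 w.2.2.2.1) := by
    refine k.P.E_congr fun w _ => ?_
    exact iota_F k h hN w
  rw [h1, k.E_F H, E3_letF k Z H]
  · rfl
  · intro x b c x' hx' F
    simp only [hH]
    rw [(stf h hx').1, (stf h hx').2]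

/-- the gain of the second letter as a mean over the points -/
theorem gainG_E3 (h : Z.Sub N) (hN : N.Ok k) : k.P.E (k.P.iota xG Z.map N.map) =
    E3 fun x b c => klf (law (Z.V x b c) fun y => k.g y b c) (law (N.V x b c) fun y => k.g y b c) := by
  set H : X → β → γ → φ → ℝ := fun x b c F =>
    Real.log (law (Z.V x b c) (fun y => k.g y b c) F / law (N.V x b c) (fun y => k.g y b c) F) with hH
  have h1 : k.P.E (k.P.iota xG Z.map N.map) = k.P.E (fun w => H w.1 w.2.1 w.2.2.1 w.2.2.2.2) := by
    refine k.P.E_congr fun w _ => ?_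
    exact iota_G k h hN w
  rw [h1, k.E_G H, E3_letG k Z H]
  · rfl
  · intro x b c x' hx' F
    simp only [hH]
    rw [(stf h hx').1, (stf h hx').2]

/-- relative entropy of a subclass is nonnegative -/
theorem klf_sub_nonneg {kk : X → φ → ℝ} (h0 : ∀ x F, 0 ≤ kk x F) (h1 : ∀ x, ∑ F, kk x F = 1) {V W : Finset X}
    (hVW : V ⊆ W) (hV : V.Nonempty) : 0 ≤ klf (law V kk) (law W kk) := by
  have hW := hV.mono hVW
  have hcV : (0 : ℝ) < V.card := by exact_mod_cast Finset.card_pos.2 hV
  have hcW : (0 : ℝ) < W.card := by exact_mod_cast Finset.card_pos.2 hW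
  have hpq : ∀ F, law V kk F ≠ 0 → 0 < law W kk F := by
    intro F hF
    have h2 := law_sub_le h0 hVW hV F
    have h3 : 0 < law V kk F := lt_of_le_of_ne (law_nn h0 V F) (Ne.symm hF)
    by_contra h4
    have h5 : law W kk F ≤ 0 := not_lt.1 h4
    nlinarith
  have h2 : ∀ F, law V kk F - law W kk F ≤ law V kk F * Real.log (law V kk F / law W kk F) := by
    intro F
    by_cases hF : law V kk F = 0
    · rw [hF, zero_mul, zero_sub]
      linarith [law_nn h0 W F]
    · have hp : 0 < law V kk F := lt_of_le_of_ne (law_nn h0 V F) (Ne.symm hF)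
      have hq := hpq F hF
      have h3 := Real.one_sub_inv_le_log_of_pos (div_pos hp hq)
      rw [inv_div] at h3
      calc law V kk F - law W kk F = law V kk F * (1 - law W kk F / law V kk F) := by
            rw [mul_sub, mul_one, mul_div_cancel₀ _ hp.ne']
        _ ≤ _ := mul_le_mul_of_nonneg_left h3 hp.le
  have h3 := Finset.sum_le_sum fun F (_ : F ∈ (Finset.univ : Finset φ)) => h2 F
  rw [Finset.sum_sub_distrib, law_tot h1 hV, law_tot h1 hW, sub_self] at h3
  exact h3

/-- a strong letter: the class is small -/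
theorem strong_small {kk : X → φ → ℝ} (h0 : ∀ x F, 0 ≤ kk x F) {V W : Finset X} (hVW : V ⊆ W) (hV : V.Nonempty)
    {B : ℝ} (hB0 : 0 < B) {F : φ} (hF : 0 < law W kk F) (hs : B < law V kk F / law W kk F) :
    Real.log B ≤ Real.log ((W.card : ℝ) / V.card) := by
  have hcV : (0 : ℝ) < V.card := by exact_mod_cast Finset.card_pos.2 hV
  refine Real.log_le_log hB0 ?_
  rw [lt_div_iff₀ hF] at hs
  rw [le_div_iff₀ hcV]
  have h2 := law_sub_le h0 hVW hV F
  by_contra h3
  have h3 := not_le.1 h3
  have h4 : (W.card : ℝ) * law W kk F < B * V.card * law W kk F := mul_lt_mul_of_pos_right h3 hF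
  nlinarith

open Classical in
/-- STATIC SPLITTING OF THE LOSS -/
theorem loss_split (h : Z.Sub N) {al : ℝ} (hal0 : 0 < al) (hal1 : al ≤ 1)
    {θ : X → β → γ → ℝ} (hθ0 : ∀ x b c, 0 ≤ θ x b c)
    (hθ : ∀ x b c x' b' c', x' ∈ N.V x b c → b' ∈ N.B x b c → c' ∈ N.C x b c → θ x' b' c' = θ x b c)
    (hT : ∀ x b c, θ x b c ≠ 0 → Thk k (N.V x b c) al)
    {B : ℝ} (hB0 : 0 < B) (hB : 1 < Real.log B)
    {bd : X → β → γ → Prop} {eta : ℝ}
    (hbd : ∀ x b c, θ x b c ≠ 0 →
      (avg (N.B x b c) fun b' => avg (N.C x b c) fun c' => ind (bd x b' c')) ≤ eta)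
    (hbi : ∀ x b c x' b' c', x' ∈ N.V x b c → b' ∈ N.B x b c → c' ∈ N.C x b c → (bd x' b' c' ↔ bd x b' c'))
    {dl : ℝ} (hdl : 0 ≤ dl) {ps : X → β → γ → φ → φ → ℝ}
    (hps : ∀ x b c, θ x b c ≠ 0 → ¬ bd x b c → ∀ F G, k.f x b c F ≠ 0 → k.g x b c G ≠ 0 →
      io k (N.V x b c) b c F G ≤ dl + ps x b c F G) :
    E3 (fun x b c => θ x b c * ∑ F, ∑ G, k.f x b c F * k.g x b c G *
      (ind (sF k N Z B x b c F ∧ sG k N Z B x b c G) * io k (N.V x b c) b c F G)) ≤
    Real.log (1 / al) * (eta / Real.log B) *
        E3 (fun x b c => θ x b c * Real.log ((N.V x b c).card / (Z.V x b c).card)) +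
      dl / (Real.log B - 1) * E3 (fun x b c => θ x b c *
        klf (law (Z.V x b c) fun y => k.f y b c) (law (N.V x b c) fun y => k.f y b c)) +
      E3 (fun x b c => θ x b c * ∑ F, ∑ G, k.f x b c F * k.g x b c G *
        (ind (¬ bd x b c ∧ sF k N Z B x b c F ∧ sG k N Z B x b c G) * ps x b c F G)) := by
  have hlB : 0 < Real.log B := by linarith
  have hla : 0 ≤ Real.log (1 / al) := Real.log_nonneg (by rw [le_div_iff₀ hal0]; linarith)
  set L : X → β → γ → ℝ := fun x b c => Real.log ((N.V x b c).card / (Z.V x b c).card) with hL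
  have hZne : ∀ x b c, (Z.V x b c).Nonempty := fun x b c => ⟨x, Z.sV x b c⟩
  have hNne : ∀ x b c, (N.V x b c).Nonempty := fun x b c => ⟨x, N.sV x b c⟩
  have hL0 : ∀ x b c, 0 ≤ L x b c := by
    intro x b c
    have h1 : (0 : ℝ) < (Z.V x b c).card := by exact_mod_cast Finset.card_pos.2 (hZne x b c)
    have h2 : ((Z.V x b c).card : ℝ) ≤ (N.V x b c).card := by exact_mod_cast Finset.card_le_card (h.V x b c)
    exact Real.log_nonneg ((one_le_div h1).2 h2)
  have kp : ∀ x b c F, k.f x b c F ≠ 0 → 0 < law (N.V x b c) (fun y => k.f y b c) F := by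
    intro x b c F hF
    have hc : (0 : ℝ) < (N.V x b c).card := by exact_mod_cast Finset.card_pos.2 (hNne x b c)
    refine div_pos (lt_of_lt_of_le (lt_of_le_of_ne (k.f_nn x b c F) (Ne.symm hF)) ?_) hc
    exact Finset.single_le_sum (f := fun y => k.f y b c F) (fun y _ => k.f_nn _ _ _ _) (N.sV x b c)
  have hJs : ∀ x b c, (∑ F, ∑ G, k.f x b c F * k.g x b c G) = 1 := by
    intro x b c
    simp only [← Finset.mul_sum, k.g_one, mul_one, k.f_one]
  -- pointwise
  have hpt : ∀ x b c, θ x b c * ∑ F, ∑ G, k.f x b c F * k.g x b c G *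
      (ind (sF k N Z B x b c F ∧ sG k N Z B x b c G) * io k (N.V x b c) b c F G) ≤
      Real.log (1 / al) / Real.log B * (θ x b c * (ind (bd x b c) * L x b c)) +
      dl * (θ x b c * ∑ F, k.f x b c F * ind (sF k N Z B x b c F)) +
      θ x b c * ∑ F, ∑ G, k.f x b c F * k.g x b c G *
        (ind (¬ bd x b c ∧ sF k N Z B x b c F ∧ sG k N Z B x b c G) * ps x b c F G) := by
    intro x b c
    by_cases ht : θ x b c = 0
    · rw [ht]; simp
    have hs : (∑ F, ∑ G, k.f x b c F * k.g x b c G *
        (ind (sF k N Z B x b c F ∧ sG k N Z B x b c G) * io k (N.V x b c) b c F G)) ≤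
        Real.log (1 / al) / Real.log B * (ind (bd x b c) * L x b c) +
        dl * ∑ F, k.f x b c F * ind (sF k N Z B x b c F) +
        ∑ F, ∑ G, k.f x b c F * k.g x b c G *
        (ind (¬ bd x b c ∧ sF k N Z B x b c F ∧ sG k N Z B x b c G) * ps x b c F G) := by
      by_cases hb : bd x b c
      · have e0 : ∀ F G, ind (¬ bd x b c ∧ sF k N Z B x b c F ∧ sG k N Z B x b c G) = 0 := fun F G =>
          ind_not (fun h' => h'.1 hb)
        simp only [e0, zero_mul, mul_zero, Finset.sum_const_zero, add_zero]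
        rw [ind_of hb, one_mul]
        have h1 : (∑ F, ∑ G, k.f x b c F * k.g x b c G *
            (ind (sF k N Z B x b c F ∧ sG k N Z B x b c G) * io k (N.V x b c) b c F G)) ≤
            ∑ F, ∑ G, k.f x b c F * k.g x b c G * (Real.log (1 / al) / Real.log B * L x b c) := by
          refine Finset.sum_le_sum fun F _ => Finset.sum_le_sum fun G _ => ?_
          by_cases hF : k.f x b c F = 0
          · rw [hF]; simp
          by_cases hG : k.g x b c G = 0
          · rw [hG]; simp
          refine mul_le_mul_of_nonneg_left ?_ (mul_nonneg (k.f_nn _ _ _ _) (k.g_nn _ _ _ _))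
          have hR0 : 0 ≤ Real.log (1 / al) / Real.log B * L x b c :=
            mul_nonneg (div_nonneg hla hlB.le) (hL0 x b c)
          by_cases hst : sF k N Z B x b c F ∧ sG k N Z B x b c G
          · rw [ind_of hst, one_mul]
            refine (io_le_thick k (hT x b c ht) (N.sV x b c) hF hG).trans ?_
            have h3 := strong_small (kk := fun y => k.f y b c) (fun y F => k.f_nn y b c F) (h.V x b c) (hZne x b c)
              hB0 (kp x b c F hF) hst.1
            rw [div_mul_eq_mul_div, le_div_iff₀ hlB]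
            exact mul_le_mul_of_nonneg_left h3 hla
          · rw [ind_not hst, zero_mul]
            exact hR0
        have h2 : (∑ F, ∑ G, k.f x b c F * k.g x b c G * (Real.log (1 / al) / Real.log B * L x b c)) =
            Real.log (1 / al) / Real.log B * L x b c := by
          simp only [← Finset.sum_mul]
          rw [hJs, one_mul]
        have h3 : 0 ≤ dl * ∑ F, k.f x b c F * ind (sF k N Z B x b c F) :=
          mul_nonneg hdl (Finset.sum_nonneg fun F _ => mul_nonneg (k.f_nn _ _ _ _) (ind_nonneg _))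
        linarith
      · rw [ind_not hb, zero_mul, mul_zero, zero_add]
        have e0 : ∀ F G, ind (¬ bd x b c ∧ sF k N Z B x b c F ∧ sG k N Z B x b c G) =
            ind (sF k N Z B x b c F ∧ sG k N Z B x b c G) := fun F G => by
          congr 1
          exact propext ⟨fun h' => h'.2, fun h' => ⟨hb, h'⟩⟩
        simp only [e0]
        rw [Finset.mul_sum, ← Finset.sum_add_distrib]
        refine Finset.sum_le_sum fun F _ => ?_
        have h4 : dl * (k.f x b c F * ind (sF k N Z B x b c F)) =
            ∑ G, k.f x b c F * k.g x b c G * (dl * ind (sF k N Z B x b c F)) := by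
          have h5 : ∀ G, k.f x b c F * k.g x b c G * (dl * ind (sF k N Z B x b c F)) =
              k.g x b c G * (k.f x b c F * (dl * ind (sF k N Z B x b c F))) := fun G => by ring
          rw [Finset.sum_congr rfl fun G _ => h5 G, ← Finset.sum_mul, k.g_one, one_mul]
          ring
        rw [h4, ← Finset.sum_add_distrib]
        refine Finset.sum_le_sum fun G _ => ?_
        rw [← mul_add]
        by_cases hF : k.f x b c F = 0
        · rw [hF]; simp
        by_cases hG : k.g x b c G = 0
        · rw [hG]; simp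
        refine mul_le_mul_of_nonneg_left ?_ (mul_nonneg (k.f_nn _ _ _ _) (k.g_nn _ _ _ _))
        by_cases hst : sF k N Z B x b c F ∧ sG k N Z B x b c G
        · rw [ind_of hst, ind_of hst.1, one_mul, one_mul, mul_one]
          exact hps x b c ht hb F G hF hG
        · rw [ind_not hst, zero_mul, zero_mul, add_zero]
          exact mul_nonneg hdl (ind_nonneg _)
    calc _ ≤ θ x b c * (Real.log (1 / al) / Real.log B * (ind (bd x b c) * L x b c) +
        dl * ∑ F, k.f x b c F * ind (sF k N Z B x b c F) +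
        ∑ F, ∑ G, k.f x b c F * k.g x b c G *
        (ind (¬ bd x b c ∧ sF k N Z B x b c F ∧ sG k N Z B x b c G) * ps x b c F G)) :=
          mul_le_mul_of_nonneg_left hs (hθ0 x b c)
      _ = _ := by ring
  refine (E3_mono hpt).trans ?_
  rw [E3_add, E3_add, E3_smul, E3_smul]
  -- the bad pairs
  have hbad : E3 (fun x b c => θ x b c * (ind (bd x b c) * L x b c)) ≤
      eta * E3 (fun x b c => θ x b c * L x b c) := by
    rw [← E3_smul, E3_box N, E3_box N (fun x b c => eta * (θ x b c * L x b c))]
    refine E3_mono fun x b c => ?_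
    have hcN : (0 : ℝ) < (N.V x b c).card := by exact_mod_cast Finset.card_pos.2 (hNne x b c)
    have hcB : (0 : ℝ) < (N.B x b c).card := by exact_mod_cast Finset.card_pos.2 ⟨b, N.sB x b c⟩
    have hcC : (0 : ℝ) < (N.C x b c).card := by exact_mod_cast Finset.card_pos.2 ⟨c, N.sC x b c⟩
    have eL : ∀ x' ∈ N.V x b c, ∀ b' ∈ N.B x b c, ∀ c' ∈ N.C x b c, L x' b' c' = L x' b c := by
      intro x' hx' b' hb' c' hc'
      have i1 := N.inv x b c x' b' c' hx' hb' hc'
      have i2 := N.inv x b c x' b c hx' (N.sB x b c) (N.sC x b c)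
      have hb2 : b' ∈ Z.B x' b c := by rw [h.B, i2.2.1]; exact hb'
      have hc2 : c' ∈ Z.C x' b c := by rw [h.C, i2.2.2]; exact hc'
      have i3 := Z.inv x' b c x' b' c' (Z.sV x' b c) hb2 hc2
      simp only [hL]
      rw [i1.1, i2.1, i3.1]
    by_cases ht : θ x b c = 0
    · have e1 : ∀ x' ∈ N.V x b c, (avg (N.B x b c) fun b' => avg (N.C x b c) fun c' =>
          θ x' b' c' * (ind (bd x' b' c') * L x' b' c')) = 0 := by
        intro x' hx'
        unfold avg
        rw [Finset.sum_eq_zero, zero_div]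
        intro b' hb'
        rw [Finset.sum_eq_zero, zero_div]
        intro c' hc'
        rw [hθ x b c x' b' c' hx' hb' hc', ht, zero_mul]
      have e2 : (avg (N.V x b c) fun x' => avg (N.B x b c) fun b' => avg (N.C x b c) fun c' =>
          θ x' b' c' * (ind (bd x' b' c') * L x' b' c')) = 0 := by
        unfold avg at e1 ⊢
        rw [Finset.sum_eq_zero e1, zero_div]
      have e3 : (avg (N.V x b c) fun x' => avg (N.B x b c) fun b' => avg (N.C x b c) fun c' =>
          eta * (θ x' b' c' * L x' b' c')) = 0 := by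
        unfold avg
        rw [Finset.sum_eq_zero, zero_div]
        intro x' hx'
        rw [Finset.sum_eq_zero, zero_div]
        intro b' hb'
        rw [Finset.sum_eq_zero, zero_div]
        intro c' hc'
        rw [hθ x b c x' b' c' hx' hb' hc', ht, zero_mul, mul_zero]
      rw [e2, e3]
    · have e1 : ∀ x' ∈ N.V x b c, (avg (N.B x b c) fun b' => avg (N.C x b c) fun c' =>
          θ x' b' c' * (ind (bd x' b' c') * L x' b' c')) =
          θ x b c * L x' b c * (avg (N.B x b c) fun b' => avg (N.C x b c) fun c' => ind (bd x b' c')) := by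
        intro x' hx'
        have e4 : (avg (N.B x b c) fun b' => avg (N.C x b c) fun c' =>
            θ x' b' c' * (ind (bd x' b' c') * L x' b' c')) =
            avg (N.B x b c) fun b' => avg (N.C x b c) fun c' => θ x b c * L x' b c * ind (bd x b' c') := by
          unfold avg
          refine congrArg (· / _) (Finset.sum_congr rfl fun b' hb' => ?_)
          refine congrArg (· / _) (Finset.sum_congr rfl fun c' hc' => ?_)
          beta_reduce
          rw [hθ x b c x' b' c' hx' hb' hc', eL x' hx' b' hb' c' hc',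
            show bd x' b' c' = bd x b' c' from propext (hbi x b c x' b' c' hx' hb' hc')]
          ring
        rw [e4]
        simp only [avg_smul]
      have e2 : ∀ x' ∈ N.V x b c, (avg (N.B x b c) fun b' => avg (N.C x b c) fun c' =>
          eta * (θ x' b' c' * L x' b' c')) = θ x b c * L x' b c * eta := by
        intro x' hx'
        have e4 : (avg (N.B x b c) fun b' => avg (N.C x b c) fun c' => eta * (θ x' b' c' * L x' b' c')) =
            avg (N.B x b c) fun b' => avg (N.C x b c) fun c' => θ x b c * L x' b c * eta := by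
          unfold avg
          refine congrArg (· / _) (Finset.sum_congr rfl fun b' hb' => ?_)
          refine congrArg (· / _) (Finset.sum_congr rfl fun c' hc' => ?_)
          beta_reduce
          rw [hθ x b c x' b' c' hx' hb' hc', eL x' hx' b' hb' c' hc']
          ring
        rw [e4]
        unfold avg
        simp only [Finset.sum_const, nsmul_eq_mul]
        field_simp
      unfold avg at e1 e2 ⊢
      rw [Finset.sum_congr rfl e1, Finset.sum_congr rfl e2]
      refine div_le_div_of_nonneg_right (Finset.sum_le_sum fun x' hx' => ?_) hcN.le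
      exact mul_le_mul_of_nonneg_left (hbd x b c ht) (mul_nonneg (hθ0 x b c) (hL0 x' b c))
  -- the part `d`
  have hd : E3 (fun x b c => θ x b c * ∑ F, k.f x b c F * ind (sF k N Z B x b c F)) ≤
      (1 / (Real.log B - 1)) * E3 (fun x b c => θ x b c *
        klf (law (Z.V x b c) fun y => k.f y b c) (law (N.V x b c) fun y => k.f y b c)) := by
    have e1 : E3 (fun x b c => θ x b c * ∑ F, k.f x b c F * ind (sF k N Z B x b c F)) =
        E3 fun x b c => ∑ F, law (Z.V x b c) (fun y => k.f y b c) F * (θ x b c * ind (sF k N Z B x b c F)) := by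
      rw [← E3_letF k Z (fun x b c F => θ x b c * ind (sF k N Z B x b c F))]
      · refine E3_congr fun x b c => ?_
        rw [Finset.mul_sum]
        exact Finset.sum_congr rfl fun F _ => by ring
      · intro x b c x' hx' F
        unfold sF
        rw [(stf h hx').1, (stf h hx').2, hθ x b c x' b c (h.V x b c hx') (N.sB x b c) (N.sC x b c)]
    rw [e1, ← E3_smul]
    refine E3_mono fun x b c => ?_
    have hZ1 := law_tot (k := fun y => k.f y b c) (fun y => k.f_one y b c) (hZne x b c)
    have hN1 := law_tot (k := fun y => k.f y b c) (fun y => k.f_one y b c) (hNne x b c)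
    have hpq : ∀ F, law (Z.V x b c) (fun y => k.f y b c) F ≠ 0 → 0 < law (N.V x b c) (fun y => k.f y b c) F := by
      intro F hF
      have h2 := law_sub_le (k := fun y => k.f y b c) (fun y F => k.f_nn y b c F) (h.V x b c) (hZne x b c) F
      have h3 : 0 < law (Z.V x b c) (fun y => k.f y b c) F :=
        lt_of_le_of_ne (law_nn (fun y F => k.f_nn y b c F) _ F) (Ne.symm hF)
      have hcZ : (0 : ℝ) < (Z.V x b c).card := by exact_mod_cast Finset.card_pos.2 (hZne x b c)
      have hcN : (0 : ℝ) < (N.V x b c).card := by exact_mod_cast Finset.card_pos.2 (hNne x b c)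
      by_contra h4
      have h5 := not_lt.1 h4
      nlinarith
    have hk := str_kl (p := law (Z.V x b c) (fun y => k.f y b c)) (q := law (N.V x b c) (fun y => k.f y b c))
      (fun F => law_nn (fun y F => k.f_nn y b c F) _ F) (fun F => law_nn (fun y F => k.f_nn y b c F) _ F)
      hpq hZ1 hN1.le hB hB0
    have e2 : (∑ F, law (Z.V x b c) (fun y => k.f y b c) F * (θ x b c * ind (sF k N Z B x b c F))) =
        θ x b c * ∑ F, law (Z.V x b c) (fun y => k.f y b c) F *
          ind (B * law (N.V x b c) (fun y => k.f y b c) F < law (Z.V x b c) (fun y => k.f y b c) F) := by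
      rw [Finset.mul_sum]
      refine Finset.sum_congr rfl fun F _ => ?_
      by_cases hF : law (Z.V x b c) (fun y => k.f y b c) F = 0
      · rw [hF]; simp
      · have e3 : sF k N Z B x b c F =
            (B * law (N.V x b c) (fun y => k.f y b c) F < law (Z.V x b c) (fun y => k.f y b c) F) := by
          unfold sF
          exact propext (lt_div_iff₀ (hpq F hF))
        rw [e3]
        ring
    rw [e2]
    calc _ ≤ θ x b c * (klf (law (Z.V x b c) fun y => k.f y b c) (law (N.V x b c) fun y => k.f y b c) /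
        (Real.log B - 1)) := mul_le_mul_of_nonneg_left hk (hθ0 x b c)
      _ = _ := by ring
  have h1 := mul_le_mul_of_nonneg_left hbad (div_nonneg hla hlB.le)
  have h2 := mul_le_mul_of_nonneg_left hd hdl
  have e1 : Real.log (1 / al) / Real.log B * (eta * E3 (fun x b c => θ x b c * L x b c)) =
      Real.log (1 / al) * (eta / Real.log B) * E3 (fun x b c => θ x b c * L x b c) := by ring
  have e2 : ∀ A : ℝ, dl * (1 / (Real.log B - 1) * A) = dl / (Real.log B - 1) * A := fun A => by ring
  rw [e1] at h1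
  rw [e2] at h2
  linarith

end sub

end static

end

end Pool.Agent.M3.S3B
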