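import Pool.Agent.M3.S3.M2
import Pool.Agent.M3.S3B.JumpS
import Pool.Agent.M3.S3B.LossD
import Pool.Agent.M3.S3B.Main

/-!
# M3.S3B.Jump: the losses in the jump epochs (note 3448, (7), process part; helper58)

`R : Rt D` with the removals `rmB D n`.
* `start_sat_g` : the class at a start is saturated with the constant `1/n`;
* `crit_start` : for `mkRt` a critical class is the class of a start; `hlf_hf`; `thk_cell`;
* `jump_lossD` : all of `lossD` (the bad digits occur at starts only) `≤ (d + lam)/(log B - 1) gainD + ..`;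
* `jump_lossC` : the loss at the next classes after a start, weight `θ` which vanishes on the tiny half step classes;
* `stJump` : THE MODULE `StJump` for every `mkRt (rmB D n) Up N dg K`, `stJump_rB` for the rule `rB`.
-/

set_option autoImplicit false
set_option linter.unusedSectionVars false
set_option linter.unusedVariables false

namespace Pool.Agent.M3.S3B

open Finset Pool.Agent.PWZ Pool.Agent.M3 Pool.Agent.M3.S3

noncomputable section

namespace JP

section gen

variable {X β γ ι φ : Type*} [Fintype X] [Fintype β] [Fintype γ] [Fintype φ] {D : Dat X β γ ι φ} {al : ℝ}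

theorem thk_cell (T : D.Thick al) {t : ℕ} {x : X} {V : Finset X} (h : V ⊆ D.cA t x) : Thk (D.kp T t) V al :=
  ⟨T.pos, fun y hy z hz b c F hF => T.f_thick t y z b c F ((D.mem_cA.1 (h hy)).trans (D.mem_cA.1 (h hz)).symm) hF,
    fun y hy z hz b c F hF => T.g_thick t y z b c F ((D.mem_cA.1 (h hy)).trans (D.mem_cA.1 (h hz)).symm) hF⟩

theorem hlf_hf (R : Rt D) (t : ℕ) (x : X) (b : β) (c : γ) : hlf D R.U t x b c = R.hf t x b c := by
  ext y
  rw [mem_hlf]
  unfold Rt.U Rt.hf
  rw [mem_W, mem_W]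
  exact ⟨fun h => ⟨h.1.1, h.2⟩, fun h => ⟨⟨h.1, D.ra _ _ _ h.2⟩, h.2⟩⟩

/-- a critical class is the class of a start -/
theorem crit_start {R0 : Rm D} {Up : Upd D} {N : Nb} {dg : ℕ → X → ℝ} {K t : ℕ} {x : X} {b : β} {c : γ}
    (h : Crit (D := D) N dg t b c ((mkRt R0 Up N dg K).U t x b c)) : (mkRt R0 Up N dg K).start t x b c := by
  set R := mkRt R0 Up N dg K with hR
  cases t with
  | zero => rfl
  | succ s =>
    by_cases hn : R.tt (R.ep s x b c) (s + 1) x b c
    · show (R.ep (s + 1) x b c).t0 = s + 1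
      rw [R.ep_new hn]
    · exfalso
      have h1 : ¬ TT R0 Up N dg (R.ep s x b c) (s + 1) x b c := run_TT hn
      rw [R.U_keep hn] at h
      exact h1 (Or.inr (Or.inr (Or.inl h)))

variable {R : Rt D} {n : ℝ}

/-- saturation at a start -/
theorem start_sat_g (T : D.Thick al) (hR : R.toRm = rmB D n) (hn : 0 < n) {t : ℕ} {x : X} {b : β} {c : γ}
    (hs : R.start t x b c) {S : Finset X} (hS : S ⊆ R.U t x b c) (hne : S.Nonempty) :
    avg (D.cC t c) (fun c' => klf (law S fun y => D.kg t y b c') (law (R.U t x b c) fun y => D.kg t y b c')) ≤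
      1 / n * (Real.log (((R.U t x b c).card : ℝ) / S.card) + 1) := by
  have hs' : (R.ep t x b c).t0 = t := hs
  rw [R.U_start hs'] at hS ⊢
  have h := om0_sat_g (R := R) (s := t) (x := x) (b := b) (c := c) hR T hn hS hne
  rw [hs'] at h
  rw [one_div, mul_comm, ← div_eq_mul_inv]
  exact h

end gen

section proc

variable {X β γ ι φ : Type} [Fintype X] [Fintype β] [Fintype γ] [Fintype φ] [Nonempty X] [Nonempty β] [Nonempty γ]
  {D : Dat X β γ ι φ} {al : ℝ} {R : Rt D} {n : ℝ}

/-- the first gain of a refinement -/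
theorem gain_le (k : KP X β γ φ) {N Z : Bx X β γ} (h : Z.Sub N) (hN : N.Ok k) {th : X → β → γ → ℝ}
    (hth1 : ∀ x b c, th x b c ≤ 1) :
    E3 (fun x b c => th x b c * klf (law (Z.V x b c) fun z => k.f z b c) (law (N.V x b c) fun z => k.f z b c)) ≤
      k.P.E (k.P.iota xF Z.map N.map) + k.P.E (k.P.iota xG Z.map N.map) := by
  have h1 := JS.gain_th_le (k := k) h hth1
  rw [gainF_E3 k h hN, gainG_E3 k h hN]
  have h2 : 0 ≤ E3 fun x b c => klf (law (Z.V x b c) fun y => k.g y b c) (law (N.V x b c) fun y => k.g y b c) :=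
    E3_nonneg fun x b c => klf_sub_nonneg (fun y F => k.g_nn y b c F) (fun y => k.g_one y b c)
      (h.V x b c) ⟨x, Z.sV x b c⟩
  linarith

/-- LOSS AT THE BAD DIGITS -/
theorem jump_lossD (T : D.Thick al) (hal : al ≤ 1) (hR : R.toRm = rmB D n) (hn : 0 < n) {dg : ℕ → X → ℝ}
    {B d L : ℝ} (hB : Real.exp 2 ≤ B) (hd : 0 < d) (hL : 0 ≤ L) {t : ℕ}
    (hcr : ∀ x b c, 1 / 2 < |mB dg t (R.U t x b c)| → R.start t x b c) :
    lossD T R.refCl dg B (fun _ _ => False) t ≤
      (d + JS.lam d (1 / n) al L) / (Real.log B - 1) * gainD T R.refCl t +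
        Real.log (1 / al) * (Real.exp (-L) / al) * E3 (fun x b c => ind (R.start t x b c)) := by
  have hal0 := T.pos
  have hB0 : 0 < B := (Real.exp_pos 2).trans_le hB
  have hlB : 2 ≤ Real.log B := (Real.le_log_iff_exp_le hB0).2 hB
  have hla : 0 ≤ Real.log (1 / al) := Real.log_nonneg (by rw [le_div_iff₀ hal0]; linarith)
  have hn' : 0 ≤ 1 / n := by positivity
  have hlam := JS.lam_nonneg (L := L) hd hn' hal0 hal hL
  have hN : (bxU R.refCl t).Ok (D.kp T t) := bxA_ok T R.refCl t t t le_rfl le_rfl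
  set th : X → β → γ → ℝ := fun x b c => 1 - ind (|mB dg t (R.U t x b c)| ≤ 1 / 2) with hth
  have hst : ∀ x b c, th x b c ≠ 0 → R.start t x b c := by
    intro x b c h
    refine hcr x b c ?_
    by_contra h1
    apply h
    simp only [hth]
    rw [ind_of (not_lt.1 h1), sub_self]
  have hle1 : ∀ x b c, th x b c ≤ 1 := by
    intro x b c
    have := ind_nonneg (|mB dg t (R.U t x b c)| ≤ 1 / 2)
    simp only [hth]
    linarith
  have hle : ∀ x b c, th x b c ≤ ind (R.start t x b c) := by
    intro x b c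
    by_cases h : th x b c = 0
    · rw [h]; exact ind_nonneg _
    · rw [ind_of (hst x b c h)]; exact hle1 x b c
  have h0 : ∀ x b c, 0 ≤ th x b c := by
    intro x b c
    have := ind_le_one (|mB dg t (R.U t x b c)| ≤ 1 / 2)
    simp only [hth]
    linarith
  have h1 := JS.loss_box (k := D.kp T t) (bxh_sub R.refCl t) hN h0
    (fun x b c x' b' c' hx hb hc => by
      simp only [hth]
      rw [show R.U t x' b' c' = R.U t x b c from ((bxU R.refCl t).inv x b c x' b' c' hx hb hc).1])
    hal hd hn' hL (show 1 < Real.log B by linarith) hB0 hal0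
    (fun x b c _ => thk_cell T (R.U_sub t x b c))
    (fun x b c h S hS hne => start_sat_g T hR hn (hst x b c h) hS hne)
  have e0 : lossD T R.refCl dg B (fun _ _ => False) t = (D.kp T t).P.E (fun w => th w.1 w.2.1 w.2.2.1 *
      (ind (B < (D.kp T t).P.rt xF (bxU R.refCl t).map (bxh R.refCl t).map w ((bxh R.refCl t).map w) ∧
      B < (D.kp T t).P.rt xG (bxU R.refCl t).map (bxh R.refCl t).map w ((bxh R.refCl t).map w)) *
      (D.kp T t).P.iota xF xG (bxU R.refCl t).map w)) := by
    unfold lossD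
    refine (D.kp T t).P.E_congr fun w _ => ?_
    rw [← m3_eq T R.refCl, m3_mdg T R.refCl]
    simp only [false_or]
    rfl
  rw [e0]
  refine h1.trans (add_le_add ?_ ?_)
  · exact mul_le_mul_of_nonneg_left (gain_le (D.kp T t) (bxh_sub R.refCl t) hN hle1)
      (div_nonneg (by linarith) (by linarith))
  · exact mul_le_mul_of_nonneg_left (E3_mono hle) (by positivity)

/-- LOSS AT THE NEXT CLASSES, after a start, half step class not tiny -/
theorem jump_lossC (T : D.Thick al) (hal : al ≤ 1) (hR : R.toRm = rmB D n) (hn : 0 < n) {t : ℕ}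
    (hC : (∀ c, D.cC (t + 1) c = D.cC t c) ∨ ∀ c, 2 * (D.cC (t + 1) c).card = (D.cC t c).card)
    {B d L : ℝ} (hB : Real.exp 2 ≤ B) (hd : 0 < d) (hL : 0 ≤ L)
    {θ : ℕ → X → β → γ → ℝ} (hθ0 : ∀ x b c, 0 ≤ θ t x b c) (hθ1 : ∀ x b c, θ t x b c ≤ 1)
    (hθ : ∀ x b c x' b' c', x' ∈ hlf D R.U t x b c → b' ∈ D.cB (t + 1) b → c' ∈ D.cC (t + 1) c →
      θ t x' b' c' = θ t x b c)
    (hs : ∀ x b c, θ t x b c ≠ 0 → R.start t x b c)
    (ht : ∀ x b c, θ t x b c ≠ 0 → Real.exp (-L) * (R.U t x b c).card ≤ ((hlf D R.U t x b c).card : ℝ)) :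
    lossC T R.refCl (fun t w => θ t w.1 w.2.1 w.2.2.1) B (fun _ _ => False) t ≤
      (d + JS.lam d (8 * (1 / n) * (Real.log (1 / al) + 3) * (L + 1)) al L) / (Real.log B - 1) *
          gainC T R.refCl t +
        Real.log (1 / al) * (Real.exp (-L) / al) * E3 (fun x b c => ind (R.start t x b c)) := by
  have hal0 := T.pos
  have hB0 : 0 < B := (Real.exp_pos 2).trans_le hB
  have hlB : 2 ≤ Real.log B := (Real.le_log_iff_exp_le hB0).2 hB
  have hla : 0 ≤ Real.log (1 / al) := Real.log_nonneg (by rw [le_div_iff₀ hal0]; linarith)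
  have hn' : 0 ≤ 1 / n := by positivity
  set sg := 8 * (1 / n) * (Real.log (1 / al) + 3) * (L + 1) with hsgdef
  have hsg : 0 ≤ sg := by positivity
  have hlam := JS.lam_nonneg (L := L) hd hsg hal0 hal hL
  have hN : (bxH R.refCl t).Ok (D.kp T t) := bxB_ok T R.refCl t (t + 1) t (Nat.le_succ t) (Nat.le_succ t)
  have hsub : ∀ x b c, hlf D R.U t x b c ⊆ D.cA t x := fun x b c y hy => R.U_sub t x b c (mem_hlf.1 hy).1
  have hself : ∀ x b c, x ∈ hlf D R.U t x b c := fun x b c => mem_hlf.2 ⟨R.self_U t x b c, rfl⟩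
  have hle : ∀ x b c, θ t x b c ≤ ind (R.start t x b c) := by
    intro x b c
    by_cases h0 : θ t x b c = 0
    · rw [h0]; exact ind_nonneg _
    · rw [ind_of (hs x b c h0)]; exact hθ1 x b c
  have hhalf : ∀ c, ((D.cC t c).card : ℝ) ≤ 2 * (D.cC (t + 1) c).card := by
    intro c
    rcases hC with h | h
    · rw [h c]
      have : (0 : ℝ) ≤ (D.cC t c).card := Nat.cast_nonneg _
      linarith
    · exact_mod_cast (h c).ge
  have h1 := JS.loss_box (k := D.kp T t) (bxU_sub R.refCl t) hN (th := θ t) hθ0 hθ hal hd hsg hL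
    (show 1 < Real.log B by linarith) hB0 hal0 (fun x b c _ => thk_cell T (hsub x b c))
    (fun x b c h => by
      have hst := hs x b c h
      have hmu : ((R.U t x b c).card : ℝ) ≤ Real.exp L * (hlf D R.U t x b c).card := by
        have h3 := mul_le_mul_of_nonneg_left (ht x b c h) (Real.exp_pos L).le
        rwa [← mul_assoc, ← Real.exp_add, add_neg_cancel, Real.exp_zero, one_mul] at h3
      have h2 := JL.sat_child (O := R.U t x b c) (V := hlf D R.U t x b c) (fun y hy => (mem_hlf.1 hy).1)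
        ⟨x, hself x b c⟩ (C0 := D.cC t c) (C1 := D.cC (t + 1) c) (D.cC_mono (Nat.le_succ t) c) (hhalf c)
        (kg := fun y c' => D.kg t y b c') (fun y _ c' _ G => T.g_nn _ _ _ _ _) (fun y _ c' _ => T.g_one _ _ _ _)
        hal0 hal (fun y hy z hz c' _ G hG => T.g_thick t y z b c' G
          ((D.mem_cA.1 (hsub x b c hy)).trans (D.mem_cA.1 (hsub x b c hz)).symm) hG) hn'
        (fun S hS hne => start_sat_g T hR hn hst hS hne) hL hmu
      exact fun S hS hne => h2 S hS hne)
  have e0 : lossC T R.refCl (fun t w => θ t w.1 w.2.1 w.2.2.1) B (fun _ _ => False) t =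
      (D.kp T t).P.E (fun w => θ t w.1 w.2.1 w.2.2.1 *
      (ind (B < (D.kp T t).P.rt xF (bxH R.refCl t).map (bxU R.refCl (t + 1)).map w ((bxU R.refCl (t + 1)).map w) ∧
      B < (D.kp T t).P.rt xG (bxH R.refCl t).map (bxU R.refCl (t + 1)).map w ((bxU R.refCl (t + 1)).map w)) *
      (D.kp T t).P.iota xF xG (bxH R.refCl t).map w)) := by
    unfold lossC
    simp only [false_or]
  rw [e0]
  refine h1.trans (add_le_add ?_ ?_)
  · exact mul_le_mul_of_nonneg_left (gain_le (D.kp T t) (bxU_sub R.refCl t) hN hθ1)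
      (div_nonneg (by linarith) (by linarith))
  · exact mul_le_mul_of_nonneg_left (E3_mono hle) (by positivity)

/-- THE MODULE `StJump` -/
theorem stJump (T : D.Thick al) (hal : al ≤ 1) (hn : 0 < n) {Up : Upd D} {N : Nb} {dg : ℕ → X → ℝ} {K : ℕ} {Lam : ℝ}
    (hC : ∀ t < K, (∀ c, D.cC (t + 1) c = D.cC t c) ∨ ∀ c, 2 * (D.cC (t + 1) c).card = (D.cC t c).card)
    (hBi : Birth D K Lam) {B d L : ℝ} (hB : Real.exp 2 ≤ B) (hd : 0 < d) (hL : 0 ≤ L) :
    StJump T (mkRt (rmB D n) Up N dg K) N dg K L B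
      ((d + JS.lam d (8 * (1 / n) * (Real.log (1 / al) + 3) * (L + 1)) al L) / (Real.log B - 1) * (2 * Lam) +
        2 * (Real.log (1 / al) * (Real.exp (-L) / al)) * nst (mkRt (rmB D n) Up N dg K) K) := by
  set R := mkRt (rmB D n) Up N dg K with hR
  have hR' : R.toRm = rmB D n := rfl
  have hal0 := T.pos
  have hB0 : 0 < B := (Real.exp_pos 2).trans_le hB
  have hlB : 2 ≤ Real.log B := (Real.le_log_iff_exp_le hB0).2 hB
  have hla : 0 ≤ Real.log (1 / al) := Real.log_nonneg (by rw [le_div_iff₀ hal0]; linarith)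
  have hn' : 0 < 1 / n := by positivity
  set sg := 8 * (1 / n) * (Real.log (1 / al) + 3) * (L + 1) with hsgdef
  have hsg : 0 ≤ sg := by positivity
  have hlam := JS.lam_nonneg (L := L) hd hsg hal0 hal hL
  have hsg1 : 1 / n ≤ sg := by
    have h1 : 1 ≤ 8 * (Real.log (1 / al) + 3) * (L + 1) := by nlinarith
    calc 1 / n = 1 / n * 1 := (mul_one _).symm
      _ ≤ 1 / n * (8 * (Real.log (1 / al) + 3) * (L + 1)) := mul_le_mul_of_nonneg_left h1 hn'.le
      _ = sg := by rw [hsgdef]; ring
  have hlam1 : JS.lam d (1 / n) al L ≤ JS.lam d sg al L := by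
    unfold JS.lam
    have h1 : 0 ≤ 1 * (4 / d) := by positivity
    have h2 := mul_le_mul_of_nonneg_right hsg1 (show 0 ≤ L + 1 by linarith)
    have h3 := mul_le_mul_of_nonneg_left (mul_le_mul_of_nonneg_right hsg1 (show 0 ≤ Real.log (1 / al) + 1 by linarith)) h1
    linarith
  unfold StJump
  have key : ∀ t ∈ range K, lossD T R.refCl dg B (fun _ _ => False) t +
      lossC T R.refCl (fun t w => ind (crt R N dg t w.1 w.2.1 w.2.2.1) * thB R L t w.1 w.2.1 w.2.2.1) B
      (fun _ _ => False) t ≤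
      (d + JS.lam d sg al L) / (Real.log B - 1) * (gainD T R.refCl t + gainC T R.refCl t) +
        2 * (Real.log (1 / al) * (Real.exp (-L) / al)) * E3 (fun x b c => ind (R.start t x b c)) := by
    intro t ht
    have h1 := jump_lossD (R := R) (L := L) T hal hR' hn (dg := dg) hB hd hL (t := t)
      (fun x b c h => crit_start (Or.inl h))
    have h2 := jump_lossC (R := R) T hal hR' hn (hC t (mem_range.1 ht)) hB hd hL
      (θ := fun t x b c => ind (crt R N dg t x b c) * thB R L t x b c)
      (fun x b c => mul_nonneg (ind_nonneg _) (ind_nonneg _))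
      (fun x b c => by
        have a1 := ind_le_one (crt R N dg t x b c)
        have a2 := ind_le_one (Real.exp (-L) * (R.U t x b c).card ≤ ((R.hf t x b c).card : ℝ))
        have a3 := ind_nonneg (Real.exp (-L) * (R.U t x b c).card ≤ ((R.hf t x b c).card : ℝ))
        calc ind (crt R N dg t x b c) * thB R L t x b c ≤ 1 * 1 := mul_le_mul a1 a2 a3 zero_le_one
          _ = 1 := one_mul 1)
      (fun x b c x' b' c' hx hb hc => by
        have hx1 := (mem_hlf.1 hx).1
        have hb1 := D.mem_cB.1 (D.cB_mono (Nat.le_succ t) b hb)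
        have hc1 := D.mem_cC.1 (D.cC_mono (Nat.le_succ t) c hc)
        have e1 : R.U t x' b' c' = R.U t x b c :=
          (R.pub t ⟨(D.mem_cA.1 (R.U_sub t x b c hx1)).symm, hb1.symm, hc1.symm⟩ hx1).2
        have e2 : R.hf t x' b' c' = R.hf t x b c := by
          rw [← hlf_hf, ← hlf_hf]
          exact ((bxH R.refCl t).inv x b c x' b' c' hx hb hc).1
        have e3 : crt R N dg t x' b' c' = crt R N dg t x b c := by
          unfold crt
          rw [e1]
          exact propext (Crit_inv hb1 hc1 _)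
        show ind (crt R N dg t x' b' c') * thB R L t x' b' c' = ind (crt R N dg t x b c) * thB R L t x b c
        unfold thB
        rw [e1, e2, e3])
      (fun x b c h => crit_start (of_not_not fun h' => h (by
        show ind (crt R N dg t x b c) * thB R L t x b c = 0
        rw [ind_not (show ¬ crt R N dg t x b c from h'), zero_mul])))
      (fun x b c h => of_not_not fun h' => h (by
        show ind (crt R N dg t x b c) * thB R L t x b c = 0
        unfold thB
        rw [hlf_hf] at h'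
        rw [ind_not h', mul_zero]))
    have h3 : (d + JS.lam d (1 / n) al L) / (Real.log B - 1) * gainD T R.refCl t ≤
        (d + JS.lam d sg al L) / (Real.log B - 1) * gainD T R.refCl t :=
      mul_le_mul_of_nonneg_right (div_le_div_of_nonneg_right (by linarith) (by linarith)) (gainD_nonneg T R.refCl t)
    rw [← hsgdef] at h2
    have h4 := add_le_add h1 h2
    refine h4.trans ?_
    rw [mul_add]
    refine le_trans (add_le_add (add_le_add h3 le_rfl) le_rfl) (le_of_eq ?_)
    ring
  refine (Finset.sum_le_sum key).trans ?_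
  rw [Finset.sum_add_distrib, ← Finset.mul_sum, ← Finset.mul_sum, Finset.sum_add_distrib]
  have h5 := gains_le T R.refCl hBi
  exact add_le_add (mul_le_mul_of_nonneg_left h5 (div_nonneg (by linarith) (by linarith))) le_rfl

/-- `StJump` for the rule of route B, from the hypotheses of Theorem 3 -/
theorem stJump_rB (T : D.Thick al) (hal : al ≤ 1) (hn : 0 < n) {dg : ℕ → X → ℝ} {prf prg : ℕ → φ → φ} {K : ℕ}
    {al' al1 Lam : ℝ} (H : Hyp3 D dg prf prg al' K Lam) (hBi : Birth D K Lam) {B d L : ℝ} (hB : Real.exp 2 ≤ B)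
    (hd : 0 < d) (hL : 0 ≤ L) :
    StJump T (rB D dg al1 n K) (nbB al1 n) dg K L B
      ((d + JS.lam d (8 * (1 / n) * (Real.log (1 / al) + 3) * (L + 1)) al L) / (Real.log B - 1) * (2 * Lam) +
        2 * (Real.log (1 / al) * (Real.exp (-L) / al)) * nst (rB D dg al1 n K) K) :=
  stJump T hal hn H.halfC hBi hB hd hL

end proc

end JP

end

end Pool.Agent.M3.S3B
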