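import Pool.Agent.M3.S3B.Run
import Pool.Agent.M3.S3B.Strong

/-!
# M3.S3B.NestV: the virtual partitions as nested partitions and the gain of the strong letters (helper39)

For a fixed pair `(b,c)` the virtual `f`-partition `VF R e t x b c` is a `Nest` on `e.om0` from `e.t0` on, and the end
`Tend R e K x b c` of the epoch (the first test, or `K`) is a `StopT`; mirror for `VG`.
* `strong_VF`: `(log B - 1) avg_x ∑_F kf 1[∃ t ≤ T, B P_0(F) < P_(v_t)(F)] ≤ avg_x klf (law v_T) (law om0)`, labels of the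
  time `e.t0`, for every pair `(b,c)`; `strong_VG` mirror;
* `Tend_le`, `Tend_ge`, `Tend_lt` (`Tend ≤ s` for `s < K` iff `ST e s`).
-/

set_option autoImplicit false
set_option linter.unusedSectionVars false
set_option linter.unusedVariables false

namespace Pool.Agent.M3.S3B

open Finset Pool.Agent.PWZ Pool.Agent.M3 Pool.Agent.M3.S3

noncomputable section

variable {X β γ ι φ : Type*} [Fintype X] {D : Dat X β γ ι φ}

theorem nestVF (R : Rm D) (e : Epo X) (b : β) (c : γ) : Nest e.om0 e.t0 (fun t x => VF R e t x b c) where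
  self := fun t _ x hx => VF_self R hx t b c
  sub := fun t _ x _ => VF_om0 R t x b c
  eq := fun t ht x _ y hy => VF_congr R ht hy rfl rfl
  nest := fun t _ x _ => VF_anti R (Nat.le_succ t) x b c

theorem nestVG (R : Rm D) (e : Epo X) (b : β) (c : γ) : Nest e.om0 e.t0 (fun t x => VG R e t x b c) where
  self := fun t _ x hx => VG_self R hx t b c
  sub := fun t _ x _ => VG_om0 R t x b c
  eq := fun t ht x _ y hy => VG_congr R ht hy rfl rfl
  nest := fun t _ x _ => VG_anti R (Nat.le_succ t) x b c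

namespace Rt

variable (R : Rt D)

open Classical in
/-- the end of the epoch `e`: the first test after `e.t0`, at most `max e.t0 K` -/
def Tend (e : Epo X) (K : ℕ) (x : X) (b : β) (c : γ) : ℕ :=
  if h : ∃ r, e.t0 < r ∧ r ≤ K ∧ R.tt e r x b c then Nat.find h else max e.t0 K

theorem Tend_ge (e : Epo X) (K : ℕ) (x : X) (b : β) (c : γ) : e.t0 ≤ R.Tend e K x b c := by
  classical
  unfold Tend
  split_ifs with h
  · exact (Nat.find_spec h).1.le
  · exact le_max_left _ _

theorem Tend_le (e : Epo X) (K : ℕ) (x : X) (b : β) (c : γ) : R.Tend e K x b c ≤ max e.t0 K := by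
  classical
  unfold Tend
  split_ifs with h
  · exact (Nat.find_spec h).2.1.trans (le_max_right _ _)
  · exact le_rfl

/-- before `K` the epoch has ended at the time `s` iff it is stopped up to `s` -/
theorem Tend_lt {e : Epo X} {K s : ℕ} (hs : s < K) (x : X) (b : β) (c : γ) :
    R.Tend e K x b c ≤ s ↔ R.ST e s x b c := by
  classical
  unfold Tend
  split_ifs with h
  · constructor
    · intro h1
      obtain ⟨a1, a2, a3⟩ := Nat.find_spec h
      exact ⟨_, a1, h1, a3⟩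
    · rintro ⟨r, h1, h2, h3⟩
      exact (Nat.find_min' h ⟨h1, h2.trans hs.le, h3⟩).trans h2
  · constructor
    · intro h1
      have := le_max_right e.t0 K
      omega
    · rintro ⟨r, h1, h2, h3⟩
      exact absurd ⟨r, h1, h2.trans hs.le, h3⟩ h

/-- the running times: `s < Tend` iff the epoch is not stopped up to `s` -/
theorem lt_Tend {e : Epo X} {K s : ℕ} (hs : s < K) (x : X) (b : β) (c : γ) :
    s < R.Tend e K x b c ↔ ¬ R.ST e s x b c := by
  rw [← R.Tend_lt hs]
  exact not_le.symm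

/-- if a test stops the epoch at a time `≤ K` then it is performed at `Tend` -/
theorem Tend_tt {e : Epo X} {K : ℕ} {x : X} {b : β} {c : γ} (h : R.ST e K x b c) :
    R.tt e (R.Tend e K x b c) x b c ∧ e.t0 < R.Tend e K x b c ∧ R.Tend e K x b c ≤ K := by
  classical
  have h' : ∃ r, e.t0 < r ∧ r ≤ K ∧ R.tt e r x b c := h
  unfold Tend
  rw [dif_pos h']
  obtain ⟨a1, a2, a3⟩ := Nat.find_spec h'
  exact ⟨a3, a1, a2⟩

/-- the end of the epoch is a function of the node -/
theorem Tend_inv {e : Epo X} {K s : ℕ} (hs : e.t0 ≤ s) {x x' : X} {b b' : β} {c c' : γ}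
    (hS : D.Same s x b c x' b' c') (h : R.Tend e K x b c ≤ s) : R.Tend e K x' b' c' = R.Tend e K x b c := by
  classical
  by_cases hx : ∃ r, e.t0 < r ∧ r ≤ K ∧ R.tt e r x b c
  · have e0 : R.Tend e K x b c = Nat.find hx := by unfold Tend; rw [dif_pos hx]
    have sp := Nat.find_spec hx
    rw [← e0] at sp
    have ht : R.tt e (R.Tend e K x b c) x' b' c' := (R.tt_q e _ _ _ _ _ _ _ sp.1.le (hS.le h)).1 sp.2.2
    have hx' : ∃ r, e.t0 < r ∧ r ≤ K ∧ R.tt e r x' b' c' := ⟨_, sp.1, sp.2.1, ht⟩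
    have e1 : R.Tend e K x' b' c' = Nat.find hx' := by unfold Tend; rw [dif_pos hx']
    rw [e1]
    apply le_antisymm
    · exact Nat.find_min' hx' ⟨sp.1, sp.2.1, ht⟩
    · by_contra hlt
      push Not at hlt
      have sp' := Nat.find_spec hx'
      have h2 : R.tt e (Nat.find hx') x b c :=
        (R.tt_q e _ _ _ _ _ _ _ sp'.1.le (hS.le (hlt.le.trans h))).2 sp'.2.2
      have h3 := Nat.find_min' hx ⟨sp'.1, sp'.2.1, h2⟩
      rw [← e0] at h3
      omega
  · have e0 : R.Tend e K x b c = max e.t0 K := by unfold Tend; rw [dif_neg hx]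
    have hx' : ¬ ∃ r, e.t0 < r ∧ r ≤ K ∧ R.tt e r x' b' c' := by
      rintro ⟨r, h1, h2, h3⟩
      rw [e0] at h
      have h4 : r ≤ s := h2.trans ((le_max_right _ _).trans h)
      exact hx ⟨r, h1, h2, (R.tt_q e _ _ _ _ _ _ _ h1.le (hS.le h4)).2 h3⟩
    have e1 : R.Tend e K x' b' c' = max e.t0 K := by unfold Tend; rw [dif_neg hx']
    rw [e0, e1]

variable {R}

theorem stopVF {e : Epo X} (ho : ∀ x ∈ e.om0, e.om0 ⊆ D.cA e.t0 x) (K : ℕ) (b : β) (c : γ) :
    StopT e.om0 e.t0 (fun t x => VF R.toRm e t x b c) (fun x => R.Tend e K x b c) :=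
  ⟨fun x _ => R.Tend_ge e K x b c, fun t ht x hx y hy h => by
    have hq : D.qa t y = D.qa t x := (mem_W.1 (VF_W R.toRm hx (ho x hx) t ht b c hy)).2
    exact R.Tend_inv ht ⟨hq.symm, rfl, rfl⟩ h⟩

theorem stopVG {e : Epo X} (ho : ∀ x ∈ e.om0, e.om0 ⊆ D.cA e.t0 x) (K : ℕ) (b : β) (c : γ) :
    StopT e.om0 e.t0 (fun t x => VG R.toRm e t x b c) (fun x => R.Tend e K x b c) :=
  ⟨fun x _ => R.Tend_ge e K x b c, fun t ht x hx y hy h => by
    have hq : D.qa t y = D.qa t x := (mem_W.1 (VG_W R.toRm hx (ho x hx) t ht b c hy)).2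
    exact R.Tend_inv ht ⟨hq.symm, rfl, rfl⟩ h⟩

/-- STRONG LETTERS OF THE VIRTUAL `f`-CELLS, one pair `(b,c)` -/
theorem strong_VF [Fintype φ] {B : ℝ} (hB : 0 < B) {e : Epo X} (ho : ∀ x ∈ e.om0, e.om0 ⊆ D.cA e.t0 x) (K : ℕ)
    (b : β) (c : γ) (hk : ∀ x ∈ e.om0, ∀ F, 0 ≤ D.kf e.t0 x b c F) :
    (Real.log B - 1) * avg e.om0 (fun x => ∑ F, D.kf e.t0 x b c F *
        ind (∃ t, e.t0 ≤ t ∧ t ≤ R.Tend e K x b c ∧ B * law e.om0 (fun y => D.kf e.t0 y b c) F <
          law (VF R.toRm e t x b c) (fun y => D.kf e.t0 y b c) F)) ≤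
      avg e.om0 (fun x => klf (law (VF R.toRm e (R.Tend e K x b c) x b c) (fun y => D.kf e.t0 y b c))
        (law e.om0 (fun y => D.kf e.t0 y b c))) :=
  strong_gain_avg (k := fun x F => D.kf e.t0 x b c F) hB (nestVF R.toRm e b c) (stopVF ho K b c) hk

/-- STRONG LETTERS OF THE VIRTUAL `g`-CELLS, one pair `(b,c)` -/
theorem strong_VG [Fintype φ] {B : ℝ} (hB : 0 < B) {e : Epo X} (ho : ∀ x ∈ e.om0, e.om0 ⊆ D.cA e.t0 x) (K : ℕ)
    (b : β) (c : γ) (hk : ∀ x ∈ e.om0, ∀ F, 0 ≤ D.kg e.t0 x b c F) :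
    (Real.log B - 1) * avg e.om0 (fun x => ∑ F, D.kg e.t0 x b c F *
        ind (∃ t, e.t0 ≤ t ∧ t ≤ R.Tend e K x b c ∧ B * law e.om0 (fun y => D.kg e.t0 y b c) F <
          law (VG R.toRm e t x b c) (fun y => D.kg e.t0 y b c) F)) ≤
      avg e.om0 (fun x => klf (law (VG R.toRm e (R.Tend e K x b c) x b c) (fun y => D.kg e.t0 y b c))
        (law e.om0 (fun y => D.kg e.t0 y b c))) :=
  strong_gain_avg (k := fun x F => D.kg e.t0 x b c F) hB (nestVG R.toRm e b c) (stopVG ho K b c) hk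

end Rt

end

end Pool.Agent.M3.S3B
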