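import Pool.Agent.M3.S3B.Run2

/-!
# M3.S3B.Swap: exchange of the two known points (helper65)

`R.swap : Rt D.swap`.  `VF_swap`, `VG_swap`, `ep_swap`, `U_swap`, `hf_swap`, `ST_swap`, `start_swap`, `E3_swap`, `thick_swap`:
every statement on the first label gives the mirror statement on the second label.
-/

set_option autoImplicit false
set_option linter.unusedSectionVars false

namespace Pool.Agent.M3.S3B

open Finset Pool.Agent.PWZ Pool.Agent.M3 Pool.Agent.M3.S3

noncomputable section

variable {X β γ ι φ : Type*} {D : Dat X β γ ι φ}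

theorem Same_swap {t : ℕ} {x x' : X} {b b' : β} {c c' : γ} (h : D.swap.Same t x c b x' c' b') :
    D.Same t x b c x' b' c' := ⟨h.1, h.2.2, h.2.1⟩

theorem thick_swap [Fintype φ] {al : ℝ} (T : D.Thick al) : D.swap.Thick al where
  pos := T.pos
  f_nn t x c b F := T.g_nn t x b c F
  g_nn t x c b F := T.f_nn t x b c F
  f_one t x c b := T.g_one t x b c
  g_one t x c b := T.f_one t x b c
  f_thick t x x' c b F := T.g_thick t x x' b c F
  g_thick t x x' c b F := T.f_thick t x x' b c F

theorem E3_swap [Fintype X] [Fintype β] [Fintype γ] (f : X → β → γ → ℝ) : E3 (fun x c b => f x b c) = E3 f := by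
  rw [E3_eq3, E3_eq3]
  congr 1
  · exact sum_congr rfl fun x _ => sum_comm
  · ring

/-- exchange of the two removals -/
def swapRm (R : Rm D) : Rm D.swap where
  pf e s x c b K := R.pg e s x b c K
  pg e s x c b K := R.pf e s x b c K
  sp s x c b K := R.sp s x b c K
  pf_c e s x x' c c' b b' K h hx hc hb := R.pg_b e s x x' b b' c c' K h hx hb hc
  pg_b e s x x' c c' b b' K h hx hc hb := R.pf_c e s x x' b b' c c' K h hx hb hc
  sp_q s x c b x' c' b' K h := R.sp_q s x b c x' b' c' K (Same_swap h)

variable [Fintype X]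

theorem cA_swap (t : ℕ) (x : X) : D.swap.cA t x = D.cA t x := rfl

theorem W_swap (e : Epo X) (t : ℕ) (x : X) : W D.swap e t x = W D e t x := rfl

theorem VF_swap (R : Rm D) (e : Epo X) (s : ℕ) (x : X) (b : β) (c : γ) :
    VF (swapRm R) e s x c b = VG R e s x b c := by
  classical
  induction s with
  | zero => rfl
  | succ s ih =>
    rcases Nat.lt_or_ge s e.t0 with h | h
    · rw [VF_old _ (by omega), VG_old _ (by omega)]
    · rw [VF_succ _ h, VG_succ _ h, ih]
      rfl

theorem VG_swap (R : Rm D) (e : Epo X) (s : ℕ) (x : X) (b : β) (c : γ) :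
    VG (swapRm R) e s x c b = VF R e s x b c := by
  classical
  induction s with
  | zero => rfl
  | succ s ih =>
    rcases Nat.lt_or_ge s e.t0 with h | h
    · rw [VF_old _ (by omega), VG_old _ (by omega)]
    · rw [VF_succ _ h, VG_succ _ h, ih]
      rfl

namespace Rt

variable (R : Rt D)

/-- exchange of the two known points -/
def swap : Rt D.swap where
  toRm := swapRm R.toRm
  tt e s x c b := R.tt e s x b c
  tt_q e s x c b x' c' b' h hS := R.tt_q e s x b c x' b' c' h (Same_swap hS)

theorem toRm_swap : R.swap.toRm = swapRm R.toRm := rfl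

theorem ST_swap (e : Epo X) (s : ℕ) (x : X) (b : β) (c : γ) : R.swap.ST e s x c b ↔ R.ST e s x b c := Iff.rfl

theorem fin_swap (s : ℕ) (x : X) (b : β) (c : γ) (v : Finset X) : R.swap.fin s x c b v = R.fin s x b c v := rfl

theorem jn_swap (e : Epo X) (s : ℕ) (x : X) (b : β) (c : γ) : R.swap.jn e s x c b = R.jn e s x b c := by
  classical
  ext y
  rw [mem_jn, mem_jn, toRm_swap, VF_swap, VG_swap, and_comm]

theorem ep_swap (s : ℕ) (x : X) (b : β) (c : γ) : R.swap.ep s x c b = R.ep s x b c := by
  classical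
  induction s with
  | zero => rfl
  | succ s ih =>
    by_cases h : R.tt (R.ep s x b c) (s + 1) x b c
    · have h' : R.swap.tt (R.swap.ep s x c b) (s + 1) x c b := by rw [ih]; exact h
      rw [R.ep_new h, R.swap.ep_new h', ih, jn_swap, fin_swap]
    · have h' : ¬ R.swap.tt (R.swap.ep s x c b) (s + 1) x c b := by rw [ih]; exact h
      rw [R.ep_old h, R.swap.ep_old h', ih]

theorem U_swap (s : ℕ) (x : X) (b : β) (c : γ) : R.swap.U s x c b = R.U s x b c := by
  unfold U
  rw [ep_swap, W_swap]

theorem hf_swap (s : ℕ) (x : X) (b : β) (c : γ) : R.swap.hf s x c b = R.hf s x b c := by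
  unfold hf
  rw [ep_swap, W_swap]

theorem start_swap (σ : ℕ) (x : X) (b : β) (c : γ) : R.swap.start σ x c b ↔ R.start σ x b c := by
  unfold start
  rw [ep_swap]

end Rt

end

end Pool.Agent.M3.S3B
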