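import Pool.Agent.M3.S3B.LossA
import Pool.Agent.M3.S3B.NestV
import Pool.Agent.M3.S3B.Swap

/-!
# M3.S3B.LossAB: the mirror (B) of part (A), and the gain that pays for both (helper65)

* `gainF R K σ` = `E3 1(start) klf (law VF_T) (law om0)` (labels of the time of the start, `T = R.Tend`), `gainG` the mirror;
* `gain_sgF` : `(log B - 1) E3 ∑_F kf 1(start, sgF ≤ Tm) ≤ gainF`;
* `lsB`, `rowG`, `lossB` : the mirror of `lossA`;
* `lossAB` : `E3 (lsA + lsB) ≤ 2 lam / (log B - 1) (gainF + gainG) + 4 M (eL/al) E3 1(start)`.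
-/

set_option autoImplicit false
set_option linter.unusedSectionVars false

namespace Pool.Agent.M3.S3B

open Finset Pool.Agent.PWZ Pool.Agent.M3 Pool.Agent.M3.S3

noncomputable section

theorem avg_comm3 {α β γ : Type*} (s : Finset α) (t : Finset β) (u : Finset γ) (f : α → β → γ → ℝ) :
    avg s (fun a => avg t fun b => avg u fun c => f a b c) = avg t (fun b => avg u fun c => avg s fun a => f a b c) := by
  unfold avg
  simp only [sum_div]
  rw [sum_comm]
  refine sum_congr rfl fun b _ => ?_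
  rw [sum_comm]
  refine sum_congr rfl fun c _ => sum_congr rfl fun a _ => ?_
  ring

variable {X β γ ι φ : Type*} [Fintype X] {D : Dat X β γ ι φ}

section gain

variable (R : Rt D) [Fintype β] [Fintype γ] [Fintype φ]

/-- information of the first label on the virtual `f`-partition at the end of the epoch which starts at `σ` -/
def gainF (K σ : ℕ) : ℝ := E3 fun x b c => ind (R.start σ x b c) *
  klf (law (VF R.toRm (R.ep σ x b c) (R.Tend (R.ep σ x b c) K x b c) x b c) (fun y => D.kf (R.ep σ x b c).t0 y b c))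
    (law (R.ep σ x b c).om0 (fun y => D.kf (R.ep σ x b c).t0 y b c))

/-- the same for the second label -/
def gainG (K σ : ℕ) : ℝ := E3 fun x b c => ind (R.start σ x b c) *
  klf (law (VG R.toRm (R.ep σ x b c) (R.Tend (R.ep σ x b c) K x b c) x b c) (fun y => D.kg (R.ep σ x b c).t0 y b c))
    (law (R.ep σ x b c).om0 (fun y => D.kg (R.ep σ x b c).t0 y b c))

variable {R}

theorem le_Tend {K σ s : ℕ} (hs : s ≤ K) {x : X} {b : β} {c : γ} (hS : Sta R σ x b c)
    (h : s ≤ Tm R K σ x b c) : s ≤ R.Tend (R.ep σ x b c) K x b c := by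
  classical
  unfold Rt.Tend
  split_ifs with h1
  · refine h.trans ?_
    obtain ⟨a1, a2, a3⟩ := Nat.find_spec h1
    have h2 : σ ≤ Nat.find h1 := by
      have h3 : (R.ep σ x b c).t0 = σ := hS
      omega
    exact (Tm_le_iff h2 a2 x b c).2 fun _ => ⟨_, a1, le_rfl, a3⟩
  · exact hs.trans (le_max_right _ _)

open Classical in
theorem gain_sgF {al B : ℝ} (T : D.Thick al) (hB : Real.exp 1 ≤ B) (K σ : ℕ) :
    (Real.log B - 1) * E3 (fun x b c => ∑ F, D.kf σ x b c F *
      if Sta R σ x b c ∧ sgF R B K σ x b c F ≤ Tm R K σ x b c then (1 : ℝ) else 0) ≤ gainF R K σ := by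
  have hB0 : 0 < B := (Real.exp_pos 1).trans_le hB
  have hB1 : 0 ≤ Real.log B - 1 := by
    have := (Real.le_log_iff_exp_le hB0).2 hB
    linarith
  set h : Epo X → X → β → γ → ℝ := fun e x b c => (Real.log B - 1) * ∑ F, D.kf e.t0 x b c F *
    ind (∃ t, e.t0 ≤ t ∧ t ≤ R.Tend e K x b c ∧ B * law e.om0 (fun y => D.kf e.t0 y b c) F <
      law (VF R.toRm e t x b c) (fun y => D.kf e.t0 y b c) F) with hh
  set g : Epo X → X → β → γ → ℝ := fun e x b c =>
    klf (law (VF R.toRm e (R.Tend e K x b c) x b c) (fun y => D.kf e.t0 y b c))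
      (law e.om0 (fun y => D.kf e.t0 y b c)) with hg
  have h1 : (Real.log B - 1) * E3 (fun x b c => ∑ F, D.kf σ x b c F *
      if Sta R σ x b c ∧ sgF R B K σ x b c F ≤ Tm R K σ x b c then (1 : ℝ) else 0) ≤
      E3 (fun x b c => ind (R.start σ x b c) * h (R.ep σ x b c) x b c) := by
    rw [← E3_smul]
    refine E3_mono fun x b c => ?_
    by_cases hS : Sta R σ x b c
    · rw [ind_of (show R.start σ x b c from hS), one_mul, hh]
      refine mul_le_mul_of_nonneg_left (sum_le_sum fun F _ => ?_) hB1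
      have ht0 : (R.ep σ x b c).t0 = σ := hS
      rw [ht0]
      refine mul_le_mul_of_nonneg_left ?_ (T.f_nn _ _ _ _ _)
      by_cases h2 : Sta R σ x b c ∧ sgF R B K σ x b c F ≤ Tm R K σ x b c
      · rw [if_pos h2, ind_of]
        have hTm : Tm R K σ x b c ≤ K + 1 := by
          unfold Tm
          rw [if_pos hS]
          split_ifs with h3
          · exact (Nat.find_spec h3).1.trans (Nat.le_succ K)
          · exact le_rfl
        obtain ⟨a1, a2, a3⟩ := sgF_spec (h2.2.trans hTm)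
        exact ⟨_, a1.le, le_Tend a2 hS h2.2, a3⟩
      · rw [if_neg h2]
        exact ind_nonneg _
    · rw [ind_not (show ¬ R.start σ x b c from hS), zero_mul, sum_eq_zero, mul_zero]
      intro F _
      rw [if_neg (fun h => hS h.1), mul_zero]
  refine h1.trans ?_
  refine R.E3_start_le σ h g fun x b c hS => ?_
  have ho : ∀ x' ∈ (R.ep σ x b c).om0, (R.ep σ x b c).om0 ⊆ D.cA (R.ep σ x b c).t0 x' := by
    intro x' hx' y hy
    have h2 := D.mem_cA.1 (R.om0_sub σ x b c hx')
    have h3 := D.mem_cA.1 (R.om0_sub σ x b c hy)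
    exact D.mem_cA.2 (h3.trans h2.symm)
  unfold Rt.Eb
  rw [avg_comm3 _ _ _ (h (R.ep σ x b c)), avg_comm3 _ _ _ (g (R.ep σ x b c))]
  refine avg_mono fun b' _ => avg_mono fun c' _ => ?_
  rw [hh, hg]
  simp only
  rw [avg_smul]
  exact Rt.strong_VF hB0 ho K b' c' fun x' _ F => T.f_nn _ _ _ _ _

end gain

section mirror

variable {R : Rt D}

theorem Sta_swap (σ : ℕ) (x : X) (b : β) (c : γ) : Sta R.swap σ x c b ↔ Sta R σ x b c := by
  unfold Sta
  rw [R.ep_swap]

theorem Tm_swap (K σ : ℕ) (x : X) (b : β) (c : γ) : Tm R.swap K σ x c b = Tm R K σ x b c := by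
  classical
  unfold Tm
  simp only [Sta_swap, R.ep_swap, R.ST_swap]

theorem Tend_swap (e : Epo X) (K : ℕ) (x : X) (b : β) (c : γ) : R.swap.Tend e K x c b = R.Tend e K x b c := rfl

theorem strF_swap (B : ℝ) (σ t : ℕ) (x : X) (b : β) (c : γ) (G : φ) :
    strF R.swap B σ t x c b G ↔ strG R B σ t x b c G := by
  unfold strF strG
  rw [R.ep_swap, R.toRm_swap, VF_swap]
  exact Iff.rfl

theorem strG_swap (B : ℝ) (σ t : ℕ) (x : X) (b : β) (c : γ) (F : φ) :
    strG R.swap B σ t x c b F ↔ strF R B σ t x b c F := by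
  unfold strF strG
  rw [R.ep_swap, R.toRm_swap, VG_swap]
  exact Iff.rfl

theorem sgF_swap (B : ℝ) (K σ : ℕ) (x : X) (b : β) (c : γ) (G : φ) :
    sgF R.swap B K σ x c b G = sgG R B K σ x b c G := by
  classical
  unfold sgF sgG
  simp only [strF_swap]

theorem sgG_swap (B : ℝ) (K σ : ℕ) (x : X) (b : β) (c : γ) (F : φ) :
    sgG R.swap B K σ x c b F = sgF R B K σ x b c F := by
  classical
  unfold sgF sgG
  simp only [strG_swap]

variable (R) [Fintype β] [Fintype γ] [Fintype φ]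

open Classical in
/-- the row of `(x, c, G)` at `t` -/
def rowG (un : ℕ → X → β → γ → Prop) (ps : X → β → γ → φ → φ → ℝ) (B : ℝ) (σ t : ℕ) (x : X) (b : β) (c : γ) (G : φ) : ℝ :=
  avg (D.cB t b) fun b' => ∑ F, if un t x b' c ∧ ¬ strF R B σ t x b' c F then D.kf σ x b' c F * ps x b' c F G else 0

open Classical in
/-- the loss of the pair `(F, G)` at the end of the epoch: part (B) -/
def lsB (gd : X → β → γ → Prop) (ps : X → β → γ → φ → φ → ℝ) (B : ℝ) (K σ : ℕ) (x : X) (b : β) (c : γ) : ℝ :=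
  ∑ F, ∑ G, if Sta R σ x b c ∧ Tm R K σ x b c ≤ K ∧ gd x b c ∧ sgG R B K σ x b c G ≤ Tm R K σ x b c ∧
    sgG R B K σ x b c G ≤ sgF R B K σ x b c F then D.kf σ x b c F * (D.kg σ x b c G * ps x b c F G) else 0

variable {R}

theorem row_swap (un : ℕ → X → β → γ → Prop) (ps : X → β → γ → φ → φ → ℝ) (B : ℝ) (σ t : ℕ) (x : X) (b : β) (c : γ)
    (G : φ) : row R.swap (fun t x c b => un t x b c) (fun x c b G F => ps x b c F G) B σ t x c b G =
      rowG R un ps B σ t x b c G := by
  classical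
  unfold row rowG
  simp only [strG_swap]
  rfl

theorem lsA_swap (gd : X → β → γ → Prop) (ps : X → β → γ → φ → φ → ℝ) (B : ℝ) (K σ : ℕ) (x : X) (b : β) (c : γ) :
    lsA R.swap (fun x c b => gd x b c) (fun x c b G F => ps x b c F G) B K σ x c b = lsB R gd ps B K σ x b c := by
  classical
  unfold lsA lsB
  rw [sum_comm]
  refine sum_congr rfl fun F _ => sum_congr rfl fun G _ => ?_
  simp only [Sta_swap, Tm_swap, sgF_swap, sgG_swap]
  refine if_congr Iff.rfl ?_ rfl
  show D.kg σ x b c G * (D.kf σ x b c F * ps x b c F G) = _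
  ring

theorem gainF_swap (K σ : ℕ) : gainF R.swap K σ = gainG R K σ := by
  unfold gainF gainG
  refine Eq.trans (E3_congr fun x c b => ?_) (E3_swap _)
  rw [R.ep_swap, R.toRm_swap, VF_swap, Tend_swap]
  by_cases h : R.start σ x b c
  · rw [ind_of h, ind_of ((R.start_swap σ x b c).2 h)]
    rfl
  · rw [ind_not h, ind_not (fun h' => h ((R.start_swap σ x b c).1 h'))]
    rfl

open Classical in
/-- the `g`-part of the loss is paid by the strong letters -/
theorem lossB {al eL lam B M : ℝ} (T : D.Thick al) (hB : 1 ≤ B) (heL : 0 ≤ eL) (hlam : 0 ≤ lam) (hM : 0 ≤ M)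
    {K σ : ℕ} (hK : σ ≤ K) (gd : X → β → γ → Prop) (un : ℕ → X → β → γ → Prop) (ps : X → β → γ → φ → φ → ℝ)
    (hun : ∀ x b c, Sta R σ x b c → Tm R K σ x b c ≤ K → gd x b c → ∀ t, σ ≤ t → t < Tm R K σ x b c → un t x b c)
    (hps : ∀ x b c F G, 0 ≤ ps x b c F G ∧ ps x b c F G ≤ M)
    (hRare : ∀ t x b c G, σ ≤ t → t ≤ K → t < Tm R K σ x b c →
      (((VF R.toRm (R.ep σ x b c) t x b c).filter fun y => lam < rowG R un ps B σ t y b c G).card : ℝ) ≤
        eL * (VF R.toRm (R.ep σ x b c) t x b c).card) :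
    E3 (lsB R gd ps B K σ) ≤
      2 * lam * E3 (fun x b c => ∑ G, D.kg σ x b c G *
        if Sta R σ x b c ∧ sgG R B K σ x b c G ≤ Tm R K σ x b c then (1 : ℝ) else 0) +
      2 * M * (eL / al) * E3 (fun x b c => if Sta R σ x b c then (1 : ℝ) else 0) := by
  have h := lossA (R := R.swap) (thick_swap T) hB heL hlam hM hK (fun x c b => gd x b c)
    (fun t x c b => un t x b c) (fun x c b G F => ps x b c F G)
    (fun x c b h1 h2 h3 t h4 h5 => hun x b c ((Sta_swap _ _ _ _).1 h1) (by rw [← Tm_swap]; exact h2) h3 t h4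
      (by rw [← Tm_swap]; exact h5))
    (fun x c b G F => hps x b c F G)
    (fun t x c b G h1 h2 h3 => by
      have h4 := hRare t x b c G h1 h2 (by rw [← Tm_swap]; exact h3)
      rw [R.ep_swap, R.toRm_swap, VG_swap]
      simp only [row_swap]
      exact h4)
  have e1 : E3 (lsA R.swap (fun x c b => gd x b c) (fun x c b G F => ps x b c F G) B K σ) =
      E3 (lsB R gd ps B K σ) :=
    Eq.trans (E3_congr fun x c b => lsA_swap gd ps B K σ x b c) (E3_swap (lsB R gd ps B K σ))
  have e2 : E3 (fun x c b => ∑ F, D.swap.kf σ x c b F *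
      if Sta R.swap σ x c b ∧ sgF R.swap B K σ x c b F ≤ Tm R.swap K σ x c b then (1 : ℝ) else 0) =
      E3 (fun x b c => ∑ G, D.kg σ x b c G *
        if Sta R σ x b c ∧ sgG R B K σ x b c G ≤ Tm R K σ x b c then (1 : ℝ) else 0) := by
    refine Eq.trans (E3_congr fun x c b => ?_) (E3_swap _)
    simp only [Sta_swap, Tm_swap, sgF_swap]
    rfl
  have e3 : E3 (fun x c b => if Sta R.swap σ x c b then (1 : ℝ) else 0) =
      E3 (fun x b c => if Sta R σ x b c then (1 : ℝ) else 0) := by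
    refine Eq.trans (E3_congr fun x c b => ?_) (E3_swap _)
    simp only [Sta_swap]
  rw [e1, e2, e3] at h
  exact h

open Classical in
theorem gain_sgG {al B : ℝ} (T : D.Thick al) (hB : Real.exp 1 ≤ B) (K σ : ℕ) :
    (Real.log B - 1) * E3 (fun x b c => ∑ G, D.kg σ x b c G *
      if Sta R σ x b c ∧ sgG R B K σ x b c G ≤ Tm R K σ x b c then (1 : ℝ) else 0) ≤ gainG R K σ := by
  have h := gain_sgF (R := R.swap) (thick_swap T) hB K σ
  rw [gainF_swap] at h
  have e2 : E3 (fun x c b => ∑ F, D.swap.kf σ x c b F *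
      if Sta R.swap σ x c b ∧ sgF R.swap B K σ x c b F ≤ Tm R.swap K σ x c b then (1 : ℝ) else 0) =
      E3 (fun x b c => ∑ G, D.kg σ x b c G *
        if Sta R σ x b c ∧ sgG R B K σ x b c G ≤ Tm R K σ x b c then (1 : ℝ) else 0) := by
    refine Eq.trans (E3_congr fun x c b => ?_) (E3_swap _)
    simp only [Sta_swap, Tm_swap, sgF_swap]
    rfl
  rw [e2] at h
  exact h

/-- PARTS (A) AND (B): one start time -/
theorem lossAB {al eL lam B M : ℝ} (T : D.Thick al) (hB : Real.exp 2 ≤ B) (heL : 0 ≤ eL) (hlam : 0 ≤ lam)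
    (hM : 0 ≤ M) {K σ : ℕ} (hK : σ ≤ K) (gd : X → β → γ → Prop) (un : ℕ → X → β → γ → Prop)
    (ps : X → β → γ → φ → φ → ℝ)
    (hun : ∀ x b c, Sta R σ x b c → Tm R K σ x b c ≤ K → gd x b c → ∀ t, σ ≤ t → t < Tm R K σ x b c → un t x b c)
    (hps : ∀ x b c F G, 0 ≤ ps x b c F G ∧ ps x b c F G ≤ M)
    (hRareF : ∀ t x b c F, σ ≤ t → t ≤ K → t < Tm R K σ x b c →
      (((VG R.toRm (R.ep σ x b c) t x b c).filter fun y => lam < row R un ps B σ t y b c F).card : ℝ) ≤
        eL * (VG R.toRm (R.ep σ x b c) t x b c).card)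
    (hRareG : ∀ t x b c G, σ ≤ t → t ≤ K → t < Tm R K σ x b c →
      (((VF R.toRm (R.ep σ x b c) t x b c).filter fun y => lam < rowG R un ps B σ t y b c G).card : ℝ) ≤
        eL * (VF R.toRm (R.ep σ x b c) t x b c).card) :
    E3 (lsA R gd ps B K σ) + E3 (lsB R gd ps B K σ) ≤
      2 * lam * (gainF R K σ + gainG R K σ) + 4 * M * (eL / al) * E3 (fun x b c => ind (R.start σ x b c)) := by
  classical
  have hB1 : 1 ≤ B := (Real.one_le_exp (by norm_num)).trans hB
  have hBe : Real.exp 1 ≤ B := (Real.exp_le_exp.2 (by norm_num)).trans hB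
  have hB0 : 0 < B := (Real.exp_pos 1).trans_le hBe
  have hlog : 1 ≤ Real.log B - 1 := by
    have := (Real.le_log_iff_exp_le hB0).2 hB
    linarith
  have a1 := lossA T hB1 heL hlam hM hK gd un ps hun hps hRareF
  have b1 := lossB T hB1 heL hlam hM hK gd un ps hun hps hRareG
  have a2 := gain_sgF (R := R) T hBe K σ
  have b2 := gain_sgG (R := R) T hBe K σ
  have a3 : 0 ≤ E3 (fun x b c => ∑ F, D.kf σ x b c F *
      if Sta R σ x b c ∧ sgF R B K σ x b c F ≤ Tm R K σ x b c then (1 : ℝ) else 0) :=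
    E3_nonneg fun x b c => sum_nonneg fun F _ => mul_nonneg (T.f_nn _ _ _ _ _) (by split_ifs <;> norm_num)
  have b3 : 0 ≤ E3 (fun x b c => ∑ G, D.kg σ x b c G *
      if Sta R σ x b c ∧ sgG R B K σ x b c G ≤ Tm R K σ x b c then (1 : ℝ) else 0) :=
    E3_nonneg fun x b c => sum_nonneg fun F _ => mul_nonneg (T.g_nn _ _ _ _ _) (by split_ifs <;> norm_num)
  have e1 : E3 (fun x b c => if Sta R σ x b c then (1 : ℝ) else 0) = E3 (fun x b c => ind (R.start σ x b c)) := by
    refine E3_congr fun x b c => ?_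
    by_cases h : Sta R σ x b c
    · rw [ind_of (show R.start σ x b c from h), if_pos h]
    · rw [ind_not (show ¬ R.start σ x b c from h), if_neg h]
  rw [e1] at a1 b1
  have a4 := mul_le_mul_of_nonneg_left (mul_le_mul_of_nonneg_right hlog a3) hlam
  have b4 := mul_le_mul_of_nonneg_left (mul_le_mul_of_nonneg_right hlog b3) hlam
  have a5 := mul_le_mul_of_nonneg_left a2 hlam
  have b5 := mul_le_mul_of_nonneg_left b2 hlam
  nlinarith

end mirror

end

end Pool.Agent.M3.S3B
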