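import Pool.Agent.M3.S3B.LossD
import Pool.Agent.M3.S3B.LossAB
import Pool.Agent.M3.S3.CntChg

/-!
# M3.S3B.LossD2: bad pairs at the end of a normal epoch (note 3448, (4), (6); helper68)

* `Bd R Up N s x b c b' c'` : BAD PAIR of the step `s → s+1`: changed at `s`, or the law of its frozen labels on the half
  step class differs by more than `kap1` from the law on the class `U s`;
* `Bd_pub` : a node event; `bd_avg` : proportion `≤ 4 (kap2 + 4 kap3 / kap1^2)` on the cells of the time `s+1`, if the class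
  is not critical and the proportion of the changed pairs at `s` is `≤ kap2`;
* `Chg_mono`, `Chg_start`; `kf_good`, `kg_good` : the labels of a good pair are the frozen labels;
* `law_good`, `io_good` : the tables of a good pair.
-/

set_option autoImplicit false
set_option linter.unusedSectionVars false

namespace Pool.Agent.M3.S3B

open Finset Pool.Agent.PWZ Pool.Agent.M3 Pool.Agent.M3.S3

noncomputable section

variable {X β γ ι φ : Type*} [Fintype X] [Fintype β] [Fintype γ] [Fintype φ] {D : Dat X β γ ι φ}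

/-- bad pair of the step `s → s+1` -/
def Bd (R : Rt D) (Up : Upd D) (N : Nb) (s : ℕ) (x : X) (b : β) (c : γ) (b' : β) (c' : γ) : Prop :=
  Chg Up N (R.ep s x b c) s x b c b' c' ∨ ∃ F G, N.kap1 <
    |pl D (R.ep s x b c).t0 b c (R.hf s x b c) b' c' F G - pl D (R.ep s x b c).t0 b c (R.U s x b c) b' c' F G|

variable {R : Rt D} {Up : Upd D} {N : Nb}

theorem hlf_UD (s : ℕ) (x : X) (b : β) (c : γ) : hlf D R.U s x b c = R.hf s x b c := by
  ext y
  rw [mem_hlf]
  unfold Rt.U Rt.hf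
  rw [mem_W, mem_W]
  constructor
  · rintro ⟨⟨h1, h2⟩, h3⟩
    exact ⟨h1, h3⟩
  · rintro ⟨h1, h3⟩
    exact ⟨⟨h1, D.ra s _ _ h3⟩, h3⟩

theorem hf_pubD {s : ℕ} {x x' : X} {b b' : β} {c c' : γ} (hS : D.Same s x b c x' b' c')
    (hq : D.qa (s + 1) x = D.qa (s + 1) x') (hx : x' ∈ R.U s x b c) : R.hf s x' b' c' = R.hf s x b c := by
  unfold Rt.hf
  rw [(R.pub s hS hx).1, W_congr hq]

/-- bad pairs are a node event -/
theorem Bd_pub {s : ℕ} {x x' : X} {b b' : β} {c c' : γ} (hS : D.Same s x b c x' b' c')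
    (hq : D.qa (s + 1) x = D.qa (s + 1) x') (hx : x' ∈ R.U s x b c) : Bd R Up N s x' b' c' = Bd R Up N s x b c := by
  funext b1 c1
  unfold Bd
  have h0 := R.t0_le s x b c
  rw [hf_pubD hS hq hx, (R.pub s hS hx).2, (R.pub s hS hx).1, Chg_inv h0 hS,
    pl_inv (D.qb_le h0 hS.2.1) (D.qc_le h0 hS.2.2), pl_inv (D.qb_le h0 hS.2.1) (D.qc_le h0 hS.2.2)]

/-! ## changed pairs -/

theorem W_t0 {e : Epo X} {x : X} (h : e.om0 ⊆ D.cA e.t0 x) : W D e e.t0 x = e.om0 := by
  ext y
  rw [mem_W]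
  exact ⟨fun h1 => h1.1, fun h1 => ⟨h1, D.mem_cA.1 (h h1)⟩⟩

/-- no pair is changed at the start -/
theorem Chg_start {e : Epo X} {x : X} {b : β} {c : γ} (h : e.om0 ⊆ D.cA e.t0 x) (hk : 0 ≤ N.kap1) (b' : β) (c' : γ) :
    ¬ Chg Up N e e.t0 x b c b' c' := by
  unfold Chg
  rintro (h1 | ⟨r, h1, h2, F, G, h3⟩)
  · unfold upd at h1
    rcases h1 with h1 | h1 <;> exact h1 rfl
  · have : r = e.t0 := by omega
    subst this
    rw [W_t0 h, sub_self, abs_zero] at h3
    linarith

/-- changed pairs remain changed -/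
theorem Chg_mono {K : ℕ} {J : ℝ} (hU : UpdOk D Up K J) {e : Epo X} {t t' : ℕ} (h0 : e.t0 ≤ t) (h : t ≤ t') {x : X}
    {b : β} {c : γ} {b' : β} {c' : γ} (h1 : Chg Up N e t x b c b' c') : Chg Up N e t' x b c b' c' := by
  unfold Chg at h1 ⊢
  rcases h1 with h1 | ⟨r, h1, h2, h3⟩
  · left
    unfold upd at h1 ⊢
    rcases h1 with h1 | h1
    · left
      have a1 := hU.cf_le h0 x b' c
      have a2 := hU.cf_le h x b' c
      omega
    · right
      have a1 := hU.cg_le h0 x b c'
      have a2 := hU.cg_le h x b c'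
      omega
  · exact Or.inr ⟨r, h1, h2.trans h, h3⟩

theorem kf_unch {K : ℕ} {J : ℝ} (hU : UpdOk D Up K J) {e : Epo X} {t : ℕ} (h0 : e.t0 ≤ t) {x : X}
    {b : β} {c : γ} {b' : β} {c' : γ} (h1 : ¬ Chg Up N e t x b c b' c') {y : X} (hy : D.qa t y = D.qa t x) :
    D.kf t y b' c = D.kf e.t0 y b' c ∧ D.kg t y b c' = D.kg e.t0 y b c' := by
  have h2 : ¬ upd Up e t x b c b' c' := fun h => h1 (Or.inl h)
  unfold upd at h2
  push Not at h2
  exact ⟨hU.kf_eq h0 h2.1 hy, hU.kg_eq h0 h2.2 hy⟩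

/-- the labels of a good pair are the frozen labels -/
theorem kf_good {K : ℕ} {J : ℝ} (hU : UpdOk D Up K J) {s : ℕ} {x : X} {b : β} {c : γ}
    (h1 : ¬ Bd R Up N s x b c b c) {y : X} (hy : D.qa s y = D.qa s x) :
    D.kf s y b c = D.kf (R.ep s x b c).t0 y b c ∧ D.kg s y b c = D.kg (R.ep s x b c).t0 y b c :=
  kf_unch hU (R.t0_le s x b c) (fun h => h1 (Or.inl h)) hy

theorem pl_good {s : ℕ} {x : X} {b : β} {c : γ} (h1 : ¬ Bd R Up N s x b c b c) (F G : φ) :
    |pl D (R.ep s x b c).t0 b c (R.hf s x b c) b c F G - pl D (R.ep s x b c).t0 b c (R.ep s x b c).om0 b c F G| ≤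
      2 * N.kap1 := by
  unfold Bd at h1
  push Not at h1
  obtain ⟨h2, h3⟩ := h1
  unfold Chg at h2
  push Not at h2
  have h4 := h2.2 s (R.t0_le s x b c) le_rfl F G
  have h5 := h3 F G
  have h6 : W D (R.ep s x b c) s x = R.U s x b c := rfl
  rw [h6] at h4
  calc _ = |(pl D (R.ep s x b c).t0 b c (R.hf s x b c) b c F G - pl D (R.ep s x b c).t0 b c (R.U s x b c) b c F G) +
      (pl D (R.ep s x b c).t0 b c (R.U s x b c) b c F G - pl D (R.ep s x b c).t0 b c (R.ep s x b c).om0 b c F G)| := by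
        congr 1; ring
    _ ≤ _ := (abs_add_le _ _).trans (by linarith)

/-! ## proportion of the bad pairs -/

theorem avg_half {α : Type*} {S S' : Finset α} (hS : S' ⊆ S) (hne : S'.Nonempty) (hc : (S.card : ℝ) ≤ 2 * S'.card)
    {f : α → ℝ} (h0 : ∀ a, 0 ≤ f a) : avg S' f ≤ 2 * avg S f := by
  have h1 : (0 : ℝ) < S'.card := by exact_mod_cast Finset.card_pos.2 hne
  have h2 : (0 : ℝ) < S.card := by exact_mod_cast Finset.card_pos.2 (hne.mono hS)
  unfold avg
  rw [div_le_iff₀ h1]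
  have h3 : ∑ a ∈ S', f a ≤ ∑ a ∈ S, f a := Finset.sum_le_sum_of_subset_of_nonneg hS fun a _ _ => h0 a
  have h4 : 0 ≤ (∑ a ∈ S, f a) / (S.card : ℝ) := div_nonneg (Finset.sum_nonneg fun a _ => h0 a) h2.le
  calc ∑ a ∈ S', f a ≤ ∑ a ∈ S, f a := h3
    _ = (∑ a ∈ S, f a) / (S.card : ℝ) * S.card := by rw [div_mul_cancel₀ _ h2.ne']
    _ ≤ (∑ a ∈ S, f a) / (S.card : ℝ) * (2 * S'.card) := mul_le_mul_of_nonneg_left hc h4
    _ = _ := by ring

/-- the cells of the known points are halved or unchanged -/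
structure Halv (D : Dat X β γ ι φ) (s : ℕ) : Prop where
  B : ∀ b, ((D.cB s b).card : ℝ) ≤ 2 * (D.cB (s + 1) b).card
  C : ∀ c, ((D.cC s c).card : ℝ) ≤ 2 * (D.cC (s + 1) c).card

theorem Halv.of {s : ℕ} (hB : (∀ b, D.cB (s + 1) b = D.cB s b) ∨ ∀ b, 2 * (D.cB (s + 1) b).card = (D.cB s b).card)
    (hC : (∀ c, D.cC (s + 1) c = D.cC s c) ∨ ∀ c, 2 * (D.cC (s + 1) c).card = (D.cC s c).card) : Halv D s := by
  constructor
  · intro b
    rcases hB with h | h
    · rw [h b]
      have : (0 : ℝ) ≤ (D.cB s b).card := Nat.cast_nonneg _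
      linarith
    · rw [← h b]; push_cast; exact le_rfl
  · intro c
    rcases hC with h | h
    · rw [h c]
      have : (0 : ℝ) ≤ (D.cC s c).card := Nat.cast_nonneg _
      linarith
    · rw [← h c]; push_cast; exact le_rfl

theorem av2_step {s : ℕ} (hH : Halv D s) (b : β) (c : γ) {f : β → γ → ℝ} (h0 : ∀ b c, 0 ≤ f b c) :
    av2 D (s + 1) b c f ≤ 4 * av2 D s b c f := by
  unfold av2
  have h1 : ∀ b', avg (D.cC (s + 1) c) (fun c' => f b' c') ≤ 2 * avg (D.cC s c) fun c' => f b' c' := fun b' =>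
    avg_half (D.cC_mono (Nat.le_succ s) c) ⟨c, D.self_cC (s + 1) c⟩ (hH.C c) (fun c' => h0 b' c')
  have h2 : avg (D.cB (s + 1) b) (fun b' => avg (D.cC (s + 1) c) fun c' => f b' c') ≤
      avg (D.cB (s + 1) b) fun b' => 2 * avg (D.cC s c) fun c' => f b' c' := by
    unfold avg
    refine div_le_div_of_nonneg_right (Finset.sum_le_sum fun b' _ => ?_) (Nat.cast_nonneg _)
    exact h1 b'
  have h3 : avg (D.cB (s + 1) b) (fun b' => 2 * avg (D.cC s c) fun c' => f b' c') ≤
      2 * avg (D.cB s b) fun b' => 2 * avg (D.cC s c) fun c' => f b' c' :=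
    avg_half (D.cB_mono (Nat.le_succ s) b) ⟨b, D.self_cB (s + 1) b⟩ (hH.B b)
      (fun b' => mul_nonneg (by norm_num) (div_nonneg (Finset.sum_nonneg fun c' _ => h0 b' c') (Nat.cast_nonneg _)))
  simp only [avg_smul] at h2 h3
  linarith

/-- the half step class is at least a quarter of a class which is not biased -/
theorem quarterD {dg : ℕ → X → ℝ} {s : ℕ} (hdg : ∀ x, dg s x = 1 ∨ dg s x = -1)
    (hcell : ∀ x x', D.qa (s + 1) x = D.qa (s + 1) x' ↔ D.qa s x = D.qa s x' ∧ dg s x = dg s x')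
    {x : X} {b : β} {c : γ} (hm : |mB dg s (R.U s x b c)| ≤ 1 / 2) :
    ((R.U s x b c).card : ℝ) ≤ 4 * (R.hf s x b c).card := by
  classical
  set V := R.U s x b c with hV
  have hne : V.Nonempty := ⟨x, R.self_U s x b c⟩
  have hc : (0 : ℝ) < V.card := by exact_mod_cast Finset.card_pos.2 hne
  have e1 : R.hf s x b c = V.filter fun y => dg s y = dg s x := by
    rw [← hlf_UD]
    ext y
    rw [mem_hlf, mem_filter]
    refine and_congr_right fun hy => ?_
    rw [hcell]
    exact ⟨fun h => h.2, fun h => ⟨(D.mem_cA.1 (R.U_sub s x b c hy)), h⟩⟩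
  have e2 : ((V.filter fun y => dg s y = dg s x).card : ℝ) = (V.card + dg s x * ∑ y ∈ V, dg s y) / 2 := by
    have h1 : ∀ y ∈ V, (if dg s y = dg s x then (1 : ℝ) else 0) = (1 + dg s x * dg s y) / 2 := by
      intro y _
      rcases hdg x with h | h <;> rcases hdg y with h' | h' <;> rw [h, h'] <;> norm_num
    rw [Finset.card_filter]
    push_cast
    rw [Finset.sum_congr rfl h1, ← Finset.sum_div, Finset.sum_add_distrib, ← Finset.mul_sum, Finset.sum_const,
      nsmul_eq_mul, mul_one]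
  unfold mB avg at hm
  rw [abs_le, div_le_iff₀ hc, le_div_iff₀ hc] at hm
  rw [e1, e2]
  rcases hdg x with h | h <;> rw [h] <;> linarith [hm.1, hm.2]

/-- PROPORTION OF THE BAD PAIRS on the cells of the time `s+1` -/
theorem bd_avg {K : ℕ} {J : ℝ} (hU : UpdOk D Up K J) {dg : ℕ → X → ℝ} {s : ℕ} (hdg : ∀ x, dg s x = 1 ∨ dg s x = -1)
    (hcell : ∀ x x', D.qa (s + 1) x = D.qa (s + 1) x' ↔ D.qa s x = D.qa s x' ∧ dg s x = dg s x')
    (hH : Halv D s) {x : X} {b : β} {c : γ} (hk : 0 < N.kap1)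
    (hi : (av2 D s b c fun b' c' => ind (Chg Up N (R.ep s x b c) s x b c b' c')) ≤ N.kap2)
    (hm : |mB dg s (R.U s x b c)| ≤ 1 / 2) (hv : VB D s b c (R.U s x b c) < N.kap3) :
    (av2 D (s + 1) b c fun b' c' => ind (Bd R Up N s x b c b' c')) ≤ 4 * (N.kap2 + 4 * N.kap3 / N.kap1 ^ 2) := by
  classical
  refine (av2_step hH b c (fun b c => ind_nonneg _)).trans ?_
  refine mul_le_mul_of_nonneg_left ?_ (by norm_num)
  set e := R.ep s x b c with he
  set V := R.U s x b c with hV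
  set V' := R.hf s x b c with hV'
  have hk2 : 0 < N.kap1 ^ 2 := pow_pos hk 2
  have hV'V : V' ⊆ V := R.hf_sub_U s x b c
  have hne : V.Nonempty := ⟨x, R.self_U s x b c⟩
  have hc : (0 : ℝ) < V.card := by exact_mod_cast Finset.card_pos.2 hne
  have hq := quarterD (R := R) hdg hcell hm
  -- pointwise: the indicator of a bad pair
  have hpt : ∀ b' c', ind (Bd R Up N s x b c b' c') ≤ ind (Chg Up N e s x b c b' c') +
      4 / N.kap1 ^ 2 * avg V fun y => dst D s b c (V ∩ D.cA (s + 1) y) V b' c' := by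
    intro b' c'
    have hd0 : 0 ≤ avg V fun y => dst D s b c (V ∩ D.cA (s + 1) y) V b' c' :=
      div_nonneg (Finset.sum_nonneg fun y _ => dst_nonneg _ _ _ _ _ _ _) hc.le
    have hd1 : 0 ≤ 4 / N.kap1 ^ 2 * avg V fun y => dst D s b c (V ∩ D.cA (s + 1) y) V b' c' :=
      mul_nonneg (by positivity) hd0
    by_cases h1 : Chg Up N e s x b c b' c'
    · rw [ind_of h1]
      have := ind_le_one (Bd R Up N s x b c b' c')
      linarith
    by_cases h2 : Bd R Up N s x b c b' c'
    · rw [ind_of h2, ind_not h1, zero_add]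
      obtain ⟨F, G, h3⟩ : ∃ F G, N.kap1 < |pl D e.t0 b c V' b' c' F G - pl D e.t0 b c V b' c' F G| := by
        rcases h2 with h2 | h2
        · exact absurd h2 h1
        · exact h2
      -- frozen labels = current labels on the class
      have hpl : ∀ W : Finset X, W ⊆ V → ∀ F G, pl D e.t0 b c W b' c' F G = pl D s b c W b' c' F G := by
        intro W hW F G
        unfold pl avg
        congr 1
        refine Finset.sum_congr rfl fun y hy => ?_
        have h4 := kf_unch hU (R.t0_le s x b c) h1 (D.mem_cA.1 (R.U_sub s x b c (hW hy)))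
        beta_reduce
        rw [h4.1, h4.2]
      rw [hpl V' hV'V, hpl V Subset.rfl] at h3
      have h5 : N.kap1 ^ 2 ≤ dst D s b c V' V b' c' := by
        have h6 : N.kap1 ^ 2 ≤ (pl D s b c V' b' c' F G - pl D s b c V b' c' F G) ^ 2 := by
          rw [← sq_abs (pl D s b c V' b' c' F G - pl D s b c V b' c' F G)]
          exact pow_le_pow_left₀ hk.le h3.le 2
        refine h6.trans ?_
        unfold dst
        refine (Finset.single_le_sum (f := fun G => (pl D s b c V' b' c' F G - pl D s b c V b' c' F G) ^ 2)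
          (fun G _ => sq_nonneg _) (Finset.mem_univ G)).trans ?_
        exact Finset.single_le_sum (f := fun F => ∑ G, (pl D s b c V' b' c' F G - pl D s b c V b' c' F G) ^ 2)
          (fun F _ => Finset.sum_nonneg fun G _ => sq_nonneg _) (Finset.mem_univ F)
      have h7 : (V'.card : ℝ) * dst D s b c V' V b' c' ≤ ∑ y ∈ V, dst D s b c (V ∩ D.cA (s + 1) y) V b' c' := by
        have h8 : ∀ y ∈ V', V ∩ D.cA (s + 1) y = V' := by
          intro y hy
          have h9 := D.mem_cA.1 (R.hf_sub s x b c hy)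
          rw [hV', ← hlf_UD]
          ext z
          rw [mem_inter, D.mem_cA, mem_hlf, h9]
        calc (V'.card : ℝ) * dst D s b c V' V b' c' = ∑ y ∈ V', dst D s b c (V ∩ D.cA (s + 1) y) V b' c' := by
              rw [Finset.sum_congr rfl fun y hy => by rw [h8 y hy], Finset.sum_const, nsmul_eq_mul]
          _ ≤ _ := Finset.sum_le_sum_of_subset_of_nonneg hV'V fun y _ _ => dst_nonneg _ _ _ _ _ _ _
      unfold avg
      rw [div_mul_div_comm, le_div_iff₀ (mul_pos hk2 hc), one_mul]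
      nlinarith
    · rw [ind_not h2, ind_not h1]
      linarith
  have h1 : (av2 D s b c fun b' c' => ind (Bd R Up N s x b c b' c')) ≤
      av2 D s b c fun b' c' => ind (Chg Up N e s x b c b' c') +
        4 / N.kap1 ^ 2 * avg V fun y => dst D s b c (V ∩ D.cA (s + 1) y) V b' c' := by
    unfold av2 avg
    refine div_le_div_of_nonneg_right (Finset.sum_le_sum fun b' _ => ?_) (Nat.cast_nonneg _)
    refine div_le_div_of_nonneg_right (Finset.sum_le_sum fun c' _ => ?_) (Nat.cast_nonneg _)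
    exact hpt b' c'
  refine h1.trans ?_
  have h2 : (av2 D s b c fun b' c' => ind (Chg Up N e s x b c b' c') +
        4 / N.kap1 ^ 2 * avg V fun y => dst D s b c (V ∩ D.cA (s + 1) y) V b' c') =
      (av2 D s b c fun b' c' => ind (Chg Up N e s x b c b' c')) + 4 / N.kap1 ^ 2 * VB D s b c V := by
    unfold VB av2
    simp only [avg_add, avg_smul]
  rw [h2]
  have h3 : 4 / N.kap1 ^ 2 * VB D s b c V ≤ 4 / N.kap1 ^ 2 * N.kap3 :=
    mul_le_mul_of_nonneg_left hv.le (by positivity)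
  have h4 : 4 / N.kap1 ^ 2 * N.kap3 = 4 * N.kap3 / N.kap1 ^ 2 := by ring
  linarith

end

end Pool.Agent.M3.S3B
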