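import Pool.Agent.M3.S3B.Main
import Pool.Agent.M3.S3B.Cut
import Pool.Agent.M3.S3B.LossD2

/-!
# M3.S3B.PsiP: the psi part of the loss of the splits (note 3448 (6), parts (A) + (B) + (C) together; helper63)

* `gdO R Up N s` : the own pair is good for the step `s → s+1`; `gdS_inv`, `gdO_hf`, `gdO_un`, `un0_inv` : invariance;
* `bits_le`, `tests_le` : the logarithms and the number of the tests;
* `psi_part` : under `StSat`, `StRow`, `StRowT`, `StGain`, `StBits`, `StNum`:
  `∑_s E3 (1[test] psG) ≤ lam (4 Lam + 2 A / n) + 5 log (1/al) (exp (-L) / al) Nn`, `lam = (L + 1)/n + 20 (4/d) e0`.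
-/

set_option autoImplicit false
set_option linter.unusedSectionVars false

namespace Pool.Agent.M3.S3B

open Finset Pool.Agent.PWZ Pool.Agent.M3 Pool.Agent.M3.S3

noncomputable section

variable {X β γ ι φ : Type*} [Fintype X] [Fintype β] [Fintype γ] [Fintype φ] {D : Dat X β γ ι φ}

/-- the own pair is good for the step `s → s+1` -/
def gdO (R : Rt D) (Up : Upd D) (N : Nb) (s : ℕ) (x : X) (b : β) (c : γ) : Prop :=
  gdS Up N (R.ep s x b c) s x b c b c

variable {R : Rt D} {Up : Upd D} {N : Nb}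

theorem gdS_inv {e : Epo X} {s : ℕ} (h : e.t0 ≤ s) {x x' : X} {b b' : β} {c c' : γ} (hS : D.Same s x b c x' b' c')
    (hq : D.qa (s + 1) x = D.qa (s + 1) x') : gdS Up N e s x b c = gdS Up N e s x' b' c' := by
  funext b1 c1
  unfold gdS
  rw [Chg_inv h hS, W_congr hq, W_congr hS.1, pl_inv (D.qb_le h hS.2.1) (D.qc_le h hS.2.2),
    pl_inv (D.qb_le h hS.2.1) (D.qc_le h hS.2.2)]

theorem gdO_hf {s : ℕ} {x x' : X} {b : β} {c : γ} (hx : x' ∈ R.hf s x b c) :
    gdO R Up N s x' b c ↔ gdO R Up N s x b c := by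
  have hq : D.qa (s + 1) x = D.qa (s + 1) x' := (D.mem_cA.1 (R.hf_sub s x b c hx)).symm
  have hS : D.Same s x b c x' b c := ⟨D.qa_le (Nat.le_succ s) hq, rfl, rfl⟩
  unfold gdO
  rw [(R.hf_nd s hS hx).1, gdS_inv (R.t0_le s x b c) hS hq]

/-- good at the end: unchanged at all times of the epoch -/
theorem gdO_un {K' : ℕ} {J : ℝ} (hU : UpdOk D Up K' J) {K σ : ℕ} {x : X} {b : β} {c : γ} (hS : Sta R σ x b c)
    (hK : Tm R K σ x b c ≤ K) (hg : gdT R (gdO R Up N) K σ x b c) {t : ℕ} (h1 : σ ≤ t) (h2 : t < Tm R K σ x b c) :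
    un0 R Up N σ t x b c := by
  have h3 : σ ≤ Tm R K σ x b c - 1 := by omega
  have h4 : ¬ R.ST (R.ep σ x b c) (Tm R K σ x b c - 1) x b c := by
    intro h5
    have h6 : Tm R K σ x b c - 1 ≤ K := by omega
    have h7 := (Tm_le_iff (R := R) h3 h6 x b c).2 fun _ => h5
    omega
  have h5 := R.ep_const h3 h4
  unfold gdT gdO at hg
  rw [h5] at hg
  unfold un0
  intro h6
  have hS' : (R.ep σ x b c).t0 = σ := hS
  exact hg.1 (Chg_mono hU (by rw [hS']; exact h1) (by omega) h6)

theorem un0_inv {σ t : ℕ} {x y : X} {b : β} {c : γ} (h : σ ≤ t) (hy : y ∈ (R.ep σ x b c).om0)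
    (hq : D.qa t y = D.qa t x) : un0 R Up N σ t y b c ↔ un0 R Up N σ t x b c := by
  have hS : D.Same t x b c y b c := ⟨hq.symm, rfl, rfl⟩
  unfold un0
  rw [ep_same h hS hy, Chg_inv ((R.t0_le σ x b c).trans h) hS]

/-- the logarithms at the tests are bits -/
theorem bits_le (K : ℕ) : ∑ s ∈ range K, E3 (fun x b c => ind (R.tt (R.ep s x b c) (s + 1) x b c) *
    Real.log (((VF R.toRm (R.ep s x b c) (s + 1) x b c).card : ℝ) / (R.U (s + 1) x b c).card)) ≤ btB R K := by
  unfold btB
  have h0 : 0 ≤ E3 (fun x b c => Real.log (((D.cA 0 x).card : ℝ) / (R.U 0 x b c).card)) := by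
    refine E3_nonneg fun x b c => ?_
    have h1 : (0 : ℝ) < (R.U 0 x b c).card := by exact_mod_cast Finset.card_pos.2 ⟨x, R.self_U 0 x b c⟩
    have h2 : ((R.U 0 x b c).card : ℝ) ≤ (D.cA 0 x).card := by
      exact_mod_cast Finset.card_le_card (R.U_sub 0 x b c)
    exact Real.log_nonneg ((one_le_div h1).2 h2)
  have h1 : ∑ s ∈ range K, E3 (fun x b c => ind (R.tt (R.ep s x b c) (s + 1) x b c) *
      Real.log (((VF R.toRm (R.ep s x b c) (s + 1) x b c).card : ℝ) / (R.U (s + 1) x b c).card)) ≤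
      ∑ s ∈ range K, E3 fun x b c => Real.log (((R.hf s x b c).card : ℝ) / (R.U (s + 1) x b c).card) := by
    refine Finset.sum_le_sum fun s _ => E3_mono fun x b c => ?_
    have h1 : (0 : ℝ) < (R.U (s + 1) x b c).card := by
      exact_mod_cast Finset.card_pos.2 ⟨x, R.self_U (s + 1) x b c⟩
    have h2 : ((R.U (s + 1) x b c).card : ℝ) ≤ (R.hf s x b c).card := by
      exact_mod_cast Finset.card_le_card (R.U_sub_hf s x b c)
    have h3 : 0 ≤ Real.log (((R.hf s x b c).card : ℝ) / (R.U (s + 1) x b c).card) :=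
      Real.log_nonneg ((one_le_div h1).2 h2)
    have h4 : VF R.toRm (R.ep s x b c) (s + 1) x b c ⊆ R.hf s x b c :=
      VF_W R.toRm (R.self_om0 s x b c) (R.om0_sub s x b c) (s + 1) ((R.t0_le s x b c).trans (Nat.le_succ s)) b c
    have h5 : (0 : ℝ) < (VF R.toRm (R.ep s x b c) (s + 1) x b c).card := by
      exact_mod_cast Finset.card_pos.2 ⟨x, VF_self R.toRm (R.self_om0 s x b c) (s + 1) b c⟩
    have h6 : ((VF R.toRm (R.ep s x b c) (s + 1) x b c).card : ℝ) ≤ (R.hf s x b c).card := by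
      exact_mod_cast Finset.card_le_card h4
    by_cases ht : R.tt (R.ep s x b c) (s + 1) x b c
    · rw [ind_of ht, one_mul]
      exact Real.log_le_log (div_pos h5 h1) (div_le_div_of_nonneg_right h6 h1.le)
    · rw [ind_not ht, zero_mul]
      exact h3
  linarith

/-- the number of the tests -/
theorem tests_le (K : ℕ) : ∑ s ∈ range K, E3 (fun x b c => ind (R.tt (R.ep s x b c) (s + 1) x b c)) ≤ nst R K := by
  unfold nst
  rw [← E3_finsum, ← E3_finsum]
  refine E3_mono fun x b c => ?_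
  refine le_trans (Finset.sum_le_sum fun s hs => ?_)
    (sum_tests (R := R) K x b c (h := fun σ => ind (R.start σ x b c)) fun σ => ind_nonneg _)
  by_cases ht : R.tt (R.ep s x b c) (s + 1) x b c
  · have h1 : R.start (R.ep s x b c).t0 x b c := (Tm_test (K := K) (mem_range.1 hs) ht).1
    simp only [ind_of ht, ind_of h1, mul_one, le_refl]
  · simp only [ind_not ht, zero_mul, le_refl]

/-- THE PSI PART OF THE LOSS OF THE SPLITS -/
theorem psi_part {n al d e0 L Lam A Nn J : ℝ} {K K' : ℕ} (hR : R.toRm = rmB D n) (T : D.Thick al) (hal : al ≤ 1)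
    (hn : 0 < n) (hd : 0 < d) (hL : 0 ≤ L) (he : 0 ≤ e0) (hU : UpdOk D Up K' J) (hSat : StSat R K (1 / n))
    (hRow : StRow R Up N K e0) (hRowT : StRowT R Up N K e0) (hG : StGain R K Lam) (hBt : StBits R K A)
    (hNum : StNum R K Nn) {stF stG : ℕ → X → β → γ → φ → Prop}
    (hst : ∀ s < K, ∀ x b c F, R.tt (R.ep s x b c) (s + 1) x b c → gdO R Up N s x b c →
      D.kf (R.ep s x b c).t0 x b c F ≠ 0 → stF s x b c F →
      law (VF R.toRm (R.ep s x b c) (s + 1) x b c) (fun z => D.kf (R.ep s x b c).t0 z b c) F ≤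
        20 * law (R.ep s x b c).om0 (fun z => D.kf (R.ep s x b c).t0 z b c) F →
      18 * law (VF R.toRm (R.ep s x b c) (s + 1) x b c) (fun z => D.kf (R.ep s x b c).t0 z b c) F <
        law (R.U (s + 1) x b c) (fun z => D.kf (R.ep s x b c).t0 z b c) F) :
    ∑ s ∈ range K, E3 (fun x b c => ind (R.tt (R.ep s x b c) (s + 1) x b c) *
      psG R d (gdO R Up N) stF stG s x b c) ≤
      (1 / n * (L + 1) + 20 * (4 / d) * e0) * (4 * Lam + 2 * A / n) +
        5 * (Real.log (1 / al) * (Real.exp (-L) / al)) * Nn := by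
  have hal0 := T.pos
  set lam := 1 / n * (L + 1) + 20 * (4 / d) * e0 with hlam
  have hlam0 : 0 ≤ lam := by positivity
  set M := Real.log (1 / al) * (Real.exp (-L) / al) with hM
  have hM0 : 0 ≤ M := by
    have : 0 ≤ Real.log (1 / al) := Real.log_nonneg (by rw [le_div_iff₀ hal0, one_mul]; exact hal)
    positivity
  have hlog : 2 ≤ Real.log 18 := by
    rw [Real.le_log_iff_exp_le (by norm_num)]
    have h1 : Real.exp 1 < 2.7182818286 := Real.exp_one_lt_d9
    have h2 : Real.exp 2 = Real.exp 1 * Real.exp 1 := by rw [← Real.exp_add]; norm_num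
    rw [h2]
    nlinarith [Real.exp_pos 1]
  have hexp : Real.exp 2 ≤ 20 := by
    have h1 := (Real.le_log_iff_exp_le (by norm_num : (0 : ℝ) < 18)).1 hlog
    linarith
  have h1 := cut_sum (R := R) (A := 18) (B := 20) (d := d) T (gd := gdO R Up N) (stF := stF) (stG := stG) hst
  have h2 : ∑ σ ∈ range K, (E3 (lsA R (gdT R (gdO R Up N) K σ) (ps0 R T d σ) 20 K σ) +
      E3 (lsB R (gdT R (gdO R Up N) K σ) (ps0 R T d σ) 20 K σ)) ≤ lam * (4 * Lam) + 4 * M * Nn := by
    have h3 : ∀ σ ∈ range K, E3 (lsA R (gdT R (gdO R Up N) K σ) (ps0 R T d σ) 20 K σ) +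
        E3 (lsB R (gdT R (gdO R Up N) K σ) (ps0 R T d σ) 20 K σ) ≤
        2 * lam * (gainF R K σ + gainG R K σ) + 4 * M * E3 (fun x b c => ind (R.start σ x b c)) := by
      intro σ hσ
      have hσ' := mem_range.1 hσ
      have h4 := lossAB0 (R := R) (T := T) (d := d) (L := L) (sig := 1 / n) (e0 := e0) (B := 20) hal hexp hd
        (by positivity) hL he hσ'.le (gdT R (gdO R Up N) K σ) (un0 R Up N σ)
        (fun x b c hS hK hg t ht1 ht2 => gdO_un hU hS hK hg ht1 ht2)
        (fun t x y b c ht hy hq => un0_inv ht hy hq)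
        (hSat σ hσ').1 (hRow σ hσ').1 (hSat σ hσ').2 (hRow σ hσ').2
      refine h4.trans (le_of_eq ?_)
      rw [hM, hlam]
      ring
    refine (Finset.sum_le_sum h3).trans ?_
    rw [Finset.sum_add_distrib, ← Finset.mul_sum, ← Finset.mul_sum, Finset.sum_add_distrib]
    have h5 := hG.1
    have h6 := hG.2
    have h7 : ∑ σ ∈ range K, E3 (fun x b c => ind (R.start σ x b c)) ≤ Nn := hNum
    have h8 := mul_le_mul_of_nonneg_left (add_le_add h5 h6) (by positivity : (0 : ℝ) ≤ 2 * lam)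
    have h9 := mul_le_mul_of_nonneg_left h7 (by positivity : (0 : ℝ) ≤ 4 * M)
    linarith
  have h3 := lossC_sum (R := R) (A := 18) (B := 20) (d := d) (e0 := e0) (L := L) hR T hn (by linarith) (by norm_num)
    (by norm_num) hd hL he K (gd := gdO R Up N) (fun s _ x b c x' hx' => gdO_hf hx') ?_
  · have hb := (bits_le (R := R) K).trans hBt
    have ht := (tests_le (R := R) K).trans hNum
    have hb0 : 0 ≤ ∑ s ∈ range K, E3 (fun x b c => ind (R.tt (R.ep s x b c) (s + 1) x b c) *
        Real.log (((VF R.toRm (R.ep s x b c) (s + 1) x b c).card : ℝ) / (R.U (s + 1) x b c).card)) := by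
      refine Finset.sum_nonneg fun s _ => E3_nonneg fun x b c => ?_
      by_cases ht : R.tt (R.ep s x b c) (s + 1) x b c
      · rw [ind_of ht, one_mul]
        have h1 : (0 : ℝ) < (R.U (s + 1) x b c).card := by
          exact_mod_cast Finset.card_pos.2 ⟨x, R.self_U (s + 1) x b c⟩
        have h2 : R.U (s + 1) x b c ⊆ VF R.toRm (R.ep s x b c) (s + 1) x b c := by
          intro y hy
          rw [R.U_new ht] at hy
          exact (R.mem_jn.1 (R.fin_sub hy)).1
        have h3 : ((R.U (s + 1) x b c).card : ℝ) ≤ (VF R.toRm (R.ep s x b c) (s + 1) x b c).card := by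
          exact_mod_cast Finset.card_le_card h2
        exact Real.log_nonneg ((one_le_div h1).2 h3)
      · rw [ind_not ht, zero_mul]
    have hA0 : 0 ≤ A := hb0.trans hb
    have h4 : 2 * (1 / n) / (Real.log 18 - 1) ≤ 2 * (1 / n) := by
      rw [div_le_iff₀ (by linarith)]
      have : 0 ≤ 2 * (1 / n) := by positivity
      nlinarith
    have h5 : lam * (2 * (1 / n) / (Real.log 18 - 1)) *
        (∑ s ∈ range K, E3 (fun x b c => ind (R.tt (R.ep s x b c) (s + 1) x b c) *
          Real.log (((VF R.toRm (R.ep s x b c) (s + 1) x b c).card : ℝ) / (R.U (s + 1) x b c).card))) ≤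
        lam * (2 * (1 / n)) * A := by
      have h6 : 0 ≤ lam * (2 * (1 / n)) := by positivity
      calc _ ≤ lam * (2 * (1 / n)) * (∑ s ∈ range K, E3 (fun x b c => ind (R.tt (R.ep s x b c) (s + 1) x b c) *
          Real.log (((VF R.toRm (R.ep s x b c) (s + 1) x b c).card : ℝ) / (R.U (s + 1) x b c).card))) :=
            mul_le_mul_of_nonneg_right (mul_le_mul_of_nonneg_left h4 hlam0) hb0
        _ ≤ _ := mul_le_mul_of_nonneg_left hb h6
    have h6 := mul_le_mul_of_nonneg_left ht hM0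
    have h7 : lam * (2 * (1 / n)) * A = lam * (2 * A / n) := by ring
    rw [h7] at h5
    refine h1.trans ((add_le_add h2 (h3.trans (add_le_add h5 h6))).trans (le_of_eq ?_))
    ring
  · intro s hs x b c F _ hF
    have h4 := hRowT s hs x b c F hF
    refine le_trans (le_of_eq (LC.avg_cg fun c' hc' => ?_)) h4
    have hc : D.qc (s + 1) c = D.qc (s + 1) c' := (D.mem_cC.1 hc').symm
    have hS : D.Same s x b c x b c' := ⟨rfl, rfl, D.qc_le (Nat.le_succ s) hc⟩
    have h5 := (R.pub s hS (R.self_U s x b c)).1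
    unfold gdO
    rw [h5, ← gdS_inv (R.t0_le s x b c) hS rfl]

end

end Pool.Agent.M3.S3B
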