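import Pool.Agent.M3.S3B.LossD3
import Pool.Agent.M3.S3B.PsiP

/-!
# M3.S3B.Norm: the module `StNorm` of route B, losses of the splits in the normal epochs (helper68)

* `LD.lossC_E3` : `lossC` of `sum_harm` as a mean over the points; `LD.lsS_keep` : nothing is strong without a test;
* `LD.norm_step` : one step; `stNorm` : `StNorm` from `StBad` and the hypotheses of `psi_part`;
* `LD.stBad` : `StBad` for `R = rB` with `eta = 4 (kap2 + 4 kap3 / kap1^2)`.
-/

set_option autoImplicit false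
set_option linter.unusedSectionVars false

namespace Pool.Agent.M3.S3B

open Finset Pool.Agent.PWZ Pool.Agent.M3 Pool.Agent.M3.S3

noncomputable section

variable {X β γ ι φ : Type} [Fintype X] [Fintype β] [Fintype γ] [Fintype φ] [Nonempty X] [Nonempty β] [Nonempty γ]
  {D : Dat X β γ ι φ} {al : ℝ}

namespace LD

/-- a bad pair is a pair which is not good -/
theorem bd_iff {R : Rt D} {Up : Upd D} {N : Nb} {s : ℕ} {x : X} {b : β} {c : γ} {b' : β} {c' : γ} :
    Bd R Up N s x b c b' c' ↔ ¬ gdS Up N (R.ep s x b c) s x b c b' c' := by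
  unfold Bd gdS
  rw [not_and_or, not_not]
  refine or_congr Iff.rfl ?_
  push Not
  exact Iff.rfl

theorem not_bd {R : Rt D} {Up : Upd D} {N : Nb} {s : ℕ} {x : X} {b : β} {c : γ} :
    ¬ Bd R Up N s x b c b c ↔ gdO R Up N s x b c := by
  rw [bd_iff, not_not]
  exact Iff.rfl

/-- the loss of the step `s → s+1` given the points -/
def lsS (R : Rt D) (T : D.Thick al) (B : ℝ) (s : ℕ) (x : X) (b : β) (c : γ) : ℝ :=
  ∑ F, ∑ G, D.kf s x b c F * D.kg s x b c G *
    (ind (B * law (R.hf s x b c) (fun y => D.kf s y b c) F < law (R.U (s + 1) x b c) (fun y => D.kf s y b c) F ∧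
      B * law (R.hf s x b c) (fun y => D.kg s y b c) G < law (R.U (s + 1) x b c) (fun y => D.kg s y b c) G) *
      io (D.kp T s) (R.hf s x b c) b c F G)

variable {R : Rt D} {Up : Upd D} {N : Nb} {dg : ℕ → X → ℝ} (T : D.Thick al)

theorem law_div_iff {kk : X → φ → ℝ} (h0 : ∀ x F, 0 ≤ kk x F) {V W : Finset X} (hVW : V ⊆ W) (hV : V.Nonempty)
    {B : ℝ} (hB : 0 ≤ B) (F : φ) : B < law V kk F / law W kk F ↔ B * law W kk F < law V kk F := by
  rcases (law_nn h0 W F).eq_or_lt with h | h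
  · have h2 := law_sub_le h0 hVW hV F
    have hcV : (0 : ℝ) < V.card := by exact_mod_cast Finset.card_pos.2 hV
    have h3 : law V kk F = 0 := by
      rw [← h, mul_zero] at h2
      have h4 := law_nn h0 V F
      nlinarith
    rw [h3, ← h, div_zero, mul_zero]
    exact ⟨fun h => absurd h (not_lt.2 hB), fun h => absurd h (lt_irrefl _)⟩
  · exact lt_div_iff₀ h

theorem bxU_V (s : ℕ) (x : X) (b : β) (c : γ) : (bxU R.refCl s).V x b c = R.U s x b c := rfl

theorem bxH_V (s : ℕ) (x : X) (b : β) (c : γ) : (bxH R.refCl s).V x b c = R.hf s x b c := hlf_UD s x b c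

theorem sF_eq {B : ℝ} (hB : 0 ≤ B) (s : ℕ) (x : X) (b : β) (c : γ) (F : φ) :
    sF (D.kp T s) (bxH R.refCl s) (bxU R.refCl (s + 1)) B x b c F =
      (B * law (R.hf s x b c) (fun y => D.kf s y b c) F < law (R.U (s + 1) x b c) (fun y => D.kf s y b c) F) := by
  unfold sF
  rw [bxH_V, bxU_V]
  exact propext (law_div_iff (fun y F => T.f_nn s y b c F) (R.U_sub_hf s x b c) ⟨x, R.self_U (s + 1) x b c⟩ hB F)

theorem sG_eq {B : ℝ} (hB : 0 ≤ B) (s : ℕ) (x : X) (b : β) (c : γ) (G : φ) :
    sG (D.kp T s) (bxH R.refCl s) (bxU R.refCl (s + 1)) B x b c G =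
      (B * law (R.hf s x b c) (fun y => D.kg s y b c) G < law (R.U (s + 1) x b c) (fun y => D.kg s y b c) G) := by
  unfold sG
  rw [bxH_V, bxU_V]
  exact propext (law_div_iff (fun y F => T.g_nn s y b c F) (R.U_sub_hf s x b c) ⟨x, R.self_U (s + 1) x b c⟩ hB G)

/-- the loss of `sum_harm` -/
theorem lossC_E3 (th : ℕ → X → β → γ → ℝ) {B : ℝ} (hB : 0 ≤ B) (s : ℕ) :
    lossC T R.refCl (fun t w => th t w.1 w.2.1 w.2.2.1) B (fun _ _ => False) s =
      E3 fun x b c => th s x b c * lsS R T B s x b c := by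
  unfold lossC
  simp only [false_or]
  have h1 := loss_E3 (D.kp T s) (N := bxH R.refCl s) (Z := bxU R.refCl (s + 1)) (bxU_sub R.refCl s)
    (bxB_ok T R.refCl s (s + 1) s _ (Nat.le_succ s)) (th s) B
  refine h1.trans (E3_congr fun x b c => ?_)
  unfold lsS
  congr 1
  refine Finset.sum_congr rfl fun F _ => Finset.sum_congr rfl fun G _ => ?_
  rw [sF_eq T hB, sG_eq T hB, bxH_V]
  rfl

/-- without a test nothing is strong -/
theorem lsS_keep {B : ℝ} (hB : 1 ≤ B) {s : ℕ} {x : X} {b : β} {c : γ}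
    (h : ¬ R.tt (R.ep s x b c) (s + 1) x b c) : lsS R T B s x b c = 0 := by
  unfold lsS
  rw [R.U_keep h]
  refine Finset.sum_eq_zero fun F _ => Finset.sum_eq_zero fun G _ => ?_
  rw [ind_not, zero_mul, mul_zero]
  rintro ⟨h1, -⟩
  have h2 : 0 ≤ law (R.hf s x b c) (fun y => D.kf s y b c) F := law_nn (fun y F => T.f_nn s y b c F) _ _
  nlinarith

theorem same_hf {s : ℕ} {x x' : X} {b b' : β} {c c' : γ} (hx : x' ∈ R.hf s x b c) (hb : b' ∈ D.cB (s + 1) b)
    (hc : c' ∈ D.cC (s + 1) c) : D.Same (s + 1) x b c x' b' c' :=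
  ⟨(D.mem_cA.1 (R.hf_sub s x b c hx)).symm, (D.mem_cB.1 hb).symm, (D.mem_cC.1 hc).symm⟩

theorem log_hf_nonneg (s : ℕ) (x : X) (b : β) (c : γ) :
    0 ≤ Real.log (((R.hf s x b c).card : ℝ) / (R.U (s + 1) x b c).card) := by
  have h1 : (0 : ℝ) < (R.U (s + 1) x b c).card := by
    exact_mod_cast Finset.card_pos.2 ⟨x, R.self_U (s + 1) x b c⟩
  have h2 : ((R.U (s + 1) x b c).card : ℝ) ≤ (R.hf s x b c).card := by
    exact_mod_cast Finset.card_le_card (R.U_sub_hf s x b c)
  exact Real.log_nonneg ((one_le_div h1).2 h2)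

/-- strong letters of the first kind, frozen labels -/
def stF (R : Rt D) (B : ℝ) (s : ℕ) (x : X) (b : β) (c : γ) (F : φ) : Prop :=
  B * law (R.hf s x b c) (fun y => D.kf (R.ep s x b c).t0 y b c) F <
    law (R.U (s + 1) x b c) (fun y => D.kf (R.ep s x b c).t0 y b c) F

/-- strong letters of the second kind, frozen labels -/
def stG (R : Rt D) (B : ℝ) (s : ℕ) (x : X) (b : β) (c : γ) (G : φ) : Prop :=
  B * law (R.hf s x b c) (fun y => D.kg (R.ep s x b c).t0 y b c) G <
    law (R.U (s + 1) x b c) (fun y => D.kg (R.ep s x b c).t0 y b c) G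

/-- the psi part of the loss of a good pair in frozen labels -/
theorem psi_frozen {K : ℕ} {J : ℝ} (hU : UpdOk D Up K J) {d B : ℝ} (hB : 0 ≤ B) (s : ℕ) (x : X) (b : β) (c : γ) :
    (∑ F, ∑ G, (D.kp T s).f x b c F * (D.kp T s).g x b c G *
        (ind (¬ (¬ gdO R Up N s x b c) ∧ sF (D.kp T s) (bxH R.refCl s) (bxU R.refCl (s + 1)) B x b c F ∧
          sG (D.kp T s) (bxH R.refCl s) (bxU R.refCl (s + 1)) B x b c G) *
          psi d (D.kp T (R.ep s x b c).t0) (R.ep s x b c).om0 b c F G)) =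
      psG R d (gdO R Up N) (stF R B) (stG R B) s x b c := by
  unfold psG
  refine Finset.sum_congr rfl fun F _ => Finset.sum_congr rfl fun G _ => ?_
  rw [sF_eq T hB, sG_eq T hB, psd_psi D T]
  by_cases hg : gdO R Up N s x b c
  · have hbd := not_bd.2 hg
    have e0 := kf_good hU hbd (y := x) rfl
    have hlf : ∀ W : Finset X, W ⊆ R.hf s x b c →
        law W (fun y => D.kf s y b c) F = law W (fun y => D.kf (R.ep s x b c).t0 y b c) F := by
      intro W hW
      unfold law avg
      congr 1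
      refine Finset.sum_congr rfl fun y hy => ?_
      beta_reduce
      rw [(kf_good hU hbd (y := y) (D.mem_cA.1 (R.U_sub s x b c (R.hf_sub_U s x b c (hW hy))))).1]
    have hlg : ∀ W : Finset X, W ⊆ R.hf s x b c →
        law W (fun y => D.kg s y b c) G = law W (fun y => D.kg (R.ep s x b c).t0 y b c) G := by
      intro W hW
      unfold law avg
      congr 1
      refine Finset.sum_congr rfl fun y hy => ?_
      beta_reduce
      rw [(kf_good hU hbd (y := y) (D.mem_cA.1 (R.U_sub s x b c (R.hf_sub_U s x b c (hW hy))))).2]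
    show D.kf s x b c F * D.kg s x b c G * _ = _
    rw [e0.1, e0.2, hlf _ Subset.rfl, hlf _ (R.U_sub_hf s x b c), hlg _ Subset.rfl, hlg _ (R.U_sub_hf s x b c),
      not_not]
    rfl
  · rw [ind_not (fun h => h.1 hg), ind_not (fun h => hg h.1)]
    simp

/-- ONE STEP -/
theorem norm_step (hal1 : al ≤ 1) {K' : ℕ} {J : ℝ} (hU : UpdOk D Up K' J) {s : ℕ} {eta : ℝ}
    (hbd : ∀ x b c, ¬ crt R N dg s x b c →
      (av2 D (s + 1) b c fun b' c' => ind (¬ gdS Up N (R.ep s x b c) s x b c b' c')) ≤ eta)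
    (hk1 : 0 ≤ N.kap1) (heta : 0 ≤ eta) (hkr : 2 * N.kap1 / al ^ 2 ≤ 1 / 2)
    {d B : ℝ} (hd : 0 ≤ d) (hB0 : 1 ≤ B) (hB : 1 < Real.log B) :
    lossC T R.refCl (fun t w => ind (¬ crt R N dg t w.1 w.2.1 w.2.2.1)) B (fun _ _ => False) s ≤
      Real.log (1 / al) * (eta / Real.log B) *
        E3 (fun x b c => Real.log (((R.hf s x b c).card : ℝ) / (R.U (s + 1) x b c).card)) +
      (d + 5 * (2 * N.kap1 / al ^ 2)) / (Real.log B - 1) * gainC T R.refCl s +
      E3 (fun x b c => ind (R.tt (R.ep s x b c) (s + 1) x b c) *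
        psG R d (gdO R Up N) (stF R B) (stG R B) s x b c) := by
  classical
  have hal0 := T.pos
  have hB00 : 0 ≤ B := by linarith
  set θ : X → β → γ → ℝ := fun x b c => ind (R.tt (R.ep s x b c) (s + 1) x b c ∧ ¬ crt R N dg s x b c) with hθd
  have hθ0 : ∀ x b c, 0 ≤ θ x b c := fun x b c => ind_nonneg _
  have hθ1 : ∀ x b c, θ x b c ≤ 1 := fun x b c => ind_le_one _
  have hθne : ∀ x b c, θ x b c ≠ 0 → R.tt (R.ep s x b c) (s + 1) x b c ∧ ¬ crt R N dg s x b c := by
    intro x b c h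
    by_contra h2
    exact h (ind_not h2)
  have hsub := bxU_sub R.refCl s
  have hN : (bxH R.refCl s).Ok (D.kp T s) := bxB_ok T R.refCl s (s + 1) s _ (Nat.le_succ s)
  have hsplit := loss_split (D.kp T s) (N := bxH R.refCl s) (Z := bxU R.refCl (s + 1)) hsub hal0 hal1
    (θ := θ) hθ0
    (by
      intro x b c x' b' c' hx hb hc
      rw [bxH_V] at hx
      have hS := same_hf (R := R) hx hb hc
      have hS0 := hS.le (Nat.le_succ s)
      obtain ⟨p1, p2⟩ := R.pub s hS0 (R.hf_sub_U s x b c hx)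
      have h1 := R.tt_q (R.ep s x b c) (s + 1) x b c x' b' c' ((R.t0_le s x b c).trans (Nat.le_succ s)) hS
      have h2 : crt R N dg s x b c ↔ crt R N dg s x' b' c' := by
        unfold crt
        rw [p2]
        exact Crit_inv (D := D) (N := N) (dg := dg) hS0.2.1 hS0.2.2 (R.U s x b c)
      simp only [hθd]
      rw [p1, propext h1, propext h2])
    (by
      intro x b c _
      rw [bxH_V]
      exact thk_hf T s x b c)
    (by linarith) hB (bd := fun x b c => ¬ gdO R Up N s x b c) (eta := eta)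
    (by
      intro x b c ht
      refine le_trans (le_of_eq ?_) (hbd x b c (hθne x b c ht).2)
      unfold av2 avg
      refine congrArg (· / _) (Finset.sum_congr rfl fun b' hb' => ?_)
      refine congrArg (· / _) (Finset.sum_congr rfl fun c' hc' => ?_)
      beta_reduce
      have hS : D.Same s x b c x b' c' := ⟨rfl, (D.mem_cB.1 (D.cB_mono (Nat.le_succ s) b hb')).symm,
        (D.mem_cC.1 (D.cC_mono (Nat.le_succ s) c hc')).symm⟩
      unfold gdO
      rw [(R.pub s hS (R.self_U s x b c)).1, gdS_inv (R.t0_le s x b c) hS rfl])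
    (by
      intro x b c x' b' c' hx hb hc
      rw [bxH_V] at hx
      have hS := same_hf (R := R) hx hb hc
      have hS1 : D.Same s x b c x' b' c' := hS.le (Nat.le_succ s)
      have hS2 : D.Same s x b c x b' c' := ⟨rfl, hS1.2.1, hS1.2.2⟩
      refine not_congr ?_
      unfold gdO
      rw [(R.pub s hS1 (R.hf_sub_U s x b c hx)).1, (R.pub s hS2 (R.self_U s x b c)).1,
        ← gdS_inv (R.t0_le s x b c) hS1 hS.1, ← gdS_inv (R.t0_le s x b c) hS2 rfl])
    (dl := d + 5 * (2 * N.kap1 / al ^ 2)) (by positivity)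
    (ps := fun x b c F G => psi d (D.kp T (R.ep s x b c).t0) (R.ep s x b c).om0 b c F G)
    (by
      intro x b c _ hg F G hF hG
      rw [bxH_V]
      have h1 := io_good T hal1 hU (not_bd.2 (not_not.1 hg)) hk1 hkr hF hG
      have h2 := io_le_psi (D.kp T (R.ep s x b c).t0) d (R.ep s x b c).om0 b c F G
      linarith)
  -- the left hand side
  have eL : lossC T R.refCl (fun t w => ind (¬ crt R N dg t w.1 w.2.1 w.2.2.1)) B (fun _ _ => False) s =
      E3 (fun x b c => θ x b c * ∑ F, ∑ G, (D.kp T s).f x b c F * (D.kp T s).g x b c G *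
      (ind (sF (D.kp T s) (bxH R.refCl s) (bxU R.refCl (s + 1)) B x b c F ∧
        sG (D.kp T s) (bxH R.refCl s) (bxU R.refCl (s + 1)) B x b c G) *
        io (D.kp T s) ((bxH R.refCl s).V x b c) b c F G)) := by
    rw [lossC_E3 T (fun t x b c => ind (¬ crt R N dg t x b c)) hB00]
    refine E3_congr fun x b c => ?_
    have e1 : (∑ F, ∑ G, (D.kp T s).f x b c F * (D.kp T s).g x b c G *
      (ind (sF (D.kp T s) (bxH R.refCl s) (bxU R.refCl (s + 1)) B x b c F ∧
        sG (D.kp T s) (bxH R.refCl s) (bxU R.refCl (s + 1)) B x b c G) *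
        io (D.kp T s) ((bxH R.refCl s).V x b c) b c F G)) = lsS R T B s x b c := by
      unfold lsS
      refine Finset.sum_congr rfl fun F _ => Finset.sum_congr rfl fun G _ => ?_
      rw [sF_eq T hB00, sG_eq T hB00, bxH_V]
      rfl
    rw [e1]
    by_cases ht : R.tt (R.ep s x b c) (s + 1) x b c
    · have e2 : θ x b c = ind (¬ crt R N dg s x b c) := by
        simp only [hθd]
        congr 1
        exact propext ⟨fun h => h.2, fun h => ⟨ht, h⟩⟩
      rw [e2]
    · rw [lsS_keep T hB0 ht, mul_zero, mul_zero]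
  rw [eL]
  refine hsplit.trans ?_
  have hla : 0 ≤ Real.log (1 / al) := Real.log_nonneg (by rw [le_div_iff₀ hal0]; linarith)
  have hlB : 0 < Real.log B := by linarith
  have t1 : E3 (fun x b c => θ x b c * Real.log (((bxH R.refCl s).V x b c).card / ((bxU R.refCl (s + 1)).V x b c).card)) ≤
      E3 (fun x b c => Real.log (((R.hf s x b c).card : ℝ) / (R.U (s + 1) x b c).card)) := by
    refine E3_mono fun x b c => ?_
    rw [bxH_V, bxU_V]
    exact mul_le_of_le_one_left (log_hf_nonneg s x b c) (hθ1 x b c)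
  have t2 : E3 (fun x b c => θ x b c * klf (law ((bxU R.refCl (s + 1)).V x b c) fun y => (D.kp T s).f y b c)
      (law ((bxH R.refCl s).V x b c) fun y => (D.kp T s).f y b c)) ≤ gainC T R.refCl s := by
    unfold gainC
    rw [gainF_E3 (D.kp T s) hsub hN, gainG_E3 (D.kp T s) hsub hN]
    have h1 : 0 ≤ E3 fun x b c => klf (law ((bxU R.refCl (s + 1)).V x b c) fun y => (D.kp T s).g y b c)
        (law ((bxH R.refCl s).V x b c) fun y => (D.kp T s).g y b c) :=
      E3_nonneg fun x b c => klf_sub_nonneg (kk := fun y => (D.kp T s).g y b c) (fun y F => (D.kp T s).g_nn y b c F)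
        (fun y => (D.kp T s).g_one y b c) (hsub.V x b c) ⟨x, (bxU R.refCl (s + 1)).sV x b c⟩
    have h2 : E3 (fun x b c => θ x b c * klf (law ((bxU R.refCl (s + 1)).V x b c) fun y => (D.kp T s).f y b c)
      (law ((bxH R.refCl s).V x b c) fun y => (D.kp T s).f y b c)) ≤
        E3 fun x b c => klf (law ((bxU R.refCl (s + 1)).V x b c) fun y => (D.kp T s).f y b c)
      (law ((bxH R.refCl s).V x b c) fun y => (D.kp T s).f y b c) := by
      refine E3_mono fun x b c => ?_
      exact mul_le_of_le_one_left (klf_sub_nonneg (kk := fun y => (D.kp T s).f y b c)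
        (fun y F => (D.kp T s).f_nn y b c F) (fun y => (D.kp T s).f_one y b c) (hsub.V x b c)
        ⟨x, (bxU R.refCl (s + 1)).sV x b c⟩) (hθ1 x b c)
    linarith
  have t3 : E3 (fun x b c => θ x b c * ∑ F, ∑ G, (D.kp T s).f x b c F * (D.kp T s).g x b c G *
        (ind (¬ (¬ gdO R Up N s x b c) ∧ sF (D.kp T s) (bxH R.refCl s) (bxU R.refCl (s + 1)) B x b c F ∧
          sG (D.kp T s) (bxH R.refCl s) (bxU R.refCl (s + 1)) B x b c G) *
          psi d (D.kp T (R.ep s x b c).t0) (R.ep s x b c).om0 b c F G)) ≤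
      E3 (fun x b c => ind (R.tt (R.ep s x b c) (s + 1) x b c) *
        psG R d (gdO R Up N) (stF R B) (stG R B) s x b c) := by
    refine E3_mono fun x b c => ?_
    rw [psi_frozen T hU hB00]
    have h0 : 0 ≤ psG R d (gdO R Up N) (stF R B) (stG R B) s x b c := by
      unfold psG
      refine Finset.sum_nonneg fun F _ => Finset.sum_nonneg fun G _ => ?_
      exact mul_nonneg (mul_nonneg (T.f_nn _ _ _ _ _) (T.g_nn _ _ _ _ _))
        (mul_nonneg (ind_nonneg _) (le_max_right _ _))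
    refine mul_le_mul_of_nonneg_right ?_ h0
    simp only [hθd]
    exact ind_mono fun h => h.1
  have c1 : 0 ≤ Real.log (1 / al) * (eta / Real.log B) := by positivity
  have c2 : 0 ≤ (d + 5 * (2 * N.kap1 / al ^ 2)) / (Real.log B - 1) :=
    div_nonneg (by positivity) (by linarith)
  have u1 := mul_le_mul_of_nonneg_left t1 c1
  have u2 := mul_le_mul_of_nonneg_left t2 c2
  linarith

end LD

/-- **LOSSES OF THE NORMAL EPOCHS** -/
theorem stNorm (T : D.Thick al) {R : Rt D} {Up : Upd D} {N : Nb} {dg : ℕ → X → ℝ}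
    {n d e0 L Lam A Nn J eta G : ℝ} {K K' : ℕ} (hR : R.toRm = rmB D n) (hal1 : al ≤ 1) (hn : 0 < n) (hd : 0 < d)
    (hL : 0 ≤ L) (he : 0 ≤ e0) (hU : UpdOk D Up K' J) (hSat : StSat R K (1 / n)) (hRow : StRow R Up N K e0)
    (hRowT : StRowT R Up N K e0) (hG : StGain R K Lam) (hBt : StBits R K A) (hNum : StNum R K Nn)
    (hBad : StBad R Up N dg K eta) (hGC : ∑ s ∈ range K, gainC T R.refCl s ≤ G)
    (hk1 : 0 ≤ N.kap1) (heta : 0 ≤ eta) (hkr : 2 * N.kap1 / al ^ 2 ≤ 1 / 20) :
    StNorm T R N dg K 400 (Real.log (1 / al) * (eta / Real.log 400) * A +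
      (d + 5 * (2 * N.kap1 / al ^ 2)) / (Real.log 400 - 1) * G +
      ((1 / n * (L + 1) + 20 * (4 / d) * e0) * (4 * Lam + 2 * A / n) +
        5 * (Real.log (1 / al) * (Real.exp (-L) / al)) * Nn)) := by
  have hal0 := T.pos
  have hlog : 2 ≤ Real.log 400 := by
    rw [Real.le_log_iff_exp_le (by norm_num)]
    have h1 : Real.exp 1 < 2.7182818286 := Real.exp_one_lt_d9
    have h2 : Real.exp 2 = Real.exp 1 * Real.exp 1 := by rw [← Real.exp_add]; norm_num
    rw [h2]
    nlinarith [Real.exp_pos 1]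
  have hla : 0 ≤ Real.log (1 / al) := Real.log_nonneg (by rw [le_div_iff₀ hal0]; linarith)
  unfold StNorm
  have h1 := Finset.sum_le_sum fun s (hs : s ∈ range K) =>
    LD.norm_step (R := R) (Up := Up) (N := N) (dg := dg) T hal1 hU (hBad s (mem_range.1 hs)) hk1 heta
      (by linarith) hd.le (B := 400) (by norm_num) (by linarith)
  refine h1.trans ?_
  rw [Finset.sum_add_distrib, Finset.sum_add_distrib, ← Finset.mul_sum, ← Finset.mul_sum]
  have h2 : ∑ s ∈ range K, E3 (fun x b c => Real.log (((R.hf s x b c).card : ℝ) / (R.U (s + 1) x b c).card)) ≤ A := by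
    have h3 : btB R K ≤ A := hBt
    unfold btB at h3
    have h4 : 0 ≤ E3 (fun x b c => Real.log (((D.cA 0 x).card : ℝ) / (R.U 0 x b c).card)) := by
      refine E3_nonneg fun x b c => ?_
      have a1 : (0 : ℝ) < (R.U 0 x b c).card := by exact_mod_cast Finset.card_pos.2 ⟨x, R.self_U 0 x b c⟩
      have a2 : ((R.U 0 x b c).card : ℝ) ≤ (D.cA 0 x).card := by
        exact_mod_cast Finset.card_le_card (R.U_sub 0 x b c)
      exact Real.log_nonneg ((one_le_div a1).2 a2)
    linarith
  have h3 := psi_part (R := R) (Up := Up) (N := N) (K := K) (L := L) (Lam := Lam) (A := A) (Nn := Nn) hR T hal1 hn hd hL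
    he hU hSat hRow hRowT hG hBt hNum (stF := LD.stF R 400) (stG := LD.stG R 400)
    (by
      intro s _ x b c F _ hg hF hs hv
      have h5 := law_good T (LD.not_bd.2 hg) hk1 (F := F) hF
      unfold LD.stF at hs
      have hl0 : 0 ≤ law (R.ep s x b c).om0 (fun y => D.kf (R.ep s x b c).t0 y b c) F :=
        law_nn (fun y F => T.f_nn _ y b c F) _ _
      have h6 : 19 / 20 * law (R.ep s x b c).om0 (fun y => D.kf (R.ep s x b c).t0 y b c) F ≤
          law (R.hf s x b c) (fun y => D.kf (R.ep s x b c).t0 y b c) F := by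
        refine le_trans (mul_le_mul_of_nonneg_right ?_ hl0) h5
        linarith
      linarith)
  have c1 : 0 ≤ Real.log (1 / al) * (eta / Real.log 400) := by positivity
  have c2 : 0 ≤ (d + 5 * (2 * N.kap1 / al ^ 2)) / (Real.log 400 - 1) :=
    div_nonneg (by positivity) (by linarith)
  have u1 := mul_le_mul_of_nonneg_left h2 c1
  have u2 := mul_le_mul_of_nonneg_left hGC c2
  linarith

/-- `StBad` for the rule of route B -/
theorem LD.stBad {n : ℝ} {dg : ℕ → X → ℝ} {K K' : ℕ} {Up : Upd D} {N : Nb} {J : ℝ} {R0 : Rm D} (hU : UpdOk D Up K' J)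
    (hdg : ∀ t x, dg t x = 1 ∨ dg t x = -1)
    (hcell : ∀ t < K, ∀ x x', D.qa (t + 1) x = D.qa (t + 1) x' ↔ D.qa t x = D.qa t x' ∧ dg t x = dg t x')
    (hH : ∀ t < K, Halv D t) (hk1 : 0 < N.kap1) (hk2 : 0 ≤ N.kap2) :
    StBad (mkRt R0 Up N dg K) Up N dg K (4 * (N.kap2 + 4 * N.kap3 / N.kap1 ^ 2)) := by
  intro s hs x b c hcr
  set R := mkRt R0 Up N dg K with hRd
  unfold crt Crit at hcr
  push Not at hcr
  have hi : (av2 D s b c fun b' c' => ind (Chg Up N (R.ep s x b c) s x b c b' c')) ≤ N.kap2 := by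
    rcases (R.t0_le s x b c).eq_or_lt with h | h
    · have h1 : ∀ b' c', ind (Chg Up N (R.ep s x b c) s x b c b' c') = 0 := by
        intro b' c'
        refine ind_not fun h2 => ?_
        have h3 := Chg_start (Up := Up) (N := N) (R.om0_sub s x b c) hk1.le (b := b) (c := c) b' c'
        rw [h] at h3
        exact h3 h2
      simp only [h1]
      unfold av2 avg
      simp only [Finset.sum_const_zero, zero_div]
      exact hk2
    · have h1 : ¬ R.tt (R.ep s x b c) s x b c := fun h2 => R.not_ST s x b c ⟨s, h, le_rfl, h2⟩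
      exact (run_i (run_TT h1)).le
  have h4 := bd_avg (R := R) (N := N) hU (hdg s) (hcell s hs) (hH s hs) (x := x) (b := b) (c := c) hk1 hi hcr.1 hcr.2
  refine le_trans (le_of_eq ?_) h4
  congr 1
  funext b' c'
  rw [show (¬ gdS Up N (R.ep s x b c) s x b c b' c') = Bd R Up N s x b c b' c' from propext LD.bd_iff.symm]

end

end Pool.Agent.M3.S3B
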