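import Pool.Agent.M3.S3.ParA

/-!
# M3.S3B.NumT: calculus of sizes for the numbers of section 3 (helper93)

`x = n ^ (1/1000)`, `lg = Lam + log n` as in `S3/ParA`.
* `sqrt_eq` : `√n = x ^ 500`; `clg` : `c lg ^ k ≤ x ^ (2k+1)` for `c ≤ 2 ^ 1000`; `clgd` : `c lg ^ k (x⁻¹) ^ m ≤ (x⁻¹) ^ (m - 2k - 1)`;
* `exp_lg` : `exp (m lg) = (n / al) ^ m`; `n_le`, `inv_al` : `n ≤ exp lg`, `al⁻¹ ≤ exp lg`; `Lam_le_exp`, `c_le_exp`;
* `E` : sizes up to `exp (m lg)`: `E_mul`, `E_add`; `E_neg` : `exp (-(m lg)) ≤ (x⁻¹) ^ (1000 m)`.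
-/

set_option autoImplicit false

namespace Pool.Agent.M3.S3

noncomputable section

namespace PT

open PA

variable {Lam n : ℝ}

theorem sqrt_eq (h : Big Lam n) : Real.sqrt n = x n ^ 500 := by
  have h1 : x n ^ 1000 = (x n ^ 500) ^ 2 := by rw [← pow_mul]
  conv_lhs => rw [← h.n_eq, h1]
  exact Real.sqrt_sq (pow_nonneg h.x_pos.le _)

theorem two_le (h : Big Lam n) : 2 ≤ x n := by
  refine le_trans ?_ h.x_ge
  calc (2 : ℝ) = 2 ^ 1 := (pow_one _).symm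
    _ ≤ 2 ^ 1000 := pow_le_pow_right₀ (by norm_num) (by norm_num)

theorem xinv_pos (h : Big Lam n) : 0 < (x n)⁻¹ := inv_pos.2 h.x_pos

theorem xinv_le (h : Big Lam n) : (x n)⁻¹ ≤ 1 := inv_le_one_of_one_le₀ h.x_ge1

/-- powers of `x⁻¹` are decreasing -/
theorem ipow_le (h : Big Lam n) {m k : ℕ} (hk : k ≤ m) : (x n)⁻¹ ^ m ≤ (x n)⁻¹ ^ k :=
  pow_le_pow_of_le_one (xinv_pos h).le (xinv_le h) hk

/-- a constant is at most `x` -/
theorem c_le (h : Big Lam n) {c : ℝ} (hc : c ≤ 2 ^ 1000) : c ≤ x n := hc.trans h.x_ge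

theorem lg_le2 (h : Big Lam n) : lg Lam n ≤ x n ^ 2 := by
  have h1 := h.lg_le
  have h2 := two_le h
  have h3 := h.x_pos
  nlinarith

theorem clg (h : Big Lam n) {c : ℝ} (hc : c ≤ 2 ^ 1000) (k : ℕ) : c * lg Lam n ^ k ≤ x n ^ (2 * k + 1) := by
  have h0 : 0 ≤ lg Lam n := zero_le_one.trans h.lg_ge
  have h1 : lg Lam n ^ k ≤ x n ^ (2 * k) := by
    rw [pow_mul]
    exact pow_le_pow_left₀ h0 (lg_le2 h) k
  have h2 : c * lg Lam n ^ k ≤ x n * lg Lam n ^ k := mul_le_mul_of_nonneg_right (c_le h hc) (pow_nonneg h0 k)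
  refine h2.trans ?_
  rw [pow_succ, mul_comm]
  exact mul_le_mul_of_nonneg_right h1 h.x_pos.le

/-- `c lg ^ k (x⁻¹) ^ (m + 2k + 1) ≤ (x⁻¹) ^ m` -/
theorem clgd (h : Big Lam n) {c : ℝ} (hc : c ≤ 2 ^ 1000) (k m : ℕ) :
    c * lg Lam n ^ k * (x n)⁻¹ ^ (m + (2 * k + 1)) ≤ (x n)⁻¹ ^ m := by
  have h1 := clg h hc k
  have h2 : 0 ≤ (x n)⁻¹ ^ (m + (2 * k + 1)) := pow_nonneg (xinv_pos h).le _
  refine (mul_le_mul_of_nonneg_right h1 h2).trans (le_of_eq ?_)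
  have h3 : (x n)⁻¹ ^ (m + (2 * k + 1)) = (x n)⁻¹ ^ m * (x n)⁻¹ ^ (2 * k + 1) := pow_add _ _ _
  rw [h3, mul_left_comm, ← mul_pow, mul_inv_cancel₀ h.x_pos.ne', one_pow, mul_one]

/-- the same with a gap -/
theorem clgd' (h : Big Lam n) {c : ℝ} (hc : c ≤ 2 ^ 1000) (k m M : ℕ) (hM : m + (2 * k + 1) ≤ M) (hc0 : 0 ≤ c) :
    c * lg Lam n ^ k * (x n)⁻¹ ^ M ≤ (x n)⁻¹ ^ m := by
  have h0 : 0 ≤ lg Lam n := zero_le_one.trans h.lg_ge
  refine le_trans ?_ (clgd h hc k m)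
  exact mul_le_mul_of_nonneg_left (ipow_le h hM) (mul_nonneg hc0 (pow_nonneg h0 k))

/-! ### exponentials -/

theorem exp_log_n (h : Big Lam n) : Real.exp (Real.log n) = n := Real.exp_log h.n_pos

theorem n_le (h : Big Lam n) : n ≤ Real.exp (lg Lam n) := by
  unfold lg
  rw [Real.exp_add, exp_log_n h]
  have h1 : 1 ≤ Real.exp Lam := Real.one_le_exp (zero_le_one.trans h.Lam1)
  nlinarith [h.n_pos]

theorem expLam_le (h : Big Lam n) : Real.exp Lam ≤ Real.exp (lg Lam n) :=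
  Real.exp_le_exp.2 (by unfold lg; linarith [h.log_nonneg])

theorem Lam_le_exp (h : Big Lam n) : Lam ≤ Real.exp (lg Lam n) := by
  refine le_trans ?_ (expLam_le h)
  linarith [Real.add_one_le_exp Lam]

theorem lg_le_exp (h : Big Lam n) : lg Lam n ≤ Real.exp (lg Lam n) := by
  have _ := h.Lam1
  linarith [Real.add_one_le_exp (lg Lam n)]

/-- constants -/
theorem c_le_exp (h : Big Lam n) {c : ℝ} (hc : c ≤ 2 ^ 1000) : c ≤ Real.exp (lg Lam n) := by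
  refine (c_le h hc).trans (le_trans ?_ (n_le h))
  calc x n = x n ^ 1 := (pow_one _).symm
    _ ≤ x n ^ 1000 := pow_le_pow_right₀ h.x_ge1 (by norm_num)
    _ = n := h.n_eq

theorem exp_mul (m : ℕ) : Real.exp ((m : ℝ) * lg Lam n) = Real.exp (lg Lam n) ^ m := by
  rw [← Real.exp_nat_mul]

/-- sizes: `A ≤ exp (m lg)` -/
def E (Lam n : ℝ) (A : ℝ) (m : ℕ) : Prop := A ≤ Real.exp (lg Lam n) ^ m

theorem one_le_e (h : Big Lam n) : 1 ≤ Real.exp (lg Lam n) := Real.one_le_exp (zero_le_one.trans h.lg_ge)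

theorem E_mono (h : Big Lam n) {A : ℝ} {m k : ℕ} (hA : E Lam n A m) (hm : m ≤ k) : E Lam n A k :=
  hA.trans (pow_le_pow_right₀ (one_le_e h) hm)

theorem E_mul {A B : ℝ} {a b : ℕ} (hB0 : 0 ≤ B) (hA : E Lam n A a) (hB : E Lam n B b) :
    E Lam n (A * B) (a + b) := by
  unfold E at *
  rw [pow_add]
  exact mul_le_mul hA hB hB0 (by positivity)

theorem E_two (h : Big Lam n) : (2 : ℝ) ≤ Real.exp (lg Lam n) :=
  c_le_exp h (by
    calc (2 : ℝ) = 2 ^ 1 := (pow_one _).symm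
      _ ≤ 2 ^ 1000 := pow_le_pow_right₀ (by norm_num) (by norm_num))

theorem E_add (h : Big Lam n) {A B : ℝ} {a : ℕ} (hA : E Lam n A a) (hB : E Lam n B a) : E Lam n (A + B) (a + 1) := by
  unfold E at *
  rw [pow_succ]
  have h2 := E_two h
  have h3 : 0 < Real.exp (lg Lam n) ^ a := by positivity
  nlinarith

theorem E_c (h : Big Lam n) {c : ℝ} (hc : c ≤ 2 ^ 1000) : E Lam n c 1 := by
  unfold E
  rw [pow_one]
  exact c_le_exp h hc

theorem E_n (h : Big Lam n) : E Lam n n 1 := by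
  unfold E
  rw [pow_one]
  exact n_le h

theorem E_expLam (h : Big Lam n) : E Lam n (Real.exp Lam) 1 := by
  unfold E
  rw [pow_one]
  exact expLam_le h

theorem E_Lam (h : Big Lam n) : E Lam n Lam 1 := by
  unfold E
  rw [pow_one]
  exact Lam_le_exp h

theorem E_lg (h : Big Lam n) : E Lam n (lg Lam n) 1 := by
  unfold E
  rw [pow_one]
  exact lg_le_exp h

theorem E_pow (h : Big Lam n) {A : ℝ} {a : ℕ} (hA0 : 0 ≤ A) (hA : E Lam n A a) (k : ℕ) : E Lam n (A ^ k) (k * a) := by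
  have _ := h.Lam1
  unfold E at *
  rw [mul_comm, pow_mul]
  exact pow_le_pow_left₀ hA0 hA k

/-- `exp (-(m lg)) = (exp lg)⁻¹ ^ m` -/
theorem exp_neg_mul (m : ℕ) : Real.exp (-((m : ℝ) * lg Lam n)) = (Real.exp (lg Lam n))⁻¹ ^ m := by
  rw [Real.exp_neg, exp_mul, inv_pow]

/-- a rare event times a size -/
theorem E_rare (h : Big Lam n) {A : ℝ} {a m : ℕ} (hA : E Lam n A a) (hm : a ≤ m) {L : ℝ}
    (hL : (m : ℝ) * lg Lam n ≤ L) : A * Real.exp (-L) ≤ (Real.exp (lg Lam n))⁻¹ ^ (m - a) := by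
  have h1 : Real.exp (-L) ≤ (Real.exp (lg Lam n))⁻¹ ^ m := by
    rw [← exp_neg_mul]
    exact Real.exp_le_exp.2 (by linarith)
  have _ := h.Lam1
  have he : 0 < Real.exp (lg Lam n) := Real.exp_pos _
  unfold E at hA
  have h2 : A * Real.exp (-L) ≤ Real.exp (lg Lam n) ^ a * (Real.exp (lg Lam n))⁻¹ ^ m :=
    mul_le_mul hA h1 (Real.exp_pos _).le (by positivity)
  refine h2.trans (le_of_eq ?_)
  have h3 : (Real.exp (lg Lam n))⁻¹ ^ m = (Real.exp (lg Lam n))⁻¹ ^ a * (Real.exp (lg Lam n))⁻¹ ^ (m - a) := by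
    rw [← pow_add]
    congr 1
    omega
  rw [h3, ← mul_assoc, ← mul_pow, mul_inv_cancel₀ he.ne', one_pow, one_mul]

theorem e_inv_le (h : Big Lam n) : (Real.exp (lg Lam n))⁻¹ ≤ (x n)⁻¹ ^ 1000 := by
  rw [inv_pow, h.n_eq]
  exact inv_anti₀ h.n_pos (n_le h)

/-- a rare event times a size is at most a power of `x⁻¹` -/
theorem E_rare' (h : Big Lam n) {A : ℝ} {a m k : ℕ} (hA : E Lam n A a) (hm : a ≤ m) {L : ℝ}
    (hL : (m : ℝ) * lg Lam n ≤ L) (hk : k ≤ 1000 * (m - a)) : A * Real.exp (-L) ≤ (x n)⁻¹ ^ k := by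
  refine (E_rare h hA hm hL).trans ?_
  refine (pow_le_pow_left₀ (by positivity) (e_inv_le h) (m - a)).trans ?_
  rw [← pow_mul]
  exact ipow_le h hk

/-- from powers of `x⁻¹` to powers of `n` -/
theorem ipow_rpow (h : Big Lam n) (m : ℕ) : (x n)⁻¹ ^ m = n ^ (-(m / 1000 : ℝ)) := by
  unfold x
  rw [← Real.rpow_neg h.n_pos.le, ← Real.rpow_natCast, ← Real.rpow_mul h.n_pos.le]
  congr 1
  ring

end PT

end

end Pool.Agent.M3.S3
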