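import Pool.Agent.M3.S3B.ParB
import Pool.Agent.M3.S3B.NumT
import Pool.Agent.M3.S3B.JumpS

/-!
# M3.S3B.NumB2: the final inequality of route B (helper93)

Numbers of `ParB` (helper78), `h : Big Lam n`, `X m := (x n)⁻¹ ^ m`.
* `mulx` : `a ≤ x^-(k+j)`, `b ≤ x^j` imply `a b ≤ x^-k`; `Lam_x`, `A_x` : `Lam ≤ x`, `100 n Lam ≤ x^1002`;
* `rare_x` : `c Lam^k (1/al) exp (-LL) nst ≤ x^-1000` for `nst ≤ Ne`;
* terms: `t_bad`, `t_dl`, `t_lam`, `t_C`, `t_J`, `t_tiny`;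
* `hN_le`, `hJ_le`, `mk_le` : the three inputs of `SumB.concl_B` are at most `x^-400`;
* `n3_le` : the hypothesis `n3` of `concl_B` with `κ = 1/4`, from `mk, hN, hJ ≤ x^-300`.
-/

set_option autoImplicit false

namespace Pool.Agent.M3.S3B

noncomputable section

namespace NB

open Pool.Agent.M3 Pool.Agent.M3.S3 Pool.Agent.M3.S3.PA

variable {Lam n : ℝ}

/-- product of a small and a big number -/
theorem mulx (h : Big Lam n) {a b : ℝ} (j k : ℕ) (ha : a ≤ (x n)⁻¹ ^ (j + k)) (hb0 : 0 ≤ b) (hb : b ≤ x n ^ j) :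
    a * b ≤ (x n)⁻¹ ^ k := by
  have h1 : a * b ≤ (x n)⁻¹ ^ (j + k) * x n ^ j :=
    mul_le_mul ha hb hb0 (pow_nonneg (PB.xi_pos h).le _)
  refine h1.trans (le_of_eq ?_)
  rw [mul_comm]
  exact PB.xx h j k

theorem Lam_x (h : Big Lam n) : Lam ≤ x n ^ 1 := by
  rw [pow_one]
  exact h.Lam_le

theorem Lam0 (h : Big Lam n) : 0 ≤ Lam := zero_le_one.trans h.Lam1

/-- the number of bits -/
theorem A_x (h : Big Lam n) {A : ℝ} (hA : A ≤ 100 * n * Lam) : A ≤ x n ^ 1002 := by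
  refine hA.trans ?_
  have h1 : (100 : ℝ) ≤ x n := PB.cst h (PB.big_num (by norm_num))
  have h2 := h.Lam_le
  have h3 := h.x_pos
  have h4 : 0 ≤ x n ^ 1000 := by positivity
  have e : x n ^ 1002 = x n * x n ^ 1000 * x n := by ring
  have e1 : 100 * n * Lam = 100 * x n ^ 1000 * Lam := by rw [h.n_eq]
  rw [e, e1]
  exact mul_le_mul (mul_le_mul_of_nonneg_right h1 h4) h2 (Lam0 h) (by positivity)

/-- `1/al = exp Lam` -/
theorem inv_al : 1 / PA.al Lam = Real.exp Lam := by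
  unfold PA.al
  rw [Real.exp_neg, one_div, inv_inv]

/-- rare events, all epochs together, with a factor `c Lam^k ≤ x^j` -/
theorem rare_x (h : Big Lam n) {N b : ℝ} {j : ℕ} (hN : N ≤ PB.Ne Lam n) (hb0 : 0 ≤ b) (hb : b ≤ x n ^ j) (hj : j ≤ 10000) :
    N * (Real.exp (-LL Lam n) / PA.al Lam) * b ≤ (x n)⁻¹ ^ 1000 := by
  have hal : 0 < PA.al Lam := PA.al_pos
  have h1 : N * (Real.exp (-LL Lam n) / PA.al Lam) ≤ (x n)⁻¹ ^ (j + 1000) := by
    refine (mul_le_mul_of_nonneg_right hN (by positivity)).trans ?_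
    refine (PB.Ne_rare h).trans ((PB.exp_lg h).trans ?_)
    exact PB.xi_mono h (by omega)
  exact mulx h j 1000 h1 hb0 hb

/-! ### the terms -/

/-- `a / (log B - 1) ≤ a` -/
theorem div_log {a B : ℝ} (ha : 0 ≤ a) (hB : 2 ≤ Real.log B) : a / (Real.log B - 1) ≤ a := by
  rw [div_le_iff₀ (by linarith)]
  nlinarith

theorem div_log' {a B : ℝ} (ha : 0 ≤ a) (hB : 2 ≤ Real.log B) : a / Real.log B ≤ a := by
  rw [div_le_iff₀ (by linarith)]
  nlinarith

/-- bad pairs: `c Lam eta A`, `c ≤ 2^1000` -/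
theorem t_bad (h : Big Lam n) {c A : ℝ} (hc0 : 0 ≤ c) (hc : c ≤ 2 ^ 1000) (hA0 : 0 ≤ A) (hA : A ≤ 100 * n * Lam) :
    PB.eta n * (c * Lam * A) ≤ (x n)⁻¹ ^ 900 := by
  have hx := h.x_pos
  have h1 : c * Lam * A ≤ x n ^ 1004 := by
    have e : x n ^ 1004 = x n * x n ^ 1 * x n ^ 1002 := by ring
    rw [e]
    exact mul_le_mul (mul_le_mul (PB.cst h hc) (Lam_x h) (Lam0 h) hx.le) (A_x h hA) hA0 (by positivity)
  refine mulx h 1004 900 ?_ (mul_nonneg (mul_nonneg hc0 (Lam0 h)) hA0) h1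
  rw [PB.eta_eq h]
  exact PB.xi_mono h (by norm_num)

/-- the density: `c dl Lam` -/
theorem t_dl (h : Big Lam n) {c : ℝ} (hc0 : 0 ≤ c) (hc : c ≤ 2 ^ 1000) : PB.dl n * (c * Lam) ≤ (x n)⁻¹ ^ 480 := by
  have hx := h.x_pos
  have h1 : c * Lam ≤ x n ^ 2 := by
    have e : x n ^ 2 = x n * x n ^ 1 := by ring
    rw [e]
    exact mul_le_mul (PB.cst h hc) (Lam_x h) (Lam0 h) hx.le
  exact mulx h 2 480 ((PB.dl_le h).trans (PB.xi_mono h (by norm_num))) (mul_nonneg hc0 (Lam0 h)) h1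

/-- the rows (A), (B): `c lam Lam` -/
theorem t_lam (h : Big Lam n) {c : ℝ} (hc0 : 0 ≤ c) (hc : c ≤ 2 ^ 1000) : PB.lam Lam n * (c * Lam) ≤ (x n)⁻¹ ^ 480 := by
  have hx := h.x_pos
  have h1 : c * Lam ≤ x n ^ 2 := by
    have e : x n ^ 2 = x n * x n ^ 1 := by ring
    rw [e]
    exact mul_le_mul (PB.cst h hc) (Lam_x h) (Lam0 h) hx.le
  exact mulx h 2 480 ((PB.lam_le h).trans (PB.xi_mono h (by norm_num))) (mul_nonneg hc0 (Lam0 h)) h1

/-- the rows (C): `lam (1/n) c A` -/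
theorem t_C (h : Big Lam n) {c A : ℝ} (hc0 : 0 ≤ c) (hc : c ≤ 2 ^ 1000) (hA0 : 0 ≤ A) (hA : A ≤ 100 * n * Lam) :
    PB.lam Lam n * (c * (1 / n) * A) ≤ (x n)⁻¹ ^ 480 := by
  have hx := h.x_pos
  have hn := h.n_pos
  have h1 : 1 / n * A ≤ 100 * Lam := by
    rw [one_div, inv_mul_le_iff₀ hn]
    linarith
  have h2 : c * (1 / n) * A ≤ x n ^ 3 := by
    have e : x n ^ 3 = x n * (x n * x n ^ 1) := by ring
    rw [e, mul_assoc]
    have h3 : 100 * Lam ≤ x n * x n ^ 1 :=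
      mul_le_mul (PB.cst h (PB.big_num (by norm_num))) (Lam_x h) (Lam0 h) hx.le
    exact mul_le_mul (PB.cst h hc) (h1.trans h3) (by positivity) hx.le
  exact mulx h 3 480 ((PB.lam_le h).trans (PB.xi_mono h (by norm_num))) (by positivity) h2

/-- jump epochs: `c (dB + lamJ) Lam` -/
theorem t_J (h : Big Lam n) {c : ℝ} (hc0 : 0 ≤ c) (hc : c ≤ 2 ^ 1000) :
    (dB n + PB.lamJ Lam n) * (c * Lam) ≤ (x n)⁻¹ ^ 480 := by
  have hx := h.x_pos
  have h1 : c * Lam ≤ x n ^ 2 := by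
    have e : x n ^ 2 = x n * x n ^ 1 := by ring
    rw [e]
    exact mul_le_mul (PB.cst h hc) (Lam_x h) (Lam0 h) hx.le
  have h2 : dB n + PB.lamJ Lam n ≤ (x n)⁻¹ ^ (2 + 480) := by
    have e1 : dB n ≤ (x n)⁻¹ ^ 490 := by
      rw [PB.dB_eq h]
      exact PB.xi_mono h (by norm_num)
    have e2 := PB.lamJ_le h
    have e3 := PB.absorb h (C := 2) (PB.big_num (by norm_num)) 489
    have e4 := PB.xi_mono h (show 482 ≤ 489 by norm_num)
    have e5 : (2 + 480 : ℕ) = 482 := rfl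
    rw [e5]
    linarith
  exact mulx h 2 480 h2 (mul_nonneg hc0 (Lam0 h)) h1

/-- jump epochs, the digit: `c (dB + lam') Lam` with `lam' = sg (LL + 1) + Bs (4/dB) (sg (Lam + 1))` -/
theorem t_J' (h : Big Lam n) {c : ℝ} (hc0 : 0 ≤ c) (hc : c ≤ 2 ^ 1000) :
    (dB n + (PB.sg n * (LL Lam n + 1) + PB.Bs * (4 / dB n) * (PB.sg n * (Lam + 1)))) * (c * Lam) ≤ (x n)⁻¹ ^ 480 := by
  refine le_trans (mul_le_mul_of_nonneg_right ?_ (mul_nonneg hc0 (Lam0 h))) (t_J h hc0 hc)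
  have h1 := PB.LL_ge h
  have h2 := PB.sg_pos h
  have h3 := h.Lam1
  have h4 := PB.dB_pos h
  have h5 : PB.sg n ≤ PB.sgc Lam n := by
    unfold PB.sgc
    have e1 : 8 * PB.sg n * (Lam + 3) * (LL Lam n + 1) = PB.sg n * (8 * ((Lam + 3) * (LL Lam n + 1))) := by ring
    rw [e1]
    have e2 : 1 ≤ 8 * ((Lam + 3) * (LL Lam n + 1)) := by nlinarith
    nlinarith
  unfold PB.lamJ
  have h6 : PB.sg n * (LL Lam n + 1) ≤ PB.sgc Lam n * (LL Lam n + 1) := mul_le_mul_of_nonneg_right h5 (by linarith)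
  have h7 : PB.Bs * (4 / dB n) * (PB.sg n * (Lam + 1)) ≤ PB.Bs * (4 / dB n) * (PB.sgc Lam n * (Lam + 1)) := by
    refine mul_le_mul_of_nonneg_left (mul_le_mul_of_nonneg_right h5 (by linarith)) ?_
    unfold PB.Bs
    positivity
  linarith

/-- tiny half step classes -/
theorem t_tiny (h : Big Lam n) {A : ℝ} (hA0 : 0 ≤ A) (hA : A ≤ 100 * n * Lam) :
    Real.log (1 / PA.al Lam) * (Real.exp (-LL Lam n) * (8 * A)) ≤ (x n)⁻¹ ^ 900 := by
  have hx := h.x_pos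
  rw [PA.log_al]
  have h1 : 8 * A * Lam ≤ x n ^ 1004 := by
    have e : x n ^ 1004 = x n * x n ^ 1002 * x n ^ 1 := by ring
    rw [e]
    exact mul_le_mul (mul_le_mul (PB.cst h (PB.big_num (by norm_num))) (A_x h hA) hA0 hx.le) (Lam_x h) (Lam0 h) (by positivity)
  have h2 : Real.exp (-LL Lam n) ≤ (x n)⁻¹ ^ (1004 + 900) := by
    refine le_trans ?_ ((PB.exp_lg h).trans (PB.xi_mono h (by norm_num)))
    refine Real.exp_le_exp.2 ?_
    rw [PB.LL_eq]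
    linarith [h.lg_ge]
  have h3 := mulx h 1004 900 h2 (mul_nonneg (mul_nonneg (by norm_num) hA0) (Lam0 h)) h1
  refine le_trans (le_of_eq ?_) h3
  ring

/-- `M_K` -/
theorem mk_le (h : Big Lam n) : PB.sg n * (Real.log (1 / PA.al Lam) + 1) ≤ (x n)⁻¹ ^ 900 := by
  have hx := h.x_pos
  rw [PA.log_al]
  exact mulx h 2 900 (by rw [PB.sg_eq h]; exact PB.xi_mono h (by norm_num)) (by linarith [h.Lam1]) (PB.Lam1_le h)

/-- the main term of KEY -/
theorem t_kd (h : Big Lam n) {d : ℝ} (hd : d ≤ PB.dS Lam n) : 4 * PB.Bk * kd d * Lam ≤ (x n)⁻¹ ^ 480 := by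
  have hx := h.x_pos
  have h0 : kd d ≤ kd (PB.dS Lam n) := by
    unfold kd
    have := Real.sqrt_le_sqrt hd
    linarith
  have h1 : kd d ≤ (x n)⁻¹ ^ (2 + 480) := h0.trans ((PB.kd_le h).trans (PB.xi_mono h (by norm_num)))
  have h2 : 1600 * Lam ≤ x n ^ 2 := by
    have e : x n ^ 2 = x n * x n ^ 1 := by ring
    rw [e]
    exact mul_le_mul (PB.cst h (PB.big_num (by norm_num))) (Lam_x h) (Lam0 h) hx.le
  have h3 := mulx h 2 480 h1 (mul_nonneg (by norm_num) (Lam0 h)) h2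
  refine le_trans (le_of_eq ?_) h3
  unfold PB.Bk
  ring

/-- `Lam + 2 A / n ≤ x^2` -/
theorem LamA_x (h : Big Lam n) {A : ℝ} (hA : A ≤ 100 * n * Lam) : 4 * Lam + 2 * A / n ≤ x n ^ 2 := by
  have hn := h.n_pos
  have hx := h.x_pos
  have h1 : 2 * A / n ≤ 200 * Lam := by
    rw [div_le_iff₀ hn]
    linarith
  have e : x n ^ 2 = x n * x n ^ 1 := by ring
  have h2 : 204 * Lam ≤ x n * x n ^ 1 := mul_le_mul (PB.cst h (PB.big_num (by norm_num))) (Lam_x h) (Lam0 h) hx.le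
  rw [e]
  linarith

/-- the part `psi` of the normal epochs (helper63) -/
theorem psi_le (h : Big Lam n) {A N : ℝ} (hA0 : 0 ≤ A) (hA : A ≤ 100 * n * Lam) (hN : N ≤ PB.Ne Lam n) :
    PB.lam Lam n * (4 * Lam + 2 * A / n) +
      5 * (Real.log (1 / PA.al Lam) * (Real.exp (-LL Lam n) / PA.al Lam)) * N ≤ (x n)⁻¹ ^ 470 := by
  have hx := h.x_pos
  have hn := h.n_pos
  have hL := Lam0 h
  rw [PA.log_al]
  have b1 : PB.lam Lam n * (4 * Lam + 2 * A / n) ≤ (x n)⁻¹ ^ 480 :=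
    mulx h 2 480 ((PB.lam_le h).trans (PB.xi_mono h (by norm_num))) (by positivity) (LamA_x h hA)
  have r4 : 5 * Lam ≤ x n ^ 2 := by
    have e : x n ^ 2 = x n * x n ^ 1 := by ring
    rw [e]
    exact mul_le_mul (PB.cst h (PB.big_num (by norm_num))) (Lam_x h) (Lam0 h) hx.le
  have b2 : 5 * (Lam * (Real.exp (-LL Lam n) / PA.al Lam)) * N ≤ (x n)⁻¹ ^ 1000 := by
    refine le_trans (le_of_eq ?_) (rare_x h hN (mul_nonneg (by norm_num) hL) r4 (by norm_num))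
    ring
  have m2 := PB.xi_mono h (show 480 ≤ 1000 by norm_num)
  refine le_trans (b := 2 * (x n)⁻¹ ^ (470 + 1)) ?_ (PB.absorb h (PB.big_num (by norm_num)) 470)
  have m3 := PB.xi_mono h (show 470 + 1 ≤ 480 by norm_num)
  linarith

/-! ### the inputs of `concl_B` -/

/-- a sum of at most `2^1000` terms -/
theorem sum_x (h : Big Lam n) {a c : ℝ} {j k : ℕ} (hc : c ≤ 2 ^ 1000) (ha : a ≤ c * (x n)⁻¹ ^ j) (hjk : k + 1 ≤ j) :
    a ≤ (x n)⁻¹ ^ k := by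
  rcases le_or_gt 0 c with hc0 | hc0
  · exact ha.trans ((mul_le_mul_of_nonneg_left (PB.xi_mono h hjk) hc0).trans (PB.absorb h hc k))
  · have h1 : 0 ≤ (x n)⁻¹ ^ j := pow_nonneg (PB.xi_pos h).le _
    have h2 : 0 ≤ (x n)⁻¹ ^ k := pow_nonneg (PB.xi_pos h).le _
    nlinarith

/-- loss of the normal epochs -/
theorem hN_le (h : Big Lam n) {A N : ℝ} (hA0 : 0 ≤ A) (hA : A ≤ 100 * n * Lam) (hN : N ≤ PB.Ne Lam n) :
    Lam * (20 * (1 / n ^ 2) / Real.log PB.Bk) * A + PB.dl n * Lam / (Real.log PB.Bk - 1) + 4 * PB.lam Lam n * Lam +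
      4 * Lam * (Real.exp (-LL Lam n) / PA.al Lam) * N +
      PB.lam Lam n * (2 * (1 / n) / (Real.log PB.A - 1)) * A + Lam * (Real.exp (-LL Lam n) / PA.al Lam) * N ≤
      (x n)⁻¹ ^ 400 := by
  have hx := h.x_pos
  have hn := h.n_pos
  have hL := Lam0 h
  have hl := PB.lam_nonneg h
  have b1 : Lam * (20 * (1 / n ^ 2) / Real.log PB.Bk) * A ≤ (x n)⁻¹ ^ 900 := by
    have e1 := div_log' (a := 20 * (1 / n ^ 2)) (by positivity) PB.logBk
    have e2 := mul_le_mul_of_nonneg_right (mul_le_mul_of_nonneg_left e1 hL) hA0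
    refine e2.trans (le_trans (le_of_eq ?_) (t_bad h (c := 20) (by norm_num) (PB.big_num (by norm_num)) hA0 hA))
    unfold PB.eta
    ring
  have b2 : PB.dl n * Lam / (Real.log PB.Bk - 1) ≤ (x n)⁻¹ ^ 480 := by
    have e0 : 0 ≤ PB.dl n := by
      unfold PB.dl
      have := PB.dB_pos h
      positivity
    have e1 := div_log (a := PB.dl n * Lam) (mul_nonneg e0 hL) PB.logBk
    refine e1.trans (le_trans (le_of_eq ?_) (t_dl h (c := 1) (by norm_num) (PB.big_num (by norm_num))))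
    ring
  have b3 : 4 * PB.lam Lam n * Lam ≤ (x n)⁻¹ ^ 480 := by
    refine le_trans (le_of_eq ?_) (t_lam h (c := 4) (by norm_num) (PB.big_num (by norm_num)))
    ring
  have r4 : (5 : ℝ) * Lam ≤ x n ^ 2 := by
    have e : x n ^ 2 = x n * x n ^ 1 := by ring
    rw [e]
    exact mul_le_mul (PB.cst h (PB.big_num (by norm_num))) (Lam_x h) (Lam0 h) hx.le
  have b4 : 4 * Lam * (Real.exp (-LL Lam n) / PA.al Lam) * N + Lam * (Real.exp (-LL Lam n) / PA.al Lam) * N ≤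
      (x n)⁻¹ ^ 1000 := by
    refine le_trans (le_of_eq ?_) (rare_x h hN (mul_nonneg (by norm_num) hL) r4 (by norm_num))
    ring
  have b5 : PB.lam Lam n * (2 * (1 / n) / (Real.log PB.A - 1)) * A ≤ (x n)⁻¹ ^ 480 := by
    have e1 := div_log (a := 2 * (1 / n)) (by positivity) PB.logA
    have e2 := mul_le_mul_of_nonneg_right (mul_le_mul_of_nonneg_left e1 hl) hA0
    refine e2.trans (le_trans (le_of_eq ?_) (t_C h (c := 2) (by norm_num) (PB.big_num (by norm_num)) hA0 hA))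
    ring
  have m1 := PB.xi_mono h (show 480 ≤ 900 by norm_num)
  have m2 := PB.xi_mono h (show 480 ≤ 1000 by norm_num)
  refine sum_x h (c := 5) (j := 480) (PB.big_num (by norm_num)) ?_ (by norm_num)
  linarith

/-- loss of the jump epochs -/
theorem hJ_le (h : Big Lam n) {N c : ℝ} (hN : N ≤ PB.Ne Lam n) (hc0 : 0 ≤ c) (hc : c ≤ 2 ^ 20) :
    (dB n + PB.lamJ Lam n) / (Real.log PB.Bk - 1) * (c * Lam) + c * Lam * (Real.exp (-LL Lam n) / PA.al Lam) * N ≤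
      (x n)⁻¹ ^ 400 := by
  have hx := h.x_pos
  have hL := Lam0 h
  have e0 : 0 ≤ dB n + PB.lamJ Lam n := add_nonneg (PB.dB_pos h).le (PB.lamJ_nonneg h)
  have b1 : (dB n + PB.lamJ Lam n) / (Real.log PB.Bk - 1) * (c * Lam) ≤ (x n)⁻¹ ^ 480 := by
    refine le_trans (mul_le_mul_of_nonneg_right (div_log e0 PB.logBk) (mul_nonneg hc0 hL)) ?_
    exact t_J h hc0 (PB.big_num hc)
  have r4 : c * Lam ≤ x n ^ 2 := by
    have e : x n ^ 2 = x n * x n ^ 1 := by ring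
    rw [e]
    exact mul_le_mul (PB.cst h (PB.big_num hc)) (Lam_x h) (Lam0 h) hx.le
  have b2 : c * Lam * (Real.exp (-LL Lam n) / PA.al Lam) * N ≤ (x n)⁻¹ ^ 1000 := by
    refine le_trans (le_of_eq ?_) (rare_x h hN (mul_nonneg hc0 hL) r4 (by norm_num))
    ring
  have m2 := PB.xi_mono h (show 480 ≤ 1000 by norm_num)
  refine sum_x h (c := 2) (j := 480) (PB.big_num (by norm_num)) ?_ (by norm_num)
  linarith

/-- **the hypothesis `n3` of `SumB.concl_B`**, `κ = 1/4` -/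
theorem n3_le (h : Big Lam n) {mk hN hJ A d : ℝ} {C : ℕ} (hC : 1 ≤ C) (hmk : mk ≤ (x n)⁻¹ ^ 300)
    (hNm : hN ≤ (x n)⁻¹ ^ 300) (hJm : hJ ≤ (x n)⁻¹ ^ 300) (hA0 : 0 ≤ A) (hA : A ≤ 100 * n * Lam)
    (hd : d ≤ PB.dS Lam n) :
    2 * (mk + (hN + hJ + Real.log (1 / PA.al Lam) * (Real.exp (-LL Lam n) * (8 * A))) + 4 * PB.Bk * kd d * Lam) ≤
      (C : ℝ) * Lam ^ C * n ^ (-(1 / 4 : ℝ)) := by
  have b1 := t_tiny h hA0 hA
  have b2 := t_kd h hd
  have m1 := PB.xi_mono h (show 300 ≤ 900 by norm_num)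
  have m2 := PB.xi_mono h (show 300 ≤ 480 by norm_num)
  have h1 : 2 * (mk + (hN + hJ + Real.log (1 / PA.al Lam) * (Real.exp (-LL Lam n) * (8 * A))) + 4 * PB.Bk * kd d * Lam) ≤
      (x n)⁻¹ ^ 250 := by
    refine sum_x h (c := 10) (j := 300) (PB.big_num (by norm_num)) ?_ (by norm_num)
    linarith
  have h2 : (x n)⁻¹ ^ 250 = n ^ (-(1 / 4 : ℝ)) := by
    rw [Pool.Agent.M3.S3.PT.ipow_rpow h 250]
    norm_num
  rw [h2] at h1
  refine h1.trans ?_
  have h3 : 0 ≤ n ^ (-(1 / 4 : ℝ)) := Real.rpow_nonneg h.n_pos.le _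
  have h4 : (1 : ℝ) ≤ C := by exact_mod_cast hC
  have h5 : (1 : ℝ) ≤ Lam ^ C := one_le_pow₀ h.Lam1
  have h6 : (1 : ℝ) ≤ C * Lam ^ C := one_le_mul_of_one_le_of_one_le h4 h5
  nlinarith

/-- the hypothesis `n1` of `SumB.concl_B` -/
theorem n1_le (h : Big Lam n) {A : ℝ} {C : ℕ} (hC : 200 ≤ C) (hA : A ≤ 100 * n * Lam) :
    2 * A ≤ (C : ℝ) * n * Lam ^ C := by
  have h1 : (200 : ℝ) ≤ C := by exact_mod_cast hC
  have h2 : Lam ≤ Lam ^ C := by
    calc Lam = Lam ^ 1 := (pow_one _).symm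
      _ ≤ Lam ^ C := pow_le_pow_right₀ h.Lam1 (by omega)
  have hn := h.n_pos
  have h3 : 200 * n ≤ (C : ℝ) * n := mul_le_mul_of_nonneg_right h1 hn.le
  have h4 : 200 * n * Lam ≤ (C : ℝ) * n * Lam ^ C := mul_le_mul h3 h2 (Lam0 h) (by positivity)
  linarith

/-! ### the exact forms of the modules -/

/-- bits: `4 n Lam` -/
theorem A4 (h : Big Lam n) : 0 ≤ 4 * n * Lam ∧ 4 * n * Lam ≤ 100 * n * Lam := by
  have hn := h.n_pos
  have hL := Lam0 h
  have h1 : 0 ≤ n * Lam := mul_nonneg hn.le hL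
  constructor <;> nlinarith

/-- `NumE.stNum_le` -/
theorem Nn_le (h : Big Lam n) : 600 * n ^ 7 * Real.exp (5 * Lam) + 17 * (4 * n * Lam) * n ^ 4 * Real.exp (2 * Lam) ≤
    PB.Ne Lam n := by
  have hn := PB.n_ge1 h
  have hn0 := h.n_pos
  have hn4 := PB.n_ge4 h
  have hL := h.Lam1
  set E := Real.exp Lam with hE
  have hE1 : 1 ≤ E := Real.one_le_exp (by linarith)
  have hE0 : 0 < E := Real.exp_pos _
  have hLE : Lam ≤ E := by linarith [Real.add_one_le_exp Lam]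
  have e5 : Real.exp (5 * Lam) = E ^ 5 := by rw [← Real.exp_nat_mul]; norm_num
  have e2 : Real.exp (2 * Lam) = E ^ 2 := by rw [← Real.exp_nat_mul]; norm_num
  have e8 : PB.Ne Lam n = E ^ 8 * n ^ 8 := by
    unfold PB.Ne lg
    have c1 : Real.log n * (8 : ℕ) = Real.log (n ^ 8) := by
      rw [Real.log_pow]
      ring
    have c2 : 8 * (Lam + Real.log n) = (8 : ℕ) * Lam + Real.log (n ^ 8) := by
      rw [← c1]
      push_cast
      ring
    rw [c2, Real.exp_add, Real.exp_log (by positivity), Real.exp_nat_mul]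
  rw [e5, e2, e8]
  have a1 : n ^ 7 * E ^ 5 ≤ n ^ 7 * E ^ 8 := mul_le_mul_of_nonneg_left (pow_le_pow_right₀ hE1 (by norm_num)) (by positivity)
  have a2 : n * Lam * n ^ 4 * E ^ 2 ≤ n ^ 7 * E ^ 8 := by
    have b1 : n * Lam * n ^ 4 * E ^ 2 ≤ n * E * n ^ 4 * E ^ 2 :=
      mul_le_mul_of_nonneg_right (mul_le_mul_of_nonneg_right (mul_le_mul_of_nonneg_left hLE hn0.le) (by positivity))
        (by positivity)
    have b2 : n * E * n ^ 4 * E ^ 2 = n ^ 5 * E ^ 3 := by ring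
    have b3 : n ^ 5 * E ^ 3 ≤ n ^ 7 * E ^ 8 :=
      mul_le_mul (pow_le_pow_right₀ hn (by norm_num)) (pow_le_pow_right₀ hE1 (by norm_num)) (by positivity) (by positivity)
    linarith
  have a3 : 668 * (n ^ 7 * E ^ 8) ≤ E ^ 8 * n ^ 8 := by
    have b1 : E ^ 8 * n ^ 8 = n * (n ^ 7 * E ^ 8) := by ring
    rw [b1]
    exact mul_le_mul_of_nonneg_right (by linarith) (by positivity)
  nlinarith

/-- the share of the bad pairs in `StBad` -/
theorem eta_le (h : Big Lam n) : 4 * ((nbB (PA.al Lam) n).kap2 + 4 * (nbB (PA.al Lam) n).kap3 / (nbB (PA.al Lam) n).kap1 ^ 2) ≤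
    PB.eta n := by
  refine le_trans (le_of_eq ?_) (le_trans (?_ : 4 * (nbB (PA.al Lam) n).kap2 +
    16 * ((nbB (PA.al Lam) n).kap3 / (nbB (PA.al Lam) n).kap1 ^ 2) ≤ _) (PB.eta_ge h))
  · ring
  · have h1 : 0 ≤ (nbB (PA.al Lam) n).kap3 / (nbB (PA.al Lam) n).kap1 ^ 2 :=
      div_nonneg (PB.kap3_pos h).le (by positivity)
    linarith

/-- `2 kap1 / al^2 ≤ 1/20` -/
theorem kr_le (h : Big Lam n) : 2 * (nbB (PA.al Lam) n).kap1 / PA.al Lam ^ 2 ≤ 1 / 20 := by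
  have h1 := PB.five_kap1 h
  have h2 : 1 / n ≤ 1 / 4 := one_div_le_one_div_of_le (by norm_num) (by linarith [PB.n_ge4 h])
  linarith

/-- **the constant of `stNorm`** (`Norm.lean`), `G = 2 Lam` -/
theorem hN_exact (h : Big Lam n) {A N : ℝ} (hA0 : 0 ≤ A) (hA : A ≤ 100 * n * Lam) (hN : N ≤ PB.Ne Lam n) :
    Real.log (1 / PA.al Lam) * (4 * ((nbB (PA.al Lam) n).kap2 + 4 * (nbB (PA.al Lam) n).kap3 /
        (nbB (PA.al Lam) n).kap1 ^ 2) / Real.log 400) * A +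
      (dB n + 5 * (2 * (nbB (PA.al Lam) n).kap1 / PA.al Lam ^ 2)) / (Real.log 400 - 1) * (2 * Lam) +
      ((1 / n * (LL Lam n + 1) + 20 * (4 / dB n) * PB.e0 Lam n) * (4 * Lam + 2 * A / n) +
        5 * (Real.log (1 / PA.al Lam) * (Real.exp (-LL Lam n) / PA.al Lam)) * N) ≤ (x n)⁻¹ ^ 400 := by
  have hx := h.x_pos
  have hn := h.n_pos
  have hL := Lam0 h
  have h3 := psi_le h hA0 hA hN
  have e3 : PB.lam Lam n = 1 / n * (LL Lam n + 1) + 20 * (4 / dB n) * PB.e0 Lam n := rfl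
  rw [e3] at h3
  have hB : 2 ≤ Real.log 400 := PB.logBk
  have k1 := PB.kap1_pos h
  have k2 := PB.kap2_pos h
  have k3 := PB.kap3_pos h
  have b1 : Real.log (1 / PA.al Lam) * (4 * ((nbB (PA.al Lam) n).kap2 + 4 * (nbB (PA.al Lam) n).kap3 /
        (nbB (PA.al Lam) n).kap1 ^ 2) / Real.log 400) * A ≤ (x n)⁻¹ ^ 900 := by
    rw [PA.log_al]
    have e1 := div_log' (a := 4 * ((nbB (PA.al Lam) n).kap2 + 4 * (nbB (PA.al Lam) n).kap3 /
        (nbB (PA.al Lam) n).kap1 ^ 2)) (by positivity) hB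
    have e2 := mul_le_mul_of_nonneg_right (mul_le_mul_of_nonneg_left (e1.trans (eta_le h)) hL) hA0
    refine e2.trans (le_trans (le_of_eq ?_) (t_bad h (c := 1) (by norm_num) (PB.big_num (by norm_num)) hA0 hA))
    ring
  have b2 : (dB n + 5 * (2 * (nbB (PA.al Lam) n).kap1 / PA.al Lam ^ 2)) / (Real.log 400 - 1) * (2 * Lam) ≤
      (x n)⁻¹ ^ 480 := by
    have e0 : 0 ≤ dB n + 5 * (2 * (nbB (PA.al Lam) n).kap1 / PA.al Lam ^ 2) := by
      have := PB.dB_pos h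
      positivity
    have e1 := div_log e0 hB
    have e2 : dB n + 5 * (2 * (nbB (PA.al Lam) n).kap1 / PA.al Lam ^ 2) ≤ PB.dl n := by
      unfold PB.dl
      linarith [PB.five_kap1 h]
    exact (mul_le_mul_of_nonneg_right (e1.trans e2) (mul_nonneg (by norm_num) hL)).trans
      (t_dl h (c := 2) (by norm_num) (PB.big_num (by norm_num)))
  have m1 := PB.xi_mono h (show 470 ≤ 900 by norm_num)
  have m2 := PB.xi_mono h (show 470 ≤ 480 by norm_num)
  refine sum_x h (c := 3) (j := 470) (PB.big_num (by norm_num)) ?_ (by norm_num)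
  linarith

/-- **the constant of `stJump_rB`** (`Jump.lean`) -/
theorem hJ_exact (h : Big Lam n) {N : ℝ} (hN : N ≤ PB.Ne Lam n) :
    (dB n + JS.lam (dB n) (8 * (1 / n) * (Real.log (1 / PA.al Lam) + 3) * (LL Lam n + 1)) (PA.al Lam) (LL Lam n)) /
        (Real.log PB.Bk - 1) * (2 * Lam) +
      2 * (Real.log (1 / PA.al Lam) * (Real.exp (-LL Lam n) / PA.al Lam)) * N ≤ (x n)⁻¹ ^ 400 := by
  have hL := Lam0 h
  have h1 := hJ_le h hN (c := 2) (by norm_num) (by norm_num)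
  have hl : 2 ≤ Real.log PB.Bk := PB.logBk
  have e1 : JS.lam (dB n) (8 * (1 / n) * (Real.log (1 / PA.al Lam) + 3) * (LL Lam n + 1)) (PA.al Lam) (LL Lam n) ≤
      PB.lamJ Lam n := by
    unfold JS.lam PB.lamJ PB.sgc PB.sg PB.Bs
    rw [PA.log_al]
    have a1 : 0 ≤ 4 / dB n * (8 * (1 / n) * (Lam + 3) * (LL Lam n + 1) * (Lam + 1)) := by
      have := PB.dB_pos h
      have := h.n_pos
      have := PB.LL_ge h
      have h5 : 0 < LL Lam n + 1 := by linarith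
      positivity
    nlinarith
  have e2 : 0 ≤ JS.lam (dB n) (8 * (1 / n) * (Real.log (1 / PA.al Lam) + 3) * (LL Lam n + 1)) (PA.al Lam) (LL Lam n) := by
    rw [PA.log_al]
    refine JS.lam_nonneg (PB.dB_pos h) ?_ PA.al_pos (PB.al_le1 h) (PB.LL_nonneg h)
    have := h.n_pos
    have := PB.LL_ge h
    have h5 : 0 < LL Lam n + 1 := by linarith
    positivity
  have b1 : (dB n + JS.lam (dB n) (8 * (1 / n) * (Real.log (1 / PA.al Lam) + 3) * (LL Lam n + 1)) (PA.al Lam) (LL Lam n)) /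
        (Real.log PB.Bk - 1) * (2 * Lam) ≤ (dB n + PB.lamJ Lam n) / (Real.log PB.Bk - 1) * (2 * Lam) :=
    mul_le_mul_of_nonneg_right (div_le_div_of_nonneg_right (by linarith) (by linarith)) (mul_nonneg (by norm_num) hL)
  rw [PA.log_al] at b1 ⊢
  have e4 : 2 * (Lam * (Real.exp (-LL Lam n) / PA.al Lam)) * N = 2 * Lam * (Real.exp (-LL Lam n) / PA.al Lam) * N := by ring
  rw [e4]
  linarith

end NB

end

end Pool.Agent.M3.S3B
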