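import Pool.Agent.M3.S3B.Main
import Pool.Agent.M3.S3B.Cnt
import Pool.Agent.M3.S3.DigB

/-!
# M3.S3B.NumE: the module `StNum` of `Main` (helper48)

* `sum_mB` : `∑_(t<K) E3 (mB dg t (U t))^2 ≤ 2 btB` for every `Rt`;
* `nstA` : the explicit number; `stNum_raw` : `nst ≤ nstA` with `J`, `A = btB`;
* `stNum_le` : `StNum (rB D dg al n K) K (600 n^7 e^(5 Lam) + 17 A n^4 e^(2 Lam))` from `Hyp3`, `StBits .. A`;
* `nends_le` : the same bound for the number of ends of epochs.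
-/

set_option autoImplicit false
set_option linter.unusedSectionVars false

namespace Pool.Agent.M3.S3B

open Finset Pool.Agent.PWZ Pool.Agent.M3 Pool.Agent.M3.S3

noncomputable section

section general

variable {X β γ ι φ : Type*} [Fintype X] [Fintype β] [Fintype γ] [Fintype φ] {D : Dat X β γ ι φ} {dg : ℕ → X → ℝ}
  {K : ℕ}

/-- the squares of the mean digits are paid by the bits -/
theorem sum_mB (R : Rt D) (hd : ∀ t x, dg t x = 1 ∨ dg t x = -1)
    (hc : ∀ t < K, ∀ x x', D.qa (t + 1) x = D.qa (t + 1) x' ↔ D.qa t x = D.qa t x' ∧ dg t x = dg t x')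
    (hb : ∀ t < K, ∀ x, ∑ y ∈ D.cA t x, dg t y = 0) :
    ∑ t ∈ range K, E3 (fun x b c => mB dg t (R.U t x b c) ^ 2) ≤ 2 * btB R K := by
  have h := DigB.dig_sum (V := R.U) (H := R.hf) R.refCl hd hc hb (fun t _ x b c y => ?_)
  · unfold btB
    rw [add_comm]
    exact h
  · constructor
    · intro hy
      exact ⟨R.hf_sub_U t x b c hy, R.hf_qa hy⟩
    · rintro ⟨h1, h2⟩
      exact mem_W.2 ⟨(mem_W.1 h1).1, h2⟩

/-- the bits without the start -/
theorem bits_le_btB (R : Rt D) : R.bits K ≤ btB R K := by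
  unfold btB Rt.bits
  have h : 0 ≤ E3 (fun x b c => Real.log (((D.cA 0 x).card : ℝ) / (R.U 0 x b c).card)) := by
    refine E3_nonneg fun x b c => ?_
    have hu0 : (0 : ℝ) < (R.U 0 x b c).card := by
      exact_mod_cast Finset.card_pos.2 ⟨x, R.self_U 0 x b c⟩
    have hle : ((R.U 0 x b c).card : ℝ) ≤ (D.cA 0 x).card := by
      exact_mod_cast Finset.card_le_card (R.U_sub 0 x b c)
    exact Real.log_nonneg ((one_le_div hu0).2 hle)
  linarith

/-- the explicit number -/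
def nstA (al n J A : ℝ) : ℝ :=
  1 + ((2 * J + (1 + 2 * J) / (nbB al n).kap1 ^ 2) / (nbB al n).kap2 + A / (nbB al n).eps3 +
    2 * ((1 + 2 * J) / (nbB al n).kap3) + 16 * A)

theorem nbB_pos {al n : ℝ} (ha : 0 < al) (hn : 0 < n) : 0 < (nbB al n).kap1 ∧ 0 < (nbB al n).kap2 ∧
    0 < (nbB al n).kap3 ∧ 0 < (nbB al n).eps3 := by
  unfold nbB
  exact ⟨by positivity, by positivity, by positivity, by positivity⟩

theorem nstA_le {al n Lam A : ℝ} (hn : 1 ≤ n) (hL : 0 ≤ Lam) (ha : Real.exp (-Lam) ≤ al) (hA : 0 ≤ A) :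
    nstA al n (Real.exp Lam) A ≤ 600 * n ^ 7 * Real.exp (5 * Lam) + 17 * A * n ^ 4 * Real.exp (2 * Lam) := by
  set E := Real.exp Lam with hE
  have hE1 : 1 ≤ E := Real.one_le_exp hL
  have hal : 0 < al := (Real.exp_pos _).trans_le ha
  have hia : 1 / al ≤ E := by
    rw [div_le_iff₀ hal]
    have h1 : E * Real.exp (-Lam) = 1 := by rw [hE, ← Real.exp_add]; simp
    nlinarith [mul_le_mul_of_nonneg_left ha (zero_le_one.trans hE1)]
  have hi0 : 0 ≤ 1 / al := by positivity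
  have e5 : Real.exp (5 * Lam) = E ^ 5 := by rw [hE, ← Real.exp_nat_mul]; norm_num
  have e2 : Real.exp (2 * Lam) = E ^ 2 := by rw [hE, ← Real.exp_nat_mul]; norm_num
  rw [e5, e2]
  have hn0 : 0 < n := by linarith
  have p2 : (1 / al) ^ 2 ≤ E ^ 2 := pow_le_pow_left₀ hi0 hia 2
  have p4 : (1 / al) ^ 4 ≤ E ^ 4 := pow_le_pow_left₀ hi0 hia 4
  -- the four terms
  have t1 : (2 * E + (1 + 2 * E) / (nbB al n).kap1 ^ 2) / (nbB al n).kap2 =
      n ^ 3 * (2 * E + (1 + 2 * E) * (64 * n ^ 4 * (1 / al) ^ 4)) := by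
    unfold nbB
    field_simp
    ring
  have t2 : A / (nbB al n).eps3 = A * n ^ 4 * (1 / al) ^ 2 := by
    unfold nbB
    field_simp
  have t3 : (1 + 2 * E) / (nbB al n).kap3 = (1 + 2 * E) * n ^ 3 * (64 * n ^ 4 * (1 / al) ^ 4) := by
    unfold nbB
    field_simp
    ring
  unfold nstA
  rw [t1, t2, t3]
  have h12 : 1 + 2 * E ≤ 3 * E := by linarith
  have hE4 : (1 : ℝ) ≤ E ^ 4 := one_le_pow₀ hE1
  have hE5 : (1 : ℝ) ≤ E ^ 5 := one_le_pow₀ hE1
  have hn4 : (1 : ℝ) ≤ n ^ 4 := one_le_pow₀ hn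
  have hn3 : (0 : ℝ) ≤ n ^ 3 := by positivity
  have hn7 : (1 : ℝ) ≤ n ^ 7 := one_le_pow₀ hn
  have hn37 : n ^ 3 ≤ n ^ 7 := pow_le_pow_right₀ hn (by norm_num)
  have hEE5 : E ≤ E ^ 5 := by
    calc E = E ^ 1 := (pow_one E).symm
      _ ≤ E ^ 5 := pow_le_pow_right₀ hE1 (by norm_num)
  have q1 : n ^ 3 * (2 * E + (1 + 2 * E) * (64 * n ^ 4 * (1 / al) ^ 4)) ≤ 194 * (n ^ 7 * E ^ 5) := by
    have a1 : (1 + 2 * E) * (64 * n ^ 4 * (1 / al) ^ 4) ≤ (3 * E) * (64 * n ^ 4 * E ^ 4) := by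
      refine mul_le_mul h12 ?_ (by positivity) (by linarith)
      exact mul_le_mul_of_nonneg_left p4 (by positivity)
    have a2 : n ^ 3 * (2 * E) ≤ 2 * (n ^ 7 * E ^ 5) := by
      have := mul_le_mul hn37 hEE5 (by linarith) (by positivity)
      linarith
    have a3 : n ^ 3 * ((3 * E) * (64 * n ^ 4 * E ^ 4)) = 192 * (n ^ 7 * E ^ 5) := by ring
    have a4 := mul_le_mul_of_nonneg_left a1 hn3
    rw [mul_add]
    linarith
  have q3 : (1 + 2 * E) * n ^ 3 * (64 * n ^ 4 * (1 / al) ^ 4) ≤ 192 * (n ^ 7 * E ^ 5) := by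
    have a1 : (1 + 2 * E) * n ^ 3 * (64 * n ^ 4 * (1 / al) ^ 4) ≤ (3 * E) * n ^ 3 * (64 * n ^ 4 * E ^ 4) := by
      refine mul_le_mul (mul_le_mul_of_nonneg_right h12 hn3) ?_ (by positivity) (by positivity)
      exact mul_le_mul_of_nonneg_left p4 (by positivity)
    have a3 : (3 * E) * n ^ 3 * (64 * n ^ 4 * E ^ 4) = 192 * (n ^ 7 * E ^ 5) := by ring
    linarith
  have q2 : A * n ^ 4 * (1 / al) ^ 2 ≤ A * n ^ 4 * E ^ 2 := mul_le_mul_of_nonneg_left p2 (by positivity)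
  have q4 : 16 * A ≤ 16 * (A * n ^ 4 * E ^ 2) := by
    have : 1 ≤ n ^ 4 * E ^ 2 := by
      have := one_le_pow₀ hE1 (n := 2)
      nlinarith
    nlinarith
  have q5 : 1 ≤ n ^ 7 * E ^ 5 := by nlinarith
  linarith

end general

variable {X β γ ι φ : Type} [Fintype X] [Fintype β] [Fintype γ] [Fintype φ] {D : Dat X β γ ι φ} {dg : ℕ → X → ℝ}
  {prf prg : ℕ → φ → φ} {al Lam n A : ℝ} {K : ℕ}

theorem btB_nonneg (R : Rt D) : 0 ≤ btB R K :=
  le_trans (Finset.sum_nonneg fun s _ => E3_nonneg fun x b c => log_bits_nonneg R s x b c) (bits_le_btB R)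

theorem stNum_raw (T : D.Thick al) (H : Hyp3 D dg prf prg al K Lam) (hn : 1 ≤ n)
    (hA : StBits (rB D dg al n K) K A) : StNum (rB D dg al n K) K (nstA al n (Real.exp Lam) A) := by
  obtain ⟨k1, k2, k3, k4⟩ := nbB_pos T.pos (show 0 < n by linarith)
  have hU := updOf_ok D H.cf3 H.cg3
  have e := cnt_epochs (Rr := rmB D n) (N := nbB al n) (dg := dg) T hU (Real.exp_pos _).le k1 k2 k3 k4
  have m := sum_mB (rB D dg al n K) H.dg_val H.dg_cell H.dg_bal
  have b1 := bits_le_btB (K := K) (rB D dg al n K)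
  unfold StBits at hA
  have b2 : (rB D dg al n K).bits K / (nbB al n).eps3 ≤ A / (nbB al n).eps3 :=
    div_le_div_of_nonneg_right (b1.trans hA) k4.le
  unfold StNum nst nstA
  refine e.trans ?_
  linarith

/-- **StNum** -/
theorem stNum_le (T : D.Thick al) (H : Hyp3 D dg prf prg al K Lam) (hn : 1 ≤ n)
    (hA : StBits (rB D dg al n K) K A) :
    StNum (rB D dg al n K) K (600 * n ^ 7 * Real.exp (5 * Lam) + 17 * A * n ^ 4 * Real.exp (2 * Lam)) :=
  (stNum_raw T H hn hA).trans (nstA_le hn (zero_le_one.trans H.Lam1) H.alL ((btB_nonneg _).trans hA))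

/-- the number of ends of epochs -/
theorem nends_le (T : D.Thick al) (H : Hyp3 D dg prf prg al K Lam) (hn : 1 ≤ n)
    (hA : StBits (rB D dg al n K) K A) :
    ∑ s ∈ range K, E3 (fun x b c => ind ((rB D dg al n K).nw s x b c)) ≤
      600 * n ^ 7 * Real.exp (5 * Lam) + 17 * A * n ^ 4 * Real.exp (2 * Lam) := by
  obtain ⟨k1, k2, k3, k4⟩ := nbB_pos T.pos (show 0 < n by linarith)
  have hU := updOf_ok D H.cf3 H.cg3
  have e := cnt_nw (Rr := rmB D n) (N := nbB al n) (dg := dg) T hU (Real.exp_pos _).le k1 k2 k3 k4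
  have m := sum_mB (rB D dg al n K) H.dg_val H.dg_cell H.dg_bal
  have b1 := bits_le_btB (K := K) (rB D dg al n K)
  have hA' : btB (rB D dg al n K) K ≤ A := hA
  have b2 : (rB D dg al n K).bits K / (nbB al n).eps3 ≤ A / (nbB al n).eps3 :=
    div_le_div_of_nonneg_right (b1.trans hA') k4.le
  refine (e.trans ?_).trans (nstA_le (al := al) hn (zero_le_one.trans H.Lam1) H.alL ((btB_nonneg _).trans hA'))
  unfold nstA
  linarith

end

end Pool.Agent.M3.S3B
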