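import Pool.Agent.M3.S3B.Main

/-!
# M3.S3B.Tiny: tiny half step classes, critical classes, saturation of the virtual cells (helper87)

* `hlf_U` : `hlf D R.U = R.hf`; `mem_hf`, `hf_filter` : the half step class = the points of `U` with the same digit;
* `pubH` : `U` and `hf` on a half step class; `thB_fac`, `crt_fac`, `crtN_fac`, `thc_fac` : the weights are functions of the states;
* `crt_start` : a critical class is the class of a start (test (iv)); `not_crt_half` : otherwise each half step class is at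
  least a quarter of the class; `not_crt_thB` : then `thB = 1`; `thB_split`;
* `tiny_avg`, `stTiny` : `StTiny R K L (exp (-L) * nst R K)`;
* `stSat` : `StSat R K (1/n)`.
-/

set_option autoImplicit false
set_option linter.unusedSectionVars false

namespace Pool.Agent.M3.S3B

open Finset Pool.Agent.PWZ Pool.Agent.M3 Pool.Agent.M3.S3

noncomputable section

section proc

variable {X β γ ι φ : Type*} [Fintype X] [Fintype β] [Fintype γ] [Fintype φ] {D : Dat X β γ ι φ}

theorem mem_hf_W (R : Rt D) {s : ℕ} {x : X} {b : β} {c : γ} {y : X} :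
    y ∈ R.hf s x b c ↔ y ∈ R.U s x b c ∧ D.qa (s + 1) y = D.qa (s + 1) x := by
  unfold Rt.hf Rt.U
  rw [mem_W, mem_W]
  exact ⟨fun h => ⟨⟨h.1, D.ra s y x h.2⟩, h.2⟩, fun h => ⟨h.1.1, h.2⟩⟩

/-- the half step class of `SumG` is the half step class of the process -/
theorem hlf_U (R : Rt D) : hlf D R.U = R.hf := by
  funext s x b c
  ext y
  rw [mem_hlf, mem_hf_W]

/-- same node at the time `s+1` and `x'` in the half step class -/
theorem pubH (R : Rt D) {s : ℕ} {x x' : X} {b b' : β} {c c' : γ} (hb : D.qb s b = D.qb s b')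
    (hc : D.qc s c = D.qc s c') (hx : x' ∈ R.hf s x b c) :
    R.ep s x' b' c' = R.ep s x b c ∧ R.U s x' b' c' = R.U s x b c ∧ R.hf s x' b' c' = R.hf s x b c := by
  have h1 := (mem_hf_W R).1 hx
  have hS : D.Same s x b c x' b' c' := ⟨(D.ra s x' x h1.2).symm, hb, hc⟩
  obtain ⟨h2, h3⟩ := R.pub s hS h1.1
  refine ⟨h2, h3, ?_⟩
  unfold Rt.hf
  rw [h2]
  exact W_congr h1.2

theorem thB_congr (R : Rt D) {L : ℝ} {s : ℕ} {x x' : X} {b b' : β} {c c' : γ} (hb : D.qb s b = D.qb s b')
    (hc : D.qc s c = D.qc s c') (hx : x' ∈ R.hf s x b c) : thB R L s x' b' c' = thB R L s x b c := by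
  obtain ⟨-, h2, h3⟩ := pubH R hb hc hx
  unfold thB
  rw [h2, h3]

theorem crt_congr (R : Rt D) {N : Nb} {dg : ℕ → X → ℝ} {s : ℕ} {x x' : X} {b b' : β} {c c' : γ}
    (hb : D.qb s b = D.qb s b') (hc : D.qc s c = D.qc s c') (hx : x' ∈ R.U s x b c) :
    crt R N dg s x' b' c' ↔ crt R N dg s x b c := by
  have hS : D.Same s x b c x' b' c' := ⟨(D.mem_cA.1 (R.U_sub s x b c hx)).symm, hb, hc⟩
  unfold crt
  rw [(R.pub s hS hx).2]
  exact (Crit_inv hb hc _).symm

theorem thB_nn (R : Rt D) (L : ℝ) (s : ℕ) (x : X) (b : β) (c : γ) : 0 ≤ thB R L s x b c := ind_nonneg _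

theorem thB_le_one (R : Rt D) (L : ℝ) (s : ℕ) (x : X) (b : β) (c : γ) : thB R L s x b c ≤ 1 := ind_le_one _

theorem thB_ne (R : Rt D) {L : ℝ} {s : ℕ} {x : X} {b : β} {c : γ} (h : thB R L s x b c ≠ 0) :
    Real.exp (-L) * (R.U s x b c).card ≤ ((R.hf s x b c).card : ℝ) := by
  by_contra h1
  exact h (ind_not h1)

theorem bxH_mem (R : Rt D) {t : ℕ} {v w : Sp X β γ φ} (h : (bxH R.refCl t).map v = (bxH R.refCl t).map w) :
    D.qb (t + 1) w.2.1 = D.qb (t + 1) v.2.1 ∧ D.qc (t + 1) w.2.2.1 = D.qc (t + 1) v.2.2.1 ∧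
      v.1 ∈ R.hf t w.1 w.2.1 w.2.2.1 := by
  obtain ⟨h1, h2, h3⟩ := Bx.map_eq.1 h
  refine ⟨(D.mem_cB.1 h2).symm, (D.mem_cC.1 h3).symm, ?_⟩
  have h4 : v.1 ∈ hlf D R.U t w.1 w.2.1 w.2.2.1 := h1
  rw [hlf_U] at h4
  exact h4

theorem bxU_mem (R : Rt D) {t : ℕ} {v w : Sp X β γ φ} (h : (bxU R.refCl t).map v = (bxU R.refCl t).map w) :
    D.qb t w.2.1 = D.qb t v.2.1 ∧ D.qc t w.2.2.1 = D.qc t v.2.2.1 ∧
      v.1 ∈ R.U t w.1 w.2.1 w.2.2.1 := by
  obtain ⟨h1, h2, h3⟩ := Bx.map_eq.1 h
  exact ⟨(D.mem_cB.1 h2).symm, (D.mem_cC.1 h3).symm, h1⟩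

/-- `thB` is a function of the half step state -/
theorem thB_fac (R : Rt D) (L : ℝ) (t : ℕ) :
    Fac (bxH R.refCl t).map (fun w : Sp X β γ φ => thB R L t w.1 w.2.1 w.2.2.1) := by
  intro v w h
  obtain ⟨h1, h2, h3⟩ := bxH_mem R h
  exact thB_congr R (D.qb_le (Nat.le_succ t) h1) (D.qc_le (Nat.le_succ t) h2) h3

/-- critical is a function of the state -/
theorem crt_facU (R : Rt D) (N : Nb) (dg : ℕ → X → ℝ) (t : ℕ) :
    Fac (bxU R.refCl t).map (fun w : Sp X β γ φ => ind (crt R N dg t w.1 w.2.1 w.2.2.1)) := by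
  intro v w h
  obtain ⟨h1, h2, h3⟩ := bxU_mem R h
  exact congrArg ind (propext (crt_congr R h1 h2 h3))

theorem crt_iffH (R : Rt D) (N : Nb) (dg : ℕ → X → ℝ) {t : ℕ} {v w : Sp X β γ φ}
    (h : (bxH R.refCl t).map v = (bxH R.refCl t).map w) :
    crt R N dg t v.1 v.2.1 v.2.2.1 ↔ crt R N dg t w.1 w.2.1 w.2.2.1 := by
  obtain ⟨h1, h2, h3⟩ := bxH_mem R h
  exact crt_congr R (D.qb_le (Nat.le_succ t) h1) (D.qc_le (Nat.le_succ t) h2) (R.hf_sub_U t _ _ _ h3)

/-- critical is a function of the half step state -/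
theorem crt_fac (R : Rt D) (N : Nb) (dg : ℕ → X → ℝ) (t : ℕ) :
    Fac (bxH R.refCl t).map (fun w : Sp X β γ φ => ind (crt R N dg t w.1 w.2.1 w.2.2.1)) := fun _ _ h =>
  congrArg ind (propext (crt_iffH R N dg h))

theorem crtN_fac (R : Rt D) (N : Nb) (dg : ℕ → X → ℝ) (t : ℕ) :
    Fac (bxH R.refCl t).map (fun w : Sp X β γ φ => ind (¬ crt R N dg t w.1 w.2.1 w.2.2.1)) := fun _ _ h =>
  congrArg ind (propext (not_congr (crt_iffH R N dg h)))

theorem thc_fac (R : Rt D) (N : Nb) (dg : ℕ → X → ℝ) (L : ℝ) (t : ℕ) :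
    Fac (bxH R.refCl t).map (fun w : Sp X β γ φ => ind (crt R N dg t w.1 w.2.1 w.2.2.1) *
      thB R L t w.1 w.2.1 w.2.2.1) := fun v w h =>
  congrArg₂ (· * ·) (congrArg ind (propext (crt_iffH R N dg h))) (thB_fac R L t v w h)

/-! ## the digit -/

variable {dg : ℕ → X → ℝ} {K : ℕ}

/-- the half step class = the points of the class with the same digit -/
theorem mem_hf_dg (R : Rt D)
    (hcell : ∀ t < K, ∀ x x', D.qa (t + 1) x = D.qa (t + 1) x' ↔ D.qa t x = D.qa t x' ∧ dg t x = dg t x')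
    {s : ℕ} (hs : s < K) {x : X} {b : β} {c : γ} {y : X} :
    y ∈ R.hf s x b c ↔ y ∈ R.U s x b c ∧ dg s y = dg s x := by
  rw [mem_hf_W, hcell s hs]
  constructor
  · exact fun h => ⟨h.1, h.2.2⟩
  · exact fun h => ⟨h.1, D.mem_cA.1 (R.U_sub s x b c h.1), h.2⟩

open Classical in
/-- a mean of the digit of size at most `1/2`: each digit has a quarter of the class -/
theorem quarter {d : X → ℝ} (hd : ∀ x, d x = 1 ∨ d x = -1) {V : Finset X} {x : X} (hx : x ∈ V)
    (h : |avg V d| ≤ 1 / 2) : (V.card : ℝ) / 4 ≤ ((V.filter fun y => d y = d x).card : ℝ) := by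
  have hc : (0 : ℝ) < V.card := by exact_mod_cast (card_pos.2 ⟨x, hx⟩)
  have h1 : ((V.filter fun y => d y = d x).card : ℝ) + ((V.filter fun y => ¬ d y = d x).card : ℝ) = V.card := by
    exact_mod_cast card_filter_add_card_filter_not (s := V) (fun y => d y = d x)
  have h2 : ∑ y ∈ V, d y = d x * ((V.filter fun y => d y = d x).card : ℝ) -
      d x * ((V.filter fun y => ¬ d y = d x).card : ℝ) := by
    rw [← sum_filter_add_sum_filter_not V (fun y => d y = d x)]
    have e1 : ∑ y ∈ V.filter (fun y => d y = d x), d y = d x * ((V.filter fun y => d y = d x).card : ℝ) := by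
      rw [sum_congr rfl fun y hy => (mem_filter.1 hy).2, sum_const, nsmul_eq_mul, mul_comm]
    have e2 : ∑ y ∈ V.filter (fun y => ¬ d y = d x), d y = -(d x * ((V.filter fun y => ¬ d y = d x).card : ℝ)) := by
      have e3 : ∀ y ∈ V.filter (fun y => ¬ d y = d x), d y = - d x := by
        intro y hy
        have h3 := (mem_filter.1 hy).2
        rcases hd x with h4 | h4 <;> rcases hd y with h5 | h5
        · exact absurd (h5.trans h4.symm) h3
        · rw [h4, h5]
        · rw [h4, h5]; ring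
        · exact absurd (h5.trans h4.symm) h3
      rw [sum_congr rfl e3, sum_const, nsmul_eq_mul]
      ring
    rw [e1, e2]
    ring
  unfold avg at h
  rw [h2, abs_div, abs_of_pos hc, div_le_iff₀ hc, ← mul_sub, abs_mul] at h
  have h6 : |d x| = 1 := by
    rcases hd x with h4 | h4 <;> rw [h4] <;> norm_num
  rw [h6, one_mul] at h
  have h7 := (abs_le.1 h).1
  linarith

/-! ## critical classes -/

section run

variable {Rm0 : Rm D} {Up : Upd D} {N : Nb}

/-- a critical class of a time `s` is the class of a start: a running class is not critical (test (iv)) -/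
theorem crt_start {s : ℕ} {x : X} {b : β} {c : γ} (h : crt (mkRt Rm0 Up N dg K) N dg s x b c) :
    (mkRt Rm0 Up N dg K).start s x b c := by
  by_contra hs
  have h1 := (mkRt Rm0 Up N dg K).t0_le s x b c
  have h2 : ((mkRt Rm0 Up N dg K).ep s x b c).t0 < s := lt_of_le_of_ne h1 hs
  have h3 : ¬ (mkRt Rm0 Up N dg K).tt ((mkRt Rm0 Up N dg K).ep s x b c) s x b c := fun h4 =>
    (mkRt Rm0 Up N dg K).not_ST s x b c ⟨s, h2, le_rfl, h4⟩
  have h5 := run_iv (run_TT h3)
  rcases h with h6 | h6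
  · exact absurd h5.1 (not_le.2 h6)
  · exact absurd h5.2 (not_lt.2 h6)

/-- the class of a time which is not a start is not critical -/
theorem not_start_crt {s : ℕ} {x : X} {b : β} {c : γ} (h : ¬ (mkRt Rm0 Up N dg K).start s x b c) :
    ¬ crt (mkRt Rm0 Up N dg K) N dg s x b c := fun h1 => h (crt_start h1)

end run

theorem not_crt {R : Rt D} {N : Nb} {s : ℕ} {x : X} {b : β} {c : γ} (h : ¬ crt R N dg s x b c) :
    |mB dg s (R.U s x b c)| ≤ 1 / 2 ∧ VB D s b c (R.U s x b c) < N.kap3 := by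
  unfold crt Crit at h
  push Not at h
  exact h

section cells

variable (hdg : ∀ t x, dg t x = 1 ∨ dg t x = -1)
  (hcell : ∀ t < K, ∀ x x', D.qa (t + 1) x = D.qa (t + 1) x' ↔ D.qa t x = D.qa t x' ∧ dg t x = dg t x')

include hdg hcell

/-- the half step classes of a class which is not critical are at least a quarter of the class -/
theorem not_crt_half {R : Rt D} {N : Nb} {s : ℕ} (hs : s < K) {x : X} {b : β} {c : γ} (h : ¬ crt R N dg s x b c) :
    ((R.U s x b c).card : ℝ) / 4 ≤ (R.hf s x b c).card := by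
  classical
  have h1 := quarter (hdg s) (R.self_U s x b c) (not_crt h).1
  have h2 : ((R.U s x b c).filter fun y => dg s y = dg s x) = R.hf s x b c := by
    ext y
    rw [mem_filter, mem_hf_dg R hcell hs]
  rwa [h2] at h1

/-- the weight `thB` is `1` if the class is not critical -/
theorem not_crt_thB {R : Rt D} {N : Nb} {L : ℝ} (hL : 4 ≤ Real.exp L) {s : ℕ} (hs : s < K) {x : X} {b : β} {c : γ}
    (h : ¬ crt R N dg s x b c) : thB R L s x b c = 1 := by
  have h1 := not_crt_half hdg hcell hs h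
  refine ind_of (le_trans ?_ h1)
  have h2 : Real.exp (-L) ≤ 1 / 4 := by
    rw [Real.exp_neg, inv_eq_one_div]
    exact one_div_le_one_div_of_le (by norm_num) hL
  have h3 : (0 : ℝ) ≤ (R.U s x b c).card := Nat.cast_nonneg _
  nlinarith

/-- the weight splits into the normal and the critical part -/
theorem thB_split {R : Rt D} {N : Nb} {L : ℝ} (hL : 4 ≤ Real.exp L) {s : ℕ} (hs : s < K) (x : X) (b : β) (c : γ) :
    thB R L s x b c = ind (¬ crt R N dg s x b c) + ind (crt R N dg s x b c) * thB R L s x b c := by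
  by_cases h : crt R N dg s x b c
  · rw [ind_of h, ind_not (fun h1 : ¬ crt R N dg s x b c => h1 h), one_mul, zero_add]
  · rw [ind_not h, ind_of h, not_crt_thB hdg hcell hL hs h, zero_mul, add_zero]

/-- the mean of `1 - thB` over a class -/
theorem tiny_avg {Rm0 : Rm D} {Up : Upd D} {N : Nb} {L : ℝ} (hL : 4 ≤ Real.exp L) {s : ℕ} (hs : s < K) (x : X) (b : β)
    (c : γ) : avg ((mkRt Rm0 Up N dg K).U s x b c) (fun x' => 1 - thB (mkRt Rm0 Up N dg K) L s x' b c) ≤
      Real.exp (-L) * ind ((mkRt Rm0 Up N dg K).start s x b c) := by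
  classical
  set R := mkRt Rm0 Up N dg K with hR
  have hc : (0 : ℝ) < (R.U s x b c).card := by exact_mod_cast (card_pos.2 ⟨x, R.self_U s x b c⟩)
  have hU : ∀ x' ∈ R.U s x b c, R.U s x' b c = R.U s x b c := fun x' hx' =>
    (R.pub s ⟨(D.mem_cA.1 (R.U_sub s x b c hx')).symm, rfl, rfl⟩ hx').2
  by_cases hst : R.start s x b c
  swap
  · -- no start: not critical
    have h0 : ∀ x' ∈ R.U s x b c, 1 - thB R L s x' b c = 0 := by
      intro x' hx'
      have h1 : ¬ crt R N dg s x' b c := by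
        rw [crt_congr R rfl rfl hx']
        exact not_start_crt hst
      rw [not_crt_thB hdg hcell hL hs h1, sub_self]
    unfold avg
    rw [sum_eq_zero h0, zero_div, ind_not hst, mul_zero]
  · rw [ind_of hst, mul_one]
    unfold avg
    rw [div_le_iff₀ hc]
    have h1 : ∀ x' ∈ R.U s x b c, 1 - thB R L s x' b c =
        if ((R.hf s x' b c).card : ℝ) < Real.exp (-L) * (R.U s x b c).card then 1 else 0 := by
      intro x' hx'
      unfold thB
      rw [hU x' hx']
      by_cases h2 : Real.exp (-L) * ((R.U s x b c).card : ℝ) ≤ ((R.hf s x' b c).card : ℝ)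
      · rw [ind_of h2, if_neg (not_lt.2 h2), sub_self]
      · rw [ind_not h2, if_pos (not_le.1 h2), sub_zero]
    rw [sum_congr rfl h1, sum_ite, sum_const_zero, add_zero, sum_const, nsmul_eq_mul, mul_one]
    set Bd := (R.U s x b c).filter fun x' => ((R.hf s x' b c).card : ℝ) < Real.exp (-L) * (R.U s x b c).card with hBd
    rcases Bd.eq_empty_or_nonempty with h2 | ⟨x0, hx0⟩
    · rw [h2, card_empty, Nat.cast_zero]
      positivity
    · have hx1 := mem_filter.1 hx0
      have h3 : Bd ⊆ R.hf s x0 b c := by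
        intro x1 hx2
        have hx3 := mem_filter.1 hx2
        by_contra hne
        rw [mem_hf_dg R hcell hs, not_and] at hne
        have hne1 : ¬ dg s x1 = dg s x0 := hne (by rw [hU x0 hx1.1]; exact hx3.1)
        -- the class is the union of the two half step classes
        have h4 : R.U s x b c ⊆ R.hf s x0 b c ∪ R.hf s x1 b c := by
          intro y hy
          rw [mem_union, mem_hf_dg R hcell hs, mem_hf_dg R hcell hs, hU x0 hx1.1, hU x1 hx3.1]
          by_cases h5 : dg s y = dg s x0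
          · exact Or.inl ⟨hy, h5⟩
          · refine Or.inr ⟨hy, ?_⟩
            rcases hdg s y with h6 | h6 <;> rcases hdg s x0 with h7 | h7 <;> rcases hdg s x1 with h8 | h8
            · rw [h6, h8]
            · exact absurd (h6.trans h7.symm) h5
            · rw [h6, h8]
            · exact absurd (h8.trans h7.symm) hne1
            · exact absurd (h8.trans h7.symm) hne1
            · rw [h6, h8]
            · exact absurd (h6.trans h7.symm) h5
            · rw [h6, h8]
        have h5 : ((R.U s x b c).card : ℝ) ≤ (R.hf s x0 b c).card + (R.hf s x1 b c).card := by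
          exact_mod_cast (card_le_card h4).trans (card_union_le _ _)
        have h6 : Real.exp (-L) ≤ 1 / 4 := by
          rw [Real.exp_neg, inv_eq_one_div]
          exact one_div_le_one_div_of_le (by norm_num) hL
        have h7 := hx1.2
        have h8 := hx3.2
        nlinarith
      have h4 : ((Bd.card : ℕ) : ℝ) ≤ (R.hf s x0 b c).card := by exact_mod_cast card_le_card h3
      exact h4.trans hx1.2.le

end cells

/-- TINY HALF STEP CLASSES are rare -/
theorem stTiny_mk (hdg : ∀ t x, dg t x = 1 ∨ dg t x = -1)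
    (hcell : ∀ t < K, ∀ x x', D.qa (t + 1) x = D.qa (t + 1) x' ↔ D.qa t x = D.qa t x' ∧ dg t x = dg t x')
    (Rm0 : Rm D) (Up : Upd D) (N : Nb) {L : ℝ} (hL : 4 ≤ Real.exp L) :
    StTiny (mkRt Rm0 Up N dg K) K L (Real.exp (-L) * nst (mkRt Rm0 Up N dg K) K) := by
  unfold StTiny nst
  rw [mul_sum]
  refine sum_le_sum fun s hs => ?_
  rw [E3_mean ((mkRt Rm0 Up N dg K).refCl.pv s), ← E3_smul]
  exact E3_mono fun x b c => tiny_avg hdg hcell hL (mem_range.1 hs) x b c

/-- TINY HALF STEP CLASSES for the rule of route B -/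
theorem stTiny {al n : ℝ} (hdg : ∀ t x, dg t x = 1 ∨ dg t x = -1)
    (hcell : ∀ t < K, ∀ x x', D.qa (t + 1) x = D.qa (t + 1) x' ↔ D.qa t x = D.qa t x' ∧ dg t x = dg t x')
    {L : ℝ} (hL : 4 ≤ Real.exp L) : StTiny (rB D dg al n K) K L (Real.exp (-L) * nst (rB D dg al n K) K) :=
  stTiny_mk hdg hcell _ _ _ hL

/-! ## saturation of the virtual cells at the running times -/

/-- SATURATION -/
theorem stSat_gen {al n : ℝ} (T : D.Thick al) (hn : 0 < n) {R : Rt D} (hR : R.toRm = rmB D n) (K : ℕ) :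
    StSat R K (1 / n) := by
  intro σ _
  constructor
  · intro t x b c h1 _ h3 S hS hne
    have hS0 : (R.ep σ x b c).t0 = σ := Sta_of_lt h1 h3
    have e1 : (1 / n) * (Real.log (((VG R.toRm (R.ep σ x b c) t x b c).card : ℝ) / S.card) + 1) =
        (Real.log (((VG R.toRm (R.ep σ x b c) t x b c).card : ℝ) / S.card) + 1) / n := by ring
    rw [e1]
    rcases Nat.lt_or_ge σ t with h4 | h4
    · rw [hR] at hS ⊢
      have h5 := VG_sat T hn (e := R.ep σ x b c) (s := t) (by rw [hS0]; exact h4) hS hne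
      rw [hS0] at h5
      exact h5
    · have h5 : t = σ := le_antisymm h4 h1
      subst h5
      rw [VG_old R.toRm (by rw [hS0])] at hS ⊢
      have h6 := om0_sat_g hR T hn hS hne
      rw [hS0] at h6
      exact h6
  · intro t x b c h1 _ h3 S hS hne
    have hS0 : (R.ep σ x b c).t0 = σ := Sta_of_lt h1 h3
    have e1 : (1 / n) * (Real.log (((VF R.toRm (R.ep σ x b c) t x b c).card : ℝ) / S.card) + 1) =
        (Real.log (((VF R.toRm (R.ep σ x b c) t x b c).card : ℝ) / S.card) + 1) / n := by ring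
    rw [e1]
    rcases Nat.lt_or_ge σ t with h4 | h4
    · rw [hR] at hS ⊢
      have h5 := VF_sat T hn (e := R.ep σ x b c) (s := t) (by rw [hS0]; exact h4) hS hne
      rw [hS0] at h5
      exact h5
    · have h5 : t = σ := le_antisymm h4 h1
      subst h5
      rw [VF_old R.toRm (by rw [hS0])] at hS ⊢
      have h6 := om0_sat_f hR T hn hS hne
      rw [hS0] at h6
      exact h6

/-- SATURATION for the rule of route B -/
theorem stSat {al al' n : ℝ} (T : D.Thick al) (hn : 0 < n) (K : ℕ) : StSat (rB D dg al' n K) K (1 / n) :=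
  stSat_gen T hn rfl K

end proc

end

end Pool.Agent.M3.S3B
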