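import Pool.Agent.M3.S3B.FinB
import Pool.Agent.M3.S3B.Norm
import Pool.Agent.M3.S3B.NumB2
import Pool.Agent.M3.S3B.NumE
import Pool.Agent.M3.S3B.Bits
import Pool.Agent.M3.S3B.Jump
import Pool.Agent.M3.S3B.HelU2
import Pool.Agent.M3.S3B.InstR
import Pool.Agent.M3.S3B.Tiny

/-!
# M3.S3B.EndB: THEOREM 3 by route B (note 3448 of helper46; assembly by helper34)

`thm3B : Thm3 (1/4)`.
-/

set_option autoImplicit false
set_option linter.unusedSectionVars false

namespace Pool.Agent.M3.S3B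

open Finset Pool.Agent.PWZ Pool.Agent.M3 Pool.Agent.M3.S3

noncomputable section

namespace EB

variable {Lam n : ℝ}

/-- the number of epochs -/
theorem num_le (h : PA.Big Lam n) :
    600 * n ^ 7 * Real.exp (5 * Lam) + 17 * (4 * n * Lam) * n ^ 4 * Real.exp (2 * Lam) ≤ PB.Ne Lam n := by
  have hn := h.n_pos
  have hL := h.Lam1
  have h2 : (2 : ℝ) ^ 20 ≤ n := le_trans (pow_le_pow_right₀ (by norm_num) (by norm_num)) h.n_ge
  have e1 : PB.Ne Lam n = n ^ 8 * Real.exp (8 * Lam) := by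
    unfold PB.Ne PA.lg
    rw [mul_add, Real.exp_add, mul_comm]
    congr 1
    rw [mul_comm, Real.exp_mul, Real.exp_log hn]
    exact Real.rpow_natCast n 8
  have a1 : Real.exp (5 * Lam) ≤ Real.exp (8 * Lam) := Real.exp_le_exp.2 (by linarith)
  have a2 : Lam * Real.exp (2 * Lam) ≤ Real.exp (8 * Lam) := by
    have b1 : Lam ≤ Real.exp Lam := by linarith [Real.add_one_le_exp Lam]
    calc Lam * Real.exp (2 * Lam) ≤ Real.exp Lam * Real.exp (2 * Lam) :=
          mul_le_mul_of_nonneg_right b1 (Real.exp_pos _).le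
      _ = Real.exp (Lam + 2 * Lam) := (Real.exp_add _ _).symm
      _ ≤ _ := Real.exp_le_exp.2 (by linarith)
  have c1 : 600 * n ^ 7 ≤ 1 / 2 * n ^ 8 := by
    have e : n ^ 8 = n * n ^ 7 := by ring
    rw [e]
    nlinarith [pow_pos hn 7]
  have c2 : 68 * n ^ 5 ≤ 1 / 2 * n ^ 8 := by
    have e : n ^ 8 = n ^ 3 * n ^ 5 := by ring
    rw [e]
    have h3 : (136 : ℝ) ≤ n ^ 3 := by
      have h4 : (1 : ℝ) ≤ n := le_trans (by norm_num) h2
      calc (136 : ℝ) ≤ n := le_trans (by norm_num) h2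
        _ = n ^ 1 := (pow_one n).symm
        _ ≤ n ^ 3 := pow_le_pow_right₀ h4 (by norm_num)
    nlinarith [pow_pos hn 5]
  rw [e1]
  have d1 : 600 * n ^ 7 * Real.exp (5 * Lam) ≤ 1 / 2 * n ^ 8 * Real.exp (8 * Lam) :=
    mul_le_mul c1 a1 (Real.exp_pos _).le (by positivity)
  have d2 : 17 * (4 * n * Lam) * n ^ 4 * Real.exp (2 * Lam) ≤ 1 / 2 * n ^ 8 * Real.exp (8 * Lam) := by
    have e : 17 * (4 * n * Lam) * n ^ 4 * Real.exp (2 * Lam) = 68 * n ^ 5 * (Lam * Real.exp (2 * Lam)) := by ring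
    rw [e]
    exact mul_le_mul c2 a2 (by positivity) (by positivity)
  linarith

/-- the losses of the normal epochs -/
theorem hN_le (h : PA.Big Lam n) :
    Real.log (1 / PA.al Lam) * (PB.eta n / Real.log 400) * (4 * n * Lam) +
      (dB n + 5 * (2 * (nbB (PA.al Lam) n).kap1 / PA.al Lam ^ 2)) / (Real.log 400 - 1) * (2 * Lam) +
      ((1 / n * (LL Lam n + 1) + 20 * (4 / dB n) * PB.e0 Lam n) * (4 * Lam + 2 * (4 * n * Lam) / n) +
        5 * (Real.log (1 / PA.al Lam) * (Real.exp (-LL Lam n) / PA.al Lam)) * PB.Ne Lam n) ≤ (PA.x n)⁻¹ ^ 300 := by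
  have hn := h.n_pos
  have hL := h.Lam1
  have hlog : 2 ≤ Real.log 400 := PB.logBk
  have hA : 4 * n * Lam ≤ 100 * n * Lam := by nlinarith [mul_pos hn (by linarith : 0 < Lam)]
  have hA0 : 0 ≤ 4 * n * Lam := by positivity
  have eeta : 0 ≤ PB.eta n := by unfold PB.eta; positivity
  rw [PA.log_al]
  have t1 : Lam * (PB.eta n / Real.log 400) * (4 * n * Lam) ≤ (PA.x n)⁻¹ ^ 480 := by
    refine le_trans ?_ ((NB.t_bad h (c := 1) (by norm_num) (PB.big_num (by norm_num)) hA0 hA).trans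
      (PB.xi_mono h (show 480 ≤ 900 by norm_num)))
    have h1 := NB.div_log' eeta hlog
    calc Lam * (PB.eta n / Real.log 400) * (4 * n * Lam) ≤ Lam * PB.eta n * (4 * n * Lam) := by gcongr
      _ = _ := by ring
  have t2 : (dB n + 5 * (2 * (nbB (PA.al Lam) n).kap1 / PA.al Lam ^ 2)) / (Real.log 400 - 1) * (2 * Lam) ≤
      (PA.x n)⁻¹ ^ 480 := by
    refine le_trans ?_ (NB.t_dl h (c := 2) (by norm_num) (PB.big_num (by norm_num)))
    refine mul_le_mul_of_nonneg_right ?_ (by linarith)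
    have h1 := PB.five_kap1 h
    have h2 := PB.dB_pos h
    have h3 := (PB.kap1_pos h).le
    have h4 : 0 ≤ dB n + 5 * (2 * (nbB (PA.al Lam) n).kap1 / PA.al Lam ^ 2) := by positivity
    refine (NB.div_log h4 hlog).trans ?_
    unfold PB.dl
    linarith
  have t3 : (1 / n * (LL Lam n + 1) + 20 * (4 / dB n) * PB.e0 Lam n) * (4 * Lam + 2 * (4 * n * Lam) / n) ≤
      (PA.x n)⁻¹ ^ 480 := by
    refine le_trans (le_of_eq ?_) (NB.t_lam h (c := 12) (by norm_num) (PB.big_num (by norm_num)))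
    have e1 : 2 * (4 * n * Lam) / n = 8 * Lam := by field_simp; ring
    rw [e1]
    unfold PB.lam PB.sg PB.Bs
    ring
  have t4 : 5 * (Lam * (Real.exp (-LL Lam n) / PA.al Lam)) * PB.Ne Lam n ≤ (PA.x n)⁻¹ ^ 480 := by
    have hb : 5 * Lam ≤ PA.x n ^ 2 := by
      have e : PA.x n ^ 2 = PA.x n * PA.x n ^ 1 := by ring
      rw [e]
      exact mul_le_mul (PB.cst h (PB.big_num (by norm_num))) (NB.Lam_x h) (by linarith) h.x_pos.le
    refine le_trans (le_of_eq ?_) ((NB.rare_x h (N := PB.Ne Lam n) (b := 5 * Lam) (j := 2) le_rfl (by linarith) hb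
      (by norm_num)).trans (PB.xi_mono h (show 480 ≤ 1000 by norm_num)))
    ring
  refine NB.sum_x h (c := 4) (j := 480) (PB.big_num (by norm_num)) ?_ (by norm_num)
  linarith

/-- the losses of the jump epochs -/
theorem hJ_le (h : PA.Big Lam n) {N : ℝ} (hN : N ≤ PB.Ne Lam n) :
    (dB n + JS.lam (dB n) (8 * (1 / n) * (Real.log (1 / PA.al Lam) + 3) * (LL Lam n + 1)) (PA.al Lam) (LL Lam n)) /
        (Real.log PB.Bk - 1) * (2 * Lam) +
      2 * (Real.log (1 / PA.al Lam) * (Real.exp (-LL Lam n) / PA.al Lam)) * N ≤ (PA.x n)⁻¹ ^ 300 := by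
  have hL := h.Lam1
  have hn := h.n_pos
  have hLL := PB.LL_ge h
  rw [PA.log_al]
  have e0 : 8 * (1 / n) * (Lam + 3) * (LL Lam n + 1) = PB.sgc Lam n := by
    unfold PB.sgc PB.sg
    ring
  rw [e0]
  have hsg := PB.sgc_pos h
  have hd := PB.dB_pos h
  have h1 : JS.lam (dB n) (PB.sgc Lam n) (PA.al Lam) (LL Lam n) ≤ PB.lamJ Lam n := by
    unfold JS.lam PB.lamJ PB.Bs
    rw [PA.log_al]
    have h2 : 0 ≤ 4 / dB n * (PB.sgc Lam n * (Lam + 1)) := by positivity
    nlinarith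
  have h3 : 0 ≤ JS.lam (dB n) (PB.sgc Lam n) (PA.al Lam) (LL Lam n) := by
    unfold JS.lam
    rw [PA.log_al]
    have h2 : 0 ≤ 4 / dB n * (PB.sgc Lam n * (Lam + 1)) := by positivity
    have h4 : 0 ≤ PB.sgc Lam n * (LL Lam n + 1) := by positivity
    nlinarith
  have t1 : (dB n + JS.lam (dB n) (PB.sgc Lam n) (PA.al Lam) (LL Lam n)) / (Real.log PB.Bk - 1) * (2 * Lam) ≤
      (PA.x n)⁻¹ ^ 480 := by
    refine le_trans ?_ (NB.t_J h (c := 2) (by norm_num) (PB.big_num (by norm_num)))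
    refine mul_le_mul_of_nonneg_right ?_ (by linarith)
    refine (NB.div_log (add_nonneg hd.le h3) PB.logBk).trans ?_
    linarith
  have t2 : 2 * (Lam * (Real.exp (-LL Lam n) / PA.al Lam)) * N ≤ (PA.x n)⁻¹ ^ 480 := by
    have hb : 2 * Lam ≤ PA.x n ^ 2 := by
      have e : PA.x n ^ 2 = PA.x n * PA.x n ^ 1 := by ring
      rw [e]
      exact mul_le_mul (PB.cst h (PB.big_num (by norm_num))) (NB.Lam_x h) (by linarith) h.x_pos.le
    refine le_trans (le_of_eq ?_) ((NB.rare_x h (N := N) (b := 2 * Lam) (j := 2) hN (by linarith) hb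
      (by norm_num)).trans (PB.xi_mono h (show 480 ≤ 1000 by norm_num)))
    ring
  refine NB.sum_x h (c := 2) (j := 480) (PB.big_num (by norm_num)) ?_ (by norm_num)
  linarith

section one

variable {X β γ ι φ : Type} [Fintype X] [Fintype β] [Fintype γ] [Fintype φ] [Nonempty X] [Nonempty β] [Nonempty γ]
  {D : Dat X β γ ι φ} {dg : ℕ → X → ℝ} {prf prg : ℕ → φ → φ} {K : ℕ}

/-- THE CONCLUSION for the rule -/
theorem concl (T : D.Thick (PA.al Lam)) (hI : InB D dg prf prg K Lam n) :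
    Concl3 T dg K Lam n (1 / 4) 1000000 (rB D dg (PA.al Lam) n K).U := by
  have h := hI.big
  have H := hI.hyp
  have hBi := hI.birth
  have hU := hI.upd
  have hn := h.n_pos
  have hL := h.Lam1
  have hLL := PB.LL_ge h
  have hal1 := PB.al_le1 h
  have hd := PB.dB_pos h
  have hk1 := PB.kap1_pos h
  have hA : 4 * n * Lam ≤ 100 * n * Lam := by nlinarith [mul_pos hn (by linarith : 0 < Lam)]
  have hA0 : 0 ≤ 4 * n * Lam := by positivity
  have mBits : StBits (rB D dg (PA.al Lam) n K) K (4 * n * Lam) := stBits T H hn.le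
  have mGain : StGain (rB D dg (PA.al Lam) n K) K Lam := stGain T H
  have mNum : StNum (rB D dg (PA.al Lam) n K) K (PB.Ne Lam n) :=
    le_trans (stNum_le T H (PB.n_ge1 h) mBits) (num_le h)
  have mSat : StSat (rB D dg (PA.al Lam) n K) K (1 / n) := stSat T hn K
  have hrow : 2 * rb (PA.al Lam) n (nbB (PA.al Lam) n) ≤ PB.e0 Lam n := by
    refine le_trans (le_of_eq ?_) (PB.row_le h)
    unfold rb PB.sg PB.e
    rw [PA.log_al]
  have hrow0 : 0 ≤ rb (PA.al Lam) n (nbB (PA.al Lam) n) := by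
    have h1 := PB.eps3_pos h
    have h2 := PA.al_pos (Lam := Lam)
    have h3 := hk1.le
    unfold rb CL.cb
    rw [PA.log_al]
    positivity
  have he3 : (nbB (PA.al Lam) n).eps3 ≤ 1 / 2 := (PB.eps3_small h).trans (by norm_num)
  have mRow : StRow (rB D dg (PA.al Lam) n K) (updOf D) (nbB (PA.al Lam) n) K (PB.e0 Lam n) :=
    stRow T hn hal1 (PB.eps3_pos h).le he3 hk1.le (PB.kap1_le h) (by linarith)
  have mRowT : StRowT (rB D dg (PA.al Lam) n K) (updOf D) (nbB (PA.al Lam) n) K (PB.e0 Lam n) :=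
    stRowT T hn hal1 (PB.eps3_pos h).le he3 hk1.le (PB.kap1_le h) (fun t ht c => hyp3_C2 H ht c) hrow
  have mBad : StBad (rB D dg (PA.al Lam) n K) (updOf D) (nbB (PA.al Lam) n) dg K (PB.eta n) := by
    intro s hs x b c hc
    refine (LD.stBad (n := n) hU H.dg_val H.dg_cell (fun t ht => Halv.of (H.halfB t ht) (H.halfC t ht)) hk1
      (PB.kap2_pos h).le s hs x b c hc).trans ?_
    have h1 := PB.eta_ge h
    have h2 : 0 ≤ (nbB (PA.al Lam) n).kap3 / (nbB (PA.al Lam) n).kap1 ^ 2 := by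
      have := (PB.kap3_pos h).le
      positivity
    have e : 4 * ((nbB (PA.al Lam) n).kap2 + 4 * (nbB (PA.al Lam) n).kap3 / (nbB (PA.al Lam) n).kap1 ^ 2) =
        4 * (nbB (PA.al Lam) n).kap2 + 16 * ((nbB (PA.al Lam) n).kap3 / (nbB (PA.al Lam) n).kap1 ^ 2) := by ring
    rw [e]
    linarith
  have hGC : ∑ s ∈ range K, gainC T (rB D dg (PA.al Lam) n K).refCl s ≤ 2 * Lam := by
    have h1 := gains_le T (rB D dg (PA.al Lam) n K).refCl hBi
    have h2 : 0 ≤ ∑ s ∈ range K, gainD T (rB D dg (PA.al Lam) n K).refCl s :=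
      Finset.sum_nonneg fun t _ => gainD_nonneg T _ t
    linarith
  have hkr : 2 * (nbB (PA.al Lam) n).kap1 / PA.al Lam ^ 2 ≤ 1 / 20 := by
    have h1 := PB.five_kap1 h
    have h2 : 1 / n ≤ 1 / 100 := one_div_le_one_div_of_le (by norm_num) (by linarith [PB.n_ge4 h])
    linarith
  have mNorm := stNorm (N := nbB (PA.al Lam) n) (dg := dg) (d := dB n) (L := LL Lam n) T
    (R := rB D dg (PA.al Lam) n K) rfl hal1 hn hd (by linarith) (PB.e0_pos h).le hU mSat mRow mRowT mGain mBits mNum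
    mBad hGC hk1.le (by unfold PB.eta; positivity) hkr
  have mJump := JP.stJump_rB (al1 := PA.al Lam) T hal1 hn H hBi PB.exp2_le_Bk hd (by linarith : 0 ≤ LL Lam n)
  refine concl_B T (rB D dg (PA.al Lam) n K) H hBi (L := LL Lam n) (B := PB.Bk) (d := PB.dS Lam n) ?_ PB.exp2_le_Bk
    (PB.dS_nonneg h) (stC1_PB h T H) (stC2_PB h T H) (stMK_PB h T) mNorm mJump mBits
    (NB.n1_le h (by norm_num) hA) (by norm_num) (NB.n3_le h (by norm_num) ?_ (hN_le h) (hJ_le h mNum) hA0 hA le_rfl)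
  · have h1 : Real.log 4 ≤ 4 - 1 := Real.log_le_sub_one_of_pos (by norm_num)
    linarith
  · exact (NB.mk_le h).trans (PB.xi_mono h (by norm_num))

end one

end EB

/-- THEOREM 3 (route B) -/
theorem thm3B : Thm3 (1 / 4) := by
  refine thm3_of_B ?_
  intro X β γ ι φ _ _ _ _ _ _ _ _ D dg prf prg K Lam n T _ hI
  exact ⟨_, EB.concl T hI⟩

end

end Pool.Agent.M3.S3B
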