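import Pool.Agent.M3.S3B.Main
import Pool.Agent.M3.S3.M2
import Pool.Agent.M3.S3.StrA
import Pool.Agent.M3.S3.Bal

/-!
# M3.S3B.SumB: route B, the sum (note 3448 (8)) (helper46)

* `hf_hlf` : the half step class of the process is the half step class of the family `R.U`;
* `thB_oneS` : a class which is not critical has no tiny half; `thB_facS`;
* `syn_B` : the last field of `Concl3` from the modules of `Main`;
* `concl_B` : `Concl3` for `R.U` from the modules.
-/

set_option autoImplicit false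
set_option linter.unusedSectionVars false

namespace Pool.Agent.M3.S3B

open Finset Pool.Agent.PWZ Pool.Agent.M3 Pool.Agent.M3.S3

noncomputable section

section hf

variable {X β γ ι φ : Type*} [Fintype X] [Fintype β] [Fintype γ] [Fintype φ] {D : Dat X β γ ι φ}

theorem hf_hlf' (R : Rt D) (s : ℕ) (x : X) (b : β) (c : γ) : R.hf s x b c = hlf D R.U s x b c := by
  ext y
  rw [mem_hlf]
  unfold Rt.hf Rt.U
  rw [mem_W, mem_W]
  exact ⟨fun h => ⟨⟨h.1, D.qa_le (Nat.le_succ s) h.2⟩, h.2⟩, fun h => ⟨h.1.1, h.2⟩⟩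

theorem thB_eqS (R : Rt D) (L : ℝ) (s : ℕ) (x : X) (b : β) (c : γ) :
    thB R L s x b c = ind (Real.exp (-L) * ((R.U s x b c).card : ℝ) ≤ ((hlf D R.U s x b c).card : ℝ)) := by
  unfold thB
  rw [hf_hlf']

theorem thB_oneS (R : Rt D) {N : Nb} {dg : ℕ → X → ℝ} {t : ℕ} {L : ℝ} (hL : Real.log 4 ≤ L)
    (hd : ∀ x, dg t x = 1 ∨ dg t x = -1)
    (hcell : ∀ x x', D.qa (t + 1) x = D.qa (t + 1) x' ↔ D.qa t x = D.qa t x' ∧ dg t x = dg t x')
    {x : X} {b : β} {c : γ} (h : ¬ crt R N dg t x b c) : thB R L t x b c = 1 := by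
  have hm : Real.exp (-L) ≤ 1 / 4 := by
    rw [Real.exp_neg, one_div]
    refine inv_anti₀ (by norm_num) ?_
    rw [← Real.log_le_iff_le_exp (by norm_num)]
    exact hL
  rw [thB_eqS]
  by_contra hne
  have h1 : ¬ (Real.exp (-L) * ((R.U t x b c).card : ℝ) ≤ ((hlf D R.U t x b c).card : ℝ)) := fun h2 => hne (ind_of h2)
  have h2 := mdg_of_hlf (R.refCl) hd hcell (x := x) (b := b) (c := c) (mu := Real.exp (-L)) (Or.inl (not_le.1 h1))
  apply h
  unfold crt Crit
  refine Or.inl ?_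
  have h3 : mB dg t (R.U t x b c) = mdg R.U dg t x b c := rfl
  rw [h3]
  linarith

end hf

section main

variable {X β γ ι φ : Type} [Fintype X] [Fintype β] [Fintype γ] [Fintype φ] [Nonempty X] [Nonempty β] [Nonempty γ]
  {D : Dat X β γ ι φ} {al : ℝ}

theorem thB_facS (R : Rt D) (L : ℝ) (t : ℕ) :
    Fac (bxH (R.refCl) t).map (fun w : Sp X β γ φ => thB R L t w.1 w.2.1 w.2.2.1) := by
  intro v w hv
  rw [Bx.map_eq] at hv
  obtain ⟨h1, h2, h3⟩ := hv
  have h4 := mem_hlf.1 h1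
  have hb := D.mem_cB.1 h2
  have hc := D.mem_cC.1 h3
  have h5 := R.refCl.pub t w.1 w.2.1 w.2.2.1 v.1 v.2.1 v.2.2.1
    ⟨(D.mem_cA.1 (R.U_sub t _ _ _ h4.1)).symm, (D.rb t _ _ hb).symm, (D.rc t _ _ hc).symm⟩ h4.1
  have h6 : hlf D R.U t v.1 v.2.1 v.2.2.1 = hlf D R.U t w.1 w.2.1 w.2.2.1 := by
    ext y
    rw [mem_hlf, mem_hlf, h5, h4.2]
  show thB R L t v.1 v.2.1 v.2.2.1 = thB R L t w.1 w.2.1 w.2.2.1
  rw [thB_eqS, thB_eqS, h5, h6]

theorem thB_nnS (R : Rt D) (L : ℝ) (s : ℕ) (x : X) (b : β) (c : γ) : 0 ≤ thB R L s x b c := ind_nonneg _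

theorem thB_le (R : Rt D) (L : ℝ) (s : ℕ) (x : X) (b : β) (c : γ) : thB R L s x b c ≤ 1 := ind_le_one _

/-- the loss of the splits splits -/
theorem lossC_two (T : D.Thick al) (R : Rt D) {N : Nb} {dg : ℕ → X → ℝ} {t : ℕ} {L B : ℝ}
    (h1 : ∀ x b c, ¬ crt R N dg t x b c → thB R L t x b c = 1) :
    lossC T R.refCl (fun t w => thB R L t w.1 w.2.1 w.2.2.1) B (fun _ _ => False) t =
      lossC T R.refCl (fun t w => ind (¬ crt R N dg t w.1 w.2.1 w.2.2.1)) B (fun _ _ => False) t +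
      lossC T R.refCl (fun t w => ind (crt R N dg t w.1 w.2.1 w.2.2.1) * thB R L t w.1 w.2.1 w.2.2.1) B
        (fun _ _ => False) t := by
  unfold lossC
  rw [← FP.E_add]
  refine (D.kp T t).P.E_congr (fun w _ => ?_)
  beta_reduce
  by_cases hc : crt R N dg t w.1 w.2.1 w.2.2.1
  · rw [ind_not (show ¬ ¬ crt R N dg t w.1 w.2.1 w.2.2.1 from fun h => h hc), ind_of hc]
    ring
  · rw [ind_of hc, ind_not hc, h1 _ _ _ hc]
    ring

/-- THE SUM -/
theorem syn_B (T : D.Thick al) (R : Rt D) {N : Nb} {dg : ℕ → X → ℝ} {K : ℕ} {prf prg : ℕ → φ → φ} {Lam : ℝ}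
    (H : Hyp3 D dg prf prg al K Lam) (hBi : Birth D K Lam)
    {L B d mk hN hJ A : ℝ} (hL : Real.log 4 ≤ L) (hB : Real.exp 2 ≤ B) (hd : 0 ≤ d)
    (c1 : StC1 T R K d) (c2 : StC2 T R K L d) (hmk : StMK T R K mk)
    (hNm : StNorm T R N dg K B hN) (hJm : StJump T R N dg K L B hJ) (hbt : StBits R K A) :
    ∑ t ∈ range K, (D.kp T t).P.E (fun w => ind (|m3 T dg R.U t w| ≤ 1 / 2) *
        (z3 T dg R.U t w - poe (m3 T dg R.U t w) (x3 T dg R.U t w) (y3 T dg R.U t w)) ^ 2) ≤
      2 * (mk + (hN + hJ + Real.log (1 / al) * (Real.exp (-L) * (8 * A))) + 4 * B * kd d * Lam) := by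
  have hal1 : al ≤ 1 := al_le_one T
  have hlog : 0 ≤ Real.log (1 / al) := Real.log_nonneg (by rw [le_div_iff₀ T.pos]; linarith)
  have hm : Real.exp (-L) ≤ 1 / 4 := by
    rw [Real.exp_neg, one_div]
    refine inv_anti₀ (by norm_num) ?_
    rw [← Real.log_le_iff_le_exp (by norm_num)]
    exact hL
  have key := syn_le T R.refCl H hBi (θ := fun t w => thB R L t w.1 w.2.1 w.2.2.1) (thB_facS R L)
    (fun t w => thB_nnS R L t _ _ _) (fun t w => thB_le R L t _ _ _) hB hd c1.1 c1.2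
    (fun t ht w hw h => c2.1 t ht w hw h) (fun t ht w hw h => c2.2 t ht w hw h)
    (Tb := fun _ _ => False) (Tc := fun _ _ => False) (fun _ _ _ _ => Iff.rfl) (fun _ _ _ _ => Iff.rfl)
  refine key.trans ?_
  have e1 : ∑ t ∈ range K, (lossD T R.refCl dg B (fun _ _ => False) t +
      lossC T R.refCl (fun t w => thB R L t w.1 w.2.1 w.2.2.1) B (fun _ _ => False) t +
      lossT T R.refCl (fun t w => thB R L t w.1 w.2.1 w.2.2.1) t) ≤
      hN + hJ + Real.log (1 / al) * (Real.exp (-L) * (8 * A)) := by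
    have a1 : ∀ t ∈ range K, lossD T R.refCl dg B (fun _ _ => False) t +
        lossC T R.refCl (fun t w => thB R L t w.1 w.2.1 w.2.2.1) B (fun _ _ => False) t +
        lossT T R.refCl (fun t w => thB R L t w.1 w.2.1 w.2.2.1) t =
        lossC T R.refCl (fun t w => ind (¬ crt R N dg t w.1 w.2.1 w.2.2.1)) B (fun _ _ => False) t +
        (lossD T R.refCl dg B (fun _ _ => False) t +
          lossC T R.refCl (fun t w => ind (crt R N dg t w.1 w.2.1 w.2.2.1) * thB R L t w.1 w.2.1 w.2.2.1) B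
            (fun _ _ => False) t) + lossT T R.refCl (fun t w => thB R L t w.1 w.2.1 w.2.2.1) t := by
      intro t ht
      rw [lossC_two T R (N := N) (dg := dg) (fun x b c h => thB_oneS R hL (fun x => H.dg_val t x)
        (fun x x' => H.dg_cell t (mem_range.1 ht) x x') h)]
      ring
    rw [Finset.sum_congr rfl a1, Finset.sum_add_distrib, Finset.sum_add_distrib]
    have a2 : ∑ t ∈ range K, lossT T R.refCl (fun t w => thB R L t w.1 w.2.1 w.2.2.1) t ≤
        Real.log (1 / al) * (Real.exp (-L) * (8 * A)) := by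
      have b1 : ∀ t ∈ range K, lossT T R.refCl (fun t w => thB R L t w.1 w.2.1 w.2.2.1) t ≤
          Real.log (1 / al) * (Real.exp (-L) * E3 (fun x b c => ind (1 / 2 < |mdg R.U dg t x b c|))) := by
        intro t ht
        have := lossT_le T R.refCl (fun x => H.dg_val t x)
          (fun x x' => H.dg_cell t (mem_range.1 ht) x x') (Real.exp_pos (-L)).le hm
        have e : (fun (t : ℕ) (w : Sp X β γ φ) => thB R L t w.1 w.2.1 w.2.2.1) = fun t w =>
            ind (Real.exp (-L) * ((R.U t w.1 w.2.1 w.2.2.1).card : ℝ) ≤ (hlf D R.U t w.1 w.2.1 w.2.2.1).card) := by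
          funext t w
          exact thB_eqS R L t _ _ _
        rw [e]
        exact this
      refine (Finset.sum_le_sum b1).trans ?_
      rw [← Finset.mul_sum, ← Finset.mul_sum]
      refine mul_le_mul_of_nonneg_left (mul_le_mul_of_nonneg_left ?_ (Real.exp_pos _).le) hlog
      refine (sum_mbig R.refCl H.dg_val H.dg_cell H.dg_bal).trans ?_
      unfold StBits btB at hbt
      simp only [← hf_hlf']
      linarith
    have a3 := hNm
    have a4 := hJm
    unfold StNorm at a3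
    unfold StJump at a4
    linarith
  have e2 := hmk
  unfold StMK at e2
  linarith

/-- `Concl3` for the rule from the modules -/
theorem concl_B (T : D.Thick al) (R : Rt D) {N : Nb} {dg : ℕ → X → ℝ} {K : ℕ} {prf prg : ℕ → φ → φ} {Lam n κ : ℝ}
    {C : ℕ} (H : Hyp3 D dg prf prg al K Lam) (hBi : Birth D K Lam)
    {L B d mk hN hJ A : ℝ} (hL : Real.log 4 ≤ L) (hB : Real.exp 2 ≤ B) (hd : 0 ≤ d)
    (c1 : StC1 T R K d) (c2 : StC2 T R K L d) (hmk : StMK T R K mk)
    (hNm : StNorm T R N dg K B hN) (hJm : StJump T R N dg K L B hJ) (hbt : StBits R K A)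
    (n1 : 2 * A ≤ (C : ℝ) * n * Lam ^ C) (n2 : 4 ≤ C)
    (n3 : 2 * (mk + (hN + hJ + Real.log (1 / al) * (Real.exp (-L) * (8 * A))) + 4 * B * kd d * Lam) ≤
      (C : ℝ) * Lam ^ C * n ^ (-κ)) : Concl3 T dg K Lam n κ C R.U where
  ref := R.refCl
  m2 := by
    refine (concl_m2 T R.refCl H.dg_val H.dg_cell H.dg_bal).trans ?_
    unfold StBits btB at hbt
    simp only [← hf_hlf']
    linarith
  x2 := by
    refine (concl_x2 T R.refCl hBi H.dg_val H.dg_cell).trans ?_
    have h4 : (4 : ℝ) ≤ C := by exact_mod_cast n2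
    have h5 : 0 ≤ Lam := by linarith [H.Lam1]
    exact mul_le_mul_of_nonneg_right h4 h5
  y2 := by
    refine (concl_y2 T R.refCl hBi H.dg_val H.dg_cell).trans ?_
    have h4 : (4 : ℝ) ≤ C := by exact_mod_cast n2
    have h5 : 0 ≤ Lam := by linarith [H.Lam1]
    exact mul_le_mul_of_nonneg_right h4 h5
  syn := (syn_B T R H hBi hL hB hd c1 c2 hmk hNm hJm hbt).trans n3

end main

end

end Pool.Agent.M3.S3B
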