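import Pool.Agent.M3.S3B.ParB
import Pool.Agent.M3.S3B.SumB
import Pool.Agent.M3.S3.Bal
import Pool.Agent.M3.S3.Thm3

/-!
# M3.S3B.FinB: the end of route B (helper34)

* `InB` : the hypotheses which all modules may use (thickness exactly `exp (-Lam)`, projections at all times, `Birth`,
  counters of the updates);
* `thm3_of_B` : Theorem 3 from: for all data with `InB` there is a family with `Concl3`.
-/

set_option autoImplicit false
set_option linter.unusedSectionVars false

namespace Pool.Agent.M3.S3B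

open Finset Pool.Agent.PWZ Pool.Agent.M3 Pool.Agent.M3.S3

noncomputable section

/-- the conclusion does not depend on the constant of the thickness -/
theorem concl_al {X β γ ι φ : Type} [Fintype X] [Fintype β] [Fintype γ] [Fintype φ] [Nonempty X] [Nonempty β]
    [Nonempty γ] {D : Dat X β γ ι φ} {al al' : ℝ} (T : D.Thick al) (T' : D.Thick al')
    {V : ℕ → X → β → γ → Finset X} {dg : ℕ → X → ℝ}
    {K : ℕ} {Lam n κ : ℝ} {C : ℕ} (h : Concl3 T' dg K Lam n κ C V) : Concl3 T dg K Lam n κ C V :=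
  ⟨h.ref, h.m2, h.x2, h.y2, h.syn⟩

/-- hypotheses of the modules -/
structure InB {X β γ ι φ : Type} [Fintype X] [Fintype β] [Fintype γ] [Fintype φ] (D : Dat X β γ ι φ)
    (dg : ℕ → X → ℝ) (prf prg : ℕ → φ → φ) (K : ℕ) (Lam n : ℝ) : Prop where
  big : PA.Big Lam n
  hyp : Hyp3 D dg prf prg (PA.al Lam) K Lam
  birth : Birth D K Lam
  upd : UpdOk D (updOf D) K (Real.exp Lam)

/-- THEOREM 3 from the modules -/
theorem thm3_of_B {κ : ℝ} (h : ∀ (X β γ ι φ : Type) [Fintype X] [Fintype β] [Fintype γ] [Fintype φ]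
    [Nonempty X] [Nonempty β] [Nonempty γ] [DecidableEq φ] (D : Dat X β γ ι φ) (dg : ℕ → X → ℝ)
    (prf prg : ℕ → φ → φ) (K : ℕ) (Lam n : ℝ) (T : D.Thick (PA.al Lam)) (_ : Proj D), InB D dg prf prg K Lam n →
    ∃ V : ℕ → X → β → γ → Finset X, Concl3 T dg K Lam n κ 1000000 V) : Thm3 κ := by
  refine thm3_of_frz ⟨1000000, ?_⟩
  intro X β γ ι φ _ _ _ _ _ _ _ _ D al T dg prf prg K Lam n H P hn
  have hA := hyp_all T H
  have T' : D.Thick (PA.al Lam) := T.mono (Real.exp_pos _) H.alL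
  have H' : Hyp3 D dg prf prg (PA.al Lam) K Lam := { H with alL := le_rfl }
  have hI : InB D dg prf prg K Lam n := ⟨⟨H.Lam1, hn⟩, H', hA.birth, updOf_ok D H.cf3 H.cg3⟩
  obtain ⟨V, hV⟩ := h X β γ ι φ D dg prf prg K Lam n T' P hI
  exact ⟨V, concl_al T T' hV⟩

end

end Pool.Agent.M3.S3B
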