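import Pool.Agent.M3.S3.Law
import Pool.Agent.M3.S3B.Close

/-!
# M3.S3B.HelB: the closeness `FP.hel` of a box state is the Hellinger distance of `Close.lean` (helper84)

* `hel_box` : `k.P.hel xF N.map xG w` is the mean over the cell of the second known point of
  `CL.hf (law of the second label on the class given the first letter) (law of the second label on the class)`;
* `hel_box'` : the mirror;
* `hel_close`, `hel_close'` : the hypotheses `hXY`, `hYX` of `S3KeyF` from `CL.Hy` (almost saturated classes).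
-/

set_option autoImplicit false
set_option linter.unusedSectionVars false

namespace Pool.Agent.M3.S3

open Finset Pool.Agent.PWZ Pool.Agent.M3

noncomputable section

variable {X β γ φ : Type*} [Fintype X] [Fintype β] [Fintype γ] [Fintype φ] [Nonempty X] [Nonempty β] [Nonempty γ]

namespace CL

theorem pv_out {κ ι : Type*} {P : FP (Sp X β γ φ)} {W : Sp X β γ φ → ι} {V : Sp X β γ φ → κ} {w : Sp X β γ φ} {v : κ}
    (h : ∀ u, W u = W w → V u ≠ v) : P.pv W V w v = 0 := by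
  have h1 : P.E (fun u => ind (W u = W w) * ind (V u = v)) = 0 := by
    have h2 : P.E (fun u => ind (W u = W w) * ind (V u = v)) = P.E (fun _ => (0 : ℝ)) := by
      refine P.E_congr fun u _ => ?_
      by_cases hu : W u = W w
      · rw [ind_not (h u hu), mul_zero]
      · rw [ind_not hu, zero_mul]
    rw [h2]
    unfold FP.E
    simp
  show P.E (fun u => ind (W u = W w) * ind (V u = v)) / _ = 0
  rw [h1, zero_div]

theorem pv_val {κ ι : Type*} (P : FP (Sp X β γ φ)) {W : Sp X β γ φ → ι} {V : Sp X β γ φ → κ} {w w' : Sp X β γ φ}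
    (h : W w' = W w) : P.pv W V w (V w') = P.m (fun u => (V u, W u)) w' / P.m W w' := by
  rw [← P.pv_self W V w']
  exact P.pv_fac W V (V w') w w' h.symm

end CL

/-- the closeness of a box state, first family -/
theorem hel_box {k : KP X β γ φ} {N : Bx X β γ} (hN : N.Ok k) (w : Sp X β γ φ) :
    k.P.hel xF N.map xG w = avg (N.C w.1 w.2.1 w.2.2.1) fun c =>
      CL.hf (RB.cl (N.V w.1 w.2.1 w.2.2.1) (fun x => k.f x w.2.1 w.2.2.1) (fun x => k.g x w.2.1 c) w.2.2.2.1)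
        (law (N.V w.1 w.2.1 w.2.2.1) fun x => k.g x w.2.1 c) := by
  classical
  obtain ⟨x0, b, c0, F, G0⟩ := w
  show k.P.hel xF N.map xG (x0, b, c0, F, G0) = avg (N.C x0 b c0) fun c =>
      CL.hf (RB.cl (N.V x0 b c0) (fun x => k.f x b c0) (fun x => k.g x b c) F) (law (N.V x0 b c0) fun x => k.g x b c)
  have hM : MM X β γ ≠ 0 := MM_pos.ne'
  have hB : ((N.B x0 b c0).card : ℝ) ≠ 0 := by exact_mod_cast (Finset.card_pos.2 ⟨_, N.sB x0 b c0⟩).ne'
  have hC : ((N.C x0 b c0).card : ℝ) ≠ 0 := by exact_mod_cast (Finset.card_pos.2 ⟨_, N.sC x0 b c0⟩).ne'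
  have hV : ((N.V x0 b c0).card : ℝ) ≠ 0 := by exact_mod_cast (Finset.card_pos.2 ⟨_, N.sV x0 b c0⟩).ne'
  -- the map of the modified point
  have hmap : ∀ c ∈ N.C x0 b c0, ∀ G, N.map ((x0, b, c, F, G) : Sp X β γ φ) = N.map (x0, b, c0, F, G0) := fun c hc G =>
    N.map_eq.2 ⟨N.sV x0 b c0, N.sB x0 b c0, hc⟩
  have hbox : ∀ c ∈ N.C x0 b c0, N.V x0 b c = N.V x0 b c0 ∧ N.B x0 b c = N.B x0 b c0 ∧ N.C x0 b c = N.C x0 b c0 :=
    fun c hc => N.inv x0 b c0 x0 b c (N.sV x0 b c0) (N.sB x0 b c0) hc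
  have hfk : ∀ c ∈ N.C x0 b c0, ∀ x, k.f x b c = k.f x b c0 := fun c hc x => hN.f x0 b c0 c x hc
  -- conditional laws
  have p1 : ∀ c ∈ N.C x0 b c0, ∀ G, k.P.pv N.map xG (x0, b, c0, F, G0) (G, c) =
      law (N.V x0 b c0) (fun x => k.g x b c) G / (N.C x0 b c0).card := by
    intro c hc G
    have h1 := CL.pv_val k.P (W := N.map) (V := xG) (hmap c hc G)
    have h2 : xG ((x0, b, c, F, G) : Sp X β γ φ) = (G, c) := rfl
    rw [h2] at h1
    rw [h1, m_G k hN, m_N]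
    obtain ⟨e1, e2, e3⟩ := hbox c hc
    show ((N.B x0 b c).card * (∑ x ∈ N.V x0 b c, k.g x b c G) / MM X β γ) /
      ((N.V x0 b c).card * ((N.B x0 b c).card * (N.C x0 b c).card) / MM X β γ) = _
    rw [e1, e2, e3]
    unfold law avg
    field_simp
  have p2 : ∀ c ∈ N.C x0 b c0, ∀ G, k.P.pv (fun u => (xF u, N.map u)) xG (x0, b, c0, F, G0) (G, c) =
      RB.cl (N.V x0 b c0) (fun x => k.f x b c0) (fun x => k.g x b c) F G / (N.C x0 b c0).card := by
    intro c hc G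
    have hm2 : (fun u : Sp X β γ φ => (xF u, N.map u)) (x0, b, c, F, G) = (fun u => (xF u, N.map u)) (x0, b, c0, F, G0) :=
      Prod.ext rfl (hmap c hc G)
    have h1 := CL.pv_val k.P (W := fun u => (xF u, N.map u)) (V := xG) hm2
    have h2 : xG ((x0, b, c, F, G) : Sp X β γ φ) = (G, c) := rfl
    rw [h2] at h1
    have h3 : k.P.m (fun u => (xG u, xF u, N.map u)) (x0, b, c, F, G) =
        k.P.m (fun u => (xF u, xG u, N.map u)) (x0, b, c, F, G) :=
      k.P.m_congr (fun v w hv => by simp only [Prod.mk.injEq] at hv ⊢; exact ⟨hv.2.1, hv.1, hv.2.2⟩)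
        (fun v w hv => by simp only [Prod.mk.injEq] at hv ⊢; exact ⟨hv.2.1, hv.1, hv.2.2⟩) _
    rw [h1, h3, m_FG, m_F k hN]
    obtain ⟨e1, e2, e3⟩ := hbox c hc
    show ((∑ x ∈ N.V x0 b c, k.f x b c F * k.g x b c G) / MM X β γ) /
      ((N.C x0 b c).card * (∑ x ∈ N.V x0 b c, k.f x b c F) / MM X β γ) = _
    rw [e1, e3]
    simp only [hfk c hc]
    unfold RB.cl law avg
    by_cases hS : ∑ x ∈ N.V x0 b c0, k.f x b c0 F = 0
    · rw [hS]; simp
    · field_simp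
  -- the values
  have hq : ∀ c ∉ N.C x0 b c0, ∀ G, k.P.pv N.map xG (x0, b, c0, F, G0) (G, c) = 0 := by
    intro c hc G
    refine CL.pv_out fun u hu hu2 => hc ?_
    have h1 := (N.map_eq.1 hu).2.2
    have h2 : u.2.2.1 = c := congrArg Prod.snd hu2
    rw [← h2]; exact h1
  have hvals : ∀ v : φ × γ, v ∈ vals (xG : Sp X β γ φ → φ × γ) := fun v =>
    FP.mem_vals xG ((x0, b, v.2, F, v.1) : Sp X β γ φ)
  unfold FP.hel
  have hall : vals (xG : Sp X β γ φ → φ × γ) = Finset.univ := Finset.eq_univ_iff_forall.2 hvals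
  rw [hall, Fintype.sum_prod_type, Finset.sum_comm]
  have hsub : ∑ c : γ, ∑ G : φ, k.P.pv N.map xG (x0, b, c0, F, G0) (G, c) *
      (Real.sqrt (k.P.rt xF N.map xG (x0, b, c0, F, G0) (G, c)) - 1) ^ 2 =
      ∑ c ∈ N.C x0 b c0, ∑ G : φ, k.P.pv N.map xG (x0, b, c0, F, G0) (G, c) *
      (Real.sqrt (k.P.rt xF N.map xG (x0, b, c0, F, G0) (G, c)) - 1) ^ 2 := by
    symm
    refine Finset.sum_subset (Finset.subset_univ _) fun c _ hc => Finset.sum_eq_zero fun G _ => ?_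
    rw [hq c hc G, zero_mul]
  rw [hsub]
  unfold avg
  rw [Finset.sum_div]
  refine Finset.sum_congr rfl fun c hc => ?_
  unfold CL.hf
  rw [Finset.sum_div]
  refine Finset.sum_congr rfl fun G _ => ?_
  unfold FP.rt
  rw [p1 c hc G, p2 c hc G]
  have h5 : RB.cl (N.V x0 b c0) (fun x => k.f x b c0) (fun x => k.g x b c) F G / (N.C x0 b c0).card /
      (law (N.V x0 b c0) (fun x => k.g x b c) G / (N.C x0 b c0).card) =
      RB.cl (N.V x0 b c0) (fun x => k.f x b c0) (fun x => k.g x b c) F G / law (N.V x0 b c0) (fun x => k.g x b c) G :=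
    div_div_div_cancel_right₀ hC _ _
  rw [h5]
  ring

/-- the closeness of a box state, second family -/
theorem hel_box' {k : KP X β γ φ} {N : Bx X β γ} (hN : N.Ok k) (w : Sp X β γ φ) :
    k.P.hel xG N.map xF w = avg (N.B w.1 w.2.1 w.2.2.1) fun b =>
      CL.hf (RB.cl (N.V w.1 w.2.1 w.2.2.1) (fun x => k.g x w.2.1 w.2.2.1) (fun x => k.f x b w.2.2.1) w.2.2.2.2)
        (law (N.V w.1 w.2.1 w.2.2.1) fun x => k.f x b w.2.2.1) := by
  classical
  obtain ⟨x0, b0, c, F0, G⟩ := w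
  show k.P.hel xG N.map xF (x0, b0, c, F0, G) = avg (N.B x0 b0 c) fun b =>
      CL.hf (RB.cl (N.V x0 b0 c) (fun x => k.g x b0 c) (fun x => k.f x b c) G) (law (N.V x0 b0 c) fun x => k.f x b c)
  have hM : MM X β γ ≠ 0 := MM_pos.ne'
  have hB : ((N.B x0 b0 c).card : ℝ) ≠ 0 := by exact_mod_cast (Finset.card_pos.2 ⟨_, N.sB x0 b0 c⟩).ne'
  have hC : ((N.C x0 b0 c).card : ℝ) ≠ 0 := by exact_mod_cast (Finset.card_pos.2 ⟨_, N.sC x0 b0 c⟩).ne'
  have hV : ((N.V x0 b0 c).card : ℝ) ≠ 0 := by exact_mod_cast (Finset.card_pos.2 ⟨_, N.sV x0 b0 c⟩).ne'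
  have hmap : ∀ b ∈ N.B x0 b0 c, ∀ F, N.map ((x0, b, c, F, G) : Sp X β γ φ) = N.map (x0, b0, c, F0, G) := fun b hb F =>
    N.map_eq.2 ⟨N.sV x0 b0 c, hb, N.sC x0 b0 c⟩
  have hbox : ∀ b ∈ N.B x0 b0 c, N.V x0 b c = N.V x0 b0 c ∧ N.B x0 b c = N.B x0 b0 c ∧ N.C x0 b c = N.C x0 b0 c :=
    fun b hb => N.inv x0 b0 c x0 b c (N.sV x0 b0 c) hb (N.sC x0 b0 c)
  have hgk : ∀ b ∈ N.B x0 b0 c, ∀ x, k.g x b c = k.g x b0 c := fun b hb x => hN.g x0 b0 b c x hb
  have p1 : ∀ b ∈ N.B x0 b0 c, ∀ F, k.P.pv N.map xF (x0, b0, c, F0, G) (F, b) =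
      law (N.V x0 b0 c) (fun x => k.f x b c) F / (N.B x0 b0 c).card := by
    intro b hb F
    have h1 := CL.pv_val k.P (W := N.map) (V := xF) (hmap b hb F)
    have h2 : xF ((x0, b, c, F, G) : Sp X β γ φ) = (F, b) := rfl
    rw [h2] at h1
    rw [h1, m_F k hN, m_N]
    obtain ⟨e1, e2, e3⟩ := hbox b hb
    show ((N.C x0 b c).card * (∑ x ∈ N.V x0 b c, k.f x b c F) / MM X β γ) /
      ((N.V x0 b c).card * ((N.B x0 b c).card * (N.C x0 b c).card) / MM X β γ) = _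
    rw [e1, e2, e3]
    unfold law avg
    field_simp
  have p2 : ∀ b ∈ N.B x0 b0 c, ∀ F, k.P.pv (fun u => (xG u, N.map u)) xF (x0, b0, c, F0, G) (F, b) =
      RB.cl (N.V x0 b0 c) (fun x => k.g x b0 c) (fun x => k.f x b c) G F / (N.B x0 b0 c).card := by
    intro b hb F
    have hm2 : (fun u : Sp X β γ φ => (xG u, N.map u)) (x0, b, c, F, G) = (fun u => (xG u, N.map u)) (x0, b0, c, F0, G) :=
      Prod.ext rfl (hmap b hb F)
    have h1 := CL.pv_val k.P (W := fun u => (xG u, N.map u)) (V := xF) hm2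
    have h2 : xF ((x0, b, c, F, G) : Sp X β γ φ) = (F, b) := rfl
    rw [h2] at h1
    rw [h1, m_FG, m_G k hN]
    obtain ⟨e1, e2, e3⟩ := hbox b hb
    show ((∑ x ∈ N.V x0 b c, k.f x b c F * k.g x b c G) / MM X β γ) /
      ((N.B x0 b c).card * (∑ x ∈ N.V x0 b c, k.g x b c G) / MM X β γ) = _
    rw [e1, e2]
    simp only [hgk b hb]
    unfold RB.cl law avg
    have h4 : ∀ x, k.f x b c F * k.g x b0 c G = k.g x b0 c G * k.f x b c F := fun x => mul_comm _ _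
    simp only [h4]
    by_cases hS : ∑ x ∈ N.V x0 b0 c, k.g x b0 c G = 0
    · rw [hS]; simp
    · field_simp
  have hq : ∀ b ∉ N.B x0 b0 c, ∀ F, k.P.pv N.map xF (x0, b0, c, F0, G) (F, b) = 0 := by
    intro b hb F
    refine CL.pv_out fun u hu hu2 => hb ?_
    have h1 := (N.map_eq.1 hu).2.1
    have h2 : u.2.1 = b := congrArg Prod.snd hu2
    rw [← h2]; exact h1
  have hvals : ∀ v : φ × β, v ∈ vals (xF : Sp X β γ φ → φ × β) := fun v =>
    FP.mem_vals xF ((x0, v.2, c, v.1, G) : Sp X β γ φ)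
  unfold FP.hel
  have hall : vals (xF : Sp X β γ φ → φ × β) = Finset.univ := Finset.eq_univ_iff_forall.2 hvals
  rw [hall, Fintype.sum_prod_type, Finset.sum_comm]
  have hsub : ∑ b : β, ∑ F : φ, k.P.pv N.map xF (x0, b0, c, F0, G) (F, b) *
      (Real.sqrt (k.P.rt xG N.map xF (x0, b0, c, F0, G) (F, b)) - 1) ^ 2 =
      ∑ b ∈ N.B x0 b0 c, ∑ F : φ, k.P.pv N.map xF (x0, b0, c, F0, G) (F, b) *
      (Real.sqrt (k.P.rt xG N.map xF (x0, b0, c, F0, G) (F, b)) - 1) ^ 2 := by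
    symm
    refine Finset.sum_subset (Finset.subset_univ _) fun b _ hb => Finset.sum_eq_zero fun F _ => ?_
    rw [hq b hb F, zero_mul]
  rw [hsub]
  unfold avg
  rw [Finset.sum_div]
  refine Finset.sum_congr rfl fun b hb => ?_
  unfold CL.hf
  rw [Finset.sum_div]
  refine Finset.sum_congr rfl fun F _ => ?_
  unfold FP.rt
  rw [p1 b hb F, p2 b hb F]
  have h5 : RB.cl (N.V x0 b0 c) (fun x => k.g x b0 c) (fun x => k.f x b c) G F / (N.B x0 b0 c).card /
      (law (N.V x0 b0 c) (fun x => k.f x b c) F / (N.B x0 b0 c).card) =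
      RB.cl (N.V x0 b0 c) (fun x => k.g x b0 c) (fun x => k.f x b c) G F / law (N.V x0 b0 c) (fun x => k.f x b c) F :=
    div_div_div_cancel_right₀ hB _ _
  rw [h5]
  ring

theorem Thk.thF {k : KP X β γ φ} {V : Finset X} {al : ℝ} (h : Thk k V al) (b : β) (c : γ) :
    CL.Th V (fun x => k.f x b c) al where
  pos := h.pos
  nn x _ G := k.f_nn x b c G
  one x _ := k.f_one x b c
  thick x hx x' hx' G hG := h.f x hx x' hx' b c G hG

theorem Thk.thG {k : KP X β γ φ} {V : Finset X} {al : ℝ} (h : Thk k V al) (b : β) (c : γ) :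
    CL.Th V (fun x => k.g x b c) al where
  pos := h.pos
  nn x _ G := k.g_nn x b c G
  one x _ := k.g_one x b c
  thick x hx x' hx' G hG := h.g x hx x' hx' b c G hG

theorem law_F_pos {k : KP X β γ φ} {w : Sp X β γ φ} (hw : k.P.p w ≠ 0) {V : Finset X} (hV : w.1 ∈ V) :
    0 < law V (fun x => k.f x w.2.1 w.2.2.1) w.2.2.2.1 := by
  have h0 : k.f w.1 w.2.1 w.2.2.1 w.2.2.2.1 ≠ 0 := by
    intro h
    apply hw
    show k.f w.1 w.2.1 w.2.2.1 w.2.2.2.1 * _ / _ = 0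
    rw [h, zero_mul, zero_div]
  have h1 : 0 < k.f w.1 w.2.1 w.2.2.1 w.2.2.2.1 := lt_of_le_of_ne (k.f_nn _ _ _ _) (Ne.symm h0)
  unfold law avg
  refine div_pos (lt_of_lt_of_le h1 ?_) (by exact_mod_cast Finset.card_pos.2 ⟨_, hV⟩)
  exact Finset.single_le_sum (f := fun x => k.f x w.2.1 w.2.2.1 w.2.2.2.1) (fun x _ => k.f_nn _ _ _ _) hV

theorem law_G_pos {k : KP X β γ φ} {w : Sp X β γ φ} (hw : k.P.p w ≠ 0) {V : Finset X} (hV : w.1 ∈ V) :
    0 < law V (fun x => k.g x w.2.1 w.2.2.1) w.2.2.2.2 := by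
  have h0 : k.g w.1 w.2.1 w.2.2.1 w.2.2.2.2 ≠ 0 := by
    intro h
    apply hw
    show _ * k.g w.1 w.2.1 w.2.2.1 w.2.2.2.2 / _ = 0
    rw [h, mul_zero, zero_div]
  have h1 : 0 < k.g w.1 w.2.1 w.2.2.1 w.2.2.2.2 := lt_of_le_of_ne (k.g_nn _ _ _ _) (Ne.symm h0)
  unfold law avg
  refine div_pos (lt_of_lt_of_le h1 ?_) (by exact_mod_cast Finset.card_pos.2 ⟨_, hV⟩)
  exact Finset.single_le_sum (f := fun x => k.g x w.2.1 w.2.2.1 w.2.2.2.2) (fun x _ => k.g_nn _ _ _ _) hV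

/-- closeness of a part of a running class, first family: `hXY` of `S3KeyF` -/
theorem hel_close {k : KP X β γ φ} {N : Bx X β γ} (hN : N.Ok k) {w : Sp X β γ φ} (hw : k.P.p w ≠ 0)
    {W K : Finset X} {C : Finset γ} {kg' : X → γ → φ → ℝ} {sig e kap al mu : ℝ}
    (H : CL.Hy W K C (fun x c => k.g x w.2.1 c) kg' sig e kap al)
    (hkf : CL.Th W (fun x => k.f x w.2.1 w.2.2.1) al) (hV : N.V w.1 w.2.1 w.2.2.1 ⊆ W)
    (hmu0 : 0 < mu) (hmu : mu * W.card ≤ (N.V w.1 w.2.1 w.2.2.1).card) (he : 2 * e ≤ mu)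
    (hC : N.C w.1 w.2.1 w.2.2.1 ⊆ C) (hC2 : (C.card : ℝ) ≤ 2 * (N.C w.1 w.2.1 w.2.2.1).card) :
    k.P.hel xF N.map xG w ≤ 8 * CL.cb sig e kap al (al * mu / 2) := by
  rw [hel_box hN w]
  exact CL.close_half H hV hmu0 hmu he hC hC2 hkf (law_F_pos hw (N.sV _ _ _)).ne'

/-- closeness of a part of a running class, second family: `hYX` of `S3KeyF` -/
theorem hel_close' {k : KP X β γ φ} {N : Bx X β γ} (hN : N.Ok k) {w : Sp X β γ φ} (hw : k.P.p w ≠ 0)
    {W K : Finset X} {B : Finset β} {kf' : X → β → φ → ℝ} {sig e kap al mu : ℝ}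
    (H : CL.Hy W K B (fun x b => k.f x b w.2.2.1) kf' sig e kap al)
    (hkg : CL.Th W (fun x => k.g x w.2.1 w.2.2.1) al) (hV : N.V w.1 w.2.1 w.2.2.1 ⊆ W)
    (hmu0 : 0 < mu) (hmu : mu * W.card ≤ (N.V w.1 w.2.1 w.2.2.1).card) (he : 2 * e ≤ mu)
    (hB : N.B w.1 w.2.1 w.2.2.1 ⊆ B) (hB2 : (B.card : ℝ) ≤ 2 * (N.B w.1 w.2.1 w.2.2.1).card) :
    k.P.hel xG N.map xF w ≤ 8 * CL.cb sig e kap al (al * mu / 2) := by
  rw [hel_box' hN w]
  exact CL.close_half H hV hmu0 hmu he hB hB2 hkg (law_G_pos hw (N.sV _ _ _)).ne'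

end

end Pool.Agent.M3.S3
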