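import Pool.Agent.M3.S3B.Main
import Pool.Agent.M3.S3B.HelB
import Pool.Agent.M3.S3.MK
import Pool.Agent.M3.S3.Bal

/-!
# M3.S3B.HelU: closeness of the states and of the half step states of route B; the modules `StC1`, `StC2`, `StMK` (helper6)

* `HU.hy_start_g`, `HU.hy_start_f` : `CL.Hy` for the class of a start (it is saturated itself);
* `HU.hy_run_g`, `HU.hy_run_f` : `CL.Hy` for a running class: `K` = the big virtual cell (test (ii)), saturation of the
  virtual cells, test (i);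
* `HU.half_card` : the halves of a class with `|m| ≤ 1/2` (test (iv));
* `stC1`, `stC2`, `stMK` : the modules of `Main.lean`.
-/

set_option autoImplicit false
set_option linter.unusedSectionVars false
set_option linter.unusedVariables false

namespace Pool.Agent.M3.S3B

open Finset Pool.Agent.PWZ Pool.Agent.M3 Pool.Agent.M3.S3

noncomputable section

namespace HU

variable {X β γ ι φ : Type*} [Fintype X] [Fintype β] [Fintype γ] [Fintype φ] {D : Dat X β γ ι φ} {al : ℝ}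

theorem th_f (T : D.Thick al) {r s : ℕ} (hrs : r ≤ s) {V : Finset X} {x : X} (hV : V ⊆ D.cA s x) (b : β) (c : γ) :
    CL.Th V (fun y => D.kf r y b c) al where
  pos := T.pos
  nn y _ F := T.f_nn r y b c F
  one y _ := T.f_one r y b c
  thick y hy y' hy' F hF := T.f_thick r y y' b c F
    (D.qa_le hrs ((D.mem_cA.1 (hV hy)).trans (D.mem_cA.1 (hV hy')).symm)) hF

theorem th_g (T : D.Thick al) {r s : ℕ} (hrs : r ≤ s) {V : Finset X} {x : X} (hV : V ⊆ D.cA s x) (b : β) (c : γ) :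
    CL.Th V (fun y => D.kg r y b c) al where
  pos := T.pos
  nn y _ F := T.g_nn r y b c F
  one y _ := T.g_one r y b c
  thick y hy y' hy' F hF := T.g_thick r y y' b c F
    (D.qa_le hrs ((D.mem_cA.1 (hV hy)).trans (D.mem_cA.1 (hV hy')).symm)) hF

section start

variable {R : Rt D} {n : ℝ}

/-- the class of a start, second family -/
theorem hy_start_g (hR : R.toRm = rmB D n) (T : D.Thick al) (ha : al ≤ 1) (hn : 0 < n) {t : ℕ} {x : X} {b : β} {c : γ}
    (hs : R.start t x b c) :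
    CL.Hy (R.U t x b c) (R.U t x b c) (D.cC t c) (fun y c' => D.kg t y b c') (fun y c' => D.kg t y b c')
      (1 / n) 0 0 al where
  th c' _ := th_g T le_rfl (R.U_sub t x b c) b c'
  th' c' _ := th_g T le_rfl (R.U_sub t x b c) b c'
  al0 := T.pos
  al1 := ha
  sub := ⟨Finset.Subset.rfl, ⟨x, R.self_U t x b c⟩, by simp⟩
  sig0 := by positivity
  kap0 := le_rfl
  sat S hS hne := by
    have h0 : (R.ep t x b c).t0 = t := hs
    have h1 := R.U_start h0
    have h2 := om0_sat_g (R := R) hR T hn (s := t) (x := x) (b := b) (c := c) (V := S) (h1 ▸ hS) hne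
    rw [h0, ← h1] at h2
    refine h2.trans (le_of_eq ?_)
    ring
  bad := ⟨∅, by simp, fun _ _ _ _ _ => rfl⟩

/-- the class of a start, first family -/
theorem hy_start_f (hR : R.toRm = rmB D n) (T : D.Thick al) (ha : al ≤ 1) (hn : 0 < n) {t : ℕ} {x : X} {b : β} {c : γ}
    (hs : R.start t x b c) :
    CL.Hy (R.U t x b c) (R.U t x b c) (D.cB t b) (fun y b' => D.kf t y b' c) (fun y b' => D.kf t y b' c)
      (1 / n) 0 0 al where
  th b' _ := th_f T le_rfl (R.U_sub t x b c) b' c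
  th' b' _ := th_f T le_rfl (R.U_sub t x b c) b' c
  al0 := T.pos
  al1 := ha
  sub := ⟨Finset.Subset.rfl, ⟨x, R.self_U t x b c⟩, by simp⟩
  sig0 := by positivity
  kap0 := le_rfl
  sat S hS hne := by
    have h0 : (R.ep t x b c).t0 = t := hs
    have h1 := R.U_start h0
    have h2 := om0_sat_f (R := R) hR T hn (s := t) (x := x) (b := b) (c := c) (V := S) (h1 ▸ hS) hne
    rw [h0, ← h1] at h2
    refine h2.trans (le_of_eq ?_)
    ring
  bad := ⟨∅, by simp, fun _ _ _ _ _ => rfl⟩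

end start

section run

variable {Up : Upd D} {N : Nb} {dg : ℕ → X → ℝ} {n J : ℝ} {K : ℕ}

/-- no test at a running time -/
theorem not_TT {R : Rm D} {t : ℕ} {x : X} {b : β} {c : γ} (h : ((mkRt R Up N dg K).ep t x b c).t0 < t) :
    ¬ TT R Up N dg ((mkRt R Up N dg K).ep t x b c) t x b c := fun h1 =>
  (mkRt R Up N dg K).not_ST t x b c ⟨t, h, le_rfl, Or.inl h1⟩

theorem sub_cell {e : Epo X} {t : ℕ} (x : X) : W D e t x ⊆ D.cA t x := fun _ hy => D.mem_cA.2 (mem_W.1 hy).2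

/-- almost all of the class -/
theorem sub_big {W K : Finset X} {e : ℝ} (he : 0 ≤ e) (he2 : e ≤ 1 / 2) (hK : K ⊆ W) (hW : W.Nonempty)
    (h : (1 - e) * W.card < (K.card : ℝ)) : CL.Sub W K (2 * e) where
  sub := hK
  ne := by
    have h1 : (0 : ℝ) < W.card := by exact_mod_cast hW.card_pos
    have h2 : (0 : ℝ) < K.card := lt_of_le_of_lt (mul_nonneg (by linarith) h1.le) h
    exact Finset.card_pos.1 (by exact_mod_cast h2)
  card := by
    have h1 : (0 : ℝ) < W.card := by exact_mod_cast hW.card_pos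
    have h2 : (W.card : ℝ) / 2 ≤ K.card := by nlinarith
    nlinarith

/-- few updated labels of the second family -/
theorem bad_g {e : Epo X} {t : ℕ} (h0 : e.t0 ≤ t) (hU : UpdOk D Up K J) {x : X} {b : β} {c : γ}
    (h : ¬ TT (rmB D n) Up N dg e t x b c) : ∃ Q : Finset γ, (Q.card : ℝ) ≤ N.kap2 * (D.cC t c).card ∧
      ∀ c' ∈ D.cC t c, c' ∉ Q → ∀ y ∈ W D e t x, D.kg t y b c' = D.kg e.t0 y b c' := by
  classical
  have h1 := run_i h
  refine ⟨(D.cC t c).filter fun c' => Up.cg t x b c' ≠ Up.cg e.t0 x b c', ?_, ?_⟩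
  · have hC : (0 : ℝ) < (D.cC t c).card := by exact_mod_cast Finset.card_pos.2 ⟨c, D.self_cC t c⟩
    have hB : (D.cB t b).Nonempty := ⟨b, D.self_cB t b⟩
    have h2 : (avg (D.cC t c) fun c' => ind (Up.cg t x b c' ≠ Up.cg e.t0 x b c')) ≤
        av2 D t b c fun b' c' => ind (Chg Up N e t x b c b' c') := by
      unfold av2
      rw [← avg_const hB (avg (D.cC t c) fun c' => ind (Up.cg t x b c' ≠ Up.cg e.t0 x b c'))]
      refine avg_mono fun b' _ => avg_mono fun c' _ => ?_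
      exact ind_mono fun h3 => Or.inl (Or.inr h3)
    have h3 : (avg (D.cC t c) fun c' => ind (Up.cg t x b c' ≠ Up.cg e.t0 x b c')) =
        (((D.cC t c).filter fun c' => Up.cg t x b c' ≠ Up.cg e.t0 x b c').card : ℝ) / (D.cC t c).card := by
      unfold avg
      congr 1
      rw [Finset.card_filter, Nat.cast_sum]
      refine Finset.sum_congr rfl fun c' _ => ?_
      show ind (Up.cg t x b c' ≠ Up.cg e.t0 x b c') = _
      by_cases h4 : Up.cg t x b c' ≠ Up.cg e.t0 x b c'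
      · rw [ind_of h4, if_pos h4, Nat.cast_one]
      · rw [ind_not h4, if_neg h4, Nat.cast_zero]
    rw [h3] at h2
    have h4 := h2.trans h1.le
    rwa [div_le_iff₀ hC] at h4
  · intro c' hc' hQ y hy
    have h2 : Up.cg t x b c' = Up.cg e.t0 x b c' := by
      by_contra hne
      exact hQ (Finset.mem_filter.2 ⟨hc', hne⟩)
    exact hU.kg_eq h0 h2 (mem_W.1 hy).2

/-- few updated labels of the first family -/
theorem bad_f {e : Epo X} {t : ℕ} (h0 : e.t0 ≤ t) (hU : UpdOk D Up K J) {x : X} {b : β} {c : γ}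
    (h : ¬ TT (rmB D n) Up N dg e t x b c) : ∃ Q : Finset β, (Q.card : ℝ) ≤ N.kap2 * (D.cB t b).card ∧
      ∀ b' ∈ D.cB t b, b' ∉ Q → ∀ y ∈ W D e t x, D.kf t y b' c = D.kf e.t0 y b' c := by
  classical
  have h1 := run_i h
  refine ⟨(D.cB t b).filter fun b' => Up.cf t x b' c ≠ Up.cf e.t0 x b' c, ?_, ?_⟩
  · have hB : (0 : ℝ) < (D.cB t b).card := by exact_mod_cast Finset.card_pos.2 ⟨b, D.self_cB t b⟩
    have hC : (D.cC t c).Nonempty := ⟨c, D.self_cC t c⟩
    have h2 : (avg (D.cB t b) fun b' => ind (Up.cf t x b' c ≠ Up.cf e.t0 x b' c)) ≤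
        av2 D t b c fun b' c' => ind (Chg Up N e t x b c b' c') := by
      unfold av2
      refine avg_mono fun b' _ => ?_
      rw [← avg_const hC (ind (Up.cf t x b' c ≠ Up.cf e.t0 x b' c))]
      refine avg_mono fun c' _ => ?_
      exact ind_mono fun h3 => Or.inl (Or.inl h3)
    have h3 : (avg (D.cB t b) fun b' => ind (Up.cf t x b' c ≠ Up.cf e.t0 x b' c)) =
        (((D.cB t b).filter fun b' => Up.cf t x b' c ≠ Up.cf e.t0 x b' c).card : ℝ) / (D.cB t b).card := by
      unfold avg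
      congr 1
      rw [Finset.card_filter, Nat.cast_sum]
      refine Finset.sum_congr rfl fun b' _ => ?_
      show ind (Up.cf t x b' c ≠ Up.cf e.t0 x b' c) = _
      by_cases h4 : Up.cf t x b' c ≠ Up.cf e.t0 x b' c
      · rw [ind_of h4, if_pos h4, Nat.cast_one]
      · rw [ind_not h4, if_neg h4, Nat.cast_zero]
    rw [h3] at h2
    have h4 := h2.trans h1.le
    rwa [div_le_iff₀ hB] at h4
  · intro b' hb' hQ y hy
    have h2 : Up.cf t x b' c = Up.cf e.t0 x b' c := by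
      by_contra hne
      exact hQ (Finset.mem_filter.2 ⟨hb', hne⟩)
    exact hU.kf_eq h0 h2 (mem_W.1 hy).2

/-- a running class, second family -/
theorem hy_run_g (T : D.Thick al) (ha : al ≤ 1) (hn : 0 < n) (hU : UpdOk D Up K J) (hk2 : 0 ≤ N.kap2)
    (he0 : 0 ≤ N.eps3) (he2 : N.eps3 ≤ 1 / 2) {e : Epo X} {t : ℕ} (h0 : e.t0 < t) {x : X} {b : β} {c : γ}
    (hx : x ∈ e.om0) (ho : e.om0 ⊆ D.cA e.t0 x) (h : ¬ TT (rmB D n) Up N dg e t x b c) :
    ∃ Kc : Finset X, CL.Hy (W D e t x) Kc (D.cC t c) (fun y c' => D.kg t y b c') (fun y c' => D.kg e.t0 y b c')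
      (1 / n) (2 * N.eps3) N.kap2 al := by
  obtain ⟨y, hy, hbig⟩ := (run_ii h).2
  have hy0 : y ∈ e.om0 := (mem_W.1 hy).1
  have hoy : e.om0 ⊆ D.cA e.t0 y := fun z hz =>
    D.mem_cA.2 ((D.mem_cA.1 (ho hz)).trans (D.mem_cA.1 (ho hy0)).symm)
  have hWy : W D e t y = W D e t x := W_congr (mem_W.1 hy).2
  have hsub : VG (rmB D n) e t y b c ⊆ W D e t x := by
    rw [← hWy]
    exact VG_W _ hy0 hoy t h0.le b c
  refine ⟨VG (rmB D n) e t y b c, ?_⟩
  exact {
    th := fun c' _ => th_g T le_rfl (sub_cell x) b c'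
    th' := fun c' _ => th_g T h0.le (sub_cell x) b c'
    al0 := T.pos
    al1 := ha
    sub := sub_big he0 he2 hsub ⟨x, self_W hx⟩ hbig
    sig0 := by positivity
    kap0 := hk2
    sat := by
      intro S hS hne
      have h2 := VG_sat T hn h0 hS hne
      refine h2.trans (le_of_eq ?_)
      ring
    bad := bad_g h0.le hU h }

/-- a running class, first family -/
theorem hy_run_f (T : D.Thick al) (ha : al ≤ 1) (hn : 0 < n) (hU : UpdOk D Up K J) (hk2 : 0 ≤ N.kap2)
    (he0 : 0 ≤ N.eps3) (he2 : N.eps3 ≤ 1 / 2) {e : Epo X} {t : ℕ} (h0 : e.t0 < t) {x : X} {b : β} {c : γ}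
    (hx : x ∈ e.om0) (ho : e.om0 ⊆ D.cA e.t0 x) (h : ¬ TT (rmB D n) Up N dg e t x b c) :
    ∃ Kc : Finset X, CL.Hy (W D e t x) Kc (D.cB t b) (fun y b' => D.kf t y b' c) (fun y b' => D.kf e.t0 y b' c)
      (1 / n) (2 * N.eps3) N.kap2 al := by
  obtain ⟨y, hy, hbig⟩ := (run_ii h).1
  have hy0 : y ∈ e.om0 := (mem_W.1 hy).1
  have hoy : e.om0 ⊆ D.cA e.t0 y := fun z hz =>
    D.mem_cA.2 ((D.mem_cA.1 (ho hz)).trans (D.mem_cA.1 (ho hy0)).symm)
  have hWy : W D e t y = W D e t x := W_congr (mem_W.1 hy).2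
  have hsub : VF (rmB D n) e t y b c ⊆ W D e t x := by
    rw [← hWy]
    exact VF_W _ hy0 hoy t h0.le b c
  refine ⟨VF (rmB D n) e t y b c, ?_⟩
  exact {
    th := fun b' _ => th_f T le_rfl (sub_cell x) b' c
    th' := fun b' _ => th_f T h0.le (sub_cell x) b' c
    al0 := T.pos
    al1 := ha
    sub := sub_big he0 he2 hsub ⟨x, self_W hx⟩ hbig
    sig0 := by positivity
    kap0 := hk2
    sat := by
      intro S hS hne
      have h2 := VF_sat T hn h0 hS hne
      refine h2.trans (le_of_eq ?_)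
      ring
    bad := bad_f h0.le hU h }

end run

section half

/-- the halves of a class with a digit of small mean -/
theorem half_card {dg : ℕ → X → ℝ} {t : ℕ} (hv : ∀ x, dg t x = 1 ∨ dg t x = -1) {V : Finset X} {x : X} (hx : x ∈ V)
    (hm : |mB dg t V| ≤ 1 / 2) {H : Finset X} (hH : ∀ y, y ∈ H ↔ y ∈ V ∧ dg t y = dg t x) :
    1 / 4 * (V.card : ℝ) ≤ H.card := by
  classical
  have hVc : (0 : ℝ) < V.card := by exact_mod_cast Finset.card_pos.2 ⟨x, hx⟩
  have h1 : ∀ y, (if dg t y = dg t x then (1 : ℝ) else 0) = (1 + dg t x * dg t y) / 2 := by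
    intro y
    rcases hv x with h2 | h2 <;> rcases hv y with h3 | h3 <;> rw [h2, h3] <;> norm_num
  have hHe : H = V.filter fun y => dg t y = dg t x := by
    ext y
    rw [hH, mem_filter]
  have h2 : (H.card : ℝ) = ∑ y ∈ V, (1 + dg t x * dg t y) / 2 := by
    rw [hHe, Finset.card_filter, Nat.cast_sum]
    refine Finset.sum_congr rfl fun y _ => ?_
    rw [← h1 y]
    split_ifs <;> simp
  have h3 : ∑ y ∈ V, (1 + dg t x * dg t y) / 2 = (V.card + dg t x * ∑ y ∈ V, dg t y) / 2 := by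
    rw [← Finset.sum_div, Finset.sum_add_distrib, ← Finset.mul_sum, Finset.sum_const, nsmul_eq_mul, mul_one]
  have h4 : mB dg t V = (∑ y ∈ V, dg t y) / V.card := rfl
  rw [h4, abs_div, abs_of_pos hVc, div_le_iff₀ hVc] at hm
  have h5 : |dg t x * ∑ y ∈ V, dg t y| ≤ 1 / 2 * V.card := by
    rw [abs_mul]
    rcases hv x with h6 | h6 <;> rw [h6] <;> simpa using hm
  have h6 := neg_le_of_abs_le h5
  rw [h2, h3]
  linarith

end half

section num

/-- the bound of the closeness at a running time -/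
theorem cb_num {n Lam e kap m : ℝ} (ha0 : 0 < al) (ha1 : al ≤ 1) (hl : Real.log (1 / al) ≤ Lam) (hL : 0 ≤ Lam)
    (hn : 4 ≤ n) (he0 : 0 ≤ e) (he : e ≤ 2 * (al ^ 2 / n ^ 4)) (hk0 : 0 ≤ kap) (hk : kap ≤ 1 / n ^ 3)
    (hm : al / 8 ≤ m) : 8 * CL.cb (1 / n) e kap al m ≤ 30 * (Lam + 1) / n := by
  have hn0 : 0 < n := by linarith
  have hm0 : 0 < m := by linarith
  have hl0 : 0 ≤ Real.log (1 / al) := Real.log_nonneg (by rw [le_div_iff₀ ha0]; linarith)
  have h1 : Real.log (1 / m) ≤ Lam + 2.08 := by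
    have h2 : Real.log (1 / m) ≤ Real.log (8 * (1 / al)) := by
      refine Real.log_le_log (by positivity) ?_
      rw [mul_one_div]
      rw [div_le_div_iff₀ hm0 ha0]
      linarith
    have h3 : Real.log (8 * (1 / al)) = Real.log 8 + Real.log (1 / al) := Real.log_mul (by norm_num) (by positivity)
    have h4 : Real.log 8 = 3 * Real.log 2 := by
      rw [show (8 : ℝ) = 2 ^ 3 by norm_num, Real.log_pow]
      norm_num
    have h5 := Real.log_two_lt_d9
    linarith
  have h2 : e / (al * m) ≤ 16 / n ^ 4 := by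
    rw [div_le_div_iff₀ (mul_pos ha0 hm0) (by positivity)]
    have h3 : e * n ^ 4 ≤ 2 * al ^ 2 := by
      have h4 := mul_le_mul_of_nonneg_right he (by positivity : (0 : ℝ) ≤ n ^ 4)
      have h5 : 2 * (al ^ 2 / n ^ 4) * n ^ 4 = 2 * al ^ 2 := by field_simp
      linarith
    nlinarith
  have hn2 : (16 : ℝ) ≤ n ^ 2 := by nlinarith
  have hn33 : (64 : ℝ) ≤ n ^ 3 := by
    have : n ^ 3 = n ^ 2 * n := by ring
    rw [this]
    nlinarith
  have hn4 : 16 / n ^ 4 ≤ 1 / 4 * (1 / n) := by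
    rw [div_le_iff₀ (by positivity)]
    have h3 : 1 / 4 * (1 / n) * n ^ 4 = 1 / 4 * n ^ 3 := by field_simp
    rw [h3]
    linarith
  have hn3 : kap ≤ 1 / 16 * (1 / n) := by
    refine hk.trans ?_
    rw [div_le_iff₀ (by positivity)]
    have h3 : 1 / 16 * (1 / n) * n ^ 3 = 1 / 16 * n ^ 2 := by field_simp
    rw [h3]
    linarith
  unfold CL.cb
  have h5 : 1 / n * (Real.log (1 / m) + 1) ≤ 1 / n * (Lam + 3.08) := mul_le_mul_of_nonneg_left (by linarith) (by positivity)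
  have h6 : 2 * (e / (al * m)) * (Real.log (1 / al) + 1) ≤ 2 * (1 / 4 * (1 / n)) * (Lam + 1) := by
    refine mul_le_mul ?_ (by linarith) (by linarith) (by positivity)
    linarith
  have h7 : kap * Real.log (1 / al) ≤ 1 / 16 * (1 / n) * Lam := mul_le_mul hn3 hl hl0 (by positivity)
  have h8 : 8 * (1 / n * (Lam + 3.08) + 2 * (1 / 4 * (1 / n)) * (Lam + 1) + 1 / 16 * (1 / n) * Lam) ≤
      30 * (Lam + 1) / n := by
    rw [le_div_iff₀ hn0]
    have h9 : 8 * (1 / n * (Lam + 3.08) + 2 * (1 / 4 * (1 / n)) * (Lam + 1) + 1 / 16 * (1 / n) * Lam) * n =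
        8 * ((Lam + 3.08) + 1 / 2 * (Lam + 1) + 1 / 16 * Lam) := by
      field_simp
      ring
    rw [h9]
    linarith
  linarith

/-- the bound of the closeness in a part of a saturated class -/
theorem cb_num0 {n Lam L : ℝ} (ha0 : 0 < al) (hl : Real.log (1 / al) ≤ Lam)
    (hn : 0 < n) : 8 * CL.cb (1 / n) 0 0 al (al * Real.exp (-L) / 2) ≤ 8 * (Lam + L + 2) / n := by
  unfold CL.cb
  have h1 : Real.log (1 / (al * Real.exp (-L) / 2)) = Real.log 2 + Real.log (1 / al) + L := by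
    rw [one_div_div, div_eq_mul_inv, mul_inv, ← Real.exp_neg, neg_neg,
      Real.log_mul (by norm_num) (by positivity), Real.log_mul (by positivity) (Real.exp_pos _).ne', Real.log_exp,
      one_div]
    ring
  have h2 := Real.log_two_lt_d9
  rw [h1, zero_div, mul_zero, zero_mul, zero_mul, add_zero, add_zero]
  rw [le_div_iff₀ hn]
  have h3 : 8 * (1 / n * (Real.log 2 + Real.log (1 / al) + L + 1)) * n =
      8 * (Real.log 2 + Real.log (1 / al) + L + 1) := by field_simp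
  rw [h3]
  linarith

end num

end HU

section final

variable {X β γ ι φ : Type} [Fintype X] [Fintype β] [Fintype γ] [Fintype φ] [Nonempty X] [Nonempty β] [Nonempty γ]
  {D : Dat X β γ ι φ} {al : ℝ}

/-- the numbers of the tests -/
theorem HU.nbB_num {n : ℝ} (ha0 : 0 < al) (ha1 : al ≤ 1) (hn : 4 ≤ n) :
    0 ≤ (nbB al n).kap2 ∧ 0 ≤ (nbB al n).eps3 ∧ (nbB al n).eps3 ≤ 1 / 2 := by
  have hn0 : 0 < n := by linarith
  refine ⟨?_, ?_, ?_⟩
  · show 0 ≤ 1 / n ^ 3
    positivity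
  · show 0 ≤ al ^ 2 / n ^ 4
    positivity
  · show al ^ 2 / n ^ 4 ≤ 1 / 2
    rw [div_le_iff₀ (by positivity)]
    have h1 : al ^ 2 ≤ 1 := pow_le_one₀ ha0.le ha1
    have h2 : (2 : ℝ) ≤ n ^ 4 := by
      have : (4 : ℝ) ^ 4 ≤ n ^ 4 := pow_le_pow_left₀ (by norm_num) hn 4
      linarith
    linarith

variable {dg : ℕ → X → ℝ} {n Lam J L : ℝ} {K : ℕ}

/-- CLOSENESS of the states at all times -/
theorem stC1 (T : D.Thick al) (ha1 : al ≤ 1) (hl : Real.log (1 / al) ≤ Lam) (hL : 0 ≤ Lam) (hn : 4 ≤ n)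
    (hU : UpdOk D (updOf D) K J) : StC1 T (rB D dg al n K) K (30 * (Lam + 1) / n) := by
  have ha0 := T.pos
  have hn0 : 0 < n := by linarith
  obtain ⟨k2, k3, k4⟩ := HU.nbB_num (al := al) ha0 ha1 hn
  set R := rB D dg al n K with hRd
  have hR : R.toRm = rmB D n := rfl
  have ok : ∀ t, (bxU R.refCl t).Ok (D.kp T t) := fun t => bxA_ok T R.refCl t t t le_rfl le_rfl
  have key : ∀ {t : ℕ} {x : X} {b : β} {c : γ}, ¬ R.start t x b c → (R.ep t x b c).t0 < t := fun {t x b c} h =>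
    lt_of_le_of_ne (R.t0_le t x b c) h
  constructor
  · intro t ht w hw
    by_cases hs : R.start t w.1 w.2.1 w.2.2.1
    · refine (hel_close (ok t) hw (mu := 1) (HU.hy_start_g hR T ha1 hn0 hs)
        (HU.th_f T le_rfl (R.U_sub t _ _ _) _ _) (Finset.Subset.refl _) one_pos (by rw [one_mul]; exact le_rfl)
        (by norm_num) (Finset.Subset.refl _) ?_).trans ?_
      · show ((D.cC t w.2.2.1).card : ℝ) ≤ 2 * (D.cC t w.2.2.1).card
        have : (0 : ℝ) ≤ (D.cC t w.2.2.1).card := Nat.cast_nonneg _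
        linarith
      · exact HU.cb_num ha0 ha1 hl hL hn le_rfl (by positivity) le_rfl (by positivity) (by linarith)
    · obtain ⟨Kc, H⟩ := HU.hy_run_g (N := nbB al n) (dg := dg) T ha1 hn0 hU k2 k3 k4 (key hs) (R.self_om0 t _ _ _)
        (R.om0_sub t _ _ _) (HU.not_TT (key hs))
      refine (hel_close (ok t) hw (mu := 1) H
        (HU.th_f T le_rfl (R.U_sub t _ _ _) _ _) (Finset.Subset.refl _) one_pos (by rw [one_mul]; exact le_rfl)
        ?_ (Finset.Subset.refl _) ?_).trans ?_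
      · have : (nbB al n).eps3 ≤ 1 / 256 := by
          show al ^ 2 / n ^ 4 ≤ 1 / 256
          rw [div_le_iff₀ (by positivity)]
          have h1 : al ^ 2 ≤ 1 := pow_le_one₀ ha0.le ha1
          have h2 : (4 : ℝ) ^ 4 ≤ n ^ 4 := pow_le_pow_left₀ (by norm_num) hn 4
          linarith
        linarith
      · show ((D.cC t w.2.2.1).card : ℝ) ≤ 2 * (D.cC t w.2.2.1).card
        have : (0 : ℝ) ≤ (D.cC t w.2.2.1).card := Nat.cast_nonneg _
        linarith
      · exact HU.cb_num ha0 ha1 hl hL hn (by linarith) le_rfl k2 le_rfl (by linarith)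
  · intro t ht w hw
    by_cases hs : R.start t w.1 w.2.1 w.2.2.1
    · refine (hel_close' (ok t) hw (mu := 1) (HU.hy_start_f hR T ha1 hn0 hs)
        (HU.th_g T le_rfl (R.U_sub t _ _ _) _ _) (Finset.Subset.refl _) one_pos (by rw [one_mul]; exact le_rfl)
        (by norm_num) (Finset.Subset.refl _) ?_).trans ?_
      · show ((D.cB t w.2.1).card : ℝ) ≤ 2 * (D.cB t w.2.1).card
        have : (0 : ℝ) ≤ (D.cB t w.2.1).card := Nat.cast_nonneg _
        linarith
      · exact HU.cb_num ha0 ha1 hl hL hn le_rfl (by positivity) le_rfl (by positivity) (by linarith)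
    · obtain ⟨Kc, H⟩ := HU.hy_run_f (N := nbB al n) (dg := dg) T ha1 hn0 hU k2 k3 k4 (key hs) (R.self_om0 t _ _ _)
        (R.om0_sub t _ _ _) (HU.not_TT (key hs))
      refine (hel_close' (ok t) hw (mu := 1) H
        (HU.th_g T le_rfl (R.U_sub t _ _ _) _ _) (Finset.Subset.refl _) one_pos (by rw [one_mul]; exact le_rfl)
        ?_ (Finset.Subset.refl _) ?_).trans ?_
      · have : (nbB al n).eps3 ≤ 1 / 256 := by
          show al ^ 2 / n ^ 4 ≤ 1 / 256
          rw [div_le_iff₀ (by positivity)]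
          have h1 : al ^ 2 ≤ 1 := pow_le_one₀ ha0.le ha1
          have h2 : (4 : ℝ) ^ 4 ≤ n ^ 4 := pow_le_pow_left₀ (by norm_num) hn 4
          linarith
        linarith
      · show ((D.cB t w.2.1).card : ℝ) ≤ 2 * (D.cB t w.2.1).card
        have : (0 : ℝ) ≤ (D.cB t w.2.1).card := Nat.cast_nonneg _
        linarith
      · exact HU.cb_num ha0 ha1 hl hL hn (by linarith) le_rfl k2 le_rfl (by linarith)

/-- `eps3` is small -/
theorem HU.nbB_eps {n : ℝ} (ha0 : 0 < al) (ha1 : al ≤ 1) (hn : 4 ≤ n) : (nbB al n).eps3 ≤ 1 / 256 := by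
  show al ^ 2 / n ^ 4 ≤ 1 / 256
  rw [div_le_iff₀ (by positivity)]
  have h1 : al ^ 2 ≤ 1 := pow_le_one₀ ha0.le ha1
  have h2 : (4 : ℝ) ^ 4 ≤ n ^ 4 := pow_le_pow_left₀ (by norm_num) hn 4
  linarith

/-- the two half step classes are the same -/
theorem HU.hlf_hf (R : Rt D) (t : ℕ) (x : X) (b : β) (c : γ) : hlf D R.U t x b c = R.hf t x b c := by
  ext y
  rw [mem_hlf]
  show (y ∈ W D (R.ep t x b c) t x ∧ _) ↔ y ∈ W D (R.ep t x b c) (t + 1) x
  rw [mem_W, mem_W]
  exact ⟨fun h => ⟨h.1.1, h.2⟩, fun h => ⟨⟨h.1, D.ra t y x h.2⟩, h.2⟩⟩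

/-- CLOSENESS of the half step states which are not tiny -/
theorem stC2 (T : D.Thick al) (ha1 : al ≤ 1) (hl : Real.log (1 / al) ≤ Lam) (hL : 0 ≤ Lam) (hn : 4 ≤ n)
    (hU : UpdOk D (updOf D) K J) (hLL : 0 ≤ L) (hv : ∀ t x, dg t x = 1 ∨ dg t x = -1)
    (hc : ∀ t < K, ∀ x x', D.qa (t + 1) x = D.qa (t + 1) x' ↔ D.qa t x = D.qa t x' ∧ dg t x = dg t x')
    (hB : ∀ t < K, (∀ b, D.cB (t + 1) b = D.cB t b) ∨ ∀ b, 2 * (D.cB (t + 1) b).card = (D.cB t b).card)
    (hC : ∀ t < K, (∀ c, D.cC (t + 1) c = D.cC t c) ∨ ∀ c, 2 * (D.cC (t + 1) c).card = (D.cC t c).card) :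
    StC2 T (rB D dg al n K) K L (30 * (Lam + L + 1) / n) := by
  have ha0 := T.pos
  have hn0 : 0 < n := by linarith
  obtain ⟨k2, k3, k4⟩ := HU.nbB_num (al := al) ha0 ha1 hn
  have k5 := HU.nbB_eps (al := al) ha0 ha1 hn
  set R := rB D dg al n K with hRd
  have hR : R.toRm = rmB D n := rfl
  have ok : ∀ t, (bxH R.refCl t).Ok (D.kp T t) := fun t => bxB_ok T R.refCl t (t + 1) t (Nat.le_succ t) (Nat.le_succ t)
  have key : ∀ {t : ℕ} {x : X} {b : β} {c : γ}, ¬ R.start t x b c → (R.ep t x b c).t0 < t := fun {t x b c} h =>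
    lt_of_le_of_ne (R.t0_le t x b c) h
  have hsub : ∀ t x b c, hlf D R.U t x b c ⊆ R.U t x b c := fun t x b c y hy => (mem_hlf.1 hy).1
  have hB' : ∀ t < K, ∀ b, D.cB (t + 1) b ⊆ D.cB t b ∧ ((D.cB t b).card : ℝ) ≤ 2 * (D.cB (t + 1) b).card := by
    intro t ht b
    refine ⟨fun y hy => D.mem_cB.2 (D.rb t _ _ (D.mem_cB.1 hy)), ?_⟩
    rcases hB t ht with h | h
    · rw [h b]
      have : (0 : ℝ) ≤ (D.cB t b).card := Nat.cast_nonneg _
      linarith
    · have h1 := h b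
      exact_mod_cast h1.ge
  have hC' : ∀ t < K, ∀ c, D.cC (t + 1) c ⊆ D.cC t c ∧ ((D.cC t c).card : ℝ) ≤ 2 * (D.cC (t + 1) c).card := by
    intro t ht c
    refine ⟨fun y hy => D.mem_cC.2 (D.rc t _ _ (D.mem_cC.1 hy)), ?_⟩
    rcases hC t ht with h | h
    · rw [h c]
      have : (0 : ℝ) ≤ (D.cC t c).card := Nat.cast_nonneg _
      linarith
    · have h1 := h c
      exact_mod_cast h1.ge
  have num1 : 8 * CL.cb (1 / n) 0 0 al (al * Real.exp (-L) / 2) ≤ 30 * (Lam + L + 1) / n := by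
    refine (HU.cb_num0 ha0 hl hn0).trans ?_
    exact div_le_div_of_nonneg_right (by linarith) hn0.le
  have num2 : 8 * CL.cb (1 / n) (2 * (nbB al n).eps3) (nbB al n).kap2 al (al * (1 / 4) / 2) ≤
      30 * (Lam + L + 1) / n := by
    refine (HU.cb_num ha0 ha1 hl hL hn (by positivity) le_rfl k2 le_rfl (by linarith)).trans ?_
    exact div_le_div_of_nonneg_right (by linarith) hn0.le
  have hth : ∀ {t : ℕ} {x : X} {b : β} {c : γ}, thB R L t x b c ≠ 0 →
      Real.exp (-L) * ((R.U t x b c).card : ℝ) ≤ (hlf D R.U t x b c).card := by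
    intro t x b c h
    have h1 : Real.exp (-L) * ((R.U t x b c).card : ℝ) ≤ (R.hf t x b c).card := by
      by_contra hcon
      exact h (ind_not hcon)
    rwa [HU.hlf_hf]
  have hqu : ∀ {t : ℕ} {x : X} {b : β} {c : γ}, t < K → ¬ R.start t x b c →
      1 / 4 * ((R.U t x b c).card : ℝ) ≤ (hlf D R.U t x b c).card := by
    intro t x b c ht hs
    refine HU.half_card (hv t) (R.self_U t x b c) (run_iv (HU.not_TT (key hs))).1 fun y => ?_
    rw [mem_hlf, hc t ht]
    exact ⟨fun h => ⟨h.1, h.2.2⟩, fun h => ⟨h.1, (mem_W.1 h.1).2, h.2⟩⟩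
  constructor
  · intro t ht w hw hθ
    by_cases hs : R.start t w.1 w.2.1 w.2.2.1
    · exact (hel_close (ok t) hw (mu := Real.exp (-L)) (HU.hy_start_g hR T ha1 hn0 hs)
        (HU.th_f T le_rfl (R.U_sub t _ _ _) _ _) (hsub t _ _ _) (Real.exp_pos _) (hth hθ)
        (by rw [mul_zero]; exact (Real.exp_pos _).le) (hC' t ht _).1 (hC' t ht _).2).trans num1
    · obtain ⟨Kc, H⟩ := HU.hy_run_g (N := nbB al n) (dg := dg) T ha1 hn0 hU k2 k3 k4 (key hs) (R.self_om0 t _ _ _)
        (R.om0_sub t _ _ _) (HU.not_TT (key hs))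
      exact (hel_close (ok t) hw (mu := 1 / 4) H
        (HU.th_f T le_rfl (R.U_sub t _ _ _) _ _) (hsub t _ _ _) (by norm_num) (hqu ht hs)
        (by linarith) (hC' t ht _).1 (hC' t ht _).2).trans num2
  · intro t ht w hw hθ
    by_cases hs : R.start t w.1 w.2.1 w.2.2.1
    · exact (hel_close' (ok t) hw (mu := Real.exp (-L)) (HU.hy_start_f hR T ha1 hn0 hs)
        (HU.th_g T le_rfl (R.U_sub t _ _ _) _ _) (hsub t _ _ _) (Real.exp_pos _) (hth hθ)
        (by rw [mul_zero]; exact (Real.exp_pos _).le) (hB' t ht _).1 (hB' t ht _).2).trans num1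
    · obtain ⟨Kc, H⟩ := HU.hy_run_f (N := nbB al n) (dg := dg) T ha1 hn0 hU k2 k3 k4 (key hs) (R.self_om0 t _ _ _)
        (R.om0_sub t _ _ _) (HU.not_TT (key hs))
      exact (hel_close' (ok t) hw (mu := 1 / 4) H
        (HU.th_g T le_rfl (R.U_sub t _ _ _) _ _) (hsub t _ _ _) (by norm_num) (hqu ht hs)
        (by linarith) (hB' t ht _).1 (hB' t ht _).2).trans num2

/-- the mutual information at the time `K` -/
theorem stMK (T : D.Thick al) (hl : Real.log (1 / al) ≤ Lam) (hn : 0 < n) :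
    StMK T (rB D dg al n K) K ((Lam + 1) / n) := by
  set R := rB D dg al n K with hRd
  have hR : R.toRm = rmB D n := rfl
  have h := MK_le T R.refCl K (sg := 1 / n) (by positivity) (fun x b c => ?_)
  · refine h.trans ?_
    rw [one_div_mul_eq_div]
    exact div_le_div_of_nonneg_right (by linarith) hn.le
  · have h0 : (R.ep K x b c).t0 = K := ep_K K x b c
    have h1 := R.U_start h0
    constructor
    · intro S hS hne
      have h2 := om0_sat_f (R := R) hR T hn (s := K) (x := x) (b := b) (c := c) (V := S) (h1 ▸ hS) hne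
      rw [h0, ← h1] at h2
      refine h2.trans (le_of_eq ?_)
      ring
    · intro S hS hne
      have h2 := om0_sat_g (R := R) hR T hn (s := K) (x := x) (b := b) (c := c) (V := S) (h1 ▸ hS) hne
      rw [h0, ← h1] at h2
      refine h2.trans (le_of_eq ?_)
      ring

end final

section hyp3

variable {X β γ ι φ : Type} [Fintype X] [Fintype β] [Fintype γ] [Fintype φ] [Nonempty X] [Nonempty β] [Nonempty γ]
  {D : Dat X β γ ι φ} {al : ℝ} {dg : ℕ → X → ℝ} {prf prg : ℕ → φ → φ} {K : ℕ} {Lam n L : ℝ}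

theorem HU.upd_hyp3 (H : Hyp3 D dg prf prg al K Lam) : UpdOk D (updOf D) K (Real.exp Lam) := updOf_ok D H.cf3 H.cg3

theorem stC1_hyp3 (T : D.Thick al) (H : Hyp3 D dg prf prg al K Lam) (hn : 4 ≤ n) :
    StC1 T (rB D dg al n K) K (30 * (Lam + 1) / n) :=
  stC1 T (hyp_all T H).al1 (hyp_all T H).loga (by linarith [H.Lam1]) hn (HU.upd_hyp3 H)

theorem stC2_hyp3 (T : D.Thick al) (H : Hyp3 D dg prf prg al K Lam) (hn : 4 ≤ n) (hL : 0 ≤ L) :
    StC2 T (rB D dg al n K) K L (30 * (Lam + L + 1) / n) :=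
  stC2 T (hyp_all T H).al1 (hyp_all T H).loga (by linarith [H.Lam1]) hn (HU.upd_hyp3 H) hL H.dg_val H.dg_cell H.halfB
    H.halfC

theorem stMK_hyp3 (T : D.Thick al) (H : Hyp3 D dg prf prg al K Lam) (hn : 0 < n) :
    StMK T (rB D dg al n K) K ((Lam + 1) / n) := stMK T (hyp_all T H).loga hn

end hyp3

end

end Pool.Agent.M3.S3B
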