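import Pool.Agent.M3.S3B.InstR
import Pool.Agent.M3.S3B.ParB

/-!
# M3.S3B.InstR2: `StRow`, `StRowT` with the numbers of `ParB` (helper84)
-/

set_option autoImplicit false
set_option linter.unusedSectionVars false

namespace Pool.Agent.M3.S3B

open Finset Pool.Agent.PWZ Pool.Agent.M3 Pool.Agent.M3.S3

noncomputable section

theorem rb_nn {al n : ℝ} {N : Nb} (hal0 : 0 < al) (hal : al ≤ 1) (hn : 0 < n) (h0 : 0 ≤ N.eps3) (hk0 : 0 ≤ N.kap1) :
    0 ≤ rb al n N := by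
  have hl : 0 ≤ Real.log (1 / al) := Real.log_nonneg (by rw [le_div_iff₀ hal0, one_mul]; exact hal)
  unfold rb CL.cb
  positivity

theorem rb_le {Lam n : ℝ} (h : PA.Big Lam n) : 2 * rb (PA.al Lam) n (nbB (PA.al Lam) n) ≤ PB.e0 Lam n := by
  have h1 := PB.row_le h
  have h2 : Real.log (1 / PA.al Lam) = Lam := by
    unfold PA.al
    rw [one_div, ← Real.exp_neg, neg_neg, Real.log_exp]
  unfold rb
  rw [h2]
  exact h1

section

variable {X β γ ι φ : Type} [Fintype X] [Fintype β] [Fintype γ] [Fintype φ] {D : Dat X β γ ι φ}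
  {dg : ℕ → X → ℝ} {prf prg : ℕ → φ → φ} {K : ℕ} {Lam n : ℝ}

/-- MODULE `StRow` with the numbers -/
theorem stRow_PB (h : PA.Big Lam n) (T : D.Thick (PA.al Lam)) :
    StRow (rB D dg (PA.al Lam) n K) (updOf D) (nbB (PA.al Lam) n) K (PB.e0 Lam n) := by
  have h1 := rb_nn (N := nbB (PA.al Lam) n) T.pos (PB.al_le1 h) h.n_pos (PB.eps3_pos h).le (PB.kap1_pos h).le
  refine stRow T h.n_pos (PB.al_le1 h) (PB.eps3_pos h).le (by linarith [PB.eps3_small h]) (PB.kap1_pos h).le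
    (PB.kap1_le h) ?_
  linarith [rb_le h]

/-- MODULE `StRowT` with the numbers -/
theorem stRowT_PB (h : PA.Big Lam n) (T : D.Thick (PA.al Lam)) (H : Hyp3 D dg prf prg (PA.al Lam) K Lam) :
    StRowT (rB D dg (PA.al Lam) n K) (updOf D) (nbB (PA.al Lam) n) K (PB.e0 Lam n) :=
  stRowT T h.n_pos (PB.al_le1 h) (PB.eps3_pos h).le (by linarith [PB.eps3_small h]) (PB.kap1_pos h).le
    (PB.kap1_le h) (fun _ ht c => hyp3_C2 H ht c) (rb_le h)

end

end

end Pool.Agent.M3.S3B
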