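import Mathlib

/-!
# M3.S3B.Med: iterated conditional medians of a stopping time (note 3448 (6)(A)) (helper65)

A finite set `γ` with nested cells `q t : γ → ι`, a time `T0` and a stopping time `T : γ → ℕ` from `T0` on (`T c ≤ t` is a property
of the cell at `t`, `t ≥ T0`; put `T c ≤ T0` for the points which do not belong to the epoch).
* `mdn q T0 T t c` = the last median time `≤ t`: `T0`, and then the first time at which more than half of the cell at the last
  median time has `T ≤ t`;
* `mdn_congr` : it is a function of the cell at `t`; `mdn_cell` : the event `last median time = r` at `t ≥ r` is a function of the cell at `r`;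
  `mdn_ext` : it depends on `T` only through the events `T ≤ r`, `r ≤ t`;
* `med_count` : `∑ c, #{t : T0 ≤ t < K, t median, t < T c} ≤ 2 #{c : T0 < T c}`;
* `med_bound` : if `∑_{cell t c} Ψ 1(s ≤ T) ≤ R t c #cell` at the running times `t < s`, then
  `∑ Ψ 1(s ≤ T) ≤ 2 lam #{s ≤ T} + M ∑_c #{t < s median, t < T c, lam < R t c}`; `med_bound_w`: the same with a weight and an `s`
  which depend on the cell at `T0`.
-/

set_option autoImplicit false
set_option linter.unusedSectionVars false

namespace Pool.Agent.M3.S3B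

open Finset

noncomputable section

variable {γ ι : Type*} [Fintype γ]

open Classical in
/-- the cell of `c` at the time `t` -/
def cel (q : ℕ → γ → ι) (t : ℕ) (c : γ) : Finset γ := univ.filter fun c' => q t c' = q t c

theorem mem_cel {q : ℕ → γ → ι} {t : ℕ} {c c' : γ} : c' ∈ cel q t c ↔ q t c' = q t c := by
  classical
  simp [cel]

theorem self_cel (q : ℕ → γ → ι) (t : ℕ) (c : γ) : c ∈ cel q t c := mem_cel.2 rfl

theorem cel_congr {q : ℕ → γ → ι} {t : ℕ} {c c' : γ} (h : q t c = q t c') : cel q t c = cel q t c' := by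
  ext y
  rw [mem_cel, mem_cel, h]

theorem cel_mono {q : ℕ → γ → ι} (hq : ∀ t c c', q (t + 1) c = q (t + 1) c' → q t c = q t c') {s t : ℕ} (h : s ≤ t)
    {c c' : γ} (hc : q t c = q t c') : q s c = q s c' := by
  induction t, h using Nat.le_induction with
  | base => exact hc
  | succ n _ ih => exact ih (hq n c c' hc)

open Classical in
/-- more than half of the cell of `c` at the time `r` has `T ≤ t` -/
def half (q : ℕ → γ → ι) (T : γ → ℕ) (r t : ℕ) (c : γ) : Prop :=
  (cel q r c).card < 2 * ((cel q r c).filter fun c' => T c' ≤ t).card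

theorem half_congr {q : ℕ → γ → ι} {T : γ → ℕ} {r t : ℕ} {c c' : γ} (h : q r c = q r c') :
    half q T r t c ↔ half q T r t c' := by
  unfold half
  rw [cel_congr h]

open Classical in
/-- the last median time `≤ t` -/
def mdn (q : ℕ → γ → ι) (T0 : ℕ) (T : γ → ℕ) : ℕ → γ → ℕ
  | 0, _ => T0
  | t + 1, c => if T0 ≤ t ∧ half q T (mdn q T0 T t c) (t + 1) c then t + 1 else mdn q T0 T t c

theorem mdn_succ (q : ℕ → γ → ι) (T0 : ℕ) (T : γ → ℕ) (t : ℕ) (c : γ) :
    mdn q T0 T (t + 1) c = t + 1 ∨ mdn q T0 T (t + 1) c = mdn q T0 T t c := by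
  rw [mdn]
  split_ifs with h
  · exact Or.inl rfl
  · exact Or.inr rfl

theorem mdn_le_T0 (q : ℕ → γ → ι) (T0 : ℕ) (T : γ → ℕ) {t : ℕ} (ht : t ≤ T0) (c : γ) : mdn q T0 T t c = T0 := by
  induction t with
  | zero => rfl
  | succ t ih =>
    rw [mdn, if_neg (by omega)]
    exact ih (by omega)

theorem mdn_ge (q : ℕ → γ → ι) (T0 : ℕ) (T : γ → ℕ) (t : ℕ) (c : γ) : T0 ≤ mdn q T0 T t c := by
  induction t with
  | zero => exact le_rfl
  | succ t ih =>
    rw [mdn]
    split_ifs with h
    · omega
    · exact ih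

theorem mdn_le (q : ℕ → γ → ι) (T0 : ℕ) (T : γ → ℕ) {t : ℕ} (ht : T0 ≤ t) (c : γ) : mdn q T0 T t c ≤ t := by
  induction t, ht using Nat.le_induction with
  | base => rw [mdn_le_T0 q T0 T le_rfl c]
  | succ n _ ih =>
    rcases mdn_succ q T0 T n c with h | h <;> omega

theorem mdn_mono (q : ℕ → γ → ι) (T0 : ℕ) (T : γ → ℕ) {s t : ℕ} (hs : T0 ≤ s) (h : s ≤ t) (c : γ) :
    mdn q T0 T s c ≤ mdn q T0 T t c := by
  induction t, h using Nat.le_induction with
  | base => exact le_rfl
  | succ n hn ih =>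
    rcases mdn_succ q T0 T n c with h1 | h1
    · rw [h1]
      exact ih.trans ((mdn_le q T0 T (hs.trans hn) c).trans (Nat.le_succ n))
    · rw [h1]
      exact ih

/-- the last median time is a median time -/
theorem mdn_idem (q : ℕ → γ → ι) (T0 : ℕ) (T : γ → ℕ) (t : ℕ) (c : γ) :
    mdn q T0 T (mdn q T0 T t c) c = mdn q T0 T t c := by
  induction t with
  | zero => exact mdn_le_T0 q T0 T le_rfl c
  | succ t ih =>
    rcases mdn_succ q T0 T t c with h | h
    · rw [h, h]
    · rw [h, ih]

/-- it is constant between the median times -/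
theorem mdn_const (q : ℕ → γ → ι) (T0 : ℕ) (T : γ → ℕ) {s t : ℕ} {c : γ} (hs : mdn q T0 T t c ≤ s) (h : s ≤ t) :
    mdn q T0 T s c = mdn q T0 T t c := by
  have h0 := mdn_ge q T0 T t c
  refine le_antisymm (mdn_mono q T0 T (h0.trans hs) h c) ?_
  have h1 := mdn_mono q T0 T h0 hs c
  rwa [mdn_idem] at h1

theorem mdn_congr {q : ℕ → γ → ι} (hq : ∀ t c c', q (t + 1) c = q (t + 1) c' → q t c = q t c') (T0 : ℕ) (T : γ → ℕ)
    {t : ℕ} {c c' : γ} (h : q t c = q t c') : mdn q T0 T t c = mdn q T0 T t c' := by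
  classical
  induction t with
  | zero => rfl
  | succ t ih =>
    have h1 := ih (hq t c c' h)
    rw [mdn, mdn, h1]
    by_cases ht : T0 ≤ t
    · have h2 : q (mdn q T0 T t c') c = q (mdn q T0 T t c') c' :=
        cel_mono hq ((mdn_le q T0 T ht c').trans (Nat.le_succ t)) h
      exact if_congr (and_congr Iff.rfl (half_congr h2)) rfl rfl
    · rw [if_neg (fun hh => ht hh.1), if_neg (fun hh => ht hh.1)]

/-- the event `last median time = r` is a function of the cell at `r` -/
theorem mdn_cell {q : ℕ → γ → ι} (hq : ∀ t c c', q (t + 1) c = q (t + 1) c' → q t c = q t c') (T0 : ℕ) (T : γ → ℕ)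
    {t : ℕ} (ht : T0 ≤ t) {c c' : γ} (h : q (mdn q T0 T t c) c' = q (mdn q T0 T t c) c) :
    mdn q T0 T t c' = mdn q T0 T t c := by
  -- on the way from `r` to `t`
  have key : ∀ u, mdn q T0 T t c ≤ u → u ≤ t → mdn q T0 T u c' = mdn q T0 T t c := by
    intro u hu
    induction u, hu using Nat.le_induction with
    | base =>
      intro _
      rw [mdn_congr hq T0 T h, mdn_idem]
    | succ n hn ih =>
      intro hnt
      have h1 := ih (by omega)
      have h2 : mdn q T0 T n c = mdn q T0 T t c := mdn_const q T0 T hn (by omega)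
      have h3 : mdn q T0 T (n + 1) c = mdn q T0 T t c := mdn_const q T0 T (by omega) hnt
      have h0 := mdn_ge q T0 T t c
      have h4 : ¬ half q T (mdn q T0 T t c) (n + 1) c := by
        intro hh
        rw [mdn, h2, if_pos ⟨by omega, hh⟩] at h3
        omega
      rw [mdn, h1, if_neg]
      rintro ⟨-, hh⟩
      exact h4 ((half_congr h).1 hh)
  exact key t (mdn_le q T0 T ht c) le_rfl

/-- it depends on `T` only through the events `T ≤ r`, `r ≤ t`, in the cell at the time `T0` -/
theorem mdn_ext {q : ℕ → γ → ι} (hq : ∀ t c c', q (t + 1) c = q (t + 1) c' → q t c = q t c') (T0 : ℕ) {T T' : γ → ℕ}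
    {t : ℕ} {c : γ} (h : ∀ r ≤ t, ∀ c', q T0 c' = q T0 c → (T c' ≤ r ↔ T' c' ≤ r)) :
    mdn q T0 T t c = mdn q T0 T' t c := by
  classical
  induction t with
  | zero => rfl
  | succ t ih =>
    have h1 := ih fun r hr c' hc => h r (by omega) c' hc
    rw [mdn, mdn, h1]
    have h2 : half q T (mdn q T0 T' t c) (t + 1) c ↔ half q T' (mdn q T0 T' t c) (t + 1) c := by
      unfold half
      have h3 : ((cel q (mdn q T0 T' t c) c).filter fun c' => T c' ≤ t + 1) =
          (cel q (mdn q T0 T' t c) c).filter fun c' => T' c' ≤ t + 1 := by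
        refine filter_congr fun c' hc' => ?_
        exact h (t + 1) le_rfl c' (cel_mono hq (mdn_ge q T0 T' t c) (mem_cel.1 hc'))
      rw [h3]
    simp only [h2]

open Classical in
/-- sums over the cells of a partition -/
theorem med_part (W : γ → Finset γ) (hs : ∀ c, c ∈ W c) (hp : ∀ c c', c' ∈ W c → W c' = W c) {f g : γ → ℝ}
    (h : ∀ c, ∑ c' ∈ W c, f c' ≤ ∑ c' ∈ W c, g c') : ∑ c, f c ≤ ∑ c, g c := by
  have h1 : ∀ w w', w' ∈ W w ↔ w ∈ W w' := fun w w' =>
    ⟨fun h => by rw [hp w w' h]; exact hs w, fun h => by rw [hp w' w h]; exact hs w'⟩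
  have key : ∀ f : γ → ℝ, ∑ c, (∑ c' ∈ W c, f c') / ((W c).card : ℝ) = ∑ c, f c := by
    intro f
    calc ∑ c, (∑ c' ∈ W c, f c') / ((W c).card : ℝ)
        = ∑ c, ∑ c', (if c' ∈ W c then f c' / ((W c).card : ℝ) else 0) := by
          refine sum_congr rfl fun c _ => ?_
          rw [sum_div, ← sum_filter]
          congr 1
          ext c'
          simp
      _ = ∑ c', ∑ c, (if c ∈ W c' then f c' / ((W c').card : ℝ) else 0) := by
          rw [sum_comm]
          refine sum_congr rfl fun c' _ => sum_congr rfl fun c _ => ?_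
          by_cases hc : c' ∈ W c
          · rw [if_pos hc, if_pos ((h1 _ _).1 hc), hp c c' hc]
          · rw [if_neg hc, if_neg fun hh => hc ((h1 _ _).2 hh)]
      _ = ∑ c', f c' := by
          refine sum_congr rfl fun c' _ => ?_
          rw [sum_ite_mem, univ_inter, sum_const, nsmul_eq_mul]
          have : ((W c').card : ℝ) ≠ 0 := by
            have := card_pos.2 ⟨c', hs c'⟩
            positivity
          field_simp
  rw [← key f, ← key g]
  exact sum_le_sum fun c _ => div_le_div_of_nonneg_right (h c) (Nat.cast_nonneg _)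

/-- `T` is a stopping time from `T0` on -/
def Stp (q : ℕ → γ → ι) (T0 : ℕ) (T : γ → ℕ) : Prop :=
  ∀ t c c', T0 ≤ t → q t c = q t c' → T c ≤ t → T c' ≤ t

section

variable {q : ℕ → γ → ι} (hq : ∀ t c c', q (t + 1) c = q (t + 1) c' → q t c = q t c') {T0 : ℕ} {T : γ → ℕ}
  (hT : Stp q T0 T)

include hq hT

open Classical in
/-- one median time: the number of the running points is at most the number of those that stopped since the last one -/
theorem med_one {t : ℕ} (ht : T0 < t) :
    ∑ c, (if mdn q T0 T t c = t ∧ t < T c then (1 : ℝ) else 0) ≤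
      ∑ c, if mdn q T0 T t c = t ∧ mdn q T0 T (t - 1) c < T c ∧ T c ≤ t then (1 : ℝ) else 0 := by
  obtain ⟨u, rfl⟩ : ∃ u, t = u + 1 := ⟨t - 1, by omega⟩
  rw [Nat.add_sub_cancel]
  have hu : T0 ≤ u := by omega
  refine med_part (fun c => cel q (mdn q T0 T u c) c) (fun c => self_cel _ _ _) ?_ ?_
  · intro c c' hc'
    have h1 := mdn_cell hq T0 T hu (mem_cel.1 hc')
    rw [h1]
    exact cel_congr (mem_cel.1 hc')
  · intro c
    set r := mdn q T0 T u c with hr
    have hr0 : T0 ≤ r := mdn_ge q T0 T u c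
    have hru : r ≤ u := mdn_le q T0 T hu c
    have hrc : ∀ c' ∈ cel q r c, mdn q T0 T u c' = r := fun c' hc' => mdn_cell hq T0 T hu (mem_cel.1 hc')
    by_cases hm : half q T r (u + 1) c
    · -- a median time for all points of the cell
      by_cases hrun : ∃ c' ∈ cel q r c, u + 1 < T c'
      · obtain ⟨c1, hc1, hT1⟩ := hrun
        have hrT : ∀ c' ∈ cel q r c, r < T c' := by
          intro c' hc'
          by_contra hh
          have := hT r c' c1 hr0 ((mem_cel.1 hc').trans (mem_cel.1 hc1).symm) (not_lt.1 hh)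
          omega
        have hmed : ∀ c' ∈ cel q r c, mdn q T0 T (u + 1) c' = u + 1 := by
          intro c' hc'
          rw [mdn, hrc c' hc', if_pos ⟨hu, (half_congr (mem_cel.1 hc')).2 hm⟩]
        have e1 : ∑ c' ∈ cel q r c, (if mdn q T0 T (u + 1) c' = u + 1 ∧ u + 1 < T c' then (1 : ℝ) else 0) =
            (((cel q r c).filter fun c' => ¬ T c' ≤ u + 1).card : ℝ) := by
          rw [card_eq_sum_ones, Nat.cast_sum, sum_filter]
          refine sum_congr rfl fun c' hc' => ?_
          simp only [hmed c' hc', true_and, not_le, Nat.cast_one]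
        have e2 : ∑ c' ∈ cel q r c, (if mdn q T0 T (u + 1) c' = u + 1 ∧ mdn q T0 T u c' < T c' ∧ T c' ≤ u + 1 then
            (1 : ℝ) else 0) = (((cel q r c).filter fun c' => T c' ≤ u + 1).card : ℝ) := by
          rw [card_eq_sum_ones, Nat.cast_sum, sum_filter]
          refine sum_congr rfl fun c' hc' => ?_
          simp only [hmed c' hc', true_and, hrc c' hc', hrT c' hc', Nat.cast_one]
        rw [e1, e2]
        have h3 := card_filter_add_card_filter_not (s := cel q r c) (fun c' => T c' ≤ u + 1)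
        unfold half at hm
        exact_mod_cast (by omega)
      · push Not at hrun
        refine (le_of_eq (sum_eq_zero fun c' hc' => ?_)).trans (sum_nonneg fun c' _ => ?_)
        · rw [if_neg]
          rintro ⟨-, hh⟩
          exact absurd (hrun c' hc') (by omega)
        · split_ifs <;> norm_num
    · -- not a median time
      refine (le_of_eq (sum_eq_zero fun c' hc' => ?_)).trans (sum_nonneg fun c' _ => ?_)
      · rw [if_neg]
        rintro ⟨hh, -⟩
        rw [mdn, hrc c' hc', if_neg] at hh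
        · omega
        · rintro ⟨-, h4⟩
          exact hm ((half_congr (mem_cel.1 hc')).1 h4)
      · split_ifs <;> norm_num

open Classical in
/-- at most two running median times in the mean -/
theorem med_count (K : ℕ) :
    ∑ c, ∑ t ∈ Ico T0 K, (if mdn q T0 T t c = t ∧ t < T c then (1 : ℝ) else 0) ≤
      2 * ∑ c, if T0 < T c then (1 : ℝ) else 0 := by
  rcases Nat.lt_or_ge T0 K with hK | hK
  swap
  · rw [Ico_eq_empty (by omega)]
    simp only [sum_empty, sum_const_zero]
    have : (0 : ℝ) ≤ ∑ c, if T0 < T c then (1 : ℝ) else 0 := sum_nonneg fun c _ => by split_ifs <;> norm_num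
    linarith
  rw [sum_comm, ← sum_Ico_consecutive _ (Nat.le_succ T0) hK]
  have h1 : ∑ t ∈ Ico T0 (T0 + 1), ∑ c, (if mdn q T0 T t c = t ∧ t < T c then (1 : ℝ) else 0) ≤
      ∑ c, if T0 < T c then (1 : ℝ) else 0 := by
    rw [Nat.Ico_succ_singleton, sum_singleton]
    refine sum_le_sum fun c _ => ?_
    rw [mdn_le_T0 q T0 T le_rfl c]
    simp
  have h2 : ∑ t ∈ Ico (T0 + 1) K, ∑ c, (if mdn q T0 T t c = t ∧ t < T c then (1 : ℝ) else 0) ≤
      ∑ c, if T0 < T c then (1 : ℝ) else 0 := by
    refine (sum_le_sum fun t ht => med_one hq hT (show T0 < t from (mem_Ico.1 ht).1)).trans ?_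
    rw [sum_comm]
    refine sum_le_sum fun c _ => ?_
    by_cases hc : ∃ t ∈ Ico (T0 + 1) K, mdn q T0 T t c = t ∧ mdn q T0 T (t - 1) c < T c ∧ T c ≤ t
    · obtain ⟨t, ht, hm, ha, hb⟩ := hc
      have ht' := mem_Ico.1 ht
      rw [sum_eq_single_of_mem t ht]
      · rw [if_pos ⟨hm, ha, hb⟩, if_pos]
        exact lt_of_le_of_lt (mdn_ge q T0 T (t - 1) c) ha
      · intro s hs hst
        have hs' := mem_Ico.1 hs
        rw [if_neg]
        rintro ⟨hm', ha', hb'⟩
        rcases lt_or_gt_of_ne hst with h | h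
        · have h3 := mdn_mono q T0 T (s := s) (t := t - 1) (by omega) (by omega) c
          omega
        · have h3 := mdn_mono q T0 T (s := t) (t := s - 1) (by omega) (by omega) c
          omega
    · rw [sum_eq_zero fun t ht => if_neg fun hh => hc ⟨t, ht, hh⟩]
      split_ifs <;> norm_num
  linarith

open Classical in
/-- THE LEMMA of 3448 (6)(A), with a weight `w` and a time `s` which are functions of the cell at `T0`. -/
theorem med_bound_w {s : γ → ℕ} (hs : ∀ c, T0 < s c) (hsc : ∀ c c', q T0 c = q T0 c' → s c = s c')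
    {w : γ → ℝ} (hw : ∀ c, 0 ≤ w c) (hwc : ∀ c c', q T0 c = q T0 c' → w c = w c')
    {Psi : γ → ℝ} {M lam : ℝ} {R : ℕ → γ → ℝ} (hM : 0 ≤ M) (hlam : 0 ≤ lam) (hPM : ∀ c, Psi c ≤ M)
    (hR : ∀ t c, T0 ≤ t → t < s c → t < T c →
      ∑ c' ∈ cel q t c, (if s c ≤ T c' then Psi c' else 0) ≤ R t c * (cel q t c).card)
    (hRc : ∀ t c c', T0 ≤ t → q t c = q t c' → R t c = R t c') :
    ∑ c, w c * (if s c ≤ T c then Psi c else 0) ≤ 2 * lam * (∑ c, w c * if s c ≤ T c then (1 : ℝ) else 0) +
      M * ∑ c, w c * ∑ t ∈ Ico T0 (s c), if mdn q T0 T t c = t ∧ t < T c ∧ lam < R t c then (1 : ℝ) else 0 := by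
  have hu : ∀ c, T0 ≤ s c - 1 := fun c => by have := hs c; omega
  have main : ∑ c, w c * (if s c ≤ T c then Psi c else 0) ≤
      ∑ c, w c * (2 * lam * (if s c ≤ T c then (1 : ℝ) else 0) +
      M * (if mdn q T0 T (s c - 1) c < T c ∧ lam < R (mdn q T0 T (s c - 1) c) c then (1 : ℝ) else 0)) := by
    have hW : ∀ c, ∀ c' ∈ cel q (mdn q T0 T (s c - 1) c) c, q T0 c' = q T0 c := fun c c' hc' =>
      cel_mono hq (mdn_ge q T0 T (s c - 1) c) (mem_cel.1 hc')
    refine med_part (fun c => cel q (mdn q T0 T (s c - 1) c) c) (fun c => self_cel _ _ _) ?_ ?_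
    · intro c c' hc'
      have h0 : s c' = s c := hsc c' c (hW c c' hc')
      have h1 := mdn_cell hq T0 T (hu c) (mem_cel.1 hc')
      simp only [h0]
      rw [h1]
      exact cel_congr (mem_cel.1 hc')
    intro c
    have hWs : ∀ c' ∈ cel q (mdn q T0 T (s c - 1) c) c, s c' = s c := fun c' hc' => hsc c' c (hW c c' hc')
    have hWw : ∀ c' ∈ cel q (mdn q T0 T (s c - 1) c) c, w c' = w c := fun c' hc' => hwc c' c (hW c c' hc')
    obtain ⟨u, hsu⟩ : ∃ u, s c = u + 1 := ⟨s c - 1, by have := hs c; omega⟩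
    have hsu1 : s c - 1 = u := by omega
    have hRs := fun t => hR t c
    rw [hsu] at hRs
    rw [hsu1] at hWs hWw ⊢
    have hu0 : T0 ≤ u := by have := hs c; omega
    set r := mdn q T0 T u c with hr
    have hr0 : T0 ≤ r := mdn_ge q T0 T u c
    have hru : r ≤ u := mdn_le q T0 T hu0 c
    have hrc : ∀ c' ∈ cel q r c, mdn q T0 T u c' = r := fun c' hc' => mdn_cell hq T0 T hu0 (mem_cel.1 hc')
    have e0 : ∑ c' ∈ cel q r c, w c' * (if s c' ≤ T c' then Psi c' else 0) =
        w c * ∑ c' ∈ cel q r c, (if u + 1 ≤ T c' then Psi c' else 0) := by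
      rw [mul_sum]
      refine sum_congr rfl fun c' hc' => ?_
      rw [hWs c' hc', hWw c' hc', hsu]
    have e9 : ∑ c' ∈ cel q r c, w c' * (2 * lam * (if s c' ≤ T c' then (1 : ℝ) else 0) +
        M * (if mdn q T0 T (s c' - 1) c' < T c' ∧ lam < R (mdn q T0 T (s c' - 1) c') c' then (1 : ℝ) else 0)) =
        w c * ∑ c' ∈ cel q r c, (2 * lam * (if u + 1 ≤ T c' then (1 : ℝ) else 0) +
        M * (if mdn q T0 T u c' < T c' ∧ lam < R (mdn q T0 T u c') c' then (1 : ℝ) else 0)) := by
      rw [mul_sum]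
      refine sum_congr rfl fun c' hc' => ?_
      rw [hWs c' hc', hWw c' hc', hsu, Nat.add_sub_cancel]
    rw [e0, e9]
    refine mul_le_mul_of_nonneg_left ?_ (hw c)
    by_cases hrun : r < T c
    swap
    · have h1 : ∀ c' ∈ cel q r c, ¬ u + 1 ≤ T c' := by
        intro c' hc' hh
        have := hT r c c' hr0 (mem_cel.1 hc').symm (not_lt.1 hrun)
        omega
      rw [sum_eq_zero fun c' hc' => if_neg (h1 c' hc')]
      refine sum_nonneg fun c' _ => ?_
      have h2 : (0 : ℝ) ≤ if u + 1 ≤ T c' then (1 : ℝ) else 0 := by split_ifs <;> norm_num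
      have h3 : (0 : ℝ) ≤ if mdn q T0 T u c' < T c' ∧ lam < R (mdn q T0 T u c') c' then (1 : ℝ) else 0 := by
        split_ifs <;> norm_num
      positivity
    have hrT : ∀ c' ∈ cel q r c, r < T c' := by
      intro c' hc'
      by_contra hh
      have := hT r c' c hr0 (mem_cel.1 hc') (not_lt.1 hh)
      omega
    have hRr : ∀ c' ∈ cel q r c, R r c' = R r c := fun c' hc' => hRc r c' c hr0 (mem_cel.1 hc')
    rw [sum_add_distrib, ← mul_sum, ← mul_sum]
    by_cases hbad : lam < R r c
    · have e1 : ∑ c' ∈ cel q r c, (if mdn q T0 T u c' < T c' ∧ lam < R (mdn q T0 T u c') c' then (1 : ℝ) else 0) =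
          ((cel q r c).card : ℝ) := by
        rw [card_eq_sum_ones, Nat.cast_sum]
        refine sum_congr rfl fun c' hc' => ?_
        rw [hrc c' hc', hRr c' hc', if_pos ⟨hrT c' hc', hbad⟩, Nat.cast_one]
      rw [e1]
      have h1 : ∑ c' ∈ cel q r c, (if u + 1 ≤ T c' then Psi c' else 0) ≤ M * ((cel q r c).card : ℝ) := by
        rw [mul_comm, ← nsmul_eq_mul]
        refine sum_le_card_nsmul _ _ _ fun c' _ => ?_
        split_ifs
        · exact hPM c'
        · exact hM
      have h2 : (0 : ℝ) ≤ ∑ c' ∈ cel q r c, if u + 1 ≤ T c' then (1 : ℝ) else 0 :=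
        sum_nonneg fun c' _ => by split_ifs <;> norm_num
      have := mul_nonneg (mul_nonneg (by norm_num : (0 : ℝ) ≤ 2) hlam) h2
      linarith
    · have h1 := hRs r hr0 (by omega) hrun
      have h2 : (0 : ℝ) ≤ ∑ c' ∈ cel q r c,
          (if mdn q T0 T u c' < T c' ∧ lam < R (mdn q T0 T u c') c' then (1 : ℝ) else 0) :=
        sum_nonneg fun c' _ => by split_ifs <;> norm_num
      -- at least half of the cell survives
      have h3 : ((cel q r c).card : ℝ) ≤ 2 * ∑ c' ∈ cel q r c, (if u + 1 ≤ T c' then (1 : ℝ) else 0) := by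
        have e2 : ∑ c' ∈ cel q r c, (if u + 1 ≤ T c' then (1 : ℝ) else 0) =
            (((cel q r c).filter fun c' => ¬ T c' ≤ u).card : ℝ) := by
          rw [card_eq_sum_ones, Nat.cast_sum, sum_filter]
          refine sum_congr rfl fun c' _ => ?_
          simp only [not_le, Nat.cast_one, Nat.succ_le_iff]
        rw [e2]
        have h4 := card_filter_add_card_filter_not (s := cel q r c) (fun c' => T c' ≤ u)
        have h5 : 2 * ((cel q r c).filter fun c' => T c' ≤ u).card ≤ (cel q r c).card := by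
          rcases hru.eq_or_lt with h6 | h6
          · -- nobody has stopped
            have h7 : ((cel q r c).filter fun c' => T c' ≤ u) = ∅ := by
              refine filter_eq_empty_iff.2 fun c' hc' => ?_
              have := hrT c' hc'
              omega
            rw [h7]
            simp
          · -- `u` is not a median time
            obtain ⟨v, rfl⟩ : ∃ v, u = v + 1 := ⟨u - 1, by omega⟩
            have h7 : mdn q T0 T v c = r := by
              rw [hr]
              exact mdn_const q T0 T (by omega) (Nat.le_succ v)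
            by_contra hh
            have h8 : mdn q T0 T (v + 1) c = v + 1 := by
              rw [mdn, h7, if_pos]
              exact ⟨by omega, by unfold half; omega⟩
            omega
        exact_mod_cast (by omega)
      have h4 : R r c * ((cel q r c).card : ℝ) ≤ lam * ((cel q r c).card : ℝ) :=
        mul_le_mul_of_nonneg_right (not_lt.1 hbad) (Nat.cast_nonneg _)
      have h5 := mul_le_mul_of_nonneg_left h3 hlam
      have h6 := mul_nonneg hM h2
      linarith
  refine main.trans ?_
  rw [mul_sum, mul_sum, ← sum_add_distrib]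
  refine sum_le_sum fun c _ => ?_
  have hmem : mdn q T0 T (s c - 1) c ∈ Ico T0 (s c) := by
    have := mdn_le q T0 T (hu c) c
    have := hs c
    exact mem_Ico.2 ⟨mdn_ge q T0 T (s c - 1) c, by omega⟩
  have h1 := single_le_sum (f := fun t => if mdn q T0 T t c = t ∧ t < T c ∧ lam < R t c then (1 : ℝ) else 0)
    (fun t _ => by split_ifs <;> norm_num) hmem
  rw [mdn_idem] at h1
  simp only [true_and] at h1
  have h2 := mul_le_mul_of_nonneg_left (mul_le_mul_of_nonneg_left h1 (hw c)) hM
  linarith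

open Classical in
/-- THE LEMMA of 3448 (6)(A). -/
theorem med_bound {s : ℕ} (hs : T0 < s) {Psi : γ → ℝ} {M lam : ℝ} {R : ℕ → γ → ℝ} (hM : 0 ≤ M) (hlam : 0 ≤ lam)
    (hPM : ∀ c, Psi c ≤ M)
    (hR : ∀ t c, T0 ≤ t → t < s → t < T c →
      ∑ c' ∈ cel q t c, (if s ≤ T c' then Psi c' else 0) ≤ R t c * (cel q t c).card)
    (hRc : ∀ t c c', T0 ≤ t → q t c = q t c' → R t c = R t c') :
    ∑ c, (if s ≤ T c then Psi c else 0) ≤ 2 * lam * (∑ c, if s ≤ T c then (1 : ℝ) else 0) +
      M * ∑ c, ∑ t ∈ Ico T0 s, if mdn q T0 T t c = t ∧ t < T c ∧ lam < R t c then (1 : ℝ) else 0 := by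
  have h := med_bound_w hq hT (s := fun _ => s) (fun _ => hs) (fun _ _ _ => rfl) (w := fun _ => 1)
    (fun _ => zero_le_one) (fun _ _ _ => rfl) hM hlam hPM hR hRc
  simpa only [one_mul] using h

end

end

end Pool.Agent.M3.S3B
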