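import Pool.Agent.M3.S3B.Run
import Pool.Agent.M3.S3B.Med

/-!
# M3.S3B.LossA: the loss at the end of an epoch, part (A) of (6) in note 3448 (helper65)

A start time `σ`, a horizon `K`, `σ ≤ K`.
* `Sta σ x b c` : an epoch starts at `σ`; `ee σ x b c = R.ep σ x b c` its epoch;
* `Tm K σ x b c` : the end of this epoch (first time with `ST`), `K + 1` if there is none `≤ K`, `σ` if no epoch starts at `σ`;
* `strF B σ t x b c F` : `F` is strong at `t`: `P_(v_t)(F) > B P_0(F)`, `strG` the same for the second label;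
* `sgF`, `sgG` first strong times (`K + 2` if none `≤ K`);
* `row un ps B σ t x b c F` : mean over `c'` in the cell of `c` at `t` of
  `∑_G P(G | x) 1(unchanged at t) 1(G not strong at t) ps`;
* `lossA` : if `#{y ∈ v' : lam < row y} ≤ eL #v'` for the cells `v'` of the virtual `g`-partition at all running times and pairs that are
  good at the end of the epoch are unchanged before, then
  `E3 ∑_F ∑_G kf kg 1(Tm ≤ K, good, sgF ≤ Tm, sgF ≤ sgG) ps ≤ 2 lam E3 ∑_F kf 1(sgF ≤ Tm) + 2 M (eL/al) E3 1(start)`.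
-/

set_option autoImplicit false
set_option linter.unusedSectionVars false

namespace Pool.Agent.M3.S3B

open Finset Pool.Agent.PWZ Pool.Agent.M3 Pool.Agent.M3.S3

noncomputable section

variable {X β γ ι φ : Type*} [Fintype X] {D : Dat X β γ ι φ}

section times

variable (R : Rt D)

/-- an epoch starts at `σ` -/
def Sta (σ : ℕ) (x : X) (b : β) (c : γ) : Prop := (R.ep σ x b c).t0 = σ

open Classical in
/-- the end of the epoch which starts at `σ` -/
def Tm (K σ : ℕ) (x : X) (b : β) (c : γ) : ℕ :=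
  if Sta R σ x b c then (if h : ∃ t, t ≤ K ∧ R.ST (R.ep σ x b c) t x b c then Nat.find h else K + 1) else σ

variable {R}

theorem Tm_not {K σ : ℕ} {x : X} {b : β} {c : γ} (h : ¬ Sta R σ x b c) : Tm R K σ x b c = σ := by
  unfold Tm
  rw [if_neg h]

theorem Tm_le_iff {K σ t : ℕ} (hσ : σ ≤ t) (ht : t ≤ K) (x : X) (b : β) (c : γ) :
    Tm R K σ x b c ≤ t ↔ (Sta R σ x b c → R.ST (R.ep σ x b c) t x b c) := by
  classical
  unfold Tm
  by_cases hS : Sta R σ x b c
  · rw [if_pos hS]
    split_ifs with h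
    · constructor
      · intro h1 _
        exact R.ST_mono h1 (Nat.find_spec h).2
      · intro h1
        exact Nat.find_min' h ⟨ht, h1 hS⟩
    · constructor
      · intro h1
        omega
      · intro h1
        exact absurd ⟨t, ht, h1 hS⟩ h
  · rw [if_neg hS]
    exact ⟨fun _ h => absurd h hS, fun _ => hσ⟩

theorem Tm_le {K σ : ℕ} (hK : σ ≤ K) (x : X) (b : β) (c : γ) : Tm R K σ x b c ≤ K + 1 := by
  classical
  unfold Tm
  split_ifs with h1 h2
  · exact (Nat.find_spec h2).1.trans (Nat.le_succ K)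
  · exact le_rfl
  · omega

theorem Tm_gt {K σ : ℕ} (hK : σ ≤ K) {x : X} {b : β} {c : γ} (hS : Sta R σ x b c) : σ < Tm R K σ x b c := by
  by_contra h
  have h1 := (Tm_le_iff le_rfl hK x b c).1 (not_lt.1 h) hS
  unfold Sta at hS
  obtain ⟨r, h2, h3, -⟩ := h1
  omega

theorem Tm_ge {K σ : ℕ} (hK : σ ≤ K) (x : X) (b : β) (c : γ) : σ ≤ Tm R K σ x b c := by
  by_cases hS : Sta R σ x b c
  · exact (Tm_gt hK hS).le
  · rw [Tm_not hS]

theorem Sta_of_lt {K σ t : ℕ} (hσ : σ ≤ t) {x : X} {b : β} {c : γ} (h : t < Tm R K σ x b c) : Sta R σ x b c := by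
  by_contra hS
  rw [Tm_not hS] at h
  omega

/-- same node at `t ≥ σ` and `x'` in the class of the epoch at `σ` : the same epoch at `σ` -/
theorem ep_same {σ t : ℕ} (hσ : σ ≤ t) {x x' : X} {b b' : β} {c c' : γ} (hS : D.Same t x b c x' b' c')
    (hx : x' ∈ (R.ep σ x b c).om0) : R.ep σ x' b' c' = R.ep σ x b c :=
  (R.pub σ (hS.le hσ) (mem_W.2 ⟨hx, (hS.le hσ).1.symm⟩)).1

theorem Sta_same {σ t : ℕ} (hσ : σ ≤ t) {x x' : X} {b b' : β} {c c' : γ} (hS : D.Same t x b c x' b' c')
    (hx : x' ∈ (R.ep σ x b c).om0) : Sta R σ x' b' c' ↔ Sta R σ x b c := by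
  unfold Sta
  rw [ep_same hσ hS hx]

theorem Tm_same {K σ t : ℕ} (hK : σ ≤ K) (hσ : σ ≤ t) {x x' : X} {b b' : β} {c c' : γ} (hS : D.Same t x b c x' b' c')
    (hx : x' ∈ (R.ep σ x b c).om0) : Tm R K σ x' b' c' ≤ t ↔ Tm R K σ x b c ≤ t := by
  rcases Nat.lt_or_ge K t with ht | ht
  · have h1 := Tm_le (R := R) hK x' b' c'
    have h2 := Tm_le (R := R) hK x b c
    exact ⟨fun _ => by omega, fun _ => by omega⟩
  · rw [Tm_le_iff hσ ht, Tm_le_iff hσ ht, Sta_same hσ hS hx, ep_same hσ hS hx, R.ST_inv hS]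

/-- `Tm` is a stopping time of the cells of `c` -/
theorem Tm_stp {K σ : ℕ} (hK : σ ≤ K) (x : X) (b : β) : Stp D.qc σ (Tm R K σ x b) := by
  intro t c c' hσ hc h
  exact (Tm_same hK hσ ⟨rfl, rfl, hc⟩ (R.self_om0 σ x b c)).2 h

end times

section strong

variable (R : Rt D) (B : ℝ)

/-- `F` is strong at `t` -/
def strF (σ t : ℕ) (x : X) (b : β) (c : γ) (F : φ) : Prop :=
  B * law (R.ep σ x b c).om0 (fun y => D.kf σ y b c) F < law (VF R.toRm (R.ep σ x b c) t x b c) (fun y => D.kf σ y b c) F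

/-- `G` is strong at `t` -/
def strG (σ t : ℕ) (x : X) (b : β) (c : γ) (G : φ) : Prop :=
  B * law (R.ep σ x b c).om0 (fun y => D.kg σ y b c) G < law (VG R.toRm (R.ep σ x b c) t x b c) (fun y => D.kg σ y b c) G

open Classical in
/-- first strong time of `F`, `K + 2` if there is none `≤ K` -/
def sgF (K σ : ℕ) (x : X) (b : β) (c : γ) (F : φ) : ℕ :=
  if h : ∃ t, (σ < t ∧ t ≤ K) ∧ strF R B σ t x b c F then Nat.find h else K + 2

open Classical in
/-- first strong time of `G`, `K + 2` if there is none `≤ K` -/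
def sgG (K σ : ℕ) (x : X) (b : β) (c : γ) (G : φ) : ℕ :=
  if h : ∃ t, (σ < t ∧ t ≤ K) ∧ strG R B σ t x b c G then Nat.find h else K + 2

variable {R B}

theorem sgF_gt {K σ : ℕ} (hK : σ ≤ K) (x : X) (b : β) (c : γ) (F : φ) : σ < sgF R B K σ x b c F := by
  classical
  unfold sgF
  split_ifs with h
  · exact (Nat.find_spec h).1.1
  · omega

theorem sgF_spec {K σ : ℕ} {x : X} {b : β} {c : γ} {F : φ} (h : sgF R B K σ x b c F ≤ K + 1) :
    σ < sgF R B K σ x b c F ∧ sgF R B K σ x b c F ≤ K ∧ strF R B σ (sgF R B K σ x b c F) x b c F := by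
  classical
  unfold sgF at h ⊢
  split_ifs at h ⊢ with h1
  · exact ⟨(Nat.find_spec h1).1.1, (Nat.find_spec h1).1.2, (Nat.find_spec h1).2⟩
  · omega

theorem sgF_le_of {K σ t : ℕ} {x : X} {b : β} {c : γ} {F : φ} (h0 : σ < t) (h1 : t ≤ K) (h : strF R B σ t x b c F) :
    sgF R B K σ x b c F ≤ t := by
  classical
  unfold sgF
  have h2 : ∃ t, (σ < t ∧ t ≤ K) ∧ strF R B σ t x b c F := ⟨t, ⟨h0, h1⟩, h⟩
  rw [dif_pos h2]
  exact Nat.find_min' h2 ⟨⟨h0, h1⟩, h⟩

theorem not_strG {K σ t : ℕ} {x : X} {b : β} {c : γ} {G : φ} (h0 : σ < t) (h1 : t ≤ K)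
    (h : t < sgG R B K σ x b c G) : ¬ strG R B σ t x b c G := by
  classical
  intro h3
  unfold sgG at h
  have h2 : ∃ t, (σ < t ∧ t ≤ K) ∧ strG R B σ t x b c G := ⟨t, ⟨h0, h1⟩, h3⟩
  rw [dif_pos h2] at h
  exact absurd (Nat.find_min' h2 ⟨⟨h0, h1⟩, h3⟩) (not_le.2 h)

/-- the strong letters of the first label depend on `c` through the cell at `σ` only -/
theorem strF_c {σ t : ℕ} (hσ : σ ≤ t) {x : X} {b : β} {c c' : γ} (hc : D.qc σ c = D.qc σ c') (F : φ)
    (hS : Sta R σ x b c) : strF R B σ t x b c' F ↔ strF R B σ t x b c F := by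
  have h1 : R.ep σ x b c' = R.ep σ x b c := ep_same le_rfl ⟨rfl, rfl, hc⟩ (R.self_om0 σ x b c)
  have h3 : (R.ep σ x b c).t0 = σ := hS
  have h2 : VF R.toRm (R.ep σ x b c) t x b c' = VF R.toRm (R.ep σ x b c) t x b c := by
    refine VF_congr _ (by rw [h3]; exact hσ) (VF_self _ (R.self_om0 σ x b c) t b c) rfl ?_
    rw [h3]
    exact hc
  have h4 : (fun y => D.kf σ y b c') = fun y => D.kf σ y b c := by
    funext y
    exact D.kf_c σ y b c' c hc.symm
  unfold strF
  rw [h1, h2, h4]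

theorem sgF_c {K σ : ℕ} {x : X} {b : β} {c c' : γ} (hc : D.qc σ c = D.qc σ c') (F : φ)
    (hS : Sta R σ x b c) : sgF R B K σ x b c' F = sgF R B K σ x b c F := by
  classical
  have h1 : ∀ t, ((σ < t ∧ t ≤ K) ∧ strF R B σ t x b c' F) ↔ ((σ < t ∧ t ≤ K) ∧ strF R B σ t x b c F) := by
    intro t
    constructor
    · rintro ⟨h2, h3⟩
      exact ⟨h2, (strF_c h2.1.le hc F hS).1 h3⟩
    · rintro ⟨h2, h3⟩
      exact ⟨h2, (strF_c h2.1.le hc F hS).2 h3⟩
  unfold sgF
  simp only [h1]

end strong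

section med

variable {R : Rt D} [Fintype γ]

theorem cel_eq (t : ℕ) (c : γ) : cel D.qc t c = D.cC t c := by
  ext y
  rw [mem_cel, D.mem_cC]

/-- the median times are node events -/
theorem mdn_same {K σ t : ℕ} (hK : σ ≤ K) {x x' : X} {b b' : β} {c c' : γ} (hS : D.Same t x b c x' b' c')
    (hx : x' ∈ (R.ep σ x b c).om0) :
    mdn D.qc σ (Tm R K σ x' b') t c' = mdn D.qc σ (Tm R K σ x b) t c := by
  rw [mdn_congr D.rc σ (Tm R K σ x' b') hS.2.2.symm]
  refine mdn_ext D.rc σ fun r hr c'' hc'' => ?_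
  rcases Nat.lt_or_ge r σ with h | h
  · have h1 := Tm_ge (R := R) hK x b c''
    have h2 := Tm_ge (R := R) hK x' b' c''
    exact ⟨fun _ => by omega, fun _ => by omega⟩
  · refine Tm_same hK h ⟨(hS.le hr).1, (hS.le hr).2.1, rfl⟩ ?_
    have h1 : R.ep σ x b c'' = R.ep σ x b c := ep_same le_rfl ⟨rfl, rfl, hc''.symm⟩ (R.self_om0 σ x b c)
    rw [h1]
    exact hx

variable [Fintype φ] (R)

open Classical in
/-- the row of `(x, b, F)` at `t` -/
def row (un : ℕ → X → β → γ → Prop) (ps : X → β → γ → φ → φ → ℝ) (B : ℝ) (σ t : ℕ) (x : X) (b : β) (c : γ) (F : φ) : ℝ :=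
  avg (D.cC t c) fun c' => ∑ G, if un t x b c' ∧ ¬ strG R B σ t x b c' G then D.kg σ x b c' G * ps x b c' F G else 0

variable {R}

theorem not_strG_start {al B : ℝ} (T : D.Thick al) (hB : 1 ≤ B) {σ : ℕ} {x : X} {b : β} {c : γ} (hS : Sta R σ x b c)
    (G : φ) : ¬ strG R B σ σ x b c G := by
  unfold strG
  have h1 : (R.ep σ x b c).t0 = σ := hS
  rw [VG_old R.toRm (by rw [h1]), not_lt]
  have h2 : 0 ≤ law (R.ep σ x b c).om0 (fun y => D.kg σ y b c) G := by
    unfold law avg
    exact div_nonneg (sum_nonneg fun y _ => T.g_nn _ _ _ _ _) (Nat.cast_nonneg _)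
  nlinarith

variable [Fintype β]

open Classical in
/-- the bad rows at the median times -/
theorem bad_part {al eL lam B : ℝ} (T : D.Thick al) (heL : 0 ≤ eL) {K σ : ℕ} (hK : σ ≤ K)
    (un : ℕ → X → β → γ → Prop) (ps : X → β → γ → φ → φ → ℝ)
    (hRare : ∀ t x b c F, σ ≤ t → t ≤ K → t < Tm R K σ x b c →
      (((VG R.toRm (R.ep σ x b c) t x b c).filter fun y => lam < row R un ps B σ t y b c F).card : ℝ) ≤
        eL * (VG R.toRm (R.ep σ x b c) t x b c).card) :
    ∑ x, ∑ b, ∑ c, ∑ t ∈ Ico σ (K + 1), ∑ F, D.kf σ x b c F *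
      (if mdn D.qc σ (Tm R K σ x b) t c = t ∧ t < Tm R K σ x b c ∧ lam < row R un ps B σ t x b c F then (1 : ℝ) else 0) ≤
      2 * (eL / al) * ∑ x : X, ∑ b : β, ∑ c : γ, if Sta R σ x b c then (1 : ℝ) else 0 := by
  have hal := T.pos
  have step : ∀ t ∈ Ico σ (K + 1), ∀ (b : β) (c : γ),
      ∑ x, ∑ F, D.kf σ x b c F *
        (if mdn D.qc σ (Tm R K σ x b) t c = t ∧ t < Tm R K σ x b c ∧ lam < row R un ps B σ t x b c F then (1 : ℝ) else 0) ≤
      ∑ x, eL / al * (if mdn D.qc σ (Tm R K σ x b) t c = t ∧ t < Tm R K σ x b c then (1 : ℝ) else 0) := by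
    intro t ht b c
    have ht' := mem_Ico.1 ht
    have hσt : σ ≤ t := ht'.1
    have htK : t ≤ K := by omega
    have hin : ∀ x, t < Tm R K σ x b c → ∀ x' ∈ VG R.toRm (R.ep σ x b c) t x b c,
        x' ∈ (R.ep σ x b c).om0 ∧ D.Same t x b c x' b c := by
      intro x hx x' hx'
      have hS : (R.ep σ x b c).t0 = σ := Sta_of_lt hσt hx
      have h1 := VG_W R.toRm (R.self_om0 σ x b c) (R.om0_sub σ x b c) t (by rw [hS]; exact hσt) b c hx'
      exact ⟨(mem_W.1 h1).1, (mem_W.1 h1).2.symm, rfl, rfl⟩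
    have hVG : ∀ x, t < Tm R K σ x b c → ∀ x' ∈ VG R.toRm (R.ep σ x b c) t x b c,
        VG R.toRm (R.ep σ x' b c) t x' b c = VG R.toRm (R.ep σ x b c) t x b c := by
      intro x hx x' hx'
      have hS : (R.ep σ x b c).t0 = σ := Sta_of_lt hσt hx
      obtain ⟨h1, h2⟩ := hin x hx x' hx'
      rw [ep_same hσt h2 h1]
      exact VG_congr R.toRm (by rw [hS]; exact hσt) hx' rfl rfl
    have hTm : ∀ x, t < Tm R K σ x b c → ∀ x' ∈ VG R.toRm (R.ep σ x b c) t x b c, t < Tm R K σ x' b c := by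
      intro x hx x' hx'
      obtain ⟨h1, h2⟩ := hin x hx x' hx'
      by_contra hh
      have := (Tm_same hK hσt h2 h1).1 (not_lt.1 hh)
      omega
    refine med_part (fun x => if t < Tm R K σ x b c then VG R.toRm (R.ep σ x b c) t x b c else {x}) ?_ ?_ ?_
    · intro x
      by_cases hx : t < Tm R K σ x b c
      · rw [if_pos hx]
        exact VG_self _ (R.self_om0 σ x b c) t b c
      · rw [if_neg hx]
        exact mem_singleton_self x
    · intro x x' hx'
      by_cases hx : t < Tm R K σ x b c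
      · simp only [if_pos hx] at hx' ⊢
        rw [if_pos (hTm x hx x' hx'), hVG x hx x' hx']
      · simp only [if_neg hx] at hx' ⊢
        rw [mem_singleton.1 hx', if_neg hx]
    · intro x
      by_cases hx : t < Tm R K σ x b c
      swap
      · simp only [if_neg hx, sum_singleton]
        have h1 : ∀ F, D.kf σ x b c F * (if mdn D.qc σ (Tm R K σ x b) t c = t ∧ t < Tm R K σ x b c ∧
            lam < row R un ps B σ t x b c F then (1 : ℝ) else 0) = 0 := by
          intro F
          rw [if_neg (fun h => hx h.2.1), mul_zero]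
        rw [sum_eq_zero fun F _ => h1 F]
        have h2 : 0 ≤ eL / al := div_nonneg heL hal.le
        refine mul_nonneg h2 ?_
        split_ifs <;> norm_num
      simp only [if_pos hx]
      set v := VG R.toRm (R.ep σ x b c) t x b c with hv
      have hm : ∀ x' ∈ v, mdn D.qc σ (Tm R K σ x' b) t c = mdn D.qc σ (Tm R K σ x b) t c := fun x' hx' =>
        mdn_same hK (hin x hx x' hx').2 (hin x hx x' hx').1
      by_cases hmt : mdn D.qc σ (Tm R K σ x b) t c = t
      swap
      · refine le_of_eq_of_le (sum_eq_zero fun x' hx' => sum_eq_zero fun F _ => ?_) (sum_nonneg fun x' _ => ?_)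
        · rw [if_neg (fun h => hmt ((hm x' hx').symm.trans h.1)), mul_zero]
        · refine mul_nonneg (div_nonneg heL hal.le) ?_
          split_ifs <;> norm_num
      have e1 : ∑ x' ∈ v, eL / al * (if mdn D.qc σ (Tm R K σ x' b) t c = t ∧ t < Tm R K σ x' b c then (1 : ℝ) else 0) =
          eL / al * v.card := by
        rw [← mul_sum]
        congr 1
        rw [card_eq_sum_ones, Nat.cast_sum]
        refine sum_congr rfl fun x' hx' => ?_
        rw [if_pos ⟨(hm x' hx').trans hmt, hTm x hx x' hx'⟩, Nat.cast_one]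
      rw [e1]
      have h1 : ∀ x' ∈ v, ∑ F, D.kf σ x' b c F * (if mdn D.qc σ (Tm R K σ x' b) t c = t ∧ t < Tm R K σ x' b c ∧
          lam < row R un ps B σ t x' b c F then (1 : ℝ) else 0) ≤
          ∑ F, al⁻¹ * D.kf σ x b c F * (if lam < row R un ps B σ t x' b c F then (1 : ℝ) else 0) := by
        intro x' hx'
        refine sum_le_sum fun F _ => ?_
        have h2 : D.kf σ x' b c F ≤ al⁻¹ * D.kf σ x b c F := by
          by_cases h3 : D.kf σ x' b c F = 0
          · rw [h3]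
            exact mul_nonneg (inv_nonneg.2 hal.le) (T.f_nn _ _ _ _ _)
          · have h4 := T.f_thick σ x' x b c F ((hin x hx x' hx').2.le hσt).1.symm h3
            have h5 : D.kf σ x' b c F ≤ 1 := by
              rw [← T.f_one σ x' b c]
              exact single_le_sum (f := fun F => D.kf σ x' b c F) (fun F _ => T.f_nn _ _ _ _ _) (mem_univ F)
            calc D.kf σ x' b c F ≤ 1 := h5
              _ = al⁻¹ * al := (inv_mul_cancel₀ hal.ne').symm
              _ ≤ al⁻¹ * D.kf σ x b c F := mul_le_mul_of_nonneg_left h4 (inv_nonneg.2 hal.le)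
        have h6 : 0 ≤ al⁻¹ * D.kf σ x b c F := mul_nonneg (inv_nonneg.2 hal.le) (T.f_nn _ _ _ _ _)
        by_cases h7 : lam < row R un ps B σ t x' b c F
        · rw [if_pos ⟨(hm x' hx').trans hmt, hTm x hx x' hx', h7⟩, if_pos h7, mul_one, mul_one]
          exact h2
        · rw [if_neg (fun h => h7 h.2.2), if_neg h7, mul_zero, mul_zero]
      refine (sum_le_sum h1).trans ?_
      rw [sum_comm]
      have h8 : ∀ F, ∑ x' ∈ v, al⁻¹ * D.kf σ x b c F * (if lam < row R un ps B σ t x' b c F then (1 : ℝ) else 0) ≤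
          al⁻¹ * D.kf σ x b c F * (eL * v.card) := by
        intro F
        rw [← mul_sum]
        refine mul_le_mul_of_nonneg_left ?_ (mul_nonneg (inv_nonneg.2 hal.le) (T.f_nn _ _ _ _ _))
        have h9 := hRare t x b c F hσt htK hx
        rw [card_eq_sum_ones, Nat.cast_sum, sum_filter] at h9
        simpa only [Nat.cast_one] using h9
      refine (sum_le_sum fun F _ => h8 F).trans (le_of_eq ?_)
      rw [← sum_mul, ← mul_sum, T.f_one σ x b c]
      field_simp
  -- exchange the sums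
  have e1 : ∑ x, ∑ b, ∑ c, ∑ t ∈ Ico σ (K + 1), ∑ F, D.kf σ x b c F *
      (if mdn D.qc σ (Tm R K σ x b) t c = t ∧ t < Tm R K σ x b c ∧ lam < row R un ps B σ t x b c F then (1 : ℝ) else 0) =
      ∑ b, ∑ c, ∑ t ∈ Ico σ (K + 1), ∑ x, ∑ F, D.kf σ x b c F *
      (if mdn D.qc σ (Tm R K σ x b) t c = t ∧ t < Tm R K σ x b c ∧ lam < row R un ps B σ t x b c F then (1 : ℝ) else 0) := by
    rw [sum_comm]
    refine sum_congr rfl fun b _ => ?_
    rw [sum_comm]
    refine sum_congr rfl fun c _ => ?_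
    rw [sum_comm]
  have e2 : ∑ b : β, ∑ c : γ, ∑ t ∈ Ico σ (K + 1), ∑ x : X, eL / al *
      (if mdn D.qc σ (Tm R K σ x b) t c = t ∧ t < Tm R K σ x b c then (1 : ℝ) else 0) =
      eL / al * ∑ x : X, ∑ b : β, ∑ c : γ, ∑ t ∈ Ico σ (K + 1),
      (if mdn D.qc σ (Tm R K σ x b) t c = t ∧ t < Tm R K σ x b c then (1 : ℝ) else 0) := by
    have e3 : ∑ x : X, ∑ b : β, ∑ c : γ, ∑ t ∈ Ico σ (K + 1),
        (if mdn D.qc σ (Tm R K σ x b) t c = t ∧ t < Tm R K σ x b c then (1 : ℝ) else 0) =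
        ∑ b : β, ∑ c : γ, ∑ t ∈ Ico σ (K + 1), ∑ x : X,
        (if mdn D.qc σ (Tm R K σ x b) t c = t ∧ t < Tm R K σ x b c then (1 : ℝ) else 0) := by
      rw [sum_comm]
      refine sum_congr rfl fun b _ => ?_
      rw [sum_comm]
      refine sum_congr rfl fun c _ => ?_
      rw [sum_comm]
    rw [e3]
    simp only [mul_sum]
  rw [e1]
  refine (sum_le_sum fun b _ => sum_le_sum fun c _ => sum_le_sum fun t ht => step t ht b c).trans ?_
  rw [e2]
  have e4 : ∑ x : X, ∑ b : β, ∑ c : γ, ∑ t ∈ Ico σ (K + 1),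
      (if mdn D.qc σ (Tm R K σ x b) t c = t ∧ t < Tm R K σ x b c then (1 : ℝ) else 0) ≤
      ∑ x : X, ∑ b : β, 2 * ∑ c : γ, if Sta R σ x b c then (1 : ℝ) else 0 := by
    refine sum_le_sum fun x _ => sum_le_sum fun b _ => ?_
    refine (med_count D.rc (Tm_stp hK x b) (K + 1)).trans (mul_le_mul_of_nonneg_left ?_ (by norm_num))
    refine sum_le_sum fun c _ => ?_
    by_cases hS : Sta R σ x b c
    · rw [if_pos hS]
      split_ifs <;> norm_num
    · rw [if_neg hS, Tm_not hS, if_neg (lt_irrefl σ)]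
  refine (mul_le_mul_of_nonneg_left e4 (div_nonneg heL hal.le)).trans (le_of_eq ?_)
  simp only [← mul_sum]
  ring

theorem sum3_lin {X β φ : Type*} [Fintype X] [Fintype β] [Fintype φ] (A M : ℝ) (u v : X → β → φ → ℝ) :
    ∑ x, ∑ b, ∑ F, (A * u x b F + M * v x b F) = A * (∑ x, ∑ b, ∑ F, u x b F) + M * ∑ x, ∑ b, ∑ F, v x b F := by
  simp only [mul_sum, sum_add_distrib]

open Classical in
/-- the loss of the pair `(F, G)` at the end of the epoch: part (A) -/
def lsA (R : Rt D) (gd : X → β → γ → Prop) (ps : X → β → γ → φ → φ → ℝ) (B : ℝ) (K σ : ℕ) (x : X) (b : β) (c : γ) : ℝ :=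
  ∑ F, ∑ G, if Sta R σ x b c ∧ Tm R K σ x b c ≤ K ∧ gd x b c ∧ sgF R B K σ x b c F ≤ Tm R K σ x b c ∧
    sgF R B K σ x b c F ≤ sgG R B K σ x b c G then D.kf σ x b c F * (D.kg σ x b c G * ps x b c F G) else 0

open Classical in
/-- the `f`-part of the loss is paid by the strong letters -/
theorem lossA {al eL lam B M : ℝ} (T : D.Thick al) (hB : 1 ≤ B) (heL : 0 ≤ eL) (hlam : 0 ≤ lam) (hM : 0 ≤ M)
    {K σ : ℕ} (hK : σ ≤ K) (gd : X → β → γ → Prop) (un : ℕ → X → β → γ → Prop) (ps : X → β → γ → φ → φ → ℝ)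
    (hun : ∀ x b c, Sta R σ x b c → Tm R K σ x b c ≤ K → gd x b c → ∀ t, σ ≤ t → t < Tm R K σ x b c → un t x b c)
    (hps : ∀ x b c F G, 0 ≤ ps x b c F G ∧ ps x b c F G ≤ M)
    (hRare : ∀ t x b c F, σ ≤ t → t ≤ K → t < Tm R K σ x b c →
      (((VG R.toRm (R.ep σ x b c) t x b c).filter fun y => lam < row R un ps B σ t y b c F).card : ℝ) ≤
        eL * (VG R.toRm (R.ep σ x b c) t x b c).card) :
    E3 (lsA R gd ps B K σ) ≤
      2 * lam * E3 (fun x b c => ∑ F, D.kf σ x b c F *
        if Sta R σ x b c ∧ sgF R B K σ x b c F ≤ Tm R K σ x b c then (1 : ℝ) else 0) +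
      2 * M * (eL / al) * E3 (fun x b c => if Sta R σ x b c then (1 : ℝ) else 0) := by
  have hfn : ∀ x b c F, 0 ≤ D.kf σ x b c F := fun x b c F => T.f_nn _ _ _ _ _
  have hgn : ∀ x b c F, 0 ≤ D.kg σ x b c F := fun x b c F => T.g_nn _ _ _ _ _
  -- one point `x`, `b`, one letter `F`
  have one : ∀ x b F, ∑ c, (∑ G, if Sta R σ x b c ∧ Tm R K σ x b c ≤ K ∧ gd x b c ∧
      sgF R B K σ x b c F ≤ Tm R K σ x b c ∧
      sgF R B K σ x b c F ≤ sgG R B K σ x b c G then D.kf σ x b c F * (D.kg σ x b c G * ps x b c F G) else 0) ≤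
      2 * lam * (∑ c, D.kf σ x b c F *
        if Sta R σ x b c ∧ sgF R B K σ x b c F ≤ Tm R K σ x b c then (1 : ℝ) else 0) +
      M * ∑ c, ∑ t ∈ Ico σ (K + 1), D.kf σ x b c F *
        if mdn D.qc σ (Tm R K σ x b) t c = t ∧ t < Tm R K σ x b c ∧ lam < row R un ps B σ t x b c F then
          (1 : ℝ) else 0 := by
    intro x b F
    set s : γ → ℕ := fun c => if Sta R σ x b c then sgF R B K σ x b c F else K + 2 with hs
    set Psi : γ → ℝ := fun c => ∑ G, if Tm R K σ x b c ≤ K ∧ gd x b c ∧ s c ≤ sgG R B K σ x b c G then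
      D.kg σ x b c G * ps x b c F G else 0 with hPsi
    have hs1 : ∀ c, σ < s c := by
      intro c
      simp only [hs]
      split_ifs
      · exact sgF_gt hK x b c F
      · omega
    have hSc : ∀ c c', D.qc σ c = D.qc σ c' → (Sta R σ x b c ↔ Sta R σ x b c') := fun c c' hc =>
      Sta_same le_rfl ⟨rfl, rfl, hc.symm⟩ (R.self_om0 σ x b c')
    have hs2 : ∀ c c', D.qc σ c = D.qc σ c' → s c = s c' := by
      intro c c' hc
      simp only [hs]
      by_cases h1 : Sta R σ x b c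
      · rw [if_pos h1, if_pos ((hSc c c' hc).1 h1), sgF_c hc F h1]
      · rw [if_neg h1, if_neg (fun h => h1 ((hSc c c' hc).2 h))]
    have hw : ∀ c c', D.qc σ c = D.qc σ c' → D.kf σ x b c F = D.kf σ x b c' F := fun c c' hc =>
      congrFun (D.kf_c σ x b c c' hc) F
    have hPM : ∀ c, Psi c ≤ M := by
      intro c
      calc Psi c ≤ ∑ G, D.kg σ x b c G * M := by
            refine sum_le_sum fun G _ => ?_
            split_ifs
            · exact mul_le_mul_of_nonneg_left (hps x b c F G).2 (hgn x b c G)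
            · exact mul_nonneg (hgn x b c G) hM
        _ = M := by rw [← sum_mul, T.g_one σ x b c, one_mul]
    have key := med_bound_w D.rc (Tm_stp (R := R) hK x b) hs1 hs2 (w := fun c => D.kf σ x b c F) (fun c => hfn x b c F) hw
      (Psi := Psi) (R := fun t c => row R un ps B σ t x b c F) hM hlam hPM ?_ ?_
    · -- conclusion
      have e1 : ∀ c, (∑ G, if Sta R σ x b c ∧ Tm R K σ x b c ≤ K ∧ gd x b c ∧
          sgF R B K σ x b c F ≤ Tm R K σ x b c ∧
          sgF R B K σ x b c F ≤ sgG R B K σ x b c G then D.kf σ x b c F * (D.kg σ x b c G * ps x b c F G) else 0) =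
          D.kf σ x b c F * (if s c ≤ Tm R K σ x b c then Psi c else 0) := by
        intro c
        by_cases h1 : Sta R σ x b c
        · have h2 : s c = sgF R B K σ x b c F := by simp only [hs, if_pos h1]
          by_cases h3 : s c ≤ Tm R K σ x b c
          · rw [if_pos h3]
            simp only [hPsi, mul_sum]
            refine sum_congr rfl fun G _ => ?_
            by_cases h4 : Tm R K σ x b c ≤ K ∧ gd x b c ∧ s c ≤ sgG R B K σ x b c G
            · rw [if_pos h4, if_pos ⟨h1, h4.1, h4.2.1, h2 ▸ h3, h2 ▸ h4.2.2⟩]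
            · rw [if_neg h4, if_neg (fun h => h4 ⟨h.2.1, h.2.2.1, h2 ▸ h.2.2.2.2⟩), mul_zero]
          · rw [if_neg h3, mul_zero]
            refine sum_eq_zero fun G _ => ?_
            rw [if_neg (fun h => h3 (h2 ▸ h.2.2.2.1))]
        · have h2 : ¬ s c ≤ Tm R K σ x b c := by
            simp only [hs, if_neg h1]
            rw [Tm_not h1]
            omega
          rw [if_neg h2, mul_zero]
          exact sum_eq_zero fun G _ => if_neg (fun h => h1 h.1)
      have e2 : ∀ c, D.kf σ x b c F * (if s c ≤ Tm R K σ x b c then (1 : ℝ) else 0) =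
          D.kf σ x b c F * (if Sta R σ x b c ∧ sgF R B K σ x b c F ≤ Tm R K σ x b c then (1 : ℝ) else 0) := by
        intro c
        congr 1
        by_cases h1 : Sta R σ x b c
        · simp only [hs, if_pos h1, h1, true_and]
        · have h2 : ¬ s c ≤ Tm R K σ x b c := by
            simp only [hs, if_neg h1]
            rw [Tm_not h1]
            omega
          rw [if_neg h2, if_neg (fun h => h1 h.1)]
      have e3 : ∀ c, D.kf σ x b c F * ∑ t ∈ Ico σ (s c),
          (if mdn D.qc σ (Tm R K σ x b) t c = t ∧ t < Tm R K σ x b c ∧ lam < row R un ps B σ t x b c F then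
            (1 : ℝ) else 0) ≤ ∑ t ∈ Ico σ (K + 1), D.kf σ x b c F *
          (if mdn D.qc σ (Tm R K σ x b) t c = t ∧ t < Tm R K σ x b c ∧ lam < row R un ps B σ t x b c F then
            (1 : ℝ) else 0) := by
        intro c
        rw [← mul_sum]
        refine mul_le_mul_of_nonneg_left ?_ (hfn x b c F)
        rw [← sum_filter, ← sum_filter (s := Ico σ (K + 1))]
        refine sum_le_sum_of_subset_of_nonneg ?_ fun _ _ _ => zero_le_one
        intro t ht
        rw [mem_filter, mem_Ico] at ht ⊢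
        have := Tm_le (R := R) hK x b c
        exact ⟨⟨ht.1.1, by omega⟩, ht.2⟩
      rw [sum_congr rfl fun c _ => e1 c]
      rw [sum_congr rfl fun c _ => e2 c] at key
      refine key.trans (add_le_add le_rfl (mul_le_mul_of_nonneg_left (sum_le_sum fun c _ => e3 c) hM))
    · -- the rows
      intro t c ht hts htT
      have hSta : Sta R σ x b c := Sta_of_lt ht htT
      rw [cel_eq]
      have hcard : ((D.cC t c).card : ℝ) ≠ 0 := by
        have := card_pos.2 ⟨c, D.self_cC t c⟩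
        positivity
      unfold row avg
      rw [div_mul_cancel₀ _ hcard]
      refine sum_le_sum fun c' hc' => ?_
      have hc1 : D.qc t c = D.qc t c' := (D.mem_cC.1 hc').symm
      have hc2 : D.qc σ c = D.qc σ c' := D.qc_le ht hc1
      have hSta' : Sta R σ x b c' := (hSc c c' hc2).1 hSta
      split_ifs with h1
      · refine sum_le_sum fun G _ => ?_
        by_cases h2 : Tm R K σ x b c' ≤ K ∧ gd x b c' ∧ s c' ≤ sgG R B K σ x b c' G
        · have h3 : t < Tm R K σ x b c' := lt_of_lt_of_le hts h1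
          have h4 : ¬ strG R B σ t x b c' G := by
            rcases ht.eq_or_lt with h5 | h5
            · rw [← h5]
              exact not_strG_start T hB hSta' G
            · refine not_strG (K := K) h5 (by omega) ?_
              rw [← hs2 c c' hc2] at h2
              omega
          rw [if_pos h2, if_pos ⟨hun x b c' hSta' h2.1 h2.2.1 t ht h3, h4⟩]
        · rw [if_neg h2]
          split_ifs
          · exact mul_nonneg (hgn x b c' G) (hps x b c' F G).1
          · exact le_rfl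
      · refine sum_nonneg fun G _ => ?_
        split_ifs
        · exact mul_nonneg (hgn x b c' G) (hps x b c' F G).1
        · exact le_rfl
    · -- a row is a function of the cell
      intro t c c' _ hc
      simp only [row]
      rw [D.cC_congr hc]
  have hbad := bad_part T heL hK un ps hRare
  have main : ∑ x, ∑ b, ∑ c, lsA R gd ps B K σ x b c ≤
      2 * lam * (∑ x, ∑ b, ∑ c, ∑ F, D.kf σ x b c F *
        if Sta R σ x b c ∧ sgF R B K σ x b c F ≤ Tm R K σ x b c then (1 : ℝ) else 0) +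
      2 * M * (eL / al) * ∑ x : X, ∑ b : β, ∑ c : γ, if Sta R σ x b c then (1 : ℝ) else 0 := by
    have e1 : ∑ x, ∑ b, ∑ c, lsA R gd ps B K σ x b c = ∑ x, ∑ b, ∑ F, ∑ c, (∑ G, if Sta R σ x b c ∧
        Tm R K σ x b c ≤ K ∧ gd x b c ∧ sgF R B K σ x b c F ≤ Tm R K σ x b c ∧
        sgF R B K σ x b c F ≤ sgG R B K σ x b c G then D.kf σ x b c F * (D.kg σ x b c G * ps x b c F G) else 0) := by
      refine sum_congr rfl fun x _ => sum_congr rfl fun b _ => ?_
      unfold lsA
      rw [sum_comm]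
    rw [e1]
    refine (sum_le_sum fun x _ => sum_le_sum fun b _ => sum_le_sum fun F _ => one x b F).trans ?_
    rw [sum3_lin]
    have e2 : ∑ x, ∑ b, ∑ F, ∑ c, D.kf σ x b c F *
        (if Sta R σ x b c ∧ sgF R B K σ x b c F ≤ Tm R K σ x b c then (1 : ℝ) else 0) =
        ∑ x, ∑ b, ∑ c, ∑ F, D.kf σ x b c F *
        (if Sta R σ x b c ∧ sgF R B K σ x b c F ≤ Tm R K σ x b c then (1 : ℝ) else 0) :=
      sum_congr rfl fun x _ => sum_congr rfl fun b _ => sum_comm
    have e3 : ∑ x, ∑ b, ∑ F, ∑ c, ∑ t ∈ Ico σ (K + 1), D.kf σ x b c F *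
        (if mdn D.qc σ (Tm R K σ x b) t c = t ∧ t < Tm R K σ x b c ∧ lam < row R un ps B σ t x b c F then
          (1 : ℝ) else 0) =
        ∑ x, ∑ b, ∑ c, ∑ t ∈ Ico σ (K + 1), ∑ F, D.kf σ x b c F *
        (if mdn D.qc σ (Tm R K σ x b) t c = t ∧ t < Tm R K σ x b c ∧ lam < row R un ps B σ t x b c F then
          (1 : ℝ) else 0) := by
      refine sum_congr rfl fun x _ => sum_congr rfl fun b _ => ?_
      rw [sum_comm]
      refine sum_congr rfl fun c _ => ?_
      rw [sum_comm]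
    rw [e2, e3]
    have h1 := mul_le_mul_of_nonneg_left hbad hM
    refine (add_le_add le_rfl h1).trans (le_of_eq ?_)
    ring
  rw [E3_eq3, E3_eq3, E3_eq3]
  have hN : (0 : ℝ) ≤ (Fintype.card X * (Fintype.card β * Fintype.card γ) : ℝ) := by positivity
  refine (div_le_div_of_nonneg_right main hN).trans (le_of_eq ?_)
  ring

end med

end

end Pool.Agent.M3.S3B
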