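import Pool.Agent.M3.S3B.StrC
import Pool.Agent.M3.S3B.RareB

/-!
# M3.S3B.LossC: both letters strong for the final cell but not strong before (note 3448 (6)(C); helper63), one node

`W` = class at the test, `Bs`, `Cs` = cells of the two known points; `v`, `v'` = virtual partitions, `y` = final partition
(finer than `v`); `kf`, `kg` frozen kernels; `good b c` good pairs; `p0 c`, `p0F b F c` = law of the second label on the class
of the start, without and with the first letter `F`.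
* `Part W v` : `v x` = cell of `x`; `Part.sum_mean`, `Part.sum_le` : sums cell by cell;
* `lossC_row` : weight `R x b F` of the rows;
* `row_exc` : mass of the exceptional rows;
* `lossC_node` : THE LOSS (C) of one node.
-/

set_option autoImplicit false
set_option linter.unusedSectionVars false

namespace Pool.Agent.M3.S3B

open Finset Pool.Agent.PWZ Pool.Agent.M3 Pool.Agent.M3.S3

noncomputable section

namespace LC

variable {X β γ φ : Type*} [Fintype φ]

/-- `v x` is the cell of `x` in a partition of `W` -/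
structure Part (W : Finset X) (v : X → Finset X) : Prop where
  self : ∀ x ∈ W, x ∈ v x
  sub : ∀ x ∈ W, v x ⊆ W
  inv : ∀ x ∈ W, ∀ z ∈ v x, v z = v x

theorem Part.card_pos {W : Finset X} {v : X → Finset X} (h : Part W v) {x : X} (hx : x ∈ W) :
    (0 : ℝ) < (v x).card := by
  exact_mod_cast Finset.card_pos.2 ⟨x, h.self x hx⟩

/-- sums over the own cell -/
theorem Part.sum_mean {W : Finset X} {v : X → Finset X} (h : Part W v) (f : X → ℝ) :
    ∑ x ∈ W, (∑ z ∈ v x, f z) / (v x).card = ∑ x ∈ W, f x := by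
  classical
  have h1 : ∀ x ∈ W, (∑ z ∈ v x, f z) / (v x).card = ∑ z ∈ W, (if z ∈ v x then f z / (v x).card else 0) := by
    intro x hx
    rw [Finset.sum_div, ← Finset.sum_filter]
    refine Finset.sum_congr ?_ (fun _ _ => rfl)
    ext z
    rw [Finset.mem_filter]
    exact ⟨fun hz => ⟨h.sub x hx hz, hz⟩, fun hz => hz.2⟩
  rw [Finset.sum_congr rfl h1, Finset.sum_comm]
  refine Finset.sum_congr rfl (fun z hz => ?_)
  have h2 : ∀ x ∈ W, (if z ∈ v x then f z / ((v x).card : ℝ) else 0) =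
      if x ∈ v z then f z / ((v z).card : ℝ) else 0 := by
    intro x hx
    by_cases hv : z ∈ v x
    · have e := h.inv x hx z hv
      have hw : x ∈ v z := e ▸ h.self x hx
      rw [if_pos hv, if_pos hw, e]
    · have hw : ¬ x ∈ v z := fun hw => hv ((h.inv z hz x hw).symm ▸ h.self z hz)
      rw [if_neg hv, if_neg hw]
  rw [Finset.sum_congr rfl h2, ← Finset.sum_filter]
  have h3 : (W.filter fun x => x ∈ v z) = v z := by
    ext x
    rw [Finset.mem_filter]
    exact ⟨fun h => h.2, fun hx => ⟨h.sub z hz hx, hx⟩⟩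
  rw [h3, Finset.sum_const, nsmul_eq_mul]
  have := (h.card_pos hz).ne'
  field_simp

/-- a bound for every cell -/
theorem Part.sum_le {W : Finset X} {v : X → Finset X} (h : Part W v) {f g : X → ℝ}
    (hfg : ∀ x ∈ W, ∑ z ∈ v x, f z ≤ ∑ z ∈ v x, g z) : ∑ x ∈ W, f x ≤ ∑ x ∈ W, g x := by
  rw [← h.sum_mean f, ← h.sum_mean g]
  exact Finset.sum_le_sum fun x hx => div_le_div_of_nonneg_right (hfg x hx) (Nat.cast_nonneg _)

/-- the loss with row weights, cell by cell of the first virtual partition -/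
theorem lossC_row {kf : X → β → φ → ℝ} (h0 : ∀ x b F, 0 ≤ kf x b F) (h1 : ∀ x b, ∑ F, kf x b F = 1)
    {W : Finset X} {Bs : Finset β} {v y : X → Finset X} (hv : Part W v) (hy : Part W y) (hyv : ∀ x ∈ W, y x ⊆ v x)
    {sg : ℝ} (hsg : 0 ≤ sg)
    (hsat : ∀ x ∈ W, ∀ S ⊆ v x, S.Nonempty →
      avg Bs (fun b => klf (law S (fun z => kf z b)) (law (v x) (fun z => kf z b))) ≤
      sg * (Real.log (((v x).card : ℝ) / S.card) + 1))
    {A : ℝ} (hA : 1 < Real.log A) (hA0 : 0 < A)
    (R : X → β → φ → ℝ) {lam M : ℝ} (hlam : 0 ≤ lam) (hM : 0 ≤ M) (hR : ∀ x ∈ W, ∀ b ∈ Bs, ∀ F, R x b F ≤ M) :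
    ∑ x ∈ W, avg Bs (fun b => ∑ F, kf x b F *
      ind (A * law (v x) (fun z => kf z b) F < law (y x) (fun z => kf z b) F) * R x b F) ≤
    lam * (2 * sg / (Real.log A - 1)) * ∑ x ∈ W, Real.log (((v x).card : ℝ) / (y x).card) +
      M * ∑ x ∈ W, avg Bs (fun b => ∑ F, kf x b F * ind (lam < R x b F)) := by
  classical
  rw [Finset.mul_sum, Finset.mul_sum, ← Finset.sum_add_distrib]
  refine hv.sum_le fun x hx => ?_
  have hVW := hv.sub x hx
  have e1 : ∀ z ∈ v x, fblk (v x) y z = y z := by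
    intro z hz
    ext w
    rw [mem_fblk]
    constructor
    · rintro ⟨hw1, hw2⟩
      rw [← hw2]
      exact hy.self w (hVW hw1)
    · intro hw
      refine ⟨?_, hy.inv z (hVW hz) w hw⟩
      rw [← hv.inv x hx z hz]
      exact hyv z (hVW hz) hw
  have h2 := strC_row h0 h1 hsg (hsat x hx) y hA hA0 R hlam hM (fun z hz b hb F => hR z (hVW hz) b hb F)
  have e2 : ∑ z ∈ v x, avg Bs (fun b => ∑ F, kf z b F *
      ind (A * law (v z) (fun z => kf z b) F < law (y z) (fun z => kf z b) F) * R z b F) =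
      ∑ z ∈ v x, avg Bs (fun b => ∑ F, kf z b F *
      ind (A * law (v x) (fun z => kf z b) F < law (fblk (v x) y z) (fun z => kf z b) F) * R z b F) := by
    refine Finset.sum_congr rfl fun z hz => ?_
    rw [e1 z hz, hv.inv x hx z hz]
  have e3 : entN (v x) y = ∑ z ∈ v x, Real.log (((v z).card : ℝ) / (y z).card) := by
    unfold entN
    refine Finset.sum_congr rfl fun z hz => ?_
    rw [e1 z hz, hv.inv x hx z hz]
  rw [e2]
  refine h2.trans ?_
  rw [Finset.sum_add_distrib, ← Finset.mul_sum, ← Finset.mul_sum, e3]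
  apply le_of_eq
  ring

/-- the row weight of `(x,b,F)` -/
def Rw (kg : X → γ → φ → ℝ) (v' : X → Finset X) (Cs : Finset γ) (good : β → γ → Prop) (p0F : β → φ → γ → φ → ℝ)
    (p0 : γ → φ → ℝ) (B d : ℝ) (x : X) (b : β) (F : φ) : ℝ :=
  RB.RR kg (v' x) Cs (good b) (p0F b F) p0 B d x

/-- mass of the exceptional rows -/
theorem row_exc {kf : X → β → φ → ℝ} (h0 : ∀ x b F, 0 ≤ kf x b F) (h1 : ∀ x b, ∑ F, kf x b F = 1)
    {kg : X → γ → φ → ℝ} (g0 : ∀ x c G, 0 ≤ kg x c G) (g1 : ∀ x c, ∑ G, kg x c G = 1)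
    {W : Finset X} {Bs : Finset β} {Cs : Finset γ} {v' : X → Finset X} (hv' : Part W v')
    {al : ℝ} (hal : 0 < al) (hth : ∀ b ∈ Bs, ∀ x ∈ W, ∀ x' ∈ W, ∀ F, kf x b F ≠ 0 → al ≤ kf x' b F)
    {good : β → γ → Prop} {p0F : β → φ → γ → φ → ℝ} {p0 : γ → φ → ℝ} {B d sg e0 L : ℝ}
    (hF0 : ∀ b ∈ Bs, ∀ F, (∃ x ∈ W, kf x b F ≠ 0) → ∀ c ∈ Cs, good b c → ∀ G, 0 ≤ p0F b F c G)
    (h00 : ∀ c ∈ Cs, ∀ G, 0 ≤ p0 c G)
    (hF1 : ∀ b ∈ Bs, ∀ F, (∃ x ∈ W, kf x b F ≠ 0) → ∀ c ∈ Cs, good b c → ∑ G, p0F b F c G = 1)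
    (h01 : ∀ c ∈ Cs, ∑ G, p0 c G = 1)
    (hac : ∀ b ∈ Bs, ∀ F, (∃ x ∈ W, kf x b F ≠ 0) → ∀ c ∈ Cs, good b c → ∀ G, p0 c G = 0 → p0F b F c G = 0)
    (hB : 0 ≤ B) (hd : 0 < d) (hsg : 0 ≤ sg)
    (hsat : ∀ x ∈ W, ∀ S ⊆ v' x, S.Nonempty →
      avg Cs (fun c => klf (law S (fun z => kg z c)) (law (v' x) (fun z => kg z c))) ≤
      sg * (Real.log (((v' x).card : ℝ) / S.card) + 1))
    (he0 : ∀ b ∈ Bs, ∀ F, (∃ x ∈ W, kf x b F ≠ 0) → avg Cs (fun c => ind (good b c) * klf (p0F b F c) (p0 c)) ≤ e0) :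
    ∑ x ∈ W, avg Bs (fun b => ∑ F, kf x b F *
      ind (sg * (L + 1) + B * (4 / d) * e0 < Rw kg v' Cs good p0F p0 B d x b F)) ≤
    Real.exp (-L) / al * W.card := by
  classical
  have e1 : ∑ x ∈ W, avg Bs (fun b => ∑ F, kf x b F *
      ind (sg * (L + 1) + B * (4 / d) * e0 < Rw kg v' Cs good p0F p0 B d x b F)) =
      avg Bs (fun b => ∑ x ∈ W, ∑ F, kf x b F *
      ind (sg * (L + 1) + B * (4 / d) * e0 < Rw kg v' Cs good p0F p0 B d x b F)) := by
    unfold avg
    rw [← Finset.sum_div, Finset.sum_comm]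
  rw [e1]
  have hK : 0 ≤ Real.exp (-L) / al * W.card := by positivity
  have key : ∀ b ∈ Bs, (∑ x ∈ W, ∑ F, kf x b F *
      ind (sg * (L + 1) + B * (4 / d) * e0 < Rw kg v' Cs good p0F p0 B d x b F)) ≤ Real.exp (-L) / al * W.card := by
    intro b hb
    have h2 := row_bad (k := fun x => kf x b) (fun x F => h0 x b F) (fun x => h1 x b) hal
      (fun x hx x' hx' F => hth b hb x hx x' hx' F)
      (fun x F => (∃ x ∈ W, kf x b F ≠ 0) ∧
        sg * (L + 1) + B * (4 / d) * e0 < Rw kg v' Cs good p0F p0 B d x b F)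
      (e := Real.exp (-L)) (Real.exp_pos _).le ?_
    · refine le_trans (le_of_eq ?_) h2
      refine Finset.sum_congr rfl fun x hx => Finset.sum_congr rfl fun F _ => ?_
      by_cases hk : kf x b F = 0
      · simp only [hk, zero_mul]
      · congr 1
        have hex : ∃ x ∈ W, kf x b F ≠ 0 := ⟨x, hx, hk⟩
        unfold ind
        simp only [hex, true_and]
    · intro F
      by_cases hex : ∃ x ∈ W, kf x b F ≠ 0
      · rw [← hv'.sum_mean]
        calc ∑ x ∈ W, (∑ z ∈ v' x, ind ((∃ x ∈ W, kf x b F ≠ 0) ∧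
              sg * (L + 1) + B * (4 / d) * e0 < Rw kg v' Cs good p0F p0 B d z b F)) / ((v' x).card : ℝ)
            ≤ ∑ x ∈ W, Real.exp (-L) := by
              refine Finset.sum_le_sum fun x hx => ?_
              rw [div_le_iff₀ (hv'.card_pos hx)]
              set s := (v' x).filter fun z => sg * (L + 1) + B * (4 / d) * e0 <
                Rw kg v' Cs good p0F p0 B d z b F with hs
              have e2 : ∑ z ∈ v' x, ind ((∃ x ∈ W, kf x b F ≠ 0) ∧
                  sg * (L + 1) + B * (4 / d) * e0 < Rw kg v' Cs good p0F p0 B d z b F) = (s.card : ℝ) := by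
                rw [hs, Finset.card_filter, Nat.cast_sum]
                refine Finset.sum_congr rfl fun z _ => ?_
                unfold ind
                by_cases hz : sg * (L + 1) + B * (4 / d) * e0 < Rw kg v' Cs good p0F p0 B d z b F
                · rw [if_pos ⟨hex, hz⟩, if_pos hz]; simp
                · rw [if_neg (fun h => hz h.2), if_neg hz]; simp
              rw [e2]
              refine RB.rareB (kg := kg) (v := v' x) (C := Cs) (good := good b) (p0F := p0F b F) (p0 := p0)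
                (B := B) (d := d) (sig := sg) (e0 := e0) (L := L)
                (fun z _ c _ G => g0 z c G) (fun z _ c _ => g1 z c) (hF0 b hb F hex)
                (fun c hc _ => h00 c hc) (hF1 b hb F hex) (fun c hc _ => h01 c hc) (hac b hb F hex) hB hd hsg
                (hsat x hx) (he0 b hb F hex) s (Finset.filter_subset _ _) ?_
              intro z hz
              rw [hs, Finset.mem_filter] at hz
              have h3 := hz.2
              unfold Rw at h3
              rw [hv'.inv x hx z hz.1] at h3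
              exact h3
          _ = Real.exp (-L) * W.card := by rw [Finset.sum_const, nsmul_eq_mul, mul_comm]
      · have : ∀ x ∈ W, ind ((∃ x ∈ W, kf x b F ≠ 0) ∧
            sg * (L + 1) + B * (4 / d) * e0 < Rw kg v' Cs good p0F p0 B d x b F) = 0 :=
          fun x _ => ind_not (fun h => hex h.1)
        rw [Finset.sum_eq_zero this]
        positivity
  rcases Bs.eq_empty_or_nonempty with hBs | hBs
  · rw [hBs]
    simp only [avg, Finset.sum_empty, zero_div]
    exact hK
  · rw [← avg_const hBs (Real.exp (-L) / al * W.card)]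
    exact avg_mono key

/-- THE LOSS (C) OF ONE NODE -/
theorem lossC_node {kf : X → β → φ → ℝ} (h0 : ∀ x b F, 0 ≤ kf x b F) (h1 : ∀ x b, ∑ F, kf x b F = 1)
    {kg : X → γ → φ → ℝ} (g0 : ∀ x c G, 0 ≤ kg x c G) (g1 : ∀ x c, ∑ G, kg x c G = 1)
    {W : Finset X} {Bs : Finset β} {Cs : Finset γ} {v v' y : X → Finset X} (hv : Part W v) (hv' : Part W v')
    (hy : Part W y) (hyv : ∀ x ∈ W, y x ⊆ v x)
    {al : ℝ} (hal : 0 < al) (hth : ∀ b ∈ Bs, ∀ x ∈ W, ∀ x' ∈ W, ∀ F, kf x b F ≠ 0 → al ≤ kf x' b F)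
    {good : β → γ → Prop} {p0F : β → φ → γ → φ → ℝ} {p0 : γ → φ → ℝ} {B d sg e0 L A M : ℝ}
    (hF0 : ∀ b ∈ Bs, ∀ F, (∃ x ∈ W, kf x b F ≠ 0) → ∀ c ∈ Cs, good b c → ∀ G, 0 ≤ p0F b F c G)
    (h00 : ∀ c ∈ Cs, ∀ G, 0 ≤ p0 c G)
    (hF1 : ∀ b ∈ Bs, ∀ F, (∃ x ∈ W, kf x b F ≠ 0) → ∀ c ∈ Cs, good b c → ∑ G, p0F b F c G = 1)
    (h01 : ∀ c ∈ Cs, ∑ G, p0 c G = 1)
    (hac : ∀ b ∈ Bs, ∀ F, (∃ x ∈ W, kf x b F ≠ 0) → ∀ c ∈ Cs, good b c → ∀ G, p0 c G = 0 → p0F b F c G = 0)
    (hB : 0 ≤ B) (hd : 0 < d) (hsg : 0 ≤ sg) (hL : 0 ≤ L) (he : 0 ≤ e0) (hM : 0 ≤ M)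
    (hA : 1 < Real.log A) (hA0 : 0 < A)
    (hsatf : ∀ x ∈ W, ∀ S ⊆ v x, S.Nonempty →
      avg Bs (fun b => klf (law S (fun z => kf z b)) (law (v x) (fun z => kf z b))) ≤
      sg * (Real.log (((v x).card : ℝ) / S.card) + 1))
    (hsatg : ∀ x ∈ W, ∀ S ⊆ v' x, S.Nonempty →
      avg Cs (fun c => klf (law S (fun z => kg z c)) (law (v' x) (fun z => kg z c))) ≤
      sg * (Real.log (((v' x).card : ℝ) / S.card) + 1))
    (he0 : ∀ b ∈ Bs, ∀ F, (∃ x ∈ W, kf x b F ≠ 0) → avg Cs (fun c => ind (good b c) * klf (p0F b F c) (p0 c)) ≤ e0)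
    (hpM : ∀ b ∈ Bs, ∀ F, (∃ x ∈ W, kf x b F ≠ 0) → ∀ c ∈ Cs, good b c → ∀ x ∈ W, ∀ G, kg x c G ≠ 0 →
      Real.log (p0F b F c G / p0 c G) - d ≤ M) :
    ∑ x ∈ W, avg Bs (fun b => avg Cs fun c => ∑ F, ∑ G, kf x b F * kg x c G *
      (ind (A * law (v x) (fun z => kf z b) F < law (y x) (fun z => kf z b) F) * (ind (good b c) *
        (ind (law (v' x) (fun z => kg z c) G ≤ B * p0 c G) * max (Real.log (p0F b F c G / p0 c G) - d) 0)))) ≤
    (sg * (L + 1) + B * (4 / d) * e0) * (2 * sg / (Real.log A - 1)) *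
      ∑ x ∈ W, Real.log (((v x).card : ℝ) / (y x).card) + M * (Real.exp (-L) / al * W.card) := by
  classical
  set lam := sg * (L + 1) + B * (4 / d) * e0 with hlamdef
  have hlam : 0 ≤ lam := by positivity
  set R : X → β → φ → ℝ := fun x b F => ind (∃ x ∈ W, kf x b F ≠ 0) * Rw kg v' Cs good p0F p0 B d x b F with hRdef
  -- rewrite the left side as rows
  have e1 : ∀ x ∈ W, avg Bs (fun b => avg Cs fun c => ∑ F, ∑ G, kf x b F * kg x c G *
      (ind (A * law (v x) (fun z => kf z b) F < law (y x) (fun z => kf z b) F) * (ind (good b c) *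
        (ind (law (v' x) (fun z => kg z c) G ≤ B * p0 c G) * max (Real.log (p0F b F c G / p0 c G) - d) 0)))) =
      avg Bs (fun b => ∑ F, kf x b F *
      ind (A * law (v x) (fun z => kf z b) F < law (y x) (fun z => kf z b) F) * R x b F) := by
    intro x hx
    congr 1
    funext b
    have e2 : ∀ F, kf x b F * ind (A * law (v x) (fun z => kf z b) F < law (y x) (fun z => kf z b) F) * R x b F =
        avg Cs fun c => ∑ G, kf x b F * kg x c G *
      (ind (A * law (v x) (fun z => kf z b) F < law (y x) (fun z => kf z b) F) * (ind (good b c) *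
        (ind (law (v' x) (fun z => kg z c) G ≤ B * p0 c G) * max (Real.log (p0F b F c G / p0 c G) - d) 0))) := by
      intro F
      by_cases hk : kf x b F = 0
      · rw [hk]
        simp only [zero_mul, Finset.sum_const_zero]
        unfold avg
        rw [Finset.sum_const_zero, zero_div]
      · have hex : ∃ x ∈ W, kf x b F ≠ 0 := ⟨x, hx, hk⟩
        simp only [hRdef, ind_of hex, one_mul]
        unfold Rw RB.RR
        rw [← avg_smul]
        congr 1
        funext c
        rw [← mul_assoc, Finset.mul_sum]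
        refine Finset.sum_congr rfl fun G _ => ?_
        ring
    rw [Finset.sum_congr rfl fun F _ => e2 F]
    unfold avg
    rw [← Finset.sum_div, Finset.sum_comm]
  rw [Finset.sum_congr rfl e1]
  -- bound of the rows
  have hRM : ∀ x ∈ W, ∀ b ∈ Bs, ∀ F, R x b F ≤ M := by
    intro x hx b hb F
    by_cases hex : ∃ x ∈ W, kf x b F ≠ 0
    · simp only [hRdef, ind_of hex, one_mul]
      unfold Rw RB.RR
      have h3 : ∀ c ∈ Cs, ind (good b c) * ∑ G, kg x c G * (ind (law (v' x) (fun z => kg z c) G ≤ B * p0 c G) *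
          max (Real.log (p0F b F c G / p0 c G) - d) 0) ≤ M := by
        intro c hc
        by_cases hg : good b c
        · rw [ind_of hg, one_mul]
          calc ∑ G, kg x c G * (ind (law (v' x) (fun z => kg z c) G ≤ B * p0 c G) *
                max (Real.log (p0F b F c G / p0 c G) - d) 0)
              ≤ ∑ G, kg x c G * M := by
                refine Finset.sum_le_sum fun G _ => ?_
                by_cases hG : kg x c G = 0
                · rw [hG, zero_mul, zero_mul]
                · refine mul_le_mul_of_nonneg_left ?_ (g0 x c G)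
                  have h4 : max (Real.log (p0F b F c G / p0 c G) - d) 0 ≤ M :=
                    max_le (hpM b hb F hex c hc hg x hx G hG) hM
                  calc _ ≤ 1 * max (Real.log (p0F b F c G / p0 c G) - d) 0 :=
                        mul_le_mul_of_nonneg_right (ind_le_one _) (le_max_right _ _)
                    _ ≤ M := by rw [one_mul]; exact h4
            _ = M := by rw [← Finset.sum_mul, g1, one_mul]
        · rw [ind_not hg, zero_mul]; exact hM
      rcases Cs.eq_empty_or_nonempty with hCs | hCs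
      · rw [hCs]
        simp only [avg, Finset.sum_empty, zero_div]
        exact hM
      · rw [← avg_const hCs M]
        exact avg_mono h3
    · simp only [hRdef, ind_not hex, zero_mul]
      exact hM
  have h2 := lossC_row h0 h1 hv hy hyv hsg hsatf hA hA0 R hlam hM hRM
  have h3 := row_exc (L := L) h0 h1 g0 g1 hv' hal hth hF0 h00 hF1 h01 hac hB hd hsg hsatg he0
  refine h2.trans ?_
  have h4 : ∑ x ∈ W, avg Bs (fun b => ∑ F, kf x b F * ind (lam < R x b F)) ≤ Real.exp (-L) / al * W.card := by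
    refine le_trans (Finset.sum_le_sum fun x hx => avg_mono fun b _ => Finset.sum_le_sum fun F _ => ?_) h3
    refine mul_le_mul_of_nonneg_left (ind_mono fun h => ?_) (h0 x b F)
    by_cases hex : ∃ x ∈ W, kf x b F ≠ 0
    · simp only [hRdef, ind_of hex, one_mul] at h
      exact h
    · simp only [hRdef, ind_not hex, zero_mul] at h
      exact absurd h (not_lt.2 hlam)
  have := mul_le_mul_of_nonneg_left h4 hM
  linarith

end LC

end

end Pool.Agent.M3.S3B
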