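import Pool.Agent.M3.S3B.LossD2

/-!
# M3.S3B.LossD3: the tables of a good pair at the end of a normal epoch (note 3448, (4), (6); helper68)

* `law_comp` : the laws of a letter on `V ⊆ V0` when the tables differ by at most `κ`;
* `thk_om0`, `thk_hf` : thickness; `io_good`, `law_good` : a good pair, frozen labels.
-/

set_option autoImplicit false
set_option linter.unusedSectionVars false

namespace Pool.Agent.M3.S3B

open Finset Pool.Agent.PWZ Pool.Agent.M3 Pool.Agent.M3.S3

noncomputable section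

section static

variable {X β γ φ : Type*} [Fintype X] [Fintype β] [Fintype γ] [Fintype φ] (k : KP X β γ φ)

/-- COMPARISON of the laws of a letter on `V ⊆ V0` when the tables differ by at most `κ` -/
theorem law_comp {V V0 : Finset X} (hVV : V ⊆ V0) {al κ : ℝ} (hT : Thk k V0 al) {b : β} {c : γ}
    (hκ0 : 0 ≤ κ) (hκ : ∀ F G, |avg V (fun y => k.f y b c F * k.g y b c G) -
      avg V0 (fun y => k.f y b c F * k.g y b c G)| ≤ κ)
    {x : X} (hx : x ∈ V) {F : φ} (hF : k.f x b c F ≠ 0) :
    (1 - κ / al ^ 2) * law V0 (fun y => k.f y b c) F ≤ law V (fun y => k.f y b c) F := by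
  classical
  have hal := hT.pos
  have hgz : ∀ G, k.g x b c G = 0 → ∀ y ∈ V0, k.g y b c G = 0 := by
    intro G h y hy
    by_contra hne
    have := hT.g y hy x (hVV hx) b c G hne
    rw [h] at this
    linarith
  have hcardg : ((univ.filter fun G => k.g x b c G ≠ 0).card : ℝ) * al ≤ 1 := by
    rw [← nsmul_eq_mul, ← Finset.sum_const]
    calc ∑ _F ∈ univ.filter (fun G => k.g x b c G ≠ 0), al
        ≤ ∑ G ∈ univ.filter (fun G => k.g x b c G ≠ 0), k.g x b c G :=
          Finset.sum_le_sum fun G hG => hT.g x (hVV hx) x (hVV hx) b c G (Finset.mem_filter.1 hG).2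
      _ ≤ ∑ G, k.g x b c G := Finset.sum_le_sum_of_subset_of_nonneg (Finset.filter_subset _ _)
          fun F _ _ => k.g_nn _ _ _ _
      _ = 1 := k.g_one _ _ _
  have margf : ∀ W : Finset X, law W (fun y => k.f y b c) F =
      ∑ G, avg W (fun y => k.f y b c F * k.g y b c G) := by
    intro W
    unfold law avg
    rw [← Finset.sum_div, Finset.sum_comm]
    congr 1
    refine Finset.sum_congr rfl fun y _ => ?_
    rw [← Finset.mul_sum, k.g_one, mul_one]
  have hdf : law V0 (fun y => k.f y b c) F - κ / al ≤ law V (fun y => k.f y b c) F := by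
    have h1 : law V0 (fun y => k.f y b c) F - law V (fun y => k.f y b c) F ≤
        ∑ G ∈ univ.filter (fun G => k.g x b c G ≠ 0), κ := by
      rw [margf V0, margf V, ← Finset.sum_sub_distrib, Finset.sum_filter]
      refine Finset.sum_le_sum fun G' _ => ?_
      by_cases h : k.g x b c G' = 0
      · rw [if_neg (fun h' => h' h)]
        have e1 : avg V0 (fun y => k.f y b c F * k.g y b c G') = 0 := by
          unfold avg
          rw [Finset.sum_eq_zero, zero_div]
          intro y hy
          rw [hgz G' h y hy, mul_zero]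
        have e2 : avg V (fun y => k.f y b c F * k.g y b c G') = 0 := by
          unfold avg
          rw [Finset.sum_eq_zero, zero_div]
          intro y hy
          rw [hgz G' h y (hVV hy), mul_zero]
        rw [e1, e2, sub_zero]
      · rw [if_pos h]
        have := (abs_le.1 (hκ F G')).1
        linarith
    rw [Finset.sum_const, nsmul_eq_mul] at h1
    have h2 : ((univ.filter fun G => k.g x b c G ≠ 0).card : ℝ) * κ ≤ κ / al := by
      rw [le_div_iff₀ hal]
      nlinarith
    linarith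
  have hf : al ≤ law V0 (fun y => k.f y b c) F :=
    law_ge (fun y hy y' hy' F h => hT.f y hy y' hy' b c F h) (hVV hx) hF
  have hr0 : 0 ≤ κ / al ^ 2 := div_nonneg hκ0 (pow_pos hal 2).le
  have hκal : κ / al = κ / al ^ 2 * al := by field_simp
  rw [hκal] at hdf
  nlinarith

end static

variable {X β γ ι φ : Type*} [Fintype X] [Fintype β] [Fintype γ] [Fintype φ] {D : Dat X β γ ι φ}

variable {R : Rt D} {Up : Upd D} {N : Nb}

theorem thk_om0 {al : ℝ} (T : D.Thick al) (s : ℕ) (x : X) (b : β) (c : γ) :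
    Thk (D.kp T (R.ep s x b c).t0) (R.ep s x b c).om0 al where
  pos := T.pos
  f := fun y hy y' hy' b' c' F h => T.f_thick _ y y' b' c' F
    ((D.mem_cA.1 (R.om0_sub s x b c hy)).trans (D.mem_cA.1 (R.om0_sub s x b c hy')).symm) h
  g := fun y hy y' hy' b' c' F h => T.g_thick _ y y' b' c' F
    ((D.mem_cA.1 (R.om0_sub s x b c hy)).trans (D.mem_cA.1 (R.om0_sub s x b c hy')).symm) h

theorem thk_hf {al : ℝ} (T : D.Thick al) (s : ℕ) (x : X) (b : β) (c : γ) : Thk (D.kp T s) (R.hf s x b c) al where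
  pos := T.pos
  f := fun y hy y' hy' b' c' F h => T.f_thick _ y y' b' c' F
    (((D.mem_cA.1 (R.U_sub s x b c (R.hf_sub_U s x b c hy)))).trans
      (D.mem_cA.1 (R.U_sub s x b c (R.hf_sub_U s x b c hy'))).symm) h
  g := fun y hy y' hy' b' c' F h => T.g_thick _ y y' b' c' F
    (((D.mem_cA.1 (R.U_sub s x b c (R.hf_sub_U s x b c hy)))).trans
      (D.mem_cA.1 (R.U_sub s x b c (R.hf_sub_U s x b c hy'))).symm) h

theorem hf_om0 (s : ℕ) (x : X) (b : β) (c : γ) : R.hf s x b c ⊆ (R.ep s x b c).om0 := fun _ hy => (mem_W.1 hy).1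

/-- densities of a good pair -/
theorem io_good {al : ℝ} (T : D.Thick al) (hal1 : al ≤ 1) {K : ℕ} {J : ℝ} (hU : UpdOk D Up K J) {s : ℕ} {x : X} {b : β}
    {c : γ} (hg : ¬ Bd R Up N s x b c b c) (hk0 : 0 ≤ N.kap1) (hk : 2 * N.kap1 / al ^ 2 ≤ 1 / 2) {F G : φ}
    (hF : D.kf s x b c F ≠ 0) (hG : D.kg s x b c G ≠ 0) :
    io (D.kp T s) (R.hf s x b c) b c F G ≤ io (D.kp T (R.ep s x b c).t0) (R.ep s x b c).om0 b c F G +
      5 * (2 * N.kap1 / al ^ 2) := by
  have e0 := kf_good hU hg (y := x) rfl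
  have hlab : ∀ y ∈ R.hf s x b c, D.kf s y b c = D.kf (R.ep s x b c).t0 y b c ∧
      D.kg s y b c = D.kg (R.ep s x b c).t0 y b c := fun y hy =>
    kf_good hU hg (D.mem_cA.1 (R.U_sub s x b c (R.hf_sub_U s x b c hy)))
  have e1 : io (D.kp T s) (R.hf s x b c) b c F G = io (D.kp T (R.ep s x b c).t0) (R.hf s x b c) b c F G := by
    unfold io law avg
    congr 1
    have a1 : ∑ y ∈ R.hf s x b c, (D.kp T s).f y b c F * (D.kp T s).g y b c G =
        ∑ y ∈ R.hf s x b c, (D.kp T (R.ep s x b c).t0).f y b c F * (D.kp T (R.ep s x b c).t0).g y b c G := by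
      refine Finset.sum_congr rfl fun y hy => ?_
      show D.kf s y b c F * D.kg s y b c G = D.kf (R.ep s x b c).t0 y b c F * D.kg (R.ep s x b c).t0 y b c G
      rw [(hlab y hy).1, (hlab y hy).2]
    have a2 : ∑ y ∈ R.hf s x b c, (D.kp T s).f y b c F =
        ∑ y ∈ R.hf s x b c, (D.kp T (R.ep s x b c).t0).f y b c F := by
      refine Finset.sum_congr rfl fun y hy => ?_
      show D.kf s y b c F = D.kf (R.ep s x b c).t0 y b c F
      rw [(hlab y hy).1]
    have a3 : ∑ y ∈ R.hf s x b c, (D.kp T s).g y b c G =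
        ∑ y ∈ R.hf s x b c, (D.kp T (R.ep s x b c).t0).g y b c G := by
      refine Finset.sum_congr rfl fun y hy => ?_
      show D.kg s y b c G = D.kg (R.ep s x b c).t0 y b c G
      rw [(hlab y hy).2]
    rw [a1, a2, a3]
  rw [e1]
  refine io_comp _ (hf_om0 s x b c) (thk_om0 T s x b c) hal1 (by linarith) (fun F G => pl_good hg F G) hk
    (R.self_hf s x b c) ?_ ?_
  · show D.kf (R.ep s x b c).t0 x b c F ≠ 0
    rw [← e0.1]; exact hF
  · show D.kg (R.ep s x b c).t0 x b c G ≠ 0
    rw [← e0.2]; exact hG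

/-- law of a letter of a good pair on the half step class -/
theorem law_good {al : ℝ} (T : D.Thick al) {s : ℕ} {x : X} {b : β} {c : γ} (hg : ¬ Bd R Up N s x b c b c)
    (hk0 : 0 ≤ N.kap1) {F : φ} (hF : D.kf (R.ep s x b c).t0 x b c F ≠ 0) :
    (1 - 2 * N.kap1 / al ^ 2) * law (R.ep s x b c).om0 (fun y => D.kf (R.ep s x b c).t0 y b c) F ≤
      law (R.hf s x b c) (fun y => D.kf (R.ep s x b c).t0 y b c) F :=
  law_comp (D.kp T (R.ep s x b c).t0) (hf_om0 s x b c) (thk_om0 T s x b c) (by linarith)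
    (fun F G => pl_good hg F G) (R.self_hf s x b c) hF

end

end Pool.Agent.M3.S3B
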