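import Pool.Agent.M3.S3.Bud

/-!
# M3.S3B.Phi: collision potentials along public classes (note 3448 (3)) (helper48)

`PV V` = for all `b`, `c` the classes `V x b c` form a partition of `X`; `h y F` = probability of the (pair of) labels `F`
at the position `y`; `sqn h V = ∑_F (law of F on V)^2`, `dsn h V p = ∑_F (law of F on V - p F)^2`.
* `E3_dsn` : `E w dsn h W p - E w dsn h V p = E w dsn h W (law on V)` for `W` finer than `V`; kernel `h`, base point `p`
  and weight `w` constant on the classes of `V` (variance identity); `E3_sqn`, `E3_sqn_mono`, `E3_sqn_step`, `E3_msq`;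
* `kol_sum` : Doob / Kolmogorov for all epochs together, step by step (no stopping times): `η² ∑ E 1[epoch ends, changed]
  ≤ ∑ E (one step variances)`;
* `var_sum` : `∑ E (one step variances, frozen kernels) ≤ 1 + ∑ E 1[epoch ends, update in the epoch]`;
* `cur_sum` : `∑ E (increments of the collision potential with the current labels) ≤ 1 + ∑ E 1[update]`;
* `E3_one_le`.
-/

set_option autoImplicit false
set_option linter.unusedSectionVars false
set_option linter.unusedVariables false

namespace Pool.Agent.M3.S3B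

open Finset Pool.Agent.PWZ Pool.Agent.M3 Pool.Agent.M3.S3

noncomputable section

/-- collision probability of the law on the class -/
def sqn {X Φ : Type*} [Fintype Φ] (h : X → Φ → ℝ) (V : Finset X) : ℝ := ∑ F, (avg V fun y => h y F) ^ 2

/-- squared distance of the law on the class to `p` -/
def dsn {X Φ : Type*} [Fintype Φ] (h : X → Φ → ℝ) (V : Finset X) (p : Φ → ℝ) : ℝ :=
  ∑ F, ((avg V fun y => h y F) - p F) ^ 2

/-- the law on the class -/
def lw {X Φ : Type*} (h : X → Φ → ℝ) (V : Finset X) (F : Φ) : ℝ := avg V fun y => h y F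

variable {X β γ Φ : Type*}

theorem sqn_eq_dsn [Fintype Φ] (h : X → Φ → ℝ) (V : Finset X) : sqn h V = dsn h V fun _ => 0 := by
  unfold sqn dsn; simp

theorem sqn_congr [Fintype Φ] {h h' : X → Φ → ℝ} {V : Finset X} (hh : ∀ y ∈ V, h y = h' y) : sqn h V = sqn h' V := by
  unfold sqn avg
  refine sum_congr rfl fun F _ => ?_
  congr 2
  exact sum_congr rfl fun y hy => congrFun (hh y hy) F

theorem sqn_nonneg [Fintype Φ] (h : X → Φ → ℝ) (V : Finset X) : 0 ≤ sqn h V := sum_nonneg fun _ _ => sq_nonneg _

theorem dsn_nonneg [Fintype Φ] (h : X → Φ → ℝ) (V : Finset X) (p : Φ → ℝ) : 0 ≤ dsn h V p :=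
  sum_nonneg fun _ _ => sq_nonneg _

theorem dsn_self [Fintype Φ] (h : X → Φ → ℝ) (V : Finset X) : dsn h V (lw h V) = 0 := by
  unfold dsn lw; simp

/-- the collision probability of a law is at most one -/
theorem sqn_le_one [Fintype Φ] {h : X → Φ → ℝ} {V : Finset X} (hV : V.Nonempty) (h0 : ∀ y ∈ V, ∀ F, 0 ≤ h y F)
    (h1 : ∀ y ∈ V, ∑ F, h y F = 1) : sqn h V ≤ 1 := by
  have hc : (0 : ℝ) < V.card := by exact_mod_cast card_pos.2 hV
  have hn : ∀ F, 0 ≤ avg V fun y => h y F := fun F => div_nonneg (sum_nonneg fun y hy => h0 y hy F) hc.le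
  have hs : ∑ F, (avg V fun y => h y F) = 1 := by
    unfold avg
    rw [← sum_div, sum_comm, sum_congr rfl h1, sum_const, nsmul_eq_mul, mul_one, div_self hc.ne']
  have hle : ∀ F, (avg V fun y => h y F) ≤ 1 := fun F => by
    rw [← hs]
    exact single_le_sum (f := fun F => avg V fun y => h y F) (fun G _ => hn G) (mem_univ F)
  unfold sqn
  calc ∑ F, (avg V fun y => h y F) ^ 2 ≤ ∑ F, (avg V fun y => h y F) :=
        sum_le_sum fun F _ => by nlinarith [hn F, hle F]
    _ = 1 := hs

section one

variable [Fintype X]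

/-- variance identity for one function, cells `V x` and finer cells `W x` of a finite set -/
theorem var_id {V W : X → Finset X} (hV : Prt V) (hW : Prt W) (hs : ∀ x, W x ⊆ V x) (h : X → X → ℝ)
    (p w : X → ℝ) (hh : ∀ x x', x' ∈ V x → h x' = h x) (hp : ∀ x x', x' ∈ V x → p x' = p x)
    (hw : ∀ x x', x' ∈ V x → w x' = w x) :
    ∑ x, w x * (avg (W x) (h x) - p x) ^ 2 - ∑ x, w x * (avg (V x) (h x) - p x) ^ 2 =
      ∑ x, w x * (avg (W x) (h x) - avg (V x) (h x)) ^ 2 := by
  classical
  -- the mean over `W` of a function `g x` constant on `V` classes in the first argument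
  have hWV : ∀ x y, y ∈ W x → W y = W x := fun x y hy => hW.pub x y hy
  have key : ∑ x, (avg (W x) (h x)) * (w x * (avg (V x) (h x) - p x)) =
      ∑ x, (avg (V x) (h x)) * (w x * (avg (V x) (h x) - p x)) := by
    have hg : ∀ x x', x' ∈ V x → w x' * (avg (V x') (h x') - p x') = w x * (avg (V x) (h x) - p x) := by
      intro x x' hx
      rw [hw x x' hx, hh x x' hx, hp x x' hx, hV.pub x x' hx]
    have e1 := hW.sum_mean_mul (fun x => h x x) (fun x => w x * (avg (V x) (h x) - p x))
      (fun x x' hx => hg x x' (hs x hx))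
    have e2 := hV.sum_mean_mul (fun x => h x x) (fun x => w x * (avg (V x) (h x) - p x)) hg
    have e3 : ∀ x, (avg (W x) fun y => h y y) = avg (W x) (h x) := by
      intro x
      unfold avg
      congr 1
      exact sum_congr rfl fun y hy => congrFun (hh x y (hs x hy)) y
    have e4 : ∀ x, (avg (V x) fun y => h y y) = avg (V x) (h x) := by
      intro x
      unfold avg
      congr 1
      exact sum_congr rfl fun y hy => congrFun (hh x y hy) y
    simp only [e3] at e1
    simp only [e4] at e2
    rw [← e1, e2]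
  have e5 : ∀ x, w x * (avg (W x) (h x) - avg (V x) (h x)) ^ 2 =
      w x * (avg (W x) (h x) - p x) ^ 2 - w x * (avg (V x) (h x) - p x) ^ 2 -
        2 * ((avg (W x) (h x)) * (w x * (avg (V x) (h x) - p x)) -
          (avg (V x) (h x)) * (w x * (avg (V x) (h x) - p x))) := fun x => by ring
  rw [sum_congr rfl fun x _ => e5 x, sum_sub_distrib, sum_sub_distrib, ← mul_sum, sum_sub_distrib, key]
  ring

end one

section prod

variable [Fintype X] [Fintype β] [Fintype γ] [Fintype Φ] {V W : X → β → γ → Finset X}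
  {h : X → β → γ → X → Φ → ℝ} {p : X → β → γ → Φ → ℝ} {w : X → β → γ → ℝ}

/-- VARIANCE IDENTITY -/
theorem E3_dsn (hV : PV V) (hW : PV W) (hs : ∀ x b c, W x b c ⊆ V x b c)
    (hh : ∀ x b c x', x' ∈ V x b c → h x' b c = h x b c) (hp : ∀ x b c x', x' ∈ V x b c → p x' b c = p x b c)
    (hw : ∀ x b c x', x' ∈ V x b c → w x' b c = w x b c) :
    E3 (fun x b c => w x b c * dsn (h x b c) (W x b c) (p x b c)) -
      E3 (fun x b c => w x b c * dsn (h x b c) (V x b c) (p x b c)) =
      E3 fun x b c => w x b c * dsn (h x b c) (W x b c) (lw (h x b c) (V x b c)) := by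
  rw [← E3_sub, E3_eq, E3_eq]
  congr 1
  refine sum_congr rfl fun b _ => sum_congr rfl fun c _ => ?_
  unfold dsn lw
  simp only [mul_sum]
  rw [sum_sub_distrib, sum_comm, sum_comm (f := fun x F => w x b c * (avg (V x b c) (fun y => h x b c y F) -
    p x b c F) ^ 2), ← sum_sub_distrib, sum_comm (f := fun x F => w x b c * (avg (W x b c) (fun y => h x b c y F) -
    avg (V x b c) (fun y => h x b c y F)) ^ 2)]
  refine sum_congr rfl fun F _ => ?_
  exact var_id (hV b c) (hW b c) (fun x => hs x b c) (fun x y => h x b c y F) (fun x => p x b c F)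
    (fun x => w x b c) (fun x x' hx => by rw [hh x b c x' hx]) (fun x x' hx => by rw [hp x b c x' hx])
    (fun x x' hx => hw x b c x' hx)

theorem E3_sqn (hV : PV V) (hW : PV W) (hs : ∀ x b c, W x b c ⊆ V x b c)
    (hh : ∀ x b c x', x' ∈ V x b c → h x' b c = h x b c) (hw : ∀ x b c x', x' ∈ V x b c → w x' b c = w x b c) :
    E3 (fun x b c => w x b c * sqn (h x b c) (W x b c)) - E3 (fun x b c => w x b c * sqn (h x b c) (V x b c)) =
      E3 fun x b c => w x b c * dsn (h x b c) (W x b c) (lw (h x b c) (V x b c)) := by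
  simp only [sqn_eq_dsn]
  exact E3_dsn hV hW hs hh (fun _ _ _ _ _ => rfl) hw

theorem E3_sqn_mono (hV : PV V) (hW : PV W) (hs : ∀ x b c, W x b c ⊆ V x b c)
    (hh : ∀ x b c x', x' ∈ V x b c → h x' b c = h x b c) (hw : ∀ x b c x', x' ∈ V x b c → w x' b c = w x b c)
    (hw0 : ∀ x b c, 0 ≤ w x b c) :
    E3 (fun x b c => w x b c * sqn (h x b c) (V x b c)) ≤ E3 fun x b c => w x b c * sqn (h x b c) (W x b c) := by
  have e := E3_sqn hV hW hs hh hw
  have h0 : 0 ≤ E3 fun x b c => w x b c * dsn (h x b c) (W x b c) (lw (h x b c) (V x b c)) :=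
    E3_nonneg fun x b c => mul_nonneg (hw0 x b c) (dsn_nonneg _ _ _)
  linarith

/-- one step variance: `V1` finer than `V`, `W` finer than `V1` -/
theorem E3_sqn_step {V1 : X → β → γ → Finset X} (hV : PV V) (hV1 : PV V1) (hW : PV W)
    (hs1 : ∀ x b c, V1 x b c ⊆ V x b c) (hs : ∀ x b c, W x b c ⊆ V1 x b c)
    (hh : ∀ x b c x', x' ∈ V x b c → h x' b c = h x b c) (hw : ∀ x b c x', x' ∈ V x b c → w x' b c = w x b c)
    (hw0 : ∀ x b c, 0 ≤ w x b c) :
    E3 (fun x b c => w x b c * dsn (h x b c) (V1 x b c) (lw (h x b c) (V x b c))) ≤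
      E3 (fun x b c => w x b c * (sqn (h x b c) (W x b c) - sqn (h x b c) (V x b c))) := by
  have e1 := E3_sqn hV hV1 hs1 hh hw
  have e2 := E3_sqn_mono (h := h) (w := w) hV1 hW hs (fun x b c x' hx => hh x b c x' (hs1 x b c hx))
    (fun x b c x' hx => hw x b c x' (hs1 x b c hx)) hw0
  have e3 : E3 (fun x b c => w x b c * (sqn (h x b c) (W x b c) - sqn (h x b c) (V x b c))) =
      E3 (fun x b c => w x b c * sqn (h x b c) (W x b c)) - E3 (fun x b c => w x b c * sqn (h x b c) (V x b c)) := by
    rw [← E3_sub]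
    refine congrArg _ (funext fun x => funext fun b => funext fun c => ?_)
    ring
  rw [e3, ← e1]
  linarith

/-- Jensen for the square of the mean of a function -/
theorem E3_msq (hV : PV V) (hW : PV W) (hs : ∀ x b c, W x b c ⊆ V x b c) (f : X → β → γ → ℝ)
    (hw : ∀ x b c x', x' ∈ V x b c → w x' b c = w x b c) (hw0 : ∀ x b c, 0 ≤ w x b c) :
    E3 (fun x b c => w x b c * (avg (V x b c) fun y => f y b c) ^ 2) ≤
      E3 fun x b c => w x b c * (avg (W x b c) fun y => f y b c) ^ 2 := by
  have e := E3_sqn_mono (Φ := Unit) (h := fun _ b c y _ => f y b c) (w := w) hV hW hs (fun _ _ _ _ _ => rfl) hw hw0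
  simpa only [sqn, univ_unique, sum_singleton] using e

end prod

/-! ## sums along the process -/

section proc

variable [Fintype X] [Fintype β] [Fintype γ] [Fintype Φ]

/-- the mean of one is at most one (zero if one of the factors is empty) -/
theorem E3_one_le : E3 (fun (_ : X) (_ : β) (_ : γ) => (1 : ℝ)) ≤ 1 := by
  rw [E3_eq]
  simp only [sum_const, card_univ, nsmul_eq_mul, mul_one]
  rcases Nat.eq_zero_or_pos (Fintype.card X * Fintype.card β * Fintype.card γ) with h5 | h5
  · have h6 : ((Fintype.card X : ℝ) * Fintype.card β * Fintype.card γ) = 0 := by exact_mod_cast h5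
    rw [h6, div_zero]
    norm_num
  · have h6 : (0 : ℝ) < (Fintype.card X : ℝ) * Fintype.card β * Fintype.card γ := by exact_mod_cast h5
    rw [div_le_one h6]
    apply le_of_eq
    ring

open Classical in
theorem ind_le_one (q : Prop) : (ind q : ℝ) ≤ 1 := by
  unfold ind; split_ifs <;> norm_num

/-- data of a process with epochs: `V t` = public classes, `H t` = half step classes (`V (t+1) ⊆ H t ⊆ V t`), `nw t` = a
new epoch starts at the time `t+1`, `h t` = kernel which is frozen in the epoch of the time `t`, `p t` = law at the start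
of the epoch -/
structure Prc (V H : ℕ → X → β → γ → Finset X) (nw : ℕ → X → β → γ → Prop) (h : ℕ → X → β → γ → X → Φ → ℝ)
    (p : ℕ → X → β → γ → Φ → ℝ) : Prop where
  pv : ∀ t, PV (V t)
  ph : ∀ t, PV (H t)
  hv : ∀ t x b c, H t x b c ⊆ V t x b c
  vh : ∀ t x b c, V (t + 1) x b c ⊆ H t x b c
  h_q : ∀ t x b c x', x' ∈ V t x b c → h t x' b c = h t x b c
  p_q : ∀ t x b c x', x' ∈ V t x b c → p t x' b c = p t x b c
  keep : ∀ t x b c, ¬ nw t x b c → V (t + 1) x b c = H t x b c ∧ h (t + 1) x b c = h t x b c ∧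
    p (t + 1) x b c = p t x b c
  start : ∀ t x b c, nw t x b c → p (t + 1) x b c = lw (h (t + 1) x b c) (V (t + 1) x b c)

variable {V H : ℕ → X → β → γ → Finset X} {nw : ℕ → X → β → γ → Prop} {h : ℕ → X → β → γ → X → Φ → ℝ}
  {p : ℕ → X → β → γ → Φ → ℝ}

/-- DOOB / KOLMOGOROV for all epochs: `chg t` = the law of the epoch was `η`-far from the start at a time `≤ t` -/
theorem kol_sum (P : Prc V H nw h p) {eta : ℝ} (he : 0 ≤ eta) {chg : ℕ → X → β → γ → Prop}
    (hc_q : ∀ t x b c x', x' ∈ V t x b c → (chg t x' b c ↔ chg t x b c))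
    (hc0 : ∀ x b c, ¬ chg 0 x b c) (hp0 : ∀ x b c, p 0 x b c = lw (h 0 x b c) (V 0 x b c))
    (hc_new : ∀ t x b c, nw t x b c → ¬ chg (t + 1) x b c)
    (hc_keep : ∀ t x b c, ¬ nw t x b c → (chg (t + 1) x b c ↔ chg t x b c ∨
      ∃ F, eta < |lw (h t x b c) (H t x b c) F - p t x b c F|)) (K : ℕ) :
    eta ^ 2 * ∑ t ∈ range K, E3 (fun x b c => ind (nw t x b c ∧ (chg t x b c ∨
      ∃ F, eta < |lw (h t x b c) (H t x b c) F - p t x b c F|))) ≤
      ∑ t ∈ range K, E3 fun x b c => dsn (h t x b c) (H t x b c) (lw (h t x b c) (V t x b c)) := by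
  classical
  set far : ℕ → X → β → γ → Prop := fun t x b c => ∃ F, eta < |lw (h t x b c) (H t x b c) F - p t x b c F| with hfar
  -- the potential
  let Y : ℕ → X → β → γ → ℝ := fun t x b c =>
    if chg t x b c then eta ^ 2 else dsn (h t x b c) (V t x b c) (p t x b c)
  let Y' : ℕ → X → β → γ → ℝ := fun t x b c =>
    if chg t x b c ∨ far t x b c then eta ^ 2 else dsn (h t x b c) (H t x b c) (p t x b c)
  have hY0 : ∀ t x b c, 0 ≤ Y t x b c := fun t x b c => by
    show 0 ≤ (if chg t x b c then eta ^ 2 else dsn (h t x b c) (V t x b c) (p t x b c))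
    split_ifs
    · positivity
    · exact dsn_nonneg _ _ _
  have hY'0 : ∀ t x b c, 0 ≤ Y' t x b c := fun t x b c => by
    show 0 ≤ (if chg t x b c ∨ far t x b c then eta ^ 2 else dsn (h t x b c) (H t x b c) (p t x b c))
    split_ifs
    · positivity
    · exact dsn_nonneg _ _ _
  have hfard : ∀ t x b c, far t x b c → eta ^ 2 ≤ dsn (h t x b c) (H t x b c) (p t x b c) := by
    rintro t x b c ⟨F, hF⟩
    have h1 : eta ^ 2 ≤ (lw (h t x b c) (H t x b c) F - p t x b c F) ^ 2 := by
      rw [← sq_abs (lw (h t x b c) (H t x b c) F - p t x b c F)]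
      exact pow_le_pow_left₀ he hF.le 2
    refine h1.trans ?_
    unfold dsn
    exact single_le_sum (f := fun F => ((avg (H t x b c) fun y => h t x b c y F) - p t x b c F) ^ 2)
      (fun G _ => sq_nonneg _) (mem_univ F)
  -- one step inside the epoch
  have step1 : ∀ t, E3 (Y' t) ≤ E3 (Y t) +
      E3 (fun x b c => dsn (h t x b c) (H t x b c) (lw (h t x b c) (V t x b c))) := by
    intro t
    have hw : ∀ x b c x', x' ∈ V t x b c → (ind (¬ chg t x' b c) : ℝ) = ind (¬ chg t x b c) := by
      intro x b c x' hx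
      rw [hc_q t x b c x' hx]
    have e1 := E3_dsn (h := h t) (p := p t) (w := fun x b c => ind (¬ chg t x b c)) (P.pv t) (P.ph t)
      (P.hv t) (P.h_q t) (P.p_q t) hw
    have e2 : E3 (Y' t) ≤ E3 (Y t) + (E3 (fun x b c => ind (¬ chg t x b c) * dsn (h t x b c) (H t x b c) (p t x b c)) -
        E3 (fun x b c => ind (¬ chg t x b c) * dsn (h t x b c) (V t x b c) (p t x b c))) := by
      rw [← E3_sub, ← E3_add]
      refine E3_mono fun x b c => ?_
      show (if chg t x b c ∨ far t x b c then eta ^ 2 else dsn (h t x b c) (H t x b c) (p t x b c)) ≤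
        (if chg t x b c then eta ^ 2 else dsn (h t x b c) (V t x b c) (p t x b c)) + _
      by_cases hc : chg t x b c
      · rw [if_pos (Or.inl hc), if_pos hc]
        simp [ind, hc]
      · rw [if_neg hc]
        have hi : (ind (¬ chg t x b c) : ℝ) = 1 := by simp [ind, hc]
        rw [hi, one_mul, one_mul]
        by_cases hf : far t x b c
        · rw [if_pos (Or.inr hf)]
          have := hfard t x b c hf
          linarith
        · rw [if_neg (by tauto)]
          linarith
    refine e2.trans ?_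
    rw [e1]
    have e3 : E3 (fun x b c => ind (¬ chg t x b c) * dsn (h t x b c) (H t x b c) (lw (h t x b c) (V t x b c))) ≤
        E3 fun x b c => dsn (h t x b c) (H t x b c) (lw (h t x b c) (V t x b c)) :=
      E3_mono fun x b c => by
        have h1 := ind_le_one (¬ chg t x b c)
        have h2 := dsn_nonneg (h t x b c) (H t x b c) (lw (h t x b c) (V t x b c))
        nlinarith
    linarith
  -- the end of the step
  have step2 : ∀ t, E3 (Y (t + 1)) + eta ^ 2 * E3 (fun x b c => ind (nw t x b c ∧ (chg t x b c ∨ far t x b c))) ≤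
      E3 (Y' t) := by
    intro t
    rw [← E3_smul, ← E3_add]
    refine E3_mono fun x b c => ?_
    by_cases hn : nw t x b c
    · have h1 : Y (t + 1) x b c = 0 := by
        show (if chg (t + 1) x b c then eta ^ 2 else dsn (h (t + 1) x b c) (V (t + 1) x b c) (p (t + 1) x b c)) = 0
        rw [if_neg (hc_new t x b c hn), P.start t x b c hn]
        exact dsn_self _ _
      rw [h1, zero_add]
      by_cases hcf : chg t x b c ∨ far t x b c
      · have h2 : Y' t x b c = eta ^ 2 := by
          show (if chg t x b c ∨ far t x b c then eta ^ 2 else _) = eta ^ 2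
          rw [if_pos hcf]
        rw [h2]
        have h3 := ind_le_one (nw t x b c ∧ (chg t x b c ∨ far t x b c))
        nlinarith [sq_nonneg eta]
      · have h2 : (ind (nw t x b c ∧ (chg t x b c ∨ far t x b c)) : ℝ) = 0 := by
          unfold ind; rw [if_neg (fun hh => hcf hh.2)]
        rw [h2, mul_zero]
        exact hY'0 t x b c
    · have h2 : (ind (nw t x b c ∧ (chg t x b c ∨ far t x b c)) : ℝ) = 0 := by
        unfold ind; rw [if_neg (fun hh => hn hh.1)]
      rw [h2, mul_zero, add_zero]
      obtain ⟨k1, k2, k3⟩ := P.keep t x b c hn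
      show (if chg (t + 1) x b c then eta ^ 2 else dsn (h (t + 1) x b c) (V (t + 1) x b c) (p (t + 1) x b c)) ≤
        (if chg t x b c ∨ far t x b c then eta ^ 2 else dsn (h t x b c) (H t x b c) (p t x b c))
      by_cases hcf : chg t x b c ∨ far t x b c
      · rw [if_pos hcf, if_pos ((hc_keep t x b c hn).2 hcf)]
      · rw [if_neg hcf]
        have hc1 : ¬ chg (t + 1) x b c := fun hh => hcf ((hc_keep t x b c hn).1 hh)
        rw [if_neg hc1, k1, k2, k3]
  have hY00 : E3 (Y 0) = 0 := by
    have h1 : ∀ x b c, Y 0 x b c = 0 := fun x b c => by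
      show (if chg 0 x b c then eta ^ 2 else dsn (h 0 x b c) (V 0 x b c) (p 0 x b c)) = 0
      rw [if_neg (hc0 x b c), hp0 x b c]
      exact dsn_self _ _
    have h2 : Y 0 = fun _ _ _ => 0 := funext fun x => funext fun b => funext fun c => h1 x b c
    rw [h2]
    unfold E3 avg
    simp
  have main : ∀ n, E3 (Y n) + eta ^ 2 * ∑ t ∈ range n, E3 (fun x b c => ind (nw t x b c ∧ (chg t x b c ∨ far t x b c))) ≤
      ∑ t ∈ range n, E3 fun x b c => dsn (h t x b c) (H t x b c) (lw (h t x b c) (V t x b c)) := by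
    intro n
    induction n with
    | zero => simp [hY00]
    | succ n ih =>
      rw [sum_range_succ, sum_range_succ, mul_add]
      have h1 := step1 n
      have h2 := step2 n
      linarith
  have h3 : 0 ≤ E3 (Y K) := E3_nonneg (hY0 K)
  linarith [main K]

/-- frozen kernels: the one step variances of all epochs -/
theorem var_sum (P : Prc V H nw h p) {occ : ℕ → X → β → γ → Prop}
    (ho_q : ∀ t x b c x', x' ∈ H t x b c → ((nw t x' b c ∧ occ t x' b c) ↔ (nw t x b c ∧ occ t x b c)))
    (ho : ∀ t x b c, nw t x b c → ¬ occ t x b c → ∀ y ∈ V (t + 1) x b c, h (t + 1) x b c y = h t x b c y)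
    (h1 : ∀ t x b c, sqn (h t x b c) (H t x b c) ≤ 1) (h1' : ∀ t x b c, sqn (h t x b c) (V t x b c) ≤ 1) (K : ℕ) :
    ∑ t ∈ range K, E3 (fun x b c => dsn (h t x b c) (H t x b c) (lw (h t x b c) (V t x b c))) ≤
      1 + ∑ t ∈ range K, E3 fun x b c => ind (nw t x b c ∧ occ t x b c) := by
  classical
  have step : ∀ t, E3 (fun x b c => sqn (h t x b c) (V t x b c)) +
      E3 (fun x b c => dsn (h t x b c) (H t x b c) (lw (h t x b c) (V t x b c))) ≤
      E3 (fun x b c => sqn (h (t + 1) x b c) (V (t + 1) x b c)) + E3 fun x b c => ind (nw t x b c ∧ occ t x b c) := by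
    intro t
    have e1 := E3_sqn (h := h t) (w := fun _ _ _ => (1 : ℝ)) (P.pv t) (P.ph t) (P.hv t) (P.h_q t)
      (fun _ _ _ _ _ => rfl)
    simp only [one_mul] at e1
    have e2 := E3_sqn_mono (h := h t) (w := fun x b c => 1 - ind (nw t x b c ∧ occ t x b c)) (P.ph t) (P.pv (t + 1))
      (P.vh t) (fun x b c x' hx => P.h_q t x b c x' (P.hv t x b c hx)) (fun x b c x' hx => by
        show (1 - ind (nw t x' b c ∧ occ t x' b c) : ℝ) = 1 - ind (nw t x b c ∧ occ t x b c)
        rw [ho_q t x b c x' hx]) (fun x b c => by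
        have := ind_le_one (nw t x b c ∧ occ t x b c)
        linarith)
    have e3 : E3 (fun x b c => (1 - ind (nw t x b c ∧ occ t x b c)) * sqn (h t x b c) (V (t + 1) x b c)) ≤
        E3 fun x b c => sqn (h (t + 1) x b c) (V (t + 1) x b c) := by
      refine E3_mono fun x b c => ?_
      by_cases hn : nw t x b c
      · by_cases hoc : occ t x b c
        · have : (ind (nw t x b c ∧ occ t x b c) : ℝ) = 1 := by unfold ind; rw [if_pos ⟨hn, hoc⟩]
          rw [this]
          simp only [sub_self, zero_mul]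
          exact sqn_nonneg _ _
        · have : (ind (nw t x b c ∧ occ t x b c) : ℝ) = 0 := by unfold ind; rw [if_neg (fun hh => hoc hh.2)]
          rw [this, sub_zero, one_mul]
          exact (sqn_congr fun y hy => (ho t x b c hn hoc y hy).symm).le
      · have : (ind (nw t x b c ∧ occ t x b c) : ℝ) = 0 := by unfold ind; rw [if_neg (fun hh => hn hh.1)]
        rw [this, sub_zero, one_mul, (P.keep t x b c hn).2.1]
    have e4 : E3 (fun x b c => sqn (h t x b c) (H t x b c)) ≤
        E3 (fun x b c => (1 - ind (nw t x b c ∧ occ t x b c)) * sqn (h t x b c) (H t x b c)) +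
          E3 fun x b c => ind (nw t x b c ∧ occ t x b c) := by
      rw [← E3_add]
      refine E3_mono fun x b c => ?_
      have a1 := h1 t x b c
      have a2 := sqn_nonneg (h t x b c) (H t x b c)
      have a3 : (0 : ℝ) ≤ ind (nw t x b c ∧ occ t x b c) := by unfold ind; split_ifs <;> norm_num
      nlinarith
    linarith
  have main : ∀ n, E3 (fun x b c => sqn (h 0 x b c) (V 0 x b c)) +
      ∑ t ∈ range n, E3 (fun x b c => dsn (h t x b c) (H t x b c) (lw (h t x b c) (V t x b c))) ≤
      E3 (fun x b c => sqn (h n x b c) (V n x b c)) +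
        ∑ t ∈ range n, E3 fun x b c => ind (nw t x b c ∧ occ t x b c) := by
    intro n
    induction n with
    | zero => simp
    | succ n ih =>
      rw [sum_range_succ, sum_range_succ]
      have := step n
      linarith
  have h2 : 0 ≤ E3 (fun x b c => sqn (h 0 x b c) (V 0 x b c)) := E3_nonneg fun x b c => sqn_nonneg _ _
  have h3 : E3 (fun x b c => sqn (h K x b c) (V K x b c)) ≤ 1 := by
    have h4 : E3 (fun x b c => sqn (h K x b c) (V K x b c)) ≤ E3 fun (_ : X) (_ : β) (_ : γ) => (1 : ℝ) :=
      E3_mono fun x b c => h1' K x b c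
    exact h4.trans E3_one_le
  linarith [main K]

/-- current kernels: public families `A (t+1) ⊆ B t`, `k t` = kernel of the time `t` -/
theorem cur_sum {A B : ℕ → X → β → γ → Finset X} (hA : ∀ t, PV (A t)) (hB : ∀ t, PV (B t))
    (hs : ∀ t x b c, A (t + 1) x b c ⊆ B t x b c) {k : ℕ → X → β → γ → X → Φ → ℝ}
    (hk : ∀ t x b c x', x' ∈ B t x b c → k (t + 1) x' b c = k (t + 1) x b c) {occ : ℕ → X → β → γ → Prop}
    (ho : ∀ t x b c, ¬ occ t x b c → ∀ y ∈ B t x b c, k (t + 1) x b c y = k t x b c y)
    (h1 : ∀ t x b c, sqn (k t x b c) (B t x b c) ≤ 1) (K : ℕ) :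
    ∑ t ∈ range K, E3 (fun x b c => sqn (k t x b c) (B t x b c) - sqn (k t x b c) (A t x b c)) ≤
      1 + ∑ t ∈ range (K - 1), E3 fun x b c => ind (occ t x b c) := by
  classical
  have step : ∀ t, E3 (fun x b c => sqn (k t x b c) (B t x b c)) ≤
      E3 (fun x b c => sqn (k (t + 1) x b c) (A (t + 1) x b c)) + E3 fun x b c => ind (occ t x b c) := by
    intro t
    have e2 := E3_sqn_mono (h := k (t + 1)) (w := fun _ _ _ => (1 : ℝ)) (hB t) (hA (t + 1)) (hs t) (hk t)
      (fun _ _ _ _ _ => rfl) (fun _ _ _ => zero_le_one)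
    simp only [one_mul] at e2
    have e1 : E3 (fun x b c => sqn (k t x b c) (B t x b c)) ≤
        E3 (fun x b c => sqn (k (t + 1) x b c) (B t x b c)) + E3 fun x b c => ind (occ t x b c) := by
      rw [← E3_add]
      refine E3_mono fun x b c => ?_
      by_cases hoc : occ t x b c
      · have : (ind (occ t x b c) : ℝ) = 1 := by unfold ind; rw [if_pos hoc]
        rw [this]
        have a1 := h1 t x b c
        have a2 := sqn_nonneg (k (t + 1) x b c) (B t x b c)
        linarith
      · have : (ind (occ t x b c) : ℝ) = 0 := by unfold ind; rw [if_neg hoc]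
        rw [this, add_zero]
        exact (sqn_congr fun y hy => (ho t x b c hoc y hy).symm).le
    linarith
  have main : ∀ n, E3 (fun x b c => sqn (k 0 x b c) (A 0 x b c)) +
      ∑ t ∈ range (n + 1), E3 (fun x b c => sqn (k t x b c) (B t x b c) - sqn (k t x b c) (A t x b c)) ≤
      E3 (fun x b c => sqn (k n x b c) (B n x b c)) + ∑ t ∈ range n, E3 fun x b c => ind (occ t x b c) := by
    intro n
    induction n with
    | zero =>
      rw [zero_add, sum_range_one, E3_sub]
      simp
    | succ n ih =>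
      rw [sum_range_succ, sum_range_succ (n := n) (f := fun t => E3 fun x b c => (ind (occ t x b c) : ℝ)), E3_sub]
      have := step n
      linarith
  have h2 : 0 ≤ E3 (fun x b c => sqn (k 0 x b c) (A 0 x b c)) := E3_nonneg fun x b c => sqn_nonneg _ _
  have h3 : ∀ n, E3 (fun x b c => sqn (k n x b c) (B n x b c)) ≤ 1 := fun n =>
    (E3_mono fun x b c => h1 n x b c).trans E3_one_le
  cases K with
  | zero =>
    simp
  | succ n =>
    rw [Nat.add_sub_cancel]
    linarith [main n, h3 n]

end proc

end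

end Pool.Agent.M3.S3B
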