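import Pool.Agent.M3.S3.Law

/-!
# M3.S3B.Run: the running process of route B (note 3448; helper34)

EPOCH `e = (t0, om0)`; frozen labels = labels of the time `t0`.  Removals `R : Rm D` (file S3/Rule): `pf e s x b c K` =
one-family split of the class `K` by the `f`-rule (averages over `cB s b`, depends on `c` through `qc t0 c` only),
`pg` the same for `g`, `sp` = complete split.  CELLS ARE FIBRES of the codes.
* `W e s x = om0 ∩ cA s x` : the public class of a running epoch;
* `VF e s x b c`, `VG` : the cell of `x` in the two VIRTUAL partitions; `VF_self`, `VF_sub`, `VF_congr`, `VF_anti`;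
* `Rt D` = removals and the test `tt` (node measurable, used for `e.t0 < s` only);
* THE PROCESS `ep s x b c : Epo X`, class `U s x b c = W (ep s) s`; at a test the class is `fin (VF ∩ VG)`;
  `self_U`, `U_sub`, `pub`, `U_succ_sub`, `refCl`;
* `ST e s` = stopped up to `s`; `sum_regroup` : pathwise, a sum over the times = sum over the starts of epochs of sums over
  the running times; `E3_start` : given a start the point is uniform in the box `om0 × cB × cC`.
-/

set_option autoImplicit false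
set_option linter.unusedSectionVars false

namespace Pool.Agent.M3.S3B

open Finset Pool.Agent.PWZ Pool.Agent.M3 Pool.Agent.M3.S3

noncomputable section

variable {X β γ ι φ : Type*} [Fintype X] {D : Dat X β γ ι φ}

section virt

variable (R : Rm D) (e : Epo X)

open Classical in
/-- the class of a running epoch -/
def W (D : Dat X β γ ι φ) (e : Epo X) (s : ℕ) (x : X) : Finset X := e.om0 ∩ D.cA s x

open Classical in
/-- the cell of `x` in the virtual `f`-partition -/
def VF : ℕ → X → β → γ → Finset X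
  | 0, _, _, _ => e.om0
  | s + 1, x, b, c => if s + 1 ≤ e.t0 then e.om0 else
      (VF s x b c ∩ D.cA (s + 1) x).filter fun y =>
        R.pf e (s + 1) x b c (VF s x b c ∩ D.cA (s + 1) x) y = R.pf e (s + 1) x b c (VF s x b c ∩ D.cA (s + 1) x) x

open Classical in
/-- the cell of `x` in the virtual `g`-partition -/
def VG : ℕ → X → β → γ → Finset X
  | 0, _, _, _ => e.om0
  | s + 1, x, b, c => if s + 1 ≤ e.t0 then e.om0 else
      (VG s x b c ∩ D.cA (s + 1) x).filter fun y =>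
        R.pg e (s + 1) x b c (VG s x b c ∩ D.cA (s + 1) x) y = R.pg e (s + 1) x b c (VG s x b c ∩ D.cA (s + 1) x) x

variable {e}

theorem mem_W {s : ℕ} {x y : X} : y ∈ W D e s x ↔ y ∈ e.om0 ∧ D.qa s y = D.qa s x := by
  classical
  unfold W
  rw [mem_inter, D.mem_cA]

theorem W_congr {s : ℕ} {x x' : X} (h : D.qa s x = D.qa s x') : W D e s x = W D e s x' := by
  ext y
  rw [mem_W, mem_W, h]

theorem W_anti {s t : ℕ} (h : s ≤ t) (x : X) : W D e t x ⊆ W D e s x := fun y hy => by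
  rw [mem_W] at hy ⊢
  exact ⟨hy.1, D.qa_le h hy.2⟩

theorem self_W {s : ℕ} {x : X} (h : x ∈ e.om0) : x ∈ W D e s x := mem_W.2 ⟨h, rfl⟩

theorem VF_old {s : ℕ} (h : s ≤ e.t0) (x : X) (b : β) (c : γ) : VF R e s x b c = e.om0 := by
  cases s with
  | zero => rfl
  | succ s => simp only [VF, if_pos h]

theorem VG_old {s : ℕ} (h : s ≤ e.t0) (x : X) (b : β) (c : γ) : VG R e s x b c = e.om0 := by
  cases s with
  | zero => rfl
  | succ s => simp only [VG, if_pos h]

open Classical in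
theorem VF_succ {s : ℕ} (h : e.t0 ≤ s) (x : X) (b : β) (c : γ) :
    VF R e (s + 1) x b c = (VF R e s x b c ∩ D.cA (s + 1) x).filter fun y =>
      R.pf e (s + 1) x b c (VF R e s x b c ∩ D.cA (s + 1) x) y =
        R.pf e (s + 1) x b c (VF R e s x b c ∩ D.cA (s + 1) x) x := by
  have h' : ¬ s + 1 ≤ e.t0 := by omega
  simp only [VF, if_neg h']

open Classical in
theorem VG_succ {s : ℕ} (h : e.t0 ≤ s) (x : X) (b : β) (c : γ) :
    VG R e (s + 1) x b c = (VG R e s x b c ∩ D.cA (s + 1) x).filter fun y =>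
      R.pg e (s + 1) x b c (VG R e s x b c ∩ D.cA (s + 1) x) y =
        R.pg e (s + 1) x b c (VG R e s x b c ∩ D.cA (s + 1) x) x := by
  have h' : ¬ s + 1 ≤ e.t0 := by omega
  simp only [VG, if_neg h']

open Classical in
theorem mem_VF_succ {s : ℕ} (h : e.t0 ≤ s) {x : X} {b : β} {c : γ} {y : X} :
    y ∈ VF R e (s + 1) x b c ↔ (y ∈ VF R e s x b c ∧ D.qa (s + 1) y = D.qa (s + 1) x) ∧
      R.pf e (s + 1) x b c (VF R e s x b c ∩ D.cA (s + 1) x) y =
        R.pf e (s + 1) x b c (VF R e s x b c ∩ D.cA (s + 1) x) x := by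
  rw [VF_succ R h, mem_filter, mem_inter, D.mem_cA]

open Classical in
theorem mem_VG_succ {s : ℕ} (h : e.t0 ≤ s) {x : X} {b : β} {c : γ} {y : X} :
    y ∈ VG R e (s + 1) x b c ↔ (y ∈ VG R e s x b c ∧ D.qa (s + 1) y = D.qa (s + 1) x) ∧
      R.pg e (s + 1) x b c (VG R e s x b c ∩ D.cA (s + 1) x) y =
        R.pg e (s + 1) x b c (VG R e s x b c ∩ D.cA (s + 1) x) x := by
  rw [VG_succ R h, mem_filter, mem_inter, D.mem_cA]

theorem VF_self {x : X} (hx : x ∈ e.om0) (s : ℕ) (b : β) (c : γ) : x ∈ VF R e s x b c := by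
  classical
  induction s with
  | zero => exact hx
  | succ s ih =>
    rcases Nat.lt_or_ge s e.t0 with h | h
    · rw [VF_old R (by omega)]; exact hx
    · rw [mem_VF_succ R h]
      exact ⟨⟨ih, rfl⟩, rfl⟩

theorem VG_self {x : X} (hx : x ∈ e.om0) (s : ℕ) (b : β) (c : γ) : x ∈ VG R e s x b c := by
  classical
  induction s with
  | zero => exact hx
  | succ s ih =>
    rcases Nat.lt_or_ge s e.t0 with h | h
    · rw [VG_old R (by omega)]; exact hx
    · rw [mem_VG_succ R h]
      exact ⟨⟨ih, rfl⟩, rfl⟩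

theorem VF_anti {s t : ℕ} (h : s ≤ t) (x : X) (b : β) (c : γ) : VF R e t x b c ⊆ VF R e s x b c := by
  classical
  induction t, h using Nat.le_induction with
  | base => exact Subset.rfl
  | succ n hn ih =>
    rcases Nat.lt_or_ge n e.t0 with h1 | h1
    · rw [VF_old R (show n + 1 ≤ e.t0 by omega), VF_old R (show s ≤ e.t0 by omega)]
    · intro y hy
      exact ih ((mem_VF_succ R h1).1 hy).1.1

theorem VG_anti {s t : ℕ} (h : s ≤ t) (x : X) (b : β) (c : γ) : VG R e t x b c ⊆ VG R e s x b c := by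
  classical
  induction t, h using Nat.le_induction with
  | base => exact Subset.rfl
  | succ n hn ih =>
    rcases Nat.lt_or_ge n e.t0 with h1 | h1
    · rw [VG_old R (show n + 1 ≤ e.t0 by omega), VG_old R (show s ≤ e.t0 by omega)]
    · intro y hy
      exact ih ((mem_VG_succ R h1).1 hy).1.1

theorem VF_om0 (s : ℕ) (x : X) (b : β) (c : γ) : VF R e s x b c ⊆ e.om0 := by
  have h := VF_anti R (e := e) (Nat.zero_le s) x b c
  exact h

theorem VG_om0 (s : ℕ) (x : X) (b : β) (c : γ) : VG R e s x b c ⊆ e.om0 := by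
  have h := VG_anti R (e := e) (Nat.zero_le s) x b c
  exact h

/-- the virtual cells are contained in the class (`om0` inside a cell of the time `t0`) -/
theorem VF_W {x : X} (hx : x ∈ e.om0) (ho : e.om0 ⊆ D.cA e.t0 x) (s : ℕ) (hs : e.t0 ≤ s) (b : β) (c : γ) :
    VF R e s x b c ⊆ W D e s x := by
  classical
  intro y hy
  refine mem_W.2 ⟨VF_om0 R s x b c hy, ?_⟩
  obtain ⟨n, rfl⟩ := Nat.exists_eq_add_of_le hs
  cases n with
  | zero => exact D.mem_cA.1 (ho (VF_om0 R _ x b c hy))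
  | succ n =>
    have h1 : e.t0 ≤ e.t0 + n := Nat.le_add_right _ _
    exact ((mem_VF_succ R h1).1 hy).1.2

theorem VG_W {x : X} (hx : x ∈ e.om0) (ho : e.om0 ⊆ D.cA e.t0 x) (s : ℕ) (hs : e.t0 ≤ s) (b : β) (c : γ) :
    VG R e s x b c ⊆ W D e s x := by
  classical
  intro y hy
  refine mem_W.2 ⟨VG_om0 R s x b c hy, ?_⟩
  obtain ⟨n, rfl⟩ := Nat.exists_eq_add_of_le hs
  cases n with
  | zero => exact D.mem_cA.1 (ho (VG_om0 R _ x b c hy))
  | succ n =>
    have h1 : e.t0 ≤ e.t0 + n := Nat.le_add_right _ _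
    exact ((mem_VG_succ R h1).1 hy).1.2

/-- THE VIRTUAL `f`-PARTITION is a function of the cells of `x`, `b` at the time `s` and of the cell of `c` at the start -/
theorem VF_congr {s : ℕ} (h : e.t0 ≤ s) {x y : X} {b b' : β} {c c' : γ} (hy : y ∈ VF R e s x b c)
    (hb : D.qb s b = D.qb s b') (hc : D.qc e.t0 c = D.qc e.t0 c') : VF R e s y b' c' = VF R e s x b c := by
  classical
  induction s with
  | zero => rfl
  | succ s ih =>
    rcases Nat.lt_or_ge s e.t0 with h1 | h1
    · rw [VF_old R (by omega), VF_old R (by omega)]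
    · rw [mem_VF_succ R h1] at hy
      obtain ⟨⟨hy1, hy2⟩, hy3⟩ := hy
      have e1 := ih h1 hy1 (D.rb s b b' hb)
      have e2 : D.cA (s + 1) y = D.cA (s + 1) x := D.cA_congr hy2
      have e3 := R.pf_c e (s + 1) y x b' b c' c (VF R e s x b c ∩ D.cA (s + 1) x) h hy2 hb.symm hc.symm
      rw [VF_succ R h1, VF_succ R h1, e1, e2, e3, hy3]

theorem VG_congr {s : ℕ} (h : e.t0 ≤ s) {x y : X} {b b' : β} {c c' : γ} (hy : y ∈ VG R e s x b c)
    (hb : D.qb e.t0 b = D.qb e.t0 b') (hc : D.qc s c = D.qc s c') : VG R e s y b' c' = VG R e s x b c := by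
  classical
  induction s with
  | zero => rfl
  | succ s ih =>
    rcases Nat.lt_or_ge s e.t0 with h1 | h1
    · rw [VG_old R (by omega), VG_old R (by omega)]
    · rw [mem_VG_succ R h1] at hy
      obtain ⟨⟨hy1, hy2⟩, hy3⟩ := hy
      have e1 := ih h1 hy1 (D.rc s c c' hc)
      have e2 : D.cA (s + 1) y = D.cA (s + 1) x := D.cA_congr hy2
      have e3 := R.pg_b e (s + 1) y x b' b c' c (VG R e s x b c ∩ D.cA (s + 1) x) h hy2 hb.symm hc.symm
      rw [VG_succ R h1, VG_succ R h1, e1, e2, e3, hy3]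

end virt

/-- removals and the test which ends an epoch -/
structure Rt (D : Dat X β γ ι φ) extends Rm D where
  tt : Epo X → ℕ → X → β → γ → Prop
  tt_q : ∀ (e : Epo X) s x b c x' b' c', e.t0 ≤ s → D.Same s x b c x' b' c' → (tt e s x b c ↔ tt e s x' b' c')

namespace Rt

variable (R : Rt D)

/-- a test of the epoch `e` at one of the times `e.t0 < r ≤ s` -/
def ST (e : Epo X) (s : ℕ) (x : X) (b : β) (c : γ) : Prop := ∃ r, e.t0 < r ∧ r ≤ s ∧ R.tt e r x b c

theorem ST_mono {e : Epo X} {s t : ℕ} (h : s ≤ t) {x : X} {b : β} {c : γ} (hs : R.ST e s x b c) : R.ST e t x b c := by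
  obtain ⟨r, h1, h2, h3⟩ := hs
  exact ⟨r, h1, h2.trans h, h3⟩

theorem not_ST_t0 (e : Epo X) (x : X) (b : β) (c : γ) : ¬ R.ST e e.t0 x b c := by
  rintro ⟨r, h1, h2, -⟩
  omega

theorem ST_inv {e : Epo X} {s : ℕ} {x x' : X} {b b' : β} {c c' : γ} (hS : D.Same s x b c x' b' c') :
    R.ST e s x b c ↔ R.ST e s x' b' c' := by
  constructor
  · rintro ⟨r, h1, h2, h3⟩
    exact ⟨r, h1, h2, (R.tt_q e r _ _ _ _ _ _ h1.le (hS.le h2)).1 h3⟩
  · rintro ⟨r, h1, h2, h3⟩
    exact ⟨r, h1, h2, (R.tt_q e r _ _ _ _ _ _ h1.le (hS.le h2)).2 h3⟩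

theorem ST_succ {e : Epo X} {s : ℕ} (h : e.t0 ≤ s) {x : X} {b : β} {c : γ} :
    R.ST e (s + 1) x b c ↔ R.ST e s x b c ∨ R.tt e (s + 1) x b c := by
  constructor
  · rintro ⟨r, h1, h2, h3⟩
    rcases Nat.lt_or_ge s r with h4 | h4
    · have : r = s + 1 := by omega
      subst this
      exact Or.inr h3
    · exact Or.inl ⟨r, h1, h4, h3⟩
  · rintro (h1 | h1)
    · exact R.ST_mono (Nat.le_succ s) h1
    · exact ⟨s + 1, by omega, le_rfl, h1⟩

open Classical in
/-- the cell of `x` in the complete split of the class `v` at the time `s` -/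
def fin (s : ℕ) (x : X) (b : β) (c : γ) (v : Finset X) : Finset X :=
  v.filter fun y => R.sp s x b c v y = R.sp s x b c v x

open Classical in
/-- the join of the two virtual partitions: the coarse cell of `x` at a test at the time `s` -/
def jn (e : Epo X) (s : ℕ) (x : X) (b : β) (c : γ) : Finset X := VF R.toRm e s x b c ∩ VG R.toRm e s x b c

open Classical in
/-- THE PROCESS: the epoch of the point at the time `s` -/
def ep : ℕ → X → β → γ → Epo X
  | 0, x, b, c => ⟨0, R.fin 0 x b c (D.cA 0 x)⟩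
  | s + 1, x, b, c => if R.tt (ep s x b c) (s + 1) x b c then
      ⟨s + 1, R.fin (s + 1) x b c (R.jn (ep s x b c) (s + 1) x b c)⟩ else ep s x b c

/-- the class of the point at the time `s` -/
def U (s : ℕ) (x : X) (b : β) (c : γ) : Finset X := W D (R.ep s x b c) s x

/-- the half step class from `s` to `s+1` -/
def hf (s : ℕ) (x : X) (b : β) (c : γ) : Finset X := W D (R.ep s x b c) (s + 1) x

theorem mem_fin {s : ℕ} {x : X} {b : β} {c : γ} {v : Finset X} {y : X} :
    y ∈ R.fin s x b c v ↔ y ∈ v ∧ R.sp s x b c v y = R.sp s x b c v x := by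
  classical
  simp only [fin, mem_filter]

theorem fin_sub {s : ℕ} {x : X} {b : β} {c : γ} {v : Finset X} : R.fin s x b c v ⊆ v := fun _ hy =>
  (R.mem_fin.1 hy).1

theorem self_fin {s : ℕ} {x : X} {b : β} {c : γ} {v : Finset X} (h : x ∈ v) : x ∈ R.fin s x b c v :=
  R.mem_fin.2 ⟨h, rfl⟩

theorem fin_congr {s : ℕ} {x x' : X} {b b' : β} {c c' : γ} {v : Finset X} (hS : D.Same s x b c x' b' c')
    (hx' : x' ∈ R.fin s x b c v) : R.fin s x' b' c' v = R.fin s x b c v := by
  ext y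
  rw [mem_fin] at hx' ⊢
  rw [R.mem_fin, ← R.sp_q s x b c x' b' c' v hS, hx'.2]

theorem mem_jn {e : Epo X} {s : ℕ} {x : X} {b : β} {c : γ} {y : X} :
    y ∈ R.jn e s x b c ↔ y ∈ VF R.toRm e s x b c ∧ y ∈ VG R.toRm e s x b c := by
  classical
  simp only [jn, mem_inter]

theorem self_jn {e : Epo X} {s : ℕ} {x : X} {b : β} {c : γ} (hx : x ∈ e.om0) : x ∈ R.jn e s x b c :=
  R.mem_jn.2 ⟨VF_self _ hx s b c, VG_self _ hx s b c⟩

theorem jn_congr {e : Epo X} {s : ℕ} (h : e.t0 ≤ s) {x x' : X} {b b' : β} {c c' : γ}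
    (hS : D.Same s x b c x' b' c') (hx' : x' ∈ R.jn e s x b c) : R.jn e s x' b' c' = R.jn e s x b c := by
  rw [mem_jn] at hx'
  ext y
  rw [mem_jn, mem_jn, VF_congr _ h hx'.1 hS.2.1 (D.qc_le h hS.2.2), VG_congr _ h hx'.2 (D.qb_le h hS.2.1) hS.2.2]

theorem ep_new {s : ℕ} {x : X} {b : β} {c : γ} (h : R.tt (R.ep s x b c) (s + 1) x b c) :
    R.ep (s + 1) x b c = ⟨s + 1, R.fin (s + 1) x b c (R.jn (R.ep s x b c) (s + 1) x b c)⟩ := by
  simp only [ep, if_pos h]

theorem ep_old {s : ℕ} {x : X} {b : β} {c : γ} (h : ¬ R.tt (R.ep s x b c) (s + 1) x b c) :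
    R.ep (s + 1) x b c = R.ep s x b c := by simp only [ep, if_neg h]

/-- the basic facts at the time `s` -/
theorem basic (s : ℕ) (x : X) (b : β) (c : γ) :
    (R.ep s x b c).t0 ≤ s ∧ x ∈ (R.ep s x b c).om0 ∧ (R.ep s x b c).om0 ⊆ D.cA (R.ep s x b c).t0 x := by
  classical
  induction s with
  | zero => exact ⟨le_rfl, R.self_fin (D.self_cA 0 x), R.fin_sub⟩
  | succ s ih =>
    obtain ⟨h1, h2, h3⟩ := ih
    by_cases hn : R.tt (R.ep s x b c) (s + 1) x b c
    · rw [R.ep_new hn]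
      refine ⟨le_rfl, R.self_fin (R.self_jn h2), fun y hy => ?_⟩
      have h4 := (R.mem_jn.1 (R.fin_sub hy)).1
      exact D.mem_cA.2 (mem_W.1 (VF_W _ h2 h3 (s + 1) (h1.trans (Nat.le_succ s)) b c h4)).2
    · rw [R.ep_old hn]
      exact ⟨h1.trans (Nat.le_succ s), h2, h3⟩

theorem t0_le (s : ℕ) (x : X) (b : β) (c : γ) : (R.ep s x b c).t0 ≤ s := (R.basic s x b c).1

theorem self_om0 (s : ℕ) (x : X) (b : β) (c : γ) : x ∈ (R.ep s x b c).om0 := (R.basic s x b c).2.1

theorem om0_sub (s : ℕ) (x : X) (b : β) (c : γ) : (R.ep s x b c).om0 ⊆ D.cA (R.ep s x b c).t0 x :=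
  (R.basic s x b c).2.2

theorem self_U (s : ℕ) (x : X) (b : β) (c : γ) : x ∈ R.U s x b c := self_W (R.self_om0 s x b c)

theorem self_hf (s : ℕ) (x : X) (b : β) (c : γ) : x ∈ R.hf s x b c := self_W (R.self_om0 s x b c)

theorem U_sub (s : ℕ) (x : X) (b : β) (c : γ) : R.U s x b c ⊆ D.cA s x := fun _ hy => D.mem_cA.2 (mem_W.1 hy).2

theorem hf_sub_U (s : ℕ) (x : X) (b : β) (c : γ) : R.hf s x b c ⊆ R.U s x b c := W_anti (Nat.le_succ s) x

theorem hf_sub (s : ℕ) (x : X) (b : β) (c : γ) : R.hf s x b c ⊆ D.cA (s + 1) x := fun _ hy =>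
  D.mem_cA.2 (mem_W.1 hy).2

theorem jn_sub_hf (s : ℕ) (x : X) (b : β) (c : γ) : R.jn (R.ep s x b c) (s + 1) x b c ⊆ R.hf s x b c := fun _ hy =>
  VF_W _ (R.self_om0 s x b c) (R.om0_sub s x b c) (s + 1) ((R.t0_le s x b c).trans (Nat.le_succ s)) b c (R.mem_jn.1 hy).1

/-- at a test the class is a cell of the complete split of the join -/
theorem U_new {s : ℕ} {x : X} {b : β} {c : γ} (h : R.tt (R.ep s x b c) (s + 1) x b c) :
    R.U (s + 1) x b c = R.fin (s + 1) x b c (R.jn (R.ep s x b c) (s + 1) x b c) := by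
  classical
  unfold U
  rw [R.ep_new h]
  ext y
  rw [mem_W]
  constructor
  · exact fun hy => hy.1
  · intro hy
    exact ⟨hy, (mem_W.1 (R.jn_sub_hf s x b c (R.fin_sub hy))).2⟩

/-- without a test the class is the half step class -/
theorem U_keep {s : ℕ} {x : X} {b : β} {c : γ} (h : ¬ R.tt (R.ep s x b c) (s + 1) x b c) :
    R.U (s + 1) x b c = R.hf s x b c := by
  unfold U hf
  rw [R.ep_old h]

theorem U_sub_hf (s : ℕ) (x : X) (b : β) (c : γ) : R.U (s + 1) x b c ⊆ R.hf s x b c := by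
  by_cases hn : R.tt (R.ep s x b c) (s + 1) x b c
  · rw [R.U_new hn]
    exact fun y hy => R.jn_sub_hf s x b c (R.fin_sub hy)
  · rw [R.U_keep hn]

theorem U_succ_sub (s : ℕ) (x : X) (b : β) (c : γ) : R.U (s + 1) x b c ⊆ R.U s x b c :=
  (R.U_sub_hf s x b c).trans (R.hf_sub_U s x b c)

/-- at a start the class is the class of the epoch -/
theorem U_start {s : ℕ} {x : X} {b : β} {c : γ} (h : (R.ep s x b c).t0 = s) : R.U s x b c = (R.ep s x b c).om0 := by
  ext y
  unfold U
  rw [mem_W]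
  constructor
  · exact fun hy => hy.1
  · intro hy
    have h1 := D.mem_cA.1 (R.om0_sub s x b c hy)
    rw [h] at h1
    exact ⟨hy, h1⟩

/-- THE CLASS IS PUBLIC: same node and `x'` in the class of `(x,b,c)` give the same epoch and the same class -/
theorem pub (s : ℕ) {x x' : X} {b b' : β} {c c' : γ} (hS : D.Same s x b c x' b' c') (hx : x' ∈ R.U s x b c) :
    R.ep s x' b' c' = R.ep s x b c ∧ R.U s x' b' c' = R.U s x b c := by
  classical
  have key : ∀ {e e' : Epo X} {y y' : X}, e' = e → D.qa s y = D.qa s y' → W D e' s y' = W D e s y := by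
    intro e e' y y' he hq
    rw [he]
    exact W_congr hq.symm
  induction s generalizing x x' b b' c c' with
  | zero =>
    have e0 : D.cA 0 x' = D.cA 0 x := (D.cA_congr hS.1).symm
    have hx1 : x' ∈ R.fin 0 x b c (D.cA 0 x) := (mem_W.1 hx).1
    have e1 : R.ep 0 x' b' c' = R.ep 0 x b c := by
      simp only [ep]
      rw [e0, R.fin_congr hS hx1]
    exact ⟨e1, key e1 hS.1⟩
  | succ s ih =>
    have hs := hS.le (Nat.le_succ s)
    have hx1 : x' ∈ R.U s x b c := R.U_succ_sub s x b c hx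
    have hk : ∀ {e e' : Epo X} {y y' : X}, e' = e → D.qa s y = D.qa s y' → W D e' s y' = W D e s y := by
      intro e e' y y' he hq
      rw [he]
      exact W_congr hq.symm
    obtain ⟨e1, e2⟩ := ih hs hx1 hk
    have h1 := R.t0_le s x b c
    have h1' : (R.ep s x b c).t0 ≤ s + 1 := h1.trans (Nat.le_succ s)
    have htt := R.tt_q (R.ep s x b c) (s + 1) x b c x' b' c' h1' hS
    by_cases hn : R.tt (R.ep s x b c) (s + 1) x b c
    · have hn' : R.tt (R.ep s x' b' c') (s + 1) x' b' c' := by rw [e1]; exact htt.1 hn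
      rw [R.U_new hn] at hx
      have e3 : R.ep (s + 1) x' b' c' = R.ep (s + 1) x b c := by
        rw [R.ep_new hn, R.ep_new hn', e1, R.jn_congr h1' hS (R.fin_sub hx), R.fin_congr hS hx]
      exact ⟨e3, key e3 hS.1⟩
    · have hn' : ¬ R.tt (R.ep s x' b' c') (s + 1) x' b' c' := by rw [e1]; exact fun h => hn (htt.2 h)
      have e3 : R.ep (s + 1) x' b' c' = R.ep (s + 1) x b c := by
        rw [R.ep_old hn, R.ep_old hn', e1]
      exact ⟨e3, key e3 hS.1⟩

end Rt

end

end Pool.Agent.M3.S3B
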