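import Pool.Agent.M3.S3B.Run

/-!
# M3.S3B.Run2: regrouping by epochs (helper34)

* `refCl` : the classes `U` are a refining public family;
* `not_ST`, `ep_const`, `ep_iff`, `ep_t0` : the epoch at the time `s` is the epoch at `σ ≤ s` iff it is not stopped up to `s`;
* `start σ` = an epoch starts at the time `σ`;
* `sum_regroup` : pathwise, `∑_(s<K) ψ (ep s) s = ∑_(σ<K) 1[start σ] ∑_(σ≤s<K) 1[not stopped up to s] ψ (ep σ) s`;
* `E3_start` : given a start the point is uniform in the box `om0 × cB × cC`; `E3_start_le` : bounds for every epoch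
  (`EpOk e x b c` = `om0` nonempty inside the cell at the time `t0`);
* `sum_start_le` : from a bound for every epoch to a bound for the sum over the times.
-/

set_option autoImplicit false
set_option linter.unusedSectionVars false

namespace Pool.Agent.M3.S3B

open Finset Pool.Agent.PWZ Pool.Agent.M3 Pool.Agent.M3.S3

noncomputable section

variable {X β γ ι φ : Type*} [Fintype X] {D : Dat X β γ ι φ}

namespace Rt

variable (R : Rt D)

/-- an epoch starts at the time `σ` -/
def start (σ : ℕ) (x : X) (b : β) (c : γ) : Prop := (R.ep σ x b c).t0 = σ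

/-- the current epoch has not been stopped -/
theorem not_ST (s : ℕ) (x : X) (b : β) (c : γ) : ¬ R.ST (R.ep s x b c) s x b c := by
  induction s with
  | zero =>
    rintro ⟨r, h1, h2, -⟩
    omega
  | succ s ih =>
    by_cases hn : R.tt (R.ep s x b c) (s + 1) x b c
    · rw [R.ep_new hn]
      exact R.not_ST_t0 ⟨s + 1, _⟩ x b c
    · rw [R.ep_old hn, R.ST_succ (R.t0_le s x b c)]
      rintro (h | h)
      · exact ih h
      · exact hn h

theorem ep_const {σ s : ℕ} (h : σ ≤ s) {x : X} {b : β} {c : γ} (hs : ¬ R.ST (R.ep σ x b c) s x b c) :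
    R.ep s x b c = R.ep σ x b c := by
  induction s, h using Nat.le_induction with
  | base => rfl
  | succ n hn ih =>
    have h1 : ¬ R.ST (R.ep σ x b c) n x b c := fun h => hs (R.ST_mono (Nat.le_succ n) h)
    have h2 := ih h1
    have h3 : ¬ R.tt (R.ep n x b c) (n + 1) x b c := by
      rw [h2]
      intro h4
      exact hs ⟨n + 1, by have := R.t0_le σ x b c; omega, le_rfl, h4⟩
    rw [R.ep_old h3, h2]

theorem ep_iff {σ s : ℕ} (h : σ ≤ s) {x : X} {b : β} {c : γ} :
    R.ep s x b c = R.ep σ x b c ↔ ¬ R.ST (R.ep σ x b c) s x b c :=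
  ⟨fun h1 => h1 ▸ R.not_ST s x b c, R.ep_const h⟩

theorem ep_t0 (s : ℕ) (x : X) (b : β) (c : γ) : R.ep (R.ep s x b c).t0 x b c = R.ep s x b c := by
  induction s with
  | zero => rfl
  | succ s ih =>
    by_cases hn : R.tt (R.ep s x b c) (s + 1) x b c
    · have h1 := R.ep_new hn
      have h2 : (R.ep (s + 1) x b c).t0 = s + 1 := by rw [h1]
      rw [h2]
    · rw [R.ep_old hn, ih]

/-- REGROUPING by epochs, pathwise -/
theorem sum_regroup (K : ℕ) (x : X) (b : β) (c : γ) (ψ : Epo X → ℕ → ℝ) :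
    ∑ s ∈ range K, ψ (R.ep s x b c) s = ∑ σ ∈ range K, ind (R.start σ x b c) *
      ∑ s ∈ Ico σ K, ind (¬ R.ST (R.ep σ x b c) s x b c) * ψ (R.ep σ x b c) s := by
  have h1 : ∀ σ ∈ range K, ind (R.start σ x b c) *
      ∑ s ∈ Ico σ K, ind (¬ R.ST (R.ep σ x b c) s x b c) * ψ (R.ep σ x b c) s =
      ∑ s ∈ range K, (if σ ≤ s then ind (R.start σ x b c) * (ind (¬ R.ST (R.ep σ x b c) s x b c) *
        ψ (R.ep σ x b c) s) else 0) := by
    intro σ _
    rw [Finset.mul_sum, ← Finset.sum_filter]
    refine Finset.sum_congr ?_ fun _ _ => rfl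
    ext s
    simp only [mem_Ico, mem_filter, mem_range]
    exact and_comm
  rw [Finset.sum_congr rfl h1, Finset.sum_comm]
  refine Finset.sum_congr rfl fun s hs => ?_
  have h2 := R.t0_le s x b c
  rw [Finset.sum_eq_single (R.ep s x b c).t0]
  · rw [if_pos h2, R.ep_t0, ind_of (show R.start (R.ep s x b c).t0 x b c by unfold start; rw [R.ep_t0]),
      ind_of (R.not_ST s x b c), one_mul, one_mul]
  · intro σ _ hσ
    by_cases h3 : σ ≤ s
    · rw [if_pos h3]
      by_cases h4 : R.start σ x b c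
      · have h5 : R.ST (R.ep σ x b c) s x b c := by
          by_contra h6
          have h7 := R.ep_const h3 h6
          apply hσ
          rw [h7]
          exact h4.symm
        rw [ind_not (show ¬ ¬ R.ST (R.ep σ x b c) s x b c from fun h => h h5), zero_mul, mul_zero]
      · rw [ind_not h4, zero_mul]
    · rw [if_neg h3]
  · intro h3
    exact absurd (mem_range.2 (lt_of_le_of_lt h2 (mem_range.1 hs))) h3

theorem start_pub {σ : ℕ} {x x' : X} {b b' : β} {c c' : γ} (hS : D.Same σ x b c x' b' c') (hx : x' ∈ R.U σ x b c) :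
    R.start σ x' b' c' ↔ R.start σ x b c := by
  unfold start
  rw [(R.pub σ hS hx).1]

section means

variable [Fintype β] [Fintype γ] [Fintype φ]

/-- the classes are a refining public family -/
theorem refCl : RefCl D R.U := ⟨R.self_U, R.U_sub, fun t _ _ _ _ _ _ h hx => (R.pub t h hx).2, R.U_succ_sub⟩

/-- the boxes at the time `σ`: class, cell of `b`, cell of `c` -/
def bxU (σ : ℕ) : Bx X β γ where
  V := R.U σ
  B := fun _ b _ => D.cB σ b
  C := fun _ _ c => D.cC σ c
  sV := R.self_U σ
  sB := fun _ b _ => D.self_cB σ b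
  sC := fun _ _ c => D.self_cC σ c
  inv := by
    intro x b c x' b' c' hx hb hc
    have h1 := D.mem_cB.1 hb
    have h2 := D.mem_cC.1 hc
    have h3 := D.mem_cA.1 (R.U_sub σ x b c hx)
    exact ⟨(R.pub σ ⟨h3.symm, h1.symm, h2.symm⟩ hx).2, D.cB_congr h1, D.cC_congr h2⟩

/-- GIVEN A START the point is uniform in the box of the epoch -/
theorem E3_start (σ : ℕ) (h : Epo X → X → β → γ → ℝ) :
    E3 (fun x b c => ind (R.start σ x b c) * h (R.ep σ x b c) x b c) =
    E3 (fun x b c => ind (R.start σ x b c) * avg (R.ep σ x b c).om0 fun x' => avg (D.cB σ b) fun b' =>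
      avg (D.cC σ c) fun c' => h (R.ep σ x b c) x' b' c') := by
  rw [E3_box (R.bxU σ)]
  refine E3_congr fun x b c => ?_
  by_cases hs : R.start σ x b c
  · rw [ind_of hs, one_mul]
    show (avg (R.U σ x b c) fun x' => avg (D.cB σ b) fun b' => avg (D.cC σ c) fun c' =>
      ind (R.start σ x' b' c') * h (R.ep σ x' b' c') x' b' c') = _
    rw [R.U_start hs]
    unfold avg
    refine congrArg (· / _) (Finset.sum_congr rfl fun x' hx' => ?_)
    refine congrArg (· / _) (Finset.sum_congr rfl fun b' hb' => ?_)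
    refine congrArg (· / _) (Finset.sum_congr rfl fun c' hc' => ?_)
    have hx2 : x' ∈ R.U σ x b c := by rw [R.U_start hs]; exact hx'
    have hS : D.Same σ x b c x' b' c' :=
      ⟨(D.mem_cA.1 (R.U_sub σ x b c hx2)).symm, (D.mem_cB.1 hb').symm, (D.mem_cC.1 hc').symm⟩
    show ind (R.start σ x' b' c') * h (R.ep σ x' b' c') x' b' c' = h (R.ep σ x b c) x' b' c'
    rw [ind_of ((R.start_pub hS hx2).2 hs), one_mul, (R.pub σ hS hx2).1]
  · rw [ind_not hs, zero_mul]
    show (avg (R.U σ x b c) fun x' => avg (D.cB σ b) fun b' => avg (D.cC σ c) fun c' =>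
      ind (R.start σ x' b' c') * h (R.ep σ x' b' c') x' b' c') = 0
    have h0 : ∀ x' ∈ R.U σ x b c, (avg (D.cB σ b) fun b' => avg (D.cC σ c) fun c' =>
        ind (R.start σ x' b' c') * h (R.ep σ x' b' c') x' b' c') = 0 := by
      intro x' hx'
      unfold avg
      rw [Finset.sum_eq_zero, zero_div]
      intro b' hb'
      show (∑ c' ∈ D.cC σ c, ind (R.start σ x' b' c') * h (R.ep σ x' b' c') x' b' c') / ((D.cC σ c).card : ℝ) = 0
      rw [Finset.sum_eq_zero, zero_div]
      intro c' hc'
      have hS : D.Same σ x b c x' b' c' :=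
        ⟨(D.mem_cA.1 (R.U_sub σ x b c hx')).symm, (D.mem_cB.1 hb').symm, (D.mem_cC.1 hc').symm⟩
      rw [ind_not (fun h => hs ((R.start_pub hS hx').1 h)), zero_mul]
    unfold avg at h0 ⊢
    rw [Finset.sum_eq_zero h0, zero_div]

/-- mean of a function over the box of an epoch (`b`, `c` = points of the node) -/
def Eb (D : Dat X β γ ι φ) (e : Epo X) (b : β) (c : γ) (h : X → β → γ → ℝ) : ℝ :=
  avg e.om0 fun x' => avg (D.cB e.t0 b) fun b' => avg (D.cC e.t0 c) fun c' => h x' b' c'

/-- bounds for every epoch -/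
theorem E3_start_le (σ : ℕ) (h g : Epo X → X → β → γ → ℝ)
    (hb : ∀ x b c, R.start σ x b c → Eb D (R.ep σ x b c) b c (h (R.ep σ x b c)) ≤ Eb D (R.ep σ x b c) b c (g (R.ep σ x b c))) :
    E3 (fun x b c => ind (R.start σ x b c) * h (R.ep σ x b c) x b c) ≤
      E3 (fun x b c => ind (R.start σ x b c) * g (R.ep σ x b c) x b c) := by
  rw [R.E3_start, R.E3_start]
  refine E3_mono fun x b c => ?_
  by_cases hs : R.start σ x b c
  · rw [ind_of hs, one_mul, one_mul]
    have h1 := hb x b c hs
    unfold Eb at h1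
    rw [show (R.ep σ x b c).t0 = σ from hs] at h1
    exact h1
  · rw [ind_not hs, zero_mul, zero_mul]

/-- FROM EPOCHS TO THE PROCESS: if in the box of every epoch the mean of the sum of `h` over the running times is at most
the mean of the sum of `g`, then the same holds along the process -/
theorem sum_le_of_epochs (K : ℕ) (h g : Epo X → ℕ → X → β → γ → ℝ)
    (hb : ∀ σ < K, ∀ x b c, R.start σ x b c →
      Eb D (R.ep σ x b c) b c (fun x' b' c' => ∑ s ∈ Ico σ K, ind (¬ R.ST (R.ep σ x b c) s x' b' c') *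
        h (R.ep σ x b c) s x' b' c') ≤
      Eb D (R.ep σ x b c) b c (fun x' b' c' => ∑ s ∈ Ico σ K, ind (¬ R.ST (R.ep σ x b c) s x' b' c') *
        g (R.ep σ x b c) s x' b' c')) :
    ∑ s ∈ range K, E3 (fun x b c => h (R.ep s x b c) s x b c) ≤
      ∑ s ∈ range K, E3 (fun x b c => g (R.ep s x b c) s x b c) := by
  have key : ∀ f : Epo X → ℕ → X → β → γ → ℝ, ∑ s ∈ range K, E3 (fun x b c => f (R.ep s x b c) s x b c) =
      ∑ σ ∈ range K, E3 (fun x b c => ind (R.start σ x b c) *
        ∑ s ∈ Ico σ K, ind (¬ R.ST (R.ep σ x b c) s x b c) * f (R.ep σ x b c) s x b c) := by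
    intro f
    rw [← E3_finsum, ← E3_finsum]
    exact E3_congr fun x b c => R.sum_regroup K x b c (fun e s => f e s x b c)
  rw [key h, key g]
  refine Finset.sum_le_sum fun σ hσ => ?_
  exact R.E3_start_le σ
    (fun e x b c => ∑ s ∈ Ico σ K, ind (¬ R.ST e s x b c) * h e s x b c)
    (fun e x b c => ∑ s ∈ Ico σ K, ind (¬ R.ST e s x b c) * g e s x b c)
    (fun x b c hs => hb σ (mem_range.1 hσ) x b c hs)

end means

end Rt

end

end Pool.Agent.M3.S3B
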